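import Pool.Agent.Lib.MP_f30071_gt.Defs

/-! A one dimensional absolute continuity lemma. -/

open MeasureTheory ProbabilityTheory Filter Topology Set
open scoped InnerProductSpace Pointwise NNReal ENNReal

namespace MV

namespace Ac1

/-- first derivative of `s ↦ θ √(s² + 1 - ζ²)` -/
noncomputable def R1 (θ ζ s : ℝ) : ℝ := θ * s / Real.sqrt (s ^ 2 + 1 - ζ ^ 2)

/-- second derivative -/
noncomputable def R2 (θ ζ s : ℝ) : ℝ := θ * (1 - ζ ^ 2) / Real.sqrt (s ^ 2 + 1 - ζ ^ 2) ^ 3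

/-- the point where `θ √(s² + 1 - ζ²) = ζ` -/
noncomputable def s0 (θ ζ : ℝ) : ℝ := Real.sqrt ((max ζ 0) ^ 2 * (1 + θ ^ 2) / θ ^ 2 - 1)

noncomputable def rp (θ ζ s : ℝ) : ℝ := if s0 θ ζ < s then R1 θ ζ s else 0

variable {θ : ℝ}

theorem s0_nonneg (ζ : ℝ) : 0 ≤ s0 θ ζ := Real.sqrt_nonneg _

theorem rad_pos {ζ : ℝ} (hζ : |ζ| < 1) (s : ℝ) : 0 < s ^ 2 + 1 - ζ ^ 2 := by
  have h : ζ ^ 2 < 1 := by
    have := sq_lt_one_iff_abs_lt_one ζ
    exact this.mpr hζ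
  nlinarith [sq_nonneg s]

theorem hasDerivAt_root {ζ : ℝ} (hζ : |ζ| < 1) (s : ℝ) :
    HasDerivAt (fun s => θ * Real.sqrt (s ^ 2 + 1 - ζ ^ 2)) (R1 θ ζ s) s := by
  have h0 := rad_pos hζ s
  have h1 : HasDerivAt (fun s : ℝ => s ^ 2 + 1 - ζ ^ 2) (2 * s) s := by
    have := ((hasDerivAt_pow 2 s).add_const (1 : ℝ)).sub_const (ζ ^ 2)
    simpa using this
  have h2 := (h1.sqrt h0.ne').const_mul θ
  refine h2.congr_deriv ?_
  unfold R1
  field_simp

theorem hasDerivAt_R1 {ζ : ℝ} (hζ : |ζ| < 1) (s : ℝ) :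
    HasDerivAt (R1 θ ζ) (R2 θ ζ s) s := by
  have h0 := rad_pos hζ s
  have h1 : HasDerivAt (fun s : ℝ => s ^ 2 + 1 - ζ ^ 2) (2 * s) s := by
    have := ((hasDerivAt_pow 2 s).add_const (1 : ℝ)).sub_const (ζ ^ 2)
    simpa using this
  have hs : 0 < Real.sqrt (s ^ 2 + 1 - ζ ^ 2) := Real.sqrt_pos.mpr h0
  have h2 := ((hasDerivAt_id s).const_mul θ).div (h1.sqrt h0.ne') hs.ne'
  have h3 : HasDerivAt (R1 θ ζ) _ s := h2
  refine h3.congr_deriv ?_
  unfold R2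
  have hsq : Real.sqrt (s ^ 2 + 1 - ζ ^ 2) ^ 2 = s ^ 2 + 1 - ζ ^ 2 := Real.sq_sqrt h0.le
  simp only [id]
  field_simp
  rw [hsq]
  ring

theorem R2_nonneg (hθ : 0 < θ) {ζ : ℝ} (hζ : |ζ| < 1) (s : ℝ) : 0 ≤ R2 θ ζ s := by
  have h : ζ ^ 2 < 1 := (sq_lt_one_iff_abs_lt_one ζ).mpr hζ
  unfold R2
  have : 0 < 1 - ζ ^ 2 := by linarith
  positivity

theorem R1_nonneg (hθ : 0 < θ) {ζ : ℝ} {s : ℝ} (hs : 0 ≤ s) : 0 ≤ R1 θ ζ s := by
  unfold R1
  positivity

theorem R1_mono (hθ : 0 < θ) {ζ : ℝ} (hζ : |ζ| < 1) : Monotone (R1 θ ζ) :=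
  monotone_of_deriv_nonneg (fun s => (hasDerivAt_R1 hζ s).differentiableAt)
    (fun s => by rw [(hasDerivAt_R1 hζ s).deriv]; exact R2_nonneg hθ hζ s)

theorem R1_abs_le (hθ : 0 < θ) {ζ : ℝ} (hζ : |ζ| ≤ 1) (s : ℝ) : |R1 θ ζ s| ≤ θ := by
  have h : ζ ^ 2 ≤ 1 := (sq_le_one_iff_abs_le_one ζ).mpr hζ
  unfold R1
  rw [abs_div, abs_mul, abs_of_pos hθ, abs_of_nonneg (Real.sqrt_nonneg _)]
  have h1 : |s| ≤ Real.sqrt (s ^ 2 + 1 - ζ ^ 2) := by
    rw [← Real.sqrt_sq_eq_abs]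
    exact Real.sqrt_le_sqrt (by linarith)
  rcases (Real.sqrt_nonneg (s ^ 2 + 1 - ζ ^ 2)).eq_or_lt with h2 | h2
  · rw [← h2, div_zero]; exact hθ.le
  · rw [div_le_iff₀ h2]
    nlinarith

theorem rp_nonneg (hθ : 0 < θ) (ζ s : ℝ) : 0 ≤ rp θ ζ s := by
  unfold rp
  split_ifs with h
  · exact R1_nonneg hθ ((s0_nonneg ζ).trans h.le)
  · exact le_rfl

theorem rp_mono (hθ : 0 < θ) {ζ : ℝ} (hζ : |ζ| < 1) : Monotone (rp θ ζ) := by
  intro x y hxy
  unfold rp
  split_ifs with h1 h2 h2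
  · exact R1_mono hθ hζ hxy
  · exact absurd (h1.trans_le hxy) h2
  · exact R1_nonneg hθ ((s0_nonneg ζ).trans h2.le)
  · exact le_rfl

theorem rp_abs_le (hθ : 0 < θ) {ζ : ℝ} (hζ : |ζ| ≤ 1) (s : ℝ) : |rp θ ζ s| ≤ θ := by
  unfold rp
  split_ifs
  · exact R1_abs_le hθ hζ s
  · simp [hθ.le]

theorem ftc (hθ : 0 < θ) {ζ : ℝ} (hζ : |ζ| < 1) {x y : ℝ} (hxy : x ≤ y) :
    ∫⁻ s in Ioc x y, ENNReal.ofReal (R2 θ ζ s) = ENNReal.ofReal (R1 θ ζ y - R1 θ ζ x) := by
  have hc : Continuous (R2 θ ζ) := by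
    unfold R2
    refine Continuous.div (by fun_prop) (by fun_prop) ?_
    intro s
    have := Real.sqrt_pos.mpr (rad_pos hζ s)
    positivity
  have h1 := intervalIntegral.integral_eq_sub_of_hasDerivAt (a := x) (b := y)
    (fun s _ => hasDerivAt_R1 (θ := θ) hζ s) (hc.intervalIntegrable _ _)
  rw [← h1, intervalIntegral.integral_of_le hxy, ofReal_integral_eq_lintegral_ofReal]
  · exact (hc.intervalIntegrable x y).1
  · exact Eventually.of_forall fun s => R2_nonneg hθ hζ s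

theorem key_plus (hθ : 0 < θ) {ζ : ℝ} (hζ : |ζ| < 1) {x y : ℝ} (hxy : x ≤ y)
    (hx : s0 θ ζ = x → s0 θ ζ = 0) (hy : s0 θ ζ = y → s0 θ ζ = 0) :
    ENNReal.ofReal (rp θ ζ y - rp θ ζ x)
      = (∫⁻ s in Ioc x y, (Ioi (s0 θ ζ)).indicator (fun s => ENNReal.ofReal (R2 θ ζ s)) s)
        + (Ioc x y).indicator (fun _ => ENNReal.ofReal (R1 θ ζ (s0 θ ζ))) (s0 θ ζ) := by
  set σ := s0 θ ζ with hσ
  have hσ0 : 0 ≤ σ := s0_nonneg ζ
  have hR0 : R1 θ ζ 0 = 0 := by simp [R1]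
  rw [lintegral_indicator measurableSet_Ioi, Measure.restrict_restrict measurableSet_Ioi]
  rcases lt_or_ge σ y with h1 | h1
  · have ry : rp θ ζ y = R1 θ ζ y := by rw [rp, if_pos h1]
    rcases lt_or_ge x σ with h2 | h2
    · have rx : rp θ ζ x = 0 := by rw [rp, if_neg (not_lt.mpr h2.le)]
      have hset : Ioi σ ∩ Ioc x y = Ioc σ y := by
        ext s
        simp only [mem_inter_iff, mem_Ioi, mem_Ioc]
        constructor
        · rintro ⟨a, b, c⟩; exact ⟨a, c⟩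
        · rintro ⟨a, c⟩; exact ⟨a, h2.trans a, c⟩
      rw [hset, ftc hθ hζ h1.le, ry, rx, indicator_of_mem (show σ ∈ Ioc x y from ⟨h2, h1.le⟩),
        ← ENNReal.ofReal_add (sub_nonneg.mpr (R1_mono hθ hζ h1.le)) (R1_nonneg hθ hσ0)]
      congr 1
      ring
    · have hset : Ioi σ ∩ Ioc x y = Ioc x y := by
        ext s
        simp only [mem_inter_iff, mem_Ioi, mem_Ioc]
        constructor
        · rintro ⟨a, b, c⟩; exact ⟨b, c⟩
        · rintro ⟨b, c⟩; exact ⟨h2.trans_lt b, b, c⟩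
      have rx : rp θ ζ x = R1 θ ζ x := by
        rcases h2.lt_or_eq with h3 | h3
        · rw [rp, if_pos h3]
        · have h4 := hx h3
          rw [rp, if_neg (not_lt.mpr h3.ge), ← h3, h4, hR0]
      have hnot : σ ∉ Ioc x y := fun h => absurd h.1 (not_lt.mpr h2)
      rw [hset, ftc hθ hζ hxy, ry, rx, indicator_of_notMem hnot, add_zero]
  · have ry : rp θ ζ y = 0 := by rw [rp, if_neg (not_lt.mpr h1)]
    have rx : rp θ ζ x = 0 := by rw [rp, if_neg (not_lt.mpr (hxy.trans h1))]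
    have hset : Ioi σ ∩ Ioc x y = ∅ := by
      ext s
      simp only [mem_inter_iff, mem_Ioi, mem_Ioc, mem_empty_iff_false, iff_false]
      rintro ⟨a, b, c⟩
      linarith
    rw [hset, ry, rx, Measure.restrict_empty, lintegral_zero_measure, sub_self, ENNReal.ofReal_zero, zero_add]
    symm
    rcases h1.lt_or_eq with h3 | h3
    · exact indicator_of_notMem (fun h => absurd h.2 (not_le.mpr h3)) _
    · have h4 := hy h3.symm
      rw [h4, hR0]
      simp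

theorem s0_inv (hθ : 0 < θ) {ζ x : ℝ} (h : s0 θ ζ = x) (hx : x ≠ 0) :
    ζ = θ / Real.sqrt (1 + θ ^ 2) * Real.sqrt (1 + x ^ 2) := by
  have hx0 : 0 < x := lt_of_le_of_ne (h ▸ s0_nonneg ζ) (Ne.symm hx)
  have h1 : (max ζ 0) ^ 2 * (1 + θ ^ 2) / θ ^ 2 - 1 = x ^ 2 := by
    have h2 : 0 < (max ζ 0) ^ 2 * (1 + θ ^ 2) / θ ^ 2 - 1 := by
      apply Real.sqrt_pos.mp
      have : s0 θ ζ > 0 := h ▸ hx0
      exact this
    rw [← h, s0, Real.sq_sqrt h2.le]
  have hm : (max ζ 0) ^ 2 = (θ / Real.sqrt (1 + θ ^ 2) * Real.sqrt (1 + x ^ 2)) ^ 2 := by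
    rw [mul_pow, div_pow, Real.sq_sqrt (by positivity), Real.sq_sqrt (by positivity), ← h1]
    field_simp
    ring
  have hm2 : max ζ 0 = θ / Real.sqrt (1 + θ ^ 2) * Real.sqrt (1 + x ^ 2) :=
    (sq_eq_sq₀ (le_max_right _ _) (by positivity)).mp hm
  have hpos : 0 < max ζ 0 := by rw [hm2]; positivity
  rcases le_total ζ 0 with h3 | h3
  · rw [max_eq_right h3] at hpos
    exact absurd hpos (lt_irrefl _)
  · rw [max_eq_left h3] at hm2
    exact hm2

theorem s0_lt_iff (hθ : 0 < θ) {ζ x : ℝ} (hζ : |ζ| < 1) (hx : 0 < x) :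
    s0 θ ζ < x ↔ ζ < θ * Real.sqrt (x ^ 2 + 1 - ζ ^ 2) := by
  have h0 := rad_pos hζ x
  rw [s0, Real.sqrt_lt' hx]
  rcases le_or_gt ζ 0 with h | h
  · rw [max_eq_right h]
    have h1 : 0 < θ * Real.sqrt (x ^ 2 + 1 - ζ ^ 2) := mul_pos hθ (Real.sqrt_pos.mpr h0)
    constructor
    · intro _; linarith
    · intro _; simp only [ne_eq, OfNat.ofNat_ne_zero, not_false_eq_true, zero_pow, zero_mul, zero_div]
      nlinarith [sq_nonneg x]
  · rw [max_eq_left h.le, ← sq_lt_sq₀ h.le (by positivity), mul_pow, Real.sq_sqrt h0.le,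
      sub_lt_iff_lt_add, div_lt_iff₀ (by positivity)]
    constructor <;> intro h2 <;> nlinarith

theorem R1_neg (ζ s : ℝ) : R1 θ ζ (-s) = - R1 θ ζ s := by
  unfold R1
  rw [neg_sq]
  ring

theorem rp_of_nonpos (ζ : ℝ) {s : ℝ} (hs : s ≤ 0) : rp θ ζ s = 0 := by
  rw [rp, if_neg (not_lt.mpr (hs.trans (s0_nonneg ζ)))]

/-- derivative of `max ζ (θ √(s² + 1 - ζ²))` off the creases -/
theorem hasDerivAt_q (hθ : 0 < θ) {ζ b : ℝ} (hζ : |ζ| < 1)
    (hne : ζ ≠ θ * Real.sqrt (b ^ 2 + 1 - ζ ^ 2)) :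
    HasDerivAt (fun s => max ζ (θ * Real.sqrt (s ^ 2 + 1 - ζ ^ 2)))
      (rp θ ζ b - rp θ ζ (-b)) b := by
  have hr := hasDerivAt_root (θ := θ) hζ b
  have hR0 : R1 θ ζ 0 = 0 := by simp [R1]
  rcases lt_or_gt_of_ne hne with h | h
  · have heq : (fun s => max ζ (θ * Real.sqrt (s ^ 2 + 1 - ζ ^ 2))) =ᶠ[𝓝 b]
        (fun s => θ * Real.sqrt (s ^ 2 + 1 - ζ ^ 2)) := by
      filter_upwards [hr.continuousAt.eventually_const_lt h] with s hs
      exact max_eq_right hs.le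
    refine (hr.congr_of_eventuallyEq heq).congr_deriv ?_
    rcases lt_trichotomy b 0 with hb | hb | hb
    · have h1 : s0 θ ζ < -b := (s0_lt_iff hθ hζ (by linarith)).mpr (by rwa [neg_sq])
      rw [rp_of_nonpos ζ hb.le, rp, if_pos h1, R1_neg]
      ring
    · subst hb
      rw [neg_zero, sub_self, hR0]
    · have h1 : s0 θ ζ < b := (s0_lt_iff hθ hζ hb).mpr h
      rw [rp_of_nonpos ζ (by linarith : -b ≤ 0), rp, if_pos h1, sub_zero]
  · have heq : (fun s => max ζ (θ * Real.sqrt (s ^ 2 + 1 - ζ ^ 2))) =ᶠ[𝓝 b] (fun _ => ζ) := by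
      filter_upwards [hr.continuousAt.eventually_lt_const h] with s hs
      exact max_eq_left hs.le
    refine ((hasDerivAt_const b ζ).congr_of_eventuallyEq heq).congr_deriv ?_
    rcases lt_trichotomy b 0 with hb | hb | hb
    · have h1 : ¬ s0 θ ζ < -b := by
        rw [s0_lt_iff hθ hζ (by linarith), neg_sq]
        exact not_lt.mpr h.le
      rw [rp_of_nonpos ζ hb.le, rp, if_neg h1, sub_zero]
    · subst hb
      rw [neg_zero, sub_self]
    · have h1 : ¬ s0 θ ζ < b := by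
        rw [s0_lt_iff hθ hζ hb]
        exact not_lt.mpr h.le
      rw [rp_of_nonpos ζ (by linarith : -b ≤ 0), rp, if_neg h1, sub_zero]

theorem s0_measurable : Measurable (s0 θ) := by
  unfold s0
  fun_prop

theorem R1_measurable2 : Measurable (fun p : ℝ × ℝ => R1 θ p.1 p.2) := by
  unfold R1
  fun_prop

theorem R2_measurable2 : Measurable (fun p : ℝ × ℝ => R2 θ p.1 p.2) := by
  unfold R2
  fun_prop

theorem rp_measurable (s : ℝ) : Measurable (fun ζ => rp θ ζ s) := by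
  unfold rp
  refine Measurable.ite (measurableSet_lt s0_measurable measurable_const) ?_ measurable_const
  exact R1_measurable2.comp (measurable_id.prodMk measurable_const)

/-- singletons are null -/
theorem ae_ne {ν : Measure ℝ} (hac : ν ≪ volume) (x : ℝ) : ∀ᵐ ζ ∂ν, ζ ≠ x := by
  have h : ∀ᵐ ζ ∂(volume : Measure ℝ), ζ ≠ x := by
    rw [ae_iff]
    simp
  exact hac.ae_le h

theorem ae_lt_one {ν : Measure ℝ} (hν : ∀ᵐ ζ ∂ν, |ζ| ≤ 1) (hac : ν ≪ volume) :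
    ∀ᵐ ζ ∂ν, |ζ| < 1 := by
  filter_upwards [hν, ae_ne hac 1, ae_ne hac (-1)] with ζ h h1 h2
  rcases h.lt_or_eq with h3 | h3
  · exact h3
  · rcases eq_or_eq_neg_of_abs_eq h3 with h4 | h4
    · exact absurd h4 h1
    · exact absurd h4 h2

/-- the absolutely continuous measure -/
noncomputable def mp (θ : ℝ) (ν : Measure ℝ) : Measure ℝ :=
  volume.withDensity (fun s => ∫⁻ ζ, (Ioi (s0 θ ζ)).indicator
    (fun s => ENNReal.ofReal (R2 θ ζ s)) s ∂ν)
  + (ν.withDensity (fun ζ => ENNReal.ofReal (R1 θ ζ (s0 θ ζ)))).map (s0 θ)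

theorem mp_ac (hθ : 0 < θ) {ν : Measure ℝ} (hac : ν ≪ volume) : mp θ ν ≪ volume := by
  unfold mp
  refine Measure.AbsolutelyContinuous.add_left_iff.mpr ⟨withDensity_absolutelyContinuous _ _, ?_⟩
  refine Measure.AbsolutelyContinuous.mk fun N hN h0 => ?_
  rw [Measure.map_apply s0_measurable hN, withDensity_apply _ (s0_measurable hN)]
  set g : ℝ → ℝ := fun x => θ / Real.sqrt (1 + θ ^ 2) * Real.sqrt (1 + x ^ 2) with hg
  have hgd : Differentiable ℝ g := by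
    intro x
    apply DifferentiableAt.const_mul
    apply DifferentiableAt.sqrt (by fun_prop)
    positivity
  have hN0 : (volume : Measure ℝ) (g '' N) = 0 :=
    addHaar_image_eq_zero_of_differentiableOn_of_addHaar_eq_zero volume hgd.differentiableOn h0
  have hae : ∀ᵐ ζ ∂ν, ζ ∉ g '' N := measure_eq_zero_iff_ae_notMem.mp (hac hN0)
  have hR0 : ∀ ζ, R1 θ ζ 0 = 0 := by simp [R1]
  rw [lintegral_eq_zero_iff' (by
    have h1 : Measurable (fun ζ => R1 θ ζ (s0 θ ζ)) :=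
      R1_measurable2.comp (measurable_id.prodMk s0_measurable)
    exact h1.ennreal_ofReal.aemeasurable)]
  rw [Filter.EventuallyEq, ae_restrict_iff' (s0_measurable hN)]
  filter_upwards [hae] with ζ hζ hmem
  have hz : s0 θ ζ = 0 := by
    by_contra hne
    exact hζ ⟨s0 θ ζ, hmem, (s0_inv hθ rfl hne).symm⟩
  rw [hz, hR0, ENNReal.ofReal_zero, Pi.zero_apply]

theorem mp_Ioc (hθ : 0 < θ) {ν : Measure ℝ} [IsProbabilityMeasure ν] (hν : ∀ᵐ ζ ∂ν, |ζ| ≤ 1)
    (hac : ν ≪ volume) {x y : ℝ} (hxy : x ≤ y) :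
    mp θ ν (Ioc x y) = ∫⁻ ζ, ENNReal.ofReal (rp θ ζ y - rp θ ζ x) ∂ν := by
  have hF : Measurable (fun p : ℝ × ℝ => (Ioi (s0 θ p.2)).indicator
      (fun s => ENNReal.ofReal (R2 θ p.2 s)) p.1) := by
    have h1 : Measurable (fun p : ℝ × ℝ => ENNReal.ofReal (R2 θ p.2 p.1)) :=
      (R2_measurable2.comp measurable_swap).ennreal_ofReal
    have h2 : MeasurableSet {p : ℝ × ℝ | s0 θ p.2 < p.1} :=
      measurableSet_lt (s0_measurable.comp measurable_snd) measurable_fst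
    have h3 := h1.indicator h2
    have h4 : (fun p : ℝ × ℝ => (Ioi (s0 θ p.2)).indicator
        (fun s => ENNReal.ofReal (R2 θ p.2 s)) p.1)
        = {p : ℝ × ℝ | s0 θ p.2 < p.1}.indicator (fun p => ENNReal.ofReal (R2 θ p.2 p.1)) := by
      funext p
      by_cases hp : s0 θ p.2 < p.1
      · rw [indicator_of_mem (show p ∈ {p : ℝ × ℝ | s0 θ p.2 < p.1} from hp),
          indicator_of_mem (show p.1 ∈ Ioi (s0 θ p.2) from hp)]
      · rw [indicator_of_notMem (show p ∉ {p : ℝ × ℝ | s0 θ p.2 < p.1} from hp),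
          indicator_of_notMem (show p.1 ∉ Ioi (s0 θ p.2) from hp)]
    rw [h4]
    exact h3
  have hW : Measurable (fun ζ => ENNReal.ofReal (R1 θ ζ (s0 θ ζ))) :=
    (R1_measurable2.comp (measurable_id.prodMk s0_measurable)).ennreal_ofReal
  unfold mp
  rw [Measure.add_apply, withDensity_apply _ measurableSet_Ioc,
    Measure.map_apply s0_measurable measurableSet_Ioc,
    withDensity_apply _ (s0_measurable measurableSet_Ioc),
    lintegral_lintegral_swap (f := fun s ζ => (Ioi (s0 θ ζ)).indicator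
      (fun s => ENNReal.ofReal (R2 θ ζ s)) s) hF.aemeasurable,
    ← lintegral_indicator (s0_measurable measurableSet_Ioc), ← lintegral_add_right _
      (hW.indicator (s0_measurable measurableSet_Ioc))]
  refine lintegral_congr_ae ?_
  filter_upwards [ae_lt_one hν hac, ae_ne hac (θ / Real.sqrt (1 + θ ^ 2) * Real.sqrt (1 + x ^ 2)),
    ae_ne hac (θ / Real.sqrt (1 + θ ^ 2) * Real.sqrt (1 + y ^ 2))] with ζ h1 h2 h3
  rw [key_plus hθ h1 hxy]
  · congr 1
  · intro h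
    by_contra h4
    exact h2 (s0_inv hθ h (h ▸ h4))
  · intro h
    by_contra h4
    exact h3 (s0_inv hθ h (h ▸ h4))

theorem crease_null (hθ : 0 < θ) {ν : Measure ℝ} (hν : ∀ᵐ ζ ∂ν, |ζ| ≤ 1) (hac : ν ≪ volume)
    (b : ℝ) : ∀ᵐ ζ ∂ν, ζ ≠ θ * Real.sqrt (b ^ 2 + 1 - ζ ^ 2) := by
  filter_upwards [ae_lt_one hν hac,
    ae_ne hac (θ / Real.sqrt (1 + θ ^ 2) * Real.sqrt (1 + b ^ 2))] with ζ h1 h2 h3
  apply h2
  have h0 := rad_pos h1 b
  have hz : 0 < ζ := by rw [h3]; exact mul_pos hθ (Real.sqrt_pos.mpr h0)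
  have h4 : ζ ^ 2 = θ ^ 2 * (b ^ 2 + 1 - ζ ^ 2) := by
    conv_lhs => rw [h3]
    rw [mul_pow, Real.sq_sqrt h0.le]
  have h5 : ζ ^ 2 = (θ / Real.sqrt (1 + θ ^ 2) * Real.sqrt (1 + b ^ 2)) ^ 2 := by
    rw [mul_pow, div_pow, Real.sq_sqrt (by positivity), Real.sq_sqrt (by positivity)]
    field_simp
    linarith
  exact (sq_eq_sq₀ hz.le (by positivity)).mp h5

theorem sqrt_lip {A : ℝ} (hA : 0 ≤ A) (x y : ℝ) :
    |Real.sqrt (x ^ 2 + A) - Real.sqrt (y ^ 2 + A)| ≤ |x - y| := by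
  have hx := Real.sq_sqrt (by positivity : 0 ≤ x ^ 2 + A)
  have hy := Real.sq_sqrt (by positivity : 0 ≤ y ^ 2 + A)
  have h1 := Real.sqrt_nonneg (x ^ 2 + A)
  have h2 := Real.sqrt_nonneg (y ^ 2 + A)
  rw [← sq_le_sq, sub_sq, sub_sq, hx, hy]
  have h3 : x * y + A ≤ Real.sqrt (x ^ 2 + A) * Real.sqrt (y ^ 2 + A) := by
    rw [← Real.sqrt_mul (by positivity)]
    apply Real.le_sqrt_of_sq_le
    nlinarith [mul_nonneg hA (sq_nonneg (x - y))]
  nlinarith

theorem q_lip (hθ : 0 < θ) {ζ : ℝ} (hζ : |ζ| ≤ 1) (x y : ℝ) :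
    |max ζ (θ * Real.sqrt (x ^ 2 + 1 - ζ ^ 2)) - max ζ (θ * Real.sqrt (y ^ 2 + 1 - ζ ^ 2))|
      ≤ θ * |x - y| := by
  have h : ζ ^ 2 ≤ 1 := (sq_le_one_iff_abs_le_one ζ).mpr hζ
  refine (abs_max_sub_max_le_max _ _ _ _).trans ?_
  rw [sub_self, abs_zero, max_eq_right (abs_nonneg _), ← mul_sub, abs_mul, abs_of_pos hθ,
    add_sub_assoc, add_sub_assoc]
  exact mul_le_mul_of_nonneg_left (sqrt_lip (by linarith) x y) hθ.le

theorem q_integrable (hθ : 0 < θ) {ν : Measure ℝ} [IsProbabilityMeasure ν]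
    (hν : ∀ᵐ ζ ∂ν, |ζ| ≤ 1) (s : ℝ) :
    Integrable (fun ζ => max ζ (θ * Real.sqrt (s ^ 2 + 1 - ζ ^ 2))) ν := by
  refine Integrable.of_bound (Continuous.aestronglyMeasurable (by fun_prop))
    (1 + θ * Real.sqrt (s ^ 2 + 1)) ?_
  filter_upwards [hν] with ζ hζ
  have h1 : θ * Real.sqrt (s ^ 2 + 1 - ζ ^ 2) ≤ θ * Real.sqrt (s ^ 2 + 1) :=
    mul_le_mul_of_nonneg_left (Real.sqrt_le_sqrt (by linarith [sq_nonneg ζ])) hθ.le
  have h2 : 0 ≤ θ * Real.sqrt (s ^ 2 + 1 - ζ ^ 2) := by positivity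
  rw [Real.norm_eq_abs]
  have h3 := abs_le.mp hζ
  rw [abs_le]
  constructor
  · have := le_max_right ζ (θ * Real.sqrt (s ^ 2 + 1 - ζ ^ 2))
    have h4 : 0 ≤ θ * Real.sqrt (s ^ 2 + 1) := by positivity
    linarith
  · apply max_le
    · have h4 : 0 ≤ θ * Real.sqrt (s ^ 2 + 1) := by positivity
      linarith
    · linarith

theorem pos_integrable {μ : Measure ℝ} [IsFiniteMeasure μ]
    (hμ : Integrable (fun τ : ℝ => τ) μ) (s : ℝ) : Integrable (fun τ => max 0 (s - τ)) μ := by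
  have h := (integrable_const (0 : ℝ) (μ := μ)).sup ((integrable_const s).sub hμ)
  exact h

/-- right difference quotients of `∫ (s - τ)_+ dμ` -/
theorem quot_mu {μ : Measure ℝ} [IsFiniteMeasure μ]
    (hμ : Integrable (fun τ : ℝ => τ) μ) (b : ℝ) :
    Tendsto (fun t => t⁻¹ * ((∫ τ, max 0 (b + t - τ) ∂μ) - ∫ τ, max 0 (b - τ) ∂μ))
      (𝓝[>] (0 : ℝ)) (𝓝 (μ.real (Iic b))) := by
  have h1 : ∀ t : ℝ, t⁻¹ * ((∫ τ, max 0 (b + t - τ) ∂μ) - ∫ τ, max 0 (b - τ) ∂μ)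
      = ∫ τ, t⁻¹ * (max 0 (b + t - τ) - max 0 (b - τ)) ∂μ := by
    intro t
    rw [integral_const_mul, integral_sub (pos_integrable hμ _) (pos_integrable hμ _)]
  simp only [h1]
  have h2 : μ.real (Iic b) = ∫ τ, (Iic b).indicator (fun _ => (1 : ℝ)) τ ∂μ := by
    rw [integral_indicator measurableSet_Iic]
    simp
  rw [h2]
  refine tendsto_integral_filter_of_dominated_convergence (fun _ => 1) ?_ ?_
    (integrable_const _) ?_
  · exact Eventually.of_forall fun t => Continuous.aestronglyMeasurable (by fun_prop)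
  · filter_upwards [self_mem_nhdsWithin] with t ht
    have ht' : 0 < t := ht
    refine Eventually.of_forall fun τ => ?_
    rw [Real.norm_eq_abs, abs_mul, abs_of_pos (inv_pos.mpr ht'), inv_mul_le_iff₀ ht', mul_one]
    refine (abs_max_sub_max_le_max _ _ _ _).trans ?_
    rw [sub_self, abs_zero, max_eq_right (abs_nonneg _)]
    have : b + t - τ - (b - τ) = t := by ring
    rw [this, abs_of_pos ht']
  · refine Eventually.of_forall fun τ => ?_
    rcases le_or_gt τ b with h | h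
    · rw [indicator_of_mem (show τ ∈ Iic b from h)]
      refine tendsto_const_nhds.congr' ?_
      filter_upwards [self_mem_nhdsWithin] with t ht
      have ht' : 0 < t := ht
      rw [max_eq_right (by linarith), max_eq_right (by linarith)]
      have : b + t - τ - (b - τ) = t := by ring
      rw [this, inv_mul_cancel₀ ht'.ne']
    · rw [indicator_of_notMem (show τ ∉ Iic b from not_le.mpr h)]
      refine tendsto_const_nhds.congr' ?_
      filter_upwards [Ioo_mem_nhdsGT (sub_pos.mpr h)] with t ht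
      rw [max_eq_left (by linarith [ht.2]), max_eq_left (by linarith), sub_self, mul_zero]

theorem quot_nu (hθ : 0 < θ) {ν : Measure ℝ} [IsProbabilityMeasure ν]
    (hν : ∀ᵐ ζ ∂ν, |ζ| ≤ 1) (hac : ν ≪ volume) (b : ℝ) :
    Tendsto (fun t => t⁻¹ * ((∫ ζ, max ζ (θ * Real.sqrt ((b + t) ^ 2 + 1 - ζ ^ 2)) ∂ν)
        - ∫ ζ, max ζ (θ * Real.sqrt (b ^ 2 + 1 - ζ ^ 2)) ∂ν))
      (𝓝[>] (0 : ℝ)) (𝓝 (∫ ζ, (rp θ ζ b - rp θ ζ (-b)) ∂ν)) := by
  have h1 : ∀ t : ℝ, t⁻¹ * ((∫ ζ, max ζ (θ * Real.sqrt ((b + t) ^ 2 + 1 - ζ ^ 2)) ∂ν)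
        - ∫ ζ, max ζ (θ * Real.sqrt (b ^ 2 + 1 - ζ ^ 2)) ∂ν)
      = ∫ ζ, t⁻¹ * (max ζ (θ * Real.sqrt ((b + t) ^ 2 + 1 - ζ ^ 2))
        - max ζ (θ * Real.sqrt (b ^ 2 + 1 - ζ ^ 2))) ∂ν := by
    intro t
    rw [integral_const_mul, integral_sub (q_integrable hθ hν _) (q_integrable hθ hν _)]
  simp only [h1]
  refine tendsto_integral_filter_of_dominated_convergence (fun _ => θ) ?_ ?_
    (integrable_const _) ?_
  · exact Eventually.of_forall fun t => Continuous.aestronglyMeasurable (by fun_prop)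
  · filter_upwards [self_mem_nhdsWithin] with t ht
    have ht' : 0 < t := ht
    filter_upwards [hν] with ζ hζ
    rw [Real.norm_eq_abs, abs_mul, abs_of_pos (inv_pos.mpr ht'), inv_mul_le_iff₀ ht']
    refine (q_lip hθ hζ _ _).trans ?_
    rw [add_sub_cancel_left, abs_of_pos ht', mul_comm]
  · filter_upwards [ae_lt_one hν hac, crease_null hθ hν hac b] with ζ h2 h3
    have h4 := (hasDerivAt_q hθ h2 h3).tendsto_slope_zero_right
    simpa [smul_eq_mul] using h4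

theorem cdf_eq (hθ : 0 < θ) {ν : Measure ℝ} [IsProbabilityMeasure ν] (hν : ∀ᵐ ζ ∂ν, |ζ| ≤ 1)
    (hac : ν ≪ volume) (μ : Measure ℝ) [IsFiniteMeasure μ]
    (hμ : Integrable (fun τ : ℝ => τ) μ) (k c : ℝ)
    (h : ∀ s : ℝ, ∫ ζ, max ζ (θ * Real.sqrt (s ^ 2 + 1 - ζ ^ 2)) ∂ν
      = -k * s + c + ∫ τ, max 0 (s - τ) ∂μ) (b : ℝ) :
    ∫ ζ, (rp θ ζ b - rp θ ζ (-b)) ∂ν = -k + μ.real (Iic b) := by
  have h1 := quot_nu hθ hν hac b
  have h2 := (quot_mu hμ b).const_add (-k)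
  refine tendsto_nhds_unique h1 (h2.congr' ?_)
  filter_upwards [self_mem_nhdsWithin] with t ht
  have ht' : t ≠ 0 := (show (0:ℝ) < t from ht).ne'
  rw [h, h]
  field_simp
  ring

theorem rp_integrable (hθ : 0 < θ) {ν : Measure ℝ} [IsProbabilityMeasure ν]
    (hν : ∀ᵐ ζ ∂ν, |ζ| ≤ 1) (s : ℝ) : Integrable (fun ζ => rp θ ζ s) ν := by
  refine Integrable.of_bound (rp_measurable s).aestronglyMeasurable θ ?_
  filter_upwards [hν] with ζ hζ
  exact rp_abs_le hθ hζ s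

theorem mu_ac (hθ : 0 < θ) {ν : Measure ℝ} [IsProbabilityMeasure ν] (hν : ∀ᵐ ζ ∂ν, |ζ| ≤ 1)
    (hac : ν ≪ volume) (μ : Measure ℝ) [IsFiniteMeasure μ]
    (hμ : Integrable (fun τ : ℝ => τ) μ) (k c : ℝ)
    (h : ∀ s : ℝ, ∫ ζ, max ζ (θ * Real.sqrt (s ^ 2 + 1 - ζ ^ 2)) ∂ν
      = -k * s + c + ∫ τ, max 0 (s - τ) ∂μ) : μ ≪ volume := by
  have hmp := mp_ac hθ hac
  have key : μ = mp θ ν + (mp θ ν).map (fun x => -x) := by
    apply Measure.ext_of_Ioc
    intro a b hab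
    have e1 : μ (Ioc a b) = ENNReal.ofReal (μ.real (Iic b) - μ.real (Iic a)) := by
      rw [← measureReal_sdiff (Iic_subset_Iic.mpr hab.le) measurableSet_Iic, Iic_sdiff_Iic,
        ofReal_measureReal]
    have e2 : (mp θ ν).map (fun x => -x) (Ioc a b) = mp θ ν (Ioc (-b) (-a)) := by
      rw [Measure.map_apply measurable_neg measurableSet_Ioc]
      have hae : (Ico (-b) (-a) : Set ℝ) =ᵐ[mp θ ν] Ioc (-b) (-a) :=
        hmp.ae_le (Ico_ae_eq_Ioc (μ := (volume : Measure ℝ)))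
      rw [← measure_congr hae]
      congr 1
      ext x
      simp only [mem_preimage, mem_Ioc, mem_Ico]
      constructor
      · rintro ⟨h1, h2⟩; constructor <;> linarith
      · rintro ⟨h1, h2⟩; constructor <;> linarith
    rw [Measure.add_apply, e2, mp_Ioc hθ hν hac hab.le, mp_Ioc hθ hν hac (by linarith : -b ≤ -a),
      e1]
    have c1 := cdf_eq hθ hν hac μ hμ k c h b
    have c2 := cdf_eq hθ hν hac μ hμ k c h a
    have i := rp_integrable (ν := ν) hθ hν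
    have e3 : μ.real (Iic b) - μ.real (Iic a)
        = ∫ ζ, (rp θ ζ b - rp θ ζ a) ∂ν + ∫ ζ, (rp θ ζ (-a) - rp θ ζ (-b)) ∂ν := by
      rw [integral_sub (i _) (i _)] at c1 c2
      rw [integral_sub (i _) (i _), integral_sub (i _) (i _)]
      linarith
    have n1 : 0 ≤ᵐ[ν] fun ζ => rp θ ζ b - rp θ ζ a := by
      filter_upwards [ae_lt_one hν hac] with ζ h1
      exact sub_nonneg.mpr (rp_mono hθ h1 hab.le)
    have n2 : 0 ≤ᵐ[ν] fun ζ => rp θ ζ (-a) - rp θ ζ (-b) := by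
      filter_upwards [ae_lt_one hν hac] with ζ h1
      exact sub_nonneg.mpr (rp_mono hθ h1 (by linarith))
    have i1 : Integrable (fun ζ => rp θ ζ b - rp θ ζ a) ν := (i b).sub (i a)
    have i2 : Integrable (fun ζ => rp θ ζ (-a) - rp θ ζ (-b)) ν := (i (-a)).sub (i (-b))
    rw [e3, ENNReal.ofReal_add (integral_nonneg_of_ae n1) (integral_nonneg_of_ae n2),
      ofReal_integral_eq_lintegral_ofReal i1 n1, ofReal_integral_eq_lintegral_ofReal i2 n2]
  rw [key]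
  refine Measure.AbsolutelyContinuous.add_left_iff.mpr ⟨hmp, ?_⟩
  have h2 : (volume : Measure ℝ).map (fun x => -x) = volume :=
    (Measure.measurePreserving_neg (volume : Measure ℝ)).map_eq
  have h3 := hmp.map (f := fun x : ℝ => -x) measurable_neg
  rw [h2] at h3
  exact h3

theorem Q_bound (hθ : 0 < θ) {ν : Measure ℝ} [IsProbabilityMeasure ν]
    (hν : ∀ᵐ ζ ∂ν, |ζ| ≤ 1) {s : ℝ} (hs : 0 < s) (hs' : 1 ≤ θ * s) :
    0 ≤ (∫ ζ, max ζ (θ * Real.sqrt (s ^ 2 + 1 - ζ ^ 2)) ∂ν) - θ * s ∧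
    (∫ ζ, max ζ (θ * Real.sqrt (s ^ 2 + 1 - ζ ^ 2)) ∂ν) - θ * s ≤ θ / (2 * s) := by
  have hi := q_integrable hθ hν s
  have hb : ∀ᵐ ζ ∂ν, θ * s ≤ max ζ (θ * Real.sqrt (s ^ 2 + 1 - ζ ^ 2)) ∧
      max ζ (θ * Real.sqrt (s ^ 2 + 1 - ζ ^ 2)) ≤ θ * s + θ / (2 * s) := by
    filter_upwards [hν] with ζ hζ
    have h : ζ ^ 2 ≤ 1 := (sq_le_one_iff_abs_le_one ζ).mpr hζ
    have h1 : s ≤ Real.sqrt (s ^ 2 + 1 - ζ ^ 2) := by
      apply Real.le_sqrt_of_sq_le
      linarith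
    have h2 : Real.sqrt (s ^ 2 + 1 - ζ ^ 2) ≤ s + 1 / (2 * s) := by
      apply Real.sqrt_le_iff.mpr
      refine ⟨by positivity, ?_⟩
      have : (s + 1 / (2 * s)) ^ 2 = s ^ 2 + 1 + (1 / (2 * s)) ^ 2 := by
        field_simp
        ring
      rw [this]
      nlinarith [sq_nonneg ζ, sq_nonneg (1 / (2 * s))]
    have h3 : θ * s ≤ θ * Real.sqrt (s ^ 2 + 1 - ζ ^ 2) := mul_le_mul_of_nonneg_left h1 hθ.le
    have h4 : θ * Real.sqrt (s ^ 2 + 1 - ζ ^ 2) ≤ θ * s + θ / (2 * s) := by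
      have := mul_le_mul_of_nonneg_left h2 hθ.le
      have e : θ * (s + 1 / (2 * s)) = θ * s + θ / (2 * s) := by ring
      rwa [e] at this
    refine ⟨h3.trans (le_max_right _ _), max_le ?_ h4⟩
    have := (abs_le.mp hζ).2
    have h5 : 0 ≤ θ / (2 * s) := by positivity
    linarith
  constructor
  · have := integral_mono_ae (integrable_const (θ * s)) hi (hb.mono fun ζ h => h.1)
    rw [integral_const, probReal_univ, one_smul] at this
    linarith
  · have := integral_mono_ae hi (integrable_const (θ * s + θ / (2 * s))) (hb.mono fun ζ h => h.2)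
    rw [integral_const, probReal_univ, one_smul] at this
    linarith

theorem Q_tendsto (hθ : 0 < θ) {ν : Measure ℝ} [IsProbabilityMeasure ν]
    (hν : ∀ᵐ ζ ∂ν, |ζ| ≤ 1) :
    Tendsto (fun s : ℝ => (∫ ζ, max ζ (θ * Real.sqrt (s ^ 2 + 1 - ζ ^ 2)) ∂ν) - θ * s) atTop
      (𝓝 0) := by
  have hl : Tendsto (fun s : ℝ => θ / (2 * s)) atTop (𝓝 0) :=
    tendsto_const_nhds.div_atTop (tendsto_id.const_mul_atTop (by norm_num))
  refine tendsto_of_tendsto_of_tendsto_of_le_of_le' tendsto_const_nhds hl ?_ ?_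
  · filter_upwards [eventually_gt_atTop 0, eventually_ge_atTop (1 / θ)] with s h1 h2
    exact (Q_bound hθ hν h1 (by rw [div_le_iff₀ hθ] at h2; linarith)).1
  · filter_upwards [eventually_gt_atTop 0, eventually_ge_atTop (1 / θ)] with s h1 h2
    exact (Q_bound hθ hν h1 (by rw [div_le_iff₀ hθ] at h2; linarith)).2

/-- `∫ (s - τ)_+ dμ` tends to zero at `-∞`. -/
theorem tail {μ : Measure ℝ} [IsFiniteMeasure μ]
    (hμ : Integrable (fun τ : ℝ => τ) μ) :
    Tendsto (fun s : ℝ => ∫ τ, max 0 (-s - τ) ∂μ) atTop (𝓝 0) := by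
  have goal : Tendsto (fun s : ℝ => ∫ τ, max 0 (-s - τ) ∂μ) atTop (𝓝 (∫ _, (0 : ℝ) ∂μ)) := ?_
  · simpa using goal
  refine tendsto_integral_filter_of_dominated_convergence (fun τ => |τ|) ?_ ?_
    hμ.abs ?_
  · exact Eventually.of_forall fun t => Continuous.aestronglyMeasurable (by fun_prop)
  · filter_upwards [eventually_ge_atTop 0] with s hs
    refine Eventually.of_forall fun τ => ?_
    rw [Real.norm_eq_abs, abs_of_nonneg (le_max_left _ _)]
    apply max_le (abs_nonneg _)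
    have := neg_abs_le τ
    linarith
  · refine Eventually.of_forall fun τ => ?_
    refine tendsto_const_nhds.congr' ?_
    filter_upwards [eventually_ge_atTop (-τ)] with s hs
    rw [max_eq_left (by linarith)]

/-- `∫ (τ - s)_+ dμ` tends to zero at `+∞`. -/
theorem tail' {μ : Measure ℝ} [IsFiniteMeasure μ]
    (hμ : Integrable (fun τ : ℝ => τ) μ) :
    Tendsto (fun s : ℝ => ∫ τ, max 0 (τ - s) ∂μ) atTop (𝓝 0) := by
  have goal : Tendsto (fun s : ℝ => ∫ τ, max 0 (τ - s) ∂μ) atTop (𝓝 (∫ _, (0 : ℝ) ∂μ)) := ?_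
  · simpa using goal
  refine tendsto_integral_filter_of_dominated_convergence (fun τ => |τ|) ?_ ?_
    hμ.abs ?_
  · exact Eventually.of_forall fun t => Continuous.aestronglyMeasurable (by fun_prop)
  · filter_upwards [eventually_ge_atTop 0] with s hs
    refine Eventually.of_forall fun τ => ?_
    rw [Real.norm_eq_abs, abs_of_nonneg (le_max_left _ _)]
    apply max_le (abs_nonneg _)
    have := le_abs_self τ
    linarith
  · refine Eventually.of_forall fun τ => ?_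
    refine tendsto_const_nhds.congr' ?_
    filter_upwards [eventually_ge_atTop τ] with s hs
    rw [max_eq_left (by linarith)]

/-- a linear function with a finite limit at infinity is constant -/
theorem lin_lim {a b : ℝ} (h : Tendsto (fun s : ℝ => a * s + b) atTop (𝓝 0)) : a = 0 ∧ b = 0 := by
  have ha : a = 0 := by
    have h1 : Tendsto (fun s : ℝ => (a * s + b) * s⁻¹) atTop (𝓝 (0 * 0)) :=
      h.mul tendsto_inv_atTop_zero
    have h2 : Tendsto (fun s : ℝ => a + b * s⁻¹) atTop (𝓝 (a + b * 0)) :=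
      (tendsto_inv_atTop_zero.const_mul b).const_add a
    have h3 : Tendsto (fun s : ℝ => (a * s + b) * s⁻¹) atTop (𝓝 (a + b * 0)) := by
      refine h2.congr' ?_
      filter_upwards [eventually_gt_atTop 0] with s hs
      field_simp
    have h4 := tendsto_nhds_unique h1 h3
    linarith
  refine ⟨ha, ?_⟩
  subst ha
  simp only [zero_mul, zero_add] at h
  exact tendsto_nhds_unique tendsto_const_nhds h

end Ac1

open Ac1 in
theorem ac_line (ν : Measure ℝ) [IsProbabilityMeasure ν] (hν : ∀ᵐ ζ ∂ν, |ζ| ≤ 1)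
    (hac : ν ≪ volume) (θ : ℝ) (hθ : 0 < θ) (μ : Measure ℝ) [IsFiniteMeasure μ]
    (hμ : Integrable (fun τ : ℝ => τ) μ) (k c : ℝ)
    (h : ∀ s : ℝ, ∫ ζ, max ζ (θ * Real.sqrt (s ^ 2 + 1 - ζ ^ 2)) ∂ν
      = -k * s + c + ∫ τ, max 0 (s - τ) ∂μ) :
    μ ≪ volume ∧ c = 0 ∧ ∫ τ, τ ∂μ = 0 := by
  have h1 := Q_tendsto hθ hν
  have hk : k - θ = 0 ∧ c = 0 := by
    apply lin_lim
    have h2 := h1.sub (tail hμ)
    rw [sub_zero] at h2
    refine h2.congr fun s => ?_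
    have h3 := h (-s)
    rw [neg_sq] at h3
    rw [h3]
    ring
  have hm : (μ.real univ - k - θ = 0) ∧ (c - ∫ τ, τ ∂μ = 0) := by
    apply lin_lim
    have h2 := h1.sub (tail' hμ)
    rw [sub_zero] at h2
    refine h2.congr fun s => ?_
    rw [h]
    have h4 : ∫ τ, max 0 (s - τ) ∂μ = ∫ τ, (s - τ) ∂μ + ∫ τ, max 0 (τ - s) ∂μ := by
      have i1 : Integrable (fun τ => max 0 (τ - s)) μ := by
        have h := (integrable_const (0 : ℝ) (μ := μ)).sup (hμ.sub (integrable_const s))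
        exact h
      have i2 : Integrable (fun τ => s - τ) μ := (integrable_const s).sub hμ
      rw [← integral_add i2 i1]
      refine integral_congr_ae (Eventually.of_forall fun τ => ?_)
      simp only
      rcases le_total τ s with h5 | h5
      · rw [max_eq_right (by linarith), max_eq_left (by linarith), add_zero]
      · rw [max_eq_left (by linarith), max_eq_right (by linarith)]
        ring
    rw [h4, integral_sub (integrable_const s) hμ, integral_const, smul_eq_mul]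
    ring
  refine ⟨mu_ac hθ hν hac μ hμ k c h, hk.2, ?_⟩
  have := hm.2
  rw [hk.2] at this
  linarith

end MV
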