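import Pool.Agent.Lib.MP_f30071_gt.Defs

/-! Support functions and the elementary geometry of convex bodies. -/

open MeasureTheory ProbabilityTheory Filter Topology Set
open scoped InnerProductSpace Pointwise NNReal ENNReal

set_option linter.unusedSectionVars false
set_option linter.unnecessarySimpa false

namespace MV

section A
variable {V : Type*} [NormedAddCommGroup V] [InnerProductSpace ℝ V]

theorem bddAbove_hs (K : ConvexBody V) (v : V) :
    BddAbove ((fun x => ⟪v, x⟫_ℝ) '' (K : Set V)) :=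
  (K.isCompact.image (by fun_prop)).bddAbove

theorem inner_le_hs {K : ConvexBody V} {x : V} (hx : x ∈ K) (v : V) : ⟪v, x⟫_ℝ ≤ hs K v :=
  le_csSup (bddAbove_hs K v) ⟨x, hx, rfl⟩

theorem hs_le {K : ConvexBody V} {v : V} {c : ℝ} (h : ∀ x ∈ K, ⟪v, x⟫_ℝ ≤ c) : hs K v ≤ c :=
  csSup_le (K.nonempty.image _) (by rintro _ ⟨x, hx, rfl⟩; exact h x hx)

theorem hs_le_iff {K : ConvexBody V} {v : V} {c : ℝ} : hs K v ≤ c ↔ ∀ x ∈ K, ⟪v, x⟫_ℝ ≤ c :=
  ⟨fun h _ hx => (inner_le_hs hx v).trans h, hs_le⟩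

theorem exists_hs (K : ConvexBody V) (v : V) : ∃ x ∈ K, ⟪v, x⟫_ℝ = hs K v := by
  have hc : IsCompact ((fun x => ⟪v, x⟫_ℝ) '' (K : Set V)) := K.isCompact.image (by fun_prop)
  obtain ⟨x, hx, h⟩ := hc.sSup_mem (K.nonempty.image _)
  exact ⟨x, hx, h⟩

theorem hs_sublin (K : ConvexBody V) : Sublin (hs K) := by
  constructor
  · intro c v hc
    rcases hc.eq_or_lt with rfl | hc
    · simp only [zero_smul, zero_mul]
      obtain ⟨x, hx, h⟩ := exists_hs K (0 : V)
      rw [← h]; simp
    · apply le_antisymm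
      · apply hs_le
        intro x hx
        rw [real_inner_smul_left]
        exact mul_le_mul_of_nonneg_left (inner_le_hs hx v) hc.le
      · obtain ⟨x, hx, h⟩ := exists_hs K v
        rw [← h, ← real_inner_smul_left]
        exact inner_le_hs hx _
  · intro v w
    apply hs_le
    intro x hx
    rw [inner_add_left]
    exact add_le_add (inner_le_hs hx v) (inner_le_hs hx w)

theorem hs_smul_right (K : ConvexBody V) {c : ℝ} (hc : 0 ≤ c) (v : V) :
    hs K (c • v) = c * hs K v := (hs_sublin K).hom c v hc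

theorem hs_add_right (K : ConvexBody V) (v w : V) : hs K (v + w) ≤ hs K v + hs K w :=
  (hs_sublin K).sub v w

@[simp] theorem hs_zero_right (K : ConvexBody V) : hs K 0 = 0 := by
  have := hs_smul_right K (le_refl 0) (0 : V)
  simpa using this

theorem neg_hs_le (K : ConvexBody V) (v : V) : -hs K (-v) ≤ hs K v := by
  have := hs_add_right K v (-v)
  simp at this
  linarith

theorem hs_mono {K L : ConvexBody V} (h : K ≤ L) (v : V) : hs K v ≤ hs L v :=
  hs_le fun _ hx => inner_le_hs (h hx) v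

theorem hs_add (K L : ConvexBody V) (v : V) : hs (K + L) v = hs K v + hs L v := by
  apply le_antisymm
  · apply hs_le
    intro x hx
    obtain ⟨a, ha, b, hb, rfl⟩ := Set.mem_add.1 (show x ∈ (K : Set V) + (L : Set V) from hx)
    rw [inner_add_right]
    exact add_le_add (inner_le_hs ha v) (inner_le_hs hb v)
  · obtain ⟨a, ha, h1⟩ := exists_hs K v
    obtain ⟨b, hb, h2⟩ := exists_hs L v
    rw [← h1, ← h2, ← inner_add_right]
    exact inner_le_hs (show a + b ∈ (K : Set V) + (L : Set V) from Set.add_mem_add ha hb) v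

theorem hs_smul {c : ℝ} (hc : 0 ≤ c) (K : ConvexBody V) (v : V) : hs (c • K) v = c * hs K v := by
  apply le_antisymm
  · apply hs_le
    intro x hx
    obtain ⟨a, ha, rfl⟩ := Set.mem_smul_set.1 (show x ∈ c • (K : Set V) from hx)
    rw [real_inner_smul_right]
    exact mul_le_mul_of_nonneg_left (inner_le_hs ha v) hc
  · obtain ⟨a, ha, h1⟩ := exists_hs K v
    rw [← h1, ← real_inner_smul_right]
    exact inner_le_hs (show c • a ∈ c • (K : Set V) from Set.smul_mem_smul_set ha) v

theorem hs_neg_one_smul (K : ConvexBody V) (v : V) : hs ((-1 : ℝ) • K) v = hs K (-v) := by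
  apply le_antisymm
  · apply hs_le
    intro x hx
    obtain ⟨a, ha, rfl⟩ := Set.mem_smul_set.1 (show x ∈ (-1 : ℝ) • (K : Set V) from hx)
    have := inner_le_hs ha (-v)
    simpa using this
  · obtain ⟨a, ha, h1⟩ := exists_hs K (-v)
    rw [← h1]
    have := inner_le_hs (show (-1 : ℝ) • a ∈ (-1 : ℝ) • (K : Set V) from
      Set.smul_mem_smul_set ha) (K := (-1 : ℝ) • K) v
    simpa using this

@[simp] theorem mem_pt {x y : V} : y ∈ pt x ↔ y = x := Iff.rfl

@[simp] theorem coe_pt (x : V) : ((pt x : ConvexBody V) : Set V) = {x} := rfl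

@[simp] theorem hs_pt (x v : V) : hs (pt x) v = ⟪v, x⟫_ℝ := by
  simp [hs]

theorem pt_zero : (pt 0 : ConvexBody V) = 0 := rfl

@[simp] theorem hs_zero (v : V) : hs (0 : ConvexBody V) v = 0 := by
  rw [← pt_zero]; simp

theorem coe_hull (s : Finset V) (h : s.Nonempty) :
    ((hull s h : ConvexBody V) : Set V) = convexHull ℝ (s : Set V) := rfl

theorem hs_hull (s : Finset V) (h : s.Nonempty) (v : V) :
    hs (hull s h) v = s.sup' h (fun x => ⟪v, x⟫_ℝ) := by
  apply le_antisymm
  · apply hs_le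
    intro x hx
    have hx' : x ∈ convexHull ℝ (s : Set V) := hx
    have hconv : Convex ℝ {y : V | ⟪v, y⟫_ℝ ≤ s.sup' h (fun x => ⟪v, x⟫_ℝ)} := by
      have := (convex_Iic (s.sup' h (fun x => ⟪v, x⟫_ℝ))).is_linear_preimage
        (f := fun y => ⟪v, y⟫_ℝ) (innerₛₗ ℝ v).isLinear
      exact this
    have := convexHull_min (s := (s : Set V)) (t := {y : V | ⟪v, y⟫_ℝ ≤ s.sup' h (fun x => ⟪v, x⟫_ℝ)})
      (fun y hy => Finset.le_sup' (fun x => ⟪v, x⟫_ℝ) hy) hconv hx'
    exact this
  · apply Finset.sup'_le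
    intro x hx
    exact inner_le_hs (show x ∈ convexHull ℝ (s : Set V) from subset_convexHull ℝ _ hx) v

theorem hs_seg (x v : V) : hs (seg x) v = max 0 ⟪v, x⟫_ℝ := by
  classical
  rw [seg, hs_hull]
  apply le_antisymm
  · apply Finset.sup'_le
    intro y hy
    simp only [Finset.mem_insert, Finset.mem_singleton] at hy
    rcases hy with rfl | rfl
    · simp
    · exact le_max_right _ _
  · apply max_le
    · have := Finset.le_sup' (s := ({0, x} : Finset V)) (fun y => ⟪v, y⟫_ℝ) (b := 0) (by simp)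
      simpa using this
    · exact Finset.le_sup' (s := ({0, x} : Finset V)) (fun y => ⟪v, y⟫_ℝ) (b := x) (by simp)

theorem hs_tri (a b v : V) : hs (tri a b) v = max 0 (max ⟪v, a⟫_ℝ (⟪v, a⟫_ℝ + ⟪v, b⟫_ℝ)) := by
  classical
  rw [tri, hs_hull]
  apply le_antisymm
  · apply Finset.sup'_le
    intro y hy
    simp only [Finset.mem_insert, Finset.mem_singleton] at hy
    rcases hy with rfl | rfl | rfl
    · simp
    · exact le_max_of_le_right (le_max_left _ _)
    · rw [inner_add_right]
      exact le_max_of_le_right (le_max_right _ _)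
  · apply max_le
    · have := Finset.le_sup' (s := ({0, a, a + b} : Finset V)) (fun y => ⟪v, y⟫_ℝ) (b := 0)
        (by simp)
      simpa using this
    · apply max_le
      · exact Finset.le_sup' (s := ({0, a, a + b} : Finset V)) (fun y => ⟪v, y⟫_ℝ) (b := a)
          (by simp)
      · have := Finset.le_sup' (s := ({0, a, a + b} : Finset V)) (fun y => ⟪v, y⟫_ℝ) (b := a + b)
          (by simp)
        simpa [inner_add_right] using this

/-! #### metric -/

theorem exists_mem_norm_sub_le {K L : ConvexBody V} {x : V} (hx : x ∈ K) :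
    ∃ y ∈ L, ‖x - y‖ ≤ dist K L := by
  obtain ⟨y, hy, h⟩ := L.isCompact.exists_infDist_eq_dist L.nonempty x
  refine ⟨y, hy, ?_⟩
  rw [← dist_eq_norm, ← h]
  exact Metric.infDist_le_hausdorffDist_of_mem hx ConvexBody.hausdorffEDist_ne_top

theorem hs_sub_le (K L : ConvexBody V) (v : V) : hs K v - hs L v ≤ dist K L * ‖v‖ := by
  obtain ⟨x, hx, h⟩ := exists_hs K v
  obtain ⟨y, hy, hxy⟩ := exists_mem_norm_sub_le (L := L) hx
  have h1 := inner_le_hs hy v
  have h2 : ⟪v, x⟫_ℝ - ⟪v, y⟫_ℝ = ⟪v, x - y⟫_ℝ := by rw [inner_sub_right]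
  have h3 := real_inner_le_norm v (x - y)
  have h4 : ‖v‖ * ‖x - y‖ ≤ ‖v‖ * dist K L := mul_le_mul_of_nonneg_left hxy (norm_nonneg _)
  rw [← h]
  nlinarith

theorem abs_hs_sub_le (K L : ConvexBody V) (v : V) : |hs K v - hs L v| ≤ dist K L * ‖v‖ := by
  rw [abs_le]
  constructor
  · have := hs_sub_le L K v
    rw [dist_comm] at this
    linarith
  · exact hs_sub_le K L v

theorem norm_le_of_mem {K : ConvexBody V} {x : V} (hx : x ∈ K) : ‖x‖ ≤ dist K 0 := by
  obtain ⟨y, hy, h⟩ := exists_mem_norm_sub_le (L := (0 : ConvexBody V)) hx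
  have : y = 0 := hy
  simpa [this] using h

theorem abs_hs_le (K : ConvexBody V) (v : V) : |hs K v| ≤ dist K 0 * ‖v‖ := by
  have := abs_hs_sub_le K 0 v
  simpa using this

theorem dist_le_of_forall {K L : ConvexBody V} {r : ℝ} (hr : 0 ≤ r)
    (h1 : ∀ x ∈ K, ∃ y ∈ L, dist x y ≤ r) (h2 : ∀ x ∈ L, ∃ y ∈ K, dist x y ≤ r) :
    dist K L ≤ r :=
  Metric.hausdorffDist_le_of_mem_dist hr h1 h2

theorem dist_zero_le {K : ConvexBody V} {r : ℝ} (h : ∀ x ∈ K, ‖x‖ ≤ r) : dist K 0 ≤ r := by
  obtain ⟨x0, hx0⟩ := K.nonempty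
  have hr : 0 ≤ r := (norm_nonneg _).trans (h x0 hx0)
  apply dist_le_of_forall hr
  · intro x hx
    exact ⟨0, rfl, by simpa using h x hx⟩
  · intro x hx
    have : x = 0 := hx
    subst this
    exact ⟨x0, hx0, by simpa using h x0 hx0⟩

end A

section B
variable {V : Type*} [NormedAddCommGroup V] [InnerProductSpace ℝ V] [FiniteDimensional ℝ V]

/-- separation of a point from a body -/
theorem exists_sep {K : ConvexBody V} {x : V} (hx : x ∉ K) :
    ∃ v : V, hs K v < ⟪v, x⟫_ℝ := by
  obtain ⟨f, u, h1, h2⟩ := geometric_hahn_banach_closed_point K.convex K.isClosed hx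
  refine ⟨(InnerProductSpace.toDual ℝ V).symm f, ?_⟩
  have hf : ∀ y, ⟪(InnerProductSpace.toDual ℝ V).symm f, y⟫_ℝ = f y := fun y =>
    InnerProductSpace.toDual_symm_apply
  rw [hf]
  refine lt_of_le_of_lt (hs_le (c := u) ?_) h2
  intro y hy
  rw [hf]
  exact (h1 y hy).le

theorem mem_iff_hs {K : ConvexBody V} {x : V} : x ∈ K ↔ ∀ v, ⟪v, x⟫_ℝ ≤ hs K v := by
  constructor
  · intro hx v
    exact inner_le_hs hx v
  · intro h
    by_contra hx
    obtain ⟨v, hv⟩ := exists_sep hx
    exact absurd (h v) (not_le.2 hv)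

theorem le_iff_hs {K L : ConvexBody V} : K ≤ L ↔ ∀ v, hs K v ≤ hs L v := by
  constructor
  · intro h v
    exact hs_mono h v
  · intro h x hx
    rw [mem_iff_hs]
    intro v
    exact (inner_le_hs hx v).trans (h v)

theorem hs_ext {K L : ConvexBody V} (h : ∀ v, hs K v = hs L v) : K = L :=
  le_antisymm (le_iff_hs.2 fun v => (h v).le) (le_iff_hs.2 fun v => (h v).ge)

theorem dist_le_of_hs {K L : ConvexBody V} {r : ℝ} (hr : 0 ≤ r)
    (h : ∀ v, |hs K v - hs L v| ≤ r * ‖v‖) : dist K L ≤ r := by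
  have key : ∀ {K L : ConvexBody V}, (∀ v, hs K v - hs L v ≤ r * ‖v‖) →
      ∀ x ∈ K, ∃ y ∈ L, dist x y ≤ r := by
    intro K L h x hx
    obtain ⟨y, hy, hxy⟩ := L.isCompact.exists_infDist_eq_dist L.nonempty x
    refine ⟨y, hy, ?_⟩
    -- y is the nearest point, use v = x - y
    have hmin : ∀ z ∈ L, ⟪x - y, z - y⟫_ℝ ≤ 0 := by
      have h0 : ‖x - y‖ = ⨅ w : (L : Set V), ‖x - w‖ := by
        rw [← dist_eq_norm, ← hxy, Metric.infDist_eq_iInf]
        simp only [dist_eq_norm]
      exact (norm_eq_iInf_iff_real_inner_le_zero L.convex hy).1 h0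
    have h1 : hs L (x - y) ≤ ⟪x - y, y⟫_ℝ := by
      apply hs_le
      intro z hz
      have := hmin z hz
      rw [inner_sub_right] at this
      linarith
    have h2 : ⟪x - y, x⟫_ℝ ≤ hs K (x - y) := inner_le_hs hx _
    have h3 := h (x - y)
    have h4 : ⟪x - y, x⟫_ℝ - ⟪x - y, y⟫_ℝ = ‖x - y‖ ^ 2 := by
      rw [← inner_sub_right, real_inner_self_eq_norm_sq]
    have h5 : ‖x - y‖ ^ 2 ≤ r * ‖x - y‖ := by linarith
    rw [dist_eq_norm]
    rcases (norm_nonneg (x - y)).eq_or_lt with h6 | h6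
    · rw [← h6]; exact hr
    · nlinarith
  apply dist_le_of_forall hr
  · exact key fun v => (le_abs_self _).trans (h v)
  · exact key fun v => by
      have := (neg_abs_le (hs K v - hs L v))
      have := h v
      linarith

/-! #### bodies from sublinear functions -/

theorem Sublin.zero' {f : V → ℝ} (hf : Sublin f) : f 0 = 0 := by
  have := hf.hom 0 0 le_rfl
  simpa using this

theorem Sublin.sum_le {f : V → ℝ} (hf : Sublin f) {ι : Type*} (s : Finset ι) (g : ι → V) :
    f (∑ i ∈ s, g i) ≤ ∑ i ∈ s, f (g i) := by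
  classical
  induction s using Finset.induction_on with
  | empty => simp [hf.zero']
  | insert a s ha ih =>
    rw [Finset.sum_insert ha, Finset.sum_insert ha]
    exact (hf.sub _ _).trans (by linarith)

theorem Sublin.bound {f : V → ℝ} (hf : Sublin f) : ∃ C : ℝ, 0 ≤ C ∧ ∀ v, f v ≤ C * ‖v‖ := by
  set b := stdOrthonormalBasis ℝ V
  refine ⟨∑ i, (|f (b i)| + |f (-(b i))|), Finset.sum_nonneg fun i _ => by positivity, ?_⟩
  intro v
  conv_lhs => rw [← b.sum_repr v]
  refine (hf.sum_le _ _).trans ?_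
  rw [Finset.sum_mul]
  apply Finset.sum_le_sum
  intro i _
  have h1 : |b.repr v i| ≤ ‖v‖ := by
    rw [b.repr_apply_apply]
    have := abs_real_inner_le_norm (b i) v
    rwa [b.orthonormal.1 i, one_mul] at this
  rcases le_total 0 (b.repr v i) with h | h
  · rw [hf.hom _ _ h]
    rw [abs_of_nonneg h] at h1
    have h2 : b.repr v i * f (b i) ≤ b.repr v i * |f (b i)| :=
      mul_le_mul_of_nonneg_left (le_abs_self _) h
    have h3 : b.repr v i * |f (b i)| ≤ ‖v‖ * |f (b i)| :=
      mul_le_mul_of_nonneg_right h1 (abs_nonneg _)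
    have h4 : 0 ≤ |f (-(b i))| * ‖v‖ := by positivity
    nlinarith
  · have h5 : b.repr v i • b i = (-(b.repr v i)) • (-(b i)) := by simp
    rw [h5, hf.hom _ _ (by linarith)]
    rw [abs_of_nonpos h] at h1
    have h2 : -(b.repr v i) * f (-(b i)) ≤ -(b.repr v i) * |f (-(b i))| :=
      mul_le_mul_of_nonneg_left (le_abs_self _) (by linarith)
    have h3 : -(b.repr v i) * |f (-(b i))| ≤ ‖v‖ * |f (-(b i))| :=
      mul_le_mul_of_nonneg_right h1 (abs_nonneg _)
    have h4 : 0 ≤ |f (b i)| * ‖v‖ := by positivity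
    nlinarith

theorem exists_body {f : V → ℝ} (hf : Sublin f) : ∃ K : ConvexBody V, ∀ v, hs K v = f v := by
  have hf0 : f 0 = 0 := hf.zero'
  have key : ∀ v : V, ∃ x : V, (∀ w, ⟪w, x⟫_ℝ ≤ f w) ∧ ⟪v, x⟫_ℝ = f v := by
    intro v
    have hH : ∀ c : ℝ, c • v = 0 → c • f v = 0 := by
      intro c hc
      rcases smul_eq_zero.1 hc with h | h
      · simp [h]
      · simp [h, hf0]
    obtain ⟨g, hg1, hg2⟩ := exists_extension_of_le_sublinear
      (LinearPMap.mkSpanSingleton' (σ := RingHom.id ℝ) v (f v) (by simpa using hH)) f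
      (fun c hc x => hf.hom c x hc.le) hf.sub (by
        rintro ⟨x, hx⟩
        obtain ⟨c, rfl⟩ := Submodule.mem_span_singleton.1 hx
        rw [LinearPMap.mkSpanSingleton'_apply]
        simp only [RingHom.id_apply, smul_eq_mul]
        rcases le_total 0 c with h | h
        · rw [hf.hom c v h]
        · have h1 := hf.hom (-c) v (by linarith)
          have h2 := hf.sub (c • v) ((-c) • v)
          have h3 : c • v + (-c) • v = 0 := by simp
          rw [h3, hf0, h1] at h2
          change c * f v ≤ f (c • v)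
          linarith)
    refine ⟨(InnerProductSpace.toDual ℝ V).symm (LinearMap.toContinuousLinearMap g), ?_, ?_⟩
    · intro w
      rw [real_inner_comm, InnerProductSpace.toDual_symm_apply]
      exact hg2 w
    · rw [real_inner_comm, InnerProductSpace.toDual_symm_apply]
      have h1 := hg1 ⟨v, Submodule.mem_span_singleton_self v⟩
      rw [LinearPMap.mkSpanSingleton'_apply_self] at h1
      exact h1
  obtain ⟨C, hC0, hC⟩ := hf.bound
  have hbd : ∀ x : V, (∀ w, ⟪w, x⟫_ℝ ≤ f w) → ‖x‖ ≤ C := by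
    intro x hx
    have h1 := (hx x).trans (hC x)
    rw [real_inner_self_eq_norm_sq] at h1
    rcases (norm_nonneg x).eq_or_lt with h | h
    · rw [← h]; exact hC0
    · nlinarith
  have hset : {x : V | ∀ w, ⟪w, x⟫_ℝ ≤ f w} = ⋂ w, {x : V | ⟪w, x⟫_ℝ ≤ f w} := by
    ext x; simp
  have hclosed : IsClosed {x : V | ∀ w, ⟪w, x⟫_ℝ ≤ f w} := by
    rw [hset]
    exact isClosed_iInter fun w => isClosed_le (by fun_prop) continuous_const
  have hconv : Convex ℝ {x : V | ∀ w, ⟪w, x⟫_ℝ ≤ f w} := by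
    rw [hset]
    refine convex_iInter fun w => ?_
    exact (convex_Iic (f w)).is_linear_preimage (f := fun y => ⟪w, y⟫_ℝ) (innerₛₗ ℝ w).isLinear
  refine ⟨⟨{x : V | ∀ w, ⟪w, x⟫_ℝ ≤ f w}, hconv, ?_, ?_⟩, ?_⟩
  · exact Metric.isCompact_of_isClosed_isBounded hclosed
      ((Metric.isBounded_closedBall (x := (0 : V)) (r := C)).subset fun x hx => by
        simpa using hbd x hx)
  · obtain ⟨x, hx, -⟩ := key 0
    exact ⟨x, hx⟩
  · intro v
    apply le_antisymm
    · exact hs_le fun x hx => hx v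
    · obtain ⟨x, hx, h⟩ := key v
      rw [← h]
      exact inner_le_hs (show x ∈ ({x : V | ∀ w, ⟪w, x⟫_ℝ ≤ f w}) from hx) v

/-- the body with a given support function -/
noncomputable def body (f : V → ℝ) (hf : Sublin f) : ConvexBody V := (exists_body hf).choose

@[simp] theorem hs_body (f : V → ℝ) (hf : Sublin f) (v : V) : hs (body f hf) v = f v :=
  (exists_body hf).choose_spec v

theorem Sublin.abs_bound {f : V → ℝ} (hf : Sublin f) :
    ∃ C : ℝ, 0 ≤ C ∧ ∀ v, |f v| ≤ C * ‖v‖ := by
  obtain ⟨K, hK⟩ := exists_body hf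
  exact ⟨dist K 0, dist_nonneg, fun v => by rw [← hK]; exact abs_hs_le K v⟩

theorem hs_lip (K : ConvexBody V) (v w : V) : |hs K v - hs K w| ≤ dist K 0 * ‖v - w‖ := by
  have h1 : hs K v ≤ hs K (v - w) + hs K w := by
    have := hs_add_right K (v - w) w
    simpa using this
  have h2 : hs K w ≤ hs K (w - v) + hs K v := by
    have := hs_add_right K (w - v) v
    simpa using this
  have h3 := (abs_le.1 (abs_hs_le K (v - w))).2
  have h4 := (abs_le.1 (abs_hs_le K (w - v))).2
  rw [norm_sub_rev w v] at h4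
  rw [abs_le]
  constructor <;> linarith

theorem continuous_hs_right (K : ConvexBody V) : Continuous (hs K) := by
  have : LipschitzWith (Real.toNNReal (dist K 0)) (hs K) := by
    apply LipschitzWith.of_dist_le_mul
    intro v w
    rw [Real.dist_eq, Real.coe_toNNReal _ dist_nonneg, dist_eq_norm]
    exact hs_lip K v w
  exact this.continuous

/-- joint continuity of the support function -/
theorem continuous_hs : Continuous (fun p : ConvexBody V × V => hs p.1 p.2) := by
  rw [continuous_iff_continuousAt]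
  rintro ⟨K, v⟩
  rw [ContinuousAt, tendsto_iff_dist_tendsto_zero]
  have h1 : Tendsto (fun p : ConvexBody V × V => dist p.1 K * ‖p.2‖ + dist K 0 * ‖p.2 - v‖)
      (𝓝 (K, v)) (𝓝 0) := by
    have : Continuous (fun p : ConvexBody V × V => dist p.1 K * ‖p.2‖ + dist K 0 * ‖p.2 - v‖) := by
      fun_prop
    have h := this.tendsto (K, v)
    simpa using h
  refine squeeze_zero (fun _ => dist_nonneg) (fun p => ?_) h1
  rw [Real.dist_eq]
  have h2 := abs_hs_sub_le p.1 K p.2
  have h3 := hs_lip K p.2 v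
  have h4 : hs p.1 p.2 - hs K v = (hs p.1 p.2 - hs K p.2) + (hs K p.2 - hs K v) := by ring
  rw [h4]
  exact (abs_add_le _ _).trans (add_le_add h2 h3)

theorem continuous_hs_left (v : V) : Continuous (fun K : ConvexBody V => hs K v) :=
  continuous_hs.comp (continuous_id.prodMk continuous_const)

/-! #### algebraic operations and the metric -/

theorem dist_add_le (K K' L L' : ConvexBody V) :
    dist (K + L) (K' + L') ≤ dist K K' + dist L L' := by
  apply dist_le_of_hs (by positivity)
  intro v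
  rw [hs_add, hs_add]
  have h1 := abs_hs_sub_le K K' v
  have h2 := abs_hs_sub_le L L' v
  have h3 : hs K v + hs L v - (hs K' v + hs L' v)
      = (hs K v - hs K' v) + (hs L v - hs L' v) := by ring
  rw [h3]
  refine (abs_add_le _ _).trans ?_
  linarith

instance : ContinuousAdd (ConvexBody V) := ⟨by
  rw [continuous_iff_continuousAt]
  rintro ⟨K, L⟩
  rw [ContinuousAt, tendsto_iff_dist_tendsto_zero]
  have h1 : Tendsto (fun p : ConvexBody V × ConvexBody V => dist p.1 K + dist p.2 L)
      (𝓝 (K, L)) (𝓝 0) := by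
    have : Continuous (fun p : ConvexBody V × ConvexBody V => dist p.1 K + dist p.2 L) := by
      fun_prop
    have h := this.tendsto (K, L)
    simpa using h
  exact squeeze_zero (fun _ => dist_nonneg) (fun p => dist_add_le _ _ _ _) h1⟩

theorem dist_smul_le (c c' : ℝ) (K K' : ConvexBody V) :
    dist (c • K) (c' • K') ≤ |c - c'| * dist K 0 + |c'| * dist K K' := by
  have hr : 0 ≤ |c - c'| * dist K 0 + |c'| * dist K K' := by positivity
  apply dist_le_of_forall hr
  · intro x hx
    obtain ⟨a, ha, rfl⟩ := Set.mem_smul_set.1 (show x ∈ c • (K : Set V) from hx)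
    obtain ⟨b, hb, hab⟩ := exists_mem_norm_sub_le (L := K') ha
    refine ⟨c' • b, Set.smul_mem_smul_set hb, ?_⟩
    rw [dist_eq_norm]
    have h1 : c • a - c' • b = (c - c') • a + c' • (a - b) := by
      rw [sub_smul, smul_sub]; abel
    rw [h1]
    refine (norm_add_le _ _).trans ?_
    rw [norm_smul, norm_smul, Real.norm_eq_abs, Real.norm_eq_abs]
    have := norm_le_of_mem ha
    gcongr
  · intro x hx
    obtain ⟨b, hb, rfl⟩ := Set.mem_smul_set.1 (show x ∈ c' • (K' : Set V) from hx)
    obtain ⟨a, ha, hab⟩ := exists_mem_norm_sub_le (L := K) hb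
    refine ⟨c • a, Set.smul_mem_smul_set ha, ?_⟩
    rw [dist_eq_norm]
    have h1 : c' • b - c • a = -((c - c') • a) + c' • (b - a) := by
      rw [sub_smul, smul_sub]; abel
    rw [h1]
    refine (norm_add_le _ _).trans ?_
    rw [norm_neg, norm_smul, norm_smul, Real.norm_eq_abs, Real.norm_eq_abs]
    have h2 := norm_le_of_mem ha
    rw [dist_comm] at hab
    gcongr

theorem continuous_smul_body : Continuous (fun p : ℝ × ConvexBody V => p.1 • p.2) := by
  rw [continuous_iff_continuousAt]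
  rintro ⟨c, K⟩
  rw [ContinuousAt, tendsto_iff_dist_tendsto_zero]
  have h1 : Tendsto (fun p : ℝ × ConvexBody V => |p.1 - c| * dist p.2 0 + |c| * dist p.2 K)
      (𝓝 (c, K)) (𝓝 0) := by
    have : Continuous (fun p : ℝ × ConvexBody V =>
        |p.1 - c| * dist p.2 0 + |c| * dist p.2 K) := by
      fun_prop
    have h := this.tendsto (c, K)
    simpa using h
  exact squeeze_zero (fun _ => dist_nonneg) (fun p => dist_smul_le _ _ _ _) h1

instance : ContinuousSMul ℝ (ConvexBody V) := ⟨continuous_smul_body⟩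

theorem continuous_pt : Continuous (pt : V → ConvexBody V) := by
  rw [continuous_iff_continuousAt]
  intro x
  rw [ContinuousAt, tendsto_iff_dist_tendsto_zero]
  have h1 : Tendsto (fun y : V => ‖y - x‖) (𝓝 x) (𝓝 0) := by
    have : Continuous (fun y : V => ‖y - x‖) := by fun_prop
    have h := this.tendsto x
    simpa using h
  refine squeeze_zero (fun _ => dist_nonneg) (fun y => ?_) h1
  apply dist_le_of_hs (norm_nonneg _)
  intro v
  rw [hs_pt, hs_pt, ← inner_sub_right]
  have := abs_real_inner_le_norm v (y - x)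
  linarith

theorem continuous_seg : Continuous (seg : V → ConvexBody V) := by
  rw [continuous_iff_continuousAt]
  intro x
  rw [ContinuousAt, tendsto_iff_dist_tendsto_zero]
  have h1 : Tendsto (fun y : V => ‖y - x‖) (𝓝 x) (𝓝 0) := by
    have : Continuous (fun y : V => ‖y - x‖) := by fun_prop
    have h := this.tendsto x
    simpa using h
  refine squeeze_zero (fun _ => dist_nonneg) (fun y => ?_) h1
  apply dist_le_of_hs (norm_nonneg _)
  intro v
  rw [hs_seg, hs_seg]
  refine (abs_max_sub_max_le_max _ _ _ _).trans ?_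
  rw [← inner_sub_right]
  have := abs_real_inner_le_norm v (y - x)
  simp only [sub_self, abs_zero]
  apply max_le
  · positivity
  · linarith

theorem pt_add_pt (x y : V) : pt x + pt y = pt (x + y) := by
  apply hs_ext; intro v; rw [hs_add]; simp [inner_add_right]

theorem smul_pt (c : ℝ) (x : V) : c • pt x = pt (c • x) := by
  apply ConvexBody.ext
  rw [ConvexBody.coe_smul]
  simp

theorem one_smul_body (K : ConvexBody V) : (1 : ℝ) • K = K := one_smul _ _

theorem smul_add_body (c : ℝ) (K L : ConvexBody V) : c • (K + L) = c • K + c • L := smul_add _ _ _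

theorem add_smul_body {a b : ℝ} (ha : 0 ≤ a) (hb : 0 ≤ b) (K : ConvexBody V) :
    (a + b) • K = a • K + b • K := by
  apply hs_ext; intro v
  rw [hs_add, hs_smul (by positivity), hs_smul ha, hs_smul hb]; ring

theorem zero_smul_body (K : ConvexBody V) : (0 : ℝ) • K = 0 := by
  apply hs_ext; intro v; rw [hs_smul le_rfl]; simp

theorem smul_zero_body (c : ℝ) : c • (0 : ConvexBody V) = 0 := smul_zero _

theorem smul_seg {c : ℝ} (hc : 0 ≤ c) (x : V) : c • seg x = seg (c • x) := by
  apply hs_ext; intro v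
  rw [hs_smul hc, hs_seg, hs_seg, real_inner_smul_right, mul_max_of_nonneg _ _ hc, mul_zero]

theorem seg_neg (x : V) : seg (-x) + pt x = seg x := by
  apply hs_ext; intro v
  rw [hs_add, hs_seg, hs_seg, hs_pt, inner_neg_right, ← max_add_add_right]
  simp [max_comm]

theorem seg_zero : seg (0 : V) = 0 := by
  apply hs_ext; intro v; rw [hs_seg]; simp

theorem seg_add_seg_smul {a b : ℝ} (ha : 0 ≤ a) (hb : 0 ≤ b) (x : V) :
    seg (a • x) + seg (b • x) = seg ((a + b) • x) := by
  rw [← smul_seg ha, ← smul_seg hb, ← smul_seg (by positivity), add_smul_body ha hb]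

/-- cancellation -/
theorem add_right_cancel_body {K L M : ConvexBody V} (h : K + M = L + M) : K = L := by
  apply hs_ext; intro v
  have := congrArg (fun N => hs N v) h
  simp only [hs_add] at this
  linarith

end B

section C
variable {V : Type*} [NormedAddCommGroup V] [InnerProductSpace ℝ V] [FiniteDimensional ℝ V]
variable {W : Type*} [NormedAddCommGroup W] [InnerProductSpace ℝ W] [FiniteDimensional ℝ W]
variable {X : Type*} [NormedAddCommGroup X] [InnerProductSpace ℝ X] [FiniteDimensional ℝ X]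

omit [FiniteDimensional ℝ V] [FiniteDimensional ℝ W] in
@[simp] theorem coe_mapB (f : V →L[ℝ] W) (K : ConvexBody V) :
    (mapB f K : Set W) = f '' (K : Set V) := rfl

theorem hs_mapB (f : V →L[ℝ] W) (K : ConvexBody V) (w : W) :
    hs (mapB f K) w = hs K (ContinuousLinearMap.adjoint f w) := by
  apply le_antisymm
  · apply hs_le
    rintro _ ⟨x, hx, rfl⟩
    rw [← ContinuousLinearMap.adjoint_inner_left]
    exact inner_le_hs hx _
  · obtain ⟨x, hx, h⟩ := exists_hs K (ContinuousLinearMap.adjoint f w)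
    rw [← h, ContinuousLinearMap.adjoint_inner_left]
    exact inner_le_hs (show f x ∈ f '' (K : Set V) from ⟨x, hx, rfl⟩) w

omit [FiniteDimensional ℝ V] in
@[simp] theorem coe_isoB (g : V ≃ₗᵢ[ℝ] V) (K : ConvexBody V) :
    (isoB g K : Set V) = g '' (K : Set V) := rfl

theorem hs_isoB (g : V ≃ₗᵢ[ℝ] V) (K : ConvexBody V) (v : V) :
    hs (isoB g K) v = hs K (g.symm v) := by
  apply le_antisymm
  · apply hs_le
    rintro _ ⟨x, hx, rfl⟩
    have h1 : ⟪v, (((g : V ≃L[ℝ] V) : V →L[ℝ] V)) x⟫_ℝ = ⟪g.symm v, x⟫_ℝ := by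
      have := g.inner_map_map (g.symm v) x
      simpa using this
    rw [h1]
    exact inner_le_hs hx _
  · obtain ⟨x, hx, h⟩ := exists_hs K (g.symm v)
    rw [← h]
    have h1 : ⟪g.symm v, x⟫_ℝ = ⟪v, g x⟫_ℝ := by
      have := g.inner_map_map (g.symm v) x
      simpa using this.symm
    rw [h1]
    exact inner_le_hs (show g x ∈ g '' (K : Set V) from ⟨x, hx, rfl⟩) v

theorem mapB_add (f : V →L[ℝ] W) (K L : ConvexBody V) :
    mapB f (K + L) = mapB f K + mapB f L := by
  apply hs_ext; intro v; rw [hs_mapB, hs_add, hs_add, hs_mapB, hs_mapB]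

theorem mapB_smul (f : V →L[ℝ] W) (c : ℝ) (K : ConvexBody V) :
    mapB f (c • K) = c • mapB f K := by
  apply ConvexBody.ext
  rw [coe_mapB, ConvexBody.coe_smul, ConvexBody.coe_smul, coe_mapB]
  exact image_smul_comm f c (K : Set V) (fun b => map_smul f c b)

theorem mapB_pt (f : V →L[ℝ] W) (x : V) : mapB f (pt x) = pt (f x) := by
  apply ConvexBody.ext; simp

theorem mapB_zero (f : V →L[ℝ] W) : mapB f (0 : ConvexBody V) = 0 := by
  rw [← pt_zero, mapB_pt]; simp [pt_zero]

theorem mapB_seg (f : V →L[ℝ] W) (x : V) : mapB f (seg x) = seg (f x) := by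
  apply hs_ext; intro v
  rw [hs_mapB, hs_seg, hs_seg, ContinuousLinearMap.adjoint_inner_left]

theorem mapB_tri (f : V →L[ℝ] W) (a b : V) : mapB f (tri a b) = tri (f a) (f b) := by
  apply hs_ext; intro v
  rw [hs_mapB, hs_tri, hs_tri, ContinuousLinearMap.adjoint_inner_left,
    ContinuousLinearMap.adjoint_inner_left]

theorem mapB_mono (f : V →L[ℝ] W) {K L : ConvexBody V} (h : K ≤ L) : mapB f K ≤ mapB f L := by
  rw [le_iff_hs]; intro v; rw [hs_mapB, hs_mapB]; exact hs_mono h _

theorem mapB_mapB (g : W →L[ℝ] X) (f : V →L[ℝ] W) (K : ConvexBody V) :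
    mapB g (mapB f K) = mapB (g.comp f) K := by
  apply ConvexBody.ext
  rw [coe_mapB, coe_mapB, coe_mapB, Set.image_image]
  rfl

theorem mapB_id (K : ConvexBody V) : mapB (ContinuousLinearMap.id ℝ V) K = K := by
  apply ConvexBody.ext; simp

theorem dist_mapB_le (f : V →L[ℝ] W) (K L : ConvexBody V) :
    dist (mapB f K) (mapB f L) ≤ ‖f‖ * dist K L := by
  apply dist_le_of_hs (by positivity)
  intro w
  rw [hs_mapB, hs_mapB]
  refine (abs_hs_sub_le K L _).trans ?_
  have h1 : ‖ContinuousLinearMap.adjoint f w‖ ≤ ‖f‖ * ‖w‖ := by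
    have := (ContinuousLinearMap.adjoint f).le_opNorm w
    rwa [LinearIsometryEquiv.norm_map] at this
  calc dist K L * ‖ContinuousLinearMap.adjoint f w‖ ≤ dist K L * (‖f‖ * ‖w‖) :=
        mul_le_mul_of_nonneg_left h1 dist_nonneg
    _ = ‖f‖ * dist K L * ‖w‖ := by ring

theorem dist_mapB_mapB_le (f g : V →L[ℝ] W) (K : ConvexBody V) :
    dist (mapB f K) (mapB g K) ≤ ‖f - g‖ * dist K 0 := by
  apply dist_le_of_hs (by positivity)
  intro w
  rw [hs_mapB, hs_mapB]
  refine (hs_lip K _ _).trans ?_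
  have h0 : ContinuousLinearMap.adjoint f w - ContinuousLinearMap.adjoint g w
      = ContinuousLinearMap.adjoint (f - g) w := by
    rw [map_sub]; rfl
  have h1 : ‖ContinuousLinearMap.adjoint (f - g) w‖ ≤ ‖f - g‖ * ‖w‖ := by
    have := (ContinuousLinearMap.adjoint (f - g)).le_opNorm w
    rwa [LinearIsometryEquiv.norm_map] at this
  rw [h0]
  calc dist K 0 * ‖ContinuousLinearMap.adjoint (f - g) w‖ ≤ dist K 0 * (‖f - g‖ * ‖w‖) :=
        mul_le_mul_of_nonneg_left h1 dist_nonneg
    _ = ‖f - g‖ * dist K 0 * ‖w‖ := by ring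

/-- joint continuity of `mapB` -/
theorem continuous_mapB : Continuous (fun p : (V →L[ℝ] W) × ConvexBody V => mapB p.1 p.2) := by
  rw [continuous_iff_continuousAt]
  rintro ⟨f, K⟩
  rw [ContinuousAt, tendsto_iff_dist_tendsto_zero]
  have h1 : Tendsto (fun p : (V →L[ℝ] W) × ConvexBody V =>
      ‖p.1‖ * dist p.2 K + ‖p.1 - f‖ * dist K 0) (𝓝 (f, K)) (𝓝 0) := by
    have : Continuous (fun p : (V →L[ℝ] W) × ConvexBody V =>
      ‖p.1‖ * dist p.2 K + ‖p.1 - f‖ * dist K 0) := by fun_prop
    have h := this.tendsto (f, K)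
    simpa using h
  refine squeeze_zero (fun _ => dist_nonneg) (fun p => ?_) h1
  refine (dist_triangle _ (mapB p.1 K) _).trans ?_
  exact add_le_add (dist_mapB_le _ _ _) (dist_mapB_mapB_le _ _ _)

theorem continuous_mapB_right (f : V →L[ℝ] W) : Continuous (mapB f : ConvexBody V → _) :=
  continuous_mapB.comp (continuous_const.prodMk continuous_id)

theorem isoB_add (g : V ≃ₗᵢ[ℝ] V) (K L : ConvexBody V) : isoB g (K + L) = isoB g K + isoB g L :=
  mapB_add _ K L

theorem isoB_smul (g : V ≃ₗᵢ[ℝ] V) (c : ℝ) (K : ConvexBody V) : isoB g (c • K) = c • isoB g K :=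
  mapB_smul _ c K

theorem isoB_pt (g : V ≃ₗᵢ[ℝ] V) (x : V) : isoB g (pt x) = pt (g x) := mapB_pt _ x

theorem isoB_seg (g : V ≃ₗᵢ[ℝ] V) (x : V) : isoB g (seg x) = seg (g x) := mapB_seg _ x

theorem isoB_tri (g : V ≃ₗᵢ[ℝ] V) (a b : V) : isoB g (tri a b) = tri (g a) (g b) := mapB_tri _ a b

theorem isoB_isoB (g h : V ≃ₗᵢ[ℝ] V) (K : ConvexBody V) :
    isoB g (isoB h K) = isoB (h.trans g) K := by
  apply hs_ext; intro v; rw [hs_isoB, hs_isoB, hs_isoB]; rfl

theorem isoB_symm (g : V ≃ₗᵢ[ℝ] V) (K : ConvexBody V) : isoB g (isoB g.symm K) = K := by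
  apply hs_ext; intro v; rw [hs_isoB, hs_isoB]; simp

theorem dist_isoB (g : V ≃ₗᵢ[ℝ] V) (K L : ConvexBody V) :
    dist (isoB g K) (isoB g L) = dist K L := by
  apply le_antisymm
  · apply dist_le_of_hs dist_nonneg
    intro v
    rw [hs_isoB, hs_isoB]
    have := abs_hs_sub_le K L (g.symm v)
    simpa using this
  · apply dist_le_of_hs dist_nonneg
    intro v
    have := abs_hs_sub_le (isoB g K) (isoB g L) (g v)
    rw [hs_isoB, hs_isoB] at this
    simpa using this

/-- the Euclidean unit ball -/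
noncomputable def ballB (V : Type*) [NormedAddCommGroup V] [InnerProductSpace ℝ V]
    [FiniteDimensional ℝ V] : ConvexBody V :=
  ⟨Metric.closedBall 0 1, convex_closedBall _ _, isCompact_closedBall _ _, ⟨0, by simp⟩⟩

theorem hs_ballB (v : V) : hs (ballB V) v = ‖v‖ := by
  apply le_antisymm
  · apply hs_le
    intro x hx
    have h1 : ‖x‖ ≤ 1 := by
      have : x ∈ Metric.closedBall (0 : V) 1 := hx
      simpa using this
    have := real_inner_le_norm v x
    nlinarith [norm_nonneg v]
  · by_cases hv : v = 0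
    · subst hv; simp
    · have hn : ‖v‖ ≠ 0 := norm_ne_zero_iff.2 hv
      have h1 : (‖v‖⁻¹ • v) ∈ ballB V := by
        show ‖v‖⁻¹ • v ∈ Metric.closedBall (0 : V) 1
        simp [norm_smul, hn]
      have := inner_le_hs h1 v
      rw [real_inner_smul_right, real_inner_self_eq_norm_sq] at this
      have h2 : ‖v‖⁻¹ * ‖v‖ ^ 2 = ‖v‖ := by field_simp
      linarith

theorem le_add_ball {K L : ConvexBody V} {r : ℝ} (hr : dist K L ≤ r) :
    K ≤ L + r • ballB V := by
  rw [le_iff_hs]
  intro v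
  have h0 : 0 ≤ r := dist_nonneg.trans hr
  rw [hs_add, hs_smul h0, hs_ballB]
  have h1 := (abs_le.1 (abs_hs_sub_le K L v)).2
  have h2 : dist K L * ‖v‖ ≤ r * ‖v‖ := mul_le_mul_of_nonneg_right hr (norm_nonneg _)
  linarith

theorem sublin_add {f g : V → ℝ} (hf : Sublin f) (hg : Sublin g) : Sublin (fun v => f v + g v) :=
  ⟨fun c v hc => by rw [hf.hom c v hc, hg.hom c v hc]; ring,
   fun v w => by linarith [hf.sub v w, hg.sub v w]⟩

theorem sublin_smul {f : V → ℝ} (hf : Sublin f) {c : ℝ} (hc : 0 ≤ c) :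
    Sublin (fun v => c * f v) :=
  ⟨fun a v ha => by rw [hf.hom a v ha]; ring,
   fun v w => by
    have := mul_le_mul_of_nonneg_left (hf.sub v w) hc
    linarith⟩

theorem sublin_max {f g : V → ℝ} (hf : Sublin f) (hg : Sublin g) :
    Sublin (fun v => max (f v) (g v)) :=
  ⟨fun c v hc => by rw [hf.hom c v hc, hg.hom c v hc, mul_max_of_nonneg _ _ hc],
   fun v w => max_le ((hf.sub v w).trans (add_le_add (le_max_left _ _) (le_max_left _ _)))
    ((hg.sub v w).trans (add_le_add (le_max_right _ _) (le_max_right _ _)))⟩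

theorem sublin_inner (p : V) : Sublin (fun v => ⟪v, p⟫_ℝ) :=
  ⟨fun c v _ => by rw [real_inner_smul_left], fun v w => by rw [inner_add_left]⟩

theorem sublin_norm : Sublin (fun v : V => ‖v‖) :=
  ⟨fun c v hc => by rw [norm_smul, Real.norm_of_nonneg hc], fun v w => norm_add_le v w⟩

theorem sublin_comp {f : W → ℝ} (hf : Sublin f) (T : V →ₗ[ℝ] W) : Sublin (fun v => f (T v)) :=
  ⟨fun c v hc => by rw [map_smul, hf.hom c _ hc], fun v w => by rw [map_add]; exact hf.sub _ _⟩

end C

end MV
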