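import Pool.Agent.Lib.MP_f30071_gt.Defs

/-! Convex functions on the line: representation by a measure, second differences. -/

open MeasureTheory ProbabilityTheory Filter Topology Set
open scoped InnerProductSpace Pointwise NNReal ENNReal

namespace MV

namespace Conv1

/-! ### subtracting a kink from a convex function -/

theorem glue_slopes {φ : ℝ → ℝ} (hφ : ConvexOn ℝ univ φ) {s J : ℝ}
    (hJ : ∀ t : ℝ, 0 < t → J * t ≤ φ (s + t) + φ (s - t) - 2 * φ s) {x z : ℝ} (hx : x < s)
    (hz : s < z) : J ≤ (φ z - φ s) / (z - s) - (φ s - φ x) / (s - x) := by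
  set t := min (z - s) (s - x) with ht
  have ht0 : 0 < t := lt_min (by linarith) (by linarith)
  have h1 : (φ (s + t) - φ s) / (s + t - s) ≤ (φ z - φ s) / (z - s) :=
    hφ.secant_mono (mem_univ s) (mem_univ _) (mem_univ _) (by linarith) (by linarith)
      (by have := min_le_left (z - s) (s - x); linarith)
  have h2 : (φ x - φ s) / (x - s) ≤ (φ (s - t) - φ s) / (s - t - s) :=
    hφ.secant_mono (mem_univ s) (mem_univ _) (mem_univ _) (by linarith) (by linarith)
      (by have := min_le_right (z - s) (s - x); linarith)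
  have h3 : (φ s - φ x) / (s - x) = (φ x - φ s) / (x - s) := by
    rw [← neg_sub (φ x) (φ s), ← neg_sub x s, neg_div_neg_eq]
  have h4 : (φ (s - t) - φ s) / (s - t - s) = (φ s - φ (s - t)) / t := by
    rw [show s - t - s = -t by ring, ← neg_sub (φ s) (φ (s - t)), neg_div_neg_eq]
  have h5 : (φ (s + t) - φ s) / (s + t - s) = (φ (s + t) - φ s) / t := by
    rw [show s + t - s = t by ring]
  have h6 : J ≤ (φ (s + t) - φ s) / t - (φ s - φ (s - t)) / t := by
    rw [← sub_div, le_div_iff₀ ht0]
    linarith [hJ t ht0]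
  linarith

theorem glue {φ : ℝ → ℝ} (hφ : ConvexOn ℝ univ φ) {s J : ℝ}
    (hJ : ∀ t : ℝ, 0 < t → J * t ≤ φ (s + t) + φ (s - t) - 2 * φ s) :
    ConvexOn ℝ univ (fun x => φ x - J / 2 * |x - s|) := by
  have key : ∀ {x y z : ℝ}, x < y → y < z → (φ y - φ x) / (y - x) ≤ (φ z - φ y) / (z - y) :=
    fun hxy hyz => hφ.slope_mono_adjacent (mem_univ _) (mem_univ _) hxy hyz
  -- formula for the increments on each side
  have hR : ∀ {x y : ℝ}, s ≤ x → x < y →
      ((φ y - J / 2 * |y - s|) - (φ x - J / 2 * |x - s|)) / (y - x) =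
        (φ y - φ x) / (y - x) - J / 2 := by
    intro x y hx hxy
    have hne : y - x ≠ 0 := (sub_pos.2 hxy).ne'
    rw [abs_of_nonneg (by linarith : 0 ≤ y - s), abs_of_nonneg (by linarith : 0 ≤ x - s)]
    field_simp
    ring
  have hL : ∀ {x y : ℝ}, y ≤ s → x < y →
      ((φ y - J / 2 * |y - s|) - (φ x - J / 2 * |x - s|)) / (y - x) =
        (φ y - φ x) / (y - x) + J / 2 := by
    intro x y hy hxy
    have hne : y - x ≠ 0 := (sub_pos.2 hxy).ne'
    rw [abs_of_nonpos (by linarith : y - s ≤ 0), abs_of_nonpos (by linarith : x - s ≤ 0)]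
    field_simp
    ring
  refine convexOn_of_slope_mono_adjacent convex_univ ?_
  intro x y z _ _ hxy hyz
  show ((φ y - J / 2 * |y - s|) - (φ x - J / 2 * |x - s|)) / (y - x) ≤
    ((φ z - J / 2 * |z - s|) - (φ y - J / 2 * |y - s|)) / (z - y)
  have mid : ∀ {x z : ℝ}, x < s → s < z →
      ((φ s - J / 2 * |s - s|) - (φ x - J / 2 * |x - s|)) / (s - x) ≤
        ((φ z - J / 2 * |z - s|) - (φ s - J / 2 * |s - s|)) / (z - s) := by
    intro x z hx hz
    rw [hR le_rfl hz, hL le_rfl hx]
    have := glue_slopes hφ hJ hx hz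
    linarith
  set ψ : ℝ → ℝ := fun x => φ x - J / 2 * |x - s| with hψ
  have mid' : ∀ {x z : ℝ}, x < s → s < z → (ψ s - ψ x) / (s - x) ≤ (ψ z - ψ s) / (z - s) := mid
  have kR : ∀ {x y z : ℝ}, s ≤ x → x < y → y < z →
      (ψ y - ψ x) / (y - x) ≤ (ψ z - ψ y) / (z - y) := by
    intro x y z hx hxy hyz
    show ((φ y - J / 2 * |y - s|) - (φ x - J / 2 * |x - s|)) / (y - x) ≤
      ((φ z - J / 2 * |z - s|) - (φ y - J / 2 * |y - s|)) / (z - y)
    rw [hR hx hxy, hR (by linarith) hyz]
    linarith [key hxy hyz]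
  have kL : ∀ {x y z : ℝ}, z ≤ s → x < y → y < z →
      (ψ y - ψ x) / (y - x) ≤ (ψ z - ψ y) / (z - y) := by
    intro x y z hz hxy hyz
    show ((φ y - J / 2 * |y - s|) - (φ x - J / 2 * |x - s|)) / (y - x) ≤
      ((φ z - J / 2 * |z - s|) - (φ y - J / 2 * |y - s|)) / (z - y)
    rw [hL (by linarith) hxy, hL hz hyz]
    linarith [key hxy hyz]
  show (ψ y - ψ x) / (y - x) ≤ (ψ z - ψ y) / (z - y)
  rcases le_or_gt s x with h | h
  · exact kR h hxy hyz
  rcases le_or_gt z s with h' | h'
  · exact kL h' hxy hyz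
  rcases lt_trichotomy y s with h'' | h'' | h''
  · -- x < y < s < z
    have a1 := kL le_rfl hxy h''
    have a2 := mid' h'' h'
    rw [le_div_iff₀ (by linarith)]
    have b1 : (ψ s - ψ y) = (ψ s - ψ y) / (s - y) * (s - y) := by
      rw [div_mul_cancel₀ _ (by linarith)]
    have b2 : (ψ z - ψ s) = (ψ z - ψ s) / (z - s) * (z - s) := by
      rw [div_mul_cancel₀ _ (by linarith)]
    have c1 : (ψ y - ψ x) / (y - x) * (s - y) ≤ ψ s - ψ y := by
      rw [b1]
      exact mul_le_mul_of_nonneg_right a1 (by linarith)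
    have c2 : (ψ y - ψ x) / (y - x) * (z - s) ≤ ψ z - ψ s := by
      rw [b2]
      exact mul_le_mul_of_nonneg_right (a1.trans a2) (by linarith)
    nlinarith
  · subst h''
    exact mid' h h'
  · -- x < s < y < z
    have a1 := kR le_rfl h'' hyz
    have a2 := mid' h h''
    rw [div_le_iff₀ (by linarith)]
    have b1 : (ψ y - ψ s) = (ψ y - ψ s) / (y - s) * (y - s) := by
      rw [div_mul_cancel₀ _ (by linarith)]
    have b2 : (ψ s - ψ x) = (ψ s - ψ x) / (s - x) * (s - x) := by
      rw [div_mul_cancel₀ _ (by linarith)]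
    have c1 : ψ y - ψ s ≤ (ψ z - ψ y) / (z - y) * (y - s) := by
      rw [b1]
      exact mul_le_mul_of_nonneg_right a1 (by linarith)
    have c2 : ψ s - ψ x ≤ (ψ z - ψ y) / (z - y) * (s - x) := by
      rw [b2]
      exact mul_le_mul_of_nonneg_right (a2.trans a1) (by linarith)
    nlinarith

theorem glue_sum (S : Finset ℝ) (J : ℝ → ℝ) : ∀ φ : ℝ → ℝ, ConvexOn ℝ univ φ →
    (∀ s ∈ S, ∀ t : ℝ, 0 < t → J s * t ≤ φ (s + t) + φ (s - t) - 2 * φ s) →
    ConvexOn ℝ univ (fun x => φ x - ∑ s ∈ S, J s / 2 * |x - s|) := by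
  classical
  induction S using Finset.induction_on with
  | empty => intro φ hφ _; simpa using hφ
  | insert a S ha ih =>
    intro φ hφ hJ
    have h1 := glue hφ (hJ a (Finset.mem_insert_self a S))
    have h2 := ih _ h1 ?_
    · have he : (fun x => φ x - ∑ s ∈ insert a S, J s / 2 * |x - s|) =
          fun x => (φ x - J a / 2 * |x - a|) - ∑ s ∈ S, J s / 2 * |x - s| := by
        funext x
        rw [Finset.sum_insert ha]
        ring
      rw [he]
      exact h2
    · intro s hs t ht
      have hne : s ≠ a := fun h => ha (h ▸ hs)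
      set t0 := |s - a| with ht0
      have ht0' : 0 < t0 := abs_pos.2 (sub_ne_zero.2 hne)
      -- for small steps the kink at `a` is invisible
      have hsmall : ∀ r : ℝ, 0 < r → r ≤ t0 → J s * r ≤
          (φ (s + r) - J a / 2 * |s + r - a|) + (φ (s - r) - J a / 2 * |s - r - a|) -
            2 * (φ s - J a / 2 * |s - a|) := by
        intro r hr hr0
        have h3 : |s + r - a| + |s - r - a| = 2 * |s - a| := by
          rcases le_or_gt a s with h | h
          · rw [ht0, abs_of_nonneg (by linarith : 0 ≤ s - a)] at hr0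
            rw [abs_of_nonneg (by linarith : 0 ≤ s - a), abs_of_nonneg (by linarith),
              abs_of_nonneg (by linarith)]
            ring
          · rw [ht0, abs_of_neg (by linarith : s - a < 0)] at hr0
            rw [abs_of_neg (by linarith : s - a < 0), abs_of_nonpos (by linarith),
              abs_of_nonpos (by linarith)]
            ring
        have h4 := hJ s (Finset.mem_insert_of_mem hs) r hr
        have h5 : J a / 2 * |s + r - a| + J a / 2 * |s - r - a| = J a / 2 * (2 * |s - a|) := by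
          rw [← mul_add, h3]
        linarith
      rcases le_or_gt t t0 with h | h
      · exact hsmall t ht h
      · have h6 := hsmall t0 ht0' le_rfl
        set ψ : ℝ → ℝ := fun x => φ x - J a / 2 * |x - a| with hψ
        have h7 : J s * t0 ≤ ψ (s + t0) + ψ (s - t0) - 2 * ψ s := h6
        have hl0 : 0 ≤ t0 / t := by positivity
        have hl1 : 0 ≤ 1 - t0 / t := by
          rw [sub_nonneg, div_le_one ht]
          exact h.le
        have h8 : ψ (s + t0) ≤ t0 / t * ψ (s + t) + (1 - t0 / t) * ψ s := by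
          have := h1.2 (mem_univ (s + t)) (mem_univ s) hl0 hl1 (by ring)
          simp only [smul_eq_mul] at this
          have e1 : t0 / t * (s + t) + (1 - t0 / t) * s = s + t0 := by
            field_simp
            ring
          rw [e1] at this
          exact this
        have h9 : ψ (s - t0) ≤ t0 / t * ψ (s - t) + (1 - t0 / t) * ψ s := by
          have := h1.2 (mem_univ (s - t)) (mem_univ s) hl0 hl1 (by ring)
          simp only [smul_eq_mul] at this
          have e1 : t0 / t * (s - t) + (1 - t0 / t) * s = s - t0 := by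
            field_simp
            ring
          rw [e1] at this
          exact this
        show J s * t ≤ ψ (s + t) + ψ (s - t) - 2 * ψ s
        have h10 : J s * t0 ≤ t0 / t * (ψ (s + t) + ψ (s - t) - 2 * ψ s) := by
          nlinarith
        have h11 : J s * t0 = t0 / t * (J s * t) := by
          field_simp
        rw [h11] at h10
        exact le_of_mul_le_mul_left h10 (by positivity)

end Conv1

/-- Second difference of a convex function dominates the sum of its jumps. -/
theorem second_diff_atoms (φ : ℝ → ℝ) (hφ : ConvexOn ℝ univ φ) (S : Finset ℝ)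
    (hS : ∀ s ∈ S, |s| < 1) (J : ℝ → ℝ)
    (hJ : ∀ s ∈ S, ∀ t : ℝ, 0 < t → J s * t ≤ φ (s + t) + φ (s - t) - 2 * φ s) :
    ∑ s ∈ S, (1 - |s|) * J s ≤ φ 1 + φ (-1) - 2 * φ 0 := by
  have h := Conv1.glue_sum S J φ hφ hJ
  have h1 := h.2 (mem_univ (1 : ℝ)) (mem_univ (-1 : ℝ)) (by norm_num : (0 : ℝ) ≤ 1 / 2)
    (by norm_num : (0 : ℝ) ≤ 1 / 2) (by norm_num)
  simp only [smul_eq_mul] at h1
  rw [show (1 / 2 : ℝ) * 1 + 1 / 2 * -1 = 0 by norm_num] at h1
  have h2 : ∑ s ∈ S, (1 - |s|) * J s = ∑ s ∈ S, J s / 2 * |1 - s| + ∑ s ∈ S, J s / 2 * |-1 - s|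
      - 2 * ∑ s ∈ S, J s / 2 * |0 - s| := by
    rw [Finset.mul_sum, ← Finset.sum_add_distrib, ← Finset.sum_sub_distrib]
    refine Finset.sum_congr rfl fun s hs => ?_
    have := abs_lt.1 (hS s hs)
    rw [abs_of_nonneg (by linarith : 0 ≤ 1 - s), abs_of_nonpos (by linarith : -1 - s ≤ 0),
      zero_sub, abs_neg]
    ring
  rw [h2]
  linarith

namespace Conv1


theorem kink_integrable {μ : Measure ℝ} [IsFiniteMeasure μ]
    (hμ : Integrable (fun τ : ℝ => τ) μ) (s : ℝ) :
    Integrable (fun τ => max 0 (s - τ)) μ := by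
  have h := ((integrable_const s).sub hμ).pos_part
  refine h.congr (Eventually.of_forall fun τ => ?_)
  simp only [Pi.sub_apply]
  rw [max_comm]

/-- right derivative -/
noncomputable def rd (q : ℝ → ℝ) (s : ℝ) : ℝ := derivWithin q (Ioi s) s

section rd
variable {q : ℝ → ℝ} (hq : ConvexOn ℝ univ q)
include hq

theorem rd_hasDeriv (s : ℝ) : HasDerivWithinAt q (rd q s) (Ioi s) s :=
  hq.hasDerivWithinAt_rightDeriv_of_mem_interior (by simp)

theorem rd_mono : Monotone (rd q) := by
  have h := hq.monotoneOn_rightDeriv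
  rw [interior_univ] at h
  exact fun a b hab => h (mem_univ a) (mem_univ b) hab

theorem rd_le {s t : ℝ} (hst : s < t) : rd q s * (t - s) ≤ q t - q s := by
  have h := hq.rightDeriv_le_slope_of_mem_interior (x := s) (y := t) (by simp) (mem_univ t) hst
  rw [slope_def_field, le_div_iff₀ (by linarith)] at h
  exact h

theorem le_rd {s t : ℝ} (hst : s < t) : q t - q s ≤ rd q t * (t - s) := by
  have h := hq.slope_le_leftDeriv_of_mem_interior (x := s) (y := t) (mem_univ s) (by simp) hst
  have h2 := hq.leftDeriv_le_rightDeriv_of_mem_interior (x := t) (by simp)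
  have h3 := h.trans h2
  rw [slope_def_field, div_le_iff₀ (by linarith)] at h3
  exact h3

theorem rd_integral (a b : ℝ) : ∫ s in a..b, rd q s = q b - q a := by
  have hc : Continuous q := by
    have := hq.continuousOn_interior
    rw [interior_univ] at this
    exact continuousOn_univ.1 this
  exact intervalIntegral.integral_eq_sub_of_hasDeriv_right hc.continuousOn
    (fun x _ => rd_hasDeriv hq x) ((rd_mono hq).intervalIntegrable)

theorem neg_le_rd {k₁ C : ℝ} (h1 : ∀ s, s ≤ 0 → |q s + k₁ * s| ≤ C) (s : ℝ) : -k₁ ≤ rd q s := by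
  by_contra hlt
  rw [not_le] at hlt
  set d := -k₁ - rd q s with hd
  have hd0 : 0 < d := by linarith
  -- take `s' = min s 0 - 1 - M / d`
  set M := |q s| + |C| + |rd q s * s| + 1 with hM
  set s' := min s 0 - 1 - M / d with hs'
  have hMd : 0 < M / d := by positivity
  have hs1 : s' < s := by have := min_le_left s 0; linarith
  have hs2 : s' ≤ 0 := by have := min_le_right s 0; linarith
  have h3 := le_rd hq hs1
  have h4 := (abs_le.1 (h1 s' hs2)).2
  have h5 : d * s' ≤ -M := by
    have h6 : s' ≤ -(M / d) := by have := min_le_right s 0; linarith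
    calc d * s' ≤ d * (-(M / d)) := mul_le_mul_of_nonneg_left h6 hd0.le
      _ = -M := by field_simp
  have h7 := neg_abs_le (q s)
  have h8 := le_abs_self C
  have h9 := le_abs_self (rd q s * s)
  nlinarith

theorem rd_le_k {k₂ C : ℝ} (h2 : ∀ s, 0 ≤ s → |q s - k₂ * s| ≤ C) (s : ℝ) : rd q s ≤ k₂ := by
  by_contra hlt
  rw [not_le] at hlt
  set d := rd q s - k₂ with hd
  have hd0 : 0 < d := by linarith
  set M := |q s| + |C| + |rd q s * s| + 1 with hM
  set s' := max s 0 + 1 + M / d with hs'
  have hMd : 0 < M / d := by positivity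
  have hs1 : s < s' := by have := le_max_left s 0; linarith
  have hs2 : 0 ≤ s' := by have := le_max_right s 0; linarith
  have h3 := rd_le hq hs1
  have h4 := (abs_le.1 (h2 s' hs2)).2
  have h5 : M ≤ d * s' := by
    have h6 : M / d ≤ s' := by have := le_max_right s 0; linarith
    calc M = d * (M / d) := by field_simp
      _ ≤ d * s' := mul_le_mul_of_nonneg_left h6 hd0.le
  have h7 := neg_abs_le (q s)
  have h8 := le_abs_self C
  have h9 := le_abs_self (rd q s * s)
  nlinarith

theorem rd_atBot {k₁ C : ℝ} (h1 : ∀ s, s ≤ 0 → |q s + k₁ * s| ≤ C) :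
    Tendsto (rd q) atBot (𝓝 (-k₁)) := by
  have hup : Tendsto (fun s : ℝ => -k₁ + (q 0 + C) / (-s)) atBot (𝓝 (-k₁)) := by
    have : Tendsto (fun s : ℝ => (q 0 + C) / (-s)) atBot (𝓝 0) :=
      tendsto_const_nhds.div_atTop tendsto_neg_atBot_atTop
    simpa using this.const_add (-k₁)
  refine tendsto_of_tendsto_of_tendsto_of_le_of_le' tendsto_const_nhds hup
    (Eventually.of_forall fun s => neg_le_rd hq h1 s) ?_
  filter_upwards [eventually_lt_atBot 0] with s hs
  have h3 := rd_le hq hs
  have h4 := (abs_le.1 (h1 s hs.le)).1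
  have h5 : rd q s * (0 - s) ≤ q 0 + C + k₁ * s := by linarith
  rw [← sub_le_iff_le_add', le_div_iff₀ (by linarith)]
  linarith

theorem rd_atTop {k₂ C : ℝ} (h2 : ∀ s, 0 ≤ s → |q s - k₂ * s| ≤ C) :
    Tendsto (rd q) atTop (𝓝 k₂) := by
  have hlo : Tendsto (fun s : ℝ => k₂ - (q 0 + C) / s) atTop (𝓝 k₂) := by
    have : Tendsto (fun s : ℝ => (q 0 + C) / s) atTop (𝓝 0) :=
      tendsto_const_nhds.div_atTop tendsto_id
    simpa using this.const_sub k₂
  refine tendsto_of_tendsto_of_tendsto_of_le_of_le' hlo tendsto_const_nhds ?_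
    (Eventually.of_forall fun s => rd_le_k hq h2 s)
  filter_upwards [eventually_gt_atTop 0] with s hs
  have h3 := le_rd hq hs
  have h4 := (abs_le.1 (h2 s hs.le)).1
  have h5 : k₂ * s - C - q 0 ≤ rd q s * (s - 0) := by linarith
  rw [sub_le_iff_le_add', ← sub_le_iff_le_add, le_div_iff₀ hs]
  linarith

end rd

/-- the right continuous version of the right derivative -/
noncomputable def FF {q : ℝ → ℝ} (hq : ConvexOn ℝ univ q) : StieltjesFunction ℝ :=
  (rd_mono hq).stieltjesFunction

section FF
variable {q : ℝ → ℝ} (hq : ConvexOn ℝ univ q)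

theorem FF_eq (x : ℝ) : FF hq x = Function.rightLim (rd q) x := rfl

theorem rd_le_FF (x : ℝ) : rd q x ≤ FF hq x := (rd_mono hq).le_rightLim le_rfl

theorem FF_le_rd {x y : ℝ} (hxy : x < y) : FF hq x ≤ rd q y := (rd_mono hq).rightLim_le hxy

theorem FF_ae : (fun x => FF hq x) =ᵐ[volume] rd q := by
  have h := (rd_mono hq).countable_not_continuousAt
  filter_upwards [h.ae_notMem volume] with x hx
  simp only [not_not] at hx
  rw [FF_eq]
  exact hx.continuousWithinAt.rightLim_eq

theorem FF_atBot {k₁ C : ℝ} (h1 : ∀ s, s ≤ 0 → |q s + k₁ * s| ≤ C) :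
    Tendsto (FF hq) atBot (𝓝 (-k₁)) := by
  have h2 := rd_atBot hq h1
  have h3 : Tendsto (fun x : ℝ => rd q (x + 1)) atBot (𝓝 (-k₁)) :=
    h2.comp (tendsto_atBot_add_const_right _ 1 tendsto_id)
  exact tendsto_of_tendsto_of_tendsto_of_le_of_le h2 h3 (fun x => rd_le_FF hq x)
    (fun x => FF_le_rd hq (by linarith))

theorem FF_atTop {k₂ C : ℝ} (h1 : ∀ s, 0 ≤ s → |q s - k₂ * s| ≤ C) :
    Tendsto (FF hq) atTop (𝓝 k₂) := by
  have h2 := rd_atTop hq h1
  have h3 : Tendsto (fun x : ℝ => rd q (x + 1)) atTop (𝓝 k₂) :=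
    h2.comp (tendsto_atTop_add_const_right _ 1 tendsto_id)
  exact tendsto_of_tendsto_of_tendsto_of_le_of_le h2 h3 (fun x => rd_le_FF hq x)
    (fun x => FF_le_rd hq (by linarith))

theorem FF_integral (k a b : ℝ) : ∫ s in a..b, (FF hq s + k) = q b - q a + k * (b - a) := by
  have h1 : ∫ s in a..b, (FF hq s + k) = ∫ s in a..b, (rd q s + k) := by
    refine intervalIntegral.integral_congr_ae ?_
    filter_upwards [FF_ae hq] with x hx _
    rw [hx]
  rw [h1, intervalIntegral.integral_add (rd_mono hq).intervalIntegrable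
    intervalIntegrable_const, rd_integral hq]
  simp [mul_comm]

end FF

theorem kink_lintegral (μ : Measure ℝ) [IsFiniteMeasure μ] (s : ℝ) :
    ∫⁻ τ, ENNReal.ofReal (max 0 (s - τ)) ∂μ = ∫⁻ u in Iio s, μ (Iic u) := by
  have h1 : ∀ τ, ENNReal.ofReal (max 0 (s - τ)) =
      ∫⁻ u, ({p : ℝ × ℝ | p.1 ≤ p.2 ∧ p.2 < s}.indicator (fun _ => (1 : ℝ≥0∞)) (τ, u)) := by
    intro τ
    have h2 : (fun u => ({p : ℝ × ℝ | p.1 ≤ p.2 ∧ p.2 < s}.indicator
        (fun _ => (1 : ℝ≥0∞)) (τ, u))) = (Ico τ s).indicator (fun _ => (1 : ℝ≥0∞)) := by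
      funext u
      simp only [indicator, mem_ofPred_eq, mem_Ico]
    rw [h2, lintegral_indicator_const measurableSet_Ico, Real.volume_Ico, one_mul]
    rcases le_total 0 (s - τ) with h | h
    · rw [max_eq_right h]
    · rw [max_eq_left h, ENNReal.ofReal_zero, ENNReal.ofReal_of_nonpos h]
  have hm : MeasurableSet {p : ℝ × ℝ | p.1 ≤ p.2 ∧ p.2 < s} :=
    (measurableSet_le measurable_fst measurable_snd).inter
      (measurableSet_lt measurable_snd measurable_const)
  simp_rw [h1]
  rw [lintegral_lintegral_swap]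
  · rw [← lintegral_indicator measurableSet_Iio]
    refine lintegral_congr fun u => ?_
    by_cases hu : u < s
    · rw [indicator_of_mem (by exact hu)]
      have h2 : (fun τ => ({p : ℝ × ℝ | p.1 ≤ p.2 ∧ p.2 < s}.indicator
        (fun _ => (1 : ℝ≥0∞)) (τ, u))) = (Iic u).indicator (fun _ => (1 : ℝ≥0∞)) := by
        funext τ
        simp only [indicator, mem_ofPred_eq, mem_Iic, hu, and_true]
      rw [h2, lintegral_indicator_const measurableSet_Iic, one_mul]
    · rw [indicator_of_notMem (by exact hu)]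
      have h2 : (fun τ => ({p : ℝ × ℝ | p.1 ≤ p.2 ∧ p.2 < s}.indicator
        (fun _ => (1 : ℝ≥0∞)) (τ, u))) = fun _ => 0 := by
        funext τ
        simp only [indicator, mem_ofPred_eq, hu, and_false, if_false]
      rw [h2, lintegral_zero]
  · exact (measurable_const.indicator hm).aemeasurable

end Conv1

open Conv1 in
/-- Representation of a convex function with two bounded asymptotes. -/
theorem conv_repr (q : ℝ → ℝ) (hq : ConvexOn ℝ univ q) (k₁ k₂ C : ℝ)
    (h1 : ∀ s, s ≤ 0 → |q s + k₁ * s| ≤ C) (h2 : ∀ s, 0 ≤ s → |q s - k₂ * s| ≤ C) :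
    ∃ (μ : Measure ℝ) (c : ℝ), IsFiniteMeasure μ ∧ Integrable (fun τ : ℝ => τ) μ ∧
      Tendsto (fun s => q s + k₁ * s) atBot (𝓝 c) ∧
      (∀ s, q s = -k₁ * s + c + ∫ τ, max 0 (s - τ) ∂μ) := by
  set F := FF hq with hF
  have hbot := FF_atBot hq h1
  have htop := FF_atTop hq h2
  set μ := F.measure with hμ
  have hfin : IsFiniteMeasure μ := F.isFiniteMeasure hbot htop
  have huniv : μ univ = ENNReal.ofReal (k₂ - -k₁) := F.measure_univ hbot htop
  have hIic : ∀ u, μ (Iic u) = ENNReal.ofReal (F u + k₁) := by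
    intro u
    rw [hμ, F.measure_Iic hbot, sub_neg_eq_add]
  have hnn : ∀ u, 0 ≤ F u + k₁ := by
    intro u
    have := (neg_le_rd hq h1 u).trans (rd_le_FF hq u)
    linarith
  -- integrability of `F + k₁` at `-∞`
  have hint : ∀ s, IntegrableOn (fun u => F u + k₁) (Iic s) := by
    intro s
    refine integrableOn_Iic_of_intervalIntegral_norm_bounded (l := atBot) (a := fun x : ℝ => x)
      (q s + k₁ * s + C) s (fun i => ?_) tendsto_id ?_
    · refine ((F.mono.intervalIntegrable (a := i) (b := s)).1).add ?_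
      exact integrableOn_const (by simp)
    · filter_upwards [eventually_le_atBot 0] with a ha
      have h3 : ∫ x in a..s, ‖F x + k₁‖ = ∫ x in a..s, (F x + k₁) := by
        refine intervalIntegral.integral_congr fun x _ => ?_
        exact Real.norm_of_nonneg (hnn x)
      rw [h3, FF_integral]
      have := (abs_le.1 (h1 a ha)).1
      linarith
  set G : ℝ → ℝ := fun s => ∫ u in Iic s, (F u + k₁) with hG
  have hlim : ∀ s, Tendsto (fun a : ℝ => q s - q a + k₁ * (s - a)) atBot (𝓝 (G s)) := by
    intro s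
    have h3 := intervalIntegral_tendsto_integral_Iic (l := atBot) (a := fun x : ℝ => x) s (hint s)
      tendsto_id
    refine h3.congr fun a => ?_
    rw [FF_integral]
  set c := q 0 - G 0 with hc
  have hcl : Tendsto (fun s => q s + k₁ * s) atBot (𝓝 c) := by
    have h3 := (hlim 0).const_sub (q 0)
    refine h3.congr fun a => ?_
    ring
  have hGs : ∀ s, G s = q s + k₁ * s - c := by
    intro s
    have h3 := (hcl.const_sub (q s + k₁ * s))
    refine tendsto_nhds_unique (hlim s) (h3.congr fun a => ?_)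
    ring
  have hG0 : ∀ s, 0 ≤ G s := fun s => integral_nonneg hnn
  have hlint : ∀ s, ∫⁻ τ, ENNReal.ofReal (max 0 (s - τ)) ∂μ = ENNReal.ofReal (G s) := by
    intro s
    rw [kink_lintegral]
    simp_rw [hIic]
    rw [setLIntegral_congr Iio_ae_eq_Iic, hG]
    exact (ofReal_integral_eq_lintegral_ofReal (hint s) (Eventually.of_forall hnn)).symm
  have hki : ∀ s, Integrable (fun τ => max 0 (s - τ)) μ := by
    intro s
    refine ⟨(by fun_prop : Continuous fun τ : ℝ => max 0 (s - τ)).aestronglyMeasurable, ?_⟩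
    have h0 : 0 ≤ᵐ[μ] fun τ : ℝ => max 0 (s - τ) := Eventually.of_forall fun τ => le_max_left _ _
    rw [hasFiniteIntegral_iff_ofReal h0, hlint]
    exact ENNReal.ofReal_lt_top
  have hkv : ∀ s, ∫ τ, max 0 (s - τ) ∂μ = G s := by
    intro s
    have h0 : 0 ≤ᵐ[μ] fun τ : ℝ => max 0 (s - τ) := Eventually.of_forall fun τ => le_max_left _ _
    rw [integral_eq_lintegral_of_nonneg_ae h0 (hki s).1, hlint, ENNReal.toReal_ofReal (hG0 s)]
  have huniv' : μ.real univ = k₁ + k₂ := by
    rw [measureReal_def, huniv, ENNReal.toReal_ofReal]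
    · ring
    · have h3 := neg_le_rd hq h1 0
      have h4 := rd_le_k hq h2 0
      linarith
  -- integrability of the identity
  have hneg : Integrable (fun τ : ℝ => max 0 (-τ)) μ := by
    have := hki 0
    simpa using this
  have hpos : Integrable (fun τ : ℝ => max 0 τ) μ := by
    refine (aecover_Iic (μ := μ) (l := atTop) (b := fun n : ℕ => (n : ℝ))
      tendsto_natCast_atTop_atTop).integrable_of_integral_bounded_of_nonneg_ae
      (C + c + G 0) (fun n => ?_) (Eventually.of_forall fun τ => le_max_left _ _) ?_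
    · -- integrable on `Iic n`
      have h3 : Integrable (fun τ : ℝ => (n : ℝ) - max 0 ((n : ℝ) - τ) + max 0 (-τ)) μ :=
        ((integrable_const _).sub (hki n)).add hneg
      refine (h3.integrableOn (s := Iic (n : ℝ))).congr_fun ?_ measurableSet_Iic
      intro τ hτ
      simp only [mem_Iic] at hτ
      simp only
      rw [max_eq_right (by linarith : 0 ≤ (n : ℝ) - τ)]
      rcases le_total 0 τ with h | h
      · rw [max_eq_left (by linarith : -τ ≤ 0), max_eq_right h]
        ring
      · rw [max_eq_right (by linarith : 0 ≤ -τ), max_eq_left h]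
        ring
    · refine Eventually.of_forall fun n => ?_
      have h3 : Integrable (fun τ : ℝ => (n : ℝ) - max 0 ((n : ℝ) - τ) + max 0 (-τ)) μ :=
        ((integrable_const _).sub (hki n)).add hneg
      have h4 : ∫ τ in Iic (n : ℝ), max 0 τ ∂μ =
          ∫ τ in Iic (n : ℝ), ((n : ℝ) - max 0 ((n : ℝ) - τ) + max 0 (-τ)) ∂μ := by
        refine setIntegral_congr_fun measurableSet_Iic ?_
        intro τ hτ
        simp only [mem_Iic] at hτ
        simp only
        rw [max_eq_right (by linarith : 0 ≤ (n : ℝ) - τ)]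
        rcases le_total 0 τ with h | h
        · rw [max_eq_left (by linarith : -τ ≤ 0), max_eq_right h]
          ring
        · rw [max_eq_right (by linarith : 0 ≤ -τ), max_eq_left h]
          ring
      rw [h4]
      have h5 : ∫ τ in Iic (n : ℝ), ((n : ℝ) - max 0 ((n : ℝ) - τ) + max 0 (-τ)) ∂μ ≤
          ∫ τ, ((n : ℝ) - max 0 ((n : ℝ) - τ) + max 0 (-τ)) ∂μ := by
        refine setIntegral_le_integral h3 (Eventually.of_forall fun τ => ?_)
        simp only [Pi.zero_apply]
        have hn : (0 : ℝ) ≤ n := Nat.cast_nonneg n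
        rcases le_total 0 ((n : ℝ) - τ) with h | h
        · rw [max_eq_right h]
          have := le_max_right 0 (-τ)
          linarith
        · rw [max_eq_left h]
          have := le_max_left 0 (-τ)
          linarith
      refine h5.trans ?_
      have h7 : Integrable (fun τ : ℝ => (n : ℝ) - max 0 ((n : ℝ) - τ)) μ :=
        (integrable_const _).sub (hki n)
      rw [integral_add h7 hneg, integral_sub (integrable_const _) (hki n), hkv, integral_const,
        huniv', smul_eq_mul]
      have h6 : ∫ τ, max 0 (-τ) ∂μ = G 0 := by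
        rw [← hkv]
        simp
      rw [h6, hGs n]
      have := (abs_le.1 (h2 n (Nat.cast_nonneg n))).1
      linarith
  have hid : Integrable (fun τ : ℝ => τ) μ := by
    refine (hpos.sub hneg).congr (Eventually.of_forall fun τ => ?_)
    simp only [Pi.sub_apply]
    rcases le_total 0 τ with h | h
    · rw [max_eq_left (by linarith : -τ ≤ 0), max_eq_right h]
      ring
    · rw [max_eq_right (by linarith : 0 ≤ -τ), max_eq_left h]
      ring
  refine ⟨μ, c, hfin, hid, hcl, fun s => ?_⟩
  rw [hkv, hGs]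
  ring


namespace Conv1

theorem real_Iic_atBot (μ : Measure ℝ) [IsFiniteMeasure μ] :
    Tendsto (fun n : ℕ => μ.real (Iic (-(n : ℝ)))) atTop (𝓝 0) := by
  have h := tendsto_integral_of_dominated_convergence (μ := μ) (fun _ => (1 : ℝ))
    (F := fun (n : ℕ) τ => (Iic (-(n : ℝ))).indicator (fun _ => (1 : ℝ)) τ) (f := fun _ => 0)
    (fun n => (measurable_const.indicator measurableSet_Iic).aestronglyMeasurable)
    (integrable_const 1)
    (fun n => Eventually.of_forall fun τ => by
      rw [Real.norm_eq_abs, abs_of_nonneg (indicator_nonneg (fun _ _ => zero_le_one) _)]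
      exact indicator_le_self' (fun _ _ => zero_le_one) _)
    (Eventually.of_forall fun τ => by
      refine tendsto_const_nhds.congr' ?_
      obtain ⟨N, hN⟩ := exists_nat_gt (-τ)
      filter_upwards [eventually_ge_atTop N] with n hn
      rw [indicator_of_notMem]
      have : (N : ℝ) ≤ n := by exact_mod_cast hn
      simp only [mem_Iic, not_le]
      linarith)
  simpa [integral_indicator_const, measurableSet_Iic] using h

theorem kink_deriv {μ : Measure ℝ} [IsFiniteMeasure μ]
    (hμ : Integrable (fun τ : ℝ => τ) μ) (s : ℝ) :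
    Tendsto (fun n : ℕ => ((n : ℝ) + 1) * ((∫ τ, max 0 (s + 1 / ((n : ℝ) + 1) - τ) ∂μ) -
      ∫ τ, max 0 (s - τ) ∂μ)) atTop (𝓝 (μ.real (Iic s))) := by
  have h := tendsto_integral_of_dominated_convergence (μ := μ) (fun _ => (1 : ℝ))
    (F := fun (n : ℕ) τ => ((n : ℝ) + 1) * (max 0 (s + 1 / ((n : ℝ) + 1) - τ) - max 0 (s - τ)))
    (f := (Iic s).indicator (fun _ => (1 : ℝ)))
    (fun n => by
      refine Continuous.aestronglyMeasurable ?_
      fun_prop)
    (integrable_const 1)
    (fun n => Eventually.of_forall fun τ => by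
      have hn : (0 : ℝ) < (n : ℝ) + 1 := by positivity
      have h1 : 0 ≤ max 0 (s + 1 / ((n : ℝ) + 1) - τ) - max 0 (s - τ) := by
        rw [sub_nonneg]
        refine max_le_max le_rfl ?_
        have : 0 < 1 / ((n : ℝ) + 1) := by positivity
        linarith
      have h2 : max 0 (s + 1 / ((n : ℝ) + 1) - τ) - max 0 (s - τ) ≤ 1 / ((n : ℝ) + 1) := by
        have : 0 < 1 / ((n : ℝ) + 1) := by positivity
        rw [sub_le_iff_le_add]
        refine max_le ?_ ?_
        · have := le_max_left 0 (s - τ)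
          linarith
        · have := le_max_right 0 (s - τ)
          linarith
      rw [Real.norm_eq_abs, abs_of_nonneg (mul_nonneg hn.le h1)]
      calc ((n : ℝ) + 1) * (max 0 (s + 1 / ((n : ℝ) + 1) - τ) - max 0 (s - τ))
          ≤ ((n : ℝ) + 1) * (1 / ((n : ℝ) + 1)) := mul_le_mul_of_nonneg_left h2 hn.le
        _ = 1 := by field_simp)
    (Eventually.of_forall fun τ => by
      refine tendsto_const_nhds.congr' ?_
      rcases le_or_gt τ s with hτ | hτ
      · refine Eventually.of_forall fun n => ?_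
        have hn : (0 : ℝ) < (n : ℝ) + 1 := by positivity
        have hn' : 0 < 1 / ((n : ℝ) + 1) := by positivity
        have e1 : max 0 (s + 1 / ((n : ℝ) + 1) - τ) = s + 1 / ((n : ℝ) + 1) - τ :=
          max_eq_right (by linarith)
        have e2 : max 0 (s - τ) = s - τ := max_eq_right (by linarith)
        show (Iic s).indicator (fun _ => (1 : ℝ)) τ =
          ((n : ℝ) + 1) * (max 0 (s + 1 / ((n : ℝ) + 1) - τ) - max 0 (s - τ))
        rw [indicator_of_mem (by exact hτ), e1, e2]
        field_simp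
        ring
      · obtain ⟨N, hN⟩ := exists_nat_one_div_lt (sub_pos.2 hτ)
        filter_upwards [eventually_ge_atTop N] with n hn
        have h3 : 1 / ((n : ℝ) + 1) ≤ 1 / ((N : ℝ) + 1) := by
          apply one_div_le_one_div_of_le (by positivity)
          have : (N : ℝ) ≤ n := by exact_mod_cast hn
          linarith
        rw [indicator_of_notMem (by simpa using hτ), max_eq_left (by linarith),
          max_eq_left (by linarith)]
        simp)
  have h2 : ∀ n : ℕ, ∫ τ, ((n : ℝ) + 1) * (max 0 (s + 1 / ((n : ℝ) + 1) - τ) - max 0 (s - τ)) ∂μ =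
      ((n : ℝ) + 1) * ((∫ τ, max 0 (s + 1 / ((n : ℝ) + 1) - τ) ∂μ) - ∫ τ, max 0 (s - τ) ∂μ) := by
    intro n
    rw [integral_const_mul, integral_sub (kink_integrable hμ _) (kink_integrable hμ _)]
  simp only [h2] at h
  rw [integral_indicator_const _ measurableSet_Iic] at h
  simpa using h

end Conv1

theorem conv_repr_unique (μ ν : Measure ℝ) [IsFiniteMeasure μ] [IsFiniteMeasure ν]
    (hμ : Integrable (fun τ : ℝ => τ) μ) (hν : Integrable (fun τ : ℝ => τ) ν) (a b : ℝ)
    (h : ∀ s : ℝ, ∫ τ, max 0 (s - τ) ∂μ = a + b * s + ∫ τ, max 0 (s - τ) ∂ν) : μ = ν := by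
  have h1 : ∀ s, μ.real (Iic s) = b + ν.real (Iic s) := by
    intro s
    have h2 := Conv1.kink_deriv hμ s
    have h3 := (Conv1.kink_deriv hν s).const_add b
    refine tendsto_nhds_unique (h2.congr fun n => ?_) h3
    have hn : (0 : ℝ) < (n : ℝ) + 1 := by positivity
    rw [h, h]
    field_simp
    ring
  have hb : b = 0 := by
    have h2 := Conv1.real_Iic_atBot μ
    have h3 := (Conv1.real_Iic_atBot ν).const_add b
    have h4 := tendsto_nhds_unique (h2.congr fun n => h1 _) h3
    linarith
  refine Measure.ext_of_Iic μ ν fun s => ?_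
  have h2 := h1 s
  rw [hb, zero_add] at h2
  exact (measureReal_eq_measureReal_iff (by finiteness) (by finiteness)).1 h2

end MV
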