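import Mathlib

/-! Basic definitions for MP_f30071_gt (Minkowski valuations). No theorems here. -/

open MeasureTheory ProbabilityTheory Filter Topology Set
open scoped InnerProductSpace Pointwise NNReal ENNReal

namespace MV

section Inner
variable {V : Type*} [NormedAddCommGroup V] [InnerProductSpace ℝ V]

/-- projection along `e` onto the orthogonal complement of `e` (identity if `e = 0`) -/
noncomputable def prj (e x : V) : V := x - (⟪e, x⟫_ℝ / ‖e‖ ^ 2) • e

/-- sublinear functions = support functions -/
structure Sublin (f : V → ℝ) : Prop where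
  hom : ∀ (c : ℝ) (v : V), 0 ≤ c → f (c • v) = c * f v
  sub : ∀ v w : V, f (v + w) ≤ f v + f w

/-- support function of a body -/
noncomputable def hs (K : ConvexBody V) (v : V) : ℝ := sSup ((fun x => ⟪v, x⟫_ℝ) '' (K : Set V))

/-- one point body -/
def pt (x : V) : ConvexBody V :=
  ⟨{x}, convex_singleton x, isCompact_singleton, Set.singleton_nonempty x⟩

/-- convex hull of a nonempty finite set -/
noncomputable def hull (s : Finset V) (hs : s.Nonempty) : ConvexBody V :=
  ⟨convexHull ℝ (s : Set V), convex_convexHull ℝ _, s.finite_toSet.isCompact_convexHull (𝕜 := ℝ),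
    (by exact_mod_cast hs : (s : Set V).Nonempty).convexHull⟩

open Classical in
/-- the segment `[0,x]` -/
noncomputable def seg (x : V) : ConvexBody V := hull {0, x} (by simp)

open Classical in
/-- the triangle `conv(0, a, a+b)` -/
noncomputable def tri (a b : V) : ConvexBody V := hull {0, a, a + b} (by simp)

/-- image of a body under a continuous linear map -/
def mapB {W : Type*} [NormedAddCommGroup W] [InnerProductSpace ℝ W] (f : V →L[ℝ] W)
    (K : ConvexBody V) : ConvexBody W :=
  ⟨f '' K, K.convex.linear_image (f : V →ₗ[ℝ] W), K.isCompact.image f.continuous,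
    K.nonempty.image f⟩

/-- image of a body under a linear isometry equivalence -/
noncomputable def isoB (g : V ≃ₗᵢ[ℝ] V) (K : ConvexBody V) : ConvexBody V :=
  mapB ((g : V ≃L[ℝ] V) : V →L[ℝ] V) K

/-- rotation: isometry with determinant one -/
def Rot (g : V ≃ₗᵢ[ℝ] V) : Prop := LinearMap.det (g.toLinearEquiv : V →ₗ[ℝ] V) = 1

/-- continuous translation invariant real valuations -/
structure IsVal (φ : ConvexBody V → ℝ) : Prop where
  cont : Continuous φ
  val : ∀ K L M N : ConvexBody V, (M : Set V) = (K : Set V) ∪ L → (N : Set V) = (K : Set V) ∩ L →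
    φ M + φ N = φ K + φ L
  trans : ∀ (K : ConvexBody V) (x : V), φ (K + pt x) = φ K

/-- homogeneous of degree `j` -/
def IsHom (j : ℕ) (φ : ConvexBody V → ℝ) : Prop :=
  ∀ (c : ℝ) (K : ConvexBody V), 0 ≤ c → φ (c • K) = c ^ j * φ K

/-- continuous, Minkowski additive, zero on points -/
structure IsAdd (A : ConvexBody V → ℝ) : Prop where
  cont : Continuous A
  add : ∀ K L : ConvexBody V, A (K + L) = A K + A L
  pt : ∀ x : V, A (pt x) = 0

/-- difference operator -/
noncomputable def D (x : V) (φ : ConvexBody V → ℝ) : ConvexBody V → ℝ :=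
  fun K => φ (K + seg x) - φ K

/-- iterated difference operator -/
noncomputable def Ds (xs : List V) (φ : ConvexBody V → ℝ) : ConvexBody V → ℝ :=
  xs.foldr D φ

/-- coefficient `j` of the `k`-th Lagrange basis polynomial on the nodes `0, ..., n` -/
noncomputable def lc (n j k : ℕ) : ℝ :=
  (Lagrange.basis (Finset.range (n + 1)) (fun i : ℕ => (i : ℝ)) k).coeff j

/-- coefficient of `t^j` in `φ (K + t L)` -/
noncomputable def cof (j : ℕ) (L : ConvexBody V) (φ : ConvexBody V → ℝ) : ConvexBody V → ℝ :=
  fun K => ∑ k ∈ Finset.range (Module.finrank ℝ V + 1),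
    lc (Module.finrank ℝ V) j k * φ (K + (k : ℝ) • L)

/-- directional derivative: coefficient of `t` in `φ (K + t L)` -/
noncomputable def der (L : ConvexBody V) (φ : ConvexBody V → ℝ) : ConvexBody V → ℝ := cof 1 L φ

/-- homogeneous component of degree `j` -/
noncomputable def comp (j : ℕ) (φ : ConvexBody V → ℝ) : ConvexBody V → ℝ :=
  fun K => ∑ k ∈ Finset.range (Module.finrank ℝ V + 1),
    lc (Module.finrank ℝ V) j k * φ ((k : ℝ) • K)

/-- invariance under the rotations fixing `u` -/
def Zonal (u : V) (φ : ConvexBody V → ℝ) : Prop :=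
  ∀ g : V ≃ₗᵢ[ℝ] V, Rot g → g u = u → ∀ K, φ (isoB g K) = φ K

/-- `g` fixes `e` and is a rotation (or the dimension is two) -/
def Gax (e : V) (g : V ≃ₗᵢ[ℝ] V) : Prop :=
  g e = e ∧ (Rot g ∨ Module.finrank ℝ V = 2)

/-- body valued, continuous, translation invariant, rotation equivariant valuations -/
structure IsMVal (Φ : ConvexBody V → ConvexBody V) : Prop where
  cont : Continuous Φ
  val : ∀ K L M N : ConvexBody V, (M : Set V) = (K : Set V) ∪ L → (N : Set V) = (K : Set V) ∩ L →
    Φ M + Φ N = Φ K + Φ L
  trans : ∀ (K : ConvexBody V) (x : V), Φ (K + pt x) = Φ K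
  equi : ∀ g : V ≃ₗᵢ[ℝ] V, Rot g → ∀ K, Φ (isoB g K) = isoB g (Φ K)

end Inner

section Gaussian
variable {V : Type*} [NormedAddCommGroup V] [InnerProductSpace ℝ V] [FiniteDimensional ℝ V]
  [MeasurableSpace V] [BorelSpace V]

/-- Gaussian mean width -/
noncomputable def wd (g : V → ℝ) : ℝ := ∫ z, g z ∂(stdGaussian V)

/-- second difference quotient across the hyperplane orthogonal to `u` -/
noncomputable def Nt (t : ℝ) (u : V) (g : V → ℝ) : ℝ :=
  (1 / t) * ∫ z, (g (prj u z + t • u) + g (prj u z - t • u) - 2 * g (prj u z)) ∂(stdGaussian V)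

/-- first difference quotient at `e` -/
noncomputable def Mt (t : ℝ) (e : V) (g : V → ℝ) : ℝ :=
  (1 / t) * ∫ z, (g (e + t • prj e z) - g e) ∂(stdGaussian V)

/-- `N0 u g` is the limit of `Nt t u g` as `t` decreases to `0` -/
noncomputable def N0 (u : V) (g : V → ℝ) : ℝ := limUnder (𝓝[>] (0 : ℝ)) (fun t => Nt t u g)

end Gaussian

end MV
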