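import Pool.Agent.Lib.MP_f30071_gt.Defs

/-! Facts on the standard Gaussian measure. -/

open MeasureTheory ProbabilityTheory Filter Topology Set
open scoped InnerProductSpace Pointwise NNReal ENNReal

namespace MV

variable {V : Type*} [NormedAddCommGroup V] [InnerProductSpace ℝ V] [FiniteDimensional ℝ V]
  [MeasurableSpace V] [BorelSpace V]

namespace Gauss

omit [FiniteDimensional ℝ V] [MeasurableSpace V] [BorelSpace V] in
theorem prj_cont (e : V) : Continuous (prj e) := by
  unfold prj
  fun_prop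

omit [FiniteDimensional ℝ V] [MeasurableSpace V] [BorelSpace V] in
theorem inner_prj_left (u z t : V) : ⟪prj u z, t⟫_ℝ = ⟪z, prj u t⟫_ℝ := by
  simp only [prj, inner_sub_left, inner_sub_right, real_inner_smul_left, real_inner_smul_right,
    real_inner_comm z u]
  ring

omit [FiniteDimensional ℝ V] [MeasurableSpace V] [BorelSpace V] in
theorem norm_prj_sq_unit (u : V) (hu : ‖u‖ = 1) (t : V) : ⟪u, t⟫_ℝ ^ 2 + ‖prj u t‖ ^ 2 = ‖t‖ ^ 2 := by
  have huu : ⟪u, u⟫_ℝ = 1 := by rw [real_inner_self_eq_norm_sq, hu]; norm_num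
  have h : prj u t = t - ⟪u, t⟫_ℝ • u := by simp [prj, hu]
  rw [h, norm_sub_sq_real, real_inner_smul_right, norm_smul, hu, real_inner_comm u t, mul_one,
    Real.norm_eq_abs, sq_abs]
  ring

/-- products of absolutely continuous measures -/
theorem pi_ac : ∀ (n : ℕ) (μ ν : Fin n → Measure ℝ) [∀ i, SigmaFinite (μ i)]
    [∀ i, SigmaFinite (ν i)] (_ : ∀ i, μ i ≪ ν i), Measure.pi μ ≪ Measure.pi ν := by
  intro n
  induction n with
  | zero =>
    intro μ ν _ _ _
    rw [Measure.pi_of_empty μ (fun i => i.elim0), Measure.pi_of_empty ν (fun i => i.elim0)]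
  | succ n ih =>
    intro μ ν _ _ h
    have e1 := (measurePreserving_piFinSuccAbove μ 0)
    have e2 := (measurePreserving_piFinSuccAbove ν 0)
    have h1 : (μ 0).prod (Measure.pi fun j => μ ((0 : Fin (n + 1)).succAbove j))
        ≪ (ν 0).prod (Measure.pi fun j => ν ((0 : Fin (n + 1)).succAbove j)) :=
      (h 0).prod (ih _ _ fun j => h _)
    have h2 := h1.map (MeasurableEquiv.piFinSuccAbove (fun _ : Fin (n + 1) => ℝ) 0).symm.measurable
    have e1' := e1.symm.map_eq
    have e2' := e2.symm.map_eq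
    rw [e1', e2'] at h2
    exact h2

end Gauss

open Gauss

theorem gauss_split (u : V) (hu : ‖u‖ = 1) :
    ((gaussianReal 0 1).prod (stdGaussian V)).map (fun p : ℝ × V => p.1 • u + prj u p.2)
      = stdGaussian V := by
  have hc := prj_cont u
  have hm : Measurable (fun p : ℝ × V => p.1 • u + prj u p.2) :=
    Continuous.measurable (by fun_prop)
  apply Measure.ext_of_charFun
  ext t
  rw [charFun_stdGaussian, charFun_apply, integral_map hm.aemeasurable (by
    exact Continuous.aestronglyMeasurable (by fun_prop))]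
  have h1 : ∀ p : ℝ × V, Complex.exp ((⟪p.1 • u + prj u p.2, t⟫_ℝ : ℝ) * Complex.I)
      = Complex.exp ((⟪u, t⟫_ℝ : ℝ) * (p.1 : ℂ) * Complex.I)
        * Complex.exp ((⟪p.2, prj u t⟫_ℝ : ℝ) * Complex.I) := by
    intro p
    rw [← Complex.exp_add, inner_add_left, real_inner_smul_left, inner_prj_left]
    push_cast
    ring_nf
  simp only [h1]
  rw [integral_prod_mul (fun s : ℝ => Complex.exp ((⟪u, t⟫_ℝ : ℝ) * (s : ℂ) * Complex.I))
    (fun z : V => Complex.exp ((⟪z, prj u t⟫_ℝ : ℝ) * Complex.I)), ← charFun_apply,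
    charFun_stdGaussian, ← charFun_apply_real, charFun_gaussianReal, ← Complex.exp_add]
  congr 1
  have h2 : (‖t‖ : ℂ) ^ 2 = (⟪u, t⟫_ℝ : ℂ) ^ 2 + (‖prj u t‖ : ℂ) ^ 2 := by
    exact_mod_cast (norm_prj_sq_unit u hu t).symm
  rw [h2]
  push_cast
  ring

theorem gauss_rot2 (θ : ℝ) :
    ((stdGaussian V).prod (stdGaussian V)).map
      (fun p : V × V => (Real.cos θ • p.1 + Real.sin θ • p.2, -(Real.sin θ) • p.1 + Real.cos θ • p.2))
      = (stdGaussian V).prod (stdGaussian V) := by
  have h := IsGaussian.map_rotation_eq_self (μ := stdGaussian V) (by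
    simp) θ
  exact h

theorem gauss_split_sub (U : Submodule ℝ V) :
    ((stdGaussian U).prod (stdGaussian (Uᗮ : Submodule ℝ V))).map
      (fun p => (p.1 : V) + (p.2 : V)) = stdGaussian V := by
  have hm : Measurable (fun p : U × (Uᗮ : Submodule ℝ V) => (p.1 : V) + (p.2 : V)) :=
    Continuous.measurable (by fun_prop)
  apply Measure.ext_of_charFun
  ext t
  rw [charFun_stdGaussian, charFun_apply, integral_map hm.aemeasurable (by
    exact Continuous.aestronglyMeasurable (by fun_prop))]
  have h1 : ∀ p : U × (Uᗮ : Submodule ℝ V),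
      Complex.exp ((⟪(p.1 : V) + (p.2 : V), t⟫_ℝ : ℝ) * Complex.I)
      = Complex.exp ((⟪p.1, U.orthogonalProjectionOnto t⟫_ℝ : ℝ) * Complex.I)
        * Complex.exp ((⟪p.2, Uᗮ.orthogonalProjectionOnto t⟫_ℝ : ℝ) * Complex.I) := by
    intro p
    rw [← Complex.exp_add, inner_add_left]
    congr 1
    rw [Submodule.inner_orthogonalProjectionOnto_eq_of_mem_left,
      Submodule.inner_orthogonalProjectionOnto_eq_of_mem_left]
    push_cast
    ring
  simp only [h1]
  rw [integral_prod_mul (fun s : U => Complex.exp ((⟪s, U.orthogonalProjectionOnto t⟫_ℝ : ℝ) * Complex.I))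
    (fun z : (Uᗮ : Submodule ℝ V) => Complex.exp ((⟪z, Uᗮ.orthogonalProjectionOnto t⟫_ℝ : ℝ) * Complex.I)),
    ← charFun_apply, ← charFun_apply, charFun_stdGaussian, charFun_stdGaussian, ← Complex.exp_add]
  congr 1
  have h2 : (‖t‖ : ℂ) ^ 2 = (‖U.orthogonalProjectionOnto t‖ : ℂ) ^ 2
      + (‖Uᗮ.orthogonalProjectionOnto t‖ : ℂ) ^ 2 := by
    exact_mod_cast (Submodule.norm_sq_eq_add_norm_sq_projection t U)
  rw [h2]
  ring

/-- two copies: `(g, g')` with `g = a u + p`, `g' = b u + p'`; general two dimensional version -/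
theorem gauss_inner (c : V) :
    (stdGaussian V).map (fun x => ⟪c, x⟫_ℝ) = gaussianReal 0 (‖c‖₊ ^ 2) := by
  have h := IsGaussian.map_eq_gaussianReal (μ := stdGaussian V) (innerSL ℝ c)
  rw [variance_dual_stdGaussian, integral_strongDual_stdGaussian, innerSL_apply_norm] at h
  have h2 : (‖c‖ ^ 2).toNNReal = ‖c‖₊ ^ 2 := by
    rw [Real.toNNReal_pow (norm_nonneg c), norm_toNNReal]
  rw [h2] at h
  exact h

theorem gauss_isometry (g : V ≃ₗᵢ[ℝ] V) : (stdGaussian V).map g = stdGaussian V :=
  stdGaussian_map g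

theorem gauss_null_iff (Z : Set V) : stdGaussian V Z = 0 ↔ (volume : Measure V) Z = 0 := by
  set n := Module.finrank ℝ V with hn
  set b := stdOrthonormalBasis ℝ V with hb
  set e : (Fin n → ℝ) ≃ᵐ V := (MeasurableEquiv.toLp 2 (Fin n → ℝ)).trans
    b.measurableEquiv.symm with he
  have hve : (volume : Measure (Fin n → ℝ)).map e = (volume : Measure V) := by
    have h1 := PiLp.volume_preserving_toLp (Fin n)
    have h2 := b.measurePreserving_repr_symm
    exact (h2.comp h1).map_eq
  have hge : (Measure.pi (fun _ : Fin n => gaussianReal 0 1)).map e = stdGaussian V := by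
    rw [stdGaussian]
    congr 1
    ext x
    exact (b.equiv_apply_euclideanSpace (WithLp.toLp 2 x))
  rw [← hve, ← hge, e.map_apply, e.map_apply]
  constructor
  · intro h
    have := pi_ac n (fun _ => (volume : Measure ℝ)) (fun _ => gaussianReal 0 1)
      (fun _ => gaussianReal_absolutelyContinuous' 0 one_ne_zero)
    rw [← volume_pi] at this
    exact this h
  · intro h
    have := pi_ac n (fun _ => gaussianReal 0 1) (fun _ => (volume : Measure ℝ))
      (fun _ => gaussianReal_absolutelyContinuous 0 one_ne_zero)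
    rw [← volume_pi] at this
    exact this h

theorem gauss_norm_int (p : ℝ) (hp : 0 ≤ p) : Integrable (fun x : V => ‖x‖ ^ p) (stdGaussian V) := by
  have h := IsGaussian.memLp_id (stdGaussian V) (ENNReal.ofReal p) ENNReal.ofReal_ne_top
  have h2 := h.integrable_norm_rpow'
  rw [ENNReal.toReal_ofReal hp] at h2
  exact h2

theorem gauss1_shift (l : ℝ) :
    (gaussianReal 0 1).withDensity (fun s => ENNReal.ofReal (Real.exp (l * s)))
      = ENNReal.ofReal (Real.exp (l ^ 2 / 2)) • (gaussianReal 0 1).map (fun s => s + l) := by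
  rw [gaussianReal_map_add_const, gaussianReal_of_var_ne_zero _ one_ne_zero,
    gaussianReal_of_var_ne_zero _ one_ne_zero, ← withDensity_mul _ (measurable_gaussianPDF _ _)
      (by fun_prop), ← withDensity_smul _ (measurable_gaussianPDF _ _)]
  congr 1
  ext s
  simp only [Pi.mul_apply, Pi.smul_apply, smul_eq_mul, gaussianPDF_def]
  rw [← ENNReal.ofReal_mul (gaussianPDFReal_nonneg _ _ _), ← ENNReal.ofReal_mul (Real.exp_nonneg _)]
  congr 1
  simp only [gaussianPDFReal]
  rw [mul_assoc, mul_left_comm (Real.exp (l ^ 2 / 2)), ← Real.exp_add, ← Real.exp_add]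
  congr 2
  simp
  ring

theorem gauss_shift_measure (u : V) (hu : ‖u‖ = 1) (l : ℝ) :
    (stdGaussian V).withDensity (fun x => ENNReal.ofReal (Real.exp (l * ⟪u, x⟫_ℝ)))
      = ENNReal.ofReal (Real.exp (l ^ 2 / 2)) • (stdGaussian V).map (fun x => x + l • u) := by
  have hc := prj_cont u
  have hm : Measurable (fun p : ℝ × V => p.1 • u + prj u p.2) :=
    Continuous.measurable (by fun_prop)
  have huu : ⟪u, u⟫_ℝ = 1 := by rw [real_inner_self_eq_norm_sq, hu]; norm_num
  have hup : ∀ z : V, ⟪u, prj u z⟫_ℝ = 0 := by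
    intro z
    simp [prj, hu, inner_sub_right, real_inner_smul_right]
  ext A hA
  have hind : Measurable (A.indicator (fun _ => (1 : ℝ≥0∞))) := measurable_const.indicator hA
  have L : (stdGaussian V).withDensity (fun x => ENNReal.ofReal (Real.exp (l * ⟪u, x⟫_ℝ))) A
      = ∫⁻ x, ENNReal.ofReal (Real.exp (l * ⟪u, x⟫_ℝ)) * A.indicator (fun _ => 1) x
        ∂(stdGaussian V) := by
    rw [withDensity_apply _ hA, ← lintegral_indicator hA]
    refine lintegral_congr fun x => ?_
    by_cases hx : x ∈ A <;> simp [hx]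
  have R : (ENNReal.ofReal (Real.exp (l ^ 2 / 2)) • (stdGaussian V).map (fun x => x + l • u)) A
      = ENNReal.ofReal (Real.exp (l ^ 2 / 2)) * ∫⁻ x, A.indicator (fun _ => 1) (x + l • u)
        ∂(stdGaussian V) := by
    rw [Measure.smul_apply, smul_eq_mul, ← lintegral_map hind (by fun_prop),
      lintegral_indicator hA, setLIntegral_one]
  rw [L, R]
  rw [← gauss_split u hu, lintegral_map (by fun_prop) hm, lintegral_map (by fun_prop) hm,
    lintegral_prod_symm _ (Measurable.aemeasurable (by fun_prop)),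
    lintegral_prod_symm _ (Measurable.aemeasurable (by fun_prop)),
    ← lintegral_const_mul _ (by
      apply Measurable.lintegral_prod_left' (f := fun p : ℝ × V =>
        A.indicator (fun _ => (1 : ℝ≥0∞)) (p.1 • u + prj u p.2 + l • u))
      fun_prop)]
  refine lintegral_congr fun z => ?_
  have h1 : ∀ s : ℝ, ⟪u, s • u + prj u z⟫_ℝ = s := by
    intro s
    rw [inner_add_right, real_inner_smul_right, huu, hup]
    ring
  simp only [h1]
  have hmf : Measurable (fun s : ℝ => A.indicator (fun _ => (1 : ℝ≥0∞)) (s • u + prj u z)) := by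
    fun_prop
  have h2 := lintegral_withDensity_eq_lintegral_mul (gaussianReal 0 1)
    (f := fun s : ℝ => ENNReal.ofReal (Real.exp (l * s))) (by fun_prop) hmf
  simp only [Pi.mul_apply] at h2
  rw [← h2, gauss1_shift, lintegral_smul_measure, lintegral_map hmf (by fun_prop), smul_eq_mul]
  congr 1
  refine lintegral_congr fun s => ?_
  congr 1
  rw [add_smul]
  abel

/-- smoothing by the weight `e^{l tr G}` of a Gaussian matrix, one dimensional shift formula -/
theorem gauss_shift (u : V) (hu : ‖u‖ = 1) (l : ℝ) (f : V → ℝ) (hf : Continuous f) (C : ℝ)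
    (_hC : ∀ x, |f x| ≤ C * (1 + ‖x‖)) :
    ∫ x, f x * Real.exp (l * ⟪u, x⟫_ℝ) ∂(stdGaussian V)
      = Real.exp (l ^ 2 / 2) * ∫ x, f (x + l • u) ∂(stdGaussian V) := by
  have h := congrArg (fun μ : Measure V => ∫ x, f x ∂μ) (gauss_shift_measure u hu l)
  beta_reduce at h
  rw [integral_withDensity_eq_integral_toReal_smul (by fun_prop)
    (Eventually.of_forall fun x => ENNReal.ofReal_lt_top), integral_smul_measure,
    integral_map (by fun_prop) hf.aestronglyMeasurable] at h
  simp only [ENNReal.toReal_ofReal (Real.exp_nonneg _), smul_eq_mul] at h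
  rw [← h]
  refine integral_congr_ae (Eventually.of_forall fun x => ?_)
  simp only
  ring

end MV
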