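import Pool.Agent.Lib.MP_f30071_gt.Sub
import Pool.Agent.Lib.MP_f30071_gt.Gauss
import Pool.Agent.Lib.MP_f30071_gt.Conv1

/-! module MW (helper42): Gaussian mean width and creases, for MP_f30071_gt -/

open MeasureTheory ProbabilityTheory Filter Topology Set
open scoped InnerProductSpace Pointwise NNReal ENNReal

namespace MV

set_option linter.unusedSectionVars false

variable {V : Type*} [NormedAddCommGroup V] [InnerProductSpace ℝ V] [FiniteDimensional ℝ V]
  [MeasurableSpace V] [BorelSpace V]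

/-- mean width of the unit segment -/
noncomputable def c0 : ℝ := (Real.sqrt (2 * Real.pi))⁻¹

namespace MW

theorem c0_pos : 0 < c0 := by unfold c0; positivity

theorem int_pos_part : ∫ x : ℝ, max 0 x ∂(gaussianReal 0 1) = c0 := by
  rw [integral_gaussianReal_eq_integral_smul (by norm_num : (1 : ℝ≥0) ≠ 0)]
  have h1 : ∀ x : ℝ, gaussianPDFReal 0 1 x • max 0 x
      = (Ioi (0 : ℝ)).indicator (fun x => c0 * (x ^ (1 : ℝ) * Real.exp (-(1/2) * x ^ (2 : ℝ)))) x := by
    intro x
    by_cases hx : 0 < x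
    · rw [indicator_of_mem (by exact hx)]
      rw [max_eq_right hx.le, gaussianPDFReal]
      simp only [smul_eq_mul, Real.rpow_one, NNReal.coe_one, mul_one, sub_zero, c0]
      rw [show (2 : ℝ) = ((2 : ℕ) : ℝ) by norm_num, Real.rpow_natCast]
      push_cast
      rw [show -(1/2 : ℝ) * x ^ 2 = -x ^ 2 / 2 by ring]
      ring
    · rw [indicator_of_notMem (by exact hx)]
      rw [max_eq_left (not_lt.mp hx)]
      simp
  simp_rw [h1]
  rw [integral_indicator measurableSet_Ioi, integral_const_mul,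
    integral_rpow_mul_exp_neg_mul_rpow (by norm_num) (by norm_num) (by norm_num)]
  norm_num

theorem integrable_id_gauss1 : Integrable (fun x : ℝ => x) (gaussianReal 0 1) := by
  have h := memLp_id_gaussianReal (μ := 0) (v := 1) 1
  have h2 := (memLp_one_iff_integrable).1 (by exact_mod_cast h)
  exact h2

theorem map_neg_gauss1 : (gaussianReal 0 1).map (fun x : ℝ => -x) = gaussianReal 0 1 := by
  have := gaussianReal_map_neg (μ := 0) (v := 1)
  simpa using this

theorem int_abs : ∫ x : ℝ, |x| ∂(gaussianReal 0 1) = 2 * c0 := by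
  have h1 : ∀ x : ℝ, |x| = max 0 x + max 0 (-x) := by
    intro x
    rcases le_total 0 x with h | h
    · rw [abs_of_nonneg h, max_eq_right h, max_eq_left (by linarith)]; ring
    · rw [abs_of_nonpos h, max_eq_left h, max_eq_right (by linarith)]; ring
  simp_rw [h1]
  have hi : Integrable (fun x : ℝ => max 0 x) (gaussianReal 0 1) := by
    have := (integrable_id_gauss1).pos_part
    simpa [max_comm] using this
  have hi2 : Integrable (fun x : ℝ => max 0 (-x)) (gaussianReal 0 1) := by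
    have := (integrable_id_gauss1.neg).pos_part
    simpa [max_comm] using this
  rw [integral_add hi hi2, int_pos_part]
  have h2 : ∫ x : ℝ, max 0 (-x) ∂(gaussianReal 0 1) = c0 := by
    rw [← int_pos_part]
    conv_rhs => rw [← map_neg_gauss1]
    rw [integral_map (by fun_prop) (by fun_prop)]
  rw [h2]; ring

end MW

theorem wd_unit (u : V) (hu : ‖u‖ = 1) : wd (fun v : V => max 0 ⟪v, u⟫_ℝ) = c0 := by
  unfold wd
  have h := gauss_inner u
  have h2 : (‖u‖₊ : ℝ≥0) ^ 2 = 1 := by
    have : ‖u‖₊ = 1 := by ext; simpa using hu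
    rw [this]; norm_num
  rw [h2] at h
  rw [← MW.int_pos_part, ← h, integral_map (by fun_prop) (by fun_prop)]
  simp_rw [real_inner_comm]

namespace MW

instance openPos : Measure.IsOpenPosMeasure (stdGaussian V) :=
  ⟨fun U hU hne h => by
    rw [gauss_null_iff] at h
    exact (hU.measure_pos volume hne).ne' h⟩

theorem eq_zero_of_int {f : V → ℝ} (hf : Continuous f) (h0 : ∀ x, 0 ≤ f x)
    (hi : Integrable f (stdGaussian V)) (h : ∫ x, f x ∂(stdGaussian V) = 0) : ∀ x, f x = 0 := by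
  have h1 := (integral_eq_zero_iff_of_nonneg (fun x => h0 x) hi).1 h
  have h2 := (Continuous.ae_eq_iff_eq (stdGaussian V) hf continuous_const).1 h1
  intro x
  exact congrFun h2 x

theorem mp_neg : MeasurePreserving (fun x : V => -x) (stdGaussian V) (stdGaussian V) :=
  ⟨measurable_neg, by
    have := gauss_isometry (LinearIsometryEquiv.neg ℝ : V ≃ₗᵢ[ℝ] V)
    simpa using this⟩

theorem int_neg (f : V → ℝ) : ∫ z, f (-z) ∂(stdGaussian V) = ∫ z, f z ∂(stdGaussian V) :=
  mp_neg.integral_comp (MeasurableEquiv.neg V).measurableEmbedding f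

theorem sl_cont {g : V → ℝ} (hg : Sublin g) : Continuous g := by
  obtain ⟨C, hC, h1, h2⟩ := hg.lip
  exact (LipschitzWith.of_dist_le_mul (K := ⟨C, hC⟩) (fun x y => by
    rw [dist_eq_norm, dist_eq_norm]; exact h1 x y)).continuous

end MW

theorem wd_nonneg {g : V → ℝ} (hg : Sublin g) : 0 ≤ wd g := by
  have hi := hg.integrable
  have hi2 : Integrable (fun z => g (-z)) (stdGaussian V) :=
    MW.mp_neg.integrable_comp_of_integrable hi
  have h1 : wd g + wd g = ∫ z, (g z + g (-z)) ∂(stdGaussian V) := by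
    rw [integral_add hi hi2, MW.int_neg]; rfl
  have h2 : 0 ≤ ∫ z, (g z + g (-z)) ∂(stdGaussian V) := by
    apply integral_nonneg
    intro z
    have := hg.sub z (-z)
    rw [add_neg_cancel, hg.zero] at this
    exact this
  linarith

theorem MW.linear_of_odd {g : V → ℝ} (hg : Sublin g) (h : ∀ v, g (-v) = - g v) :
    ∃ p : V, ∀ v, g v = ⟪p, v⟫_ℝ := by
  let L : V →ₗ[ℝ] ℝ :=
    { toFun := g
      map_add' := by
        intro v w
        apply le_antisymm (hg.sub v w)
        have := hg.sub (-v) (-w)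
        rw [h v, h w, show -v + -w = -(v + w) by abel, h (v + w)] at this
        linarith
      map_smul' := by
        intro c v
        simp only [RingHom.id_apply, smul_eq_mul]
        rcases le_total 0 c with hc | hc
        · exact hg.hom c v hc
        · have := hg.hom (-c) v (by linarith)
          rw [neg_smul, h] at this
          linarith }
  refine ⟨(InnerProductSpace.toDual ℝ V).symm L.toContinuousLinearMap, fun v => ?_⟩
  rw [InnerProductSpace.toDual_symm_apply]
  rfl

theorem wd_eq_zero {g : V → ℝ} (hg : Sublin g) (h : wd g = 0) : ∃ p : V, ∀ v, g v = ⟪p, v⟫_ℝ := by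
  have hi := hg.integrable
  have hi2 : Integrable (fun z => g (-z)) (stdGaussian V) :=
    MW.mp_neg.integrable_comp_of_integrable hi
  have h1 : ∫ z, (g z + g (-z)) ∂(stdGaussian V) = 0 := by
    rw [integral_add hi hi2, MW.int_neg]
    unfold wd at h
    rw [h]; ring
  have hc := MW.sl_cont hg
  have h0 : ∀ z, 0 ≤ g z + g (-z) := by
    intro z
    have := hg.sub z (-z)
    rw [add_neg_cancel, hg.zero] at this
    exact this
  have h2 := MW.eq_zero_of_int (f := fun z => g z + g (-z)) (by fun_prop) h0 (hi.add hi2) h1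
  exact MW.linear_of_odd hg (fun v => by have h3 : g v + g (-v) = 0 := h2 v; linarith)

namespace MW

/-- one sided directional derivative -/
noncomputable def dd (g : V → ℝ) (e x : V) : ℝ := ⨅ l : ℝ, (g (l • e + x) - l * g e)

theorem dd_anti {g : V → ℝ} (hg : Sublin g) (e x : V) :
    Antitone (fun l : ℝ => g (l • e + x) - l * g e) := by
  intro l m hlm
  simp only
  have h1 := hg.sub (l • e + x) ((m - l) • e)
  rw [hg.hom (m - l) e (by linarith)] at h1
  have h2 : l • e + x + (m - l) • e = m • e + x := by module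
  rw [h2] at h1
  linarith

theorem dd_lb {g : V → ℝ} (hg : Sublin g) (e x : V) (l : ℝ) :
    - g (-x) ≤ g (l • e + x) - l * g e := by
  have h0 : ∀ m : ℝ, 0 ≤ m → - g (-x) ≤ g (m • e + x) - m * g e := by
    intro m hm
    have h1 := hg.sub (m • e + x) (-x)
    rw [show m • e + x + -x = m • e by module, hg.hom m e hm] at h1
    linarith
  rcases le_total 0 l with hl | hl
  · exact h0 l hl
  · exact (h0 0 le_rfl).trans (dd_anti hg e x hl)

theorem dd_bdd {g : V → ℝ} (hg : Sublin g) (e x : V) :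
    BddBelow (range fun l : ℝ => g (l • e + x) - l * g e) :=
  ⟨- g (-x), by rintro _ ⟨l, rfl⟩; exact dd_lb hg e x l⟩

theorem dd_tendsto {g : V → ℝ} (hg : Sublin g) (e x : V) :
    Tendsto (fun l : ℝ => g (l • e + x) - l * g e) atTop (𝓝 (dd g e x)) :=
  tendsto_atTop_ciInf (dd_anti hg e x) (dd_bdd hg e x)

theorem dd_le {g : V → ℝ} (hg : Sublin g) (e x : V) (l : ℝ) :
    dd g e x ≤ g (l • e + x) - l * g e := ciInf_le (dd_bdd hg e x) l

theorem dd_add_le {g : V → ℝ} (hg : Sublin g) (e x y : V) :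
    dd g e (x + y) ≤ dd g e x + dd g e y := by
  have h1 := (dd_tendsto hg e x).add (dd_tendsto hg e y)
  have h2 : Tendsto (fun l : ℝ => 2 * l) atTop atTop :=
    tendsto_id.const_mul_atTop (by norm_num)
  have h3 := (dd_tendsto hg e (x + y)).comp h2
  refine le_of_tendsto_of_tendsto' h3 h1 (fun l => ?_)
  simp only [Function.comp]
  have h4 := hg.sub (l • e + x) (l • e + y)
  rw [show l • e + x + (l • e + y) = (2 * l) • e + (x + y) by module] at h4
  linarith

theorem dd_shift {g : V → ℝ} (hg : Sublin g) (e x : V) (c : ℝ) :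
    dd g e (x + c • e) = dd g e x + c * g e := by
  have h1 := dd_tendsto hg e (x + c • e)
  have h2 : Tendsto (fun l : ℝ => l + c) atTop atTop := tendsto_atTop_add_const_right _ _ tendsto_id
  have h3 := ((dd_tendsto hg e x).comp h2).add_const (c * g e)
  refine tendsto_nhds_unique h1 (h3.congr (fun l => ?_))
  simp only [Function.comp]
  rw [show (l + c) • e + x = l • e + (x + c • e) by module]
  ring

theorem dd_scale {g : V → ℝ} (hg : Sublin g) (e x : V) {r : ℝ} (hr : 0 < r) :
    dd g (r • e) x = dd g e x := by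
  have h1 := dd_tendsto hg (r • e) x
  have h2 : Tendsto (fun l : ℝ => l * r) atTop atTop := tendsto_id.atTop_mul_const hr
  have h3 := (dd_tendsto hg e x).comp h2
  refine tendsto_nhds_unique h1 (h3.congr (fun l => ?_))
  simp only [Function.comp]
  rw [hg.hom r e hr.le, smul_smul]
  ring

theorem dd_hom {g : V → ℝ} (hg : Sublin g) (e x : V) {c : ℝ} (hc : 0 < c) :
    dd g e (c • x) = c * dd g e x := by
  have h1 := dd_tendsto hg e (c • x)
  have h2 : Tendsto (fun l : ℝ => l / c) atTop atTop := tendsto_id.atTop_div_const hc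
  have h3 := ((dd_tendsto hg e x).comp h2).const_mul c
  refine tendsto_nhds_unique h1 (h3.congr (fun l => ?_))
  simp only [Function.comp]
  rw [mul_sub, ← hg.hom c _ hc.le, smul_add, smul_smul, mul_div_cancel₀ l hc.ne']
  field_simp

theorem dd_zero {g : V → ℝ} (hg : Sublin g) (e : V) : dd g e 0 = 0 := by
  have h1 := dd_tendsto hg e 0
  refine tendsto_nhds_unique h1 (tendsto_const_nhds.congr' ?_)
  filter_upwards [eventually_ge_atTop (0 : ℝ)] with l hl
  rw [add_zero, hg.hom l e hl]; ring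

/-- crease seminorm at `e` -/
noncomputable def G (g : V → ℝ) (e x : V) : ℝ := dd g e x + dd g e (-x)

theorem G_nonneg {g : V → ℝ} (hg : Sublin g) (e x : V) : 0 ≤ G g e x := by
  have := dd_add_le hg e x (-x)
  rw [add_neg_cancel, dd_zero hg] at this
  exact this

theorem G_neg (g : V → ℝ) (e x : V) : G g e (-x) = G g e x := by
  unfold G; rw [neg_neg, add_comm]

theorem G_add_le {g : V → ℝ} (hg : Sublin g) (e x y : V) :
    G g e (x + y) ≤ G g e x + G g e y := by
  have h1 := dd_add_le hg e x y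
  have h2 := dd_add_le hg e (-x) (-y)
  unfold G
  rw [show -(x + y) = -x + -y by abel]
  linarith

theorem G_shift {g : V → ℝ} (hg : Sublin g) (e x : V) (c : ℝ) :
    G g e (x + c • e) = G g e x := by
  unfold G
  rw [dd_shift hg, show -(x + c • e) = -x + (-c) • e by module, dd_shift hg]
  ring

theorem G_scale {g : V → ℝ} (hg : Sublin g) (e x : V) {r : ℝ} (hr : 0 < r) :
    G g (r • e) x = G g e x := by
  unfold G
  rw [dd_scale hg e x hr, dd_scale hg e (-x) hr]

theorem G_hom {g : V → ℝ} (hg : Sublin g) (e x : V) (c : ℝ) :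
    G g e (c • x) = |c| * G g e x := by
  rcases lt_trichotomy c 0 with h | h | h
  · rw [abs_of_neg h, ← G_neg g e (c • x), ← neg_smul]
    unfold G
    rw [dd_hom hg e x (neg_pos.2 h), show -(-c • x) = -c • (-x) by module,
      dd_hom hg e (-x) (neg_pos.2 h)]
    ring
  · subst h
    unfold G
    simp [dd_zero hg]
  · rw [abs_of_pos h]
    unfold G
    rw [dd_hom hg e x h, show -(c • x) = c • (-x) by module, dd_hom hg e (-x) h]
    ring

theorem G_le {g : V → ℝ} (hg : Sublin g) (e x : V) {t : ℝ} (ht : 0 < t) :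
    G g e x * t ≤ g (e + t • x) + g (e - t • x) - 2 * g e := by
  have h1 := dd_le hg e x t⁻¹
  have h2 := dd_le hg e (-x) t⁻¹
  have h3 : t * g (t⁻¹ • e + x) = g (e + t • x) := by
    rw [← hg.hom t _ ht.le, smul_add, smul_smul, mul_inv_cancel₀ ht.ne', one_smul]
  have h4 : t * g (t⁻¹ • e + -x) = g (e - t • x) := by
    rw [← hg.hom t _ ht.le, smul_add, smul_smul, mul_inv_cancel₀ ht.ne', one_smul, smul_neg,
      sub_eq_add_neg]
  have h5 : t * (t⁻¹ * g e) = g e := by field_simp
  unfold G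
  nlinarith

theorem G_le_sum {g : V → ℝ} (hg : Sublin g) (e x : V) :
    G g e x ≤ g x + g (-x) := by
  have h1 := dd_le hg e x 0
  have h2 := dd_le hg e (-x) 0
  simp only [zero_smul, zero_add, zero_mul, sub_zero] at h1 h2
  unfold G
  linarith

theorem G_tendsto {g : V → ℝ} (hg : Sublin g) (e x : V) :
    Tendsto (fun n : ℕ => g ((n : ℝ) • e + x) + g ((n : ℝ) • e - x) - 2 * n * g e) atTop
      (𝓝 (G g e x)) := by
  have h1 := ((dd_tendsto hg e x).add (dd_tendsto hg e (-x))).comp tendsto_natCast_atTop_atTop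
  refine h1.congr (fun n => ?_)
  simp only [Function.comp]
  rw [sub_eq_add_neg ((n : ℝ) • e) x]
  ring

theorem G_meas {g : V → ℝ} (hg : Sublin g) : Measurable (fun p : V × V => G g p.1 p.2) := by
  have hc := sl_cont hg
  refine measurable_of_tendsto_metrizable (f := fun (n : ℕ) (p : V × V) =>
    g ((n : ℝ) • p.1 + p.2) + g ((n : ℝ) • p.1 - p.2) - 2 * n * g p.1) (fun n => ?_) ?_
  · exact Continuous.measurable (by fun_prop)
  · rw [tendsto_pi_nhds]
    intro p
    exact G_tendsto hg p.1 p.2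

theorem prj_cont (u : V) : Continuous (prj u) := by unfold prj; fun_prop

theorem prj_smul (u x : V) (c : ℝ) : prj u (c • x) = c • prj u x := by
  unfold prj
  rw [inner_smul_right, smul_sub, smul_smul, mul_div_assoc]

theorem prj_add (u x y : V) : prj u (x + y) = prj u x + prj u y := by
  unfold prj
  rw [inner_add_right, add_div, add_smul]; abel

theorem prj_inner (u x : V) (hu : ‖u‖ = 1) : ⟪prj u x, u⟫_ℝ = 0 := by
  unfold prj
  rw [hu, inner_sub_left, inner_smul_left, real_inner_self_eq_norm_sq, hu, real_inner_comm]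
  simp

theorem N0_eq {g : V → ℝ} (hg : Sublin g) (u : V) :
    N0 u g = ∫ z, G g (prj u z) u ∂(stdGaussian V) := by
  have hc := sl_cont hg
  have hp := prj_cont u
  have h1 := Nt_tendsto hg u
  have h2 : Tendsto (fun n : ℕ => ((n : ℝ) + 1)⁻¹) atTop (𝓝[>] 0) := by
    rw [tendsto_nhdsWithin_iff]
    refine ⟨tendsto_inv_atTop_zero.comp (tendsto_natCast_atTop_atTop.atTop_add tendsto_const_nhds),
      Eventually.of_forall fun n => ?_⟩
    simp only [mem_Ioi]; positivity
  have h3 := h1.comp h2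
  refine tendsto_nhds_unique h3 ?_
  have h4 : ∀ n : ℕ, ((fun t => Nt t u g) ∘ fun n : ℕ => ((n : ℝ) + 1)⁻¹) n
      = ∫ z, (g (((n + 1 : ℕ) : ℝ) • prj u z + u) + g (((n + 1 : ℕ) : ℝ) • prj u z - u)
        - 2 * ((n + 1 : ℕ) : ℝ) * g (prj u z)) ∂(stdGaussian V) := by
    intro n
    simp only [Function.comp, Nt]
    rw [← integral_const_mul]
    congr 1
    ext z
    have hn : (0 : ℝ) < (n : ℝ) + 1 := by positivity
    push_cast
    have e1 : g (((n : ℝ) + 1) • prj u z + u)
        = ((n : ℝ) + 1) * g (prj u z + ((n : ℝ) + 1)⁻¹ • u) := by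
      rw [← hg.hom _ _ hn.le, smul_add, smul_smul, mul_inv_cancel₀ hn.ne', one_smul]
    have e2 : g (((n : ℝ) + 1) • prj u z - u)
        = ((n : ℝ) + 1) * g (prj u z - ((n : ℝ) + 1)⁻¹ • u) := by
      rw [← hg.hom _ _ hn.le, smul_sub, smul_smul, mul_inv_cancel₀ hn.ne', one_smul]
    rw [e1, e2]
    field_simp
  rw [tendsto_congr h4]
  refine tendsto_integral_of_dominated_convergence (fun _ => g u + g (-u)) (fun n => ?_)
    (integrable_const _) (fun n => ?_) ?_
  · exact Continuous.aestronglyMeasurable (by fun_prop)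
  · refine Eventually.of_forall fun z => ?_
    have hn : (0 : ℝ) ≤ ((n + 1 : ℕ) : ℝ) := by positivity
    have a1 := hg.sub (((n + 1 : ℕ) : ℝ) • prj u z) u
    have a2 := hg.sub (((n + 1 : ℕ) : ℝ) • prj u z) (-u)
    rw [hg.hom _ _ hn] at a1 a2
    rw [← sub_eq_add_neg] at a2
    have a3 := hg.sub (((n + 1 : ℕ) : ℝ) • prj u z + u) (((n + 1 : ℕ) : ℝ) • prj u z - u)
    rw [show ((n + 1 : ℕ) : ℝ) • prj u z + u + (((n + 1 : ℕ) : ℝ) • prj u z - u)
      = (2 * ((n + 1 : ℕ) : ℝ)) • prj u z by module, hg.hom _ _ (by positivity)] at a3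
    rw [Real.norm_eq_abs, abs_le]
    constructor <;> linarith
  · refine Eventually.of_forall fun z => ?_
    exact (G_tendsto hg (prj u z) u).comp (tendsto_add_atTop_nat 1)

end MW

namespace MW

/-- hyperplanes are null -/
theorem hyp_null (c : V) (hc : c ≠ 0) : ∀ᵐ x ∂(stdGaussian V), ⟪c, x⟫_ℝ ≠ 0 := by
  have h := gauss_inner c
  have hv : (‖c‖₊ : ℝ≥0) ^ 2 ≠ 0 := by
    simpa using hc
  have := nullSingletonClass_gaussianReal (μ := 0) hv
  have h2 : (stdGaussian V).map (fun x => ⟪c, x⟫_ℝ) {0} = 0 := by rw [h]; exact measure_singleton 0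
  rw [Measure.map_apply (by fun_prop) (measurableSet_singleton 0)] at h2
  rw [ae_iff]
  have e : {a : V | ¬ (⟪c, a⟫_ℝ ≠ 0)} = (fun x => ⟪c, x⟫_ℝ) ⁻¹' {0} := by ext x; simp
  rw [e]
  exact h2

/-- generic pairs -/
theorem generic (S : Finset V) (hS : ∀ u ∈ S, ‖u‖ = 1)
    (hS' : ∀ u ∈ S, ∀ v ∈ S, u ≠ v → u ≠ -v) :
    ∀ᵐ p ∂((stdGaussian V).prod (stdGaussian V)),
      (∀ u ∈ S, ⟪u, p.2⟫_ℝ ≠ 0) ∧
      (∀ u ∈ S, ∀ v ∈ S, u ≠ v → ⟪u, p.1⟫_ℝ * ⟪v, p.2⟫_ℝ ≠ ⟪v, p.1⟫_ℝ * ⟪u, p.2⟫_ℝ) := by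
  have h1 : ∀ u ∈ S, ∀ᵐ p ∂((stdGaussian V).prod (stdGaussian V)), ⟪u, p.2⟫_ℝ ≠ 0 := by
    intro u hu
    have h0 := hyp_null u (by intro h; have := hS u hu; rw [h, norm_zero] at this; norm_num at this)
    exact (Measure.quasiMeasurePreserving_snd (μ := stdGaussian V) (ν := stdGaussian V)).ae h0
  have h2 : ∀ u ∈ S, ∀ v ∈ S, u ≠ v → ∀ᵐ p ∂((stdGaussian V).prod (stdGaussian V)),
      ⟪u, p.1⟫_ℝ * ⟪v, p.2⟫_ℝ ≠ ⟪v, p.1⟫_ℝ * ⟪u, p.2⟫_ℝ := by
    intro u hu v hv huv
    have hms : MeasurableSet {p : V × V | ⟪u, p.1⟫_ℝ * ⟪v, p.2⟫_ℝ ≠ ⟪v, p.1⟫_ℝ * ⟪u, p.2⟫_ℝ} :=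
      (measurableSet_eq_fun (by fun_prop) (by fun_prop)).compl
    rw [Measure.ae_prod_iff_ae_ae hms]
    have h0 := hyp_null u (by intro h; have := hS u hu; rw [h, norm_zero] at this; norm_num at this)
    filter_upwards [h0] with a ha
    have hc : ⟪u, a⟫_ℝ • v - ⟪v, a⟫_ℝ • u ≠ 0 := by
      intro h
      have h3 : v = (⟪v, a⟫_ℝ / ⟪u, a⟫_ℝ) • u := by
        have h4 : ⟪u, a⟫_ℝ • v = ⟪v, a⟫_ℝ • u := sub_eq_zero.1 h
        rw [div_eq_inv_mul, mul_smul, ← h4, smul_smul, inv_mul_cancel₀ ha, one_smul]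
      set r := ⟪v, a⟫_ℝ / ⟪u, a⟫_ℝ with hr
      have h5 : ‖v‖ = |r| * ‖u‖ := by rw [h3, norm_smul, Real.norm_eq_abs]
      rw [hS u hu, hS v hv, mul_one] at h5
      rcases (abs_eq (by norm_num : (0:ℝ) ≤ 1)).1 h5.symm with h6 | h6
      · rw [h6, one_smul] at h3; exact huv h3.symm
      · rw [h6] at h3
        exact hS' u hu v hv huv (by rw [h3]; simp)
    filter_upwards [hyp_null _ hc] with b hb h
    apply hb
    rw [inner_sub_left, inner_smul_left, inner_smul_left]
    simp only [conj_trivial]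
    linarith
  have h3 : ∀ᵐ p ∂((stdGaussian V).prod (stdGaussian V)), ∀ u ∈ S, ⟪u, p.2⟫_ℝ ≠ 0 := by
    rw [Filter.eventually_all_finset]; exact h1
  have h4 : ∀ᵐ p ∂((stdGaussian V).prod (stdGaussian V)), ∀ u ∈ S, ∀ v ∈ S, u ≠ v →
      ⟪u, p.1⟫_ℝ * ⟪v, p.2⟫_ℝ ≠ ⟪v, p.1⟫_ℝ * ⟪u, p.2⟫_ℝ := by
    rw [Filter.eventually_all_finset]
    intro u hu
    rw [Filter.eventually_all_finset]
    intro v hv
    by_cases huv : u = v
    · exact Eventually.of_forall fun p h => absurd huv h
    · filter_upwards [h2 u hu v hv huv] with p hp _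
      exact hp
  filter_upwards [h3, h4] with p hp hq using ⟨hp, hq⟩

/-- one crossing term -/
noncomputable def F (g : V → ℝ) (u : V) (p : V × V) : ℝ :=
  max 0 (1 - |⟪u, p.1⟫_ℝ / ⟪u, p.2⟫_ℝ|) * G g (p.1 - (⟪u, p.1⟫_ℝ / ⟪u, p.2⟫_ℝ) • p.2) p.2

theorem F_nonneg {g : V → ℝ} (hg : Sublin g) (u : V) (p : V × V) : 0 ≤ F g u p :=
  mul_nonneg (le_max_left _ _) (G_nonneg hg _ _)

theorem F_meas {g : V → ℝ} (hg : Sublin g) (u : V) : Measurable (F g u) := by
  have h1 : Measurable (fun p : V × V => ⟪u, p.1⟫_ℝ / ⟪u, p.2⟫_ℝ) := by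
    apply Measurable.div
    · exact Continuous.measurable (by fun_prop)
    · exact Continuous.measurable (by fun_prop)
  have h2 : Measurable (fun p : V × V => max 0 (1 - |⟪u, p.1⟫_ℝ / ⟪u, p.2⟫_ℝ|)) := by
    have h3 : Measurable (fun p : V × V => |⟪u, p.1⟫_ℝ / ⟪u, p.2⟫_ℝ|) := h1.norm
    exact measurable_const.max (measurable_const.sub h3)
  have h4 : Measurable (fun p : V × V => (⟪u, p.1⟫_ℝ / ⟪u, p.2⟫_ℝ) • p.2) :=
    h1.smul measurable_snd
  have h5 : Measurable (fun p : V × V => (p.1 - (⟪u, p.1⟫_ℝ / ⟪u, p.2⟫_ℝ) • p.2, p.2)) :=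
    (measurable_fst.sub h4).prodMk measurable_snd
  have h7 := G_meas hg
  have h6 : Measurable ((fun p : V × V => G g p.1 p.2) ∘
      (fun p : V × V => (p.1 - (⟪u, p.1⟫_ℝ / ⟪u, p.2⟫_ℝ) • p.2, p.2))) := h7.comp h5
  have h8 : F g u = fun p : V × V => (max 0 (1 - |⟪u, p.1⟫_ℝ / ⟪u, p.2⟫_ℝ|)) *
      (((fun p : V × V => G g p.1 p.2) ∘
      (fun p : V × V => (p.1 - (⟪u, p.1⟫_ℝ / ⟪u, p.2⟫_ℝ) • p.2, p.2))) p) := by
    funext p
    simp only [F, Function.comp]
  rw [h8]
  exact Measurable.mul h2 h6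

theorem cross {g : V → ℝ} (hg : Sublin g) (S : Finset V) (p : V × V)
    (h1 : ∀ u ∈ S, ⟪u, p.2⟫_ℝ ≠ 0)
    (h2 : ∀ u ∈ S, ∀ v ∈ S, u ≠ v → ⟪u, p.1⟫_ℝ * ⟪v, p.2⟫_ℝ ≠ ⟪v, p.1⟫_ℝ * ⟪u, p.2⟫_ℝ) :
    ∑ u ∈ S, F g u p ≤ g (p.1 + p.2) + g (p.1 - p.2) - 2 * g p.1 := by
  classical
  obtain ⟨a, b⟩ := p
  simp only at h1 h2 ⊢
  set s : V → ℝ := fun u => - (⟪u, a⟫_ℝ / ⟪u, b⟫_ℝ) with hs
  set J : ℝ → ℝ := fun t => G g (a + t • b) b with hJ
  have hF : ∀ u ∈ S, F g u (a, b) = max 0 (1 - |s u|) * J (s u) := by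
    intro u _
    simp only [F, hs, hJ, abs_neg, neg_smul, sub_eq_add_neg]
  rw [Finset.sum_congr rfl hF]
  set T := S.filter (fun u => |s u| < 1) with hT
  have h3 : ∑ u ∈ S, max 0 (1 - |s u|) * J (s u) = ∑ u ∈ T, (1 - |s u|) * J (s u) := by
    rw [hT, Finset.sum_filter]
    refine Finset.sum_congr rfl (fun u _ => ?_)
    split_ifs with h
    · rw [max_eq_right (by linarith)]
    · rw [max_eq_left (by linarith [not_lt.1 h]), zero_mul]
  have hinj : Set.InjOn s T := by
    intro u hu v hv huv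
    have hu' : u ∈ S := (Finset.mem_filter.1 hu).1
    have hv' : v ∈ S := (Finset.mem_filter.1 hv).1
    by_contra hne
    apply h2 u hu' v hv' hne
    have := h1 u hu'
    have := h1 v hv'
    simp only [hs, neg_inj] at huv
    field_simp at huv
    linarith
  have h4 : ∑ u ∈ T, (1 - |s u|) * J (s u) = ∑ t ∈ T.image s, (1 - |t|) * J t := by
    rw [Finset.sum_image hinj]
  rw [h3, h4]
  have h5 := second_diff_atoms (fun t => g (a + t • b)) ?_ (T.image s) ?_ J ?_
  · simp only [one_smul, neg_smul, zero_smul, add_zero] at h5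
    rw [sub_eq_add_neg a b]
    exact h5
  · refine ⟨convex_univ, fun x _ y _ α β hα hβ hαβ => ?_⟩
    simp only [smul_eq_mul]
    rw [← hg.hom α _ hα, ← hg.hom β _ hβ]
    refine le_trans (le_of_eq ?_) (hg.sub _ _)
    congr 1
    have : a = α • a + β • a := by rw [← add_smul, hαβ, one_smul]
    nth_rewrite 1 [this]
    module
  · intro t ht
    obtain ⟨u, hu, rfl⟩ := Finset.mem_image.1 ht
    exact (Finset.mem_filter.1 hu).2
  · intro t _ r hr
    have := G_le hg (a + t • b) b hr
    simp only [hJ]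
    rw [show a + (t + r) • b = a + t • b + r • b by module,
      show a + (t - r) • b = a + t • b - r • b by module]
    exact this

end MW

namespace MW

attribute [local irreducible] G dd

/-- splitting both variables of a double Gaussian integral -/
theorem split2 (u : V) (hu : ‖u‖ = 1) (Φ : V × V → ℝ≥0∞) (hΦ : Measurable Φ) :
    ∫⁻ p, Φ p ∂((stdGaussian V).prod (stdGaussian V))
      = ∫⁻ α, ∫⁻ β, ∫⁻ q, Φ (α • u + prj u q.1, β • u + prj u q.2)
        ∂((stdGaussian V).prod (stdGaussian V)) ∂(gaussianReal 0 1) ∂(gaussianReal 0 1) := by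
  have hm : Measurable (fun p : ℝ × V => p.1 • u + prj u p.2) := by
    have hp := prj_cont u
    exact Continuous.measurable (by fun_prop)
  have hp := (prj_cont u).measurable
  have h1 := gauss_split u hu
  have hmm : Measurable (Prod.map (fun p : ℝ × V => p.1 • u + prj u p.2)
      (fun p : ℝ × V => p.1 • u + prj u p.2)) := hm.prodMap hm
  have hΨ : Measurable (fun x : (ℝ × V) × (ℝ × V) =>
      Φ (x.1.1 • u + prj u x.1.2, x.2.1 • u + prj u x.2.2)) := hΦ.comp hmm
  have hpu : Measurable (prj u) := hp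
  calc ∫⁻ p, Φ p ∂((stdGaussian V).prod (stdGaussian V))
      = ∫⁻ p, Φ p ∂(((gaussianReal 0 1).prod (stdGaussian V)).map
            (fun p : ℝ × V => p.1 • u + prj u p.2)).prod
          (((gaussianReal 0 1).prod (stdGaussian V)).map
            (fun p : ℝ × V => p.1 • u + prj u p.2)) := by rw [h1]
    _ = ∫⁻ x, Φ (x.1.1 • u + prj u x.1.2, x.2.1 • u + prj u x.2.2)
          ∂((gaussianReal 0 1).prod (stdGaussian V)).prod
            ((gaussianReal 0 1).prod (stdGaussian V)) := by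
          rw [Measure.map_prod_map _ _ hm hm, lintegral_map hΦ hmm]
          rfl
    _ = ∫⁻ x : ℝ × V, ∫⁻ y : ℝ × V, Φ (x.1 • u + prj u x.2, y.1 • u + prj u y.2)
          ∂((gaussianReal 0 1).prod (stdGaussian V)) ∂((gaussianReal 0 1).prod (stdGaussian V)) := by
          rw [lintegral_prod _ hΨ.aemeasurable]
    _ = ∫⁻ α, ∫⁻ z, ∫⁻ β, ∫⁻ w, Φ (α • u + prj u z, β • u + prj u w)
          ∂(stdGaussian V) ∂(gaussianReal 0 1) ∂(stdGaussian V) ∂(gaussianReal 0 1) := by
          rw [lintegral_prod _ (hΨ.lintegral_prod_right').aemeasurable]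
          refine lintegral_congr fun α => lintegral_congr fun z => ?_
          rw [lintegral_prod]
          refine Measurable.aemeasurable (hΦ.comp ?_)
          fun_prop
    _ = ∫⁻ α, ∫⁻ β, ∫⁻ z, ∫⁻ w, Φ (α • u + prj u z, β • u + prj u w)
          ∂(stdGaussian V) ∂(stdGaussian V) ∂(gaussianReal 0 1) ∂(gaussianReal 0 1) := by
          refine lintegral_congr fun α => ?_
          rw [lintegral_lintegral_swap]
          refine Measurable.aemeasurable ?_
          have : Measurable (fun x : (V × ℝ) × V => Φ (α • u + prj u x.1.1, x.1.2 • u + prj u x.2)) := by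
            refine hΦ.comp ?_
            fun_prop
          exact this.lintegral_prod_right'
    _ = _ := by
          refine lintegral_congr fun α => lintegral_congr fun β => ?_
          rw [lintegral_prod]
          refine Measurable.aemeasurable (hΦ.comp ?_)
          fun_prop

theorem rot2 (θ : ℝ) (Φ : V × V → ℝ≥0∞) (hΦ : Measurable Φ) :
    ∫⁻ p, Φ p ∂((stdGaussian V).prod (stdGaussian V))
      = ∫⁻ p, Φ (Real.cos θ • p.1 + Real.sin θ • p.2, -(Real.sin θ) • p.1 + Real.cos θ • p.2)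
        ∂((stdGaussian V).prod (stdGaussian V)) := by
  conv_lhs => rw [← gauss_rot2 (V := V) θ]
  rw [lintegral_map hΦ (by fun_prop)]

/-- the inner estimate, for fixed first coordinates -/
theorem inner_est {g : V → ℝ} (hg : Sublin g) (u : V) (hu : ‖u‖ = 1) (α β : ℝ) :
    ENNReal.ofReal (max 0 (|β| - |α|) * N0 u g) ≤
      ∫⁻ q, ENNReal.ofReal (F g u (α • u + prj u q.1, β • u + prj u q.2))
        ∂((stdGaussian V).prod (stdGaussian V)) := by
  rcases le_or_gt |β| |α| with h | h
  · rw [max_eq_left (by linarith), zero_mul, ENNReal.ofReal_zero]; exact bot_le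
  have hβ : β ≠ 0 := by rintro rfl; rw [abs_zero] at h; exact absurd (abs_nonneg α) (not_le.2 h)
  have hβ' : 0 < |β| := abs_pos.2 hβ
  set r := α / β with hr
  have hr1 : |r| < 1 := by rw [hr, abs_div, div_lt_one hβ']; exact h
  have hp := (prj_cont u).measurable
  have hin : ∀ (c : ℝ) (z : V), ⟪u, c • u + prj u z⟫_ℝ = c := by
    intro c z
    rw [inner_add_right, inner_smul_right, real_inner_self_eq_norm_sq, hu,
      real_inner_comm, prj_inner u z hu]
    ring
  have e1 : ∀ q : V × V, F g u (α • u + prj u q.1, β • u + prj u q.2)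
      = (1 - |r|) * G g (prj u (q.1 - r • q.2)) (β • u + prj u q.2) := by
    intro q
    simp only [F, hin]
    rw [← hr, max_eq_right (by linarith)]
    congr 2
    rw [sub_eq_add_neg q.1, ← neg_smul, prj_add, prj_smul]
    have : α = r * β := by rw [hr]; field_simp
    rw [this]
    module
  simp_rw [e1]
  have hGm := G_meas hg
  have hmeas : Measurable (fun q : V × V => ENNReal.ofReal ((1 - |r|) *
      G g (prj u (q.1 - r • q.2)) (β • u + prj u q.2))) := by
    have h1 : Measurable (fun q : V × V => (prj u (q.1 - r • q.2), β • u + prj u q.2)) := by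
      fun_prop
    have h2 : Measurable ((fun p : V × V => G g p.1 p.2) ∘
      (fun q : V × V => (prj u (q.1 - r • q.2), β • u + prj u q.2))) := hGm.comp h1
    exact (h2.const_mul _).ennreal_ofReal
  rw [rot2 (Real.arctan r) _ hmeas]
  set c := Real.cos (Real.arctan r) with hc
  set s := Real.sin (Real.arctan r) with hs
  have hc0 : 0 < c := Real.cos_arctan_pos r
  have hcs : s = r * c := by
    have := Real.tan_arctan r
    rw [Real.tan_eq_sin_div_cos] at this
    field_simp at this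
    rw [hs, hc]; linarith
  have hcc : c ^ 2 + s ^ 2 = 1 := by rw [hc, hs]; exact Real.cos_sq_add_sin_sq _
  have e2 : ∀ q : V × V, G g (prj u (c • q.1 + s • q.2 - r • (-s • q.1 + c • q.2)))
      (β • u + prj u (-s • q.1 + c • q.2)) = G g (prj u q.1) (β • u + c • prj u q.2) := by
    intro q
    have h1 : c • q.1 + s • q.2 - r • (-s • q.1 + c • q.2) = (c⁻¹) • q.1 := by
      have h2 : c⁻¹ = c + r * s := by
        apply inv_eq_of_mul_eq_one_right
        have h3 : c * (c + r * s) = c ^ 2 + (r * c) * s := by ring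
        rw [h3, ← hcs, ← hcc]; ring
      rw [h2, hcs]
      module
    rw [h1, prj_smul, G_scale hg _ _ (inv_pos.2 hc0), prj_add, prj_smul, prj_smul]
    rw [show β • u + (-s • prj u q.1 + c • prj u q.2)
      = β • u + c • prj u q.2 + (-s) • prj u q.1 by module]
    rw [G_shift hg]
  simp_rw [e2]
  -- Fubini and symmetry in the second variable
  have hm2 : Measurable (fun q : V × V => ENNReal.ofReal ((1 - |r|) *
      G g (prj u q.1) (β • u + c • prj u q.2))) := by
    have h1 : Measurable (fun q : V × V => (prj u q.1, β • u + c • prj u q.2)) := by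
      fun_prop
    have h2 : Measurable ((fun p : V × V => G g p.1 p.2) ∘
      (fun q : V × V => (prj u q.1, β • u + c • prj u q.2))) := hGm.comp h1
    exact (h2.const_mul _).ennreal_ofReal
  rw [lintegral_prod _ hm2.aemeasurable]
  have key : ∀ w : V, ENNReal.ofReal ((|β| - |α|) * G g (prj u w) u) ≤
      ∫⁻ y, ENNReal.ofReal ((1 - |r|) * G g (prj u w) (β • u + c • prj u y)) ∂(stdGaussian V) := by
    intro w
    have hm3 : Measurable (fun y : V => ENNReal.ofReal ((1 - |r|) *
      G g (prj u w) (β • u + c • prj u y))) := hm2.comp measurable_prodMk_left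
    have s1 : ∫⁻ y, ENNReal.ofReal ((1 - |r|) * G g (prj u w) (β • u + c • prj u y)) ∂(stdGaussian V)
        = ∫⁻ y, ENNReal.ofReal ((1 - |r|) * G g (prj u w) (β • u + c • prj u (-y)))
          ∂(stdGaussian V) := by
      exact (mp_neg.lintegral_comp hm3).symm
    have s2 : ∫⁻ y, ENNReal.ofReal (2 * ((|β| - |α|) * G g (prj u w) u)) ∂(stdGaussian V) ≤
        ∫⁻ y, (ENNReal.ofReal ((1 - |r|) * G g (prj u w) (β • u + c • prj u y)) +
          ENNReal.ofReal ((1 - |r|) * G g (prj u w) (β • u + c • prj u (-y)))) ∂(stdGaussian V) := by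
      refine lintegral_mono fun y => ?_
      have h1r : 0 ≤ 1 - |r| := by linarith
      rw [← ENNReal.ofReal_add (mul_nonneg h1r (G_nonneg hg _ _))
        (mul_nonneg h1r (G_nonneg hg _ _))]
      apply ENNReal.ofReal_le_ofReal
      have h2 := G_add_le hg (prj u w) (β • u + c • prj u y) (β • u + c • prj u (-y))
      have h3 : β • u + c • prj u y + (β • u + c • prj u (-y)) = (2 * β) • u := by
        rw [show -y = (-1 : ℝ) • y by simp, prj_smul]; module
      rw [h3, G_hom hg, abs_mul, abs_two] at h2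
      have h4 : (1 - |r|) * |β| = |β| - |α| := by
        rw [hr, abs_div]; field_simp
      calc 2 * ((|β| - |α|) * G g (prj u w) u) = (1 - |r|) * (2 * |β| * G g (prj u w) u) := by
            rw [← h4]; ring
        _ ≤ (1 - |r|) * (G g (prj u w) (β • u + c • prj u y) +
              G g (prj u w) (β • u + c • prj u (-y))) := mul_le_mul_of_nonneg_left h2 h1r
        _ = _ := by ring
    rw [lintegral_add_left hm3, ← s1, lintegral_const, measure_univ, mul_one, ← two_mul,
      ENNReal.ofReal_mul (by norm_num)] at s2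
    have h2 : ENNReal.ofReal 2 = 2 := by norm_num
    rw [h2] at s2
    exact (ENNReal.mul_le_mul_iff_right (by norm_num) (by norm_num)).1 s2
  refine le_trans ?_ (lintegral_mono key)
  have hpos : 0 ≤ |β| - |α| := by linarith
  rw [max_eq_right hpos, N0_eq hg u, ← integral_const_mul]
  refine (ofReal_integral_eq_lintegral_ofReal ?_ ?_).le
  · apply Integrable.const_mul
    have h1 : Measurable (fun w : V => G g (prj u w) u) := by
      have h2 : Measurable ((fun p : V × V => G g p.1 p.2) ∘ (fun w : V => (prj u w, u))) :=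
        hGm.comp (by fun_prop)
      exact h2
    refine Integrable.of_bound h1.aestronglyMeasurable (g u + g (-u))
      (Eventually.of_forall fun w => ?_)
    rw [Real.norm_eq_abs, abs_of_nonneg (G_nonneg hg _ _)]
    exact G_le_sum hg _ _
  · exact Eventually.of_forall fun w => mul_nonneg hpos (G_nonneg hg _ _)

end MW

namespace MW

attribute [local irreducible] G dd

theorem int_fst (f : V → ℝ) (hf : Continuous f) :
    ∫ p, f p.1 ∂((stdGaussian V).prod (stdGaussian V)) = ∫ x, f x ∂(stdGaussian V) := by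
  have h : ((stdGaussian V).prod (stdGaussian V)).map Prod.fst = stdGaussian V := by
    rw [Measure.map_fst_prod, measure_univ, one_smul]
  conv_rhs => rw [← h]
  rw [integral_map measurable_fst.aemeasurable hf.aestronglyMeasurable]

theorem integrable_fst (f : V → ℝ) (hf : Continuous f) (hi : Integrable f (stdGaussian V)) :
    Integrable (fun p : V × V => f p.1) ((stdGaussian V).prod (stdGaussian V)) := by
  have h : ((stdGaussian V).prod (stdGaussian V)).map Prod.fst = stdGaussian V := by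
    rw [Measure.map_fst_prod, measure_univ, one_smul]
  rw [← h] at hi
  exact (integrable_map_measure hf.aestronglyMeasurable measurable_fst.aemeasurable).1 hi

theorem rot_int (θ : ℝ) (f : V → ℝ) (hf : Continuous f) (hi : Integrable f (stdGaussian V)) :
    Integrable (fun p : V × V => f (Real.cos θ • p.1 + Real.sin θ • p.2))
      ((stdGaussian V).prod (stdGaussian V)) ∧
    ∫ p : V × V, f (Real.cos θ • p.1 + Real.sin θ • p.2) ∂((stdGaussian V).prod (stdGaussian V))
      = ∫ x, f x ∂(stdGaussian V) := by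
  have h := gauss_rot2 (V := V) θ
  have h1 := integrable_fst f hf hi
  rw [← h] at h1
  have hfc : Continuous (fun p : V × V => f p.1) := by fun_prop
  constructor
  · exact (integrable_map_measure hfc.aestronglyMeasurable (by fun_prop)).1 h1
  · rw [← int_fst f hf]
    conv_rhs => rw [← h]
    rw [integral_map (by fun_prop) hfc.aestronglyMeasurable]

theorem sqrt2_cos : Real.sqrt 2 * Real.cos (Real.pi / 4) = 1 := by
  rw [Real.cos_pi_div_four]
  have := Real.mul_self_sqrt (show (0:ℝ) ≤ 2 by norm_num)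
  linarith

theorem sqrt2_sin : Real.sqrt 2 * Real.sin (Real.pi / 4) = 1 := by
  rw [Real.sin_pi_div_four]
  have := Real.mul_self_sqrt (show (0:ℝ) ≤ 2 by norm_num)
  linarith

theorem law_add (f : V → ℝ) (hf : Continuous f) (hi : Integrable f (stdGaussian V))
    (hom : ∀ (c : ℝ) (v : V), 0 ≤ c → f (c • v) = c * f v) :
    Integrable (fun p : V × V => f (p.1 + p.2)) ((stdGaussian V).prod (stdGaussian V)) ∧
    ∫ p : V × V, f (p.1 + p.2) ∂((stdGaussian V).prod (stdGaussian V))
      = Real.sqrt 2 * ∫ x, f x ∂(stdGaussian V) := by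
  obtain ⟨h1, h2⟩ := rot_int (Real.pi / 4) f hf hi
  have h3 : ∀ p : V × V, f (p.1 + p.2)
      = Real.sqrt 2 * f (Real.cos (Real.pi / 4) • p.1 + Real.sin (Real.pi / 4) • p.2) := by
    intro p
    rw [← hom _ _ (Real.sqrt_nonneg 2), smul_add, smul_smul, smul_smul, sqrt2_cos, sqrt2_sin,
      one_smul, one_smul]
  simp_rw [h3]
  exact ⟨h1.const_mul _, by rw [integral_const_mul, h2]⟩

theorem law_sub (f : V → ℝ) (hf : Continuous f) (hi : Integrable f (stdGaussian V))
    (hom : ∀ (c : ℝ) (v : V), 0 ≤ c → f (c • v) = c * f v) :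
    Integrable (fun p : V × V => f (p.1 - p.2)) ((stdGaussian V).prod (stdGaussian V)) ∧
    ∫ p : V × V, f (p.1 - p.2) ∂((stdGaussian V).prod (stdGaussian V))
      = Real.sqrt 2 * ∫ x, f x ∂(stdGaussian V) := by
  obtain ⟨h1, h2⟩ := rot_int (-(Real.pi / 4)) f hf hi
  have h3 : ∀ p : V × V, f (p.1 - p.2)
      = Real.sqrt 2 * f (Real.cos (-(Real.pi / 4)) • p.1 + Real.sin (-(Real.pi / 4)) • p.2) := by
    intro p
    rw [← hom _ _ (Real.sqrt_nonneg 2), smul_add, smul_smul, smul_smul, Real.cos_neg, Real.sin_neg,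
      mul_neg, sqrt2_cos, sqrt2_sin, one_smul, neg_smul, one_smul, sub_eq_add_neg]
  simp_rw [h3]
  exact ⟨h1.const_mul _, by rw [integral_const_mul, h2]⟩

theorem std_real : stdGaussian ℝ = gaussianReal 0 1 := by
  have h := gauss_inner (1 : ℝ)
  have h2 : (fun x : ℝ => ⟪(1:ℝ), x⟫_ℝ) = id := by
    funext x; simp
  rw [h2, Measure.map_id] at h
  rw [h]; simp

theorem K_eq : ∫⁻ α, ∫⁻ β, ENNReal.ofReal (max 0 (|β| - |α|)) ∂(gaussianReal 0 1) ∂(gaussianReal 0 1)
    = ENNReal.ofReal (2 * (Real.sqrt 2 - 1) * c0) := by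
  have hmeas : Measurable (fun p : ℝ × ℝ => ENNReal.ofReal (max 0 (|p.2| - |p.1|))) :=
    (Continuous.measurable (by fun_prop)).ennreal_ofReal
  rw [← lintegral_prod (fun p : ℝ × ℝ => ENNReal.ofReal (max 0 (|p.2| - |p.1|))) hmeas.aemeasurable,
    ← std_real]
  have hc : Continuous (fun x : ℝ => |x|) := continuous_abs
  have hi : Integrable (fun x : ℝ => |x|) (stdGaussian ℝ) := by
    rw [std_real]; exact integrable_id_gauss1.abs
  have hom : ∀ (c : ℝ) (v : ℝ), 0 ≤ c → |c • v| = c * |v| := by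
    intro c v hc; rw [smul_eq_mul, abs_mul, abs_of_nonneg hc]
  obtain ⟨a1, a2⟩ := law_add (V := ℝ) (fun x => |x|) hc hi hom
  obtain ⟨b1, b2⟩ := law_sub (V := ℝ) (fun x => |x|) hc hi hom
  have c1 := integrable_fst (V := ℝ) (fun x => |x|) hc hi
  have c2 := int_fst (V := ℝ) (fun x => |x|) hc
  have e : ∀ p : ℝ × ℝ, max 0 (|p.2| - |p.1|)
      = (1/2) * |p.1 + p.2| + (1/2) * |p.1 - p.2| - |p.1| := by
    intro p
    rcases abs_cases p.1 with ⟨h1, h1'⟩ | ⟨h1, h1'⟩ <;> rcases abs_cases p.2 with ⟨h2, h2'⟩ | ⟨h2, h2'⟩ <;>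
    rcases abs_cases (p.1 + p.2) with ⟨h3, h3'⟩ | ⟨h3, h3'⟩ <;>
    rcases abs_cases (p.1 - p.2) with ⟨h4, h4'⟩ | ⟨h4, h4'⟩ <;>
    rw [h1, h2, h3, h4] <;>
    first
      | (rw [max_eq_left (by linarith)]; linarith)
      | (rw [max_eq_right (by linarith)]; linarith)
  rw [← ofReal_integral_eq_lintegral_ofReal]
  · congr 1
    simp_rw [e]
    have ab : Integrable (fun x : ℝ × ℝ => (1/2) * |x.1 + x.2| + (1/2) * |x.1 - x.2|)
      ((stdGaussian ℝ).prod (stdGaussian ℝ)) := (a1.const_mul _).add (b1.const_mul _)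
    rw [integral_sub ab c1,
      integral_add (a1.const_mul _) (b1.const_mul _), integral_const_mul, integral_const_mul,
      a2, b2, c2, std_real, int_abs]
    ring
  · simp_rw [e]
    exact ((a1.const_mul _).add (b1.const_mul _)).sub c1
  · exact Eventually.of_forall fun p => le_max_left _ _

theorem F_int {g : V → ℝ} (hg : Sublin g) (u : V) (hu : ‖u‖ = 1) :
    ENNReal.ofReal (2 * (Real.sqrt 2 - 1) * c0 * N0 u g) ≤
      ∫⁻ p, ENNReal.ofReal (F g u p) ∂((stdGaussian V).prod (stdGaussian V)) := by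
  rw [split2 u hu _ (F_meas hg u).ennreal_ofReal]
  have h1 : ∫⁻ α, ∫⁻ β, ENNReal.ofReal (max 0 (|β| - |α|) * N0 u g)
      ∂(gaussianReal 0 1) ∂(gaussianReal 0 1) = ENNReal.ofReal (2 * (Real.sqrt 2 - 1) * c0 * N0 u g) := by
    have h0 : (0 : ℝ) ≤ 2 * (Real.sqrt 2 - 1) * c0 := by
      have : 1 ≤ Real.sqrt 2 := by
        rw [Real.one_le_sqrt]; norm_num
      have := c0_pos
      apply mul_nonneg (by linarith) this.le
    rw [ENNReal.ofReal_mul h0, ← K_eq]
    have h2 : ∀ α β : ℝ, ENNReal.ofReal (max 0 (|β| - |α|) * N0 u g)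
        = ENNReal.ofReal (max 0 (|β| - |α|)) * ENNReal.ofReal (N0 u g) := fun α β =>
      ENNReal.ofReal_mul (le_max_left _ _)
    simp_rw [h2]
    rw [← lintegral_mul_const']
    · refine lintegral_congr fun α => ?_
      rw [lintegral_mul_const']
      exact ENNReal.ofReal_ne_top
    · exact ENNReal.ofReal_ne_top
  rw [← h1]
  exact lintegral_mono fun α => lintegral_mono fun β => inner_est hg u hu α β

end MW

/-- creases along distinct lines -/
theorem sum_N0_le {g : V → ℝ} (hg : Sublin g) (S : Finset V) (hS : ∀ u ∈ S, ‖u‖ = 1)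
    (hS' : ∀ u ∈ S, ∀ v ∈ S, u ≠ v → u ≠ -v) : c0 * ∑ u ∈ S, N0 u g ≤ wd g := by
  have hc := MW.sl_cont hg
  have hi := hg.integrable
  obtain ⟨a1, a2⟩ := MW.law_add g hc hi hg.hom
  obtain ⟨b1, b2⟩ := MW.law_sub g hc hi hg.hom
  have c1 := MW.integrable_fst g hc hi
  have c2 := MW.int_fst g hc
  set k : ℝ := 2 * (Real.sqrt 2 - 1) with hk
  have hk0 : 0 < k := by
    have : 1 < Real.sqrt 2 := by
      rw [Real.lt_sqrt (by norm_num)]; norm_num
    rw [hk]; linarith
  have h1 : ∑ u ∈ S, ENNReal.ofReal (k * c0 * N0 u g) ≤ ENNReal.ofReal (k * wd g) := by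
    calc ∑ u ∈ S, ENNReal.ofReal (k * c0 * N0 u g)
        ≤ ∑ u ∈ S, ∫⁻ p, ENNReal.ofReal (MW.F g u p) ∂((stdGaussian V).prod (stdGaussian V)) :=
          Finset.sum_le_sum fun u hu => MW.F_int hg u (hS u hu)
      _ = ∫⁻ p, ∑ u ∈ S, ENNReal.ofReal (MW.F g u p) ∂((stdGaussian V).prod (stdGaussian V)) := by
          rw [lintegral_finsetSum]
          exact fun u _ => (MW.F_meas hg u).ennreal_ofReal
      _ ≤ ∫⁻ p : V × V, ENNReal.ofReal (g (p.1 + p.2) + g (p.1 - p.2) - 2 * g p.1)
            ∂((stdGaussian V).prod (stdGaussian V)) := by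
          refine lintegral_mono_ae ?_
          filter_upwards [MW.generic S hS hS'] with p hp
          rw [← ENNReal.ofReal_sum_of_nonneg fun u _ => MW.F_nonneg hg u p]
          exact ENNReal.ofReal_le_ofReal (MW.cross hg S p hp.1 hp.2)
      _ = ENNReal.ofReal (k * wd g) := by
          rw [← ofReal_integral_eq_lintegral_ofReal]
          · congr 1
            have ab : Integrable (fun p : V × V => g (p.1 + p.2) + g (p.1 - p.2))
              ((stdGaussian V).prod (stdGaussian V)) := a1.add b1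
            rw [integral_sub ab (c1.const_mul _), integral_add a1 b1, integral_const_mul,
              a2, b2, c2, hk]
            unfold wd
            ring
          · exact (a1.add b1).sub (c1.const_mul _)
          · refine Eventually.of_forall fun p => ?_
            have := hg.sub (p.1 + p.2) (p.1 - p.2)
            rw [show p.1 + p.2 + (p.1 - p.2) = (2:ℝ) • p.1 by module, hg.hom 2 _ (by norm_num)] at this
            simp only [Pi.zero_apply]
            linarith
  rw [← ENNReal.ofReal_sum_of_nonneg] at h1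
  · have h2 := (ENNReal.ofReal_le_ofReal_iff (mul_nonneg hk0.le (wd_nonneg hg))).1 h1
    rw [← Finset.mul_sum, mul_assoc] at h2
    exact le_of_mul_le_mul_left h2 hk0
  · intro u _
    exact mul_nonneg (mul_nonneg hk0.le MW.c0_pos.le) (N0_nonneg hg u)

namespace MW

attribute [local irreducible] G dd

theorem sl_add {g h : V → ℝ} (hg : Sublin g) (hh : Sublin h) : Sublin (fun v => g v + h v) where
  hom c v hc := by rw [hg.hom c v hc, hh.hom c v hc]; ring
  sub v w := by have := hg.sub v w; have := hh.sub v w; linarith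

theorem sl_smul {g : V → ℝ} (hg : Sublin g) {c : ℝ} (hc : 0 ≤ c) : Sublin (fun v => c * g v) where
  hom r v hr := by rw [hg.hom r v hr]; ring
  sub v w := by have := mul_le_mul_of_nonneg_left (hg.sub v w) hc; linarith

theorem sl_inner (p : V) : Sublin (fun v => ⟪v, p⟫_ℝ) where
  hom r v hr := by rw [inner_smul_left]; simp
  sub v w := by rw [inner_add_left]

theorem sl_max {g h : V → ℝ} (hg : Sublin g) (hh : Sublin h) : Sublin (fun v => max (g v) (h v)) where
  hom c v hc := by rw [hg.hom c v hc, hh.hom c v hc, mul_max_of_nonneg _ _ hc]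
  sub v w := by
    apply max_le
    · exact (hg.sub v w).trans (add_le_add (le_max_left _ _) (le_max_left _ _))
    · exact (hh.sub v w).trans (add_le_add (le_max_right _ _) (le_max_right _ _))

theorem sl_zero : Sublin (fun _ : V => (0 : ℝ)) where
  hom c v hc := by simp
  sub v w := by simp

theorem sl_sum {ι : Type*} (s : Finset ι) (f : ι → V → ℝ) (hf : ∀ i ∈ s, Sublin (f i)) :
    Sublin (fun v => ∑ i ∈ s, f i v) where
  hom c v hc := by
    rw [Finset.mul_sum]
    exact Finset.sum_congr rfl fun i hi => (hf i hi).hom c v hc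
  sub v w := by
    rw [← Finset.sum_add_distrib]
    exact Finset.sum_le_sum fun i hi => (hf i hi).sub v w

theorem G_add_fun {g h : V → ℝ} (hg : Sublin g) (hh : Sublin h) (e x : V) :
    G (fun v => g v + h v) e x = G g e x + G h e x := by
  have h1 := G_tendsto (sl_add hg hh) e x
  have h2 := (G_tendsto hg e x).add (G_tendsto hh e x)
  refine tendsto_nhds_unique h1 (h2.congr fun n => ?_)
  ring

theorem G_smul_fun {g : V → ℝ} (hg : Sublin g) {c : ℝ} (hc : 0 ≤ c) (e x : V) :
    G (fun v => c * g v) e x = c * G g e x := by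
  have h1 := G_tendsto (sl_smul hg hc) e x
  have h2 := (G_tendsto hg e x).const_mul c
  refine tendsto_nhds_unique h1 (h2.congr fun n => ?_)
  ring

theorem G_integrable {g : V → ℝ} (hg : Sublin g) (u : V) :
    Integrable (fun w : V => G g (prj u w) u) (stdGaussian V) := by
  have hp := (prj_cont u).measurable
  have h1 : Measurable (fun w : V => G g (prj u w) u) := by
    have h2 : Measurable ((fun p : V × V => G g p.1 p.2) ∘ (fun w : V => (prj u w, u))) :=
      (G_meas hg).comp (by fun_prop)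
    exact h2
  refine Integrable.of_bound h1.aestronglyMeasurable (g u + g (-u))
    (Eventually.of_forall fun w => ?_)
  rw [Real.norm_eq_abs, abs_of_nonneg (G_nonneg hg _ _)]
  exact G_le_sum hg _ _

/-- defect of the crease inequality -/
noncomputable def Lam (S : Finset V) (g : V → ℝ) : ℝ := wd g - c0 * ∑ u ∈ S, N0 u g

theorem Lam_add (S : Finset V) {g h : V → ℝ} (hg : Sublin g) (hh : Sublin h) :
    Lam S (fun v => g v + h v) = Lam S g + Lam S h := by
  have h1 : ∀ u ∈ S, N0 u (fun v => g v + h v) = N0 u g + N0 u h := by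
    intro u _
    rw [N0_eq (sl_add hg hh), N0_eq hg, N0_eq hh, ← integral_add (G_integrable hg u)
      (G_integrable hh u)]
    simp_rw [G_add_fun hg hh]
  unfold Lam
  rw [Finset.sum_congr rfl h1, Finset.sum_add_distrib]
  unfold wd
  rw [integral_add hg.integrable hh.integrable]
  ring

theorem Lam_smul (S : Finset V) {g : V → ℝ} (hg : Sublin g) {c : ℝ} (hc : 0 ≤ c) :
    Lam S (fun v => c * g v) = c * Lam S g := by
  have h1 : ∀ u ∈ S, N0 u (fun v => c * g v) = c * N0 u g := by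
    intro u _
    rw [N0_eq (sl_smul hg hc), N0_eq hg, ← integral_const_mul]
    simp_rw [G_smul_fun hg hc]
  unfold Lam
  rw [Finset.sum_congr rfl h1, ← Finset.mul_sum]
  unfold wd
  rw [integral_const_mul]
  ring

theorem Lam_inner (S : Finset V) (p : V) : Lam S (fun v => ⟪v, p⟫_ℝ) = 0 := by
  have h1 : ∀ u ∈ S, N0 u (fun v => ⟪v, p⟫_ℝ) = 0 := by
    intro u _
    have h2 := Nt_tendsto (sl_inner p) u
    refine tendsto_nhds_unique h2 (tendsto_const_nhds.congr fun t => ?_)
    have e : (fun v : V => ⟪v, p⟫_ℝ) = fun v => ⟪p, v⟫_ℝ := by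
      funext v; exact real_inner_comm p v
    rw [e]
    exact (Nt_inner t u p).symm
  unfold Lam
  rw [Finset.sum_congr rfl h1]
  have h3 : wd (fun v : V => ⟪v, p⟫_ℝ) = 0 := by
    have h4 := int_neg (fun v : V => ⟪v, p⟫_ℝ)
    simp only [inner_neg_left, integral_neg] at h4
    unfold wd
    linarith
  rw [h3]; simp

theorem Lam_nonneg (S : Finset V) (hS : ∀ u ∈ S, ‖u‖ = 1)
    (hS' : ∀ u ∈ S, ∀ v ∈ S, u ≠ v → u ≠ -v) {g : V → ℝ} (hg : Sublin g) : 0 ≤ Lam S g := by
  have := sum_N0_le hg S hS hS'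
  unfold Lam; linarith

theorem Lam_sum {ι : Type*} (S : Finset V) (s : Finset ι) (f : ι → V → ℝ)
    (hf : ∀ i ∈ s, Sublin (f i)) :
    Lam S (fun v => ∑ i ∈ s, f i v) = ∑ i ∈ s, Lam S (f i) := by
  classical
  induction s using Finset.induction_on with
  | empty =>
    simp only [Finset.sum_empty]
    have := Lam_inner S (0 : V)
    simpa using this
  | insert a s ha ih =>
    simp only [Finset.sum_insert ha]
    rw [Lam_add S (hf a (Finset.mem_insert_self _ _))
      (sl_sum s f fun i hi => hf i (Finset.mem_insert_of_mem hi)),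
      ih fun i hi => hf i (Finset.mem_insert_of_mem hi)]

theorem N0_unit (u : V) (hu : ‖u‖ = 1) : N0 u (fun v => max 0 ⟪v, u⟫_ℝ) = 1 := by
  have h2 := Nt_tendsto (sl_max sl_zero (sl_inner u)) u
  refine tendsto_nhds_unique h2 (tendsto_const_nhds.congr' ?_)
  filter_upwards [self_mem_nhdsWithin] with t ht
  exact (Nt_unit u hu ht).symm

theorem N0_neg_unit (u : V) (hu : ‖u‖ = 1) : N0 (-u) (fun v => max 0 ⟪v, u⟫_ℝ) = 1 := by
  have h2 := Nt_tendsto (sl_max sl_zero (sl_inner u)) (-u)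
  refine tendsto_nhds_unique h2 (tendsto_const_nhds.congr' ?_)
  filter_upwards [self_mem_nhdsWithin] with t ht
  rw [Nt_neg]
  exact (Nt_unit u hu ht).symm

theorem Lam_seg (S : Finset V) (u : V) (hu : ‖u‖ = 1) (huS : u ∈ S ∨ -u ∈ S) :
    Lam S (fun v => max 0 ⟪v, u⟫_ℝ) ≤ 0 := by
  have hsl := sl_max (V := V) sl_zero (sl_inner u)
  have h1 : 1 ≤ ∑ w ∈ S, N0 w (fun v => max 0 ⟪v, u⟫_ℝ) := by
    rcases huS with h | h
    · have := Finset.single_le_sum (f := fun w => N0 w (fun v => max 0 ⟪v, u⟫_ℝ))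
        (fun w _ => N0_nonneg hsl w) h
      simp only [N0_unit u hu] at this
      exact this
    · have := Finset.single_le_sum (f := fun w => N0 w (fun v => max 0 ⟪v, u⟫_ℝ))
        (fun w _ => N0_nonneg hsl w) h
      simp only [N0_neg_unit u hu] at this
      exact this
  unfold Lam
  rw [wd_unit u hu]
  have := mul_le_mul_of_nonneg_left h1 c0_pos.le
  linarith

/-- one representative on each line -/
theorem reps (D : Finset V) : ∃ S ⊆ D, (∀ u ∈ S, ∀ v ∈ S, u ≠ v → u ≠ -v) ∧
    ∀ d ∈ D, d ∈ S ∨ -d ∈ S := by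
  classical
  induction D using Finset.induction_on with
  | empty => exact ⟨∅, by simp, by simp, by simp⟩
  | insert a D ha ih =>
    obtain ⟨S, h1, h2, h3⟩ := ih
    by_cases h : a ∈ S ∨ -a ∈ S
    · refine ⟨S, h1.trans (Finset.subset_insert _ _), h2, fun d hd => ?_⟩
      rcases Finset.mem_insert.1 hd with rfl | hd
      · exact h
      · exact h3 d hd
    · push Not at h
      refine ⟨insert a S, Finset.insert_subset_insert _ h1, ?_, ?_⟩
      · intro u hu v hv huv huv'
        rcases Finset.mem_insert.1 hu with hu1 | hu1 <;> rcases Finset.mem_insert.1 hv with hv1 | hv1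
        · exact huv (hu1.trans hv1.symm)
        · apply h.2; rw [← hu1, huv']; simpa using hv1
        · apply h.2; rw [← hv1, ← huv']; exact hu1
        · exact h2 u hu1 v hv1 huv huv'
      · intro d hd
        rcases Finset.mem_insert.1 hd with rfl | hd
        · left; exact Finset.mem_insert_self _ _
        · rcases h3 d hd with h4 | h4
          · left; exact Finset.mem_insert_of_mem h4
          · right; exact Finset.mem_insert_of_mem h4

theorem hs_hull (P : Finset V) (hP : P.Nonempty) (v : V) :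
    (∃ p ∈ P, hs (hull P hP) v = ⟪v, p⟫_ℝ) ∧ ∀ p ∈ P, ⟪v, p⟫_ℝ ≤ hs (hull P hP) v := by
  obtain ⟨p, hp, hmax⟩ := P.exists_max_image (fun p => ⟪v, p⟫_ℝ) hP
  have hset : ((hull P hP : ConvexBody V) : Set V) = convexHull ℝ (P : Set V) := rfl
  have h1 : ∀ x ∈ convexHull ℝ (P : Set V), ⟪v, x⟫_ℝ ≤ ⟪v, p⟫_ℝ := by
    intro x hx
    have hsub : convexHull ℝ (P : Set V) ⊆ {x | ⟪v, x⟫_ℝ ≤ ⟪v, p⟫_ℝ} := by
      apply convexHull_min
      · intro q hq
        exact hmax q hq
      · exact (convex_halfSpace_le (f := fun x => ⟪v, x⟫_ℝ)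
          ⟨fun x y => inner_add_right _ _ _, fun c x => by simp [inner_smul_right]⟩ _)
    exact hsub hx
  have hgr : IsGreatest ((fun x => ⟪v, x⟫_ℝ) '' ((hull P hP : ConvexBody V) : Set V)) ⟪v, p⟫_ℝ := by
    rw [hset]
    constructor
    · exact ⟨p, subset_convexHull ℝ _ hp, rfl⟩
    · rintro _ ⟨x, hx, rfl⟩
      exact h1 x hx
  have h2 : hs (hull P hP) v = ⟪v, p⟫_ℝ := hgr.csSup_eq
  exact ⟨⟨p, hp, h2⟩, fun q hq => by rw [h2]; exact hmax q hq⟩

theorem sl_hull (P : Finset V) (hP : P.Nonempty) : Sublin (hs (hull P hP)) where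
  hom c v hc := by
    obtain ⟨⟨p, hp, h1⟩, h2⟩ := hs_hull P hP v
    obtain ⟨⟨q, hq, h3⟩, h4⟩ := hs_hull P hP (c • v)
    apply le_antisymm
    · rw [h3, inner_smul_left]
      exact mul_le_mul_of_nonneg_left (h2 q hq) hc
    · have := h4 p hp
      rw [inner_smul_left] at this
      rw [h1]; exact this
  sub v w := by
    obtain ⟨⟨q, hq, h3⟩, h4⟩ := hs_hull P hP (v + w)
    rw [h3, inner_add_left]
    exact add_le_add ((hs_hull P hP v).2 q hq) ((hs_hull P hP w).2 q hq)

/-- the zonotope -/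
noncomputable def Z (P : Finset V) (v : V) : ℝ := ∑ p ∈ P, ∑ q ∈ P, max ⟪v, p⟫_ℝ ⟪v, q⟫_ℝ

theorem sl_Z (P : Finset V) : Sublin (Z P) :=
  sl_sum P _ fun p _ => sl_sum P _ fun q _ => sl_max (sl_inner p) (sl_inner q)

theorem Z_erase [DecidableEq V] (P : Finset V) (p₀ : V) (h : p₀ ∈ P) (v : V) :
    Z P v = Z (P.erase p₀) v + 2 * ∑ q ∈ P.erase p₀, (max ⟪v, p₀⟫_ℝ ⟪v, q⟫_ℝ - ⟪v, p₀⟫_ℝ)
      + (2 * (P.erase p₀).card + 1) * ⟪v, p₀⟫_ℝ := by
  unfold Z
  rw [← Finset.add_sum_erase P _ h]
  have h1 : ∀ p, ∑ q ∈ P, max ⟪v, p⟫_ℝ ⟪v, q⟫_ℝ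
      = max ⟪v, p⟫_ℝ ⟪v, p₀⟫_ℝ + ∑ q ∈ P.erase p₀, max ⟪v, p⟫_ℝ ⟪v, q⟫_ℝ := fun p =>
    (Finset.add_sum_erase P _ h).symm
  simp_rw [h1]
  rw [Finset.sum_add_distrib, Finset.sum_sub_distrib, max_self, Finset.sum_const, nsmul_eq_mul]
  have h2 : ∑ x ∈ P.erase p₀, max ⟪v, x⟫_ℝ ⟪v, p₀⟫_ℝ = ∑ x ∈ P.erase p₀, max ⟪v, p₀⟫_ℝ ⟪v, x⟫_ℝ :=
    Finset.sum_congr rfl fun x _ => max_comm _ _
  rw [h2]
  ring

theorem rest_le [DecidableEq V] (P : Finset V) (hP : P.Nonempty) (p₀ : V) (h : p₀ ∈ P) (v : V) :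
    Z (P.erase p₀) v + (2 * (P.erase p₀).card - 1) * ⟪v, p₀⟫_ℝ ≤ Z P v - 2 * hs (hull P hP) v := by
  rw [Z_erase P p₀ h v]
  have h0 : ∀ q ∈ P.erase p₀, 0 ≤ max ⟪v, p₀⟫_ℝ ⟪v, q⟫_ℝ - ⟪v, p₀⟫_ℝ := fun q _ => by
    have := le_max_left ⟪v, p₀⟫_ℝ ⟪v, q⟫_ℝ; linarith
  have h1 : hs (hull P hP) v - ⟪v, p₀⟫_ℝ ≤ ∑ q ∈ P.erase p₀, (max ⟪v, p₀⟫_ℝ ⟪v, q⟫_ℝ - ⟪v, p₀⟫_ℝ) := by
    obtain ⟨⟨q, hq, hq2⟩, _⟩ := hs_hull P hP v
    by_cases hqp : q = p₀
    · rw [hq2, hqp, sub_self]; exact Finset.sum_nonneg h0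
    · have h3 := Finset.single_le_sum h0 (Finset.mem_erase.2 ⟨hqp, hq⟩)
      rw [hq2]
      have := le_max_right ⟪v, p₀⟫_ℝ ⟪v, q⟫_ℝ
      linarith
  linarith

theorem rest_eq [DecidableEq V] (P : Finset V) (hP : P.Nonempty) (p₀ : V) (h : p₀ ∈ P) (v : V)
    (hv : hs (hull P hP) v = ⟪v, p₀⟫_ℝ) :
    Z P v - 2 * hs (hull P hP) v = Z (P.erase p₀) v + (2 * (P.erase p₀).card - 1) * ⟪v, p₀⟫_ℝ := by
  rw [Z_erase P p₀ h v]
  have h0 : ∑ q ∈ P.erase p₀, (max ⟪v, p₀⟫_ℝ ⟪v, q⟫_ℝ - ⟪v, p₀⟫_ℝ) = 0 := by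
    apply Finset.sum_eq_zero
    intro q hq
    have := (hs_hull P hP v).2 q (Finset.mem_of_mem_erase hq)
    rw [hv] at this
    rw [max_eq_left this, sub_self]
  rw [h0, hv]
  ring

theorem sl_rest (P : Finset V) (hP : P.Nonempty) :
    Sublin (fun v => Z P v - 2 * hs (hull P hP) v) where
  hom c v hc := by rw [(sl_Z P).hom c v hc, (sl_hull P hP).hom c v hc]; ring
  sub v w := by
    classical
    obtain ⟨⟨p₀, h, hv⟩, _⟩ := hs_hull P hP (v + w)
    have h1 := rest_eq P hP p₀ h (v + w) hv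
    have h2 := rest_le P hP p₀ h v
    have h3 := rest_le P hP p₀ h w
    have h4 := (sl_Z (P.erase p₀)).sub v w
    rw [h1, inner_add_left]
    linarith

end MW

/-- equality for polytopes -/
theorem poly_N0_eq (P : Finset V) (hP : P.Nonempty) :
    ∃ S : Finset V, (∀ u ∈ S, ‖u‖ = 1) ∧ (∀ u ∈ S, ∀ v ∈ S, u ≠ v → u ≠ -v) ∧
      c0 * ∑ u ∈ S, N0 u (hs (hull P hP)) = wd (hs (hull P hP)) := by
  classical
  set D : Finset V := ((P ×ˢ P).filter (fun x => x.1 ≠ x.2)).image
    (fun x => (‖x.2 - x.1‖)⁻¹ • (x.2 - x.1)) with hD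
  obtain ⟨S, hSD, hS', hrep⟩ := MW.reps D
  have hS : ∀ u ∈ S, ‖u‖ = 1 := by
    intro u hu
    obtain ⟨x, hx, rfl⟩ := Finset.mem_image.1 (hSD hu)
    have hne : x.2 - x.1 ≠ 0 := sub_ne_zero.2 (Ne.symm (Finset.mem_filter.1 hx).2)
    rw [norm_smul, norm_inv, norm_norm, inv_mul_cancel₀ (norm_ne_zero_iff.2 hne)]
  refine ⟨S, hS, hS', ?_⟩
  have hseg : ∀ p ∈ P, ∀ q ∈ P, MW.Lam S (fun v => max ⟪v, p⟫_ℝ ⟪v, q⟫_ℝ) ≤ 0 := by
    intro p hp q hq
    by_cases hpq : p = q
    · subst hpq
      simp only [max_self]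
      exact (MW.Lam_inner S p).le
    · have hne : q - p ≠ 0 := sub_ne_zero.2 (Ne.symm hpq)
      have hn : 0 < ‖q - p‖ := norm_pos_iff.2 hne
      set u := (‖q - p‖)⁻¹ • (q - p) with hu
      have huD : u ∈ D := Finset.mem_image.2 ⟨(p, q), by simp [hp, hq, hpq], rfl⟩
      have hu1 : ‖u‖ = 1 := by
        rw [hu, norm_smul, norm_inv, norm_norm, inv_mul_cancel₀ hn.ne']
      have e : (fun v => max ⟪v, p⟫_ℝ ⟪v, q⟫_ℝ)
          = fun v => ⟪v, p⟫_ℝ + ‖q - p‖ * max 0 ⟪v, u⟫_ℝ := by
        funext v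
        rw [mul_max_of_nonneg _ _ hn.le, mul_zero, ← inner_smul_right, hu, smul_smul,
          mul_inv_cancel₀ hn.ne', one_smul, inner_sub_right]
        rcases le_total ⟪v, p⟫_ℝ ⟪v, q⟫_ℝ with h | h
        · rw [max_eq_right h, max_eq_right (by linarith)]; ring
        · rw [max_eq_left h, max_eq_left (by linarith)]; ring
      have hsl := MW.sl_max (V := V) MW.sl_zero (MW.sl_inner u)
      rw [e, MW.Lam_add S (MW.sl_inner p) (MW.sl_smul hsl hn.le), MW.Lam_inner,
        MW.Lam_smul S hsl hn.le, zero_add]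
      exact mul_nonpos_of_nonneg_of_nonpos hn.le (MW.Lam_seg S u hu1 (hrep u huD))
  have hZ : MW.Lam S (MW.Z P) ≤ 0 := by
    unfold MW.Z
    rw [MW.Lam_sum S P _ fun p _ => MW.sl_sum P _ fun q _ =>
      MW.sl_max (MW.sl_inner p) (MW.sl_inner q)]
    refine Finset.sum_nonpos fun p hp => ?_
    rw [MW.Lam_sum S P _ fun q _ => MW.sl_max (MW.sl_inner p) (MW.sl_inner q)]
    exact Finset.sum_nonpos fun q hq => hseg p hp q hq
  have e : MW.Z P = fun v => (fun v => 2 * hs (hull P hP) v) v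
      + (fun v => MW.Z P v - 2 * hs (hull P hP) v) v := by
    funext v; simp only; ring
  rw [e, MW.Lam_add S (MW.sl_smul (MW.sl_hull P hP) (by norm_num)) (MW.sl_rest P hP),
    MW.Lam_smul S (MW.sl_hull P hP) (by norm_num)] at hZ
  have h1 := MW.Lam_nonneg S hS hS' (MW.sl_rest P hP)
  have h2 := MW.Lam_nonneg S hS hS' (MW.sl_hull P hP)
  have h3 : MW.Lam S (hs (hull P hP)) = 0 := by linarith
  unfold MW.Lam at h3
  linarith

namespace MW

attribute [local irreducible] G dd

theorem growth (g : V → ℝ) (hc : Continuous g)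
    (hom : ∀ (c : ℝ) (v : V), 0 ≤ c → g (c • v) = c * g v) :
    ∃ C : ℝ, 0 ≤ C ∧ ∀ v, |g v| ≤ C * ‖v‖ := by
  obtain ⟨C, hC⟩ := (isCompact_sphere (0 : V) 1).exists_bound_of_continuousOn hc.continuousOn
  refine ⟨max C 0, le_max_right _ _, fun v => ?_⟩
  by_cases hv : v = 0
  · subst hv
    have := hom 0 0 le_rfl
    rw [zero_smul, zero_mul] at this
    rw [this]; simp
  · have hn : 0 < ‖v‖ := norm_pos_iff.2 hv
    have h1 : g v = ‖v‖ * g ((‖v‖)⁻¹ • v) := by
      rw [← hom _ _ hn.le, smul_smul, mul_inv_cancel₀ hn.ne', one_smul]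
    have h2 := hC ((‖v‖)⁻¹ • v) (by
      rw [mem_sphere_zero_iff_norm, norm_smul, norm_inv, norm_norm, inv_mul_cancel₀ hn.ne'])
    rw [h1, abs_mul, abs_of_pos hn, mul_comm]
    exact mul_le_mul_of_nonneg_right (h2.trans (le_max_left _ _)) hn.le

theorem integrable_lin (f : V → ℝ) (hf : Continuous f) (C : ℝ)
    (hC : ∀ x, |f x| ≤ C * (1 + ‖x‖)) : Integrable f (stdGaussian V) := by
  have h1 := gauss_norm_int (V := V) 1 zero_le_one
  simp only [Real.rpow_one] at h1
  have h2 : Integrable (fun x : V => C * (1 + ‖x‖)) (stdGaussian V) :=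
    ((integrable_const 1).add h1).const_mul C
  refine h2.mono' hf.aestronglyMeasurable (Eventually.of_forall fun x => ?_)
  rw [Real.norm_eq_abs]
  exact hC x

theorem prj_norm_le (u z : V) (hu : ‖u‖ = 1) : ‖prj u z‖ ≤ 2 * ‖z‖ := by
  unfold prj
  rw [hu]
  have h1 : ‖(⟪u, z⟫_ℝ / 1 ^ 2) • u‖ ≤ ‖z‖ := by
    rw [norm_smul, hu, mul_one, one_pow, div_one, Real.norm_eq_abs]
    have := abs_real_inner_le_norm u z
    rw [hu, one_mul] at this
    exact this
  have := norm_sub_le z ((⟪u, z⟫_ℝ / 1 ^ 2) • u)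
  linarith

theorem prj_neg_left (u z : V) : prj (-u) z = prj u z := by
  unfold prj
  rw [norm_neg, inner_neg_left]
  module

theorem prj_decomp (u v : V) (hu : ‖u‖ = 1) : prj u v + ⟪u, v⟫_ℝ • u = v := by
  unfold prj
  rw [hu]; simp

theorem half_linear0 (u : V) (hu : ‖u‖ = 1) (g : V → ℝ) (hc : Continuous g)
    (hom : ∀ (c : ℝ) (v : V), 0 ≤ c → g (c • v) = c * g v)
    (h1 : ∀ v w : V, 0 ≤ ⟪u, v⟫_ℝ → 0 ≤ ⟪u, w⟫_ℝ → g (v + w) ≤ g v + g w)
    (h2 : ∀ v w : V, ⟪u, v⟫_ℝ ≤ 0 → ⟪u, w⟫_ℝ ≤ 0 → g (v + w) ≤ g v + g w)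
    (hw : wd g = 0) (hN : Tendsto (fun t => Nt t u g) (𝓝[>] (0 : ℝ)) (𝓝 0)) :
    ∃ p : V, ∀ v, g v = ⟪p, v⟫_ℝ := by
  obtain ⟨C, hC0, hC⟩ := growth g hc hom
  have hpc := prj_cont u
  have hpi : ∀ z : V, ⟪u, prj u z⟫_ℝ = 0 := fun z => by rw [real_inner_comm]; exact prj_inner u z hu
  have huu : ⟪u, u⟫_ℝ = 1 := by rw [real_inner_self_eq_norm_sq, hu]; norm_num
  have hg0 : g 0 = 0 := by have := hom 0 0 le_rfl; rwa [zero_smul, zero_mul] at this
  -- integrability
  have hgi : Integrable g (stdGaussian V) := integrable_lin g hc C fun x => by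
    have := hC x; have := norm_nonneg x; nlinarith
  have hti : ∀ t : ℝ, Integrable (fun z => g (prj u z + t • u)) (stdGaussian V) := by
    intro t
    refine integrable_lin _ (by fun_prop) (C * (2 + |t|)) fun x => ?_
    have a1 := hC (prj u x + t • u)
    have a2 : ‖prj u x + t • u‖ ≤ 2 * ‖x‖ + |t| := by
      refine (norm_add_le _ _).trans (add_le_add (prj_norm_le u x hu) ?_)
      rw [norm_smul, hu, mul_one, Real.norm_eq_abs]
    have a3 : 2 * ‖x‖ + |t| ≤ (2 + |t|) * (1 + ‖x‖) := by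
      have := norm_nonneg x; have := abs_nonneg t; nlinarith
    calc |g (prj u x + t • u)| ≤ C * ‖prj u x + t • u‖ := a1
      _ ≤ C * ((2 + |t|) * (1 + ‖x‖)) := mul_le_mul_of_nonneg_left (a2.trans a3) hC0
      _ = _ := by ring
  have hti' : ∀ t : ℝ, Integrable (fun z => g (prj u z - t • u)) (stdGaussian V) := by
    intro t
    have := hti (-t)
    simpa [sub_eq_add_neg, neg_smul] using this
  have hpi0 : Integrable (fun z => g (prj u z)) (stdGaussian V) := by
    simpa using hti 0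
  set q : ℝ → V → ℝ := fun t z => g (prj u z + t • u) + g (prj u z - t • u) - 2 * g (prj u z) with hq
  have hqi : ∀ t, Integrable (q t) (stdGaussian V) := fun t =>
    ((hti t).add (hti' t)).sub (hpi0.const_mul 2)
  set A : ℝ → ℝ := fun t => ∫ z, q t z ∂(stdGaussian V) with hA
  have hNA : ∀ t, Nt t u g = (1 / t) * A t := fun t => rfl
  -- monotonicity of slopes
  have m1 : ∀ (z : V) (t s : ℝ), 0 ≤ t → t ≤ s →
      s * (g (prj u z + t • u) - g (prj u z)) ≤ t * (g (prj u z + s • u) - g (prj u z)) := by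
    intro z t s ht hts
    have a := h1 (t • (prj u z + s • u)) ((s - t) • prj u z)
      (by rw [inner_smul_right, inner_add_right, hpi, inner_smul_right, huu]
          have := mul_nonneg ht (ht.trans hts); linarith)
      (by rw [inner_smul_right, hpi]; simp)
    rw [show t • (prj u z + s • u) + (s - t) • prj u z = s • (prj u z + t • u) by module,
      hom t _ ht, hom (s - t) _ (by linarith), hom s _ (ht.trans hts)] at a
    linarith
  have m2 : ∀ (z : V) (t s : ℝ), 0 ≤ t → t ≤ s →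
      s * (g (prj u z - t • u) - g (prj u z)) ≤ t * (g (prj u z - s • u) - g (prj u z)) := by
    intro z t s ht hts
    have a := h2 (t • (prj u z - s • u)) ((s - t) • prj u z)
      (by rw [inner_smul_right, inner_sub_right, hpi, inner_smul_right, huu]
          have := mul_nonneg ht (ht.trans hts); linarith)
      (by rw [inner_smul_right, hpi]; simp)
    rw [show t • (prj u z - s • u) + (s - t) • prj u z = s • (prj u z - t • u) by module,
      hom t _ ht, hom (s - t) _ (by linarith), hom s _ (ht.trans hts)] at a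
    linarith
  have m3 : ∀ (z : V) (t s : ℝ), 0 ≤ t → t ≤ s → s * q t z ≤ t * q s z := by
    intro z t s ht hts
    have := m1 z t s ht hts
    have := m2 z t s ht hts
    simp only [hq]; linarith
  have m4 : ∀ t s : ℝ, 0 ≤ t → t ≤ s → s * A t ≤ t * A s := by
    intro t s ht hts
    simp only [hA]
    rw [← integral_const_mul, ← integral_const_mul]
    exact integral_mono ((hqi t).const_mul _) ((hqi s).const_mul _) fun z => m3 z t s ht hts
  have hAeven : ∀ t, A (-t) = A t := by
    intro t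
    simp only [hA, hq]
    refine integral_congr_ae (Eventually.of_forall fun z => ?_)
    simp only [neg_smul, sub_neg_eq_add, ← sub_eq_add_neg]
    ring
  have hA0 : ∀ s, 0 < s → 0 ≤ A s := by
    intro s hs
    have h3 : Tendsto (fun t => s * Nt t u g) (𝓝[>] (0 : ℝ)) (𝓝 (s * 0)) := hN.const_mul s
    rw [mul_zero] at h3
    refine le_of_tendsto h3 ?_
    have : Ioc (0 : ℝ) s ∈ 𝓝[>] (0 : ℝ) := Ioc_mem_nhdsGT hs
    filter_upwards [this] with t ht
    have := m4 t s ht.1.le ht.2
    rw [hNA]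
    have ht1 := ht.1
    have e : s * (1 / t * A t) = (s * A t) / t := by field_simp
    rw [e, div_le_iff₀ ht1]
    linarith
  have hA1 : ∀ s, 0 ≤ A s := by
    intro s
    rcases lt_trichotomy s 0 with h | h | h
    · rw [← hAeven]; exact hA0 _ (by linarith)
    · subst h
      simp only [hA, hq]
      apply integral_nonneg
      intro z
      simp only [zero_smul, add_zero, sub_zero, Pi.zero_apply]
      linarith
    · exact hA0 s h
  -- splitting
  have hspl : ∀ w : V, ‖w‖ = 1 → Integrable (fun p : ℝ × V => g (p.1 • w + prj w p.2))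
      ((gaussianReal 0 1).prod (stdGaussian V)) ∧
      ∫ p : ℝ × V, g (p.1 • w + prj w p.2) ∂((gaussianReal 0 1).prod (stdGaussian V)) = wd g := by
    intro w hw1
    have hpw := prj_cont w
    have hm : Measurable (fun p : ℝ × V => p.1 • w + prj w p.2) :=
      Continuous.measurable (by fun_prop)
    have h := gauss_split w hw1
    constructor
    · have h3 := hgi
      rw [← h] at h3
      exact (integrable_map_measure hc.aestronglyMeasurable hm.aemeasurable).1 h3
    · unfold wd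
      conv_rhs => rw [← h]
      rw [integral_map hm.aemeasurable hc.aestronglyMeasurable]
  obtain ⟨i1, e1⟩ := hspl u hu
  obtain ⟨i2, e2⟩ := hspl (-u) (by rw [norm_neg, hu])
  have hsnd : ((gaussianReal 0 1).prod (stdGaussian V)).map Prod.snd = stdGaussian V := by
    rw [Measure.map_snd_prod, measure_univ, one_smul]
  have hgp : Continuous (fun z => g (prj u z)) := by fun_prop
  have i3 : Integrable (fun p : ℝ × V => g (prj u p.2)) ((gaussianReal 0 1).prod (stdGaussian V)) := by
    have h3 := hpi0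
    rw [← hsnd] at h3
    exact (integrable_map_measure hgp.aestronglyMeasurable measurable_snd.aemeasurable).1 h3
  have e3 : ∫ p : ℝ × V, g (prj u p.2) ∂((gaussianReal 0 1).prod (stdGaussian V))
      = ∫ z, g (prj u z) ∂(stdGaussian V) := by
    conv_rhs => rw [← hsnd]
    rw [integral_map measurable_snd.aemeasurable hgp.aestronglyMeasurable]
  set B : ℝ := ∫ z, g (prj u z) ∂(stdGaussian V) with hB
  have i4 : Integrable (fun p : ℝ × V => q p.1 p.2) ((gaussianReal 0 1).prod (stdGaussian V)) := by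
    have h3 := (i1.add i2).sub (i3.const_mul 2)
    refine h3.congr (Eventually.of_forall fun p => ?_)
    simp only [hq, Pi.add_apply, Pi.sub_apply]
    rw [prj_neg_left, smul_neg, add_comm (p.1 • u), add_comm (-(p.1 • u)), ← sub_eq_add_neg]
  have e4 : ∫ p : ℝ × V, q p.1 p.2 ∂((gaussianReal 0 1).prod (stdGaussian V)) = -2 * B := by
    have h3 : ∀ p : ℝ × V, q p.1 p.2 = (g (p.1 • u + prj u p.2) + g (p.1 • (-u) + prj (-u) p.2))
        - 2 * g (prj u p.2) := by
      intro p
      simp only [hq]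
      rw [prj_neg_left, smul_neg, add_comm (p.1 • u), add_comm (-(p.1 • u)), ← sub_eq_add_neg]
    simp_rw [h3]
    have i12 : Integrable (fun p : ℝ × V => g (p.1 • u + prj u p.2) + g (p.1 • (-u) + prj (-u) p.2))
      ((gaussianReal 0 1).prod (stdGaussian V)) := i1.add i2
    rw [integral_sub i12 (i3.const_mul 2), integral_add i1 i2, e1, e2, integral_const_mul, e3, hw]
    ring
  have e5 : ∫ s, A s ∂(gaussianReal 0 1) = -2 * B := by
    rw [← e4, integral_prod _ i4]
  -- B is nonnegative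
  have hodd0 : ∀ z, 0 ≤ g (prj u z) + g (prj u (-z)) := by
    intro z
    have h3 : prj u (-z) = - prj u z := by
      have := prj_smul u z (-1)
      rwa [neg_one_smul, neg_one_smul] at this
    have h4 := h1 (prj u z) (- prj u z) (by rw [hpi]) (by rw [inner_neg_right, hpi]; simp)
    rw [add_neg_cancel, hg0] at h4
    rw [h3]; exact h4
  have hpin : Integrable (fun z => g (prj u (-z))) (stdGaussian V) :=
    mp_neg.integrable_comp_of_integrable hpi0
  have hB2 : ∫ z, (g (prj u z) + g (prj u (-z))) ∂(stdGaussian V) = 2 * B := by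
    rw [integral_add hpi0 hpin, int_neg (fun z => g (prj u z)), hB]; ring
  have hB0 : 0 ≤ B := by
    have : 0 ≤ ∫ z, (g (prj u z) + g (prj u (-z))) ∂(stdGaussian V) := integral_nonneg hodd0
    linarith
  have hAint : 0 ≤ ∫ s, A s ∂(gaussianReal 0 1) := integral_nonneg hA1
  have hBz : B = 0 := by linarith
  have hAz : ∫ s, A s ∂(gaussianReal 0 1) = 0 := by rw [e5, hBz]; ring
  have hAae : ∀ᵐ s ∂(gaussianReal 0 1), A s = 0 := by
    have := (integral_eq_zero_iff_of_nonneg hA1 i4.integral_prod_left).1 hAz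
    exact this
  have hA2 : ∀ t, 0 < t → A t = 0 := by
    intro t ht
    have h3 : ∃ s, t < s ∧ A s = 0 := by
      by_contra hcon
      push Not at hcon
      have h4 : (gaussianReal 0 1) (Ioi t) = 0 := by
        rw [ae_iff] at hAae
        exact measure_mono_null (fun s hs => hcon s hs) hAae
      have h5 := (gaussianReal_absolutelyContinuous' 0 (one_ne_zero : (1 : ℝ≥0) ≠ 0)) h4
      rw [Real.volume_Ioi] at h5
      exact ENNReal.top_ne_zero h5
    obtain ⟨s, hs, hs2⟩ := h3
    have h4 := m4 t s ht.le hs.le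
    rw [hs2, mul_zero] at h4
    have h5 := hA1 t
    nlinarith
  -- pointwise equality
  have hcq : ∀ t, Continuous (q t) := fun t => by simp only [hq]; fun_prop
  have p1 : ∀ (t s : ℝ), 0 < t → t ≤ s → ∀ z, t * q s z - s * q t z = 0 := by
    intro t s ht hts
    have hs : 0 < s := ht.trans_le hts
    refine eq_zero_of_int (f := fun z => t * q s z - s * q t z)
      ((continuous_const.mul (hcq s)).sub (continuous_const.mul (hcq t)))
      (fun z => by have := m3 z t s ht.le hts; linarith)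
      (((hqi s).const_mul _).sub ((hqi t).const_mul _)) ?_
    rw [integral_sub ((hqi s).const_mul _) ((hqi t).const_mul _), integral_const_mul,
      integral_const_mul]
    have a1 := hA2 t ht
    have a2 := hA2 s hs
    simp only [hA] at a1 a2
    rw [a1, a2]; ring
  have hlim : ∀ (w z : V) (t : ℝ), 0 < t →
      (∀ s, t ≤ s → s * (g (prj u z + t • w) - g (prj u z)) = t * (g (prj u z + s • w) - g (prj u z))) →
      g (prj u z + t • w) = g (prj u z) + t * g w := by
    intro w z t ht hs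
    have h3 : Tendsto (fun s : ℝ => t * (g (s⁻¹ • prj u z + w) - s⁻¹ * g (prj u z))) atTop
        (𝓝 (t * (g ((0:ℝ) • prj u z + w) - 0 * g (prj u z)))) := by
      have h4 : Tendsto (fun s : ℝ => s⁻¹) atTop (𝓝 0) := tendsto_inv_atTop_zero
      have h5 : Tendsto (fun s : ℝ => s⁻¹ • prj u z + w) atTop (𝓝 ((0:ℝ) • prj u z + w)) :=
        (h4.smul_const _).add_const _
      exact (((hc.tendsto _).comp h5).sub (h4.mul_const _)).const_mul _
    have h6 : Tendsto (fun s : ℝ => t * (g (s⁻¹ • prj u z + w) - s⁻¹ * g (prj u z))) atTop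
        (𝓝 (g (prj u z + t • w) - g (prj u z))) := by
      refine tendsto_const_nhds.congr' ?_
      filter_upwards [eventually_ge_atTop t] with s hs1
      have hs0 : 0 < s := ht.trans_le hs1
      have h7 := hs s hs1
      have h8 : g (prj u z + s • w) = s * g (s⁻¹ • prj u z + w) := by
        rw [← hom s _ hs0.le, smul_add, smul_smul, mul_inv_cancel₀ hs0.ne', one_smul]
      rw [h8] at h7
      have h9 : s * (t * (g (s⁻¹ • prj u z + w) - s⁻¹ * g (prj u z)))
          = t * (s * g (s⁻¹ • prj u z + w) - g (prj u z)) := by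
        field_simp
      rw [← h7] at h9
      exact (mul_left_cancel₀ hs0.ne' h9).symm
    have h7 := tendsto_nhds_unique h3 h6
    rw [zero_smul, zero_add, zero_mul, sub_zero] at h7
    linarith
  have r1 : ∀ (z : V) (t : ℝ), 0 < t → g (prj u z + t • u) = g (prj u z) + t * g u := by
    intro z t ht
    refine hlim u z t ht fun s hs => ?_
    have a1 := p1 t s ht hs z
    have a2 := m1 z t s ht.le hs
    have a3 := m2 z t s ht.le hs
    simp only [hq] at a1
    linarith
  have r2 : ∀ (z : V) (t : ℝ), 0 < t → g (prj u z - t • u) = g (prj u z) + t * g (-u) := by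
    intro z t ht
    have h3 : ∀ s : ℝ, prj u z - s • u = prj u z + s • (-u) := fun s => by module
    rw [h3]
    refine hlim (-u) z t ht fun s hs => ?_
    rw [← h3, ← h3]
    have a1 := p1 t s ht hs z
    have a2 := m1 z t s ht.le hs
    have a3 := m2 z t s ht.le hs
    simp only [hq] at a1
    linarith
  have r3 : g (-u) = - g u := by
    have a1 := hA2 1 one_pos
    have a2 : ∀ z, q 1 z = g u + g (-u) := by
      intro z
      simp only [hq]
      rw [r1 z 1 one_pos, r2 z 1 one_pos]; ring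
    simp only [hA, a2] at a1
    rw [integral_const] at a1
    simp at a1
    linarith
  have r4 : ∀ v, g v = g (prj u v) + ⟪u, v⟫_ℝ * g u := by
    intro v
    have h3 := prj_decomp u v hu
    rcases lt_trichotomy ⟪u, v⟫_ℝ 0 with h | h | h
    · have := r2 v (-⟪u, v⟫_ℝ) (by linarith)
      rw [neg_smul, sub_neg_eq_add, h3, r3] at this
      rw [this]; ring
    · rw [h, zero_smul, add_zero] at h3
      rw [h, h3]; ring
    · have := r1 v ⟪u, v⟫_ℝ h
      rwa [h3] at this
  have hodd : ∀ z, g (prj u z) + g (prj u (-z)) = 0 :=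
    eq_zero_of_int (f := fun z => g (prj u z) + g (prj u (-z))) (by fun_prop) hodd0
      (hpi0.add hpin) (by rw [hB2, hBz]; ring)
  have hsl : Sublin g := by
    refine ⟨hom, fun v w => ?_⟩
    rw [r4 (v + w), r4 v, r4 w, prj_add, inner_add_right]
    have := h1 (prj u v) (prj u w) (by rw [hpi]) (by rw [hpi])
    linarith
  refine linear_of_odd hsl fun v => ?_
  rw [r4 (-v), r4 v, inner_neg_right]
  have := hodd v
  linarith

end MW

/-- half space rigidity -/
theorem half_linear (u : V) (hu : ‖u‖ = 1) (g : V → ℝ) (hc : Continuous g)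
    (hom : ∀ (c : ℝ) (v : V), 0 ≤ c → g (c • v) = c * g v)
    (h1 : ∀ v w : V, 0 ≤ ⟪u, v⟫_ℝ → 0 ≤ ⟪u, w⟫_ℝ → g (v + w) ≤ g v + g w)
    (h2 : ∀ v w : V, ⟪u, v⟫_ℝ ≤ 0 → ⟪u, w⟫_ℝ ≤ 0 → g (v + w) ≤ g v + g w)
    (κ : ℝ) (hw : wd g = c0 * κ) (hN : Tendsto (fun t => Nt t u g) (𝓝[>] (0 : ℝ)) (𝓝 κ)) :
    ∃ p : V, ∀ v, g v = ⟪p, v⟫_ℝ + κ * max 0 ⟪u, v⟫_ℝ := by
  obtain ⟨C, hC0, hC⟩ := MW.growth g hc hom
  have hgi : Integrable g (stdGaussian V) := MW.integrable_lin g hc C fun x => by
    have := hC x; have := norm_nonneg x; nlinarith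
  have hslu : Sublin (fun v : V => max 0 ⟪v, u⟫_ℝ) := MW.sl_max MW.sl_zero (MW.sl_inner u)
  have hcomm : ∀ v : V, ⟪u, v⟫_ℝ = ⟪v, u⟫_ℝ := fun v => real_inner_comm v u
  have key := MW.half_linear0 u hu (fun v => g v - κ * max 0 ⟪v, u⟫_ℝ) (by fun_prop) ?_ ?_ ?_ ?_ ?_
  · obtain ⟨p, hp⟩ := key
    refine ⟨p, fun v => ?_⟩
    have := hp v
    rw [hcomm v]
    linarith
  · intro c v hc1
    rw [hom c v hc1, hslu.hom c v hc1]; ring
  · intro v w hv hw1
    have := h1 v w hv hw1
    rw [hcomm] at hv hw1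
    rw [inner_add_left, max_eq_right hv, max_eq_right hw1, max_eq_right (add_nonneg hv hw1)]
    linarith
  · intro v w hv hw1
    have := h2 v w hv hw1
    rw [hcomm] at hv hw1
    rw [inner_add_left, max_eq_left hv, max_eq_left hw1, max_eq_left (add_nonpos hv hw1)]
    linarith
  · unfold wd at hw ⊢
    rw [integral_sub hgi (hslu.integrable.const_mul κ), integral_const_mul, hw]
    have := wd_unit u hu
    unfold wd at this
    rw [this]; ring
  · have h3 : Tendsto (fun t => Nt t u g - κ) (𝓝[>] (0 : ℝ)) (𝓝 (κ - κ)) := hN.sub_const κ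
    rw [sub_self] at h3
    refine h3.congr' ?_
    filter_upwards [self_mem_nhdsWithin] with t ht
    have h4 := Nt_sum (V := V) (Finset.univ : Finset (Fin 2)) ![1, -κ]
      ![g, fun v => max 0 ⟪v, u⟫_ℝ] ?_ (max C 1) ?_ t u
    · rw [Fin.sum_univ_two] at h4
      simp only [Fin.sum_univ_two, Matrix.cons_val_zero, Matrix.cons_val_one] at h4
      rw [Nt_unit u hu ht] at h4
      have h5 : (fun v => g v - κ * max 0 ⟪v, u⟫_ℝ) = fun v => 1 * g v + -κ * max 0 ⟪v, u⟫_ℝ := by
        funext v; ring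
      rw [h5, h4]; ring
    · intro i _
      fin_cases i
      · exact hc
      · change Continuous (fun v : V => max 0 ⟪v, u⟫_ℝ)
        fun_prop
    · intro i _ x
      have hx := norm_nonneg x
      have hm1 : C ≤ max C 1 := le_max_left _ _
      have hm2 : 1 ≤ max C 1 := le_max_right _ _
      fin_cases i
      · have := hC x
        simp only [Fin.zero_eta, Matrix.cons_val_zero]
        nlinarith
      · change |max 0 ⟪x, u⟫_ℝ| ≤ max C 1 * (1 + ‖x‖)
        have h6 : |⟪x, u⟫_ℝ| ≤ ‖x‖ := by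
          have := abs_real_inner_le_norm x u
          rwa [hu, mul_one] at this
        have h7 : |max 0 ⟪x, u⟫_ℝ| ≤ ‖x‖ := by
          rw [abs_of_nonneg (le_max_left _ _)]
          exact max_le hx ((le_abs_self _).trans h6)
        nlinarith

end MV
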