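import Pool.Agent.Lib.MP_f30071_gt.Basic

/-! The Steiner point of a convex body, by integration over the unit ball. -/

open MeasureTheory Set Filter Topology
open scoped InnerProductSpace Pointwise ENNReal

set_option linter.unusedSectionVars false

namespace MV

section
variable {V : Type*} [NormedAddCommGroup V] [InnerProductSpace ℝ V] [FiniteDimensional ℝ V]
  [MeasurableSpace V] [BorelSpace V]

/-- Steiner point -/
noncomputable def stn (K : ConvexBody V) : V :=
  (((Module.finrank ℝ V : ℝ) + 2) / ((volume : Measure V) (Metric.ball (0 : V) 1)).toReal) •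
    ∫ x in Metric.ball (0 : V) 1, hs K x • x

theorem integrableOn_ball {E : Type*} [NormedAddCommGroup E] {f : V → E} (hf : Continuous f) :
    IntegrableOn f (Metric.ball (0 : V) 1) volume :=
  (hf.continuousOn.integrableOn_compact (isCompact_closedBall (0 : V) 1)).mono_set
    Metric.ball_subset_closedBall

theorem stn_int (K : ConvexBody V) :
    IntegrableOn (fun x => hs K x • x) (Metric.ball (0 : V) 1) volume :=
  integrableOn_ball ((continuous_hs_right K).smul continuous_id)

theorem stn_add (K L : ConvexBody V) : stn (K + L) = stn K + stn L := by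
  unfold stn
  rw [← smul_add, ← integral_add (stn_int K) (stn_int L)]
  congr 1
  apply integral_congr_ae
  filter_upwards with x
  rw [hs_add, add_smul]

theorem stn_smul {c : ℝ} (hc : 0 ≤ c) (K : ConvexBody V) : stn (c • K) = c • stn K := by
  unfold stn
  rw [smul_comm c]
  congr 1
  rw [← integral_smul]
  apply integral_congr_ae
  filter_upwards with x
  rw [hs_smul hc, smul_smul]

theorem volBall_pos : 0 < ((volume : Measure V) (Metric.ball (0 : V) 1)).toReal :=
  ENNReal.toReal_pos (Metric.measure_ball_pos _ _ one_pos).ne' measure_ball_lt_top.ne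

theorem stn_dist (K L : ConvexBody V) :
    ‖stn K - stn L‖ ≤ ((Module.finrank ℝ V : ℝ) + 2) * dist K L := by
  unfold stn
  rw [← smul_sub, ← integral_sub (stn_int K) (stn_int L), norm_smul]
  have h1 : ‖∫ x in Metric.ball (0 : V) 1, (hs K x • x - hs L x • x)‖ ≤
      dist K L * ((volume : Measure V) (Metric.ball (0 : V) 1)).toReal := by
    apply norm_setIntegral_le_of_norm_le_const measure_ball_lt_top
    intro x hx
    have hx1 : ‖x‖ < 1 := by simpa using hx
    rw [← sub_smul, norm_smul, Real.norm_eq_abs]
    have h2 := abs_hs_sub_le K L x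
    have h3 : dist K L * ‖x‖ ≤ dist K L := by
      have := dist_nonneg (x := K) (y := L)
      nlinarith
    have h4 : 0 ≤ |hs K x - hs L x| := abs_nonneg _
    nlinarith [norm_nonneg x]
  have hv := volBall_pos (V := V)
  rw [Real.norm_of_nonneg (by positivity)]
  calc _ ≤ (((Module.finrank ℝ V : ℝ) + 2) / ((volume : Measure V) (Metric.ball (0 : V) 1)).toReal) *
      (dist K L * ((volume : Measure V) (Metric.ball (0 : V) 1)).toReal) :=
        mul_le_mul_of_nonneg_left h1 (by positivity)
    _ = _ := by field_simp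

theorem continuous_stn : Continuous (stn : ConvexBody V → V) := by
  have : LipschitzWith ((Module.finrank ℝ V : NNReal) + 2) (stn : ConvexBody V → V) := by
    apply LipschitzWith.of_dist_le_mul
    intro K L
    rw [dist_eq_norm]
    exact_mod_cast stn_dist K L
  exact this.continuous

theorem stn_isoB (g : V ≃ₗᵢ[ℝ] V) (K : ConvexBody V) : stn (isoB g K) = g (stn K) := by
  unfold stn
  rw [map_smul]
  congr 1
  have h1 := g.measurePreserving
  have h2 : (g : V → V) ⁻¹' (Metric.ball (0 : V) 1) = Metric.ball (0 : V) 1 := by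
    ext x; simp
  have h3 := h1.setIntegral_preimage_emb g.toHomeomorph.measurableEmbedding
    (fun x => hs (isoB g K) x • x) (Metric.ball (0 : V) 1)
  rw [h2] at h3
  have h4 : g (∫ x in Metric.ball (0 : V) 1, hs K x • x) =
      ∫ x in Metric.ball (0 : V) 1, g (hs K x • x) :=
    (g.toContinuousLinearEquiv.integral_comp_comm (fun x => hs K x • x)).symm
  rw [h4, ← h3]
  apply integral_congr_ae
  filter_upwards with x
  simp [hs_isoB]

/-- second moments of the unit ball -/
noncomputable def bmom (x y : V) : ℝ := ∫ v in Metric.ball (0 : V) 1, ⟪v, x⟫_ℝ * ⟪v, y⟫_ℝ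

theorem bmom_int (x y : V) :
    IntegrableOn (fun v => ⟪v, x⟫_ℝ * ⟪v, y⟫_ℝ) (Metric.ball (0 : V) 1) volume :=
  integrableOn_ball (by fun_prop)

theorem bmom_iso (g : V ≃ₗᵢ[ℝ] V) (x : V) : bmom (g x) (g x) = bmom x x := by
  unfold bmom
  have h1 := g.measurePreserving
  have h2 : (g : V → V) ⁻¹' (Metric.ball (0 : V) 1) = Metric.ball (0 : V) 1 := by
    ext x; simp
  have h3 := h1.setIntegral_preimage_emb g.toHomeomorph.measurableEmbedding
    (fun v => ⟪v, g x⟫_ℝ * ⟪v, g x⟫_ℝ) (Metric.ball (0 : V) 1)
  rw [h2] at h3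
  rw [← h3]
  apply integral_congr_ae
  filter_upwards with v
  simp

theorem bmom_smul (c : ℝ) (x : V) : bmom (c • x) (c • x) = c ^ 2 * bmom x x := by
  unfold bmom
  rw [← integral_const_mul]
  apply integral_congr_ae
  filter_upwards with v
  rw [real_inner_smul_right]; ring

theorem bmom_self (x y : V) (h : ‖x‖ = ‖y‖) : bmom x x = bmom y y := by
  have h1 := Submodule.reflection_sub h
  rw [← h1, bmom_iso]

theorem bmom_norm (x y : V) (hy : ‖y‖ = 1) : bmom x x = ‖x‖ ^ 2 * bmom y y := by
  rw [← bmom_smul]
  apply bmom_self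
  rw [norm_smul, hy]; simp

theorem norm_sq_ball (hn : 0 < Module.finrank ℝ V) :
    ∫ v in Metric.ball (0 : V) 1, ‖v‖ ^ 2 =
      (Module.finrank ℝ V : ℝ) / ((Module.finrank ℝ V : ℝ) + 2) *
        ((volume : Measure V) (Metric.ball (0 : V) 1)).toReal := by
  have : Nontrivial V := Module.nontrivial_of_finrank_pos hn
  have h1 := integral_fun_norm_addHaar (volume : Measure V)
    (fun r : ℝ => if r < 1 then r ^ 2 else 0)
  have h2 : ∫ v : V, (if ‖v‖ < 1 then ‖v‖ ^ 2 else 0) = ∫ v in Metric.ball (0 : V) 1, ‖v‖ ^ 2 := by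
    rw [← integral_indicator Metric.isOpen_ball.measurableSet]
    apply integral_congr_ae
    filter_upwards with v
    by_cases hv : ‖v‖ < 1
    · simp [Set.indicator_apply, hv]
    · simp [Set.indicator_apply, hv]
  have h3 : ∫ y in Ioi (0 : ℝ), y ^ (Module.finrank ℝ V - 1) • (if y < 1 then y ^ 2 else 0) =
      1 / ((Module.finrank ℝ V : ℝ) + 2) := by
    have h4 : ∫ y in Ioi (0 : ℝ), y ^ (Module.finrank ℝ V - 1) • (if y < 1 then y ^ 2 else 0) =
        ∫ y in Ioo (0 : ℝ) 1, y ^ (Module.finrank ℝ V + 1) := by
      rw [← integral_indicator measurableSet_Ioi, ← integral_indicator measurableSet_Ioo]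
      apply integral_congr_ae
      filter_upwards with y
      by_cases h0 : 0 < y
      · by_cases h1 : y < 1
        · simp [Set.indicator_apply, h0, h1]
          rw [← pow_add]; congr 1; omega
        · simp [Set.indicator_apply, h0, h1]
      · simp [Set.indicator_apply, h0]
    rw [h4, ← integral_Ioc_eq_integral_Ioo, ← intervalIntegral.integral_of_le zero_le_one,
      integral_pow]
    simp
    ring
  rw [h2, h3] at h1
  rw [h1]
  simp [Measure.real]
  ring

theorem bmom_one (hn : 0 < Module.finrank ℝ V) (y : V) (hy : ‖y‖ = 1) :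
    bmom y y = ((volume : Measure V) (Metric.ball (0 : V) 1)).toReal /
      ((Module.finrank ℝ V : ℝ) + 2) := by
  have h1 := norm_sq_ball (V := V) hn
  set b := stdOrthonormalBasis ℝ V
  have h2 : ∫ v in Metric.ball (0 : V) 1, ‖v‖ ^ 2 = ∑ i, bmom (b i) (b i) := by
    unfold bmom
    rw [← integral_finsetSum _ (fun i _ => bmom_int (b i) (b i))]
    apply integral_congr_ae
    filter_upwards with v
    rw [← b.sum_sq_norm_inner_left v]
    apply Finset.sum_congr rfl
    intro i _
    rw [Real.norm_eq_abs, sq_abs, sq]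
  have h3 : ∀ i, bmom (b i) (b i) = bmom y y := fun i => by
    apply bmom_self; rw [hy, b.norm_eq_one]
  rw [h2] at h1
  simp only [h3, Finset.sum_const, Finset.card_univ, Fintype.card_fin, nsmul_eq_mul] at h1
  have hn' : (0 : ℝ) < Module.finrank ℝ V := by exact_mod_cast hn
  field_simp at h1 ⊢
  linarith

theorem bmom_eq (hn : 0 < Module.finrank ℝ V) (x y : V) :
    bmom x y = ((volume : Measure V) (Metric.ball (0 : V) 1)).toReal /
      ((Module.finrank ℝ V : ℝ) + 2) * ⟪x, y⟫_ℝ := by
  have : Nontrivial V := Module.nontrivial_of_finrank_pos hn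
  obtain ⟨e, he⟩ := exists_norm_eq V (zero_le_one (α := ℝ))
  set c := ((volume : Measure V) (Metric.ball (0 : V) 1)).toReal / ((Module.finrank ℝ V : ℝ) + 2)
  have h1 : ∀ z : V, bmom z z = c * ‖z‖ ^ 2 := fun z => by
    rw [bmom_norm z e he, bmom_one hn e he]; ring
  have h2 : bmom (x + y) (x + y) = bmom x x + 2 * bmom x y + bmom y y := by
    unfold bmom
    have h3 := integral_add ((bmom_int x x).add ((bmom_int x y).const_mul 2)) (bmom_int y y)
    have h4 := integral_add (bmom_int x x) ((bmom_int x y).const_mul 2)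
    rw [← integral_const_mul, ← h4]
    refine Eq.trans ?_ h3
    apply integral_congr_ae
    filter_upwards with v
    simp only [inner_add_right, Pi.add_apply]; ring
  rw [h1, h1, h1, norm_add_sq_real] at h2
  linarith

theorem stn_pt (hn : 0 < Module.finrank ℝ V) (x : V) : stn (pt x) = x := by
  apply ext_inner_left ℝ
  intro y
  unfold stn
  rw [real_inner_smul_right, ← integral_inner (by
    have := stn_int (pt x); exact this)]
  have h1 : ∫ v in Metric.ball (0 : V) 1, ⟪y, hs (pt x) v • v⟫_ℝ = bmom x y := by
    unfold bmom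
    apply integral_congr_ae
    filter_upwards with v
    rw [hs_pt, real_inner_smul_right, real_inner_comm y v]
  rw [h1, bmom_eq hn, real_inner_comm x y]
  have := volBall_pos (V := V)
  field_simp

theorem hs_val (K L M N : ConvexBody V) (hM : (M : Set V) = (K : Set V) ∪ L)
    (hN : (N : Set V) = (K : Set V) ∩ L) (v : V) : hs M v + hs N v = hs K v + hs L v := by
  have hM' : hs M v = max (hs K v) (hs L v) := by
    apply le_antisymm
    · apply hs_le
      intro x hx
      have hx' : x ∈ (K : Set V) ∪ L := by rw [← hM]; exact hx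
      rcases hx' with h | h
      · exact (inner_le_hs h v).trans (le_max_left _ _)
      · exact (inner_le_hs h v).trans (le_max_right _ _)
    · apply max_le
      · apply hs_mono
        intro x hx
        show x ∈ (M : Set V)
        rw [hM]; exact Or.inl hx
      · apply hs_mono
        intro x hx
        show x ∈ (M : Set V)
        rw [hM]; exact Or.inr hx
  have hN' : hs N v = min (hs K v) (hs L v) := by
    apply le_antisymm
    · apply le_min
      · apply hs_mono
        intro x hx
        have : x ∈ (K : Set V) ∩ L := by rw [← hN]; exact hx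
        exact this.1
      · apply hs_mono
        intro x hx
        have : x ∈ (K : Set V) ∩ L := by rw [← hN]; exact hx
        exact this.2
    · -- maximizers a of K and b of L; the segment meets the intersection
      obtain ⟨a, ha, h1⟩ := exists_hs K v
      obtain ⟨b, hb, h2⟩ := exists_hs L v
      have hseg : segment ℝ a b ⊆ (K : Set V) ∪ L := by
        rw [← hM]
        apply M.convex.segment_subset
        · rw [hM]; exact Or.inl ha
        · rw [hM]; exact Or.inr hb
      have hpc : IsPreconnected (segment ℝ a b) := (convex_segment a b).isPreconnected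
      have h3 := isPreconnected_closed_iff.1 hpc (K : Set V) (L : Set V)
        K.isCompact.isClosed L.isCompact.isClosed hseg
        ⟨a, left_mem_segment ℝ a b, ha⟩ ⟨b, right_mem_segment ℝ a b, hb⟩
      obtain ⟨c, hc, hcK, hcL⟩ := h3
      have hcN : c ∈ N := by show c ∈ (N : Set V); rw [hN]; exact ⟨hcK, hcL⟩
      refine le_trans ?_ (inner_le_hs hcN v)
      rw [← h1, ← h2]
      obtain ⟨s, t, hs0, ht0, hst, rfl⟩ := hc
      rw [inner_add_right, real_inner_smul_right, real_inner_smul_right]
      have h5 := min_le_left ⟪v, a⟫_ℝ ⟪v, b⟫_ℝ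
      have h6 := min_le_right ⟪v, a⟫_ℝ ⟪v, b⟫_ℝ
      have : min ⟪v, a⟫_ℝ ⟪v, b⟫_ℝ = s * min ⟪v, a⟫_ℝ ⟪v, b⟫_ℝ + t * min ⟪v, a⟫_ℝ ⟪v, b⟫_ℝ := by
        rw [← add_mul, hst, one_mul]
      rw [this]
      exact add_le_add (mul_le_mul_of_nonneg_left h5 hs0) (mul_le_mul_of_nonneg_left h6 ht0)
  rw [hM', hN', max_add_min]

theorem stn_val (K L M N : ConvexBody V) (hM : (M : Set V) = (K : Set V) ∪ L)
    (hN : (N : Set V) = (K : Set V) ∩ L) : stn M + stn N = stn K + stn L := by
  unfold stn
  rw [← smul_add, ← smul_add, ← integral_add (stn_int K) (stn_int L),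
    ← integral_add (stn_int M) (stn_int N)]
  congr 1
  apply integral_congr_ae
  filter_upwards with x
  rw [← add_smul, ← add_smul, hs_val K L M N hM hN]

end

end MV
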