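import Pool.Agent.Lib.MP_f30071_gt.MInt
import Pool.Agent.Lib.MP_f30071_gt.Gauss

/-! Polynomial functions, Gaussian smoothing, triangles determine additive functionals. -/

open MeasureTheory ProbabilityTheory Filter Topology Set
open scoped InnerProductSpace Pointwise NNReal ENNReal

set_option linter.unusedSectionVars false

namespace MV

section K1
variable {V : Type*} [NormedAddCommGroup V] [InnerProductSpace ℝ V] [FiniteDimensional ℝ V]
  [MeasurableSpace V] [BorelSpace V]
variable {A : ConvexBody V → ℝ}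

/-- `|v|^(1-k) ⟪c,v⟫^k` -/
noncomputable def pk (k : ℕ) (c v : V) : ℝ := ‖v‖ * (⟪c, v⟫_ℝ / ‖v‖) ^ k

namespace K1aux

/-! #### integrability of functions of polynomial growth -/

theorem int_pow {E : Type*} [NormedAddCommGroup E] [NormedSpace ℝ E] [MeasurableSpace E]
    [BorelSpace E] [CompleteSpace E] [SecondCountableTopology E] (μ : Measure E) [IsGaussian μ]
    (m : ℕ) : Integrable (fun x => (1 + ‖x‖) ^ m) μ := by
  rcases Nat.eq_zero_or_pos m with rfl | hm
  · simp
  · have h0 : MemLp (id : E → E) (m : ℝ≥0∞) μ :=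
      IsGaussian.memLp_id μ (m : ℝ≥0∞) (ENNReal.natCast_ne_top m)
    have h1 : MemLp (fun x : E => ‖x‖) (m : ℝ≥0∞) μ := h0.norm
    have h2 : MemLp (fun x : E => (1 : ℝ) + ‖x‖) (m : ℝ≥0∞) μ :=
      (memLp_const (1 : ℝ)).add h1
    have h3 := h2.integrable_norm_pow hm.ne'
    refine h3.congr (Eventually.of_forall fun x => ?_)
    simp only [Real.norm_eq_abs]
    rw [abs_of_nonneg (by positivity)]

theorem int_poly {E F : Type*} [NormedAddCommGroup E] [NormedSpace ℝ E] [MeasurableSpace E]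
    [BorelSpace E] [CompleteSpace E] [SecondCountableTopology E] (μ : Measure E) [IsGaussian μ]
    [NormedAddCommGroup F]
    {f : E → F} (hf : Continuous f) (C : ℝ) (m : ℕ) (h : ∀ x, ‖f x‖ ≤ C * (1 + ‖x‖) ^ m) :
    Integrable f μ := by
  refine Integrable.mono' ((int_pow μ m).const_mul C) hf.aestronglyMeasurable
    (Eventually.of_forall h)

/-! #### the mean of `max 0 s` -/

theorem mean_pos : ∫ s : ℝ, max 0 s ∂(gaussianReal 0 1) = (Real.sqrt (2 * Real.pi))⁻¹ := by
  rw [integral_gaussianReal_eq_integral_smul one_ne_zero]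
  have h1 : ∀ s : ℝ, gaussianPDFReal 0 1 s • max 0 s
      = (Ioi (0 : ℝ)).indicator (fun s => (Real.sqrt (2 * Real.pi))⁻¹ *
        (s * Real.exp (-(s ^ 2 / 2)))) s := by
    intro s
    rcases le_or_gt s 0 with h | h
    · rw [max_eq_left h, indicator_of_notMem (by simpa using h)]
      simp
    · rw [max_eq_right h.le, indicator_of_mem (by simpa using h)]
      simp only [gaussianPDFReal, smul_eq_mul, NNReal.coe_one, mul_one, sub_zero]
      rw [neg_div]
      ring
  simp only [h1]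
  rw [integral_indicator measurableSet_Ioi, integral_const_mul]
  have h2 : ∫ s in Ioi (0 : ℝ), s * Real.exp (-(s ^ 2 / 2)) = 1 := by
    have hd : ∀ x ∈ Ioi (0 : ℝ), HasDerivAt (fun s : ℝ => -Real.exp (-(s ^ 2 / 2)))
        (x * Real.exp (-(x ^ 2 / 2))) x := by
      intro x _
      have h3 : HasDerivAt (fun s : ℝ => -(s ^ 2 / 2)) (-x) x := by
        have := ((hasDerivAt_pow 2 x).div_const 2).neg
        refine this.congr_deriv ?_
        simp
      have := h3.exp.neg
      refine this.congr_deriv ?_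
      ring
    have hc : ContinuousWithinAt (fun s : ℝ => -Real.exp (-(s ^ 2 / 2))) (Ici 0) 0 := by
      apply Continuous.continuousWithinAt
      fun_prop
    have ht : Tendsto (fun s : ℝ => -Real.exp (-(s ^ 2 / 2))) atTop (𝓝 (-0)) := by
      apply Tendsto.neg
      apply Real.tendsto_exp_neg_atTop_nhds_zero.comp
      exact (tendsto_pow_atTop (by norm_num)).atTop_div_const (by norm_num)
    have := integral_Ioi_of_hasDerivAt_of_nonneg hc hd (fun x hx => by
      have : (0 : ℝ) < x := hx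
      positivity) ht
    rw [this]
    simp
  rw [h2, mul_one]

theorem mean_seg (y : V) : ∫ g, max 0 ⟪y, g⟫_ℝ ∂(stdGaussian V)
    = ‖y‖ * (Real.sqrt (2 * Real.pi))⁻¹ := by
  by_cases hy : y = 0
  · subst hy; simp
  · have hn : ‖y‖ ≠ 0 := norm_ne_zero_iff.mpr hy
    have hn0 : 0 < ‖y‖ := lt_of_le_of_ne (norm_nonneg _) (Ne.symm hn)
    set u : V := ‖y‖⁻¹ • y with hu
    have hu1 : ‖u‖ = 1 := by rw [hu, norm_smul, norm_inv, norm_norm, inv_mul_cancel₀ hn]
    have h1 : ∀ g : V, max 0 ⟪y, g⟫_ℝ = ‖y‖ * max 0 ⟪u, g⟫_ℝ := by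
      intro g
      rw [mul_max_of_nonneg _ _ (norm_nonneg y), mul_zero, hu, real_inner_smul_left,
        ← mul_assoc, mul_inv_cancel₀ hn, one_mul]
    have h2 : (stdGaussian V).map (fun x => ⟪u, x⟫_ℝ) = gaussianReal 0 1 := by
      rw [gauss_inner]
      congr 1
      ext
      simp [hu1]
    simp only [h1]
    rw [integral_const_mul, ← mean_pos, ← h2, integral_map (by fun_prop)
      (Continuous.aestronglyMeasurable (by fun_prop))]

theorem dist_seg_zero (x : V) : dist (seg x) 0 ≤ ‖x‖ := by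
  apply dist_le_of_hs (norm_nonneg _)
  intro v
  rw [hs_seg, hs_zero, sub_zero, abs_of_nonneg (le_max_left _ _)]
  apply max_le (by positivity)
  rw [mul_comm]
  exact real_inner_le_norm v x

theorem ext_const_smul (hA : IsAdd A) {c : ℝ} (hc : 0 ≤ c) (K : ConvexBody V) :
    A (c • K) = c * A K := by
  have h1 := ext_smul hA c (IsDiff.hs K)
  rw [ext_hs hA] at h1
  rw [← h1, ← ext_hs hA (c • K)]
  congr 1
  ext v
  exact hs_smul hc K v

end K1aux

open K1aux

/-- the discs are means of segments: `L` with support function `‖T v‖`, `T` linear -/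
theorem disc_mint (hA : IsAdd A) (T : V →L[ℝ] V) (L : ConvexBody V)
    (hL : ∀ v, hs L v = ‖ContinuousLinearMap.adjoint T v‖) :
    A L = Real.sqrt (2 * Real.pi) * ∫ g, A (seg (T g)) ∂(stdGaussian V) := by
  have h0 : 0 < Real.sqrt (2 * Real.pi) := by positivity
  have hc : Continuous (fun g : V => seg (T g)) := continuous_seg.comp T.continuous
  have hi : Integrable (fun g : V => dist (seg (T g)) 0) (stdGaussian V) := by
    refine int_poly _ (by fun_prop) ‖T‖ 1 ?_
    intro x
    rw [Real.norm_of_nonneg dist_nonneg, pow_one]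
    refine (dist_seg_zero _).trans ((T.le_opNorm x).trans ?_)
    have := norm_nonneg T
    nlinarith
  have h1 := (hA.mint (stdGaussian V) (fun g => seg (T g)) hc.aestronglyMeasurable hi
    ((Real.sqrt (2 * Real.pi))⁻¹ • L) (by
      intro v
      rw [hs_smul (by positivity), hL]
      simp only [hs_seg]
      have : ∀ g : V, ⟪v, T g⟫_ℝ = ⟪ContinuousLinearMap.adjoint T v, g⟫_ℝ := fun g => by
        rw [ContinuousLinearMap.adjoint_inner_left]
      simp only [this]
      rw [mean_seg, mul_comm])).2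
  rw [← h1, ext_const_smul hA (by positivity), ← mul_assoc, mul_inv_cancel₀ h0.ne', one_mul]

/-- k = 0: the ball is a mean of segments -/
theorem ball_mint (hA : IsAdd A) :
    A (ballB V) = Real.sqrt (2 * Real.pi) * ∫ g, A (seg g) ∂(stdGaussian V) := by
  have := disc_mint hA (ContinuousLinearMap.id ℝ V) (ballB V) (by
    intro v
    rw [hs_ballB]
    congr 1
    have : ContinuousLinearMap.adjoint (ContinuousLinearMap.id ℝ V)
      = ContinuousLinearMap.id ℝ V := by
      rw [← ContinuousLinearMap.star_eq_adjoint]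
      exact star_one _
    rw [this]
    rfl)
  simpa using this

namespace K1aux

theorem shuffle {α β γ δ : Type*} [MeasurableSpace α] [MeasurableSpace β] [MeasurableSpace γ]
    [MeasurableSpace δ] (a : Measure α) (b : Measure β) (c : Measure γ) (d : Measure δ)
    [SFinite a] [SFinite b] [SFinite c] [SFinite d] :
    MeasurePreserving (fun p : (α × γ) × (β × δ) => ((p.1.1, p.2.1), (p.1.2, p.2.2)))
      ((a.prod c).prod (b.prod d)) ((a.prod b).prod (c.prod d)) := by
  have e1 := measurePreserving_prodAssoc a c (b.prod d)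
  have e2 := (MeasurePreserving.id a).prod (measurePreserving_prodAssoc c b d).symm
  have e3 := (MeasurePreserving.id a).prod
    ((Measure.measurePreserving_swap (μ := c) (ν := b)).prod (MeasurePreserving.id d))
  have e4 := (MeasurePreserving.id a).prod (measurePreserving_prodAssoc b c d)
  have e5 := (measurePreserving_prodAssoc a b (c.prod d)).symm
  exact e5.comp (e4.comp (e3.comp (e2.comp e1)))

/-- the split of a pair of Gaussian vectors along `v` -/
theorem split2 (v : V) (hv : ‖v‖ = 1) :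
    MeasurePreserving (fun q : (ℝ × ℝ) × (V × V) =>
        (q.1.1 • v + prj v q.2.1, q.1.2 • v + prj v q.2.2))
      (((gaussianReal 0 1).prod (gaussianReal 0 1)).prod ((stdGaussian V).prod (stdGaussian V)))
      ((stdGaussian V).prod (stdGaussian V)) := by
  have hc := Gauss.prj_cont v
  have h1 : MeasurePreserving (fun p : ℝ × V => p.1 • v + prj v p.2)
      ((gaussianReal 0 1).prod (stdGaussian V)) (stdGaussian V) :=
    ⟨Continuous.measurable (by fun_prop), gauss_split v hv⟩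
  have h2 := h1.prod h1
  have h3 := shuffle (gaussianReal 0 1) (stdGaussian V) (gaussianReal 0 1) (stdGaussian V)
  exact h2.comp h3

/-- the complex number `⟪c,b⟫ - i ⟪c,a⟫` -/
noncomputable def zc (c : V) (p : V × V) : ℂ :=
  ((⟪c, p.2⟫_ℝ : ℝ) : ℂ) - Complex.I * ((⟪c, p.1⟫_ℝ : ℝ) : ℂ)

theorem zc_continuous (c : V) : Continuous (zc c) := by
  unfold zc
  fun_prop

theorem norm_zc_le (c : V) (p : V × V) : ‖zc c p‖ ≤ 2 * ‖c‖ * ‖p‖ := by
  unfold zc
  refine (norm_sub_le _ _).trans ?_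
  rw [norm_mul, Complex.norm_I, one_mul, Complex.norm_real, Complex.norm_real]
  have h1 : ‖⟪c, p.2⟫_ℝ‖ ≤ ‖c‖ * ‖p‖ :=
    (norm_inner_le_norm c p.2).trans (mul_le_mul_of_nonneg_left (norm_snd_le p) (norm_nonneg c))
  have h2 : ‖⟪c, p.1⟫_ℝ‖ ≤ ‖c‖ * ‖p‖ :=
    (norm_inner_le_norm c p.1).trans (mul_le_mul_of_nonneg_left (norm_fst_le p) (norm_nonneg c))
  linarith

/-- the complex Gaussian `zc` has vanishing moments -/
theorem zc_moment (c : V) {j : ℕ} (hj : j ≠ 0) :
    ∫ p : V × V, zc c p ^ j ∂((stdGaussian V).prod (stdGaussian V)) = 0 := by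
  have hj' : (j : ℝ) ≠ 0 := by exact_mod_cast hj
  set θ : ℝ := Real.pi / j with hθ
  have hrot := gauss_rot2 (V := V) θ
  have hm : Measurable (fun p : V × V => (Real.cos θ • p.1 + Real.sin θ • p.2,
      -(Real.sin θ) • p.1 + Real.cos θ • p.2)) := Continuous.measurable (by fun_prop)
  have h1 : ∫ p : V × V, zc c p ^ j ∂((stdGaussian V).prod (stdGaussian V))
      = ∫ p : V × V, zc c (Real.cos θ • p.1 + Real.sin θ • p.2,
        -(Real.sin θ) • p.1 + Real.cos θ • p.2) ^ j ∂((stdGaussian V).prod (stdGaussian V)) := by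
    conv_lhs => rw [← hrot]
    exact integral_map (f := fun p : V × V => zc c p ^ j) hm.aemeasurable
      (Continuous.aestronglyMeasurable ((zc_continuous c).pow j))
  have h2 : ∀ p : V × V, zc c (Real.cos θ • p.1 + Real.sin θ • p.2,
        -(Real.sin θ) • p.1 + Real.cos θ • p.2)
        = (((Real.cos θ : ℝ) : ℂ) - Complex.I * ((Real.sin θ : ℝ) : ℂ)) * zc c p := by
    intro p
    simp only [zc, inner_add_right, real_inner_smul_right]
    push_cast
    ring_nf
    rw [Complex.I_sq]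
    ring
  have h3 : (((Real.cos θ : ℝ) : ℂ) - Complex.I * ((Real.sin θ : ℝ) : ℂ)) ^ j = -1 := by
    have h4 : (((Real.cos θ : ℝ) : ℂ) - Complex.I * ((Real.sin θ : ℝ) : ℂ))
        = Complex.exp (-(θ : ℂ) * Complex.I) := by
      rw [Complex.exp_mul_I, Complex.cos_neg, Complex.sin_neg, ← Complex.ofReal_cos,
        ← Complex.ofReal_sin]
      ring
    rw [h4, ← Complex.exp_nat_mul]
    have h5 : (j : ℂ) * (-(θ : ℂ) * Complex.I) = -(Real.pi * Complex.I) := by
      rw [hθ]
      push_cast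
      have : (j : ℂ) ≠ 0 := by exact_mod_cast hj
      field_simp
    rw [h5, Complex.exp_neg, Complex.exp_pi_mul_I]
    norm_num
  simp only [h2, mul_pow, h3] at h1
  rw [integral_const_mul] at h1
  have h6 := h1
  set J := ∫ p : V × V, zc c p ^ j ∂((stdGaussian V).prod (stdGaussian V)) with hJ
  have h7 : (2 : ℂ) * J = 0 := by linear_combination h6
  simpa using h7

/-- the weight on the line -/
noncomputable def w1 (ε : ℝ) (p : ℝ × ℝ) : ℝ := max 0 (ε * p.2 - |p.1|)

noncomputable def z1 (p : ℝ × ℝ) : ℂ := (p.2 : ℂ) - Complex.I * (p.1 : ℂ)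

theorem w1_continuous (ε : ℝ) : Continuous (w1 ε) := by
  unfold w1
  fun_prop

theorem z1_continuous : Continuous z1 := by
  unfold z1
  fun_prop

theorem norm_w1_le {ε : ℝ} (hε : 0 < ε) (p : ℝ × ℝ) : |w1 ε p| ≤ ε * ‖p‖ := by
  unfold w1
  rw [abs_of_nonneg (le_max_left _ _)]
  apply max_le (by positivity)
  have h1 : p.2 ≤ ‖p‖ := (le_abs_self _).trans (norm_snd_le p)
  have h2 := mul_le_mul_of_nonneg_left h1 hε.le
  have := abs_nonneg p.1
  linarith

theorem norm_z1_le (p : ℝ × ℝ) : ‖z1 p‖ ≤ 2 * ‖p‖ := by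
  unfold z1
  refine (norm_sub_le _ _).trans ?_
  rw [norm_mul, Complex.norm_I, one_mul, Complex.norm_real, Complex.norm_real]
  have h1 := norm_fst_le p
  have h2 := norm_snd_le p
  linarith

theorem int_w1z1 {ε : ℝ} (hε : 0 < ε) (m : ℕ) :
    Integrable (fun p : ℝ × ℝ => (w1 ε p : ℂ) * z1 p ^ m)
      ((gaussianReal 0 1).prod (gaussianReal 0 1)) := by
  refine int_poly _ ((Complex.continuous_ofReal.comp (w1_continuous ε)).mul
    (z1_continuous.pow m)) (ε * 2 ^ m) (m + 1) ?_
  intro p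
  rw [norm_mul, Complex.norm_real, norm_pow, Real.norm_eq_abs]
  have h1 := norm_w1_le hε p
  have h2 := norm_z1_le p
  have h0 := norm_nonneg p
  calc |w1 ε p| * ‖z1 p‖ ^ m ≤ (ε * (1 + ‖p‖)) * (2 * (1 + ‖p‖)) ^ m := by
        gcongr
        · nlinarith
        · linarith
    _ = ε * 2 ^ m * (1 + ‖p‖) ^ (m + 1) := by rw [mul_pow]; ring

theorem int_zc (c : V) (m : ℕ) :
    Integrable (fun p : V × V => zc c p ^ m) ((stdGaussian V).prod (stdGaussian V)) := by
  refine int_poly _ ((zc_continuous c).pow m) ((2 * ‖c‖) ^ m) m ?_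
  intro p
  rw [norm_pow, ← mul_pow]
  have h2 := norm_zc_le c p
  have h0 := norm_nonneg p
  have h1 := norm_nonneg c
  gcongr
  nlinarith

/-- positivity of the constant -/
theorem const_pos (k : ℕ) : ∃ ε : ℝ, 0 < ε ∧
    0 < ∫ p : ℝ × ℝ, w1 ε p * (z1 p ^ k).re ∂((gaussianReal 0 1).prod (gaussianReal 0 1)) := by
  -- near zero the real part of `(1 - i τ)^k` is larger than one half
  have hcont : Continuous (fun τ : ℝ => (((1 : ℂ) - Complex.I * (τ : ℂ)) ^ k).re) := by fun_prop
  have h0 : (fun τ : ℝ => (((1 : ℂ) - Complex.I * (τ : ℂ)) ^ k).re) 0 = 1 := by simp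
  have hev : ∀ᶠ τ : ℝ in 𝓝 (0 : ℝ), (1 / 2 : ℝ) < (((1 : ℂ) - Complex.I * (τ : ℂ)) ^ k).re := by
    apply hcont.continuousAt.eventually_const_lt
    rw [h0]
    norm_num
  obtain ⟨δ, hδ, hball⟩ := Metric.eventually_nhds_iff.mp hev
  refine ⟨δ / 2, by positivity, ?_⟩
  set ε := δ / 2 with hε
  have hε0 : 0 < ε := by positivity
  have key : ∀ p : ℝ × ℝ, |p.1| < ε * p.2 → p.2 ^ k / 2 ≤ (z1 p ^ k).re := by
    intro p hp
    have hp2 : 0 < p.2 := by
      by_contra h
      push Not at h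
      have := abs_nonneg p.1
      nlinarith
    have h1 : z1 p = (p.2 : ℂ) * ((1 : ℂ) - Complex.I * ((p.1 / p.2 : ℝ) : ℂ)) := by
      unfold z1
      push_cast
      have : (p.2 : ℂ) ≠ 0 := by exact_mod_cast hp2.ne'
      field_simp
    have h2 : (1 / 2 : ℝ) < (((1 : ℂ) - Complex.I * ((p.1 / p.2 : ℝ) : ℂ)) ^ k).re := by
      apply hball
      rw [Real.dist_eq, sub_zero, abs_div, abs_of_pos hp2, div_lt_iff₀ hp2]
      have : ε < δ := by rw [hε]; linarith
      nlinarith
    rw [h1, mul_pow, ← Complex.ofReal_pow, Complex.re_ofReal_mul]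
    have : 0 < p.2 ^ k := by positivity
    nlinarith
  have hnn : ∀ p : ℝ × ℝ, 0 ≤ w1 ε p * (z1 p ^ k).re := by
    intro p
    rcases lt_or_ge |p.1| (ε * p.2) with h | h
    · have hp2 : 0 < p.2 := by
        by_contra h'
        push Not at h'
        have := abs_nonneg p.1
        nlinarith
      refine mul_nonneg (le_max_left _ _) (le_trans ?_ (key p h))
      positivity
    · have : w1 ε p = 0 := by
        unfold w1
        exact max_eq_left (by linarith)
      rw [this, zero_mul]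
  have hint : Integrable (fun p : ℝ × ℝ => w1 ε p * (z1 p ^ k).re)
      ((gaussianReal 0 1).prod (gaussianReal 0 1)) := by
    have h1 := (int_w1z1 hε0 k).re
    refine h1.congr (Eventually.of_forall fun p => ?_)
    simp only [RCLike.re_to_complex]
    rw [Complex.re_ofReal_mul]
  rw [integral_pos_iff_support_of_nonneg (f := fun p : ℝ × ℝ => w1 ε p * (z1 p ^ k).re) hnn hint]
  have hsub : Ioo (-ε) ε ×ˢ Ioi (1 : ℝ) ⊆
      Function.support (fun p : ℝ × ℝ => w1 ε p * (z1 p ^ k).re) := by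
    rintro p ⟨h1, h2⟩
    have h1' : |p.1| < ε := abs_lt.mpr ⟨h1.1, h1.2⟩
    have h2' : 1 < p.2 := h2
    have h3 : |p.1| < ε * p.2 := by nlinarith
    have h4 := key p h3
    have h5 : 0 < w1 ε p := by
      unfold w1
      apply lt_max_of_lt_right
      linarith
    have h6 : 0 < (z1 p ^ k).re := lt_of_lt_of_le (by positivity) h4
    exact (mul_pos h5 h6).ne'
  refine lt_of_lt_of_le ?_ (measure_mono hsub)
  rw [Measure.prod_prod]
  have hac := gaussianReal_absolutelyContinuous' 0 (one_ne_zero (α := ℝ≥0))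
  have hA : gaussianReal 0 1 (Ioo (-ε) ε) ≠ 0 := by
    intro h
    have := hac h
    rw [Real.volume_Ioo, ENNReal.ofReal_eq_zero] at this
    linarith
  have hB : gaussianReal 0 1 (Ioi (1 : ℝ)) ≠ 0 := by
    intro h
    have := hac h
    simp at this
  exact pos_iff_ne_zero.mpr (mul_ne_zero hA hB)

/-- the weight attached to a pair of vectors -/
noncomputable def wv (ε : ℝ) (v : V) (p : V × V) : ℝ := max 0 (ε * ⟪v, p.2⟫_ℝ - |⟪v, p.1⟫_ℝ|)

theorem core_unit {ε : ℝ} (hε : 0 < ε) (k : ℕ) (c v : V) (hv : ‖v‖ = 1) :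
    ∫ p : V × V, wv ε v p * (zc c p ^ k).re ∂((stdGaussian V).prod (stdGaussian V))
      = (∫ p : ℝ × ℝ, w1 ε p * (z1 p ^ k).re ∂((gaussianReal 0 1).prod (gaussianReal 0 1)))
        * ⟪c, v⟫_ℝ ^ k := by
  have hvv : ⟪v, v⟫_ℝ = 1 := by rw [real_inner_self_eq_norm_sq, hv]; norm_num
  have hvp : ∀ z : V, ⟪v, prj v z⟫_ℝ = 0 := by
    intro z
    simp [prj, hv, inner_sub_right, real_inner_smul_right]
  have hwc : Continuous (fun p : V × V => wv ε v p * (zc c p ^ k).re) := by
    have := (zc_continuous c).pow k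
    unfold wv
    exact (by fun_prop : Continuous (fun p : V × V => max 0 (ε * ⟪v, p.2⟫_ℝ - |⟪v, p.1⟫_ℝ|))).mul
      (Complex.continuous_re.comp this)
  have hsp := split2 (V := V) v hv
  rw [← hsp.map_eq, integral_map hsp.measurable.aemeasurable hwc.aestronglyMeasurable]
  have h1 : ∀ q : (ℝ × ℝ) × (V × V), wv ε v (q.1.1 • v + prj v q.2.1, q.1.2 • v + prj v q.2.2)
      = w1 ε q.1 := by
    intro q
    unfold wv w1
    simp only [inner_add_right, real_inner_smul_right, hvv, hvp, mul_one, add_zero]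
  have h2 : ∀ q : (ℝ × ℝ) × (V × V), zc c (q.1.1 • v + prj v q.2.1, q.1.2 • v + prj v q.2.2)
      = zc (prj v c) q.2 + (⟪c, v⟫_ℝ : ℂ) * z1 q.1 := by
    intro q
    unfold zc z1
    simp only [inner_add_right, real_inner_smul_right, ← Gauss.inner_prj_left]
    push_cast
    ring
  simp only [h1, h2]
  -- complex version
  have h3 : ∀ q : (ℝ × ℝ) × (V × V),
      w1 ε q.1 * ((zc (prj v c) q.2 + (⟪c, v⟫_ℝ : ℂ) * z1 q.1) ^ k).re
      = (∑ m ∈ Finset.range (k + 1), ((w1 ε q.1 : ℂ) * z1 q.1 ^ (k - m)) *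
        ((k.choose m : ℂ) * (⟪c, v⟫_ℝ : ℂ) ^ (k - m) * zc (prj v c) q.2 ^ m)).re := by
    intro q
    rw [← Complex.re_ofReal_mul, add_pow, Finset.mul_sum]
    congr 1
    refine Finset.sum_congr rfl fun m _ => ?_
    rw [mul_pow]
    ring
  simp only [h3]
  have hterm : ∀ m ∈ Finset.range (k + 1), Integrable (fun q : (ℝ × ℝ) × (V × V) =>
      ((w1 ε q.1 : ℂ) * z1 q.1 ^ (k - m)) *
        ((k.choose m : ℂ) * (⟪c, v⟫_ℝ : ℂ) ^ (k - m) * zc (prj v c) q.2 ^ m))
      (((gaussianReal 0 1).prod (gaussianReal 0 1)).prod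
        ((stdGaussian V).prod (stdGaussian V))) := by
    intro m _
    exact (int_w1z1 hε (k - m)).mul_prod ((int_zc (prj v c) m).const_mul _)
  have h4 : ∫ q : (ℝ × ℝ) × (V × V), (∑ m ∈ Finset.range (k + 1),
        ((w1 ε q.1 : ℂ) * z1 q.1 ^ (k - m)) *
        ((k.choose m : ℂ) * (⟪c, v⟫_ℝ : ℂ) ^ (k - m) * zc (prj v c) q.2 ^ m)).re
      ∂(((gaussianReal 0 1).prod (gaussianReal 0 1)).prod
        ((stdGaussian V).prod (stdGaussian V)))
      = (∫ q : (ℝ × ℝ) × (V × V), (∑ m ∈ Finset.range (k + 1),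
        ((w1 ε q.1 : ℂ) * z1 q.1 ^ (k - m)) *
        ((k.choose m : ℂ) * (⟪c, v⟫_ℝ : ℂ) ^ (k - m) * zc (prj v c) q.2 ^ m))
      ∂(((gaussianReal 0 1).prod (gaussianReal 0 1)).prod
        ((stdGaussian V).prod (stdGaussian V)))).re :=
    integral_re (integrable_finsetSum _ hterm)
  rw [h4, integral_finsetSum _ hterm]
  have h5 : ∀ m ∈ Finset.range (k + 1), m ≠ 0 → ∫ q : (ℝ × ℝ) × (V × V),
      ((w1 ε q.1 : ℂ) * z1 q.1 ^ (k - m)) *
        ((k.choose m : ℂ) * (⟪c, v⟫_ℝ : ℂ) ^ (k - m) * zc (prj v c) q.2 ^ m)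
      ∂(((gaussianReal 0 1).prod (gaussianReal 0 1)).prod
        ((stdGaussian V).prod (stdGaussian V))) = 0 := by
    intro m _ hm
    rw [integral_prod_mul (fun p : ℝ × ℝ => (w1 ε p : ℂ) * z1 p ^ (k - m))
      (fun p : V × V => (k.choose m : ℂ) * (⟪c, v⟫_ℝ : ℂ) ^ (k - m) * zc (prj v c) p ^ m),
      integral_const_mul, zc_moment _ hm, mul_zero, mul_zero]
  rw [Finset.sum_eq_single 0 h5 (fun h => absurd (Finset.mem_range.mpr (Nat.succ_pos k)) h),
    integral_prod_mul (fun p : ℝ × ℝ => (w1 ε p : ℂ) * z1 p ^ (k - 0))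
      (fun p : V × V => (k.choose 0 : ℂ) * (⟪c, v⟫_ℝ : ℂ) ^ (k - 0) * zc (prj v c) p ^ 0)]
  simp only [Nat.sub_zero, Nat.choose_zero_right, Nat.cast_one, one_mul, pow_zero, mul_one]
  rw [integral_const, probReal_univ, one_smul, ← Complex.ofReal_pow, Complex.re_mul_ofReal]
  congr 1
  have h6 := integral_re (int_w1z1 hε k)
  simp only [RCLike.re_to_complex] at h6
  rw [← h6]
  refine integral_congr_ae (Eventually.of_forall fun p => ?_)
  simp only [Complex.re_ofReal_mul]

theorem core {ε : ℝ} (hε : 0 < ε) (k : ℕ) (c v : V) :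
    ∫ p : V × V, wv ε v p * (zc c p ^ k).re ∂((stdGaussian V).prod (stdGaussian V))
      = (∫ p : ℝ × ℝ, w1 ε p * (z1 p ^ k).re ∂((gaussianReal 0 1).prod (gaussianReal 0 1)))
        * pk k c v := by
  by_cases hv : v = 0
  · subst hv
    simp [wv, pk]
  · have hn : ‖v‖ ≠ 0 := norm_ne_zero_iff.mpr hv
    set u : V := ‖v‖⁻¹ • v with hu
    have hu1 : ‖u‖ = 1 := by rw [hu, norm_smul, norm_inv, norm_norm, inv_mul_cancel₀ hn]
    have hvu : v = ‖v‖ • u := by rw [hu, smul_smul, mul_inv_cancel₀ hn, one_smul]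
    have h1 : ∀ p : V × V, wv ε v p = ‖v‖ * wv ε u p := by
      intro p
      have e1 : ∀ y : V, ⟪v, y⟫_ℝ = ‖v‖ * ⟪u, y⟫_ℝ := by
        intro y
        rw [hu, real_inner_smul_left, ← mul_assoc, mul_inv_cancel₀ hn, one_mul]
      unfold wv
      rw [mul_max_of_nonneg _ _ (norm_nonneg v), mul_zero, e1, e1, abs_mul,
        abs_of_nonneg (norm_nonneg v)]
      congr 1
      ring
    simp only [h1, mul_assoc]
    rw [integral_const_mul, core_unit hε k c u hu1]
    unfold pk
    rw [hu, real_inner_smul_right]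
    ring

end K1aux

namespace K1aux

theorem dist_tri_zero (a b : V) : dist (tri a b) 0 ≤ ‖a‖ + ‖b‖ := by
  apply dist_le_of_hs (by positivity)
  intro v
  rw [hs_tri, hs_zero, sub_zero, abs_of_nonneg (le_max_left _ _)]
  have h1 := real_inner_le_norm v a
  have h2 := real_inner_le_norm v b
  have h3 := norm_nonneg v
  have h4 := norm_nonneg a
  have h5 := norm_nonneg b
  apply max_le (by positivity)
  apply max_le
  · nlinarith
  · nlinarith

theorem continuous_tri2 : Continuous (fun p : V × V => tri p.1 p.2) := by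
  rw [continuous_iff_continuousAt]
  rintro ⟨a, b⟩
  rw [ContinuousAt, tendsto_iff_dist_tendsto_zero]
  have h1 : Tendsto (fun p : V × V => 2 * ‖p.1 - a‖ + ‖p.2 - b‖) (𝓝 (a, b)) (𝓝 0) := by
    have : Continuous (fun p : V × V => 2 * ‖p.1 - a‖ + ‖p.2 - b‖) := by fun_prop
    have h := this.tendsto (a, b)
    simpa using h
  refine squeeze_zero (fun _ => dist_nonneg) (fun p => ?_) h1
  apply dist_le_of_hs (by positivity)
  intro v
  rw [hs_tri, hs_tri]
  have e1 : |⟪v, p.1⟫_ℝ - ⟪v, a⟫_ℝ| ≤ ‖p.1 - a‖ * ‖v‖ := by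
    rw [← inner_sub_right, mul_comm]
    exact abs_real_inner_le_norm _ _
  have e2 : |⟪v, p.2⟫_ℝ - ⟪v, b⟫_ℝ| ≤ ‖p.2 - b‖ * ‖v‖ := by
    rw [← inner_sub_right, mul_comm]
    exact abs_real_inner_le_norm _ _
  refine (abs_max_sub_max_le_max _ _ _ _).trans ?_
  rw [sub_self, abs_zero]
  apply max_le (by positivity)
  refine (abs_max_sub_max_le_max _ _ _ _).trans ?_
  apply max_le
  · have := norm_nonneg (p.2 - b)
    have := norm_nonneg (p.1 - a)
    have := norm_nonneg v
    nlinarith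
  · rw [abs_le] at e1 e2 ⊢
    have := norm_nonneg (p.1 - a)
    have := norm_nonneg v
    constructor <;> nlinarith

/-- the triangle attached to a pair -/
noncomputable def k1 (ε : ℝ) (p : V × V) : ConvexBody V := tri ((2 : ℝ) • p.1) (ε • p.2 - p.1)

/-- the segment attached to a pair -/
noncomputable def k2 (p : V × V) : ConvexBody V := seg ((2 : ℝ) • p.1)

theorem k1_continuous (ε : ℝ) : Continuous (k1 ε : V × V → ConvexBody V) := by
  have h0 : Continuous (fun p : V × V => (((2 : ℝ) • p.1, ε • p.2 - p.1) : V × V)) := by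
    fun_prop
  have h1 := (continuous_tri2 (V := V)).comp h0
  exact h1

theorem k2_continuous : Continuous (k2 : V × V → ConvexBody V) := by
  have h0 : Continuous (fun p : V × V => ((2 : ℝ) • p.1 : V)) := by fun_prop
  have h1 := (continuous_seg (V := V)).comp h0
  exact h1

theorem hs_k1_sub (ε : ℝ) (v : V) (p : V × V) : hs (k1 ε p) v - hs (k2 p) v = wv ε v p := by
  unfold k1 k2 wv
  rw [hs_tri, hs_seg, inner_sub_right, real_inner_smul_right, real_inner_smul_right]
  set x := ⟪v, p.1⟫_ℝ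
  set y := ε * ⟪v, p.2⟫_ℝ
  rcases le_total 0 x with h | h
  · rw [abs_of_nonneg h, max_eq_right (by linarith : 0 ≤ 2 * x)]
    rcases le_total x y with h2 | h2
    · rw [max_eq_right (by linarith : 2 * x ≤ 2 * x + (y - x)), max_eq_right (by linarith),
        max_eq_right (by linarith)]
      ring
    · rw [max_eq_left (by linarith : 2 * x + (y - x) ≤ 2 * x), max_eq_right (by linarith),
        max_eq_left (by linarith)]
      ring
  · rw [abs_of_nonpos h, max_eq_left (by linarith : 2 * x ≤ 0), sub_zero]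
    rcases le_total (-x) y with h2 | h2
    · rw [max_eq_right (by linarith : 2 * x ≤ 2 * x + (y - x)), max_eq_right (by linarith),
        max_eq_right (by linarith)]
      ring
    · rw [max_eq_left (by linarith : y - -x ≤ 0), max_eq_left]
      apply max_le <;> linarith

theorem dist_k1_le {ε : ℝ} (hε : 0 < ε) (p : V × V) : dist (k1 ε p) 0 ≤ (3 + ε) * ‖p‖ := by
  unfold k1
  refine (dist_tri_zero _ _).trans ?_
  have h1 := norm_fst_le p
  have h2 := norm_snd_le p
  have h3 := norm_sub_le (ε • p.2) p.1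
  rw [norm_smul, Real.norm_of_nonneg hε.le] at h3
  rw [norm_smul, Real.norm_of_nonneg (by norm_num : (0:ℝ) ≤ 2)]
  nlinarith

theorem dist_k2_le (p : V × V) : dist (k2 p) 0 ≤ 2 * ‖p‖ := by
  unfold k2
  refine (dist_seg_zero _).trans ?_
  have h1 := norm_fst_le p
  rw [norm_smul, Real.norm_of_nonneg (by norm_num : (0:ℝ) ≤ 2)]
  linarith

/-- signed Minkowski integrals of a pair of bodies -/
theorem mint_pair (hA : IsAdd A) {Ω : Type*} [MeasurableSpace Ω] (μ : Measure Ω) (ρ : Ω → ℝ)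
    (hρ : AEStronglyMeasurable ρ μ) (κ κ' : Ω → ConvexBody V) (hκ : AEStronglyMeasurable κ μ)
    (hκ' : AEStronglyMeasurable κ' μ)
    (hi : Integrable (fun ω => ρ ω * (1 + dist (κ ω) 0)) μ)
    (hi' : Integrable (fun ω => ρ ω * (1 + dist (κ' ω) 0)) μ) (f : V → ℝ) {C : ℝ} (hC : C ≠ 0)
    (hf : ∀ v, ∫ ω, ρ ω * (hs (κ ω) v - hs (κ' ω) v) ∂μ = C * f v) :
    IsDiff f ∧ Integrable (fun ω => ρ ω * (A (κ ω) - A (κ' ω))) μ ∧
      ext A f = C⁻¹ * ∫ ω, ρ ω * (A (κ ω) - A (κ' ω)) ∂μ := by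
  obtain ⟨d1, i1, e1⟩ := hA.mint_signed μ ρ hρ κ hκ hi
  obtain ⟨d2, i2, e2⟩ := hA.mint_signed μ ρ hρ κ' hκ' hi'
  have hint : ∀ (κ : Ω → ConvexBody V), AEStronglyMeasurable κ μ →
      Integrable (fun ω => ρ ω * (1 + dist (κ ω) 0)) μ → ∀ v : V,
      Integrable (fun ω => ρ ω * hs (κ ω) v) μ := by
    intro κ hκ hi v
    refine Integrable.mono' (hi.norm.mul_const ‖v‖)
      (hρ.mul ((continuous_hs_left v).comp_aestronglyMeasurable hκ)) ?_
    refine Eventually.of_forall fun ω => ?_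
    rw [norm_mul, norm_mul]
    have h1 := abs_hs_le (κ ω) v
    have h2 : ‖hs (κ ω) v‖ ≤ ‖1 + dist (κ ω) 0‖ * ‖v‖ := by
      rw [Real.norm_eq_abs, Real.norm_of_nonneg (by positivity)]
      have := norm_nonneg v
      linarith
    have h3 := mul_le_mul_of_nonneg_left h2 (norm_nonneg (ρ ω))
    linarith
  have hff : f = fun v => C⁻¹ * ((∫ ω, ρ ω * hs (κ ω) v ∂μ) + (-1) * ∫ ω, ρ ω * hs (κ' ω) v ∂μ) := by
    funext v
    have h1 := hf v
    have h2 : ∫ ω, ρ ω * (hs (κ ω) v - hs (κ' ω) v) ∂μ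
        = (∫ ω, ρ ω * hs (κ ω) v ∂μ) - ∫ ω, ρ ω * hs (κ' ω) v ∂μ := by
      rw [← integral_sub (hint κ hκ hi v) (hint κ' hκ' hi' v)]
      refine integral_congr_ae (Eventually.of_forall fun ω => ?_)
      simp only
      ring
    rw [h2] at h1
    field_simp
    linarith
  have dd : IsDiff f := by
    rw [hff]
    exact (d1.add (d2.smul (-1))).smul C⁻¹
  refine ⟨dd, ?_, ?_⟩
  · have := i1.sub i2
    refine this.congr (Eventually.of_forall fun ω => ?_)
    simp only [Pi.sub_apply]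
    ring
  · have s1 := ext_smul hA (-1) d2
    have s2 := ext_add hA d1 (d2.smul (-1))
    have s3 := ext_smul hA C⁻¹ (d1.add (d2.smul (-1)))
    have s4 : ext A f = C⁻¹ * ((∫ ω, ρ ω * A (κ ω) ∂μ) + (-1) * ∫ ω, ρ ω * A (κ' ω) ∂μ) := by
      rw [hff, s3, s2, s1, e1, e2]
    rw [s4, neg_one_mul, ← sub_eq_add_neg, ← integral_sub i1 i2]
    congr 1
    refine integral_congr_ae (Eventually.of_forall fun ω => ?_)
    simp only
    ring

theorem norm_rho_le (k : ℕ) (c : V) (p : V × V) : |(zc c p ^ k).re| ≤ (2 * ‖c‖ * ‖p‖) ^ k := by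
  refine (Complex.abs_re_le_norm _).trans ?_
  rw [norm_pow]
  exact pow_le_pow_left₀ (norm_nonneg _) (norm_zc_le c p) k

/-- `pk_int` for all exponents -/
theorem pk_int_all (k : ℕ) : ∃ ε C : ℝ, 0 < ε ∧ 0 < C ∧
    (∀ c v : V, ∫ p : V × V, wv ε v p * (zc c p ^ k).re ∂((stdGaussian V).prod (stdGaussian V))
      = C * pk k c v) ∧
    ∀ (c : V) (A : ConvexBody V → ℝ), IsAdd A → IsDiff (pk k c) ∧
      ext A (pk k c) = C⁻¹ * ∫ p : V × V, (zc c p ^ k).re * (A (k1 ε p) - A (k2 p))
          ∂((stdGaussian V).prod (stdGaussian V)) := by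
  obtain ⟨ε, hε, hC⟩ := const_pos k
  refine ⟨ε, _, hε, hC, fun c v => core hε k c v, ?_⟩
  intro c A hA
  have hz : Continuous (fun p : V × V => (zc c p ^ k).re) :=
    Complex.continuous_re.comp ((zc_continuous c).pow k)
  have hi : ∀ (κ : V × V → ConvexBody V) (_ : Continuous κ) (D : ℝ) (_ : 0 ≤ D)
      (_ : ∀ p, dist (κ p) 0 ≤ D * ‖p‖),
      Integrable (fun p : V × V => (zc c p ^ k).re * (1 + dist (κ p) 0))
        ((stdGaussian V).prod (stdGaussian V)) := by
    intro κ hκ D hD hD2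
    refine int_poly _ (hz.mul (by fun_prop)) ((2 * ‖c‖) ^ k * (1 + D)) (k + 1) ?_
    intro p
    rw [norm_mul, Real.norm_eq_abs, Real.norm_of_nonneg (by positivity)]
    have h1 := norm_rho_le k c p
    have h2 := hD2 p
    have h3 := norm_nonneg p
    have h4 := norm_nonneg c
    calc |(zc c p ^ k).re| * (1 + dist (κ p) 0)
        ≤ (2 * ‖c‖ * (1 + ‖p‖)) ^ k * ((1 + D) * (1 + ‖p‖)) := by
          gcongr
          · refine h1.trans ?_
            gcongr
            linarith
          · nlinarith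
      _ = (2 * ‖c‖) ^ k * (1 + D) * (1 + ‖p‖) ^ (k + 1) := by
          rw [mul_pow]; ring
  have := mint_pair hA ((stdGaussian V).prod (stdGaussian V)) (fun p => (zc c p ^ k).re)
    hz.aestronglyMeasurable (k1 ε) k2 (k1_continuous ε).aestronglyMeasurable
    k2_continuous.aestronglyMeasurable (hi _ (k1_continuous ε) (3 + ε) (by positivity)
      (dist_k1_le hε)) (hi _ k2_continuous 2 (by norm_num) dist_k2_le) (pk k c) hC.ne' (by
      intro v
      rw [← core hε k c v]
      refine integral_congr_ae (Eventually.of_forall fun p => ?_)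
      simp only [hs_k1_sub]
      ring)
  exact ⟨this.1, this.2.2⟩

end K1aux

/-- `p_{k,c}` as a signed mean of triangles and segments -/
theorem pk_int (k : ℕ) (_hk : 2 ≤ k) : ∃ ε c₁ : ℝ, 0 < ε ∧
    ∀ (c : V) (A : ConvexBody V → ℝ), IsAdd A → IsDiff (pk k c) ∧
      ext A (pk k c) = c₁ * ∫ p : V × V,
        (A (tri ((2 : ℝ) • p.1) (ε • p.2 - p.1)) - A (seg ((2 : ℝ) • p.1))) *
        ((((⟪c, p.2⟫_ℝ : ℝ) : ℂ) - Complex.I * ((⟪c, p.1⟫_ℝ : ℝ) : ℂ)) ^ k).re
          ∂((stdGaussian V).prod (stdGaussian V)) := by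
  obtain ⟨ε, C, hε, -, -, h⟩ := pk_int_all (V := V) k
  refine ⟨ε, C⁻¹, hε, fun c A hA => ⟨(h c A hA).1, ?_⟩⟩
  rw [(h c A hA).2]
  congr 1
  refine integral_congr_ae (Eventually.of_forall fun p => ?_)
  simp only [k1, k2, zc]
  ring

namespace K1aux

theorem gauss2_ac : ((stdGaussian V).prod (stdGaussian V)) ≪
    (volume : Measure V).prod (volume : Measure V) := by
  have h : stdGaussian V ≪ (volume : Measure V) := fun Z hZ => (gauss_null_iff Z).mpr hZ
  exact h.prod h

theorem gauss2_ac' : (volume : Measure V).prod (volume : Measure V) ≪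
    ((stdGaussian V).prod (stdGaussian V)) := by
  have h : (volume : Measure V) ≪ stdGaussian V := fun Z hZ => (gauss_null_iff Z).mp hZ
  exact h.prod h

/-- the linear substitution `(a,b) ↦ (2a, ε b - a)` -/
noncomputable def subst (ε : ℝ) (hε : ε ≠ 0) : (V × V) ≃ₗ[ℝ] (V × V) where
  toFun p := ((2 : ℝ) • p.1, ε • p.2 - p.1)
  invFun p := ((2 : ℝ)⁻¹ • p.1, ε⁻¹ • (p.2 + (2 : ℝ)⁻¹ • p.1))
  map_add' p q := by
    ext
    · simp
    · simp only [Prod.snd_add, Prod.fst_add, smul_add]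
      abel
  map_smul' c p := by
    ext
    · simp only [Prod.smul_fst, RingHom.id_apply, smul_smul, mul_comm]
    · simp only [Prod.smul_fst, Prod.smul_snd, RingHom.id_apply, smul_sub, smul_smul, mul_comm]
  left_inv p := by
    ext
    · simp [smul_smul]
    · simp [smul_smul, hε]
  right_inv p := by
    ext
    · simp [smul_smul]
    · simp [smul_smul, hε]

theorem ae_subst {ε : ℝ} (hε : ε ≠ 0) {P : V × V → Prop}
    (h : ∀ᵐ p ∂((stdGaussian V).prod (stdGaussian V)), P p) :
    ∀ᵐ p ∂((stdGaussian V).prod (stdGaussian V)), P ((2 : ℝ) • p.1, ε • p.2 - p.1) := by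
  have h1 : ∀ᵐ p ∂((volume : Measure V).prod (volume : Measure V)), P p := gauss2_ac'.ae_le h
  suffices hh : ∀ᵐ p ∂((volume : Measure V).prod (volume : Measure V)),
      P ((2 : ℝ) • p.1, ε • p.2 - p.1) from gauss2_ac.ae_le hh
  rw [ae_iff] at h1 ⊢
  set L : (V × V) →ₗ[ℝ] (V × V) := (subst (V := V) ε hε : (V × V) →ₗ[ℝ] (V × V)) with hL
  have hdet : LinearMap.det L ≠ 0 := (LinearEquiv.isUnit_det' (subst (V := V) ε hε)).ne_zero
  have h2 := Measure.addHaar_preimage_linearMap ((volume : Measure V).prod (volume : Measure V))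
    hdet {p | ¬ P p}
  rw [h1, mul_zero] at h2
  exact h2

end K1aux

/-- asymptotic version -/
theorem pk_tendsto (A : ℕ → ConvexBody V → ℝ) (hA : ∀ m, IsAdd (A m)) (C : ℝ)
    (hC : ∀ m K, |A m K| ≤ C * dist K 0)
    (h1 : ∀ᵐ x ∂(stdGaussian V), Tendsto (fun m => A m (seg x)) atTop (𝓝 0))
    (h2 : ∀ᵐ p ∂((stdGaussian V).prod (stdGaussian V)),
      Tendsto (fun m => A m (tri p.1 p.2)) atTop (𝓝 0))
    (k : ℕ) (_hk : k ≠ 1) (c : V) (_hc : ‖c‖ = 1) :
    IsDiff (pk k c) ∧ Tendsto (fun m => ext (A m) (pk k c)) atTop (𝓝 0) := by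
  obtain ⟨ε, D, hε, hD, -, h⟩ := pk_int_all (V := V) k
  refine ⟨(h c (A 0) (hA 0)).1, ?_⟩
  have e1 : ∀ m, ext (A m) (pk k c) = D⁻¹ * ∫ p : V × V, (zc c p ^ k).re *
      (A m (k1 ε p) - A m (k2 p)) ∂((stdGaussian V).prod (stdGaussian V)) :=
    fun m => (h c (A m) (hA m)).2
  simp only [e1]
  have goal : Tendsto (fun m => ∫ p : V × V, (zc c p ^ k).re *
      (A m (k1 ε p) - A m (k2 p)) ∂((stdGaussian V).prod (stdGaussian V))) atTop
      (𝓝 (∫ _ : V × V, (0 : ℝ) ∂((stdGaussian V).prod (stdGaussian V)))) := ?_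
  · have := goal.const_mul D⁻¹
    simpa using this
  have hz : Continuous (fun p : V × V => (zc c p ^ k).re) :=
    Complex.continuous_re.comp ((zc_continuous c).pow k)
  have hC0 : 0 ≤ C := by
    by_contra hneg
    push Not at hneg
    have h3 := hC 0 (ballB V)
    have h4 : dist (ballB V) 0 = 0 ∨ 0 < dist (ballB V) 0 := by
      rcases (dist_nonneg (x := ballB V) (y := 0)).eq_or_lt with h | h
      · exact Or.inl h.symm
      · exact Or.inr h
    rcases h4 with h4 | h4
    · have h5 : ballB V = 0 := dist_eq_zero.mp h4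
      have h6 := hs_ballB c
      rw [h5, hs_zero] at h6
      rw [_hc] at h6
      norm_num at h6
    · have := abs_nonneg (A 0 (ballB V))
      nlinarith
  refine tendsto_integral_of_dominated_convergence
    (fun p => |(zc c p ^ k).re| * (C * ((5 + ε) * ‖p‖))) ?_ ?_ ?_ ?_
  · intro m
    have hc1 := ((hA m).cont.comp (k1_continuous (V := V) ε)).sub
      ((hA m).cont.comp (k2_continuous (V := V)))
    exact (hz.mul hc1).aestronglyMeasurable
  · refine int_poly _ (hz.abs.mul (by fun_prop)) ((2 * ‖c‖) ^ k * (C * (5 + ε))) (k + 1) ?_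
    intro p
    rw [norm_mul, Real.norm_eq_abs, abs_abs, Real.norm_of_nonneg (by positivity)]
    have h1 := norm_rho_le k c p
    have h3 := norm_nonneg p
    have h4 := norm_nonneg c
    calc |(zc c p ^ k).re| * (C * ((5 + ε) * ‖p‖))
        ≤ (2 * ‖c‖ * (1 + ‖p‖)) ^ k * (C * ((5 + ε) * (1 + ‖p‖))) := by
          gcongr
          · refine h1.trans ?_
            gcongr
            linarith
          · linarith
      _ = (2 * ‖c‖) ^ k * (C * (5 + ε)) * (1 + ‖p‖) ^ (k + 1) := by
          rw [mul_pow]; ring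
  · intro m
    refine Eventually.of_forall fun p => ?_
    rw [norm_mul, Real.norm_eq_abs, Real.norm_eq_abs]
    refine mul_le_mul_of_nonneg_left ?_ (abs_nonneg _)
    refine (abs_sub _ _).trans ?_
    have a1 := hC m (k1 ε p)
    have a2 := hC m (k2 p)
    have a3 := mul_le_mul_of_nonneg_left (dist_k1_le hε p) hC0
    have a4 := mul_le_mul_of_nonneg_left (dist_k2_le p) hC0
    linarith
  · have h2' := ae_subst (V := V) hε.ne' h2
    have h1' : ∀ᵐ p ∂((stdGaussian V).prod (stdGaussian V)),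
        Tendsto (fun m => A m (seg p.1)) atTop (𝓝 0) :=
      (Measure.quasiMeasurePreserving_fst (μ := stdGaussian V) (ν := stdGaussian V)).ae h1
    filter_upwards [h1', h2'] with p q1 q2
    have q3 : ∀ m, A m (k2 p) = 2 * A m (seg p.1) := by
      intro m
      unfold k2
      rw [← smul_seg (by norm_num : (0:ℝ) ≤ 2), ext_const_smul (hA m) (by norm_num)]
    simp only [q3]
    have q4 := (q2.sub (q1.const_mul 2)).const_mul ((zc c p ^ k).re)
    simpa [k1] using q4

namespace K1aux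

/-- functions killed by `A` -/
def Nul (A : ConvexBody V → ℝ) (f : V → ℝ) : Prop := IsDiff f ∧ ext A f = 0

theorem Nul.smul (hA : IsAdd A) {f : V → ℝ} (c : ℝ) (h : Nul A f) : Nul A (fun v => c * f v) :=
  ⟨h.1.smul c, by rw [ext_smul hA c h.1, h.2, mul_zero]⟩

theorem Nul.add (hA : IsAdd A) {f g : V → ℝ} (hf : Nul A f) (hg : Nul A g) :
    Nul A (fun v => f v + g v) :=
  ⟨hf.1.add hg.1, by rw [ext_add hA hf.1 hg.1, hf.2, hg.2, add_zero]⟩

theorem Nul.zero (hA : IsAdd A) : Nul A (fun _ => 0) := by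
  have h := (⟨IsDiff.hs (0 : ConvexBody V), by
    rw [ext_hs hA, ← pt_zero, hA.pt]⟩ : Nul A (hs (0 : ConvexBody V)))
  have h2 : (hs (0 : ConvexBody V)) = fun _ => 0 := by
    funext v
    exact hs_zero v
  rwa [h2] at h

theorem Nul.sum (hA : IsAdd A) {ι : Type*} (s : Finset ι) (f : ι → V → ℝ)
    (h : ∀ i ∈ s, Nul A (f i)) : Nul A (fun v => ∑ i ∈ s, f i v) := by
  classical
  induction s using Finset.induction_on with
  | empty => simpa using Nul.zero hA
  | insert a s ha ih =>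
    have h1 := h a (Finset.mem_insert_self _ _)
    have h2 := ih (fun i hi => h i (Finset.mem_insert_of_mem hi))
    have h3 := Nul.add hA h1 h2
    refine (show (fun v => ∑ i ∈ insert a s, f i v) = fun v => f a v + ∑ i ∈ s, f i v from ?_) ▸ h3
    funext v
    rw [Finset.sum_insert ha]

theorem zc_continuous2 : Continuous (fun q : V × (V × V) => zc q.1 q.2) := by
  unfold zc
  fun_prop

theorem rho_le2 (k : ℕ) (q : V × (V × V)) :
    |(zc q.1 q.2 ^ k).re| ≤ 2 ^ k * (1 + ‖q‖) ^ (2 * k) := by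
  refine (norm_rho_le k q.1 q.2).trans ?_
  have h1 := norm_fst_le q
  have h2 := norm_snd_le q
  have h3 := norm_nonneg q.1
  have h4 := norm_nonneg q.2
  rw [pow_mul, ← mul_pow]
  apply pow_le_pow_left₀ (by positivity)
  nlinarith [norm_nonneg q]

/-- weighted means of polynomial functions are killed -/
theorem nul_mean (hA : IsAdd A) (k : ℕ) (h : ∀ c : V, ext A (pk k c) = 0) (φ : V → ℝ)
    (hφ : Continuous φ) (D : ℝ) (hD : ∀ w, |φ w| ≤ D * (1 + ‖w‖)) :
    Nul A (fun v => ∫ w, φ w * pk k w v ∂(stdGaussian V)) := by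
  obtain ⟨ε, C, hε, hC, hcore, hint⟩ := pk_int_all (V := V) k
  have hD0 : 0 ≤ D := by
    have := (abs_nonneg _).trans (hD 0)
    simpa using this
  set ρ : V × (V × V) → ℝ := fun q => φ q.1 * (zc q.1 q.2 ^ k).re with hρ
  have hρc : Continuous ρ := (hφ.comp continuous_fst).mul
    (Complex.continuous_re.comp (zc_continuous2.pow k))
  have hρb : ∀ q, |ρ q| ≤ D * 2 ^ k * (1 + ‖q‖) ^ (2 * k + 1) := by
    intro q
    rw [hρ]
    simp only
    rw [abs_mul]
    have h1 := hD q.1
    have h2 := rho_le2 k q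
    have h3 := norm_fst_le q
    calc |φ q.1| * |(zc q.1 q.2 ^ k).re| ≤ (D * (1 + ‖q‖)) * (2 ^ k * (1 + ‖q‖) ^ (2 * k)) := by
          gcongr
          refine h1.trans ?_
          gcongr
      _ = D * 2 ^ k * (1 + ‖q‖) ^ (2 * k + 1) := by ring
  have hi : ∀ (g : V × (V × V) → ℝ) (_ : Continuous g) (B : ℝ) (_ : 0 ≤ B)
      (_ : ∀ q, |g q| ≤ B * (1 + ‖q‖)), Integrable (fun q => ρ q * g q)
        ((stdGaussian V).prod ((stdGaussian V).prod (stdGaussian V))) := by
    intro g hg B hB hB2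
    refine int_poly _ (hρc.mul hg) (D * 2 ^ k * B) (2 * k + 2) ?_
    intro q
    rw [norm_mul, Real.norm_eq_abs, Real.norm_eq_abs]
    calc |ρ q| * |g q| ≤ (D * 2 ^ k * (1 + ‖q‖) ^ (2 * k + 1)) * (B * (1 + ‖q‖)) := by
          gcongr
          · exact hρb q
          · exact hB2 q
      _ = D * 2 ^ k * B * (1 + ‖q‖) ^ (2 * k + 2) := by ring
  have c1 : Continuous (fun q : V × (V × V) => k1 ε q.2) :=
    (k1_continuous ε).comp continuous_snd
  have c2 : Continuous (fun q : V × (V × V) => k2 q.2) := k2_continuous.comp continuous_snd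
  have b1 : ∀ q : V × (V × V), dist (k1 ε q.2) 0 ≤ (3 + ε) * ‖q‖ := fun q =>
    (dist_k1_le hε q.2).trans (mul_le_mul_of_nonneg_left (norm_snd_le q) (by positivity))
  have b2 : ∀ q : V × (V × V), dist (k2 q.2) 0 ≤ 2 * ‖q‖ := fun q =>
    (dist_k2_le q.2).trans (mul_le_mul_of_nonneg_left (norm_snd_le q) (by positivity))
  have hmain := mint_pair hA ((stdGaussian V).prod ((stdGaussian V).prod (stdGaussian V))) ρ
    hρc.aestronglyMeasurable (fun q => k1 ε q.2) (fun q => k2 q.2) c1.aestronglyMeasurable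
    c2.aestronglyMeasurable
    (hi (fun q => 1 + dist (k1 ε q.2) 0) (continuous_const.add (c1.dist continuous_const))
      (4 + ε) (by positivity) (fun q => by
        rw [abs_of_nonneg (by positivity)]
        have := b1 q
        have := norm_nonneg q
        nlinarith))
    (hi (fun q => 1 + dist (k2 q.2) 0) (continuous_const.add (c2.dist continuous_const))
      3 (by positivity) (fun q => by
        rw [abs_of_nonneg (by positivity)]
        have := b2 q
        have := norm_nonneg q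
        linarith))
    (fun v => ∫ w, φ w * pk k w v ∂(stdGaussian V)) hC.ne' (by
      intro v
      simp only [hs_k1_sub]
      have hcw : Continuous (fun q : V × (V × V) => wv ε v q.2) := by
        unfold wv
        fun_prop
      have i1 := hi (fun q => wv ε v q.2) hcw ((ε + 1) * ‖v‖) (by positivity) (fun q => by
        unfold wv
        rw [abs_of_nonneg (le_max_left _ _)]
        apply max_le (by positivity)
        have h1 : ⟪v, q.2.2⟫_ℝ ≤ ‖v‖ * (1 + ‖q‖) := by
          refine (real_inner_le_norm _ _).trans ?_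
          apply mul_le_mul_of_nonneg_left _ (norm_nonneg v)
          have := (norm_snd_le q.2).trans (norm_snd_le q)
          linarith
        have h2 := abs_nonneg ⟪v, q.2.1⟫_ℝ
        have h3 := mul_le_mul_of_nonneg_left h1 hε.le
        have h4 : 0 ≤ ‖v‖ * (1 + ‖q‖) := by positivity
        nlinarith)
      rw [integral_prod _ i1, ← integral_const_mul]
      refine integral_congr_ae (Eventually.of_forall fun w => ?_)
      simp only [hρ]
      have h5 : ∀ p : V × V, φ w * (zc w p ^ k).re * wv ε v p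
          = φ w * (wv ε v p * (zc w p ^ k).re) := fun p => by ring
      simp only [h5]
      rw [integral_const_mul, hcore]
      ring)
  refine ⟨hmain.1, ?_⟩
  rw [hmain.2.2, integral_prod _ hmain.2.1]
  have hz : ∀ w : V, ∫ p : V × V, ρ (w, p) * (A (k1 ε p) - A (k2 p))
      ∂((stdGaussian V).prod (stdGaussian V)) = 0 := by
    intro w
    have e1 := (hint w A hA).2
    rw [h w] at e1
    have e2 : ∫ p : V × V, (zc w p ^ k).re * (A (k1 ε p) - A (k2 p))
          ∂((stdGaussian V).prod (stdGaussian V)) = 0 := by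
      rcases mul_eq_zero.mp e1.symm with h1 | h1
      · exact absurd h1 (inv_ne_zero hC.ne')
      · exact h1
    simp only [hρ]
    have h5 : ∀ p : V × V, φ w * (zc w p ^ k).re * (A (k1 ε p) - A (k2 p))
          = φ w * ((zc w p ^ k).re * (A (k1 ε p) - A (k2 p))) := fun p => by ring
    simp only [h5]
    rw [integral_const_mul, e2, mul_zero]
  simp only [hz]
  simp

/-! #### Gaussian matrices -/

variable (V) in
/-- matrices, as families of columns -/
abbrev Mat := PiLp 2 (fun _ : Fin (Module.finrank ℝ V) => V)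

/-- the matrix applied to a vector -/
noncomputable def ev (v : V) (g : Mat V) : V :=
  ∑ i, ⟪stdOrthonormalBasis ℝ V i, v⟫_ℝ • g i

variable (V) in
/-- the identity matrix -/
noncomputable def idm : Mat V := WithLp.toLp 2 (fun i => stdOrthonormalBasis ℝ V i)

theorem ev_continuous : Continuous (fun q : V × Mat V => ev q.1 q.2) := by
  unfold ev
  fun_prop

theorem ev_add_left (v w : V) (g : Mat V) : ev (v + w) g = ev v g + ev w g := by
  simp only [ev, inner_add_right, add_smul, Finset.sum_add_distrib]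

theorem ev_smul_left (c : ℝ) (v : V) (g : Mat V) : ev (c • v) g = c • ev v g := by
  simp only [ev, real_inner_smul_right, Finset.smul_sum, smul_smul]

theorem ev_add_right (v : V) (g h : Mat V) : ev v (g + h) = ev v g + ev v h := by
  simp only [ev, PiLp.add_apply, smul_add, Finset.sum_add_distrib]

theorem ev_smul_right (c : ℝ) (v : V) (g : Mat V) : ev v (c • g) = c • ev v g := by
  simp only [ev, PiLp.smul_apply, Finset.smul_sum, smul_smul, mul_comm]

theorem ev_idm (v : V) : ev v (idm V) = v := by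
  have := (stdOrthonormalBasis ℝ V).sum_repr' v
  exact this

theorem norm_ev_le (v : V) (g : Mat V) : ‖ev v g‖ ≤ ‖v‖ * ‖g‖ := by
  have h1 : ‖ev v g‖ ≤ ∑ i, |⟪stdOrthonormalBasis ℝ V i, v⟫_ℝ| * ‖g i‖ := by
    refine (norm_sum_le _ _).trans ?_
    refine Finset.sum_le_sum fun i _ => ?_
    rw [norm_smul, Real.norm_eq_abs]
  have h2 := Finset.sum_mul_sq_le_sq_mul_sq Finset.univ
    (fun i => |⟪stdOrthonormalBasis ℝ V i, v⟫_ℝ|) (fun i => ‖g i‖)
  have h3 : ∑ i, |⟪stdOrthonormalBasis ℝ V i, v⟫_ℝ| ^ 2 = ‖v‖ ^ 2 := by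
    simp only [sq_abs]
    exact (stdOrthonormalBasis ℝ V).sum_sq_inner_right v
  have h4 : ∑ i, ‖g i‖ ^ 2 = ‖g‖ ^ 2 := (PiLp.norm_sq_eq_of_L2 _ g).symm
  rw [h3, h4, ← mul_pow] at h2
  have h5 : 0 ≤ ∑ i, |⟪stdOrthonormalBasis ℝ V i, v⟫_ℝ| * ‖g i‖ :=
    Finset.sum_nonneg fun i _ => by positivity
  exact h1.trans ((sq_le_sq₀ h5 (by positivity)).mp h2)

theorem inner_idm (g : Mat V) : ⟪idm V, g⟫_ℝ = ∑ i, ⟪stdOrthonormalBasis ℝ V i, g i⟫_ℝ := by
  rw [PiLp.inner_apply]
  rfl

/-- joint law of `G v` and the trace -/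
theorem joint_law (v : V) (hv : ‖v‖ = 1) :
    (stdGaussian (Mat V)).map (fun g => (ev v g, ⟪idm V, g⟫_ℝ - ⟪v, ev v g⟫_ℝ))
      = (stdGaussian V).prod (gaussianReal 0 ((Module.finrank ℝ V : ℝ) - 1).toNNReal) := by
  set b := stdOrthonormalBasis ℝ V with hb
  have hev : Continuous (fun g : Mat V => ev v g) :=
    ev_continuous.comp (continuous_const.prodMk continuous_id)
  have hc : Continuous (fun g : Mat V => (ev v g, ⟪idm V, g⟫_ℝ - ⟪v, ev v g⟫_ℝ)) := by
    fun_prop
  have hfr : (1 : ℝ) ≤ Module.finrank ℝ V := by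
    have : 0 < Module.finrank ℝ V := by
      rw [Module.finrank_pos_iff_exists_ne_zero]
      refine ⟨v, ?_⟩
      intro h0
      rw [h0, norm_zero] at hv
      norm_num at hv
    exact_mod_cast this
  have hvv : ⟪v, v⟫_ℝ = 1 := by rw [real_inner_self_eq_norm_sq, hv]; norm_num
  have hpm : IsProbabilityMeasure ((stdGaussian (Mat V)).map
      (fun g => (ev v g, ⟪idm V, g⟫_ℝ - ⟪v, ev v g⟫_ℝ))) :=
    Measure.isProbabilityMeasure_map hc.measurable.aemeasurable
  apply charFun_eq_prod_iff.mp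
  intro t
  set y : V := t.ofLp.1 with hy
  set τ : ℝ := t.ofLp.2 with hτ
  set ξ : Mat V := WithLp.toLp 2 (fun i => ⟪b i, v⟫_ℝ • y + τ • (b i - ⟪b i, v⟫_ℝ • v)) with hξ
  have hml : Measurable (WithLp.toLp 2 : V × ℝ → WithLp 2 (V × ℝ)) := by fun_prop
  rw [Measure.map_map hml hc.measurable, charFun_apply,
    integral_map (hml.comp hc.measurable).aemeasurable
      (Continuous.aestronglyMeasurable (by fun_prop))]
  have h1 : ∀ g : Mat V, ⟪(WithLp.toLp 2 ∘ fun g => (ev v g, ⟪idm V, g⟫_ℝ - ⟪v, ev v g⟫_ℝ)) g, t⟫_ℝ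
      = ⟪g, ξ⟫_ℝ := by
    intro g
    rw [WithLp.prod_inner_apply, PiLp.inner_apply]
    change ⟪ev v g, y⟫_ℝ + ⟪⟪idm V, g⟫_ℝ - ⟪v, ev v g⟫_ℝ, τ⟫_ℝ
      = ∑ i, ⟪g i, ⟪b i, v⟫_ℝ • y + τ • (b i - ⟪b i, v⟫_ℝ • v)⟫_ℝ
    have e3 : ∀ a c : ℝ, ⟪a, c⟫_ℝ = c * a := fun a c => rfl
    rw [e3, inner_idm]
    simp only [inner_add_right, real_inner_smul_right, inner_sub_right,
      ev, sum_inner, inner_sum, real_inner_smul_left, ← hb]
    have e1 : ∀ i, ⟪b i, g i⟫_ℝ = ⟪g i, b i⟫_ℝ := fun i => real_inner_comm _ _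
    have e2 : ∀ i, ⟪v, g i⟫_ℝ = ⟪g i, v⟫_ℝ := fun i => real_inner_comm _ _
    simp only [e1, e2]
    rw [Finset.sum_add_distrib, ← Finset.mul_sum, Finset.sum_sub_distrib]
  simp only [h1]
  rw [← charFun_apply, charFun_stdGaussian, charFun_stdGaussian, charFun_gaussianReal,
    ← Complex.exp_add]
  congr 1
  have h2 : ‖ξ‖ ^ 2 = ‖y‖ ^ 2 + τ ^ 2 * ((Module.finrank ℝ V : ℝ) - 1) := by
    rw [PiLp.norm_sq_eq_of_L2]
    have e1 : ∀ i, ‖ξ i‖ ^ 2 = ⟪b i, v⟫_ℝ ^ 2 * ‖y‖ ^ 2
        + 2 * τ * (⟪y, b i⟫_ℝ * ⟪b i, v⟫_ℝ - ⟪b i, v⟫_ℝ ^ 2 * ⟪y, v⟫_ℝ)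
        + τ ^ 2 * (1 - ⟪b i, v⟫_ℝ ^ 2) := by
      intro i
      have hbi : ‖b i‖ = 1 := b.orthonormal.1 i
      have hbb : ⟪b i, b i⟫_ℝ = 1 := by rw [real_inner_self_eq_norm_sq, hbi]; norm_num
      have : ξ i = ⟪b i, v⟫_ℝ • y + τ • (b i - ⟪b i, v⟫_ℝ • v) := rfl
      rw [this, ← real_inner_self_eq_norm_sq]
      simp only [inner_add_left, inner_add_right, real_inner_smul_left, real_inner_smul_right,
        inner_sub_left, inner_sub_right, hvv, hbb, real_inner_self_eq_norm_sq y,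
        real_inner_comm y (b i), real_inner_comm y v, real_inner_comm (b i) v]
      ring
    simp only [e1]
    rw [Finset.sum_add_distrib, Finset.sum_add_distrib, ← Finset.sum_mul, ← Finset.mul_sum,
      ← Finset.mul_sum, Finset.sum_sub_distrib, Finset.sum_sub_distrib, ← Finset.sum_mul,
      b.sum_sq_inner_right, b.sum_inner_mul_inner, hv]
    simp
  have h3 : (‖ξ‖ : ℂ) ^ 2 = (‖y‖ : ℂ) ^ 2 + (τ : ℂ) ^ 2 * ((Module.finrank ℝ V : ℂ) - 1) := by
    exact_mod_cast h2
  rw [h3]
  have h4 : ((((Module.finrank ℝ V : ℝ) - 1).toNNReal : ℝ) : ℂ) = (Module.finrank ℝ V : ℂ) - 1 := by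
    rw [Real.coe_toNNReal _ (by linarith)]
    push_cast
    ring
  rw [show ((((Module.finrank ℝ V : ℝ) - 1).toNNReal : NNReal) : ℂ)
    = ((((Module.finrank ℝ V : ℝ) - 1).toNNReal : ℝ) : ℂ) from rfl, h4]
  push_cast
  ring

end K1aux

namespace K1aux

/-- the polynomial weight -/
noncomputable def wt (l : ℝ) (N : ℕ) (g : Mat V) : ℝ := (1 + l * ⟪idm V, g⟫_ℝ / N) ^ N

theorem wt_continuous (l : ℝ) (N : ℕ) : Continuous (wt (V := V) l N) := by
  unfold wt
  fun_prop

theorem ev_cont (v : V) : Continuous (fun g : Mat V => ev v g) :=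
  ev_continuous.comp (continuous_const.prodMk continuous_id)

theorem wt_le (l : ℝ) (N : ℕ) (g : Mat V) :
    |wt l N g| ≤ (1 + |l| * ‖idm V‖) ^ N * (1 + ‖g‖) ^ N := by
  unfold wt
  rw [abs_pow, ← mul_pow]
  apply pow_le_pow_left₀ (abs_nonneg _)
  refine (abs_add_le _ _).trans ?_
  rw [abs_one, abs_div, abs_mul, Nat.abs_cast]
  have h1 : |⟪idm V, g⟫_ℝ| ≤ ‖idm V‖ * ‖g‖ := abs_real_inner_le_norm _ _
  have h2 : |l| * |⟪idm V, g⟫_ℝ| / N ≤ |l| * |⟪idm V, g⟫_ℝ| := by
    rcases Nat.eq_zero_or_pos N with rfl | hN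
    · simp only [Nat.cast_zero, div_zero]; positivity
    · apply div_le_self (by positivity)
      exact_mod_cast hN
  have h3 := mul_le_mul_of_nonneg_left h1 (abs_nonneg l)
  have h4 := norm_nonneg (idm V)
  have h5 := norm_nonneg g
  have h6 := abs_nonneg l
  nlinarith [mul_nonneg (mul_nonneg h6 h4) h5, mul_nonneg h6 h4]

theorem int_wt (K : ConvexBody V) (v : V) (l : ℝ) (N : ℕ) :
    Integrable (fun g => hs K (ev v g) * wt l N g) (stdGaussian (Mat V)) := by
  refine int_poly _ (((continuous_hs_right K).comp (ev_cont v)).mul (wt_continuous l N))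
    (dist K 0 * ‖v‖ * (1 + |l| * ‖idm V‖) ^ N) (N + 1) ?_
  intro g
  rw [norm_mul, Real.norm_eq_abs, Real.norm_eq_abs]
  have h1 := abs_hs_le K (ev v g)
  have h2 := norm_ev_le v g
  have h3 := wt_le l N g
  have h5 := norm_nonneg g
  calc |hs K (ev v g)| * |wt l N g|
      ≤ (dist K 0 * (‖v‖ * (1 + ‖g‖))) * ((1 + |l| * ‖idm V‖) ^ N * (1 + ‖g‖) ^ N) := by
        gcongr
        refine h1.trans ?_
        gcongr
        refine h2.trans ?_
        gcongr
        linarith
    _ = dist K 0 * ‖v‖ * (1 + |l| * ‖idm V‖) ^ N * (1 + ‖g‖) ^ (N + 1) := by ring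

/-- the smoothed function is polynomial -/
theorem smooth_unit (K : ConvexBody V) (v : V) (hv : ‖v‖ = 1) (l : ℝ) (N : ℕ) :
    ∫ g, hs K (ev v g) * wt l N g ∂(stdGaussian (Mat V))
      = ∑ k ∈ Finset.range (N + 1), ((N.choose k : ℝ) * (l / N) ^ k *
        ∫ s, (1 + l * s / N) ^ (N - k) ∂(gaussianReal 0 ((Module.finrank ℝ V : ℝ) - 1).toNNReal)) *
        ∫ w, hs K w * pk k w v ∂(stdGaussian V) := by
  set m := ((Module.finrank ℝ V : ℝ) - 1).toNNReal with hm
  have hc : Continuous (fun g : Mat V => (ev v g, ⟪idm V, g⟫_ℝ - ⟪v, ev v g⟫_ℝ)) := by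
    have := ev_cont v
    fun_prop
  have hF : Continuous (fun q : V × ℝ => hs K q.1 * (1 + l * (q.2 + ⟪v, q.1⟫_ℝ) / N) ^ N) := by
    have := continuous_hs_right K
    fun_prop
  have h1 : ∫ g, hs K (ev v g) * wt l N g ∂(stdGaussian (Mat V))
      = ∫ q, hs K q.1 * (1 + l * (q.2 + ⟪v, q.1⟫_ℝ) / N) ^ N
        ∂((stdGaussian V).prod (gaussianReal 0 m)) := by
    rw [hm, ← joint_law v hv]
    rw [integral_map hc.measurable.aemeasurable hF.aestronglyMeasurable]
    refine integral_congr_ae (Eventually.of_forall fun g => ?_)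
    simp only [wt, sub_add_cancel]
  rw [h1]
  have h2 : ∀ q : V × ℝ, hs K q.1 * (1 + l * (q.2 + ⟪v, q.1⟫_ℝ) / N) ^ N
      = ∑ k ∈ Finset.range (N + 1), ((N.choose k : ℝ) * (l / N) ^ k) *
        ((hs K q.1 * pk k q.1 v) * (1 + l * q.2 / N) ^ (N - k)) := by
    intro q
    have e1 : 1 + l * (q.2 + ⟪v, q.1⟫_ℝ) / N = l / N * ⟪q.1, v⟫_ℝ + (1 + l * q.2 / N) := by
      rw [real_inner_comm q.1 v]
      ring
    rw [e1, add_pow, Finset.mul_sum]
    refine Finset.sum_congr rfl fun k _ => ?_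
    unfold pk
    rw [hv, one_mul, div_one, mul_pow]
    ring
  simp only [h2]
  have hp : ∀ k : ℕ, Integrable (fun w : V => hs K w * pk k w v) (stdGaussian V) := by
    intro k
    have hc1 : Continuous (fun w : V => hs K w * pk k w v) := by
      unfold pk
      have := continuous_hs_right K
      fun_prop
    refine int_poly _ hc1 (dist K 0) (k + 1) ?_
    intro w
    rw [norm_mul, Real.norm_eq_abs, Real.norm_eq_abs]
    have a1 := abs_hs_le K w
    have a2 : |pk k w v| ≤ (1 + ‖w‖) ^ k := by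
      unfold pk
      rw [hv, one_mul, div_one, abs_pow]
      apply pow_le_pow_left₀ (abs_nonneg _)
      have := abs_real_inner_le_norm w v
      rw [hv, mul_one] at this
      linarith
    calc |hs K w| * |pk k w v| ≤ (dist K 0 * (1 + ‖w‖)) * (1 + ‖w‖) ^ k := by
          gcongr
          refine a1.trans ?_
          gcongr
          linarith
      _ = dist K 0 * (1 + ‖w‖) ^ (k + 1) := by ring
  have hq : ∀ j : ℕ, Integrable (fun s : ℝ => (1 + l * s / N) ^ j) (gaussianReal 0 m) := by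
    intro j
    refine int_poly _ (by fun_prop) ((1 + |l|) ^ j) j ?_
    intro s
    rw [norm_pow, ← mul_pow]
    apply pow_le_pow_left₀ (norm_nonneg _)
    rw [Real.norm_eq_abs]
    refine (abs_add_le _ _).trans ?_
    rw [abs_one, abs_div, abs_mul, Nat.abs_cast, Real.norm_eq_abs]
    have h2 : |l| * |s| / N ≤ |l| * |s| := by
      rcases Nat.eq_zero_or_pos N with rfl | hN
      · simp only [Nat.cast_zero, div_zero]; positivity
      · apply div_le_self (by positivity)
        exact_mod_cast hN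
    have := abs_nonneg l
    have := abs_nonneg s
    nlinarith
  rw [integral_finsetSum _ (fun k _ => ((hp k).mul_prod (hq (N - k))).const_mul _)]
  refine Finset.sum_congr rfl fun k _ => ?_
  rw [integral_const_mul, integral_prod_mul (fun w : V => hs K w * pk k w v)
    (fun s : ℝ => (1 + l * s / N) ^ (N - k))]
  ring

theorem pk_smul (k : ℕ) (w v : V) {c : ℝ} (hc : 0 ≤ c) : pk k w (c • v) = c * pk k w v := by
  unfold pk
  rcases hc.eq_or_lt with rfl | hc
  · simp
  · rw [norm_smul, Real.norm_of_nonneg hc.le, real_inner_smul_right,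
      mul_div_mul_left _ _ hc.ne']
    ring

theorem smooth_all (K : ConvexBody V) (v : V) (l : ℝ) (N : ℕ) :
    ∫ g, hs K (ev v g) * wt l N g ∂(stdGaussian (Mat V))
      = ∑ k ∈ Finset.range (N + 1), ((N.choose k : ℝ) * (l / N) ^ k *
        ∫ s, (1 + l * s / N) ^ (N - k) ∂(gaussianReal 0 ((Module.finrank ℝ V : ℝ) - 1).toNNReal)) *
        ∫ w, hs K w * pk k w v ∂(stdGaussian V) := by
  by_cases hv : v = 0
  · subst hv
    have h1 : ∀ g : Mat V, ev 0 g = 0 := by
      intro g
      simp [ev]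
    have h2 : ∀ (k : ℕ) (w : V), pk k w 0 = 0 := by
      intro k w
      simp [pk]
    simp [h1, h2]
  · have hn : ‖v‖ ≠ 0 := norm_ne_zero_iff.mpr hv
    set u : V := ‖v‖⁻¹ • v with hu
    have hu1 : ‖u‖ = 1 := by rw [hu, norm_smul, norm_inv, norm_norm, inv_mul_cancel₀ hn]
    have hvu : ‖v‖ • u = v := by rw [hu, smul_smul, mul_inv_cancel₀ hn, one_smul]
    have h1 : ∀ g : Mat V, hs K (ev v g) * wt l N g = ‖v‖ * (hs K (ev u g) * wt l N g) := by
      intro g
      have : ev v g = ‖v‖ • ev u g := by rw [← ev_smul_left, hvu]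
      rw [this, hs_smul_right K (norm_nonneg v)]
      ring
    have h2 : ∀ (k : ℕ) (w : V), hs K w * pk k w v = ‖v‖ * (hs K w * pk k w u) := by
      intro k w
      have : pk k w v = ‖v‖ * pk k w u := by rw [← pk_smul k w u (norm_nonneg v), hvu]
      rw [this]
      ring
    simp only [h1, h2]
    rw [integral_const_mul, smooth_unit K u hu1, Finset.mul_sum]
    refine Finset.sum_congr rfl fun k _ => ?_
    rw [integral_const_mul]
    ring

/-- the polynomially smoothed bodies are killed -/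
theorem smooth_zero (hA : IsAdd A) (h : ∀ (k : ℕ) (c : V), ext A (pk k c) = 0)
    (K : ConvexBody V) (l : ℝ) (N : ℕ) (B : ConvexBody V)
    (hB : ∀ v, hs B v = ∫ g, hs K (ev v g) * wt l N g ∂(stdGaussian (Mat V))) : A B = 0 := by
  have h1 : Nul A (hs B) := by
    have h2 : hs B = fun v => ∑ k ∈ Finset.range (N + 1), ((N.choose k : ℝ) * (l / N) ^ k *
        ∫ s, (1 + l * s / N) ^ (N - k) ∂(gaussianReal 0 ((Module.finrank ℝ V : ℝ) - 1).toNNReal)) *
        ∫ w, hs K w * pk k w v ∂(stdGaussian V) := by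
      funext v
      rw [hB, smooth_all]
    rw [h2]
    refine Nul.sum hA _ _ fun k _ => Nul.smul hA _ ?_
    refine nul_mean hA k (h k) (hs K) (continuous_hs_right K) (dist K 0) ?_
    intro w
    refine (abs_hs_le K w).trans ?_
    have : 0 ≤ dist K 0 := dist_nonneg
    nlinarith [norm_nonneg w]
  have := h1.2
  rwa [ext_hs hA] at this

theorem even_wt_nonneg (l : ℝ) (M : ℕ) (g : Mat V) : 0 ≤ wt l (2 * M) g := by
  unfold wt
  exact (even_two_mul M).pow_nonneg _

/-- weighted smoothing is sublinear -/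
theorem smooth_sublin (K : ConvexBody V) (w : Mat V → ℝ) (hw : ∀ g, 0 ≤ w g)
    (hi : ∀ v : V, Integrable (fun g => hs K (ev v g) * w g) (stdGaussian (Mat V))) :
    Sublin (fun v => ∫ g, hs K (ev v g) * w g ∂(stdGaussian (Mat V))) := by
  constructor
  · intro c v hc
    rw [← integral_const_mul]
    refine integral_congr_ae (Eventually.of_forall fun g => ?_)
    simp only
    rw [ev_smul_left, hs_smul_right K hc]
    ring
  · intro v v'
    rw [← integral_add (hi v) (hi v')]
    refine integral_mono (hi _) ((hi v).add (hi v')) fun g => ?_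
    simp only
    rw [ev_add_left]
    have := mul_le_mul_of_nonneg_right (hs_add_right K (ev v g) (ev v' g)) (hw g)
    linarith

theorem exp_memLp (l : ℝ) : MemLp (fun g : Mat V => Real.exp (l * ⟪idm V, g⟫_ℝ)) 2
    (stdGaussian (Mat V)) := by
  rw [memLp_two_iff_integrable_sq (Continuous.aestronglyMeasurable (by fun_prop))]
  have h1 : ∀ g : Mat V, Real.exp (l * ⟪idm V, g⟫_ℝ) ^ 2 = Real.exp (2 * l * ⟪idm V, g⟫_ℝ) := by
    intro g
    rw [← Real.exp_nat_mul]
    congr 1
    push_cast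
    ring
  simp only [h1]
  have h2 := integrable_exp_mul_gaussianReal (μ := 0) (v := ‖idm V‖₊ ^ 2) (2 * l)
  rw [← gauss_inner (idm V)] at h2
  exact h2.comp_measurable (by fun_prop)

theorem int_norm_exp (l : ℝ) : Integrable (fun g : Mat V => ‖g‖ * Real.exp |l * ⟪idm V, g⟫_ℝ|)
    (stdGaussian (Mat V)) := by
  have h0 : MemLp (id : Mat V → Mat V) 2 (stdGaussian (Mat V)) :=
    IsGaussian.memLp_id _ 2 (by norm_num)
  have h1 : MemLp (fun g : Mat V => ‖g‖) 2 (stdGaussian (Mat V)) := h0.norm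
  have h2 := h1.integrable_mul (exp_memLp (V := V) l)
  have h3 := h1.integrable_mul (exp_memLp (V := V) (-l))
  refine Integrable.mono' (h2.add h3) (Continuous.aestronglyMeasurable (by fun_prop)) ?_
  refine Eventually.of_forall fun g => ?_
  simp only [Pi.add_apply, Pi.mul_apply]
  rw [Real.norm_of_nonneg (by positivity), ← mul_add]
  apply mul_le_mul_of_nonneg_left _ (norm_nonneg g)
  rcases abs_cases (l * ⟪idm V, g⟫_ℝ) with ⟨h, -⟩ | ⟨h, -⟩
  · rw [h]
    have := Real.exp_pos (-l * ⟪idm V, g⟫_ℝ)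
    linarith
  · rw [h, ← neg_mul]
    have := Real.exp_pos (l * ⟪idm V, g⟫_ℝ)
    linarith

theorem wt_le_exp (l : ℝ) (N : ℕ) (g : Mat V) : |wt l N g| ≤ Real.exp |l * ⟪idm V, g⟫_ℝ| := by
  unfold wt
  rcases Nat.eq_zero_or_pos N with rfl | hN
  · rw [pow_zero, abs_one]
    exact Real.one_le_exp (abs_nonneg _)
  · have hN' : (0 : ℝ) < N := by exact_mod_cast hN
    have h1 : |1 + l * ⟪idm V, g⟫_ℝ / N| ≤ Real.exp (|l * ⟪idm V, g⟫_ℝ| / N) := by
      refine (abs_add_le _ _).trans ?_
      rw [abs_one, abs_div, Nat.abs_cast]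
      have := Real.add_one_le_exp (|l * ⟪idm V, g⟫_ℝ| / N)
      linarith
    rw [abs_pow]
    refine (pow_le_pow_left₀ (abs_nonneg _) h1 N).trans ?_
    rw [← Real.exp_nat_mul]
    apply le_of_eq
    congr 1
    field_simp

theorem defect_tendsto (l : ℝ) :
    Tendsto (fun M : ℕ => ∫ g, ‖g‖ * |wt l (2 * M) g - Real.exp (l * ⟪idm V, g⟫_ℝ)|
      ∂(stdGaussian (Mat V))) atTop (𝓝 0) := by
  have goal : Tendsto (fun M : ℕ => ∫ g, ‖g‖ * |wt l (2 * M) g - Real.exp (l * ⟪idm V, g⟫_ℝ)|
      ∂(stdGaussian (Mat V))) atTop (𝓝 (∫ _ : Mat V, (0 : ℝ) ∂(stdGaussian (Mat V)))) := ?_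
  · simpa using goal
  refine tendsto_integral_of_dominated_convergence
    (fun g => 2 * (‖g‖ * Real.exp |l * ⟪idm V, g⟫_ℝ|)) ?_ ((int_norm_exp l).const_mul 2) ?_ ?_
  · intro M
    have := wt_continuous (V := V) l (2 * M)
    exact Continuous.aestronglyMeasurable (by fun_prop)
  · intro M
    refine Eventually.of_forall fun g => ?_
    rw [norm_mul, norm_norm, Real.norm_eq_abs, abs_abs]
    have h1 := wt_le_exp l (2 * M) g
    have h2 : |Real.exp (l * ⟪idm V, g⟫_ℝ)| ≤ Real.exp |l * ⟪idm V, g⟫_ℝ| := by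
      rw [abs_of_pos (Real.exp_pos _)]
      exact Real.exp_le_exp.mpr (le_abs_self _)
    have h3 := abs_sub (wt l (2 * M) g) (Real.exp (l * ⟪idm V, g⟫_ℝ))
    have h4 := norm_nonneg g
    nlinarith
  · refine Eventually.of_forall fun g => ?_
    have h1 := Real.tendsto_one_add_div_pow_exp (l * ⟪idm V, g⟫_ℝ)
    have h2 : Tendsto (fun M : ℕ => 2 * M) atTop atTop :=
      tendsto_id.const_mul_atTop' (by norm_num)
    have h3 := h1.comp h2
    have h4 : Tendsto (fun M : ℕ => wt l (2 * M) g - Real.exp (l * ⟪idm V, g⟫_ℝ)) atTop (𝓝 0) := by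
      have := h3.sub_const (Real.exp (l * ⟪idm V, g⟫_ℝ))
      rw [sub_self] at this
      exact this
    have h5 := (h4.abs.const_mul ‖g‖)
    simpa using h5

theorem int_norm_gauss' : Integrable (fun g : Mat V => ‖g‖) (stdGaussian (Mat V)) := by
  have h := int_pow (stdGaussian (Mat V)) 1
  have h2 := h.sub (integrable_const (1 : ℝ))
  refine h2.congr (Eventually.of_forall fun g => ?_)
  simp

end K1aux

/-- an additive functional killing all polynomial functions is zero -/
theorem eq_zero_of_pk (hA : IsAdd A) (h : ∀ (k : ℕ) (c : V), k ≠ 1 → ext A (pk k c) = 0)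
    (K : ConvexBody V) : A K = 0 := by
  have h' : ∀ (k : ℕ) (c : V), ext A (pk k c) = 0 := by
    intro k c
    by_cases hk : k = 1
    · subst hk
      have h1 : pk 1 c = fun v => ⟪v, c⟫_ℝ := by
        funext v
        unfold pk
        by_cases hv : v = 0
        · subst hv; simp
        · have hn : ‖v‖ ≠ 0 := norm_ne_zero_iff.mpr hv
          rw [pow_one, mul_div_cancel₀ _ hn, real_inner_comm]
      rw [h1, ext_inner hA]
    · exact h k c hk
  by_cases hI : idm V = 0
  · -- dimension zero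
    have hv : ∀ v : V, v = 0 := by
      intro v
      have := ev_idm v
      rw [hI] at this
      rw [← this]
      simp [ev]
    have hK : K = 0 := by
      apply hs_ext
      intro v
      rw [hv v]
      simp
    rw [hK, ← pt_zero, hA.pt]
  have hI0 : 0 < ‖idm V‖ := norm_pos_iff.mpr hI
  -- exponential smoothing
  have step1 : ∀ (l : ℝ) (B : ConvexBody V), (∀ v, hs B v = ∫ g, hs K (ev v g) *
      Real.exp (l * ⟪idm V, g⟫_ℝ) ∂(stdGaussian (Mat V))) → A B = 0 := by
    intro l B hB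
    have hex : ∀ M : ℕ, ∃ BM : ConvexBody V, ∀ v, hs BM v = ∫ g, hs K (ev v g) *
        wt l (2 * M) g ∂(stdGaussian (Mat V)) := fun M =>
      exists_body (smooth_sublin K _ (even_wt_nonneg l M) (fun v => int_wt K v l (2 * M)))
    choose BM hBM using hex
    have hz : ∀ M, A (BM M) = 0 := fun M => smooth_zero hA h' K l (2 * M) (BM M) (hBM M)
    have hie : ∀ v : V, Integrable (fun g => hs K (ev v g) * Real.exp (l * ⟪idm V, g⟫_ℝ))
        (stdGaussian (Mat V)) := by
      intro v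
      refine Integrable.mono' ((int_norm_exp (V := V) l).const_mul (dist K 0 * ‖v‖))
        (Continuous.aestronglyMeasurable (((continuous_hs_right K).comp (ev_cont v)).mul
          (by fun_prop))) ?_
      refine Eventually.of_forall fun g => ?_
      rw [norm_mul, Real.norm_eq_abs, Real.norm_of_nonneg (Real.exp_nonneg _)]
      have a1 := abs_hs_le K (ev v g)
      have a2 := norm_ev_le v g
      have a3 := Real.exp_le_exp.mpr (le_abs_self (l * ⟪idm V, g⟫_ℝ))
      calc |hs K (ev v g)| * Real.exp (l * ⟪idm V, g⟫_ℝ)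
          ≤ (dist K 0 * (‖v‖ * ‖g‖)) * Real.exp |l * ⟪idm V, g⟫_ℝ| := by
            gcongr
            exact a1.trans (mul_le_mul_of_nonneg_left a2 dist_nonneg)
        _ = dist K 0 * ‖v‖ * (‖g‖ * Real.exp |l * ⟪idm V, g⟫_ℝ|) := by ring
    have hd : ∀ M, dist (BM M) B ≤ dist K 0 * ∫ g, ‖g‖ * |wt l (2 * M) g -
        Real.exp (l * ⟪idm V, g⟫_ℝ)| ∂(stdGaussian (Mat V)) := by
      intro M
      have hdi : Integrable (fun g : Mat V => ‖g‖ * |wt l (2 * M) g -
          Real.exp (l * ⟪idm V, g⟫_ℝ)|) (stdGaussian (Mat V)) := by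
        have hc := wt_continuous (V := V) l (2 * M)
        refine Integrable.mono' ((int_norm_exp (V := V) l).const_mul 2)
          (Continuous.aestronglyMeasurable (by fun_prop)) ?_
        refine Eventually.of_forall fun g => ?_
        rw [norm_mul, norm_norm, Real.norm_eq_abs, abs_abs]
        have h1 := wt_le_exp l (2 * M) g
        have h2 : |Real.exp (l * ⟪idm V, g⟫_ℝ)| ≤ Real.exp |l * ⟪idm V, g⟫_ℝ| := by
          rw [abs_of_pos (Real.exp_pos _)]
          exact Real.exp_le_exp.mpr (le_abs_self _)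
        have h3 := abs_sub (wt l (2 * M) g) (Real.exp (l * ⟪idm V, g⟫_ℝ))
        have h4 := norm_nonneg g
        nlinarith
      apply dist_le_of_hs
      · exact mul_nonneg dist_nonneg (integral_nonneg fun g => by positivity)
      intro v
      rw [hBM, hB, ← integral_sub (int_wt K v l (2 * M)) (hie v), mul_right_comm,
        ← integral_const_mul, ← Real.norm_eq_abs]
      refine norm_integral_le_of_norm_le (hdi.const_mul (dist K 0 * ‖v‖))
        (Eventually.of_forall fun g => ?_)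
      rw [← mul_sub, norm_mul, Real.norm_eq_abs, Real.norm_eq_abs]
      have a1 := (abs_hs_le K (ev v g)).trans
        (mul_le_mul_of_nonneg_left (norm_ev_le v g) dist_nonneg)
      calc |hs K (ev v g)| * |wt l (2 * M) g - Real.exp (l * ⟪idm V, g⟫_ℝ)|
          ≤ (dist K 0 * (‖v‖ * ‖g‖)) * |wt l (2 * M) g - Real.exp (l * ⟪idm V, g⟫_ℝ)| := by
            gcongr
        _ = dist K 0 * ‖v‖ * (‖g‖ * |wt l (2 * M) g - Real.exp (l * ⟪idm V, g⟫_ℝ)|) := by ring
    have ht : Tendsto BM atTop (𝓝 B) := by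
      rw [tendsto_iff_dist_tendsto_zero]
      have := (defect_tendsto (V := V) l).const_mul (dist K 0)
      rw [mul_zero] at this
      exact squeeze_zero (fun _ => dist_nonneg) hd this
    have ht2 := (hA.cont.tendsto B).comp ht
    simp only [Function.comp_def, hz] at ht2
    exact tendsto_nhds_unique ht2 tendsto_const_nhds |>.symm ▸ rfl
  -- shifted means
  have hci : ∀ (m : ℝ) (v : V), Integrable (fun g => hs K (ev v g + m • v))
      (stdGaussian (Mat V)) := by
    intro m v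
    refine int_poly _ ((continuous_hs_right K).comp ((ev_cont v).add continuous_const))
      (dist K 0 * (‖v‖ * (1 + |m|))) 1 ?_
    intro g
    rw [Real.norm_eq_abs, pow_one]
    refine (abs_hs_le K _).trans ?_
    rw [mul_assoc]
    apply mul_le_mul_of_nonneg_left _ dist_nonneg
    refine (norm_add_le _ _).trans ?_
    have a2 := norm_ev_le v g
    rw [norm_smul, Real.norm_eq_abs]
    have a3 := norm_nonneg v
    have a4 := norm_nonneg g
    have a5 := abs_nonneg m
    nlinarith [mul_nonneg a3 a4, mul_nonneg a3 a5, mul_nonneg (mul_nonneg a3 a5) a4]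
  have hsub : ∀ m : ℝ, Sublin (fun v : V => ∫ g, hs K (ev v g + m • v) ∂(stdGaussian (Mat V))) := by
    intro m
    constructor
    · intro c v hc
      rw [← integral_const_mul]
      refine integral_congr_ae (Eventually.of_forall fun g => ?_)
      simp only
      rw [ev_smul_left, smul_comm m c v, ← smul_add, hs_smul_right K hc]
    · intro v v'
      rw [← integral_add (hci m v) (hci m v')]
      refine integral_mono (hci m _) ((hci m v).add (hci m v')) fun g => ?_
      simp only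
      have : ev (v + v') g + m • (v + v') = (ev v g + m • v) + (ev v' g + m • v') := by
        rw [ev_add_left, smul_add]
        abel
      rw [this]
      exact hs_add_right K _ _
  choose E hE using fun m : ℝ => exists_body (hsub m)
  have hEz : ∀ m : ℝ, A (E m) = 0 := by
    intro m
    set cst : ℝ := Real.exp ((m * ‖idm V‖) ^ 2 / 2) with hcst
    have hcp : 0 < cst := Real.exp_pos _
    have h1 : A (cst • E m) = 0 := by
      apply step1 m
      intro v
      rw [hs_smul hcp.le, hE]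
      have hu1 : ‖(‖idm V‖⁻¹ • idm V : Mat V)‖ = 1 := by
        rw [norm_smul, norm_inv, norm_norm, inv_mul_cancel₀ hI0.ne']
      have h2 := gauss_shift (‖idm V‖⁻¹ • idm V : Mat V) hu1 (m * ‖idm V‖)
        (fun g => hs K (ev v g)) ((continuous_hs_right K).comp (ev_cont v))
        (dist K 0 * ‖v‖) (by
          intro g
          refine ((abs_hs_le K (ev v g)).trans
            (mul_le_mul_of_nonneg_left (norm_ev_le v g) dist_nonneg)).trans ?_
          rw [← mul_assoc]
          apply mul_le_mul_of_nonneg_left _ (by positivity)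
          linarith)
      have h3 : ∀ g : Mat V, m * ‖idm V‖ * ⟪(‖idm V‖⁻¹ • idm V : Mat V), g⟫_ℝ
          = m * ⟪idm V, g⟫_ℝ := by
        intro g
        rw [real_inner_smul_left]
        field_simp
      have h4 : ∀ g : Mat V, ev v (g + (m * ‖idm V‖) • (‖idm V‖⁻¹ • idm V : Mat V))
          = ev v g + m • v := by
        intro g
        rw [ev_add_right, smul_smul, ev_smul_right, ev_idm]
        congr 2
        field_simp
      simp only [h3, h4] at h2
      rw [h2]
    rw [ext_const_smul hA hcp.le] at h1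
    rcases mul_eq_zero.mp h1 with h2 | h2
    · exact absurd h2 hcp.ne'
    · exact h2
  -- convergence to K
  have hd : ∀ m : ℕ, 0 < m → dist ((m : ℝ)⁻¹ • E m) K ≤
      (dist K 0 * ∫ g : Mat V, ‖g‖ ∂(stdGaussian (Mat V))) / m := by
    intro m hm
    have hm' : (0 : ℝ) < m := by exact_mod_cast hm
    apply dist_le_of_hs
    · apply div_nonneg _ hm'.le
      exact mul_nonneg dist_nonneg (integral_nonneg fun g => norm_nonneg g)
    intro v
    rw [hs_smul (by positivity), hE]
    have e1 : hs K v = (m : ℝ)⁻¹ * ∫ _ : Mat V, hs K ((m : ℝ) • v) ∂(stdGaussian (Mat V)) := by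
      rw [integral_const, probReal_univ, one_smul, hs_smul_right K hm'.le, ← mul_assoc,
        inv_mul_cancel₀ hm'.ne', one_mul]
    rw [e1, ← mul_sub, abs_mul, abs_of_pos (by positivity : (0 : ℝ) < (m : ℝ)⁻¹),
      ← integral_sub (hci m v) (integrable_const _)]
    have e2 : |∫ g, (hs K (ev v g + (m : ℝ) • v) - hs K ((m : ℝ) • v)) ∂(stdGaussian (Mat V))|
        ≤ ∫ g : Mat V, dist K 0 * ‖v‖ * ‖g‖ ∂(stdGaussian (Mat V)) := by
      rw [← Real.norm_eq_abs]
      refine norm_integral_le_of_norm_le (int_norm_gauss'.const_mul (dist K 0 * ‖v‖))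
        (Eventually.of_forall fun g => ?_)
      rw [Real.norm_eq_abs]
      refine (hs_lip K _ _).trans ?_
      rw [add_sub_cancel_right, mul_assoc]
      exact mul_le_mul_of_nonneg_left (norm_ev_le v g) dist_nonneg
    rw [integral_const_mul] at e2
    calc (m : ℝ)⁻¹ * |∫ g, (hs K (ev v g + (m : ℝ) • v) - hs K ((m : ℝ) • v)) ∂(stdGaussian (Mat V))|
        ≤ (m : ℝ)⁻¹ * (dist K 0 * ‖v‖ * ∫ g : Mat V, ‖g‖ ∂(stdGaussian (Mat V))) :=
          mul_le_mul_of_nonneg_left e2 (by positivity)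
      _ = dist K 0 * (∫ g : Mat V, ‖g‖ ∂(stdGaussian (Mat V))) / m * ‖v‖ := by
          field_simp
  have ht : Tendsto (fun m : ℕ => (m : ℝ)⁻¹ • E m) atTop (𝓝 K) := by
    rw [tendsto_iff_dist_tendsto_zero]
    refine squeeze_zero' (Eventually.of_forall fun _ => dist_nonneg) ?_
      (tendsto_const_nhds.div_atTop tendsto_natCast_atTop_atTop :
        Tendsto (fun m : ℕ => (dist K 0 * ∫ g : Mat V, ‖g‖ ∂(stdGaussian (Mat V))) / m) atTop
          (𝓝 0))
    filter_upwards [eventually_gt_atTop 0] with m hm using hd m hm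
  have ht2 := (hA.cont.tendsto K).comp ht
  have hz : ∀ m : ℕ, A ((m : ℝ)⁻¹ • E m) = 0 := by
    intro m
    rw [ext_const_smul hA (by positivity), hEz, mul_zero]
  simp only [Function.comp_def, hz] at ht2
  exact (tendsto_nhds_unique ht2 tendsto_const_nhds)

theorem K1 (hA : IsAdd A) (h1 : ∀ x, A (seg x) = 0) (h2 : ∀ a b, A (tri a b) = 0)
    (K : ConvexBody V) : A K = 0 := by
  apply eq_zero_of_pk hA
  intro k c _
  obtain ⟨ε, C, hε, hC, -, h⟩ := pk_int_all (V := V) k
  rw [(h c A hA).2]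
  simp [k1, k2, h1, h2]

end K1
end MV
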