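import Pool.Agent.Lib.MP_f30071_gt.Val

open MeasureTheory ProbabilityTheory Filter Topology Set
open scoped InnerProductSpace Pointwise NNReal ENNReal

namespace MV
namespace Simplex

section A
variable {V : Type*} [NormedAddCommGroup V] [InnerProductSpace ℝ V]

open Classical in
/-- path simplex with four steps -/
noncomputable def P4 (a b c d : V) : ConvexBody V :=
  hull {0, a, a + b, a + b + c, a + b + c + d} (by simp)

theorem mem_P4 {a b c d x : V} : x ∈ P4 a b c d ↔ ∃ t0 t1 t2 t3 : ℝ,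
    t0 ≤ 1 ∧ t1 ≤ t0 ∧ t2 ≤ t1 ∧ t3 ≤ t2 ∧ 0 ≤ t3 ∧ x = t0 • a + t1 • b + t2 • c + t3 • d := by
  classical
  have hco : x ∈ P4 a b c d ↔ x ∈ convexHull ℝ ({0, a, a + b, a + b + c, a + b + c + d} : Set V) := by
    change x ∈ convexHull ℝ (((({0, a, a + b, a + b + c, a + b + c + d} : Finset V)) : Set V)) ↔ _
    simp
  rw [hco]
  constructor
  · intro hx
    have hsub : ({0, a, a + b, a + b + c, a + b + c + d} : Set V) ⊆
        {x | ∃ t0 t1 t2 t3 : ℝ, t0 ≤ 1 ∧ t1 ≤ t0 ∧ t2 ≤ t1 ∧ t3 ≤ t2 ∧ 0 ≤ t3 ∧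
          x = t0 • a + t1 • b + t2 • c + t3 • d} := by
      rintro y (rfl | rfl | rfl | rfl | rfl)
      · exact ⟨0, 0, 0, 0, by norm_num, by norm_num, by norm_num, by norm_num, by norm_num, by simp⟩
      · exact ⟨1, 0, 0, 0, by norm_num, by norm_num, by norm_num, by norm_num, by norm_num, by simp⟩
      · exact ⟨1, 1, 0, 0, by norm_num, by norm_num, by norm_num, by norm_num, by norm_num, by simp⟩
      · exact ⟨1, 1, 1, 0, by norm_num, by norm_num, by norm_num, by norm_num, by norm_num, by simp⟩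
      · exact ⟨1, 1, 1, 1, by norm_num, by norm_num, by norm_num, by norm_num, by norm_num, by simp⟩
    refine convexHull_min hsub ?_ hx
    rintro y ⟨t0, t1, t2, t3, h1, h2, h3, h4, h5, rfl⟩ z ⟨s0, s1, s2, s3, g1, g2, g3, g4, g5, rfl⟩
      p q hp hq hpq
    refine ⟨p * t0 + q * s0, p * t1 + q * s1, p * t2 + q * s2, p * t3 + q * s3, ?_, ?_, ?_, ?_, ?_, ?_⟩
    · nlinarith
    · nlinarith
    · nlinarith
    · nlinarith
    · positivity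
    · module
  · rintro ⟨t0, t1, t2, t3, h1, h2, h3, h4, h5, rfl⟩
    have hc := convex_convexHull ℝ ({0, a, a + b, a + b + c, a + b + c + d} : Set V)
    have m0 : (0 : V) ∈ convexHull ℝ ({0, a, a + b, a + b + c, a + b + c + d} : Set V) :=
      subset_convexHull ℝ _ (by simp)
    have m1 : a ∈ convexHull ℝ ({0, a, a + b, a + b + c, a + b + c + d} : Set V) :=
      subset_convexHull ℝ _ (by simp)
    have m2 : a + b ∈ convexHull ℝ ({0, a, a + b, a + b + c, a + b + c + d} : Set V) :=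
      subset_convexHull ℝ _ (by simp)
    have m3 : a + b + c ∈ convexHull ℝ ({0, a, a + b, a + b + c, a + b + c + d} : Set V) :=
      subset_convexHull ℝ _ (by simp)
    have m4 : a + b + c + d ∈ convexHull ℝ ({0, a, a + b, a + b + c, a + b + c + d} : Set V) :=
      subset_convexHull ℝ _ (by simp)
    have := hc.sum_mem (t := (Finset.univ : Finset (Fin 5)))
      (w := ![1 - t0, t0 - t1, t1 - t2, t2 - t3, t3])
      (z := ![0, a, a + b, a + b + c, a + b + c + d])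
      (by
        intro i _
        fin_cases i <;> simp <;> linarith)
      (by
        simp [Fin.sum_univ_succ])
      (by
        intro i _
        fin_cases i <;> simp <;> assumption)
    have e : ∑ i : Fin 5, (![1 - t0, t0 - t1, t1 - t2, t2 - t3, t3] : Fin 5 → ℝ) i •
        (![0, a, a + b, a + b + c, a + b + c + d] : Fin 5 → V) i
        = t0 • a + t1 • b + t2 • c + t3 • d := by
      simp only [Fin.sum_univ_five, Matrix.cons_val_zero, Matrix.cons_val_one, Matrix.cons_val]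
      module
    rw [e] at this
    exact this

theorem hs_P4 (a b c d v : V) : hs (P4 a b c d) v =
    max 0 (max ⟪v, a⟫_ℝ (max (⟪v, a⟫_ℝ + ⟪v, b⟫_ℝ) (max (⟪v, a⟫_ℝ + ⟪v, b⟫_ℝ + ⟪v, c⟫_ℝ)
      (⟪v, a⟫_ℝ + ⟪v, b⟫_ℝ + ⟪v, c⟫_ℝ + ⟪v, d⟫_ℝ)))) := by
  classical
  have hfin : ({0, a, a + b, a + b + c, a + b + c + d} : Finset V).Nonempty := by simp
  have key : ∀ y ∈ ({0, a, a + b, a + b + c, a + b + c + d} : Finset V),
      ⟪v, y⟫_ℝ ≤ hs (P4 a b c d) v := by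
    intro y hy
    exact inner_le_hs (show y ∈ convexHull ℝ (({0, a, a + b, a + b + c, a + b + c + d} :
      Finset V) : Set V) from subset_convexHull ℝ _ (by exact_mod_cast hy)) v
  apply le_antisymm
  · apply hs_le
    intro x hx
    obtain ⟨t0, t1, t2, t3, h1, h2, h3, h4, h5, rfl⟩ := mem_P4.1 hx
    simp only [inner_add_right, real_inner_smul_right]
    set α := ⟪v, a⟫_ℝ
    set β := ⟪v, b⟫_ℝ
    set γ := ⟪v, c⟫_ℝ
    set δ := ⟪v, d⟫_ℝ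
    set M := max 0 (max α (max (α + β) (max (α + β + γ) (α + β + γ + δ))))
    have g0 : 0 ≤ M := le_max_left _ _
    have g1 : α ≤ M := le_max_of_le_right (le_max_left _ _)
    have g2 : α + β ≤ M := le_max_of_le_right (le_max_of_le_right (le_max_left _ _))
    have g3 : α + β + γ ≤ M :=
      le_max_of_le_right (le_max_of_le_right (le_max_of_le_right (le_max_left _ _)))
    have g4 : α + β + γ + δ ≤ M :=
      le_max_of_le_right (le_max_of_le_right (le_max_of_le_right (le_max_right _ _)))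
    have e1 := mul_le_mul_of_nonneg_left g0 (sub_nonneg.2 h1)
    have e2 := mul_le_mul_of_nonneg_left g1 (sub_nonneg.2 h2)
    have e3 := mul_le_mul_of_nonneg_left g2 (sub_nonneg.2 h3)
    have e4 := mul_le_mul_of_nonneg_left g3 (sub_nonneg.2 h4)
    have e5 := mul_le_mul_of_nonneg_left g4 h5
    nlinarith
  · have k0 := key 0 (by simp)
    have k1 := key a (by simp)
    have k2 := key (a + b) (by simp)
    have k3 := key (a + b + c) (by simp)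
    have k4 := key (a + b + c + d) (by simp)
    simp only [inner_add_right, inner_zero_right] at k0 k1 k2 k3 k4
    exact max_le k0 (max_le k1 (max_le k2 (max_le k3 k4)))

end A

section B
variable {V : Type*} [NormedAddCommGroup V] [InnerProductSpace ℝ V] [FiniteDimensional ℝ V]

/-- ordered box in `ℝ⁴` -/
def OS (l0 u0 l1 u1 l2 u2 l3 u3 : ℝ) : Set (EuclideanSpace ℝ (Fin 4)) :=
  {x | (x 1 ≤ x 0 ∧ x 2 ≤ x 1 ∧ x 3 ≤ x 2) ∧ (l0 ≤ x 0 ∧ x 0 ≤ u0) ∧ (l1 ≤ x 1 ∧ x 1 ≤ u1) ∧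
    (l2 ≤ x 2 ∧ x 2 ≤ u2) ∧ (l3 ≤ x 3 ∧ x 3 ≤ u3)}

theorem OS_convex (l0 u0 l1 u1 l2 u2 l3 u3 : ℝ) : Convex ℝ (OS l0 u0 l1 u1 l2 u2 l3 u3) := by
  rintro x ⟨⟨h1, h2, h3⟩, ⟨a1, a2⟩, ⟨b1, b2⟩, ⟨c1, c2⟩, ⟨d1, d2⟩⟩
    y ⟨⟨h1', h2', h3'⟩, ⟨a1', a2'⟩, ⟨b1', b2'⟩, ⟨c1', c2'⟩, ⟨d1', d2'⟩⟩ p q hp hq hpq
  have hq' : q = 1 - p := by linarith
  subst hq'
  refine ⟨⟨?_, ?_, ?_⟩, ⟨?_, ?_⟩, ⟨?_, ?_⟩, ⟨?_, ?_⟩, ⟨?_, ?_⟩⟩ <;>
  · simp only [PiLp.add_apply, PiLp.smul_apply, smul_eq_mul]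
    nlinarith

theorem OS_compact (l0 u0 l1 u1 l2 u2 l3 u3 : ℝ) : IsCompact (OS l0 u0 l1 u1 l2 u2 l3 u3) := by
  have hcont : ∀ i : Fin 4, Continuous (fun x : EuclideanSpace ℝ (Fin 4) => x i) := fun i =>
    (EuclideanSpace.proj (𝕜 := ℝ) i).continuous
  have hcl : IsClosed (OS l0 u0 l1 u1 l2 u2 l3 u3) := by
    unfold OS
    simp only [Set.ofPred_and]
    refine IsClosed.inter (IsClosed.inter (isClosed_le (hcont 1) (hcont 0))
      (IsClosed.inter (isClosed_le (hcont 2) (hcont 1)) (isClosed_le (hcont 3) (hcont 2)))) ?_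
    refine IsClosed.inter (IsClosed.inter (isClosed_le continuous_const (hcont 0))
      (isClosed_le (hcont 0) continuous_const)) ?_
    refine IsClosed.inter (IsClosed.inter (isClosed_le continuous_const (hcont 1))
      (isClosed_le (hcont 1) continuous_const)) ?_
    refine IsClosed.inter (IsClosed.inter (isClosed_le continuous_const (hcont 2))
      (isClosed_le (hcont 2) continuous_const)) ?_
    exact IsClosed.inter (isClosed_le continuous_const (hcont 3))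
      (isClosed_le (hcont 3) continuous_const)
  refine Metric.isCompact_of_isClosed_isBounded hcl ?_
  let l : Fin 4 → ℝ := ![l0, l1, l2, l3]
  let u : Fin 4 → ℝ := ![u0, u1, u2, u3]
  have hb : Bornology.IsBounded ((EuclideanSpace.equiv (Fin 4) ℝ) ⁻¹' (Set.Icc l u)) := by
    have : IsCompact ((EuclideanSpace.equiv (Fin 4) ℝ) ⁻¹' (Set.Icc l u)) :=
      (EuclideanSpace.equiv (Fin 4) ℝ).toHomeomorph.isCompact_preimage.2 isCompact_Icc
    exact this.isBounded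
  refine hb.subset ?_
  rintro x ⟨⟨h1, h2, h3⟩, ⟨a1, a2⟩, ⟨b1, b2⟩, ⟨c1, c2⟩, ⟨d1, d2⟩⟩
  constructor
  · intro i
    fin_cases i <;> simp [l] <;> assumption
  · intro i
    fin_cases i <;> simp [u] <;> assumption

/-- the corresponding body -/
def osb (l0 u0 l1 u1 l2 u2 l3 u3 : ℝ) (h : (OS l0 u0 l1 u1 l2 u2 l3 u3).Nonempty) :
    ConvexBody (EuclideanSpace ℝ (Fin 4)) :=
  ⟨_, OS_convex l0 u0 l1 u1 l2 u2 l3 u3, OS_compact l0 u0 l1 u1 l2 u2 l3 u3, h⟩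

/-- the linear map -/
noncomputable def fm (a b c d : V) : EuclideanSpace ℝ (Fin 4) →L[ℝ] V :=
  (EuclideanSpace.proj (𝕜 := ℝ) (0 : Fin 4)).smulRight a +
  (EuclideanSpace.proj (𝕜 := ℝ) (1 : Fin 4)).smulRight b +
  (EuclideanSpace.proj (𝕜 := ℝ) (2 : Fin 4)).smulRight c +
  (EuclideanSpace.proj (𝕜 := ℝ) (3 : Fin 4)).smulRight d

omit [FiniteDimensional ℝ V] in
theorem fm_apply (a b c d : V) (x : EuclideanSpace ℝ (Fin 4)) :
    fm a b c d x = x 0 • a + x 1 • b + x 2 • c + x 3 • d := by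
  simp [fm]

/-- the point with given coordinates -/
noncomputable def vec (t0 t1 t2 t3 : ℝ) : EuclideanSpace ℝ (Fin 4) := !₂[t0, t1, t2, t3]

@[simp] theorem vec_0 (t0 t1 t2 t3 : ℝ) : vec t0 t1 t2 t3 0 = t0 := rfl
@[simp] theorem vec_1 (t0 t1 t2 t3 : ℝ) : vec t0 t1 t2 t3 1 = t1 := rfl
@[simp] theorem vec_2 (t0 t1 t2 t3 : ℝ) : vec t0 t1 t2 t3 2 = t2 := rfl
@[simp] theorem vec_3 (t0 t1 t2 t3 : ℝ) : vec t0 t1 t2 t3 3 = t3 := rfl

omit [FiniteDimensional ℝ V] in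
/-- membership in the image -/
theorem mem_im {a b c d x : V} {l0 u0 l1 u1 l2 u2 l3 u3 : ℝ}
    {h : (OS l0 u0 l1 u1 l2 u2 l3 u3).Nonempty} :
    x ∈ mapB (fm a b c d) (osb l0 u0 l1 u1 l2 u2 l3 u3 h) ↔ ∃ t0 t1 t2 t3 : ℝ,
      (t1 ≤ t0 ∧ t2 ≤ t1 ∧ t3 ≤ t2) ∧ (l0 ≤ t0 ∧ t0 ≤ u0) ∧ (l1 ≤ t1 ∧ t1 ≤ u1) ∧
      (l2 ≤ t2 ∧ t2 ≤ u2) ∧ (l3 ≤ t3 ∧ t3 ≤ u3) ∧ x = t0 • a + t1 • b + t2 • c + t3 • d := by
  constructor
  · rintro ⟨t, ⟨h1, h2, h3, h4, h5⟩, rfl⟩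
    exact ⟨t 0, t 1, t 2, t 3, h1, h2, h3, h4, h5, (fm_apply a b c d t)⟩
  · rintro ⟨t0, t1, t2, t3, h1, h2, h3, h4, h5, rfl⟩
    exact ⟨vec t0 t1 t2 t3, ⟨h1, h2, h3, h4, h5⟩, by rw [fm_apply]; simp⟩

variable {φ : ConvexBody V → ℝ}

/-- general cut at coordinate `k` -/
theorem cut_osb (hφ : IsVal φ) (a b c d : V) (k : Fin 4)
    (K Kp Km K0 : ConvexBody (EuclideanSpace ℝ (Fin 4)))
    (hp : (Kp : Set (EuclideanSpace ℝ (Fin 4))) = (K : Set (EuclideanSpace ℝ (Fin 4))) ∩ {x | 1 ≤ x k})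
    (hm : (Km : Set (EuclideanSpace ℝ (Fin 4))) = (K : Set (EuclideanSpace ℝ (Fin 4))) ∩ {x | x k ≤ 1})
    (h0 : (K0 : Set (EuclideanSpace ℝ (Fin 4))) = (K : Set (EuclideanSpace ℝ (Fin 4))) ∩ {x | x k = 1}) :
    φ (mapB (fm a b c d) K) + φ (mapB (fm a b c d) K0)
      = φ (mapB (fm a b c d) Kp) + φ (mapB (fm a b c d) Km) := by
  have hv := IsVal.pull (fm a b c d) hφ
  have hin : ∀ x : EuclideanSpace ℝ (Fin 4),
      ⟪(EuclideanSpace.single k (1 : ℝ) : EuclideanSpace ℝ (Fin 4)), x⟫_ℝ = x k := by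
    intro x
    rw [EuclideanSpace.inner_single_left]
    simp
  refine hv.cut K Kp Km K0 (EuclideanSpace.single k (1 : ℝ)) 1 ?_ ?_ ?_
  · rw [hp]; simp only [hin]
  · rw [hm]; simp only [hin]
  · rw [h0]; simp only [hin]

theorem coe_osb {l0 u0 l1 u1 l2 u2 l3 u3 : ℝ} {h : (OS l0 u0 l1 u1 l2 u2 l3 u3).Nonempty} :
    (osb l0 u0 l1 u1 l2 u2 l3 u3 h : Set (EuclideanSpace ℝ (Fin 4))) =
      OS l0 u0 l1 u1 l2 u2 l3 u3 := rfl

theorem ne_of (t0 t1 t2 t3 : ℝ) {l0 u0 l1 u1 l2 u2 l3 u3 : ℝ}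
    (h : (t1 ≤ t0 ∧ t2 ≤ t1 ∧ t3 ≤ t2) ∧ (l0 ≤ t0 ∧ t0 ≤ u0) ∧ (l1 ≤ t1 ∧ t1 ≤ u1) ∧
      (l2 ≤ t2 ∧ t2 ≤ u2) ∧ (l3 ≤ t3 ∧ t3 ≤ u3)) : (OS l0 u0 l1 u1 l2 u2 l3 u3).Nonempty :=
  ⟨vec t0 t1 t2 t3, h⟩

end B

section C
variable {V : Type*} [NormedAddCommGroup V] [InnerProductSpace ℝ V] [FiniteDimensional ℝ V]
variable {φ : ConvexBody V → ℝ}

theorem seg_eq (a : V) : seg a = P4 a 0 0 0 := by
  apply hs_ext; intro v
  rw [hs_seg, hs_P4]
  simp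

theorem tri_eq (a b : V) : tri a b = P4 a b 0 0 := by
  apply hs_ext; intro v
  rw [hs_tri, hs_P4]
  simp

theorem mem_seg' {a x : V} : x ∈ seg a ↔ ∃ s : ℝ, 0 ≤ s ∧ s ≤ 1 ∧ x = s • a := by
  rw [seg_eq, mem_P4]
  constructor
  · rintro ⟨t0, t1, t2, t3, h1, h2, h3, h4, h5, rfl⟩
    exact ⟨t0, by linarith, h1, by simp⟩
  · rintro ⟨s, h1, h2, rfl⟩
    exact ⟨s, 0, 0, 0, h2, h1, le_refl _, le_refl _, le_refl _, by simp⟩

theorem mem_tri' {a b x : V} : x ∈ tri a b ↔ ∃ s t : ℝ, s ≤ 1 ∧ t ≤ s ∧ 0 ≤ t ∧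
    x = s • a + t • b := by
  rw [tri_eq, mem_P4]
  constructor
  · rintro ⟨t0, t1, t2, t3, h1, h2, h3, h4, h5, rfl⟩
    exact ⟨t0, t1, h1, h2, by linarith, by simp⟩
  · rintro ⟨s, t, h1, h2, h3, rfl⟩
    exact ⟨s, t, 0, 0, h1, h2, h3, le_refl _, le_refl _, by simp⟩

omit [FiniteDimensional ℝ V] in
theorem mem_P3' {a b c x : V} : x ∈ P4 a b c 0 ↔ ∃ s t r : ℝ, s ≤ 1 ∧ t ≤ s ∧ r ≤ t ∧ 0 ≤ r ∧
    x = s • a + t • b + r • c := by
  rw [mem_P4]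
  constructor
  · rintro ⟨t0, t1, t2, t3, h1, h2, h3, h4, h5, rfl⟩
    exact ⟨t0, t1, t2, h1, h2, h3, by linarith, by simp⟩
  · rintro ⟨s, t, r, h1, h2, h3, h4, rfl⟩
    exact ⟨s, t, r, 0, h1, h2, h3, h4, le_refl _, by simp⟩

omit [FiniteDimensional ℝ V] in
theorem mem_add1 {A : ConvexBody V} {p x : V} : x ∈ A + pt p ↔ ∃ y ∈ A, x = y + p := by
  have : x ∈ A + pt p ↔ x ∈ (A : Set V) + ((pt p : ConvexBody V) : Set V) := by
    rw [← ConvexBody.coe_add]; rfl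
  rw [this, coe_pt, Set.mem_add]
  constructor
  · rintro ⟨y, hy, z, hz, rfl⟩
    exact ⟨y, hy, by rw [Set.mem_singleton_iff.1 hz]⟩
  · rintro ⟨y, hy, rfl⟩
    exact ⟨y, hy, p, rfl, rfl⟩

omit [FiniteDimensional ℝ V] in
theorem mem_add2 {A B : ConvexBody V} {x : V} : x ∈ A + B ↔ ∃ y ∈ A, ∃ z ∈ B, x = y + z := by
  have : x ∈ A + B ↔ x ∈ (A : Set V) + (B : Set V) := by
    rw [← ConvexBody.coe_add]; rfl
  rw [this, Set.mem_add]
  constructor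
  · rintro ⟨y, hy, z, hz, rfl⟩
    exact ⟨y, hy, z, hz, rfl⟩
  · rintro ⟨y, hy, z, hz, rfl⟩
    exact ⟨y, hy, z, hz, rfl⟩

omit [FiniteDimensional ℝ V] in
theorem mem_add3 {A B : ConvexBody V} {p x : V} :
    x ∈ A + B + pt p ↔ ∃ y ∈ A, ∃ z ∈ B, x = y + z + p := by
  rw [mem_add1]
  constructor
  · rintro ⟨w, hw, rfl⟩
    obtain ⟨y, hy, z, hz, rfl⟩ := mem_add2.1 hw
    exact ⟨y, hy, z, hz, rfl⟩
  · rintro ⟨y, hy, z, hz, rfl⟩
    exact ⟨y + z, mem_add2.2 ⟨y, hy, z, hz, rfl⟩, rfl⟩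

/-- the decomposition of a doubled path simplex -/
theorem cut4 (hφ : IsVal φ) (a b c d : V) :
    φ ((2 : ℝ) • P4 a b c d) + φ (P4 b c d 0) + φ (seg a + tri c d) + φ (tri a b + seg d)
      + φ (P4 a b c 0)
    = 2 * φ (P4 a b c d) + φ (seg a + P4 b c d 0) + φ (tri a b + tri c d)
      + φ (P4 a b c 0 + seg d) := by
  let K := osb 0 2 0 2 0 2 0 2 (ne_of 0 0 0 0 (by norm_num))
  let R4 := osb 1 2 1 2 1 2 1 2 (ne_of 1 1 1 1 (by norm_num))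
  let Y3 := osb 0 2 0 2 0 2 0 1 (ne_of 0 0 0 0 (by norm_num))
  let W4 := osb 1 2 1 2 1 2 1 1 (ne_of 1 1 1 1 (by norm_num))
  let R3 := osb 1 2 1 2 1 2 0 1 (ne_of 1 1 1 1 (by norm_num))
  let Y2 := osb 0 2 0 2 0 1 0 1 (ne_of 0 0 0 0 (by norm_num))
  let W3 := osb 1 2 1 2 1 1 0 1 (ne_of 1 1 1 1 (by norm_num))
  let R2 := osb 1 2 1 2 0 1 0 1 (ne_of 1 1 1 1 (by norm_num))
  let Y1 := osb 0 2 0 1 0 1 0 1 (ne_of 0 0 0 0 (by norm_num))
  let W2 := osb 1 2 1 1 0 1 0 1 (ne_of 1 1 1 1 (by norm_num))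
  let R1 := osb 1 2 0 1 0 1 0 1 (ne_of 1 1 1 1 (by norm_num))
  let R0 := osb 0 1 0 1 0 1 0 1 (ne_of 0 0 0 0 (by norm_num))
  let W1 := osb 1 1 0 1 0 1 0 1 (ne_of 1 1 1 1 (by norm_num))
  have c1 := cut_osb hφ a b c d 3 K R4 Y3 W4
    (by ext x; simp only [K, R4, coe_osb, OS, Set.mem_ofPred_eq, Set.mem_inter_iff]; constructor
        · rintro ⟨h1, h2, h3, h4, h5⟩; refine ⟨⟨h1, ?_, ?_, ?_, ?_⟩, ?_⟩ <;> (try constructor) <;> linarith
        · rintro ⟨⟨h1, h2, h3, h4, h5⟩, h6⟩; refine ⟨h1, ?_, ?_, ?_, ?_⟩ <;> constructor <;> linarith)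
    (by ext x; simp only [K, Y3, coe_osb, OS, Set.mem_ofPred_eq, Set.mem_inter_iff]; constructor
        · rintro ⟨h1, h2, h3, h4, h5⟩; refine ⟨⟨h1, ?_, ?_, ?_, ?_⟩, ?_⟩ <;> (try constructor) <;> linarith
        · rintro ⟨⟨h1, h2, h3, h4, h5⟩, h6⟩; refine ⟨h1, ?_, ?_, ?_, ?_⟩ <;> constructor <;> linarith)
    (by ext x; simp only [K, W4, coe_osb, OS, Set.mem_ofPred_eq, Set.mem_inter_iff]; constructor
        · rintro ⟨h1, h2, h3, h4, h5⟩; refine ⟨⟨h1, ?_, ?_, ?_, ?_⟩, ?_⟩ <;> (try constructor) <;> linarith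
        · rintro ⟨⟨h1, h2, h3, h4, h5⟩, h6⟩; refine ⟨h1, ?_, ?_, ?_, ?_⟩ <;> constructor <;> linarith)
  have c2 := cut_osb hφ a b c d 2 Y3 R3 Y2 W3
    (by ext x; simp only [Y3, R3, coe_osb, OS, Set.mem_ofPred_eq, Set.mem_inter_iff]; constructor
        · rintro ⟨h1, h2, h3, h4, h5⟩; refine ⟨⟨h1, ?_, ?_, ?_, ?_⟩, ?_⟩ <;> (try constructor) <;> linarith
        · rintro ⟨⟨h1, h2, h3, h4, h5⟩, h6⟩; refine ⟨h1, ?_, ?_, ?_, ?_⟩ <;> constructor <;> linarith)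
    (by ext x; simp only [Y3, Y2, coe_osb, OS, Set.mem_ofPred_eq, Set.mem_inter_iff]; constructor
        · rintro ⟨h1, h2, h3, h4, h5⟩; refine ⟨⟨h1, ?_, ?_, ?_, ?_⟩, ?_⟩ <;> (try constructor) <;> linarith
        · rintro ⟨⟨h1, h2, h3, h4, h5⟩, h6⟩; refine ⟨h1, ?_, ?_, ?_, ?_⟩ <;> constructor <;> linarith)
    (by ext x; simp only [Y3, W3, coe_osb, OS, Set.mem_ofPred_eq, Set.mem_inter_iff]; constructor
        · rintro ⟨h1, h2, h3, h4, h5⟩; refine ⟨⟨h1, ?_, ?_, ?_, ?_⟩, ?_⟩ <;> (try constructor) <;> linarith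
        · rintro ⟨⟨h1, h2, h3, h4, h5⟩, h6⟩; refine ⟨h1, ?_, ?_, ?_, ?_⟩ <;> constructor <;> linarith)
  have c3 := cut_osb hφ a b c d 1 Y2 R2 Y1 W2
    (by ext x; simp only [Y2, R2, coe_osb, OS, Set.mem_ofPred_eq, Set.mem_inter_iff]; constructor
        · rintro ⟨h1, h2, h3, h4, h5⟩; refine ⟨⟨h1, ?_, ?_, ?_, ?_⟩, ?_⟩ <;> (try constructor) <;> linarith
        · rintro ⟨⟨h1, h2, h3, h4, h5⟩, h6⟩; refine ⟨h1, ?_, ?_, ?_, ?_⟩ <;> constructor <;> linarith)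
    (by ext x; simp only [Y2, Y1, coe_osb, OS, Set.mem_ofPred_eq, Set.mem_inter_iff]; constructor
        · rintro ⟨h1, h2, h3, h4, h5⟩; refine ⟨⟨h1, ?_, ?_, ?_, ?_⟩, ?_⟩ <;> (try constructor) <;> linarith
        · rintro ⟨⟨h1, h2, h3, h4, h5⟩, h6⟩; refine ⟨h1, ?_, ?_, ?_, ?_⟩ <;> constructor <;> linarith)
    (by ext x; simp only [Y2, W2, coe_osb, OS, Set.mem_ofPred_eq, Set.mem_inter_iff]; constructor
        · rintro ⟨h1, h2, h3, h4, h5⟩; refine ⟨⟨h1, ?_, ?_, ?_, ?_⟩, ?_⟩ <;> (try constructor) <;> linarith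
        · rintro ⟨⟨h1, h2, h3, h4, h5⟩, h6⟩; refine ⟨h1, ?_, ?_, ?_, ?_⟩ <;> constructor <;> linarith)
  have c4 := cut_osb hφ a b c d 0 Y1 R1 R0 W1
    (by ext x; simp only [Y1, R1, coe_osb, OS, Set.mem_ofPred_eq, Set.mem_inter_iff]; constructor
        · rintro ⟨h1, h2, h3, h4, h5⟩; refine ⟨⟨h1, ?_, ?_, ?_, ?_⟩, ?_⟩ <;> (try constructor) <;> linarith
        · rintro ⟨⟨h1, h2, h3, h4, h5⟩, h6⟩; refine ⟨h1, ?_, ?_, ?_, ?_⟩ <;> constructor <;> linarith)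
    (by ext x; simp only [Y1, R0, coe_osb, OS, Set.mem_ofPred_eq, Set.mem_inter_iff]; constructor
        · rintro ⟨h1, h2, h3, h4, h5⟩; refine ⟨⟨h1, ?_, ?_, ?_, ?_⟩, ?_⟩ <;> (try constructor) <;> linarith
        · rintro ⟨⟨h1, h2, h3, h4, h5⟩, h6⟩; refine ⟨h1, ?_, ?_, ?_, ?_⟩ <;> constructor <;> linarith)
    (by ext x; simp only [Y1, W1, coe_osb, OS, Set.mem_ofPred_eq, Set.mem_inter_iff]; constructor
        · rintro ⟨h1, h2, h3, h4, h5⟩; refine ⟨⟨h1, ?_, ?_, ?_, ?_⟩, ?_⟩ <;> (try constructor) <;> linarith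
        · rintro ⟨⟨h1, h2, h3, h4, h5⟩, h6⟩; refine ⟨h1, ?_, ?_, ?_, ?_⟩ <;> constructor <;> linarith)
  have iK : mapB (fm a b c d) K = (2 : ℝ) • P4 a b c d := by
    apply ConvexBody.ext; ext x
    constructor
    · intro hx
      obtain ⟨t0, t1, t2, t3, ⟨g1, g2, g3⟩, ⟨a1, a2⟩, ⟨b1, b2⟩, ⟨e1, e2⟩, ⟨d1, d2⟩, rfl⟩ := mem_im.1 hx
      rw [ConvexBody.coe_smul]
      refine ⟨(t0 / 2) • a + (t1 / 2) • b + (t2 / 2) • c + (t3 / 2) • d, mem_P4.2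
        ⟨t0 / 2, t1 / 2, t2 / 2, t3 / 2, by linarith, by linarith, by linarith, by linarith,
          by linarith, rfl⟩, ?_⟩
      change (2 : ℝ) • _ = _
      module
    · intro hx
      rw [ConvexBody.coe_smul] at hx
      obtain ⟨y, hy, rfl⟩ := hx
      obtain ⟨t0, t1, t2, t3, h1, h2, h3, h4, h5, rfl⟩ := mem_P4.1 hy
      refine mem_im.2 ⟨2 * t0, 2 * t1, 2 * t2, 2 * t3, ⟨by linarith, by linarith, by linarith⟩,
        ⟨by linarith, by linarith⟩, ⟨by linarith, by linarith⟩, ⟨by linarith, by linarith⟩,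
        ⟨by linarith, by linarith⟩, ?_⟩
      change (2 : ℝ) • _ = _
      module
  have iR4 : mapB (fm a b c d) R4 = P4 a b c d + pt (a + b + c + d) := by
    apply ConvexBody.ext; ext x
    constructor
    · intro hx
      obtain ⟨t0, t1, t2, t3, ⟨g1, g2, g3⟩, ⟨a1, a2⟩, ⟨b1, b2⟩, ⟨e1, e2⟩, ⟨d1, d2⟩, rfl⟩ := mem_im.1 hx
      exact mem_add1.2 ⟨(t0 - 1) • a + (t1 - 1) • b + (t2 - 1) • c + (t3 - 1) • d, mem_P4.2
        ⟨t0 - 1, t1 - 1, t2 - 1, t3 - 1, by linarith, by linarith, by linarith, by linarith,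
          by linarith, rfl⟩, by module⟩
    · intro hx
      obtain ⟨y, hy, rfl⟩ := mem_add1.1 hx
      obtain ⟨t0, t1, t2, t3, h1, h2, h3, h4, h5, rfl⟩ := mem_P4.1 hy
      exact mem_im.2 ⟨1 + t0, 1 + t1, 1 + t2, 1 + t3, ⟨by linarith, by linarith, by linarith⟩,
        ⟨by linarith, by linarith⟩, ⟨by linarith, by linarith⟩, ⟨by linarith, by linarith⟩,
        ⟨by linarith, by linarith⟩, by module⟩
  have iW4 : mapB (fm a b c d) W4 = P4 a b c 0 + pt (a + b + c + d) := by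
    apply ConvexBody.ext; ext x
    constructor
    · intro hx
      obtain ⟨t0, t1, t2, t3, ⟨g1, g2, g3⟩, ⟨a1, a2⟩, ⟨b1, b2⟩, ⟨e1, e2⟩, ⟨d1, d2⟩, rfl⟩ := mem_im.1 hx
      have e3 : t3 = 1 := by linarith
      subst e3
      exact mem_add1.2 ⟨(t0 - 1) • a + (t1 - 1) • b + (t2 - 1) • c, mem_P3'.2
        ⟨t0 - 1, t1 - 1, t2 - 1, by linarith, by linarith, by linarith, by linarith,
          rfl⟩, by module⟩
    · intro hx
      obtain ⟨y, hy, rfl⟩ := mem_add1.1 hx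
      obtain ⟨t0, t1, t2, h1, h2, h3, h4, rfl⟩ := mem_P3'.1 hy
      exact mem_im.2 ⟨1 + t0, 1 + t1, 1 + t2, 1, ⟨by linarith, by linarith, by linarith⟩,
        ⟨by linarith, by linarith⟩, ⟨by linarith, by linarith⟩, ⟨by linarith, by linarith⟩,
        ⟨by linarith, by linarith⟩, by module⟩
  have iR3 : mapB (fm a b c d) R3 = P4 a b c 0 + seg d + pt (a + b + c) := by
    apply ConvexBody.ext; ext x
    constructor
    · intro hx
      obtain ⟨t0, t1, t2, t3, ⟨g1, g2, g3⟩, ⟨a1, a2⟩, ⟨b1, b2⟩, ⟨e1, e2⟩, ⟨d1, d2⟩, rfl⟩ := mem_im.1 hx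
      exact mem_add3.2 ⟨(t0 - 1) • a + (t1 - 1) • b + (t2 - 1) • c, mem_P3'.2
        ⟨t0 - 1, t1 - 1, t2 - 1, by linarith, by linarith, by linarith, by linarith,
          rfl⟩, t3 • d, mem_seg'.2 ⟨t3, by linarith, by linarith, rfl⟩, by module⟩
    · intro hx
      obtain ⟨y, hy, z, hz, rfl⟩ := mem_add3.1 hx
      obtain ⟨t0, t1, t2, h1, h2, h3, h4, rfl⟩ := mem_P3'.1 hy
      obtain ⟨t3, h5, h6, rfl⟩ := mem_seg'.1 hz
      exact mem_im.2 ⟨1 + t0, 1 + t1, 1 + t2, t3, ⟨by linarith, by linarith, by linarith⟩,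
        ⟨by linarith, by linarith⟩, ⟨by linarith, by linarith⟩, ⟨by linarith, by linarith⟩,
        ⟨by linarith, by linarith⟩, by module⟩
  have iW3 : mapB (fm a b c d) W3 = tri a b + seg d + pt (a + b + c) := by
    apply ConvexBody.ext; ext x
    constructor
    · intro hx
      obtain ⟨t0, t1, t2, t3, ⟨g1, g2, g3⟩, ⟨a1, a2⟩, ⟨b1, b2⟩, ⟨e1, e2⟩, ⟨d1, d2⟩, rfl⟩ := mem_im.1 hx
      have e3 : t2 = 1 := by linarith
      subst e3
      exact mem_add3.2 ⟨(t0 - 1) • a + (t1 - 1) • b, mem_tri'.2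
        ⟨t0 - 1, t1 - 1, by linarith, by linarith, by linarith,
          rfl⟩, t3 • d, mem_seg'.2 ⟨t3, by linarith, by linarith, rfl⟩, by module⟩
    · intro hx
      obtain ⟨y, hy, z, hz, rfl⟩ := mem_add3.1 hx
      obtain ⟨t0, t1, h1, h2, h3, rfl⟩ := mem_tri'.1 hy
      obtain ⟨t3, h5, h6, rfl⟩ := mem_seg'.1 hz
      exact mem_im.2 ⟨1 + t0, 1 + t1, 1, t3, ⟨by linarith, by linarith, by linarith⟩,
        ⟨by linarith, by linarith⟩, ⟨by linarith, by linarith⟩, ⟨by linarith, by linarith⟩,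
        ⟨by linarith, by linarith⟩, by module⟩
  have iR2 : mapB (fm a b c d) R2 = tri a b + tri c d + pt (a + b) := by
    apply ConvexBody.ext; ext x
    constructor
    · intro hx
      obtain ⟨t0, t1, t2, t3, ⟨g1, g2, g3⟩, ⟨a1, a2⟩, ⟨b1, b2⟩, ⟨e1, e2⟩, ⟨d1, d2⟩, rfl⟩ := mem_im.1 hx
      exact mem_add3.2 ⟨(t0 - 1) • a + (t1 - 1) • b, mem_tri'.2
        ⟨t0 - 1, t1 - 1, by linarith, by linarith, by linarith,
          rfl⟩, t2 • c + t3 • d, mem_tri'.2 ⟨t2, t3, by linarith, by linarith, by linarith,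
          rfl⟩, by module⟩
    · intro hx
      obtain ⟨y, hy, z, hz, rfl⟩ := mem_add3.1 hx
      obtain ⟨t0, t1, h1, h2, h3, rfl⟩ := mem_tri'.1 hy
      obtain ⟨t2, t3, h4, h5, h6, rfl⟩ := mem_tri'.1 hz
      exact mem_im.2 ⟨1 + t0, 1 + t1, t2, t3, ⟨by linarith, by linarith, by linarith⟩,
        ⟨by linarith, by linarith⟩, ⟨by linarith, by linarith⟩, ⟨by linarith, by linarith⟩,
        ⟨by linarith, by linarith⟩, by module⟩
  have iW2 : mapB (fm a b c d) W2 = seg a + tri c d + pt (a + b) := by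
    apply ConvexBody.ext; ext x
    constructor
    · intro hx
      obtain ⟨t0, t1, t2, t3, ⟨g1, g2, g3⟩, ⟨a1, a2⟩, ⟨b1, b2⟩, ⟨e1, e2⟩, ⟨d1, d2⟩, rfl⟩ := mem_im.1 hx
      have e3 : t1 = 1 := by linarith
      subst e3
      exact mem_add3.2 ⟨(t0 - 1) • a, mem_seg'.2
        ⟨t0 - 1, by linarith, by linarith,
          rfl⟩, t2 • c + t3 • d, mem_tri'.2 ⟨t2, t3, by linarith, by linarith, by linarith,
          rfl⟩, by module⟩
    · intro hx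
      obtain ⟨y, hy, z, hz, rfl⟩ := mem_add3.1 hx
      obtain ⟨t0, h1, h2, rfl⟩ := mem_seg'.1 hy
      obtain ⟨t2, t3, h4, h5, h6, rfl⟩ := mem_tri'.1 hz
      exact mem_im.2 ⟨1 + t0, 1, t2, t3, ⟨by linarith, by linarith, by linarith⟩,
        ⟨by linarith, by linarith⟩, ⟨by linarith, by linarith⟩, ⟨by linarith, by linarith⟩,
        ⟨by linarith, by linarith⟩, by module⟩
  have iR1 : mapB (fm a b c d) R1 = seg a + P4 b c d 0 + pt a := by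
    apply ConvexBody.ext; ext x
    constructor
    · intro hx
      obtain ⟨t0, t1, t2, t3, ⟨g1, g2, g3⟩, ⟨a1, a2⟩, ⟨b1, b2⟩, ⟨e1, e2⟩, ⟨d1, d2⟩, rfl⟩ := mem_im.1 hx
      exact mem_add3.2 ⟨(t0 - 1) • a, mem_seg'.2
        ⟨t0 - 1, by linarith, by linarith,
          rfl⟩, t1 • b + t2 • c + t3 • d, mem_P3'.2 ⟨t1, t2, t3, by linarith, by linarith,
          by linarith, by linarith, rfl⟩, by module⟩
    · intro hx
      obtain ⟨y, hy, z, hz, rfl⟩ := mem_add3.1 hx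
      obtain ⟨t0, h1, h2, rfl⟩ := mem_seg'.1 hy
      obtain ⟨t1, t2, t3, h4, h5, h6, h7, rfl⟩ := mem_P3'.1 hz
      exact mem_im.2 ⟨1 + t0, t1, t2, t3, ⟨by linarith, by linarith, by linarith⟩,
        ⟨by linarith, by linarith⟩, ⟨by linarith, by linarith⟩, ⟨by linarith, by linarith⟩,
        ⟨by linarith, by linarith⟩, by module⟩
  have iW1 : mapB (fm a b c d) W1 = P4 b c d 0 + pt a := by
    apply ConvexBody.ext; ext x
    constructor
    · intro hx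
      obtain ⟨t0, t1, t2, t3, ⟨g1, g2, g3⟩, ⟨a1, a2⟩, ⟨b1, b2⟩, ⟨e1, e2⟩, ⟨d1, d2⟩, rfl⟩ := mem_im.1 hx
      have e3 : t0 = 1 := by linarith
      subst e3
      exact mem_add1.2 ⟨t1 • b + t2 • c + t3 • d, mem_P3'.2 ⟨t1, t2, t3, by linarith, by linarith,
          by linarith, by linarith, rfl⟩, by module⟩
    · intro hx
      obtain ⟨z, hz, rfl⟩ := mem_add1.1 hx
      obtain ⟨t1, t2, t3, h4, h5, h6, h7, rfl⟩ := mem_P3'.1 hz
      exact mem_im.2 ⟨1, t1, t2, t3, ⟨by linarith, by linarith, by linarith⟩,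
        ⟨by linarith, by linarith⟩, ⟨by linarith, by linarith⟩, ⟨by linarith, by linarith⟩,
        ⟨by linarith, by linarith⟩, by module⟩
  have iR0 : mapB (fm a b c d) R0 = P4 a b c d := by
    apply ConvexBody.ext; ext x
    constructor
    · intro hx
      obtain ⟨t0, t1, t2, t3, ⟨g1, g2, g3⟩, ⟨a1, a2⟩, ⟨b1, b2⟩, ⟨e1, e2⟩, ⟨d1, d2⟩, rfl⟩ := mem_im.1 hx
      exact mem_P4.2 ⟨t0, t1, t2, t3, by linarith, by linarith,
          by linarith, by linarith, by linarith, rfl⟩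
    · intro hx
      obtain ⟨t0, t1, t2, t3, h4, h5, h6, h7, h8, rfl⟩ := mem_P4.1 hx
      exact mem_im.2 ⟨t0, t1, t2, t3, ⟨by linarith, by linarith, by linarith⟩,
        ⟨by linarith, by linarith⟩, ⟨by linarith, by linarith⟩, ⟨by linarith, by linarith⟩,
        ⟨by linarith, by linarith⟩, by module⟩
  rw [iK, iW4, iR4, hφ.trans, hφ.trans] at c1
  rw [iW3, iR3, hφ.trans, hφ.trans] at c2
  rw [iW2, iR2, hφ.trans, hφ.trans] at c3
  rw [iW1, iR1, iR0, hφ.trans, hφ.trans] at c4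
  linarith

end C
end Simplex
end MV
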