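import Pool.Agent.Lib.MP_f30071_gt.Poly
import Pool.Agent.Lib.MP_f30071_gt.K1
import Pool.Agent.Lib.MP_f30071_gt.SimplexCut

open MeasureTheory ProbabilityTheory Filter Topology Set
open scoped InnerProductSpace Pointwise NNReal ENNReal

namespace MV
namespace Simplex

section E
variable {V : Type*} [NormedAddCommGroup V] [InnerProductSpace ℝ V] [FiniteDimensional ℝ V]
variable {φ : ConvexBody V → ℝ}

omit [FiniteDimensional ℝ V] in
theorem D_apply (x : V) (φ : ConvexBody V → ℝ) (K : ConvexBody V) :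
    D x φ K = φ (K + seg x) - φ K := rfl

omit [FiniteDimensional ℝ V] in
theorem add_seg_of_D {x : V} (h : ∀ K, D x φ K = 0) (K : ConvexBody V) : φ (K + seg x) = φ K := by
  have := h K
  rw [D_apply] at this
  linarith

/-- `ω` -/
noncomputable def om (φ : ConvexBody V → ℝ) (a b c d : V) : ℝ := der (tri c d) φ (tri a b)

theorem om_eq (hφ : IsVal φ) (h2 : IsHom 2 φ) (h : ∀ x K, D x φ K = 0) (a b c d : V) :
    om φ a b c d = 2 * φ (P4 a b c d) := by
  have h4 := cut4 hφ a b c d
  have e1 : φ ((2 : ℝ) • P4 a b c d) = 4 * φ (P4 a b c d) := by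
    rw [h2 2 _ (by norm_num)]; norm_num
  have e2 : φ (seg a + tri c d) = φ (tri c d) := by
    rw [add_comm]; exact add_seg_of_D (h a) _
  have e3 : φ (tri a b + seg d) = φ (tri a b) := add_seg_of_D (h d) _
  have e4 : φ (seg a + P4 b c d 0) = φ (P4 b c d 0) := by
    rw [add_comm]; exact add_seg_of_D (h a) _
  have e5 : φ (P4 a b c 0 + seg d) = φ (P4 a b c 0) := add_seg_of_D (h d) _
  have e6 := isHom_two_add hφ h2 (tri a b) (tri c d)
  unfold om
  linarith

theorem om_symm (hφ : IsVal φ) (h2 : IsHom 2 φ) (a b c d : V) :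
    om φ a b c d = om φ c d a b := der_symm_two hφ h2 _ _

/-- additive functional in the first body -/
theorem isAdd_left (hφ : IsVal φ) (h2 : IsHom 2 φ) (L : ConvexBody V) :
    IsAdd (fun K => der L φ K) := by
  have := der_isAdd hφ L
  have e : (fun K => der L φ K) = fun K => der K φ L := by
    funext K; exact der_symm_two hφ h2 K L
  rw [e]; exact this

theorem der_seg_zero (hφ : IsVal φ) (h : ∀ x K, D x φ K = 0) (x : V) (K : ConvexBody V) :
    der (seg x) φ K = 0 := by rw [der_seg hφ, h]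

theorem der_on_seg (hφ : IsVal φ) (h2 : IsHom 2 φ) (h : ∀ x K, D x φ K = 0) (x : V)
    (L : ConvexBody V) : der L φ (seg x) = 0 := by
  rw [der_symm_two hφ h2, der_seg hφ, h]

/-- triangles glue to a parallelogram -/
theorem tri_add_tri (a b : V) : tri a b + tri b a = seg a + seg b + seg (a + b) := by
  apply hs_ext; intro v
  simp only [hs_add, hs_tri, hs_seg, inner_add_right]
  generalize ⟪v, a⟫_ℝ = α
  generalize ⟪v, b⟫_ℝ = β
  simp only [max_def]
  split_ifs <;> linarith

/-- cutting a triangle -/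
theorem tri_cut (x y : V) : tri ((2 : ℝ) • x) y + (seg (x + y) + pt x)
    = tri x (x + y) + (tri x y + pt x) := by
  apply hs_ext; intro v
  simp only [hs_add, hs_tri, hs_seg, inner_add_right, hs_pt, real_inner_smul_right]
  generalize ⟪v, x⟫_ℝ = α
  generalize ⟪v, y⟫_ℝ = β
  simp only [max_def]
  split_ifs <;> linarith

theorem om_swap_left (hφ : IsVal φ) (h2 : IsHom 2 φ) (h : ∀ x K, D x φ K = 0) (a b c d : V) :
    om φ b a c d = - om φ a b c d := by
  have hA := isAdd_left hφ h2 (tri c d)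
  have e := congrArg (fun K => der (tri c d) φ K) (tri_add_tri a b)
  simp only [hA.add, der_on_seg hφ h2 h] at e
  unfold om
  linarith

theorem om_swap_right (hφ : IsVal φ) (h2 : IsHom 2 φ) (h : ∀ x K, D x φ K = 0) (a b c d : V) :
    om φ a b d c = - om φ a b c d := by
  rw [om_symm hφ h2, om_swap_left hφ h2 h, om_symm hφ h2]

end E

section F
variable {V : Type*} [NormedAddCommGroup V] [InnerProductSpace ℝ V] [FiniteDimensional ℝ V]
variable {φ : ConvexBody V → ℝ}

theorem rel1 (a b c d : V) : P4 b (-(a + b)) (a + b + c) d + pt a = P4 a b c d := by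
  apply hs_ext; intro v
  rw [hs_add, hs_pt]
  refine eq_of_forall_ge_iff fun M => ?_
  rw [← le_sub_iff_add_le]
  simp only [hs_P4, max_le_iff, inner_add_right, inner_neg_right]
  generalize ⟪v, a⟫_ℝ = α
  generalize ⟪v, b⟫_ℝ = β
  generalize ⟪v, c⟫_ℝ = γ
  generalize ⟪v, d⟫_ℝ = δ
  constructor <;>
  · rintro ⟨h0, h1, h2, h3, h4⟩
    refine ⟨?_, ?_, ?_, ?_, ?_⟩ <;> linarith

theorem rel2 (a b c d : V) : P4 (-(a + b)) a (b + c) d + pt (a + b) = P4 a b c d := by
  apply hs_ext; intro v
  rw [hs_add, hs_pt]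
  refine eq_of_forall_ge_iff fun M => ?_
  rw [← le_sub_iff_add_le]
  simp only [hs_P4, max_le_iff, inner_add_right, inner_neg_right]
  generalize ⟪v, a⟫_ℝ = α
  generalize ⟪v, b⟫_ℝ = β
  generalize ⟪v, c⟫_ℝ = γ
  generalize ⟪v, d⟫_ℝ = δ
  constructor <;>
  · rintro ⟨h0, h1, h2, h3, h4⟩
    refine ⟨?_, ?_, ?_, ?_, ?_⟩ <;> linarith

theorem rel3 (a b c d : V) : P4 (-c) (-b) (-a) (a + b + c + d) + pt (a + b + c) = P4 a b c d := by
  apply hs_ext; intro v
  rw [hs_add, hs_pt]
  refine eq_of_forall_ge_iff fun M => ?_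
  rw [← le_sub_iff_add_le]
  simp only [hs_P4, max_le_iff, inner_add_right, inner_neg_right]
  generalize ⟪v, a⟫_ℝ = α
  generalize ⟪v, b⟫_ℝ = β
  generalize ⟪v, c⟫_ℝ = γ
  generalize ⟪v, d⟫_ℝ = δ
  constructor <;>
  · rintro ⟨h0, h1, h2, h3, h4⟩
    refine ⟨?_, ?_, ?_, ?_, ?_⟩ <;> linarith

theorem trel1 (a b : V) : tri b (-(a + b)) + pt a = tri a b := by
  apply hs_ext; intro v
  rw [hs_add, hs_pt]
  refine eq_of_forall_ge_iff fun M => ?_
  rw [← le_sub_iff_add_le]
  simp only [hs_tri, max_le_iff, inner_add_right, inner_neg_right]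
  generalize ⟪v, a⟫_ℝ = α
  generalize ⟪v, b⟫_ℝ = β
  constructor <;>
  · rintro ⟨h0, h1, h2⟩
    refine ⟨?_, ?_, ?_⟩ <;> linarith

theorem trel2 (a b : V) : tri (-(a + b)) a + pt (a + b) = tri a b := by
  apply hs_ext; intro v
  rw [hs_add, hs_pt]
  refine eq_of_forall_ge_iff fun M => ?_
  rw [← le_sub_iff_add_le]
  simp only [hs_tri, max_le_iff, inner_add_right, inner_neg_right]
  generalize ⟪v, a⟫_ℝ = α
  generalize ⟪v, b⟫_ℝ = β
  constructor <;>
  · rintro ⟨h0, h1, h2⟩
    refine ⟨?_, ?_, ?_⟩ <;> linarith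

theorem trel3 (a b : V) : tri (-a) (a + b) + pt a = tri a b := by
  apply hs_ext; intro v
  rw [hs_add, hs_pt]
  refine eq_of_forall_ge_iff fun M => ?_
  rw [← le_sub_iff_add_le]
  simp only [hs_tri, max_le_iff, inner_add_right, inner_neg_right]
  generalize ⟪v, a⟫_ℝ = α
  generalize ⟪v, b⟫_ℝ = β
  constructor <;>
  · rintro ⟨h0, h1, h2⟩
    refine ⟨?_, ?_, ?_⟩ <;> linarith

theorem trel4 (a b : V) : tri (-a) (-b) + pt (a + b) = tri b a := by
  apply hs_ext; intro v
  rw [hs_add, hs_pt]
  refine eq_of_forall_ge_iff fun M => ?_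
  rw [← le_sub_iff_add_le]
  simp only [hs_tri, max_le_iff, inner_add_right, inner_neg_right]
  generalize ⟪v, a⟫_ℝ = α
  generalize ⟪v, b⟫_ℝ = β
  constructor <;>
  · rintro ⟨h0, h1, h2⟩
    refine ⟨?_, ?_, ?_⟩ <;> linarith

/-- the first triangle may be translated -/
theorem om_tr_left (hφ : IsVal φ) (h2 : IsHom 2 φ) {a b a' b' p : V}
    (h : tri a' b' + pt p = tri a b) (c d : V) : om φ a b c d = om φ a' b' c d := by
  unfold om
  rw [← h]
  exact (isAdd_left hφ h2 (tri c d)).isVal.trans _ _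

theorem om_tr_right (hφ : IsVal φ) (h2 : IsHom 2 φ) {c d c' d' p : V}
    (h : tri c' d' + pt p = tri c d) (a b : V) : om φ a b c d = om φ a b c' d' := by
  rw [om_symm hφ h2, om_tr_left hφ h2 h, om_symm hφ h2]

theorem om_rel1 (hφ : IsVal φ) (h2 : IsHom 2 φ) (h : ∀ x K, D x φ K = 0) (a b c d : V) :
    om φ a b c d = om φ a b (a + b + c) d := by
  rw [om_eq hφ h2 h a b c d, ← rel1, hφ.trans, ← om_eq hφ h2 h,
    ← om_tr_left hφ h2 (trel1 a b)]

theorem om_rel2 (hφ : IsVal φ) (h2 : IsHom 2 φ) (h : ∀ x K, D x φ K = 0) (a b c d : V) :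
    om φ a b c d = om φ a b (b + c) d := by
  rw [om_eq hφ h2 h a b c d, ← rel2, hφ.trans, ← om_eq hφ h2 h,
    ← om_tr_left hφ h2 (trel2 a b)]

theorem tri_smul {c : ℝ} (hc : 0 ≤ c) (a b : V) : c • tri a b = tri (c • a) (c • b) := by
  apply hs_ext; intro v
  rw [hs_smul hc, hs_tri, hs_tri, real_inner_smul_right, real_inner_smul_right,
    mul_max_of_nonneg _ _ hc, mul_max_of_nonneg _ _ hc]
  simp [mul_add]

theorem om_smul_left (hφ : IsVal φ) (h2 : IsHom 2 φ) {k : ℝ} (hk : 0 ≤ k) (a b c d : V) :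
    om φ (k • a) (k • b) c d = k * om φ a b c d := by
  unfold om
  rw [← tri_smul hk]
  exact (isAdd_left hφ h2 (tri c d)).smul hk _

/-- shear by a multiple of the second vector -/
theorem om_add_b (hφ : IsVal φ) (h2 : IsHom 2 φ) (h : ∀ x K, D x φ K = 0) (a b c d : V) (k : ℝ) :
    om φ a b (k • b + c) d = om φ a b c d := by
  have pos : ∀ (k : ℝ), 0 < k → ∀ c, om φ a b (k • b + c) d = om φ a b c d := by
    intro k hk c
    have e1 := om_smul_left hφ h2 hk.le a b c d
    have e2 := om_smul_left hφ h2 hk.le a b (k • b + c) d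
    have e3 := om_rel2 hφ h2 h (k • a) (k • b) c d
    rw [e1, e2] at e3
    exact (mul_left_cancel₀ hk.ne' e3).symm
  rcases lt_trichotomy 0 k with hk | hk | hk
  · exact pos k hk c
  · rw [← hk]; simp
  · have := pos (-k) (by linarith) (k • b + c)
    rw [← this]
    congr 1
    module

theorem om_add_ab (hφ : IsVal φ) (h2 : IsHom 2 φ) (h : ∀ x K, D x φ K = 0) (a b c d : V) (k : ℝ) :
    om φ a b (k • (a + b) + c) d = om φ a b c d := by
  have pos : ∀ (k : ℝ), 0 < k → ∀ c, om φ a b (k • (a + b) + c) d = om φ a b c d := by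
    intro k hk c
    have e1 := om_smul_left hφ h2 hk.le a b c d
    have e2 := om_smul_left hφ h2 hk.le a b (k • (a + b) + c) d
    have e3 := om_rel1 hφ h2 h (k • a) (k • b) c d
    rw [← smul_add] at e3
    rw [e1, e2] at e3
    exact (mul_left_cancel₀ hk.ne' e3).symm
  rcases lt_trichotomy 0 k with hk | hk | hk
  · exact pos k hk c
  · rw [← hk]; simp
  · have := pos (-k) (by linarith) (k • (a + b) + c)
    rw [← this]
    congr 1
    module

/-- shear by a combination of the first two vectors -/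
theorem om_add_c (hφ : IsVal φ) (h2 : IsHom 2 φ) (h : ∀ x K, D x φ K = 0) (a b c d : V)
    (k l : ℝ) : om φ a b (k • a + l • b + c) d = om φ a b c d := by
  have e : k • a + l • b + c = k • (a + b) + ((l - k) • b + c) := by module
  rw [e, om_add_ab hφ h2 h, om_add_b hφ h2 h]

theorem om_add_d (hφ : IsVal φ) (h2 : IsHom 2 φ) (h : ∀ x K, D x φ K = 0) (a b c d : V)
    (k l : ℝ) : om φ a b c (k • a + l • b + d) = om φ a b c d := by
  rw [om_swap_right hφ h2 h, om_add_c hφ h2 h, ← om_swap_right hφ h2 h]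

/-- exchange of the first and the third vector -/
theorem om_swap13 (hφ : IsVal φ) (h2 : IsHom 2 φ) (h : ∀ x K, D x φ K = 0) (a b c d : V) :
    om φ c b a d = - om φ a b c d := by
  have e1 : om φ a b c d = om φ (-c) (-b) (-a) (a + b + c + d) := by
    rw [om_eq hφ h2 h a b c d, ← rel3, hφ.trans, ← om_eq hφ h2 h]
  have e2 : om φ (-c) (-b) (-a) (a + b + c + d) = om φ (-c) (-b) (-a) (a + d) := by
    have : a + b + c + d = (-1 : ℝ) • (-c) + (-1 : ℝ) • (-b) + (a + d) := by module
    rw [this, om_add_d hφ h2 h]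
  have e3 : om φ (-c) (-b) (-a) (a + d) = om φ b c (-a) (a + d) :=
    (om_tr_left hφ h2 (trel4 c b) _ _).symm
  have e4 : om φ b c (-a) (a + d) = om φ b c a d := (om_tr_right hφ h2 (trel3 a d) _ _).symm
  rw [e1, e2, e3, e4, om_swap_left hφ h2 h]

/-- doubling the first vector -/
theorem om_two (hφ : IsVal φ) (h2 : IsHom 2 φ) (h : ∀ x K, D x φ K = 0) (a b c d : V) :
    om φ ((2 : ℝ) • a) b c d = 2 * om φ a b c d := by
  have hA := isAdd_left hφ h2 (tri c d)
  have e := congrArg (fun K => der (tri c d) φ K) (tri_cut a b)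
  simp only [hA.add, der_on_seg hφ h2 h, hA.pt] at e
  have e2 : om φ a (a + b) c d = om φ a b c d := by
    have e3 := om_swap13 hφ h2 h a (a + b) c d
    have e4 := om_swap_left hφ h2 h a (a + b) c d
    -- move the second vector to the third place
    have f1 : om φ a (a + b) c d = - om φ a c (a + b) d := by
      have g1 := om_swap_left hφ h2 h (a + b) a c d
      have g2 := om_swap13 hφ h2 h (a + b) a c d
      have g3 := om_swap_left hφ h2 h c a (a + b) d
      linarith
    have f2 : om φ a c (a + b) d = om φ a c b d := by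
      have := om_add_c hφ h2 h a c b d 1 0
      simpa using this
    have f3 : om φ a b c d = - om φ a c b d := by
      have g1 := om_swap_left hφ h2 h b a c d
      have g2 := om_swap13 hφ h2 h b a c d
      have g3 := om_swap_left hφ h2 h c a b d
      linarith
    linarith
  unfold om at e2 ⊢
  linarith

theorem om_zero (hφ : IsVal φ) (h2 : IsHom 2 φ) (h : ∀ x K, D x φ K = 0) (a b c d : V) :
    om φ a b c d = 0 := by
  have e1 := om_smul_left hφ h2 (by norm_num : (0 : ℝ) ≤ 2) a b c d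
  have e2 := om_two hφ h2 h a ((2 : ℝ) • b) c d
  have e3 := om_swap_left hφ h2 h ((2 : ℝ) • b) a c d
  have e4 := om_two hφ h2 h b a c d
  have e5 := om_swap_left hφ h2 h b a c d
  linarith

end F

section G
variable {V : Type*} [NormedAddCommGroup V] [InnerProductSpace ℝ V] [FiniteDimensional ℝ V]
  [MeasurableSpace V] [BorelSpace V]
variable {φ : ConvexBody V → ℝ}

theorem zero_of_D_two (hφ : IsVal φ) (h2 : IsHom 2 φ) (h : ∀ x K, D x φ K = 0)
    (K : ConvexBody V) : φ K = 0 := by
  have s1 : ∀ (c d : V) (K : ConvexBody V), der (tri c d) φ K = 0 := by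
    intro c d K
    exact K1 (isAdd_left hφ h2 (tri c d)) (fun x => der_on_seg hφ h2 h x _)
      (fun a b => om_zero hφ h2 h a b c d) K
  have s2 : ∀ K L : ConvexBody V, der L φ K = 0 := by
    intro K L
    exact K1 (der_isAdd hφ K) (fun x => der_seg_zero hφ h x K) (fun a b => s1 a b K) L
  have := der_self hφ h2 K
  rw [s2] at this
  push_cast at this
  linarith

omit [FiniteDimensional ℝ V] [MeasurableSpace V] [BorelSpace V] in
theorem der_zero_fun (L : ConvexBody V) : der L (fun _ => (0 : ℝ)) = fun _ => 0 := by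
  funext K
  simp [der, cof]

end G
end Simplex

section Simplex
variable {V : Type*} [NormedAddCommGroup V] [InnerProductSpace ℝ V] [FiniteDimensional ℝ V]
  [MeasurableSpace V] [BorelSpace V]
variable {φ : ConvexBody V → ℝ}

open Classical in
/-- path simplex with steps `vs`: convex hull of the partial sums -/
noncomputable def pathS (vs : List V) : ConvexBody V :=
  hull ((Finset.range (vs.length + 1)).image (fun i => (vs.take i).sum)) (by simp)

/-- S'' -/
theorem zero_of_D (hφ : IsVal φ) {j : ℕ} (hj : IsHom j φ) (h2 : 2 ≤ j)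
    (h : ∀ x K, D x φ K = 0) (K : ConvexBody V) : φ K = 0 := by
  induction j, h2 using Nat.le_induction generalizing φ K with
  | base => exact Simplex.zero_of_D_two hφ hj h K
  | succ j h2 ih =>
    have hz : ∀ L K, der L φ K = 0 := by
      intro L K
      refine ih (isVal_der hφ L) (der_hom hφ hj L) ?_ K
      intro x M
      have e : D x φ = fun _ => 0 := by funext N; exact h x N
      rw [D_der, e, Simplex.der_zero_fun]
    have := der_self hφ hj K
    rw [hz] at this
    have hne : ((j + 1 : ℕ) : ℝ) ≠ 0 := by positivity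
    rcases mul_eq_zero.1 this.symm with h0 | h0
    · exact absurd h0 hne
    · exact h0

/-- S' -/
theorem zero_of_Ds (hφ : IsVal φ) {j : ℕ} (hj : IsHom (j + 1) φ)
    (h : ∀ xs : List V, xs.length = j → Orthonormal ℝ (fun i : Fin xs.length => xs.get i) →
      ∀ K, Ds xs φ K = 0) (K : ConvexBody V) : φ K = 0 := by
  have h' : ∀ xs : List V, xs.length = j → ∀ K, Ds xs φ K = 0 := fun xs hx K =>
    Ds_zero_of_orthonormal hφ j h xs hx K
  clear h
  induction j generalizing φ K with
  | zero => exact h' [] rfl K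
  | succ j ih =>
    have hz : ∀ x K, D x φ K = 0 := by
      intro x K
      refine ih (isVal_D hφ x) (D_hom hφ hj x) K ?_
      intro xs hx L
      rw [← Ds_cons']
      exact h' (x :: xs) (by simp [hx]) L
    exact zero_of_D hφ hj (by omega) hz K

omit [FiniteDimensional ℝ V] [MeasurableSpace V] [BorelSpace V] in
theorem pathS_three (a b c : V) : pathS [a, b, c] = Simplex.P4 a b c 0 := by
  classical
  apply ConvexBody.ext
  change convexHull ℝ _ = convexHull ℝ _
  congr 1
  ext x
  simp only [Finset.coe_image, Set.mem_image, Finset.coe_insert, Finset.coe_singleton,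
    Set.mem_insert_iff, Set.mem_singleton_iff, Finset.mem_coe, Finset.mem_range,
    List.length_cons, List.length_nil]
  constructor
  · rintro ⟨i, hi, rfl⟩
    interval_cases i <;> simp [add_assoc]
  · rintro (rfl | rfl | rfl | rfl | rfl)
    · exact ⟨0, by norm_num, by simp⟩
    · exact ⟨1, by norm_num, by simp⟩
    · exact ⟨2, by norm_num, by simp⟩
    · exact ⟨3, by norm_num, by simp [add_assoc]⟩
    · exact ⟨3, by norm_num, by simp [add_assoc]⟩

omit [MeasurableSpace V] [BorelSpace V] in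
/-- tetrahedron identity (used for zonal uniqueness): `φ ∈ Val_2`, `D a φ = 0 = D b φ` -/
theorem tetra (hφ : IsVal φ) (hj : IsHom 2 φ) (a b c : V) (ha : ∀ K, D a φ K = 0)
    (hb : ∀ K, D b φ K = 0) : 2 * φ (pathS [a, b, c]) = D c φ (tri a b) := by
  rw [pathS_three]
  have h4 := Simplex.cut4 hφ a b c 0
  have t0 : ∀ c : V, tri c 0 = seg c := by
    intro c; rw [Simplex.tri_eq, Simplex.seg_eq]
  have p0 : Simplex.P4 b c 0 0 = tri b c := (Simplex.tri_eq b c).symm
  rw [t0, p0, seg_zero, add_zero, add_zero] at h4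
  have e1 : φ ((2 : ℝ) • Simplex.P4 a b c 0) = 4 * φ (Simplex.P4 a b c 0) := by
    rw [hj 2 _ (by norm_num)]; norm_num
  have e2 : φ (seg a + tri b c) = φ (tri b c) := by
    rw [add_comm]; exact Simplex.add_seg_of_D ha _
  have e3 : φ (seg a + seg c) = φ (seg c) := by
    rw [add_comm]; exact Simplex.add_seg_of_D ha _
  have e4 : φ 0 = 0 := IsHom.zero_body hj
  have e5 : D c φ 0 = 0 := IsHom.zero_body (D_hom (j := 1) hφ hj c)
  have e6 : φ (seg c) = 0 := by
    rw [Simplex.D_apply, zero_add, e4] at e5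
    linarith
  rw [Simplex.D_apply]
  linarith

end Simplex
end MV
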