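import Pool.Agent.Lib.MP_f30071_gt.Poly
import Pool.Agent.Lib.MP_f30071_gt.Simplex

open MeasureTheory ProbabilityTheory Filter Topology Set
open scoped InnerProductSpace Pointwise NNReal ENNReal

set_option linter.unusedSectionVars false
set_option linter.unnecessarySimpa false

namespace MV

/-! ### module Vol (Vol.lean): volume -/

section Vol
variable {V : Type*} [NormedAddCommGroup V] [InnerProductSpace ℝ V] [FiniteDimensional ℝ V]
  [MeasurableSpace V] [BorelSpace V]
variable {φ : ConvexBody V → ℝ}

/-- volume of a body -/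
noncomputable def vol (K : ConvexBody V) : ℝ := ((volume : Measure V) (K : Set V)).toReal

theorem volume_ne_top (K : ConvexBody V) : (volume : Measure V) (K : Set V) ≠ ⊤ :=
  K.isCompact.measure_lt_top.ne

theorem vol_nonneg (K : ConvexBody V) : 0 ≤ vol K := ENNReal.toReal_nonneg

theorem vol_mono {K L : ConvexBody V} (h : K ≤ L) : vol K ≤ vol L :=
  ENNReal.toReal_mono (volume_ne_top L) (measure_mono h)

theorem vol_pos {K : ConvexBody V} (h : (interior (K : Set V)).Nonempty) : 0 < vol K :=
  ENNReal.toReal_pos (Measure.measure_pos_of_nonempty_interior _ h).ne' (volume_ne_top K)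

theorem vol_hom : IsHom (Module.finrank ℝ V) (vol : ConvexBody V → ℝ) := by
  intro c K hc
  unfold vol
  rw [ConvexBody.coe_smul, Measure.addHaar_smul, ENNReal.toReal_mul,
    ENNReal.toReal_ofReal (abs_nonneg _), abs_of_nonneg (pow_nonneg hc _)]

theorem coe_add_pt (K : ConvexBody V) (x : V) :
    ((K + pt x : ConvexBody V) : Set V) = (fun y => y + x) '' (K : Set V) := by
  rw [ConvexBody.coe_add, coe_pt, Set.add_singleton]

theorem vol_add_pt (K : ConvexBody V) (x : V) : vol (K + pt x) = vol K := by
  unfold vol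
  rw [coe_add_pt, Set.image_add_right, measure_preimage_add_right]

theorem vol_iso (g : V ≃ₗᵢ[ℝ] V) (K : ConvexBody V) : vol (isoB g K) = vol K := by
  unfold vol
  rw [coe_isoB]
  have h1 : (g '' (K : Set V)) = g.symm ⁻¹' (K : Set V) := by
    ext y
    constructor
    · rintro ⟨x, hx, rfl⟩
      simpa using hx
    · intro hy
      exact ⟨g.symm y, hy, by simp⟩
  rw [h1, g.symm.measurePreserving.measure_preimage K.isCompact.measurableSet.nullMeasurableSet]

/-- inclusion of the dilate about the origin -/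
theorem smul_le_of_dist {K L : ConvexBody V} {ρ r : ℝ} (hρ : 0 < ρ) (hr : dist K L ≤ r)
    (hrρ : r ≤ ρ) (hK : ∀ v, ρ * ‖v‖ ≤ hs K v) : (1 - r / ρ) • K ≤ L := by
  have h0 : 0 ≤ r := dist_nonneg.trans hr
  have h1 : 0 ≤ 1 - r / ρ := by
    rw [sub_nonneg, div_le_one hρ]; exact hrρ
  rw [le_iff_hs]
  intro v
  rw [hs_smul h1]
  have h2 := (abs_le.1 (abs_hs_sub_le K L v)).2
  have h3 : dist K L * ‖v‖ ≤ r * ‖v‖ := mul_le_mul_of_nonneg_right hr (norm_nonneg _)
  have h4 : r / ρ * (ρ * ‖v‖) ≤ r / ρ * hs K v :=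
    mul_le_mul_of_nonneg_left (hK v) (by positivity)
  have h5 : r / ρ * (ρ * ‖v‖) = r * ‖v‖ := by field_simp
  linarith

theorem exists_ball_le {K : ConvexBody V} (h : (interior (K : Set V)).Nonempty) :
    ∃ (x : V) (ρ : ℝ), 0 < ρ ∧ pt x + ρ • ballB V ≤ K := by
  obtain ⟨x, hx⟩ := h
  obtain ⟨ρ, hρ, hb⟩ := Metric.isOpen_iff.1 isOpen_interior x hx
  refine ⟨x, ρ / 2, by positivity, ?_⟩
  intro y hy
  obtain ⟨a, ha, b, hb', rfl⟩ := Set.mem_add.1
    (show y ∈ ((pt x : ConvexBody V) : Set V) + ((ρ / 2) • ballB V : ConvexBody V) from hy)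
  obtain ⟨z, hz, rfl⟩ := Set.mem_smul_set.1
    (show b ∈ (ρ / 2) • ((ballB V : ConvexBody V) : Set V) from hb')
  have hz' : ‖z‖ ≤ 1 := by
    have : z ∈ Metric.closedBall (0 : V) 1 := hz
    simpa using this
  have ha' : a = x := ha
  subst ha'
  apply interior_subset
  apply hb
  rw [Metric.mem_ball, dist_eq_norm]
  simp only [add_sub_cancel_left]
  rw [norm_smul, Real.norm_of_nonneg (by positivity)]
  nlinarith

theorem continuous_vol : Continuous (vol : ConvexBody V → ℝ) := by
  rw [continuous_iff_continuousAt]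
  intro K
  rw [Metric.continuousAt_iff']
  intro ε hε
  -- upper bound
  have hup : ∀ᶠ L in 𝓝 K, vol L < vol K + ε := by
    have h1 := tendsto_measure_cthickening_of_isCompact (μ := (volume : Measure V)) K.isCompact
    have h2 : ∀ᶠ r in 𝓝 (0 : ℝ), (volume : Measure V) (Metric.cthickening r (K : Set V))
        < (volume : Measure V) (K : Set V) + ENNReal.ofReal ε := by
      apply h1.eventually_lt_const
      exact ENNReal.lt_add_right (volume_ne_top K) (by simpa using hε)
    obtain ⟨δ, hδ, h3⟩ := Metric.eventually_nhds_iff.1 h2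
    have h4 : ∀ᶠ L in 𝓝 K, dist L K < δ / 2 := Metric.ball_mem_nhds K (by positivity)
    filter_upwards [h4] with L hL
    have h5 : (volume : Measure V) (L : Set V)
        < (volume : Measure V) (K : Set V) + ENNReal.ofReal ε := by
      refine lt_of_le_of_lt (measure_mono ?_) (h3 (y := δ / 2) ?_)
      · intro x hx
        obtain ⟨y, hy, hxy⟩ := exists_mem_norm_sub_le (L := K) hx
        apply Metric.mem_cthickening_of_dist_le x y (δ / 2) (K : Set V) hy
        rw [dist_eq_norm]
        linarith
      · rw [Real.dist_eq, sub_zero, abs_of_pos (by positivity)]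
        linarith
    unfold vol
    have h6 : (volume : Measure V) (K : Set V) + ENNReal.ofReal ε ≠ ⊤ :=
      ENNReal.add_ne_top.2 ⟨volume_ne_top K, ENNReal.ofReal_ne_top⟩
    have h7 := (ENNReal.toReal_lt_toReal (volume_ne_top L) h6).2 h5
    rwa [ENNReal.toReal_add (volume_ne_top K) ENNReal.ofReal_ne_top,
      ENNReal.toReal_ofReal hε.le] at h7
  -- lower bound
  have hlow : ∀ᶠ L in 𝓝 K, vol K - ε < vol L := by
    by_cases hi : (interior (K : Set V)).Nonempty
    · obtain ⟨x, ρ, hρ, hx⟩ := exists_ball_le hi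
      have hK' : ∀ v, ρ * ‖v‖ ≤ hs (K + pt (-x)) v := by
        intro v
        have := hs_mono hx v
        rw [hs_add, hs_pt, hs_smul hρ.le, hs_ballB] at this
        rw [hs_add, hs_pt, inner_neg_right]
        linarith
      have h1 : Tendsto (fun r : ℝ => (1 - r / ρ) ^ Module.finrank ℝ V * vol K) (𝓝 0)
          (𝓝 (vol K)) := by
        have : Continuous (fun r : ℝ => (1 - r / ρ) ^ Module.finrank ℝ V * vol K) := by
          fun_prop
        have h := this.tendsto 0
        simpa using h
      have h2 : ∀ᶠ r in 𝓝 (0 : ℝ), vol K - ε < (1 - r / ρ) ^ Module.finrank ℝ V * vol K :=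
        h1.eventually_const_lt (by linarith)
      obtain ⟨δ, hδ, h3⟩ := Metric.eventually_nhds_iff.1 h2
      set η := min (δ / 2) ρ with hη
      have hη0 : 0 < η := lt_min (by positivity) hρ
      have h4 : ∀ᶠ L in 𝓝 K, dist L K < η := Metric.ball_mem_nhds K hη0
      filter_upwards [h4] with L hL
      have h5 : dist (K + pt (-x)) (L + pt (-x)) ≤ η := by
        refine (dist_add_le _ _ _ _).trans ?_
        rw [dist_self, add_zero, dist_comm]
        exact hL.le
      have h6 := smul_le_of_dist hρ h5 (min_le_right _ _) hK'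
      have h7 := vol_mono h6
      have h8 : 0 ≤ 1 - η / ρ := by
        rw [sub_nonneg, div_le_one hρ]; exact min_le_right _ _
      rw [vol_hom _ _ h8, vol_add_pt, vol_add_pt] at h7
      refine lt_of_lt_of_le (h3 (y := η) ?_) h7
      rw [Real.dist_eq, sub_zero, abs_of_pos hη0]
      have : η ≤ δ / 2 := min_le_left _ _
      linarith
    · have h0 : vol K = 0 := by
        unfold vol
        have h1 := K.convex.addHaar_frontier (volume : Measure V)
        rw [Set.not_nonempty_iff_eq_empty] at hi
        have h2 : frontier (K : Set V) = (K : Set V) := by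
          rw [K.isClosed.frontier_eq, hi, Set.sdiff_empty]
        rw [h2] at h1
        rw [h1]; rfl
      filter_upwards with L
      have := vol_nonneg L
      linarith
  filter_upwards [hup, hlow] with L h1 h2
  rw [Real.dist_eq, abs_lt]
  constructor <;> linarith

theorem isVal_vol : IsVal (vol : ConvexBody V → ℝ) where
  cont := continuous_vol
  val := by
    intro K L M N hM hN
    unfold vol
    rw [hM, hN]
    have h := measure_union_add_inter (μ := (volume : Measure V)) (K : Set V)
      L.isCompact.measurableSet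
    rw [← ENNReal.toReal_add, h, ENNReal.toReal_add (volume_ne_top K) (volume_ne_top L)]
    · rw [← hM]; exact volume_ne_top M
    · rw [← hN]; exact volume_ne_top N
  trans := vol_add_pt

/-! #### parallelepipeds -/

theorem val_segs_zero (xs : List V) : ∀ {φ : ConvexBody V → ℝ} {j : ℕ}, IsVal φ → IsHom j φ →
    xs.length < j → φ ((xs.map seg).sum) = 0 := by
  induction xs with
  | nil =>
    intro φ j hφ hj h
    obtain ⟨i, rfl⟩ : ∃ i, j = i + 1 := ⟨j - 1, by simp at h; omega⟩
    simpa using IsHom.zero_body hj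
  | cons x xs ih =>
    intro φ j hφ hj h
    obtain ⟨i, rfl⟩ : ∃ i, j = i + 1 := ⟨j - 1, by simp at h; omega⟩
    simp only [List.length_cons, Nat.add_lt_add_iff_right] at h
    have h1 := ih (isVal_D hφ x) (D_hom hφ hj x) h
    have h2 := ih hφ hj (by omega)
    rw [List.map_cons, List.sum_cons, add_comm]
    unfold D at h1
    linarith

theorem val_segs (xs : List V) : ∀ {φ : ConvexBody V → ℝ}, IsVal φ → IsHom xs.length φ →
    φ ((xs.map seg).sum) = Ds xs φ 0 := by
  induction xs with
  | nil =>
    intro φ hφ hj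
    simp [Ds]
  | cons x xs ih =>
    intro φ hφ hj
    have h1 := ih (isVal_D hφ x) (D_hom hφ hj x)
    have h2 := val_segs_zero xs hφ hj (by simp)
    rw [List.map_cons, List.sum_cons, add_comm, Ds_cons']
    rw [← h1]
    unfold D
    linarith

theorem vol_mem_seg {x y : V} : y ∈ seg x ↔ ∃ t : ℝ, 0 ≤ t ∧ t ≤ 1 ∧ y = t • x := by
  classical
  have : (seg x : Set V) = segment ℝ 0 x := by
    unfold seg
    rw [coe_hull]
    simp only [Finset.coe_insert, Finset.coe_singleton]
    exact convexHull_pair 0 x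
  constructor
  · intro hy
    have hy' : y ∈ (seg x : Set V) := hy
    rw [this, segment_eq_image] at hy'
    obtain ⟨t, ⟨h0, h1⟩, rfl⟩ := hy'
    exact ⟨t, h0, h1, by simp⟩
  · rintro ⟨t, h0, h1, rfl⟩
    show t • x ∈ (seg x : Set V)
    rw [this, segment_eq_image]
    exact ⟨t, ⟨h0, h1⟩, by simp⟩

theorem vol_mem_segs {xs : List V} {y : V} : y ∈ ((xs.map seg).sum : ConvexBody V) ↔
    ∃ t : Fin xs.length → ℝ, (∀ i, 0 ≤ t i ∧ t i ≤ 1) ∧ y = ∑ i, t i • xs.get i := by
  induction xs generalizing y with
  | nil =>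
    constructor
    · intro h
      have : y = 0 := h
      exact ⟨fun _ => 0, fun i => i.elim0, by simp [this]⟩
    · rintro ⟨t, -, rfl⟩
      simp only [List.map_nil, List.sum_nil]
      rfl
  | cons x xs ih =>
    constructor
    · intro h
      obtain ⟨a, ha, b, hb, rfl⟩ := Set.mem_add.1
        (show y ∈ (seg x : Set V) + (((xs.map seg).sum : ConvexBody V) : Set V) from h)
      obtain ⟨s, h0, h1, rfl⟩ := vol_mem_seg.1 ha
      obtain ⟨t, ht, rfl⟩ := ih.1 hb
      refine ⟨Fin.cons s t, ?_, ?_⟩
      · intro i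
        refine Fin.cases ⟨h0, h1⟩ (fun k => ht k) i
      · show _ = ∑ i : Fin (xs.length + 1), _
        rw [Fin.sum_univ_succ]
        rfl
    · rintro ⟨t, ht, rfl⟩
      have h2 : ∑ i : Fin (x :: xs).length, t i • (x :: xs).get i =
          t (0 : Fin (xs.length + 1)) • x + ∑ i : Fin xs.length, t (Fin.succ i) • xs.get i := by
        show ∑ i : Fin (xs.length + 1), _ = _
        rw [Fin.sum_univ_succ]
        rfl
      rw [h2]
      show _ ∈ (seg x : Set V) + (((xs.map seg).sum : ConvexBody V) : Set V)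
      apply Set.add_mem_add
      · exact vol_mem_seg.2 ⟨_, (ht _).1, (ht _).2, rfl⟩
      · exact ih.2 ⟨_, fun i => ht _, rfl⟩

theorem Ds_vol_top (xs : List V) (hl : xs.length = Module.finrank ℝ V)
    (ho : Orthonormal ℝ (fun i : Fin xs.length => xs.get i)) :
    Ds xs (vol : ConvexBody V → ℝ) 0 = 1 := by
  rw [← val_segs xs isVal_vol (by rw [hl]; exact vol_hom)]
  have hb : ⊤ ≤ Submodule.span ℝ (Set.range (fun i : Fin xs.length => xs.get i)) := by
    rw [top_le_iff]
    apply LinearIndependent.span_eq_top_of_card_eq_finrank' ho.linearIndependent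
    rw [Fintype.card_fin, hl]
  set b := OrthonormalBasis.mk ho hb with hb'
  have h1 := b.volume_parallelepiped
  have h2 : (((xs.map seg).sum : ConvexBody V) : Set V) = parallelepiped b := by
    ext y
    rw [mem_parallelepiped_iff]
    constructor
    · intro hy
      obtain ⟨t, ht, rfl⟩ := vol_mem_segs.1 hy
      refine ⟨t, ⟨fun i => (ht i).1, fun i => (ht i).2⟩, ?_⟩
      simp [hb']
    · rintro ⟨t, ht, rfl⟩
      refine vol_mem_segs.2 ⟨t, fun i => ⟨ht.1 i, ht.2 i⟩, ?_⟩
      simp [hb']
  unfold vol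
  rw [h2, h1]
  rfl

/-! #### linear substitutions -/

theorem Ds_ofFn_smul : ∀ (m : ℕ) (φ : ConvexBody V → ℝ), IsVal φ → ∀ (c : Fin m → ℝ)
    (y : Fin m → V) (K : ConvexBody V),
    Ds (List.ofFn (fun i => c i • y i)) φ K = (∏ i, |c i|) * Ds (List.ofFn y) φ K := by
  intro m
  induction m with
  | zero => intro φ hφ c y K; simp
  | succ m ih =>
    intro φ hφ c y K
    rw [List.ofFn_succ, List.ofFn_succ, Ds_cons, Ds_cons, D_smul (isVal_Ds hφ _),
      Fin.prod_univ_succ]
    have h : ∀ L, Ds (List.ofFn (fun i : Fin m => c i.succ • y i.succ)) φ L =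
        (∏ i : Fin m, |c i.succ|) * Ds (List.ofFn (fun i : Fin m => y i.succ)) φ L :=
      fun L => ih φ hφ (fun i => c i.succ) (fun i => y i.succ) L
    unfold D
    rw [h, h]
    ring

theorem Ds_ofFn_shear {m : ℕ} (hφ : IsVal φ) (y : Fin m → V) {i j : Fin m} (hij : i ≠ j) (c : ℝ)
    (K : ConvexBody V) :
    Ds (List.ofFn (Function.update y i (y i + c • y j))) φ K = Ds (List.ofFn y) φ K := by
  classical
  set rest : List V := (((Finset.univ.erase j).erase i).toList).map y with hrest
  have hmem : i ∈ (Finset.univ : Finset (Fin m)).erase j := by simp [hij]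
  have huniv : (Finset.univ : Finset (Fin m)).val =
      j ::ₘ i ::ₘ ((Finset.univ.erase j).erase i).val := by
    rw [← Finset.insert_erase (Finset.mem_univ j)]
    rw [Finset.insert_val_of_notMem (by simp)]
    congr 1
    rw [Finset.erase_insert (by simp)]
    conv_lhs => rw [← Finset.insert_erase hmem]
    rw [Finset.insert_val_of_notMem (by simp)]
  have h1 : (List.ofFn y).Perm (y j :: y i :: rest) := by
    rw [← Multiset.coe_eq_coe, ← Fin.univ_val_map, huniv, Multiset.map_cons, Multiset.map_cons]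
    rw [← Multiset.cons_coe, ← Multiset.cons_coe, hrest, ← Multiset.map_coe, Finset.coe_toList]
  have h2 : (List.ofFn (Function.update y i (y i + c • y j))).Perm
      (y j :: (y i + c • y j) :: rest) := by
    rw [← Multiset.coe_eq_coe, ← Fin.univ_val_map, huniv, Multiset.map_cons, Multiset.map_cons]
    rw [← Multiset.cons_coe, ← Multiset.cons_coe, hrest, ← Multiset.map_coe, Finset.coe_toList]
    rw [Function.update_self, Function.update_of_ne hij.symm]
    congr 2
    apply Multiset.map_congr rfl
    intro k hk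
    have hk' : k ≠ i := by
      have : k ∈ (Finset.univ.erase j).erase i := hk
      simp at this
      exact this.1
    rw [Function.update_of_ne hk']
  rw [Ds_perm h1, Ds_perm h2, Ds_cons, Ds_cons, Ds_cons, Ds_cons]
  exact D_shear (isVal_Ds hφ rest) (y j) (y i) c K

theorem Ds_ofFn_matrix {m : ℕ} (hφ : IsVal φ) (M : Matrix (Fin m) (Fin m) ℝ) (hM : M.det ≠ 0) :
    ∀ (y : Fin m → V) (K : ConvexBody V),
    Ds (List.ofFn (fun i => ∑ j, M i j • y j)) φ K = |M.det| * Ds (List.ofFn y) φ K := by
  apply Matrix.diagonal_transvection_induction_of_det_ne_zero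
    (fun M : Matrix (Fin m) (Fin m) ℝ => ∀ (y : Fin m → V) (K : ConvexBody V),
      Ds (List.ofFn (fun i => ∑ j, M i j • y j)) φ K = |M.det| * Ds (List.ofFn y) φ K) M hM
  · intro d hd y K
    rw [Matrix.det_diagonal, Finset.abs_prod, ← Ds_ofFn_smul m φ hφ d y K]
    congr 2
    ext i
    rw [Finset.sum_eq_single i]
    · rw [Matrix.diagonal_apply_eq]
    · intro b _ hb
      rw [Matrix.diagonal_apply_ne _ hb.symm, zero_smul]
    · intro h; exact absurd (Finset.mem_univ i) h
  · intro t y K
    rw [Matrix.TransvectionStruct.det, abs_one, one_mul, ← Ds_ofFn_shear hφ y t.hij t.c K]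
    congr 2
    ext k
    rw [Matrix.TransvectionStruct.toMatrix, Matrix.transvection]
    simp only [Matrix.add_apply, add_smul, Finset.sum_add_distrib]
    have h1 : ∑ x, (1 : Matrix (Fin m) (Fin m) ℝ) k x • y x = y k := by
      rw [Finset.sum_eq_single k]
      · rw [Matrix.one_apply_eq, one_smul]
      · intro b _ hb
        rw [Matrix.one_apply_ne hb.symm, zero_smul]
      · intro h; exact absurd (Finset.mem_univ k) h
    rw [h1]
    by_cases hk : k = t.i
    · subst hk
      rw [Function.update_self]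
      congr 1
      rw [Finset.sum_eq_single t.j]
      · rw [Matrix.single_apply_same]
      · intro b _ hb
        rw [Matrix.single_apply_of_ne _ _ _ _ _ (by
          rintro ⟨-, h⟩; exact hb h.symm), zero_smul]
      · intro h; exact absurd (Finset.mem_univ _) h
    · rw [Function.update_of_ne hk]
      have h2 : ∑ x, (Matrix.single t.i t.j t.c) k x • y x = 0 := by
        apply Finset.sum_eq_zero
        intro b _
        rw [Matrix.single_apply_of_ne _ _ _ _ _ (by
          rintro ⟨h, -⟩; exact hk h.symm), zero_smul]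
      rw [h2, add_zero]
  · intro A B _ _ hA hB y K
    have h1 : (fun i => ∑ j, (A * B) i j • y j) = fun i => ∑ k, A i k • (∑ j, B k j • y j) := by
      ext i
      simp only [Matrix.mul_apply, Finset.sum_smul, Finset.smul_sum, smul_smul]
      rw [Finset.sum_comm]
    rw [h1, hA, hB, Matrix.det_mul, abs_mul]
    ring

/-- change of orthonormal basis -/
theorem Ds_zero_change (hφ : IsVal φ) (xs ys : List V) (hx : xs.length = Module.finrank ℝ V)
    (hy : ys.length = Module.finrank ℝ V)
    (hox : Orthonormal ℝ (fun i : Fin xs.length => xs.get i))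
    (hoy : Orthonormal ℝ (fun i : Fin ys.length => ys.get i)) (K : ConvexBody V)
    (h0 : Ds xs φ K = 0) : Ds ys φ K = 0 := by
  have hl : ys.length = xs.length := hy.trans hx.symm
  set y : Fin xs.length → V := fun i => ys.get (Fin.cast hl.symm i) with hydef
  have hys : ys = List.ofFn y := by
    rw [hydef]
    apply List.ext_get
    · simp [hl]
    · intro k h1 h2
      simp
  have hb : ⊤ ≤ Submodule.span ℝ (Set.range (fun i : Fin xs.length => xs.get i)) := by
    rw [top_le_iff]
    apply LinearIndependent.span_eq_top_of_card_eq_finrank' hox.linearIndependent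
    rw [Fintype.card_fin, hx]
  set b := OrthonormalBasis.mk hox hb with hb'
  have hbi : ∀ i, b i = xs.get i := by intro i; simp [hb']
  set M : Matrix (Fin xs.length) (Fin xs.length) ℝ := fun i j => ⟪b j, y i⟫_ℝ with hM
  have hyM : y = fun i => ∑ j, M i j • xs.get j := by
    ext i
    conv_lhs => rw [← b.sum_repr' (y i)]
    simp only [hbi, hM]
  have hoy' : Orthonormal ℝ y := hoy.comp _ (Fin.cast_injective _)
  have hMM : M * M.transpose = 1 := by
    ext i k
    rw [Matrix.mul_apply]
    have h1 : ∀ j, M i j * M.transpose j k = ⟪y i, b j⟫_ℝ * ⟪b j, y k⟫_ℝ := by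
      intro j
      show ⟪b j, y i⟫_ℝ * ⟪b j, y k⟫_ℝ = _
      rw [real_inner_comm (y i) (b j)]
    rw [Finset.sum_congr rfl fun j _ => h1 j, b.sum_inner_mul_inner (y i) (y k)]
    rw [orthonormal_iff_ite] at hoy'
    rw [hoy' i k, Matrix.one_apply]
  have hdet : M.det ≠ 0 := by
    intro h
    have := congrArg Matrix.det hMM
    rw [Matrix.det_mul, h, zero_mul, Matrix.det_one] at this
    exact zero_ne_one this
  have h1 := Ds_ofFn_matrix hφ M hdet (fun j => xs.get j) K
  rw [hys, hyM, h1]
  have h2 : List.ofFn (fun j => xs.get j) = xs := List.ofFn_get xs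
  rw [h2, h0, mul_zero]

theorem Ds_sub_mul (ψ : ConvexBody V → ℝ) (c : ℝ) : ∀ (xs : List V) (K : ConvexBody V),
    Ds xs (fun L => φ L - c * ψ L) K = Ds xs φ K - c * Ds xs ψ K := by
  intro xs
  induction xs with
  | nil => intro K; rfl
  | cons x xs ih =>
    intro K
    rw [Ds_cons, Ds_cons, Ds_cons]
    unfold D
    rw [ih, ih]
    ring

theorem vol_orthonormal_cons {e : V} {ys : List V} (he : ‖e‖ = 1) (hey : ∀ y ∈ ys, ⟪e, y⟫_ℝ = 0)
    (ho : Orthonormal ℝ (fun i : Fin ys.length => ys.get i)) :
    Orthonormal ℝ (fun i : Fin (e :: ys).length => (e :: ys).get i) := by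
  constructor
  · intro i
    refine Fin.cases (motive := fun i : Fin (ys.length + 1) => ‖(e :: ys).get i‖ = 1) ?_ ?_ i
    · exact he
    · intro k; exact ho.1 k
  · intro i j hij
    revert hij
    refine Fin.cases (motive := fun i : Fin (ys.length + 1) => i ≠ j →
      ⟪(e :: ys).get i, (e :: ys).get j⟫_ℝ = 0) ?_ ?_ i
    · refine Fin.cases (motive := fun j : Fin (ys.length + 1) => (0 : Fin (ys.length + 1)) ≠ j →
        ⟪(e :: ys).get 0, (e :: ys).get j⟫_ℝ = 0) ?_ ?_ j
      · intro h; exact absurd rfl h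
      · intro k _
        exact hey _ (List.get_mem _ _)
    · intro k
      refine Fin.cases (motive := fun j : Fin (ys.length + 1) => (Fin.succ k) ≠ j →
        ⟪(e :: ys).get (Fin.succ k), (e :: ys).get j⟫_ℝ = 0) ?_ ?_ j
      · intro _
        show ⟪ys.get k, e⟫_ℝ = 0
        rw [real_inner_comm]
        exact hey _ (List.get_mem _ _)
      · intro l hkl
        exact ho.2 (fun h => hkl (congrArg Fin.succ (Fin.ext (Fin.mk.inj h))))

/-- the orthogonal complement of `n - 1` orthonormal vectors is a line -/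
theorem eq_smul_of_perp {e : V} {ys : List V} (hl : ys.length + 1 = Module.finrank ℝ V)
    (he : ‖e‖ = 1) (hey : ∀ y ∈ ys, ⟪e, y⟫_ℝ = 0)
    (ho : Orthonormal ℝ (fun i : Fin ys.length => ys.get i)) {v : V}
    (hv : ∀ y ∈ ys, ⟪v, y⟫_ℝ = 0) : v = ⟪e, v⟫_ℝ • e := by
  have ho' := vol_orthonormal_cons he hey ho
  have hb : ⊤ ≤ Submodule.span ℝ (Set.range (fun i : Fin (e :: ys).length => (e :: ys).get i)) := by
    rw [top_le_iff]
    apply LinearIndependent.span_eq_top_of_card_eq_finrank' ho'.linearIndependent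
    rw [Fintype.card_fin, List.length_cons, hl]
  set b := OrthonormalBasis.mk ho' hb with hb'
  have hbi : ∀ i, b i = (e :: ys).get i := by intro i; simp [hb']
  conv_lhs => rw [← b.sum_repr' v]
  simp only [hbi]
  show ∑ i : Fin (ys.length + 1), _ = _
  rw [Fin.sum_univ_succ]
  have h1 : ∑ i : Fin ys.length, ⟪(e :: ys).get (Fin.succ i), v⟫_ℝ • (e :: ys).get (Fin.succ i)
      = 0 := by
    apply Finset.sum_eq_zero
    intro i _
    have : ⟪(e :: ys).get (Fin.succ i), v⟫_ℝ = 0 := by
      rw [real_inner_comm]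
      exact hv _ (List.get_mem _ _)
    rw [this, zero_smul]
  rw [h1, add_zero]
  rfl

theorem exists_perp {ys : List V} (hl : ys.length < Module.finrank ℝ V) :
    ∃ e : V, ‖e‖ = 1 ∧ ∀ y ∈ ys, ⟪e, y⟫_ℝ = 0 := by
  set S := Submodule.span ℝ {y | y ∈ ys} with hS
  have h1 : Module.finrank ℝ S ≤ ys.length := by
    have h2 : {y | y ∈ ys} = Set.range (fun i : Fin ys.length => ys.get i) := by
      ext y
      simp only [Set.mem_ofPred_eq, Set.mem_range]
      exact List.mem_iff_get
    rw [hS, h2]
    refine (finrank_range_le_card (R := ℝ) (fun i : Fin ys.length => ys.get i)).trans ?_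
    simp
  have h3 := Submodule.finrank_add_finrank_orthogonal S
  have h4 : 0 < Module.finrank ℝ Sᗮ := by omega
  obtain ⟨w, hw⟩ := Module.finrank_pos_iff_exists_ne_zero.1 h4
  have hw' : (w : V) ≠ 0 := by simpa using hw
  refine ⟨‖(w : V)‖⁻¹ • (w : V), by simp [norm_smul, hw'], ?_⟩
  intro y hy
  rw [real_inner_smul_left]
  have h5 : ⟪(w : V), y⟫_ℝ = 0 := by
    rw [real_inner_comm]
    exact (Submodule.mem_orthogonal S (w : V)).1 w.2 y (Submodule.subset_span hy)
  rw [h5, mul_zero]

/-- top degree: a single number -/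
theorem top_unique (hφ : IsVal φ) (hj : IsHom (Module.finrank ℝ V) φ)
    (xs : List V) (hl : xs.length = Module.finrank ℝ V)
    (ho : Orthonormal ℝ (fun i : Fin xs.length => xs.get i)) (K : ConvexBody V) :
    φ K = Ds xs φ 0 * vol K := by
  set c := Ds xs φ 0 with hc
  have hψ : IsVal (fun K => φ K - c * vol K) := hφ.sub (isVal_vol.const_mul c)
  have hψj : IsHom (Module.finrank ℝ V) (fun K => φ K - c * vol K) := by
    intro a L ha
    simp only
    rw [hj a L ha, vol_hom a L ha]; ring
  have h0 : Ds xs (fun K => φ K - c * vol K) 0 = 0 := by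
    rw [Ds_sub_mul, Ds_vol_top xs hl ho, ← hc]; ring
  rcases Nat.eq_zero_or_pos (Module.finrank ℝ V) with hn | hn
  · have hxs : xs = [] := List.eq_nil_of_length_eq_zero (hl.trans hn)
    subst hxs
    have hK : K = 0 := by
      have : Subsingleton V := Module.finrank_zero_iff.1 hn
      apply hs_ext
      intro v
      rw [Subsingleton.elim v 0]
      simp
    subst hK
    rw [Ds_nil] at h0 hc
    have h1 := Ds_vol_top (V := V) [] hl ho
    rw [Ds_nil] at h1
    rw [h1, mul_one, hc]
  · obtain ⟨j, hj'⟩ : ∃ j, Module.finrank ℝ V = j + 1 := ⟨Module.finrank ℝ V - 1, by omega⟩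
    have key : (fun K => φ K - c * vol K) K = 0 := by
      apply zero_of_Ds hψ (j := j) (by rw [← hj']; exact hψj)
      intro ys hys hoy L
      obtain ⟨e, he, hey⟩ := exists_perp (V := V) (ys := ys) (by omega)
      have hcons : (e :: ys).length = Module.finrank ℝ V := by
        rw [List.length_cons, hys, hj']
      have h1 := Ds_zero_change hψ xs (e :: ys) hl hcons ho (vol_orthonormal_cons he hey hoy) 0 h0
      rw [Ds_cons] at h1
      have hA : IsVal (Ds ys (fun K => φ K - c * vol K)) := isVal_Ds hψ ys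
      have hA1 : IsHom 1 (Ds ys (fun K => φ K - c * vol K)) := by
        apply Ds_hom hψ ys
        rw [hys, add_comm, ← hj']
        exact hψj
      have h2 : Ds ys (fun K => φ K - c * vol K) L =
          Ds ys (fun K => φ K - c * vol K)
            (0 + seg ((hs L e + hs L (-e)) • e) + pt (-(hs L (-e)) • e)) := by
        apply Ds_congr hψ
        intro v hv
        have hve := eq_smul_of_perp (by omega) he hey hoy hv
        have hee : ⟪e, e⟫_ℝ = 1 := by rw [real_inner_self_eq_norm_sq, he]; norm_num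
        rw [hs_add, hs_add, hs_zero, hs_seg, hs_pt, zero_add]
        set t := ⟪e, v⟫_ℝ with ht
        rw [hve, real_inner_smul_left, real_inner_smul_left, real_inner_smul_right,
          real_inner_smul_right, hee]
        have hw : 0 ≤ hs L e + hs L (-e) := by
          have := neg_hs_le L e
          linarith
        rcases le_total 0 t with h | h
        · rw [hs_smul_right L h, max_eq_right (by positivity)]
          ring
        · have h3 : t • e = (-t) • (-e) := by simp
          rw [h3, hs_smul_right L (by linarith), max_eq_left]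
          · ring
          · have := mul_nonneg (neg_nonneg.2 h) hw
            linarith
      have hw : 0 ≤ hs L e + hs L (-e) := by
        have := neg_hs_le L e
        linarith
      rw [h2, hA.trans, add_seg_smul hA e hw 0, h1, mul_zero, add_zero]
      exact IsHom.zero_body hA1
    simp only at key
    linarith

/-! #### restriction to subspaces -/

theorem orthonormal_iff_pairwise {W : Type*} [NormedAddCommGroup W] [InnerProductSpace ℝ W]
    {l : List W} : Orthonormal ℝ (fun i : Fin l.length => l.get i) ↔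
      (∀ x ∈ l, ‖x‖ = 1) ∧ l.Pairwise (fun x y => ⟪x, y⟫_ℝ = 0) := by
  constructor
  · intro h
    refine ⟨?_, ?_⟩
    · intro x hx
      obtain ⟨i, rfl⟩ := List.mem_iff_get.1 hx
      exact h.1 i
    · rw [List.pairwise_iff_get]
      intro i j hij
      exact h.2 hij.ne
  · rintro ⟨h1, h2⟩
    rw [List.pairwise_iff_get] at h2
    refine ⟨fun i => h1 _ (List.get_mem _ _), ?_⟩
    intro i j hij
    rcases lt_or_gt_of_ne hij with h | h
    · exact h2 i j h
    · rw [real_inner_comm]
      exact h2 j i h

theorem length_add_finrank (xs : List V) (ho : Orthonormal ℝ (fun i : Fin xs.length => xs.get i))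
    (E : Submodule ℝ V) (hE : E = (Submodule.span ℝ {x | x ∈ xs})ᗮ) :
    xs.length + Module.finrank ℝ E = Module.finrank ℝ V := by
  have h2 : {y | y ∈ xs} = Set.range (fun i : Fin xs.length => xs.get i) := by
    ext y
    simp only [Set.mem_ofPred_eq, Set.mem_range]
    exact List.mem_iff_get
  have h3 := Submodule.finrank_add_finrank_orthogonal (Submodule.span ℝ {x | x ∈ xs})
  have h4 : Module.finrank ℝ (Submodule.span ℝ {x | x ∈ xs}) = xs.length := by
    rw [h2, finrank_span_eq_card ho.linearIndependent, Fintype.card_fin]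
  rw [hE]
  omega

/-- restriction to the orthogonal complement of an orthonormal tuple -/
theorem Ds_vol_sub (xs : List V) (ho : Orthonormal ℝ (fun i : Fin xs.length => xs.get i))
    (E : Submodule ℝ V) (hE : E = (Submodule.span ℝ {x | x ∈ xs})ᗮ) (K : ConvexBody E) :
    Ds xs (vol : ConvexBody V → ℝ) (mapB E.subtypeL K) = vol K := by
  have hn := length_add_finrank xs ho E hE
  have hψ : IsVal (fun K : ConvexBody E => Ds xs (vol : ConvexBody V → ℝ) (mapB E.subtypeL K)) :=
    (isVal_Ds isVal_vol xs).pull E.subtypeL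
  have hψj : IsHom (Module.finrank ℝ E)
      (fun K : ConvexBody E => Ds xs (vol : ConvexBody V → ℝ) (mapB E.subtypeL K)) := by
    intro c L hc
    simp only
    rw [mapB_smul]
    apply Ds_hom isVal_vol xs (j := Module.finrank ℝ E) _ c _ hc
    rw [add_comm, hn]
    exact vol_hom
  set b := stdOrthonormalBasis ℝ E with hb
  set ys : List E := List.ofFn b with hys
  have hyl : ys.length = Module.finrank ℝ E := by rw [hys, List.length_ofFn]
  have hyo : Orthonormal ℝ (fun i : Fin ys.length => ys.get i) := by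
    rw [orthonormal_iff_pairwise]
    refine ⟨?_, ?_⟩
    · intro x hx
      rw [hys, List.mem_ofFn] at hx
      obtain ⟨i, rfl⟩ := hx
      exact b.orthonormal.1 i
    · rw [hys, List.pairwise_ofFn]
      intro i j hij
      exact b.orthonormal.2 hij.ne
  rw [top_unique hψ hψj ys hyl hyo K, Ds_pull E.subtypeL ys (Ds xs (vol : ConvexBody V → ℝ)) 0,
    mapB_zero, ← Ds_append, Ds_vol_top, one_mul]
  · rw [List.length_append, List.length_map, hyl]
    omega
  · rw [orthonormal_iff_pairwise] at hyo ho ⊢
    refine ⟨?_, ?_⟩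
    · intro x hx
      rcases List.mem_append.1 hx with h | h
      · obtain ⟨y, hy, rfl⟩ := List.mem_map.1 h
        exact hyo.1 y hy
      · exact ho.1 x h
    · rw [List.pairwise_append]
      refine ⟨?_, ho.2, ?_⟩
      · rw [List.pairwise_map]
        exact hyo.2
      · intro a ha x hx
        obtain ⟨y, hy, rfl⟩ := List.mem_map.1 ha
        have h1 : (y : V) ∈ (Submodule.span ℝ {x | x ∈ xs})ᗮ := hE ▸ y.2
        have := (Submodule.mem_orthogonal _ _).1 h1 x (Submodule.subset_span hx)
        rw [real_inner_comm] at this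
        exact this

/-! #### monotonicity -/

theorem D_mono (hφ : IsVal φ) (hm : ∀ K L : ConvexBody V, K ≤ L → φ K ≤ φ L) (x : V)
    {K L : ConvexBody V} (h : K ≤ L) : D x φ K ≤ D x φ L := by
  by_contra hlt
  rw [not_le] at hlt
  have h1 : ∀ c : ℝ, 0 ≤ c → φ K + c * D x φ K ≤ φ L + c * D x φ L := by
    intro c hc
    rw [← add_seg_smul hφ x hc, ← add_seg_smul hφ x hc]
    apply hm
    rw [le_iff_hs]
    intro v
    rw [hs_add, hs_add]
    have := hs_mono h v
    linarith
  have h2 := h1 ((φ L - φ K + 1) / (D x φ K - D x φ L))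
    (div_nonneg (by have := hm _ _ h; linarith) (by linarith))
  have h3 : (φ L - φ K + 1) / (D x φ K - D x φ L) * (D x φ K - D x φ L) = φ L - φ K + 1 := by
    field_simp [sub_ne_zero.2 hlt.ne']
  nlinarith

theorem dist_seg_zero (x : V) : dist (seg x) 0 ≤ ‖x‖ := by
  apply dist_zero_le
  intro y hy
  obtain ⟨t, h0, h1, rfl⟩ := vol_mem_seg.1 hy
  rw [norm_smul, Real.norm_of_nonneg h0]
  exact mul_le_of_le_one_left (norm_nonneg _) h1

theorem integrable_D (hφ : IsVal φ) (T : V →L[ℝ] V) (K : ConvexBody V) :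
    Integrable (fun g => D (T g) φ K) (stdGaussian V) := by
  have hA := der_isAdd hφ K
  obtain ⟨C, hC0, hC⟩ := hA.bound
  have hcont : Continuous (fun g : V => D (T g) φ K) := by
    unfold D
    exact (hφ.cont.comp (continuous_const.add (continuous_seg.comp T.continuous))).sub
      continuous_const
  have h1 : Integrable (fun g : V => C * (‖T‖ * ‖g‖)) (stdGaussian V) := by
    have := gauss_norm_int (V := V) 1 zero_le_one
    simp only [Real.rpow_one] at this
    exact (this.const_mul _).const_mul _
  refine h1.mono' hcont.aestronglyMeasurable (Filter.Eventually.of_forall fun g => ?_)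
  rw [Real.norm_eq_abs, ← der_seg hφ]
  refine (hC _).trans ?_
  apply mul_le_mul_of_nonneg_left _ hC0
  exact (dist_seg_zero _).trans (T.le_opNorm g)

/-- zonoid derivatives preserve monotonicity -/
theorem der_zonoid_mono (hφ : IsVal φ) (hm : ∀ K L : ConvexBody V, K ≤ L → φ K ≤ φ L)
    (T : V →L[ℝ] V) (Z : ConvexBody V) (hZ : ∀ v, hs Z v = ‖ContinuousLinearMap.adjoint T v‖)
    {K L : ConvexBody V} (h : K ≤ L) : der Z φ K ≤ der Z φ L := by
  rw [disc_mint (der_isAdd hφ K) T Z hZ, disc_mint (der_isAdd hφ L) T Z hZ]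
  apply mul_le_mul_of_nonneg_left _ (Real.sqrt_nonneg _)
  simp only [der_seg hφ]
  apply integral_mono (integrable_D hφ T K) (integrable_D hφ T L)
  intro g
  exact D_mono hφ hm (T g) h

/-! #### intrinsic volumes -/

/-- intrinsic volumes up to normalization: `Vj j` has degree `j` -/
noncomputable def Vj (j : ℕ) : ConvexBody V → ℝ :=
  (der (ballB V))^[Module.finrank ℝ V - j] vol

theorem isVal_iter (hφ : IsVal φ) (B : ConvexBody V) (k : ℕ) : IsVal ((der B)^[k] φ) := by
  induction k with
  | zero => exact hφ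
  | succ k ih =>
    rw [Function.iterate_succ_apply']
    exact isVal_der ih B

theorem iter_hom {j : ℕ} (B : ConvexBody V) : ∀ (k : ℕ) {φ : ConvexBody V → ℝ}, IsVal φ →
    IsHom (j + k) φ → IsHom j ((der B)^[k] φ) := by
  intro k
  induction k with
  | zero => intro φ _ h; exact h
  | succ k ih =>
    intro φ hφ h
    rw [Function.iterate_succ_apply]
    exact ih (isVal_der hφ B) (der_hom hφ (by rw [← add_assoc] at h; exact h) B)

theorem der_iso {B : ConvexBody V} {g : V ≃ₗᵢ[ℝ] V} (hB : isoB g B = B)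
    (h : ∀ K, φ (isoB g K) = φ K) (K : ConvexBody V) : der B φ (isoB g K) = der B φ K := by
  unfold der cof
  apply Finset.sum_congr rfl
  intro k _
  have h1 : isoB g K + (k : ℝ) • B = isoB g (K + (k : ℝ) • B) := by
    rw [isoB_add, isoB_smul, hB]
  rw [h1, h]

theorem isoB_ball (g : V ≃ₗᵢ[ℝ] V) : isoB g (ballB V) = ballB V := by
  apply hs_ext
  intro v
  rw [hs_isoB, hs_ballB, hs_ballB, LinearIsometryEquiv.norm_map]

theorem iter_iso {B : ConvexBody V} {g : V ≃ₗᵢ[ℝ] V} (hB : isoB g B = B) (k : ℕ)
    (h : ∀ K, φ (isoB g K) = φ K) (K : ConvexBody V) :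
    (der B)^[k] φ (isoB g K) = (der B)^[k] φ K := by
  induction k generalizing K with
  | zero => exact h K
  | succ k ih =>
    rw [Function.iterate_succ_apply']
    exact der_iso hB ih K

theorem iter_mono (k : ℕ) (hφ : IsVal φ) (hm : ∀ K L : ConvexBody V, K ≤ L → φ K ≤ φ L)
    (K L : ConvexBody V) (h : K ≤ L) :
    (der (ballB V))^[k] φ K ≤ (der (ballB V))^[k] φ L := by
  induction k generalizing K L with
  | zero => exact hm K L h
  | succ k ih =>
    rw [Function.iterate_succ_apply']
    apply der_zonoid_mono (isVal_iter hφ _ k) ih (ContinuousLinearMap.id ℝ V) (ballB V) _ h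
    intro v
    rw [hs_ballB, ContinuousLinearMap.adjoint_id]
    rfl

theorem iter_pos (B : ConvexBody V) {j : ℕ} : ∀ (k : ℕ) {φ : ConvexBody V → ℝ}, IsVal φ →
    IsHom (j + k) φ → 0 < φ B → 0 < (der B)^[k] φ B := by
  intro k
  induction k with
  | zero => intro φ _ _ h; exact h
  | succ k ih =>
    intro φ hφ hj h
    rw [Function.iterate_succ_apply]
    apply ih (isVal_der hφ B) (der_hom hφ (by rw [← add_assoc] at hj; exact hj) B)
    rw [der_self hφ hj B]
    apply mul_pos _ h
    positivity

theorem isVal_Vj (j : ℕ) : IsVal (Vj j : ConvexBody V → ℝ) := isVal_iter isVal_vol _ _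

theorem Vj_hom {j : ℕ} (hj : j ≤ Module.finrank ℝ V) :
    IsHom j (Vj j : ConvexBody V → ℝ) := by
  apply iter_hom _ _ isVal_vol
  rw [Nat.add_sub_cancel' hj]
  exact vol_hom

theorem Vj_iso (j : ℕ) (g : V ≃ₗᵢ[ℝ] V) (K : ConvexBody V) : Vj j (isoB g K) = Vj j K :=
  iter_iso (isoB_ball g) _ (vol_iso g) K

theorem Vj_mono (j : ℕ) {K L : ConvexBody V} (h : K ≤ L) : Vj j K ≤ Vj j L :=
  iter_mono _ isVal_vol (fun _ _ h => vol_mono h) K L h

theorem vol_ball_pos : 0 < vol (ballB V) := by
  apply vol_pos
  refine ⟨0, ?_⟩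
  have : Metric.ball (0 : V) 1 ⊆ interior ((ballB V : ConvexBody V) : Set V) :=
    interior_maximal Metric.ball_subset_closedBall Metric.isOpen_ball
  exact this (Metric.mem_ball_self one_pos)

theorem Vj_pos (j : ℕ) {K : ConvexBody V} (h : (interior (K : Set V)).Nonempty) :
    0 < Vj j K := by
  rcases le_or_gt j (Module.finrank ℝ V) with hj | hj
  · obtain ⟨x, ρ, hρ, hx⟩ := exists_ball_le h
    refine lt_of_lt_of_le ?_ (Vj_mono j hx)
    rw [add_comm, (isVal_Vj j).trans, Vj_hom hj ρ _ hρ.le]
    apply mul_pos (pow_pos hρ _)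
    apply iter_pos _ _ isVal_vol _ vol_ball_pos (j := j)
    rw [Nat.add_sub_cancel' hj]
    exact vol_hom
  · unfold Vj
    rw [Nat.sub_eq_zero_of_le hj.le]
    exact vol_pos h

theorem Ds_iter (B : ConvexBody V) (xs : List V) (k : ℕ) (φ : ConvexBody V → ℝ) :
    Ds xs ((der B)^[k] φ) = (der B)^[k] (Ds xs φ) := by
  induction k with
  | zero => rfl
  | succ k ih =>
    rw [Function.iterate_succ_apply', Function.iterate_succ_apply', ← ih]
    clear ih
    induction xs with
    | nil => rfl
    | cons x xs ih2 => rw [Ds_cons, Ds_cons, ih2, D_der]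

theorem Ds_vol_ball_pos (xs : List V) (ho : Orthonormal ℝ (fun i : Fin xs.length => xs.get i)) :
    0 < Ds xs (vol : ConvexBody V → ℝ) (ballB V) := by
  set E : Submodule ℝ V := (Submodule.span ℝ {x | x ∈ xs})ᗮ with hE
  have h1 : Ds xs (vol : ConvexBody V → ℝ) (ballB V) =
      Ds xs (vol : ConvexBody V → ℝ) (mapB E.subtypeL (ballB E)) := by
    apply Ds_congr isVal_vol
    intro v hv
    rw [hs_mapB, hs_ballB, hs_ballB, Submodule.adjoint_subtypeL]
    have hvE : v ∈ E := by
      rw [hE, Submodule.mem_orthogonal]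
      intro u hu
      have h2 : Submodule.span ℝ {x | x ∈ xs} ≤ (Submodule.span ℝ {v})ᗮ := by
        rw [Submodule.span_le]
        intro x hx
        rw [SetLike.mem_coe, Submodule.mem_orthogonal_singleton_iff_inner_right]
        exact hv x hx
      have h3 := h2 hu
      rw [Submodule.mem_orthogonal_singleton_iff_inner_left] at h3
      exact h3
    have h5 : ‖E.orthogonalProjectionOnto v‖ = ‖((E.orthogonalProjectionOnto v : E) : V)‖ := rfl
    rw [h5, Submodule.coe_orthogonalProjectionOnto_apply,
      Submodule.starProjection_eq_self_iff.2 hvE]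
  rw [h1, Ds_vol_sub xs ho E hE]
  exact vol_ball_pos

/-- positivity on cubes -/
theorem Ds_Vj_pos {j : ℕ} (xs : List V) (hl : xs.length = j)
    (ho : Orthonormal ℝ (fun i : Fin xs.length => xs.get i)) :
    0 < Ds xs (Vj j : ConvexBody V → ℝ) 0 := by
  have hjn : j ≤ Module.finrank ℝ V := by
    rw [← hl]
    have := ho.linearIndependent.fintype_card_le_finrank
    simpa using this
  unfold Vj
  rw [Ds_iter]
  have hχ : IsVal (Ds xs (vol : ConvexBody V → ℝ)) := isVal_Ds isVal_vol xs
  have hχj : IsHom (0 + (Module.finrank ℝ V - j)) (Ds xs (vol : ConvexBody V → ℝ)) := by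
    rw [zero_add]
    apply Ds_hom isVal_vol xs
    rw [hl, Nat.sub_add_cancel hjn]
    exact vol_hom
  rw [← IsHom.deg_zero (isVal_iter hχ _ _) (iter_hom _ _ hχ hχj) (ballB V)]
  exact iter_pos _ _ hχ hχj (Ds_vol_ball_pos xs ho)

/-! projection body -/

theorem sublin_PiB (K : ConvexBody V) : Sublin (fun x => D x (vol : ConvexBody V → ℝ) K) := by
  have hφ : IsVal (vol : ConvexBody V → ℝ) := isVal_vol
  constructor
  · intro c v hc
    rw [D_smul hφ, abs_of_nonneg hc]
  · intro x y
    set a := D (x + y) (vol : ConvexBody V → ℝ) K with ha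
    set b := D x (vol : ConvexBody V → ℝ) K + D y (vol : ConvexBody V → ℝ) K with hb
    set c := D x (D y (vol : ConvexBody V → ℝ)) K with hc
    have key : ∀ ε : ℝ, 0 < ε → a ≤ b + ε * c := by
      intro ε hε
      have h1 := add_seg_smul hφ (x + y) hε.le K
      have h2 := add_seg_smul hφ x hε.le K
      have h3 := add_seg_smul hφ y hε.le (K + seg (ε • x))
      have h4 := add_seg_smul (isVal_D hφ y) x hε.le K
      rw [h4, h2] at h3
      have h5 : vol (K + seg (ε • (x + y))) ≤ vol (K + seg (ε • x) + seg (ε • y)) := by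
        apply vol_mono
        rw [le_iff_hs]
        intro v
        rw [hs_add, hs_add, hs_add, hs_seg, hs_seg, hs_seg, smul_add, inner_add_right]
        have h6 : max 0 (⟪v, ε • x⟫_ℝ + ⟪v, ε • y⟫_ℝ) ≤
            max 0 ⟪v, ε • x⟫_ℝ + max 0 ⟪v, ε • y⟫_ℝ := by
          apply max_le
          · positivity
          · exact add_le_add (le_max_right _ _) (le_max_right _ _)
        linarith
      rw [h1, h3] at h5
      have h7 : ε * a ≤ ε * (b + ε * c) := by
        rw [ha, hb, hc]
        linarith
      exact le_of_mul_le_mul_left h7 hε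
    have h8 : Tendsto (fun ε : ℝ => b + ε * c) (𝓝[>] 0) (𝓝 (b + 0 * c)) := by
      apply Tendsto.mono_left _ nhdsWithin_le_nhds
      have : Continuous (fun ε : ℝ => b + ε * c) := by fun_prop
      exact this.tendsto 0
    have h9 := ge_of_tendsto h8 (by
      filter_upwards [self_mem_nhdsWithin] with ε hε
      exact key ε hε)
    linarith

/-- projection body -/
noncomputable def PiB (K : ConvexBody V) : ConvexBody V :=
  body (fun x => D x (vol : ConvexBody V → ℝ) K) (sublin_PiB K)

theorem hs_PiB (K : ConvexBody V) (x : V) : hs (PiB K) x = D x (vol : ConvexBody V → ℝ) K :=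
  hs_body _ _ _

theorem continuous_D_joint (hφ : Continuous φ) :
    Continuous (fun p : ConvexBody V × V => D p.2 φ p.1) := by
  unfold D
  exact (hφ.comp (continuous_fst.add (continuous_seg.comp continuous_snd))).sub
    (hφ.comp continuous_fst)

/-- a family of bodies is continuous when the support function is jointly continuous -/
theorem continuous_of_hs {X : Type*} [TopologicalSpace X] (Φ : X → ConvexBody V)
    (h : Continuous (fun p : X × V => hs (Φ p.1) p.2)) : Continuous Φ := by
  rw [continuous_iff_continuousAt]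
  intro K
  rw [Metric.continuousAt_iff']
  intro ε hε
  have h1 : ∀ v ∈ Metric.sphere (0 : V) 1, ∀ᶠ z : X × V in 𝓝 (K, v),
      |hs (Φ z.1) z.2 - hs (Φ K) z.2| < ε / 2 := by
    intro v _
    have hc : Continuous (fun z : X × V => |hs (Φ z.1) z.2 - hs (Φ K) z.2|) :=
      (h.sub ((continuous_hs_right (Φ K)).comp continuous_snd)).abs
    have h2 := hc.tendsto (K, v)
    simp only [sub_self, abs_zero] at h2
    exact h2.eventually_lt_const (by positivity)
  have h3 := (isCompact_sphere (0 : V) 1).eventually_forall_of_forall_eventually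
    (P := fun L v => |hs (Φ L) v - hs (Φ K) v| < ε / 2) h1
  filter_upwards [h3] with L hL
  refine lt_of_le_of_lt (dist_le_of_hs (r := ε / 2) (by positivity) ?_) (by linarith)
  intro v
  rcases eq_or_ne v 0 with rfl | hv
  · simp
  · have hn : ‖v‖ ≠ 0 := norm_ne_zero_iff.2 hv
    have h4 := hL (‖v‖⁻¹ • v) (by simp [norm_smul, hn])
    rw [hs_smul_right _ (by positivity), hs_smul_right _ (by positivity), ← mul_sub, abs_mul,
      abs_of_nonneg (by positivity : (0 : ℝ) ≤ ‖v‖⁻¹)] at h4
    have h5 : |hs (Φ L) v - hs (Φ K) v| = ‖v‖ * (‖v‖⁻¹ * |hs (Φ L) v - hs (Φ K) v|) := by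
      field_simp
    rw [h5, mul_comm]
    exact mul_le_mul_of_nonneg_right h4.le (norm_nonneg _)

theorem D_vol_iso (g : V ≃ₗᵢ[ℝ] V) (x : V) (K : ConvexBody V) :
    D x (vol : ConvexBody V → ℝ) (isoB g K) = D (g.symm x) (vol : ConvexBody V → ℝ) K := by
  have h := D_iso g (g.symm x) (vol : ConvexBody V → ℝ) K
  rw [g.apply_symm_apply] at h
  rw [← h]
  show vol (isoB g (K + seg (g.symm x))) - vol (isoB g K) = vol (K + seg (g.symm x)) - vol K
  rw [vol_iso, vol_iso]

theorem isMVal_PiB : IsMVal (PiB : ConvexBody V → ConvexBody V) where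
  cont := by
    apply continuous_of_hs
    simp only [hs_PiB]
    exact continuous_D_joint continuous_vol
  val := by
    intro K L M N hM hN
    apply hs_ext
    intro v
    rw [hs_add, hs_add, hs_PiB, hs_PiB, hs_PiB, hs_PiB]
    exact (isVal_D isVal_vol v).val K L M N hM hN
  trans := by
    intro K x
    apply hs_ext
    intro v
    rw [hs_PiB, hs_PiB]
    exact (isVal_D isVal_vol v).trans K x
  equi := by
    intro g _ K
    apply hs_ext
    intro v
    rw [hs_isoB, hs_PiB, hs_PiB]
    exact D_vol_iso g v K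

theorem PiB_hom {c : ℝ} (hc : 0 ≤ c) (K : ConvexBody V) :
    PiB (c • K) = c ^ (Module.finrank ℝ V - 1) • PiB K := by
  apply hs_ext
  intro v
  rw [hs_smul (pow_nonneg hc _), hs_PiB, hs_PiB]
  rcases Nat.eq_zero_or_pos (Module.finrank ℝ V) with hn | hn
  · have : Subsingleton V := Module.finrank_zero_iff.1 hn
    rw [Subsingleton.elim v 0, D_zero isVal_vol, D_zero isVal_vol, mul_zero]
  · apply D_hom isVal_vol (j := Module.finrank ℝ V - 1) _ v c K hc
    rw [Nat.sub_add_cancel hn]
    exact vol_hom

theorem Ds_fun_eq {F G : ConvexBody V → ℝ} (h : ∀ K, F K = G K) (xs : List V) (K : ConvexBody V) :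
    Ds xs F K = Ds xs G K := by
  have : F = G := funext h
  rw [this]

theorem Ds_PiB (u : V) (hu : ‖u‖ = 1) (xs : List V) (hl : xs.length + 1 = Module.finrank ℝ V)
    (ho : Orthonormal ℝ (fun i : Fin xs.length => xs.get i)) (hx : ∀ x ∈ xs, ⟪u, x⟫_ℝ = 0) (y : V) :
    Ds xs (fun K => hs (PiB K) y) 0 = |⟪u, y⟫_ℝ| := by
  rw [Ds_fun_eq (fun K => hs_PiB K y), ← Ds_cons', Ds_cons]
  have hA : IsVal (Ds xs (vol : ConvexBody V → ℝ)) := isVal_Ds isVal_vol xs
  have h1 : D y (Ds xs (vol : ConvexBody V → ℝ)) 0
      = D (⟪u, y⟫_ℝ • u) (Ds xs (vol : ConvexBody V → ℝ)) 0 := by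
    unfold D
    congr 1
    apply Ds_congr isVal_vol
    intro v hv
    have hvu := eq_smul_of_perp hl hu hx ho hv
    have huu : ⟪u, u⟫_ℝ = 1 := by rw [real_inner_self_eq_norm_sq, hu]; norm_num
    rw [hs_add, hs_add, hs_seg, hs_seg]
    rw [hvu, real_inner_smul_left, real_inner_smul_left, real_inner_smul_right,
      huu, mul_one]
  rw [h1, D_smul hA, ← Ds_cons, Ds_vol_top (u :: xs), mul_one]
  · rw [List.length_cons, hl]
  · exact vol_orthonormal_cons hu hx ho

/-- relation with the Hausdorff measure of projections -/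
theorem PiB_hausdorff (hn : 1 ≤ Module.finrank ℝ V) : ∃ c : ℝ, 0 < c ∧ ∀ (K : ConvexBody V) (u : V),
    ‖u‖ = 1 → hs (PiB K) u = c * (MeasureTheory.Measure.hausdorffMeasure
      ((Module.finrank ℝ V : ℝ) - 1) ((fun x => x - ⟪u, x⟫_ℝ • u) '' (K : Set V))).toReal := by
  set m := Module.finrank ℝ V - 1 with hm
  have hmr : ((Module.finrank ℝ V : ℝ) - 1) = (m : ℝ) := by
    rw [hm, Nat.cast_sub hn, Nat.cast_one]
  set κ := Measure.addHaarScalarFactor (volume : Measure (EuclideanSpace ℝ (Fin m)))
    (Measure.hausdorffMeasure (m : ℝ)) with hκ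
  have hκ0 : κ ≠ 0 := Measure.addHaarScalarFactor_volume_hausdorffMeasure_ne_zero m
  refine ⟨(κ : ℝ), by positivity, ?_⟩
  intro K u hu
  rw [hs_PiB]
  have huu : ⟪u, u⟫_ℝ = 1 := by rw [real_inner_self_eq_norm_sq, hu]; norm_num
  set E : Submodule ℝ V := (Submodule.span ℝ {x | x ∈ [u]})ᗮ with hE
  have ho : Orthonormal ℝ (fun i : Fin [u].length => [u].get i) := by
    rw [orthonormal_iff_pairwise]
    refine ⟨by simpa using hu, by simp⟩
  have hmem : ∀ v, v ∈ E ↔ ⟪u, v⟫_ℝ = 0 := by
    intro v
    have h1 : {x | x ∈ [u]} = ({u} : Set V) := by ext x; simp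
    rw [hE, h1, Submodule.mem_orthogonal_singleton_iff_inner_right]
  have hfr : Module.finrank ℝ E = m := by
    have := length_add_finrank [u] ho E hE
    simp only [List.length_cons, List.length_nil] at this
    omega
  -- the projected body
  set P : V →ₗ[ℝ] V := LinearMap.id - (LinearMap.toSpanSingleton ℝ V u).comp (innerₛₗ ℝ u) with hP
  have hPx : ∀ x, P x = x - ⟪u, x⟫_ℝ • u := by
    intro x
    simp [hP]
  have hPE : ∀ x, P x ∈ E := by
    intro x
    rw [hmem, hPx, inner_sub_right, real_inner_smul_right, huu, mul_one, sub_self]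
  set Q : V →ₗ[ℝ] E := P.codRestrict E hPE with hQ
  set L : ConvexBody E := mapB (LinearMap.toContinuousLinearMap Q) K with hL
  have hLset : (fun y : E => (y : V)) '' (L : Set E) =
      (fun x => x - ⟪u, x⟫_ℝ • u) '' (K : Set V) := by
    rw [hL, coe_mapB, Set.image_image]
    apply Set.image_congr
    intro x _
    show ((Q x : E) : V) = _
    rw [hQ, LinearMap.codRestrict_apply, hPx]
  have h1 : D u (vol : ConvexBody V → ℝ) K = vol L := by
    have h2 : D u (vol : ConvexBody V → ℝ) K
        = D u (vol : ConvexBody V → ℝ) (mapB E.subtypeL L) := by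
      apply D_congr isVal_vol
      intro v hv
      have hset : ((mapB E.subtypeL L : ConvexBody V) : Set V)
          = (fun x => x - ⟪u, x⟫_ℝ • u) '' (K : Set V) := hLset
      have hvu : ⟪v, u⟫_ℝ = 0 := hv
      unfold hs
      rw [hset, Set.image_image]
      congr 1
      apply Set.image_congr
      intro x _
      rw [inner_sub_right, real_inner_smul_right, hvu, mul_zero, sub_zero]
    have h3 := Ds_vol_sub [u] ho E hE L
    rw [Ds_cons, Ds_nil] at h3
    rw [h2, h3]
  rw [h1, hmr, ← hLset]
  unfold vol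
  have h4 := InnerProductSpace.euclideanHausdorffMeasure_eq_volume (V := E)
  rw [hfr] at h4
  rw [← h4, Measure.euclideanHausdorffMeasure_def, Measure.smul_apply,
    Isometry.hausdorffMeasure_image isometry_subtype_coe (by simp), ← hκ]
  rw [ENNReal.smul_def, smul_eq_mul, ENNReal.toReal_mul]
  rfl

end Vol
end MV
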