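import Pool.Agent.Lib.MP_f30071_gt.Simplex

/-! Uniqueness theorems for zonal, rotation invariant and rotation equivariant valuations. -/

open MeasureTheory ProbabilityTheory Filter Topology Set
open scoped InnerProductSpace Pointwise NNReal ENNReal

set_option linter.unusedSectionVars false
set_option linter.unusedVariables false

namespace MV
namespace ZonalU

section Rotations
variable {V : Type*} [NormedAddCommGroup V] [InnerProductSpace ℝ V]

/-- reflection in the hyperplane orthogonal to `w` -/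
noncomputable def refl (w : V) : V ≃ₗᵢ[ℝ] V := (Submodule.span ℝ {w})ᗮ.reflection

theorem refl_apply {w : V} (hw : ‖w‖ = 1) (v : V) : refl w v = v - (2 * ⟪w, v⟫_ℝ) • w := by
  unfold refl
  rw [Submodule.reflection_orthogonal_apply, Submodule.reflection_singleton_apply, hw]
  have h1 : (⟪w, v⟫_ℝ / ((1 : ℝ) : ℝ) ^ 2) = ⟪w, v⟫_ℝ := by norm_num
  have h2 : (2 : ℕ) • (⟪w, v⟫_ℝ / ((1 : ℝ) : ℝ) ^ 2) • w = (2 * ⟪w, v⟫_ℝ) • w := by
    rw [h1, two_smul, mul_comm, mul_two, add_smul]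
  exact (congrArg (fun z => -(z - v)) h2).trans (neg_sub _ _)

theorem refl_sub {x y : V} (h : ‖x‖ = ‖y‖) : refl (x - y) x = y := Submodule.reflection_sub h

theorem refl_fix {w x : V} (h : ⟪w, x⟫_ℝ = 0) : refl w x = x := by
  refine Submodule.reflection_mem_subspace_eq_self ?_
  rw [Submodule.mem_orthogonal_singleton_iff_inner_right]
  exact h

theorem refl_self (w : V) : refl w w = -w :=
  Submodule.reflection_orthogonalComplement_singleton_eq_neg w

theorem refl_symm (w : V) : (refl w).symm = refl w := rfl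

theorem det_refl [FiniteDimensional ℝ V] {w : V} (hw : w ≠ 0) :
    LinearMap.det ((refl w).toLinearEquiv : V →ₗ[ℝ] V) = -1 := by
  have h1 := (Submodule.span ℝ {w})ᗮ.det_reflection
  rw [Submodule.orthogonal_orthogonal, finrank_span_singleton hw, pow_one] at h1
  exact h1

theorem det_trans (g h : V ≃ₗᵢ[ℝ] V) :
    LinearMap.det ((g.trans h).toLinearEquiv : V →ₗ[ℝ] V) =
      LinearMap.det (h.toLinearEquiv : V →ₗ[ℝ] V) * LinearMap.det (g.toLinearEquiv : V →ₗ[ℝ] V) := by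
  rw [← LinearMap.det_comp]
  rfl

/-- orthonormal pair -/
structure ON2 (p q : V) : Prop where
  p1 : ‖p‖ = 1
  q1 : ‖q‖ = 1
  pq : ⟪p, q⟫_ℝ = 0

theorem ON2.pp {p q : V} (h : ON2 p q) : ⟪p, p⟫_ℝ = 1 := by
  rw [real_inner_self_eq_norm_sq, h.p1]; norm_num

theorem ON2.qq {p q : V} (h : ON2 p q) : ⟪q, q⟫_ℝ = 1 := by
  rw [real_inner_self_eq_norm_sq, h.q1]; norm_num

theorem ON2.qp {p q : V} (h : ON2 p q) : ⟪q, p⟫_ℝ = 0 := by
  rw [real_inner_comm]; exact h.pq

theorem ON2.swap {p q : V} (h : ON2 p q) : ON2 q p := ⟨h.q1, h.p1, h.qp⟩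

/-- rotation in the plane of `p`, `q` -/
noncomputable def rot (p q : V) (ψ : ℝ) : V ≃ₗᵢ[ℝ] V :=
  (refl p).trans (refl (Real.cos (ψ / 2) • p + Real.sin (ψ / 2) • q))

theorem norm_cs {p q : V} (h : ON2 p q) (t : ℝ) : ‖Real.cos t • p + Real.sin t • q‖ = 1 := by
  have h1 : ‖Real.cos t • p + Real.sin t • q‖ ^ 2 = 1 := by
    rw [← real_inner_self_eq_norm_sq, inner_add_left, inner_add_right, inner_add_right,
      real_inner_smul_left, real_inner_smul_left, real_inner_smul_left, real_inner_smul_left,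
      real_inner_smul_right, real_inner_smul_right, real_inner_smul_right, real_inner_smul_right,
      h.pp, h.qq, h.pq, h.qp]
    have h2 := Real.cos_sq_add_sin_sq t
    nlinarith [h2]
  exact (pow_eq_one_iff_of_nonneg (norm_nonneg _) two_ne_zero).1 h1

theorem rot_apply {p q : V} (h : ON2 p q) (ψ : ℝ) (v : V) :
    rot p q ψ v = v + (⟪p, v⟫_ℝ * (Real.cos ψ - 1) - ⟪q, v⟫_ℝ * Real.sin ψ) • p +
      (⟪p, v⟫_ℝ * Real.sin ψ + ⟪q, v⟫_ℝ * (Real.cos ψ - 1)) • q := by
  unfold rot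
  rw [LinearIsometryEquiv.trans_apply, refl_apply h.p1, refl_apply (norm_cs h _)]
  have hc : Real.cos ψ = 2 * Real.cos (ψ / 2) ^ 2 - 1 := by
    rw [← Real.cos_two_mul]; ring_nf
  have hs : Real.sin ψ = 2 * Real.sin (ψ / 2) * Real.cos (ψ / 2) := by
    rw [← Real.sin_two_mul]; ring_nf
  have hcs := Real.cos_sq_add_sin_sq (ψ / 2)
  have hin : ⟪Real.cos (ψ / 2) • p + Real.sin (ψ / 2) • q, v - (2 * ⟪p, v⟫_ℝ) • p⟫_ℝ =
      -(Real.cos (ψ / 2) * ⟪p, v⟫_ℝ) + Real.sin (ψ / 2) * ⟪q, v⟫_ℝ := by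
    rw [inner_add_left, inner_sub_right, inner_sub_right, real_inner_smul_left,
      real_inner_smul_left, real_inner_smul_left, real_inner_smul_left,
      real_inner_smul_right, real_inner_smul_right, h.pp, h.qp]
    ring
  rw [hin, hc, hs]
  have hs2 : Real.sin (ψ / 2) ^ 2 = 1 - Real.cos (ψ / 2) ^ 2 := by linarith
  generalize Real.cos (ψ / 2) = c at *
  generalize Real.sin (ψ / 2) = s at *
  have e : v - (2 * ⟪p, v⟫_ℝ) • p - (2 * (-(c * ⟪p, v⟫_ℝ) + s * ⟪q, v⟫_ℝ)) • (c • p + s • q) =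
      v + (-(2 * ⟪p, v⟫_ℝ) + 2 * c ^ 2 * ⟪p, v⟫_ℝ - 2 * c * s * ⟪q, v⟫_ℝ) • p +
      (2 * c * s * ⟪p, v⟫_ℝ - 2 * s ^ 2 * ⟪q, v⟫_ℝ) • q := by module
  rw [e, hs2]
  module

theorem rot_Rot [FiniteDimensional ℝ V] {p q : V} (h : ON2 p q) (ψ : ℝ) : Rot (rot p q ψ) := by
  unfold Rot rot
  rw [det_trans, det_refl, det_refl]
  · norm_num
  · intro h0
    have := h.p1
    rw [h0, norm_zero] at this
    norm_num at this
  · intro h0
    have := norm_cs h (ψ / 2)
    rw [h0, norm_zero] at this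
    norm_num at this

theorem rot_fix {p q : V} (h : ON2 p q) (ψ : ℝ) {v : V} (hp : ⟪p, v⟫_ℝ = 0) (hq : ⟪q, v⟫_ℝ = 0) :
    rot p q ψ v = v := by
  rw [rot_apply h, hp, hq]
  module

theorem rot_pi {p q : V} (h : ON2 p q) (v : V) :
    rot p q Real.pi v = v - (2 * ⟪p, v⟫_ℝ) • p - (2 * ⟪q, v⟫_ℝ) • q := by
  rw [rot_apply h, Real.cos_pi, Real.sin_pi]
  module

theorem rot_pi_p {p q : V} (h : ON2 p q) : rot p q Real.pi p = -p := by
  rw [rot_pi h, h.pp, h.qp]
  module

theorem rot_pi_q {p q : V} (h : ON2 p q) : rot p q Real.pi q = -q := by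
  rw [rot_pi h, h.pq, h.qq]
  module

end Rotations

section Tri
variable {V : Type*} [NormedAddCommGroup V] [InnerProductSpace ℝ V] [FiniteDimensional ℝ V]
variable {A : ConvexBody V → ℝ}

theorem tri_zero_left (b : V) : tri 0 b = seg b := by
  refine hs_ext fun v => ?_
  rw [hs_tri, hs_seg, inner_zero_right, zero_add, ← max_assoc, max_self]

theorem tri_smul_one {c : ℝ} (hc : 0 ≤ c) (a : V) : tri a (c • a) = seg ((1 + c) • a) := by
  refine hs_ext fun v => ?_
  rw [hs_tri, hs_seg, real_inner_smul_right, real_inner_smul_right]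
  rcases le_total 0 ⟪v, a⟫_ℝ with h | h
  · rw [max_eq_right (a := ⟪v, a⟫_ℝ) (b := ⟪v, a⟫_ℝ + c * ⟪v, a⟫_ℝ) (by nlinarith [mul_nonneg hc h])]
    congr 1; ring
  · rw [max_eq_left (a := ⟪v, a⟫_ℝ) (b := ⟪v, a⟫_ℝ + c * ⟪v, a⟫_ℝ)
      (by nlinarith [mul_nonneg hc (neg_nonneg.2 h)]), max_eq_left h, max_eq_left]
    nlinarith [mul_nonneg hc (neg_nonneg.2 h)]

theorem tri_smul_two {c : ℝ} (hc : c ≤ 0) (hc' : -1 ≤ c) (a : V) : tri a (c • a) = seg a := by
  refine hs_ext fun v => ?_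
  rw [hs_tri, hs_seg, real_inner_smul_right]
  rcases le_total 0 ⟪v, a⟫_ℝ with h | h
  · rw [max_eq_left (a := ⟪v, a⟫_ℝ) (b := ⟪v, a⟫_ℝ + c * ⟪v, a⟫_ℝ)
      (by nlinarith [mul_nonneg (neg_nonneg.2 hc) h])]
  · rw [max_eq_right (a := ⟪v, a⟫_ℝ) (b := ⟪v, a⟫_ℝ + c * ⟪v, a⟫_ℝ)
      (by nlinarith [mul_nonneg (neg_nonneg.2 hc) (neg_nonneg.2 h)]), max_eq_left h, max_eq_left]
    nlinarith [mul_nonneg (by linarith : 0 ≤ 1 + c) (neg_nonneg.2 h)]

theorem tri_smul_three {c : ℝ} (hc : c ≤ -1) (a : V) :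
    tri a (c • a) = seg ((-c) • a) + pt ((1 + c) • a) := by
  refine hs_ext fun v => ?_
  rw [hs_add, hs_tri, hs_seg, hs_pt, real_inner_smul_right, real_inner_smul_right,
    real_inner_smul_right]
  rcases le_total 0 ⟪v, a⟫_ℝ with h | h
  · rw [max_eq_left (a := ⟪v, a⟫_ℝ) (b := ⟪v, a⟫_ℝ + c * ⟪v, a⟫_ℝ)
      (by nlinarith [mul_nonneg (by linarith : 0 ≤ -c) h]), max_eq_right h,
      max_eq_right (by nlinarith [mul_nonneg (by linarith : 0 ≤ -c) h])]
    ring
  · have h1 : 0 ≤ (-1 - c) * (-⟪v, a⟫_ℝ) := mul_nonneg (by linarith) (neg_nonneg.2 h)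
    have h2 : 0 ≤ (-c) * (-⟪v, a⟫_ℝ) := mul_nonneg (by linarith) (neg_nonneg.2 h)
    rw [max_eq_right (a := ⟪v, a⟫_ℝ) (b := ⟪v, a⟫_ℝ + c * ⟪v, a⟫_ℝ)
      (by linarith), max_eq_right (by linarith), max_eq_left (by linarith)]
    ring

theorem IsAdd_zero (hA : IsAdd A) : A 0 = 0 := by
  rw [← pt_zero]; exact hA.pt 0

theorem IsAdd_add_pt (hA : IsAdd A) (K : ConvexBody V) (x : V) : A (K + pt x) = A K := by
  rw [hA.add, hA.pt, add_zero]

/-- degenerate triangles are killed -/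
theorem tri_deg (hA : IsAdd A) (h1 : ∀ x, A (seg x) = 0) {a b : V}
    (h : a = 0 ∨ ∃ c : ℝ, b = c • a) : A (tri a b) = 0 := by
  rcases h with rfl | ⟨c, rfl⟩
  · rw [tri_zero_left, h1]
  · rcases le_total 0 c with hc | hc
    · rw [tri_smul_one hc, h1]
    · rcases le_total (-1) c with hc' | hc'
      · rw [tri_smul_two hc hc', h1]
      · rw [tri_smul_three hc', IsAdd_add_pt hA, h1]

theorem tri_add_neg (a b : V) :
    tri a b + tri (-a) (-b) + pt (a + b) = seg a + seg b + seg (a + b) := by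
  refine hs_ext fun v => ?_
  rw [hs_add, hs_add, hs_add, hs_add, hs_tri, hs_tri, hs_pt, hs_seg, hs_seg, hs_seg,
    inner_neg_right, inner_neg_right, inner_add_right]
  generalize ⟪v, a⟫_ℝ = α
  generalize ⟪v, b⟫_ℝ = β
  rcases le_total 0 α with h1 | h1 <;> rcases le_total 0 β with h2 | h2 <;>
    rcases le_total 0 (α + β) with h3 | h3 <;>
    simp only [max_def] <;> split_ifs <;> linarith

theorem kill_tri (hA : IsAdd A) (h1 : ∀ x, A (seg x) = 0) {a b : V}
    (h : A (tri (-a) (-b)) = A (tri a b)) : A (tri a b) = 0 := by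
  have h2 := congrArg A (tri_add_neg a b)
  rw [IsAdd_add_pt hA, hA.add, hA.add, hA.add, h1, h1, h1, h] at h2
  linarith

/-- orthonormal basis of the plane of a nondegenerate triangle -/
theorem plane {a b : V} (ha : a ≠ 0) (hb : ∀ c : ℝ, b ≠ c • a) :
    ∃ p q : V, ON2 p q ∧ (∃ c1 : ℝ, p = c1 • a) ∧ (∃ c2 c3 : ℝ, q = c2 • a + c3 • b) ∧
      (∃ α : ℝ, a = α • p) ∧ ∃ β γ : ℝ, b = β • p + γ • q := by
  have hna : ‖a‖ ≠ 0 := norm_ne_zero_iff.2 ha
  set p : V := ‖a‖⁻¹ • a with hp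
  have hp1 : ‖p‖ = 1 := by
    rw [hp, norm_smul, norm_inv, norm_norm, inv_mul_cancel₀ hna]
  have hap : a = ‖a‖ • p := by
    rw [hp, smul_smul, mul_inv_cancel₀ hna, one_smul]
  have hpp : ⟪p, p⟫_ℝ = 1 := by
    rw [real_inner_self_eq_norm_sq, hp1]; norm_num
  set q0 : V := b - ⟪p, b⟫_ℝ • p with hq0
  have hq0' : q0 ≠ 0 := by
    intro h0
    refine hb (⟪p, b⟫_ℝ * ‖a‖⁻¹) ?_
    rw [mul_smul, ← hp]
    exact sub_eq_zero.1 h0
  have hnq : ‖q0‖ ≠ 0 := norm_ne_zero_iff.2 hq0'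
  have hpq0 : ⟪p, q0⟫_ℝ = 0 := by
    rw [hq0, inner_sub_right, real_inner_smul_right, hpp]
    ring
  refine ⟨p, ‖q0‖⁻¹ • q0, ⟨hp1, ?_, ?_⟩, ⟨_, hp⟩, ⟨-(‖q0‖⁻¹ * (⟪p, b⟫_ℝ * ‖a‖⁻¹)), ‖q0‖⁻¹, ?_⟩,
    ⟨_, hap⟩, ⟨⟪p, b⟫_ℝ, ‖q0‖, ?_⟩⟩
  · rw [norm_smul, norm_inv, norm_norm, inv_mul_cancel₀ hnq]
  · rw [real_inner_smul_right, hpq0, mul_zero]
  · rw [hq0, smul_sub, neg_smul, mul_smul, mul_smul, ← hp]
    abel
  · rw [smul_inv_smul₀ hnq, hq0]
    abel

theorem half_tri {p q : V} (h : ON2 p q) {a b : V} {α β γ : ℝ} (ha : a = α • p)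
    (hb : b = β • p + γ • q) : isoB (rot p q Real.pi) (tri a b) = tri (-a) (-b) := by
  rw [isoB_tri]
  have h1 : rot p q Real.pi a = -a := by
    rw [ha, map_smul, rot_pi_p h, smul_neg]
  have h2 : rot p q Real.pi b = -b := by
    rw [hb, map_add, map_smul, map_smul, rot_pi_p h, rot_pi_q h, smul_neg, smul_neg, neg_add]
  rw [h1, h2]

end Tri

section Perp
variable {V : Type*} [NormedAddCommGroup V] [InnerProductSpace ℝ V] [FiniteDimensional ℝ V]
  [MeasurableSpace V] [BorelSpace V]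
variable {φ : ConvexBody V → ℝ}

theorem hs_path3 (a b c v : V) : hs (pathS [a, b, c]) v =
    max 0 (max ⟪v, a⟫_ℝ (max (⟪v, a⟫_ℝ + ⟪v, b⟫_ℝ) (⟪v, a⟫_ℝ + ⟪v, b⟫_ℝ + ⟪v, c⟫_ℝ))) := by
  classical
  have e0 : ((([a, b, c] : List V).take 0).sum) = 0 := by simp
  have e1 : ((([a, b, c] : List V).take 1).sum) = a := by simp
  have e2 : ((([a, b, c] : List V).take 2).sum) = a + b := by simp
  have e3 : ((([a, b, c] : List V).take 3).sum) = a + b + c := by simp [add_assoc]
  have hmem : ∀ i, i < 4 → ((([a, b, c] : List V).take i).sum) ∈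
      (Finset.range (([a, b, c] : List V).length + 1)).image
        (fun i => (([a, b, c] : List V).take i).sum) := by
    intro i hi
    exact Finset.mem_image_of_mem _ (Finset.mem_range.2 hi)
  rw [pathS, hs_hull]
  apply le_antisymm
  · apply Finset.sup'_le
    intro y hy
    rw [Finset.mem_image] at hy
    obtain ⟨i, hi, rfl⟩ := hy
    have hi' : i < 4 := Finset.mem_range.1 hi
    interval_cases i
    · rw [e0, inner_zero_right]
      exact le_max_left _ _
    · rw [e1]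
      exact le_max_of_le_right (le_max_left _ _)
    · rw [e2, inner_add_right]
      exact le_max_of_le_right (le_max_of_le_right (le_max_left _ _))
    · rw [e3, inner_add_right, inner_add_right]
      exact le_max_of_le_right (le_max_of_le_right (le_max_right _ _))
  · have m0 := hmem 0 (by norm_num)
    have m1 := hmem 1 (by norm_num)
    have m2 := hmem 2 (by norm_num)
    have m3 := hmem 3 (by norm_num)
    rw [e0] at m0
    rw [e1] at m1
    rw [e2] at m2
    rw [e3] at m3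
    refine max_le ?_ (max_le ?_ (max_le ?_ ?_))
    · have := Finset.le_sup' (fun y => ⟪v, y⟫_ℝ) m0
      rw [inner_zero_right] at this
      exact this
    · exact Finset.le_sup' (fun y => ⟪v, y⟫_ℝ) m1
    · have := Finset.le_sup' (fun y => ⟪v, y⟫_ℝ) m2
      rw [inner_add_right] at this
      exact this
    · have := Finset.le_sup' (fun y => ⟪v, y⟫_ℝ) m3
      rw [inner_add_right, inner_add_right] at this
      exact this

/-- relabelling of the tetrahedron -/
theorem path_relabel1 (a b c : V) : pathS [a + b, -b, b + c] = pathS [a, b, c] := by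
  refine hs_ext fun v => ?_
  rw [hs_path3, hs_path3, inner_add_right, inner_neg_right, inner_add_right]
  generalize ⟪v, a⟫_ℝ = α
  generalize ⟪v, b⟫_ℝ = β
  generalize ⟪v, c⟫_ℝ = γ
  have e1 : α + β + -β = α := by ring
  rw [e1]
  have e2 : α + (β + γ) = α + β + γ := by ring
  rw [e2]
  rw [← max_assoc (α + β) α, max_comm (α + β) α, max_assoc]

theorem path_relabel2 (a b c : V) :
    pathS [b, -(a + b), a + b + c] + pt a = pathS [a, b, c] := by
  refine hs_ext fun v => ?_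
  rw [hs_add, hs_path3, hs_path3, hs_pt, inner_add_right, inner_neg_right, inner_add_right]
  generalize ⟪v, a⟫_ℝ = α
  generalize ⟪v, b⟫_ℝ = β
  generalize ⟪v, c⟫_ℝ = γ
  have e1 : β + -(α + β) = -α := by ring
  have e2 : -α + (α + β + γ) = β + γ := by ring
  rw [e1, e2, max_add, max_add, max_add]
  have e3 : -α + α = 0 := by ring
  have e4 : β + γ + α = α + β + γ := by ring
  have e5 : 0 + α = α := by ring
  have e6 : β + α = α + β := by ring
  rw [e3, e4, e5, e6]
  rw [max_comm (α + β) (max 0 _), max_assoc, max_comm (α + β + γ) (α + β),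
    ← max_assoc α 0, max_comm α 0, max_assoc]

theorem tri_relabel1 (a b : V) : tri (a + b) (-b) = tri a b := by
  refine hs_ext fun v => ?_
  rw [hs_tri, hs_tri, inner_add_right, inner_neg_right]
  rw [max_comm (⟪v, a⟫_ℝ + ⟪v, b⟫_ℝ)]
  congr 2
  ring

theorem tri_relabel2 (a b : V) : tri b (-(a + b)) + pt a = tri a b := by
  refine hs_ext fun v => ?_
  rw [hs_add, hs_tri, hs_tri, hs_pt, inner_neg_right, inner_add_right]
  generalize ⟪v, a⟫_ℝ = α
  generalize ⟪v, b⟫_ℝ = β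
  have e1 : β + -(α + β) = -α := by ring
  rw [e1, max_add, max_add]
  have e3 : -α + α = 0 := by ring
  have e5 : 0 + α = α := by ring
  have e6 : β + α = α + β := by ring
  rw [e3, e5, e6, max_comm (α + β) 0, ← max_assoc, max_comm α 0, max_assoc]

/-- shifts of the direction along the triangle -/
theorem shift1 (hφ : IsVal φ) (hj : IsHom 2 φ) {a b : V} (ha : ∀ K, D a φ K = 0)
    (hb : ∀ K, D b φ K = 0) (hab : ∀ K, D (a + b) φ K = 0) (c : V) :
    D (b + c) φ (tri a b) = D c φ (tri a b) := by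
  have hb' : ∀ K, D (-b) φ K = 0 := by
    intro K
    have := D_smul hφ b (-1) K
    rw [neg_one_smul, hb, mul_zero] at this
    exact this
  have h1 := tetra hφ hj a b c ha hb
  have h2 := tetra hφ hj (a + b) (-b) (b + c) hab hb'
  rw [path_relabel1, tri_relabel1, h1] at h2
  exact h2.symm

theorem shift2 (hφ : IsVal φ) (hj : IsHom 2 φ) {a b : V} (ha : ∀ K, D a φ K = 0)
    (hb : ∀ K, D b φ K = 0) (hab : ∀ K, D (a + b) φ K = 0) (c : V) :
    D (a + b + c) φ (tri a b) = D c φ (tri a b) := by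
  have hab' : ∀ K, D (-(a + b)) φ K = 0 := by
    intro K
    have := D_smul hφ (a + b) (-1) K
    rw [neg_one_smul, hab, mul_zero] at this
    exact this
  have h1 := tetra hφ hj a b c ha hb
  have h2 := tetra hφ hj b (-(a + b)) (a + b + c) hb hab'
  rw [← path_relabel2 a b c, hφ.trans] at h1
  rw [← tri_relabel2 a b, (isVal_D hφ _).trans, ← h2, h1, ← tri_relabel2 a b,
    (isVal_D hφ _).trans]

theorem scale_shift (hφ : IsVal φ) {w : V} {T : ConvexBody V}
    (h : ∀ c, D (w + c) φ T = D c φ T) (s : ℝ) (x : V) : D (x + s • w) φ T = D x φ T := by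
  by_cases hs : s = 0
  · rw [hs, zero_smul, add_zero]
  · have h1 := h (s⁻¹ • x)
    have h2 : w + s⁻¹ • x = s⁻¹ • (x + s • w) := by
      rw [smul_add, smul_smul, inv_mul_cancel₀ hs, one_smul, add_comm]
    rw [h2, D_smul hφ, D_smul hφ] at h1
    have h3 : |s⁻¹| ≠ 0 := abs_ne_zero.2 (inv_ne_zero hs)
    exact mul_left_cancel₀ h3 h1

theorem D_shift (hφ : IsVal φ) (hj : IsHom 2 φ) {a b : V} (ha : ∀ K, D a φ K = 0)
    (hb : ∀ K, D b φ K = 0) (hab : ∀ K, D (a + b) φ K = 0) (x : V) (s t : ℝ) :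
    D (x + s • a + t • b) φ (tri a b) = D x φ (tri a b) := by
  have h1 : x + s • a + t • b = (x + s • (a + b)) + (t - s) • b := by module
  rw [h1, scale_shift hφ (shift1 hφ hj ha hb hab), scale_shift hφ (shift2 hφ hj ha hb hab)]

/-- invariance under the half turns fixing `u` -/
def Zw (u : V) (φ : ConvexBody V → ℝ) : Prop :=
  ∀ p q : V, ON2 p q → ⟪u, p⟫_ℝ = 0 → ⟪u, q⟫_ℝ = 0 → ∀ K, φ (isoB (rot p q Real.pi) K) = φ K

theorem Zw_of_Zonal {u : V} (h : Zonal u φ) : Zw u φ := by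
  intro p q hpq hp hq K
  refine h _ (rot_Rot hpq _) (rot_fix hpq _ ?_ ?_) K
  · rw [real_inner_comm]; exact hp
  · rw [real_inner_comm]; exact hq

theorem zero_of_D_perp (hφ : IsVal φ) {j : ℕ} (hj : IsHom j φ) (h2 : 2 ≤ j)
    (u : V) (hz : Zw u φ) (h : ∀ x, ⟪u, x⟫_ℝ = 0 → ∀ K, D x φ K = 0) (K : ConvexBody V) :
    φ K = 0 := by
  refine zero_of_D hφ hj h2 ?_ K
  intro x K
  by_cases hx : ⟪u, x⟫_ℝ = 0
  · exact h x hx K
  obtain ⟨i, rfl⟩ : ∃ i, j = i + 1 := ⟨j - 1, by omega⟩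
  have hv := isVal_D hφ x
  have hh := D_hom hφ hj x
  have hobl : ∀ z : V, ⟪u, z - (⟪u, z⟫_ℝ / ⟪u, x⟫_ℝ) • x⟫_ℝ = 0 := by
    intro z
    rw [inner_sub_right, real_inner_smul_right, div_mul_cancel₀ _ hx, sub_self]
  have hDD : ∀ z K, D z (D x φ) K = 0 := by
    intro z K
    have e1 : z = (z - (⟪u, z⟫_ℝ / ⟪u, x⟫_ℝ) • x) + (⟪u, z⟫_ℝ / ⟪u, x⟫_ℝ) • x := by
      abel
    rw [D_comm z x, e1, D_shear hφ]
    unfold D
    have h3 := h _ (hobl z) (K + seg x)
    have h4 := h _ (hobl z) K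
    unfold D at h3 h4
    rw [h3, h4, sub_zero]
  by_cases hi : 2 ≤ i
  · exact zero_of_D hv hh hi hDD K
  have hi1 : i = 1 := by omega
  subst hi1
  have hA : IsAdd (D x φ) := hv.isAdd hh
  have hseg : ∀ z, D x φ (seg z) = 0 := by
    intro z
    have h3 := hDD z 0
    have h4 : D z (D x φ) 0 = D x φ (0 + seg z) - D x φ 0 := rfl
    rw [h4, zero_add, IsAdd_zero hA, sub_zero] at h3
    exact h3
  refine K1 hA hseg ?_ K
  intro a b
  -- oblique projection of the triangle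
  have hcong : D x φ (tri a b) = D x φ (tri (a - (⟪u, a⟫_ℝ / ⟪u, x⟫_ℝ) • x)
      (b - (⟪u, b⟫_ℝ / ⟪u, x⟫_ℝ) • x)) := by
    refine D_congr hφ x fun v hv => ?_
    rw [hs_tri, hs_tri, inner_sub_right, inner_sub_right, real_inner_smul_right,
      real_inner_smul_right, hv, mul_zero, mul_zero, sub_zero, sub_zero]
  rw [hcong]
  have ha := hobl a
  have hb := hobl b
  generalize a - (⟪u, a⟫_ℝ / ⟪u, x⟫_ℝ) • x = a' at *
  generalize b - (⟪u, b⟫_ℝ / ⟪u, x⟫_ℝ) • x = b' at *
  by_cases ha0 : a' = 0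
  · exact tri_deg hA hseg (Or.inl ha0)
  by_cases hb0 : ∃ c : ℝ, b' = c • a'
  · exact tri_deg hA hseg (Or.inr hb0)
  push Not at hb0
  obtain ⟨p, q, hpq, ⟨c1, hc1⟩, ⟨c2, c3, hc2⟩, ⟨α, hα⟩, ⟨β, γ, hβ⟩⟩ := plane ha0 hb0
  have hup : ⟪u, p⟫_ℝ = 0 := by
    rw [hc1, real_inner_smul_right, ha, mul_zero]
  have huq : ⟪u, q⟫_ℝ = 0 := by
    rw [hc2, inner_add_right, real_inner_smul_right, real_inner_smul_right, ha, hb, mul_zero,
      mul_zero, add_zero]
  have hab : ⟪u, a' + b'⟫_ℝ = 0 := by rw [inner_add_right, ha, hb, add_zero]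
  -- replace `x` by a vector orthogonal to `p` and `q`
  set x' : V := x - ⟪p, x⟫_ℝ • p - ⟪q, x⟫_ℝ • q with hx'
  have hx'' : x' = x + (-(⟪p, x⟫_ℝ * c1 + ⟪q, x⟫_ℝ * c2)) • a' + (-(⟪q, x⟫_ℝ * c3)) • b' := by
    have e1 : x' = x - ⟪p, x⟫_ℝ • (c1 • a') - ⟪q, x⟫_ℝ • (c2 • a' + c3 • b') := by
      rw [← hc1, ← hc2]
    rw [e1]
    module
  have hDx : ∀ T : ConvexBody V, T = tri a' b' ∨ T = tri (-a') (-b') → D x' φ T = D x φ T := by
    intro T hT
    rcases hT with rfl | rfl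
    · rw [hx'']
      exact D_shift hφ hj (h a' ha) (h b' hb) (h _ hab) x _ _
    · have e2 : x' = x + (⟪p, x⟫_ℝ * c1 + ⟪q, x⟫_ℝ * c2) • (-a') + (⟪q, x⟫_ℝ * c3) • (-b') := by
        rw [hx'']; module
      rw [e2]
      refine D_shift hφ hj (h _ ?_) (h _ ?_) (h _ ?_) x _ _
      · rw [inner_neg_right, ha, neg_zero]
      · rw [inner_neg_right, hb, neg_zero]
      · rw [inner_add_right, inner_neg_right, inner_neg_right, ha, hb]; norm_num
  have hpx : ⟪p, x'⟫_ℝ = 0 := by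
    rw [hx', inner_sub_right, inner_sub_right, real_inner_smul_right, real_inner_smul_right,
      hpq.pp, hpq.pq]
    ring
  have hqx : ⟪q, x'⟫_ℝ = 0 := by
    rw [hx', inner_sub_right, inner_sub_right, real_inner_smul_right, real_inner_smul_right,
      hpq.qq, hpq.qp]
    ring
  refine kill_tri hA hseg ?_
  rw [← hDx _ (Or.inl rfl), ← hDx _ (Or.inr rfl), ← half_tri hpq hα hβ]
  have h5 := D_iso (rot p q Real.pi) x' φ (tri a' b')
  rw [rot_fix hpq _ hpx hqx] at h5
  rw [← h5]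
  have h6 : (fun L => φ (isoB (rot p q Real.pi) L)) = φ := by
    funext L
    exact hz p q hpq hup huq L
  rw [h6]

end Perp

section Lists
variable {V : Type*} [NormedAddCommGroup V] [InnerProductSpace ℝ V]

/-- orthonormal lists -/
def ONL (xs : List V) : Prop :=
  (∀ x ∈ xs, ‖x‖ = 1) ∧ xs.Pairwise (fun x y => ⟪x, y⟫_ℝ = 0)

theorem on_iff (xs : List V) :
    Orthonormal ℝ (fun i : Fin xs.length => xs.get i) ↔ ONL xs := by
  constructor
  · intro h
    refine ⟨?_, ?_⟩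
    · intro x hx
      obtain ⟨i, rfl⟩ := List.mem_iff_get.1 hx
      exact h.1 i
    · rw [List.pairwise_iff_get]
      intro i j hij
      exact h.2 hij.ne
  · intro h
    refine ⟨?_, ?_⟩
    · intro i
      exact h.1 _ (List.get_mem xs i)
    · intro i j hij
      have h2 := List.pairwise_iff_get.1 h.2
      rcases lt_or_gt_of_ne hij with h3 | h3
      · exact h2 i j h3
      · rw [real_inner_comm]
        exact h2 j i h3

theorem ONL.cons {x : V} {xs : List V} (h : ONL xs) (hx : ‖x‖ = 1)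
    (ho : ∀ y ∈ xs, ⟪x, y⟫_ℝ = 0) : ONL (x :: xs) := by
  refine ⟨?_, List.pairwise_cons.2 ⟨ho, h.2⟩⟩
  intro y hy
  rcases List.mem_cons.1 hy with rfl | hy
  · exact hx
  · exact h.1 y hy

theorem ONL.tail {x : V} {xs : List V} (h : ONL (x :: xs)) : ONL xs :=
  ⟨fun y hy => h.1 y (List.mem_cons_of_mem _ hy), (List.pairwise_cons.1 h.2).2⟩

theorem ONL.head {x : V} {xs : List V} (h : ONL (x :: xs)) : ‖x‖ = 1 :=
  h.1 x List.mem_cons_self

theorem ONL.head_perp {x : V} {xs : List V} (h : ONL (x :: xs)) : ∀ y ∈ xs, ⟪x, y⟫_ℝ = 0 :=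
  (List.pairwise_cons.1 h.2).1

theorem ONL.map {W : Type*} [NormedAddCommGroup W] [InnerProductSpace ℝ W] {xs : List V}
    (h : ONL xs) (f : V → W) (hf : ∀ x y, ⟪f x, f y⟫_ℝ = ⟪x, y⟫_ℝ) : ONL (xs.map f) := by
  refine ⟨?_, ?_⟩
  · intro y hy
    obtain ⟨x, hx, rfl⟩ := List.mem_map.1 hy
    have h1 := h.1 x hx
    have h2 : ‖f x‖ ^ 2 = ‖x‖ ^ 2 := by
      rw [← real_inner_self_eq_norm_sq, ← real_inner_self_eq_norm_sq, hf]
    rw [h1, one_pow] at h2
    exact (pow_eq_one_iff_of_nonneg (norm_nonneg _) two_ne_zero).1 h2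
  · rw [List.pairwise_map]
    refine h.2.imp ?_
    intro a b hab
    rw [hf]
    exact hab

end Lists

section HsMap
variable {V : Type*} [NormedAddCommGroup V] [InnerProductSpace ℝ V] [FiniteDimensional ℝ V]
variable {W : Type*} [NormedAddCommGroup W] [InnerProductSpace ℝ W] [FiniteDimensional ℝ W]

theorem hs_mapB_eq (f : V →L[ℝ] W) (K : ConvexBody V) {w : W} {v : V}
    (h : ∀ x, ⟪w, f x⟫_ℝ = ⟪v, x⟫_ℝ) : hs (mapB f K) w = hs K v := by
  rw [hs_mapB]
  have h1 : ContinuousLinearMap.adjoint f w = v := by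
    refine ext_inner_right ℝ fun x => ?_
    rw [ContinuousLinearMap.adjoint_inner_left, h]
  rw [h1]

/-- inclusion of a subspace commutes with rotations -/
theorem rot_incl (E : Submodule ℝ V) {p q : E} (h : ON2 p q) (ψ : ℝ) (L : ConvexBody E) :
    mapB E.subtypeL (isoB (rot p q ψ) L) = isoB (rot (p : V) (q : V) ψ) (mapB E.subtypeL L) := by
  have h' : ON2 (p : V) (q : V) := ⟨h.p1, h.q1, h.pq⟩
  unfold isoB
  rw [mapB_mapB, mapB_mapB]
  congr 1
  refine ContinuousLinearMap.ext fun x => ?_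
  show ((rot p q ψ x : E) : V) = rot (p : V) (q : V) ψ (x : V)
  rw [rot_apply h, rot_apply h']
  rfl

end HsMap

universe u

theorem zonal_aux (j : ℕ) : ∀ (V : Type u) [NormedAddCommGroup V] [InnerProductSpace ℝ V]
    [FiniteDimensional ℝ V] [MeasurableSpace V] [BorelSpace V] (φ : ConvexBody V → ℝ),
    IsVal φ → IsHom (j + 1) φ → ∀ u : V, Zw u φ →
    (∀ xs : List V, xs.length = j → ONL xs → (∀ x ∈ xs, ⟪u, x⟫_ℝ = 0) → ∀ K, Ds xs φ K = 0) →
    ∀ K, φ K = 0 := by
  induction j with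
  | zero =>
    intro V _ _ _ _ _ φ hφ hj u hz h K
    have := h [] rfl ⟨by simp, List.Pairwise.nil⟩ (by simp) K
    rw [Ds_nil] at this
    exact this
  | succ j ih =>
    intro V _ _ _ _ _ φ hφ hj u hz h K
    -- unit vectors suffice
    suffices hunit : ∀ x, ‖x‖ = 1 → ⟪u, x⟫_ℝ = 0 → ∀ K, D x φ K = 0 by
      refine zero_of_D_perp hφ hj (by omega) u hz ?_ K
      intro x hx K
      by_cases hx0 : x = 0
      · rw [hx0]; exact D_zero hφ K
      · have hn : ‖x‖ ≠ 0 := norm_ne_zero_iff.2 hx0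
        have e1 : x = ‖x‖ • (‖x‖⁻¹ • x) := (smul_inv_smul₀ hn x).symm
        rw [e1, D_smul hφ, hunit, mul_zero]
        · rw [norm_smul, norm_inv, norm_norm, inv_mul_cancel₀ hn]
        · rw [real_inner_smul_right, hx, mul_zero]
    intro x hx1 hxu K
    set E : Submodule ℝ V := (Submodule.span ℝ {x})ᗮ with hE
    have hmemE : ∀ v : V, v ∈ E ↔ ⟪x, v⟫_ℝ = 0 := fun v =>
      Submodule.mem_orthogonal_singleton_iff_inner_right
    have huE : u ∈ E := by
      rw [hmemE, real_inner_comm]; exact hxu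
    have key : ∀ L : ConvexBody E, D x φ (mapB E.subtypeL L) = 0 := by
      refine ih E (fun L => D x φ (mapB E.subtypeL L)) ((isVal_D hφ x).pull E.subtypeL) ?_
        ⟨u, huE⟩ ?_ ?_
      · intro c L hc
        show D x φ (mapB E.subtypeL (c • L)) = _
        rw [mapB_smul]
        exact D_hom hφ hj x c _ hc
      · intro p q hpq hp hq L
        show D x φ (mapB E.subtypeL (isoB (rot p q Real.pi) L)) = _
        rw [rot_incl E hpq]
        have h' : ON2 (p : V) (q : V) := ⟨hpq.p1, hpq.q1, hpq.pq⟩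
        have hfix : rot (p : V) (q : V) Real.pi x = x := by
          refine rot_fix h' _ ?_ ?_
          · rw [real_inner_comm]; exact (hmemE _).1 p.2
          · rw [real_inner_comm]; exact (hmemE _).1 q.2
        have h5 := D_iso (rot (p : V) (q : V) Real.pi) x φ (mapB E.subtypeL L)
        rw [hfix] at h5
        rw [← h5]
        have h6 : (fun L => φ (isoB (rot (p : V) (q : V) Real.pi) L)) = φ := by
          funext L
          exact hz p q h' hp hq L
        rw [h6]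
      · intro xs hl ho hux L
        rw [Ds_pull, ← Ds_cons']
        refine h _ ?_ ?_ ?_ _
        · rw [List.length_cons, List.length_map, hl]
        · refine ONL.cons (ho.map _ fun a b => rfl) hx1 ?_
          intro y hy
          obtain ⟨z, hz, rfl⟩ := List.mem_map.1 hy
          exact (hmemE _).1 z.2
        · intro y hy
          rcases List.mem_cons.1 hy with rfl | hy
          · exact hxu
          · obtain ⟨z, hz, rfl⟩ := List.mem_map.1 hy
            exact hux z hz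
    have hcong : D x φ K = D x φ (mapB E.subtypeL (mapB E.orthogonalProjectionOnto K)) := by
      refine D_congr hφ x fun v hv => ?_
      rw [mapB_mapB]
      refine (hs_mapB_eq _ K fun y => ?_).symm
      show ⟪v, E.starProjection y⟫_ℝ = ⟪v, y⟫_ℝ
      have h1 : v ∈ E := by rw [hmemE, real_inner_comm]; exact hv
      have h2 : ⟪y - E.starProjection y, v⟫_ℝ = 0 := E.starProjection_inner_eq_zero y v h1
      rw [inner_sub_left, real_inner_comm v y, real_inner_comm v (E.starProjection y)] at h2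
      linarith
    rw [hcong, key]

section Had
variable {V : Type*} [NormedAddCommGroup V] [InnerProductSpace ℝ V] [FiniteDimensional ℝ V]
  [MeasurableSpace V] [BorelSpace V]
variable {φ : ConvexBody V → ℝ}

theorem det_refl' (w : V) : LinearMap.det ((refl w).toLinearEquiv : V →ₗ[ℝ] V) = 1 ∨
    LinearMap.det ((refl w).toLinearEquiv : V →ₗ[ℝ] V) = -1 := by
  by_cases hw : w = 0
  · left
    have h1 : ((refl w).toLinearEquiv : V →ₗ[ℝ] V) = LinearMap.id := by
      refine LinearMap.ext fun x => ?_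
      exact refl_fix (by rw [hw]; exact inner_zero_left x)
    rw [h1, LinearMap.det_id]
  · right
    exact det_refl hw

theorem list_iso (xs : List V) : ∀ ys : List V, ys.length = xs.length → ONL xs → ONL ys →
    ∃ g : V ≃ₗᵢ[ℝ] V, (LinearMap.det (g.toLinearEquiv : V →ₗ[ℝ] V) = 1 ∨
      LinearMap.det (g.toLinearEquiv : V →ₗ[ℝ] V) = -1) ∧ xs.map g = ys := by
  induction xs with
  | nil =>
    intro ys hl _ _
    refine ⟨LinearIsometryEquiv.refl ℝ V, Or.inl LinearMap.det_id, ?_⟩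
    rw [List.length_nil] at hl
    rw [List.eq_nil_of_length_eq_zero hl, List.map_nil]
  | cons x xs ih =>
    intro ys hl hx hy
    match ys, hl, hy with
    | [], hl, _ => simp at hl
    | y :: ys, hl, hy =>
      obtain ⟨g, hdet, hg⟩ := ih ys (by simpa using hl) hx.tail hy.tail
      have hn : ‖g x‖ = ‖y‖ := by rw [g.norm_map, hx.head, hy.head]
      refine ⟨g.trans (refl (g x - y)), ?_, ?_⟩
      · rw [det_trans]
        rcases hdet with h | h <;> rcases det_refl' (g x - y) with h' | h' <;> rw [h, h'] <;>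
          norm_num
      · rw [List.map_cons]
        congr 1
        · exact refl_sub hn
        · rw [← hg]
          refine List.map_congr_left fun z hz => ?_
          have h1 : g z ∈ ys := by rw [← hg]; exact List.mem_map_of_mem hz
          have h2 : ⟪g x - y, g z⟫_ℝ = 0 := by
            rw [inner_sub_left, g.inner_map_map, hx.head_perp z hz, hy.head_perp _ h1, sub_zero]
          exact refl_fix h2

theorem isoB_zero (g : V ≃ₗᵢ[ℝ] V) : isoB g (0 : ConvexBody V) = 0 := mapB_zero _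

theorem list_rot (hφ : IsVal φ)
    (hinv : ∀ g : V ≃ₗᵢ[ℝ] V, Rot g → ∀ K, φ (isoB g K) = φ K)
    {xs ys : List V} (hl : ys.length = xs.length) (hx : ONL xs) (hy : ONL ys) :
    Ds xs φ 0 = Ds ys φ 0 := by
  obtain ⟨g, hdet, hg⟩ := list_iso xs ys hl hx hy
  have hrot : ∀ h : V ≃ₗᵢ[ℝ] V, Rot h → Ds xs φ 0 = Ds (xs.map h) φ 0 := by
    intro h hh
    have h1 := Ds_iso h xs φ 0
    rw [isoB_zero] at h1
    rw [← h1]
    have h2 : (fun L => φ (isoB h L)) = φ := by
      funext L; exact hinv h hh L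
    rw [h2]
  rcases hdet with hdet | hdet
  · rw [hrot g hdet, hg]
  · match ys, hl, hy, hg with
    | [], hl, _, _ =>
      rw [List.length_nil] at hl
      rw [List.eq_nil_of_length_eq_zero hl.symm]
    | y :: ys, hl, hy, hg =>
      have hy0 : y ≠ 0 := by
        intro h0
        have := hy.head
        rw [h0, norm_zero] at this
        norm_num at this
      have h1 : Rot (g.trans (refl y)) := by
        unfold Rot
        rw [det_trans, hdet, det_refl hy0]
        norm_num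
      rw [hrot _ h1]
      have h2 : xs.map (g.trans (refl y)) = (-y) :: ys := by
        have h3 : xs.map (g.trans (refl y)) = (xs.map g).map (refl y) := by
          rw [List.map_map]
          rfl
        rw [h3, hg, List.map_cons, refl_self]
        congr 1
        have h4 : ys.map (refl y) = ys.map id :=
          List.map_congr_left fun z hz => refl_fix (hy.head_perp z hz)
        rw [h4, List.map_id]
      rw [h2, Ds_cons, Ds_cons]
      have h5 := D_smul (isVal_Ds hφ ys) y (-1) 0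
      rw [neg_one_smul, abs_neg, abs_one, one_mul] at h5
      exact h5

theorem proj_props' (ys : List V) : ∃ P : V → V, (∀ z, ∀ y ∈ ys, ⟪y, P z⟫_ℝ = 0) ∧
    (∀ v, (∀ y ∈ ys, ⟪v, y⟫_ℝ = 0) → ∀ z, ⟪v, P z⟫_ℝ = ⟪v, z⟫_ℝ) ∧
    ∀ z, z - P z ∈ Submodule.span ℝ {x | x ∈ ys} := by
  set F : Submodule ℝ V := (Submodule.span ℝ {x | x ∈ ys})ᗮ with hF
  refine ⟨F.starProjection, ?_, ?_, ?_⟩
  · intro z y hy
    have h1 : F.starProjection z ∈ F := F.starProjection_apply_mem z
    exact (Submodule.mem_orthogonal _ _).1 h1 y (Submodule.subset_span hy)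
  · intro v hv z
    have h1 : v ∈ F := by
      rw [hF, Submodule.mem_orthogonal]
      intro w hw
      refine Submodule.span_induction (p := fun w _ => ⟪w, v⟫_ℝ = 0) ?_ ?_ ?_ ?_ hw
      · intro x hx
        rw [real_inner_comm]
        exact hv x hx
      · exact inner_zero_left _
      · intro x y _ _ hx hy
        rw [inner_add_left, hx, hy, add_zero]
      · intro c x _ hx
        rw [real_inner_smul_left, hx, mul_zero]
    have h2 : ⟪z - F.starProjection z, v⟫_ℝ = 0 := F.starProjection_inner_eq_zero z v h1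
    rw [inner_sub_left, real_inner_comm v z, real_inner_comm v (F.starProjection z)] at h2
    linarith
  · intro z
    have h1 : z - F.starProjection z ∈ Fᗮ := F.sub_starProjection_mem_orthogonal z
    have h2 : Fᗮ = Submodule.span ℝ {x | x ∈ ys} := by
      rw [hF]
      exact Submodule.orthogonal_orthogonal _
    rw [h2] at h1
    exact h1

theorem proj_props (ys : List V) : ∃ P : V → V, (∀ z, ∀ y ∈ ys, ⟪y, P z⟫_ℝ = 0) ∧
    (∀ v, (∀ y ∈ ys, ⟪v, y⟫_ℝ = 0) → ∀ z, ⟪v, P z⟫_ℝ = ⟪v, z⟫_ℝ) := by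
  obtain ⟨P, h1, h2, _⟩ := proj_props' ys
  exact ⟨P, h1, h2⟩

/-- triangles in the orthogonal complement of the list; half turns -/
theorem B_tri (hφ : IsVal φ) {ys : List V} (hB : IsAdd (Ds ys φ))
    (hseg : ∀ z, Ds ys φ (seg z) = 0)
    (hinv : ∀ p q : V, ON2 p q → (∀ y ∈ ys, ⟪p, y⟫_ℝ = 0) → (∀ y ∈ ys, ⟪q, y⟫_ℝ = 0) →
      ∀ K, φ (isoB (rot p q Real.pi) K) = φ K) (a b : V) : Ds ys φ (tri a b) = 0 := by
  obtain ⟨P, hP1, hP2⟩ := proj_props ys
  have h1 : Ds ys φ (tri a b) = Ds ys φ (tri (P a) (P b)) := Ds_congr hφ ys fun v hv => by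
    rw [hs_tri, hs_tri, hP2 v hv, hP2 v hv]
  rw [h1]
  have ha := hP1 a
  have hb := hP1 b
  generalize P a = a' at *
  generalize P b = b' at *
  by_cases ha0 : a' = 0
  · exact tri_deg hB hseg (Or.inl ha0)
  by_cases hb0 : ∃ c : ℝ, b' = c • a'
  · exact tri_deg hB hseg (Or.inr hb0)
  push Not at hb0
  obtain ⟨p, q, hpq, ⟨c1, hc1⟩, ⟨c2, c3, hc2⟩, ⟨α, hα⟩, ⟨β, γ, hβ⟩⟩ := plane ha0 hb0
  have hyp : ∀ y ∈ ys, ⟪p, y⟫_ℝ = 0 := by
    intro y hy
    rw [hc1, real_inner_comm, real_inner_smul_right, ha y hy, mul_zero]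
  have hyq : ∀ y ∈ ys, ⟪q, y⟫_ℝ = 0 := by
    intro y hy
    rw [hc2, real_inner_comm, inner_add_right, real_inner_smul_right, real_inner_smul_right,
      ha y hy, hb y hy, mul_zero, mul_zero, add_zero]
  refine kill_tri hB hseg ?_
  rw [← half_tri hpq hα hβ]
  have h5 := Ds_iso (rot p q Real.pi) ys φ (tri a' b')
  have h6 : (fun L => φ (isoB (rot p q Real.pi) L)) = φ := by
    funext L; exact hinv p q hpq hyp hyq L
  have h7 : ys.map (rot p q Real.pi) = ys := by
    have h4 : ys.map (rot p q Real.pi) = ys.map id :=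
      List.map_congr_left fun z hz => rot_fix hpq _ (hyp z hz) (hyq z hz)
    rw [h4, List.map_id]
  rw [h6, h7] at h5
  exact h5.symm

theorem D_at_zero {ψ : ConvexBody V → ℝ} (hψ : IsAdd ψ) (e : V) : D e ψ 0 = ψ (seg e) := by
  unfold D
  rw [zero_add, IsAdd_zero hψ, sub_zero]

theorem had_aux (hφ : IsVal φ) {j : ℕ} (hj : IsHom (j + 1) φ)
    (hinv : ∀ g : V ≃ₗᵢ[ℝ] V, Rot g → ∀ K, φ (isoB g K) = φ K)
    (xs : List V) (hl : xs.length = j + 1) (ho : ONL xs)
    (h0 : Ds xs φ 0 = 0) (K : ConvexBody V) : φ K = 0 := by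
  refine zero_of_Ds hφ hj ?_ K
  intro ys hys hyo K
  rw [on_iff] at hyo
  have hB : IsAdd (Ds ys φ) := by
    refine (isVal_Ds hφ ys).isAdd ?_
    refine Ds_hom hφ ys ?_
    rw [hys, add_comm]
    exact hj
  obtain ⟨P, hP1, hP2⟩ := proj_props ys
  have hseg : ∀ z, Ds ys φ (seg z) = 0 := by
    intro z
    have h1 : Ds ys φ (seg z) = Ds ys φ (seg (P z)) := Ds_congr hφ ys fun v hv => by
      rw [hs_seg, hs_seg, hP2 v hv]
    rw [h1]
    by_cases hz : P z = 0
    · rw [hz, seg_zero, IsAdd_zero hB]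
    · have hn : ‖P z‖ ≠ 0 := norm_ne_zero_iff.2 hz
      have e1 : P z = ‖P z‖ • (‖P z‖⁻¹ • P z) := (smul_inv_smul₀ hn _).symm
      rw [e1, ← smul_seg (norm_nonneg _), hB.smul (norm_nonneg _), ← D_at_zero hB, ← Ds_cons]
      have h2 : ONL ((‖P z‖⁻¹ • P z) :: ys) := by
        refine hyo.cons ?_ ?_
        · rw [norm_smul, norm_inv, norm_norm, inv_mul_cancel₀ hn]
        · intro y hy
          rw [real_inner_smul_left, real_inner_comm, hP1 z y hy, mul_zero]
      have h3 : Ds ((‖P z‖⁻¹ • P z) :: ys) φ 0 = Ds xs φ 0 :=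
        list_rot hφ hinv (by rw [List.length_cons, hl, hys]) h2 ho
      rw [h3, h0, mul_zero]
  refine K1 hB hseg ?_ K
  exact B_tri hφ hB hseg fun p q hpq _ _ L => hinv _ (rot_Rot hpq _) L

end Had

section Disc
variable {V : Type*} [NormedAddCommGroup V] [InnerProductSpace ℝ V] [FiniteDimensional ℝ V]
  [MeasurableSpace V] [BorelSpace V]
variable {A : ConvexBody V → ℝ}

theorem rot_p {p q : V} (h : ON2 p q) (ψ : ℝ) :
    rot p q ψ p = Real.cos ψ • p + Real.sin ψ • q := by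
  rw [rot_apply h, h.pp, h.qp]
  module

theorem rot_q {p q : V} (h : ON2 p q) (ψ : ℝ) :
    rot p q ψ q = (-Real.sin ψ) • p + Real.cos ψ • q := by
  rw [rot_apply h, h.pq, h.qq]
  module

theorem int_trig (c1 c2 : ℝ) :
    ∫ x in (0 : ℝ)..(2 * Real.pi), (1 + Real.cos x) * (Real.cos x * c1 + Real.sin x * c2) =
      Real.pi * c1 := by
  have h1 : ∀ x ∈ Set.uIcc (0 : ℝ) (2 * Real.pi), HasDerivAt
      (fun x => c1 * Real.sin x - c2 * Real.cos x + c1 * (x / 2 + Real.sin x * Real.cos x / 2) +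
        c2 * (Real.sin x * Real.sin x / 2))
      ((1 + Real.cos x) * (Real.cos x * c1 + Real.sin x * c2)) x := by
    intro x _
    have e1 := (Real.hasDerivAt_sin x).const_mul c1
    have e2 := (Real.hasDerivAt_cos x).const_mul c2
    have e3 := ((Real.hasDerivAt_sin x).mul (Real.hasDerivAt_cos x)).div_const 2
    have e4 := (((hasDerivAt_id x).div_const 2).add e3).const_mul c1
    have e5 := (((Real.hasDerivAt_sin x).mul (Real.hasDerivAt_sin x)).div_const 2).const_mul c2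
    have e6 := ((e1.sub e2).add e4).add e5
    refine e6.congr_deriv ?_
    have h2 := Real.cos_sq_add_sin_sq x
    have h3 : Real.sin x * Real.sin x = 1 - Real.cos x ^ 2 := by nlinarith [h2]
    linear_combination (-(c1 / 2)) * h3
  rw [intervalIntegral.integral_eq_sub_of_hasDerivAt h1]
  · simp only [Real.sin_two_pi, Real.cos_two_pi, Real.sin_zero, Real.cos_zero]
    ring
  · exact Continuous.intervalIntegrable (by fun_prop) _ _

/-- radial function of the triangle in the plane -/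
noncomputable def rad (α β γ t : ℝ) : ℝ :=
  max 0 (max (α * Real.cos t) (α * Real.cos t + (β * Real.cos t + γ * Real.sin t)))

theorem rad_continuous (α β γ : ℝ) : Continuous (rad α β γ) := by
  unfold rad
  fun_prop

theorem rad_nonneg (α β γ t : ℝ) : 0 ≤ rad α β γ t := le_max_left _ _

theorem int_rad (α β γ θ : ℝ) :
    ∫ x in (0 : ℝ)..(2 * Real.pi), (1 + Real.cos x) * rad α β γ (θ - x) =
      (∫ x in (0 : ℝ)..(2 * Real.pi), rad α β γ x) +
      Real.cos θ * (∫ x in (0 : ℝ)..(2 * Real.pi), Real.cos x * rad α β γ x) +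
      Real.sin θ * (∫ x in (0 : ℝ)..(2 * Real.pi), Real.sin x * rad α β γ x) := by
  have hc := rad_continuous α β γ
  have h1 : ∫ x in (0 : ℝ)..(2 * Real.pi), (1 + Real.cos x) * rad α β γ (θ - x) =
      ∫ x in (0 : ℝ)..(2 * Real.pi),
        (fun t => (1 + Real.cos (θ - t)) * rad α β γ t) (θ - x) := by
    refine intervalIntegral.integral_congr fun x _ => ?_
    show (1 + Real.cos x) * rad α β γ (θ - x) =
      (1 + Real.cos (θ - (θ - x))) * rad α β γ (θ - x)
    rw [sub_sub_cancel]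
  have hper : Function.Periodic (fun t => (1 + Real.cos (θ - t)) * rad α β γ t)
      (2 * Real.pi) := by
    intro t
    show (1 + Real.cos (θ - (t + 2 * Real.pi))) * rad α β γ (t + 2 * Real.pi) =
      (1 + Real.cos (θ - t)) * rad α β γ t
    unfold rad
    rw [Real.cos_add_two_pi, Real.sin_add_two_pi]
    have h2 : Real.cos (θ - (t + 2 * Real.pi)) = Real.cos (θ - t) := by
      rw [← Real.cos_sub_two_pi (θ - t)]
      congr 1
      ring
    rw [h2]
  rw [h1, intervalIntegral.integral_comp_sub_left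
    (fun t => (1 + Real.cos (θ - t)) * rad α β γ t) θ, sub_zero]
  have h3 := hper.intervalIntegral_add_eq (θ - 2 * Real.pi) 0
  rw [sub_add_cancel, zero_add] at h3
  rw [h3]
  have h4 : ∀ x : ℝ, (1 + Real.cos (θ - x)) * rad α β γ x =
      rad α β γ x + Real.cos θ * (Real.cos x * rad α β γ x) +
        Real.sin θ * (Real.sin x * rad α β γ x) := by
    intro x
    rw [Real.cos_sub]
    ring
  simp_rw [h4]
  rw [intervalIntegral.integral_add, intervalIntegral.integral_add,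
    intervalIntegral.integral_const_mul, intervalIntegral.integral_const_mul]
  · exact Continuous.intervalIntegrable (by fun_prop) _ _
  · exact Continuous.intervalIntegrable (by fun_prop) _ _
  · exact Continuous.intervalIntegrable (by fun_prop) _ _
  · exact Continuous.intervalIntegrable (by fun_prop) _ _

theorem disc_avg (hA : IsAdd A) (hseg : ∀ z, A (seg z) = 0) {p q : V} (hpq : ON2 p q)
    (α β γ : ℝ) {c1 c2 : ℝ}
    (h : ∀ ψ, A (isoB (rot p q ψ) (tri (α • p) (β • p + γ • q))) =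
      Real.cos ψ * c1 + Real.sin ψ * c2) : c1 = 0 := by
  have hpi : 0 ≤ 2 * Real.pi := by positivity
  set κ : ℝ → ConvexBody V := fun ψ => (1 + Real.cos ψ) •
    isoB (rot p q ψ) (tri (α • p) (β • p + γ • q)) with hκ
  have hκ' : κ = fun ψ => (1 + Real.cos ψ) •
      tri (α • (Real.cos ψ • p + Real.sin ψ • q))
        (β • (Real.cos ψ • p + Real.sin ψ • q) +
          γ • ((-Real.sin ψ) • p + Real.cos ψ • q)) := by
    funext ψ
    rw [hκ]
    show (1 + Real.cos ψ) • isoB (rot p q ψ) (tri (α • p) (β • p + γ • q)) = _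
    rw [isoB_tri, map_add, map_smul, map_smul, map_smul, rot_p hpq, rot_q hpq]
  have hcont : Continuous κ := by
    rw [hκ']
    have e1 : Continuous (fun ψ : ℝ => ((α • (Real.cos ψ • p + Real.sin ψ • q),
        β • (Real.cos ψ • p + Real.sin ψ • q) +
          γ • ((-Real.sin ψ) • p + Real.cos ψ • q)) : V × V)) := by fun_prop
    have e2 := (K1aux.continuous_tri2 (V := V)).comp e1
    have e3 : Continuous (fun ψ : ℝ => 1 + Real.cos ψ) := by fun_prop
    exact (continuous_smul_body (V := V)).comp (e3.prodMk e2)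
  have hint : Integrable (fun ω => dist (κ ω) 0) (volume.restrict (Set.Ioc 0 (2 * Real.pi))) :=
    (hcont.dist continuous_const).integrableOn_Ioc
  obtain ⟨K, hK⟩ := exists_mint (volume.restrict (Set.Ioc 0 (2 * Real.pi))) κ
    hcont.aestronglyMeasurable hint
  have hAK := (hA.mint _ κ hcont.aestronglyMeasurable hint K hK).2
  have h1 : A K = Real.pi * c1 := by
    rw [hAK, ← int_trig c1 c2, intervalIntegral.integral_of_le hpi]
    refine integral_congr_ae (Filter.Eventually.of_forall fun ψ => ?_)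
    show A (κ ψ) = (1 + Real.cos ψ) * (Real.cos ψ * c1 + Real.sin ψ * c2)
    rw [hκ]
    show A ((1 + Real.cos ψ) • isoB (rot p q ψ) (tri (α • p) (β • p + γ • q))) = _
    rw [hA.smul (by linarith [Real.neg_one_le_cos ψ]), h ψ]
  -- `K` is a disc plus a point
  set H0 := ∫ x in (0 : ℝ)..(2 * Real.pi), rad α β γ x with hH0
  set Hc := ∫ x in (0 : ℝ)..(2 * Real.pi), Real.cos x * rad α β γ x with hHc
  set Hs := ∫ x in (0 : ℝ)..(2 * Real.pi), Real.sin x * rad α β γ x with hHs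
  have hH0' : 0 ≤ H0 := intervalIntegral.integral_nonneg hpi fun x _ => rad_nonneg _ _ _ _
  set T : V →L[ℝ] V := H0 • ((innerSL ℝ p).smulRight p + (innerSL ℝ q).smulRight q) with hT
  have hTv : ∀ v, T v = H0 • (⟪p, v⟫_ℝ • p + ⟪q, v⟫_ℝ • q) := fun v => rfl
  have hadj : ∀ v, ContinuousLinearMap.adjoint T v = H0 • (⟪p, v⟫_ℝ • p + ⟪q, v⟫_ℝ • q) := by
    intro v
    refine ext_inner_right ℝ fun x => ?_
    rw [ContinuousLinearMap.adjoint_inner_left, hTv, real_inner_smul_right,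
      real_inner_smul_left, inner_add_right, inner_add_left, real_inner_smul_right,
      real_inner_smul_right, real_inner_smul_left, real_inner_smul_left,
      real_inner_comm p v, real_inner_comm q v]
    ring
  have hKv : ∀ v, hs K v = hs (mapB T (ballB V) + pt (Hc • p + Hs • q)) v := by
    intro v
    rw [hs_add, hs_mapB, hs_ballB, hadj, hs_pt, inner_add_right, real_inner_smul_right,
      real_inner_smul_right]
    -- polar coordinates
    set z : ℂ := ⟨⟪p, v⟫_ℝ, ⟪q, v⟫_ℝ⟩ with hz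
    have hP : ⟪p, v⟫_ℝ = ‖z‖ * Real.cos z.arg := by
      rw [Complex.norm_mul_cos_arg]
    have hQ : ⟪q, v⟫_ℝ = ‖z‖ * Real.sin z.arg := by
      rw [Complex.norm_mul_sin_arg]
    generalize z.arg = θ at hP hQ
    have hr : 0 ≤ ‖z‖ := norm_nonneg z
    generalize ‖z‖ = r at hP hQ hr
    have hn : ‖H0 • (⟪p, v⟫_ℝ • p + ⟪q, v⟫_ℝ • q)‖ = H0 * r := by
      have e1 : ⟪p, v⟫_ℝ • p + ⟪q, v⟫_ℝ • q = r • (Real.cos θ • p + Real.sin θ • q) := by
        rw [hP, hQ, smul_add, smul_smul, smul_smul]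
      rw [e1, norm_smul, norm_smul, norm_cs hpq, Real.norm_of_nonneg hH0',
        Real.norm_of_nonneg hr, mul_one]
    rw [hn, hK, ← intervalIntegral.integral_of_le hpi, real_inner_comm p v, real_inner_comm q v,
      hP, hQ]
    have e2 : ∀ ψ, hs (κ ψ) v = r * ((1 + Real.cos ψ) * rad α β γ (θ - ψ)) := by
      intro ψ
      rw [hκ']
      show hs ((1 + Real.cos ψ) • tri (α • (Real.cos ψ • p + Real.sin ψ • q))
        (β • (Real.cos ψ • p + Real.sin ψ • q) +
          γ • ((-Real.sin ψ) • p + Real.cos ψ • q))) v = _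
      rw [hs_smul (by linarith [Real.neg_one_le_cos ψ]), hs_tri]
      have e3 : ⟪v, α • (Real.cos ψ • p + Real.sin ψ • q)⟫_ℝ =
          r * (α * Real.cos (θ - ψ)) := by
        rw [real_inner_smul_right, inner_add_right, real_inner_smul_right,
          real_inner_smul_right, real_inner_comm p v, real_inner_comm q v, hP, hQ,
          Real.cos_sub]
        ring
      have e4 : ⟪v, β • (Real.cos ψ • p + Real.sin ψ • q) +
          γ • ((-Real.sin ψ) • p + Real.cos ψ • q)⟫_ℝ =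
          r * (β * Real.cos (θ - ψ) + γ * Real.sin (θ - ψ)) := by
        rw [inner_add_right, real_inner_smul_right, real_inner_smul_right, inner_add_right,
          inner_add_right, real_inner_smul_right, real_inner_smul_right, real_inner_smul_right,
          real_inner_smul_right, real_inner_comm p v, real_inner_comm q v, hP, hQ,
          Real.cos_sub, Real.sin_sub]
        ring
      rw [e3, e4]
      unfold rad
      rw [← mul_add, ← mul_max_of_nonneg _ _ hr]
      have e5 : (0 : ℝ) = r * 0 := by ring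
      rw [e5, ← mul_max_of_nonneg _ _ hr, ← e5]
      ring
    simp_rw [e2]
    rw [intervalIntegral.integral_const_mul, int_rad, ← hH0, ← hHc, ← hHs]
    ring
  have hKeq := hs_ext hKv
  have h2 : A (mapB T (ballB V)) = 0 := by
    rw [disc_mint hA T (mapB T (ballB V)) (fun v => by rw [hs_mapB, hs_ballB])]
    have e6 : ∀ g : V, A (seg (T g)) = 0 := fun g => hseg _
    simp_rw [e6]
    rw [integral_zero, mul_zero]
  rw [hKeq, IsAdd_add_pt hA, h2] at h1
  have hpi' := Real.pi_ne_zero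
  rcases mul_eq_zero.1 h1.symm with h3 | h3
  · exact absurd h3 hpi'
  · exact h3

end Disc

section Steiner
variable {V : Type*} [NormedAddCommGroup V] [InnerProductSpace ℝ V] [FiniteDimensional ℝ V]
  [MeasurableSpace V] [BorelSpace V]
variable {φ : ConvexBody V → ℝ} {s : ConvexBody V → V}

/-- homogeneous components of `⟪y, s ·⟫` -/
noncomputable def Fc (s : ConvexBody V → V) (i : ℕ) (y : V) : ConvexBody V → ℝ :=
  comp i (fun K => ⟪y, s K⟫_ℝ)

theorem Fc_add (s : ConvexBody V → V) (i : ℕ) (y z : V) (K : ConvexBody V) :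
    Fc s i (y + z) K = Fc s i y K + Fc s i z K := by
  unfold Fc comp
  rw [← Finset.sum_add_distrib]
  refine Finset.sum_congr rfl fun k _ => ?_
  beta_reduce
  rw [inner_add_left]
  ring

theorem Fc_smul (s : ConvexBody V → V) (i : ℕ) (c : ℝ) (y : V) (K : ConvexBody V) :
    Fc s i (c • y) K = c * Fc s i y K := by
  unfold Fc comp
  rw [Finset.mul_sum]
  refine Finset.sum_congr rfl fun k _ => ?_
  beta_reduce
  rw [real_inner_smul_left]
  ring

theorem Fc_rot (heq : ∀ g : V ≃ₗᵢ[ℝ] V, Rot g → ∀ K, s (isoB g K) = g (s K))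
    (g : V ≃ₗᵢ[ℝ] V) (hg : Rot g) (i : ℕ) (y : V) (K : ConvexBody V) :
    Fc s i (g y) (isoB g K) = Fc s i y K := by
  unfold Fc comp
  refine Finset.sum_congr rfl fun k _ => ?_
  beta_reduce
  rw [← isoB_smul, heq g hg, g.inner_map_map]

theorem Ds_lin_add (s : ConvexBody V → V) (i : ℕ) (xs : List V) (y z : V) (K : ConvexBody V) :
    Ds xs (Fc s i (y + z)) K = Ds xs (Fc s i y) K + Ds xs (Fc s i z) K := by
  obtain ⟨m, c, L, hL⟩ := Ds_expand xs K
  rw [hL, hL, hL, ← Finset.sum_add_distrib]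
  refine Finset.sum_congr rfl fun k _ => ?_
  rw [Fc_add]
  ring

theorem Ds_lin_smul (s : ConvexBody V → V) (i : ℕ) (xs : List V) (a : ℝ) (y : V)
    (K : ConvexBody V) : Ds xs (Fc s i (a • y)) K = a * Ds xs (Fc s i y) K := by
  obtain ⟨m, c, L, hL⟩ := Ds_expand xs K
  rw [hL, hL, Finset.mul_sum]
  refine Finset.sum_congr rfl fun k _ => ?_
  rw [Fc_smul]
  ring

theorem Ds_lin_neg (s : ConvexBody V → V) (i : ℕ) (xs : List V) (y : V)
    (K : ConvexBody V) : Ds xs (Fc s i (-y)) K = -Ds xs (Fc s i y) K := by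
  rw [← neg_one_smul ℝ y, Ds_lin_smul, neg_one_mul]

theorem Ds_lin_zero (s : ConvexBody V → V) (i : ℕ) (xs : List V)
    (K : ConvexBody V) : Ds xs (Fc s i 0) K = 0 := by
  rw [← zero_smul ℝ (0 : V), Ds_lin_smul, zero_mul]

theorem Ds_sign (hφ : IsVal φ) (g : V → V) (xs : List V) (h : ∀ x ∈ xs, g x = x ∨ g x = -x) :
    Ds (xs.map g) φ = Ds xs φ := by
  induction xs with
  | nil => rfl
  | cons x xs ih =>
    rw [List.map_cons, Ds_cons, Ds_cons, ih (fun x hx => h x (List.mem_cons_of_mem _ hx))]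
    rcases h x List.mem_cons_self with h1 | h1
    · rw [h1]
    · rw [h1]
      funext K
      have h5 := D_smul (isVal_Ds hφ xs) x (-1) K
      rw [neg_one_smul, abs_neg, abs_one, one_mul] at h5
      exact h5

theorem B_rot (heq : ∀ g : V ≃ₗᵢ[ℝ] V, Rot g → ∀ K, s (isoB g K) = g (s K))
    (i : ℕ) (hval : ∀ y, IsVal (Fc s i y)) (g : V ≃ₗᵢ[ℝ] V) (hg : Rot g) (xs : List V)
    (h : ∀ x ∈ xs, g x = x ∨ g x = -x) (y : V) (K : ConvexBody V) :
    Ds xs (Fc s i (g y)) (isoB g K) = Ds xs (Fc s i y) K := by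
  rw [← Ds_sign (hval (g y)) g xs h, ← Ds_iso]
  have h1 : (fun L => Fc s i (g y) (isoB g L)) = Fc s i y := by
    funext L
    exact Fc_rot heq g hg i y L
  rw [h1]

theorem exists_perp (hn : 2 ≤ Module.finrank ℝ V) (p : V) (hp : ‖p‖ = 1) : ∃ q, ON2 p q := by
  obtain ⟨z, hz0, hz⟩ : ∃ z : V, z ≠ 0 ∧ ⟪p, z⟫_ℝ = 0 := by
    by_contra hcon
    push Not at hcon
    have h1 : Function.Injective ((innerSL ℝ p).toLinearMap) := by
      rw [← LinearMap.ker_eq_bot, LinearMap.ker_eq_bot']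
      intro m hm
      by_contra hm0
      exact hcon m hm0 hm
    have h3 := LinearMap.finrank_le_finrank_of_injective h1
    rw [Module.finrank_self] at h3
    omega
  have hn : ‖z‖ ≠ 0 := norm_ne_zero_iff.2 hz0
  refine ⟨‖z‖⁻¹ • z, hp, ?_, ?_⟩
  · rw [norm_smul, norm_inv, norm_norm, inv_mul_cancel₀ hn]
  · rw [real_inner_smul_right, hz, mul_zero]

theorem ONL.eq_or {xs : List V} (h : ONL xs) {x y : V} (hx : x ∈ xs) (hy : y ∈ xs) :
    x = y ∨ ⟪x, y⟫_ℝ = 0 := by
  have h1 : xs.Pairwise (fun x y => x = y ∨ ⟪x, y⟫_ℝ = 0) := h.2.imp fun h => Or.inr h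
  have h2 : Std.Symm (fun x y : V => x = y ∨ ⟪x, y⟫_ℝ = 0) :=
    { symm := fun x y hxy => by
        rcases hxy with h | h
        · exact Or.inl h.symm
        · exact Or.inr (by rw [real_inner_comm]; exact h) }
  exact List.Pairwise.forall_of_forall (R := fun x y => x = y ∨ ⟪x, y⟫_ℝ = 0)
    (fun x _ => Or.inl rfl) h1 hx hy

/-- segments are killed -/
theorem st_seg (hn : 2 ≤ Module.finrank ℝ V)
    (heq : ∀ g : V ≃ₗᵢ[ℝ] V, Rot g → ∀ K, s (isoB g K) = g (s K))
    (i : ℕ) (hval : ∀ y, IsVal (Fc s i y)) {xs : List V} (ho : ONL xs)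
    (e : V) (he : ‖e‖ = 1) (hxe : ∀ x ∈ xs, ⟪x, e⟫_ℝ = 0) (y : V) :
    Ds xs (Fc s i y) (seg e) = 0 := by
  have hneg : ∀ f, ON2 e f → (∀ x ∈ xs, rot e f Real.pi x = x ∨ rot e f Real.pi x = -x) →
      ∀ y, rot e f Real.pi y = -y → Ds xs (Fc s i y) (seg e) = 0 := by
    intro f hef hsg y hy
    have h1 := B_rot heq i hval (rot e f Real.pi) (rot_Rot hef _) xs hsg y (seg e)
    rw [isoB_seg, rot_pi_p hef, hy] at h1
    have h2 : Ds xs (Fc s i (-y)) (seg e) = Ds xs (Fc s i (-y)) (seg (-e)) := by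
      rw [← seg_neg e, (isVal_Ds (hval _) xs).trans]
    rw [← h2, Ds_lin_neg] at h1
    linarith
  have hx : ∀ x ∈ xs, Ds xs (Fc s i x) (seg e) = 0 ∧ Ds xs (Fc s i e) (seg e) = 0 := by
    intro x hx
    have hex : ON2 e x := ⟨he, ho.1 x hx, by rw [real_inner_comm]; exact hxe x hx⟩
    have hsg : ∀ x' ∈ xs, rot e x Real.pi x' = x' ∨ rot e x Real.pi x' = -x' := by
      intro x' hx'
      rcases ho.eq_or hx hx' with h1 | h1
      · right
        rw [← h1]
        exact rot_pi_q hex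
      · left
        refine rot_fix hex _ ?_ h1
        rw [real_inner_comm]
        exact hxe x' hx'
    exact ⟨hneg x hex hsg x (rot_pi_q hex), hneg x hex hsg e (rot_pi_p hex)⟩
  have hee : Ds xs (Fc s i e) (seg e) = 0 := by
    match xs, hx, hneg with
    | [], _, hneg =>
      obtain ⟨f, hf⟩ := exists_perp hn e he
      exact hneg f hf (fun x hx => by simp at hx) e (rot_pi_p hf)
    | x :: xs, hx, _ => exact (hx x List.mem_cons_self).2
  have hperp : ∀ y, ⟪e, y⟫_ℝ = 0 → (∀ x ∈ xs, ⟪x, y⟫_ℝ = 0) →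
      Ds xs (Fc s i y) (seg e) = 0 := by
    intro y hy1 hy2
    by_cases hy0 : y = 0
    · rw [hy0, Ds_lin_zero]
    · have hny : ‖y‖ ≠ 0 := norm_ne_zero_iff.2 hy0
      have hef : ON2 e (‖y‖⁻¹ • y) := by
        refine ⟨he, ?_, ?_⟩
        · rw [norm_smul, norm_inv, norm_norm, inv_mul_cancel₀ hny]
        · rw [real_inner_smul_right, hy1, mul_zero]
      have h1 := hneg _ hef (fun x hx => Or.inl (rot_fix hef _ (by
        rw [real_inner_comm]; exact hxe x hx) (by
        rw [real_inner_smul_left, real_inner_comm, hy2 x hx, mul_zero]))) _ (rot_pi_q hef)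
      rw [Ds_lin_smul] at h1
      rcases mul_eq_zero.1 h1 with h2 | h2
      · exact absurd h2 (inv_ne_zero hny)
      · exact h2
  obtain ⟨P, hP1, hP2, hP3⟩ := proj_props' xs
  have hspan : ∀ z ∈ Submodule.span ℝ {x | x ∈ xs}, Ds xs (Fc s i z) (seg e) = 0 := by
    intro z hz
    refine Submodule.span_induction (p := fun z _ => Ds xs (Fc s i z) (seg e) = 0) ?_ ?_ ?_ ?_ hz
    · intro x hx'
      exact (hx x hx').1
    · exact Ds_lin_zero _ _ _ _
    · intro a b _ _ ha hb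
      rw [Ds_lin_add, ha, hb, add_zero]
    · intro c x _ h
      rw [Ds_lin_smul, h, mul_zero]
  have hy : y = (y - P y) + (⟪e, P y⟫_ℝ • e + (P y - ⟪e, P y⟫_ℝ • e)) := by abel
  have hee' : ⟪e, e⟫_ℝ = 1 := by rw [real_inner_self_eq_norm_sq, he]; norm_num
  rw [hy, Ds_lin_add, Ds_lin_add, hspan _ (hP3 y), Ds_lin_smul, hee, hperp]
  · ring
  · rw [inner_sub_right, real_inner_smul_right, hee']
    ring
  · intro x hx'
    rw [inner_sub_right, real_inner_smul_right, hP1 y x hx', hxe x hx']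
    ring

/-- triangles are killed -/
theorem st_tri (heq : ∀ g : V ≃ₗᵢ[ℝ] V, Rot g → ∀ K, s (isoB g K) = g (s K))
    (i : ℕ) (hval : ∀ y, IsVal (Fc s i y)) {xs : List V}
    (hB : ∀ y, IsAdd (Ds xs (Fc s i y))) (hseg : ∀ y z, Ds xs (Fc s i y) (seg z) = 0)
    (a b y : V) : Ds xs (Fc s i y) (tri a b) = 0 := by
  obtain ⟨P, hP1, hP2⟩ := proj_props xs
  have h1 : Ds xs (Fc s i y) (tri a b) = Ds xs (Fc s i y) (tri (P a) (P b)) :=
    Ds_congr (hval y) xs fun v hv => by
      rw [hs_tri, hs_tri, hP2 v hv, hP2 v hv]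
  rw [h1]
  have ha := hP1 a
  have hb := hP1 b
  generalize P a = a' at *
  generalize P b = b' at *
  by_cases ha0 : a' = 0
  · exact tri_deg (hB y) (hseg y) (Or.inl ha0)
  by_cases hb0 : ∃ c : ℝ, b' = c • a'
  · exact tri_deg (hB y) (hseg y) (Or.inr hb0)
  push Not at hb0
  obtain ⟨p, q, hpq, ⟨c1, hc1⟩, ⟨c2, c3, hc2⟩, ⟨α, hα⟩, ⟨β, γ, hβ⟩⟩ := plane ha0 hb0
  have hyp : ∀ y ∈ xs, ⟪p, y⟫_ℝ = 0 := by
    intro y hy
    rw [hc1, real_inner_comm, real_inner_smul_right, ha y hy, mul_zero]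
  have hyq : ∀ y ∈ xs, ⟪q, y⟫_ℝ = 0 := by
    intro y hy
    rw [hc2, real_inner_comm, inner_add_right, real_inner_smul_right, real_inner_smul_right,
      ha y hy, hb y hy, mul_zero, mul_zero, add_zero]
  have hfix : ∀ ψ, ∀ x ∈ xs, rot p q ψ x = x ∨ rot p q ψ x = -x := fun ψ x hx =>
    Or.inl (rot_fix hpq ψ (hyp x hx) (hyq x hx))
  have hperp : ∀ y, ⟪p, y⟫_ℝ = 0 → ⟪q, y⟫_ℝ = 0 → Ds xs (Fc s i y) (tri a' b') = 0 := by
    intro y hy1 hy2
    refine kill_tri (hB y) (hseg y) ?_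
    rw [← half_tri hpq hα hβ]
    have h2 := B_rot heq i hval (rot p q Real.pi) (rot_Rot hpq _) xs (hfix _) y (tri a' b')
    rw [rot_fix hpq _ hy1 hy2] at h2
    exact h2
  have hp : Ds xs (Fc s i p) (tri a' b') = 0 := by
    refine disc_avg (hB p) (hseg p) hpq α β γ (c2 := -Ds xs (Fc s i q) (tri a' b')) fun ψ => ?_
    rw [← hα, ← hβ]
    have h3 : rot p q ψ (Real.cos ψ • p + (-Real.sin ψ) • q) = p := by
      rw [map_add, map_smul, map_smul, rot_p hpq, rot_q hpq]
      have h4 := Real.cos_sq_add_sin_sq ψ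
      have h5 : Real.cos ψ • (Real.cos ψ • p + Real.sin ψ • q) +
          (-Real.sin ψ) • ((-Real.sin ψ) • p + Real.cos ψ • q) =
          (Real.cos ψ ^ 2 + Real.sin ψ ^ 2) • p := by module
      rw [h5, h4, one_smul]
    have h2 := B_rot heq i hval (rot p q ψ) (rot_Rot hpq _) xs (hfix _)
      (Real.cos ψ • p + (-Real.sin ψ) • q) (tri a' b')
    rw [h3] at h2
    rw [h2, Ds_lin_add, Ds_lin_smul, Ds_lin_smul]
    ring
  have hq : Ds xs (Fc s i q) (tri a' b') = 0 := by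
    refine disc_avg (hB q) (hseg q) hpq α β γ (c2 := Ds xs (Fc s i p) (tri a' b')) fun ψ => ?_
    rw [← hα, ← hβ]
    have h3 : rot p q ψ (Real.sin ψ • p + Real.cos ψ • q) = q := by
      rw [map_add, map_smul, map_smul, rot_p hpq, rot_q hpq]
      have h4 := Real.cos_sq_add_sin_sq ψ
      have h5 : Real.sin ψ • (Real.cos ψ • p + Real.sin ψ • q) +
          Real.cos ψ • ((-Real.sin ψ) • p + Real.cos ψ • q) =
          (Real.cos ψ ^ 2 + Real.sin ψ ^ 2) • q := by module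
      rw [h5, h4, one_smul]
    have h2 := B_rot heq i hval (rot p q ψ) (rot_Rot hpq _) xs (hfix _)
      (Real.sin ψ • p + Real.cos ψ • q) (tri a' b')
    rw [h3] at h2
    rw [h2, Ds_lin_add, Ds_lin_smul, Ds_lin_smul]
    ring
  have hy : y = ⟪p, y⟫_ℝ • p + (⟪q, y⟫_ℝ • q + (y - ⟪p, y⟫_ℝ • p - ⟪q, y⟫_ℝ • q)) := by abel
  rw [hy, Ds_lin_add, Ds_lin_add, Ds_lin_smul, Ds_lin_smul, hp, hq, hperp]
  · ring
  · rw [inner_sub_right, inner_sub_right, real_inner_smul_right, real_inner_smul_right,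
      hpq.pp, hpq.pq]
    ring
  · rw [inner_sub_right, inner_sub_right, real_inner_smul_right, real_inner_smul_right,
      hpq.qq, hpq.qp]
    ring

theorem st_comp (hn : 2 ≤ Module.finrank ℝ V) (hs : ∀ y, IsVal (fun K => ⟪y, s K⟫_ℝ))
    (heq : ∀ g : V ≃ₗᵢ[ℝ] V, Rot g → ∀ K, s (isoB g K) = g (s K)) {j : ℕ}
    (hj : j + 1 ≤ Module.finrank ℝ V) (y : V) (K : ConvexBody V) : Fc s (j + 1) y K = 0 := by
  have hval : ∀ y, IsVal (Fc s (j + 1) y) := fun y => isVal_comp (hs y) _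
  have hhom : ∀ y, IsHom (j + 1) (Fc s (j + 1) y) := fun y => comp_isHom (hs y) hj
  refine zero_of_Ds (hval y) (hhom y) ?_ K
  intro xs hl ho K
  rw [on_iff] at ho
  have hB : ∀ y, IsAdd (Ds xs (Fc s (j + 1) y)) := by
    intro y
    refine (isVal_Ds (hval y) xs).isAdd ?_
    refine Ds_hom (hval y) xs ?_
    rw [hl, add_comm]
    exact hhom y
  obtain ⟨P, hP1, hP2⟩ := proj_props xs
  have hseg : ∀ y z, Ds xs (Fc s (j + 1) y) (seg z) = 0 := by
    intro y z
    have h1 : Ds xs (Fc s (j + 1) y) (seg z) = Ds xs (Fc s (j + 1) y) (seg (P z)) :=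
      Ds_congr (hval y) xs fun v hv => by rw [hs_seg, hs_seg, hP2 v hv]
    rw [h1]
    by_cases hz : P z = 0
    · rw [hz, seg_zero, IsAdd_zero (hB y)]
    · have hnz : ‖P z‖ ≠ 0 := norm_ne_zero_iff.2 hz
      have e1 : P z = ‖P z‖ • (‖P z‖⁻¹ • P z) := (smul_inv_smul₀ hnz _).symm
      rw [e1, ← smul_seg (norm_nonneg _), (hB y).smul (norm_nonneg _),
        st_seg hn heq (j + 1) hval ho, mul_zero]
      · rw [norm_smul, norm_inv, norm_norm, inv_mul_cancel₀ hnz]
      · intro x hx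
        rw [real_inner_smul_right, hP1 z x hx, mul_zero]
  exact K1 (hB y) (hseg y) (fun a b => st_tri heq (j + 1) hval hB hseg a b y) K

theorem st_comp_zero (hn : 2 ≤ Module.finrank ℝ V) (hs : ∀ y, IsVal (fun K => ⟪y, s K⟫_ℝ))
    (heq : ∀ g : V ≃ₗᵢ[ℝ] V, Rot g → ∀ K, s (isoB g K) = g (s K))
    (y : V) (K : ConvexBody V) : Fc s 0 y K = 0 := by
  have hval : IsVal (Fc s 0 y) := isVal_comp (hs y) _
  have hhom : IsHom 0 (Fc s 0 y) := comp_isHom (hs y) (Nat.zero_le _)
  rw [IsHom.deg_zero hval hhom K]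
  by_cases hy0 : y = 0
  · rw [hy0, ← zero_smul ℝ (0 : V), Fc_smul, zero_mul]
  · have hny : ‖y‖ ≠ 0 := norm_ne_zero_iff.2 hy0
    have hp1 : ‖‖y‖⁻¹ • y‖ = 1 := by rw [norm_smul, norm_inv, norm_norm, inv_mul_cancel₀ hny]
    obtain ⟨q, hq⟩ := exists_perp hn _ hp1
    have h1 := Fc_rot heq (rot (‖y‖⁻¹ • y) q Real.pi) (rot_Rot hq _) 0 (‖y‖⁻¹ • y) 0
    rw [rot_pi_p hq, isoB_zero, ← neg_one_smul ℝ (‖y‖⁻¹ • y), Fc_smul, Fc_smul] at h1
    have h2 : ‖y‖⁻¹ * Fc s 0 y 0 = 0 := by linarith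
    rcases mul_eq_zero.1 h2 with h3 | h3
    · exact absurd h3 (inv_ne_zero hny)
    · exact h3

end Steiner

end ZonalU

/-! ### module ZonalU (ZonalU.lean): uniqueness for zonal and for rotation invariant valuations -/

section ZonalU
variable {V : Type*} [NormedAddCommGroup V] [InnerProductSpace ℝ V] [FiniteDimensional ℝ V]
  [MeasurableSpace V] [BorelSpace V]
variable {φ : ConvexBody V → ℝ}

/-- U* -/
theorem zonal_zero_of_D (hφ : IsVal φ) {j : ℕ} (hj : IsHom j φ) (h2 : 2 ≤ j)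
    (hjn : j < Module.finrank ℝ V) (u : V) (hu : ‖u‖ = 1) (hz : Zonal u φ)
    (h : ∀ x, ⟪u, x⟫_ℝ = 0 → ∀ K, D x φ K = 0) (K : ConvexBody V) : φ K = 0 :=
  ZonalU.zero_of_D_perp hφ hj h2 u (ZonalU.Zw_of_Zonal hz) h K

/-- U'' -/
theorem zonal_unique (hφ : IsVal φ) {j : ℕ} (hj : IsHom (j + 1) φ)
    (hjn : j + 1 < Module.finrank ℝ V) (u : V) (hu : ‖u‖ = 1) (hz : Zonal u φ)
    (h : ∀ xs : List V, xs.length = j → Orthonormal ℝ (fun i : Fin xs.length => xs.get i) →
      (∀ x ∈ xs, ⟪u, x⟫_ℝ = 0) → ∀ K, Ds xs φ K = 0) (K : ConvexBody V) : φ K = 0 :=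
  ZonalU.zonal_aux j V φ hφ hj u (ZonalU.Zw_of_Zonal hz)
    (fun xs hl ho hx K => h xs hl ((ZonalU.on_iff xs).2 ho) hx K) K

/-- Hadwiger uniqueness in degree `j + 1` -/
theorem hadwiger_unique (hφ : IsVal φ) {j : ℕ} (hj : IsHom (j + 1) φ)
    (hinv : ∀ g : V ≃ₗᵢ[ℝ] V, Rot g → ∀ K, φ (isoB g K) = φ K)
    (xs : List V) (hl : xs.length = j + 1)
    (ho : Orthonormal ℝ (fun i : Fin xs.length => xs.get i))
    (h0 : Ds xs φ 0 = 0) (K : ConvexBody V) : φ K = 0 :=
  ZonalU.had_aux hφ hj hinv xs hl ((ZonalU.on_iff xs).1 ho) h0 K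

/-- Steiner point lemma: equivariant translation invariant vector valued valuations vanish -/
theorem steiner_unique (hn : 3 ≤ Module.finrank ℝ V) (s : ConvexBody V → V)
    (hs : ∀ y, IsVal (fun K => ⟪y, s K⟫_ℝ))
    (heq : ∀ g : V ≃ₗᵢ[ℝ] V, Rot g → ∀ K, s (isoB g K) = g (s K)) (K : ConvexBody V) :
    s K = 0 := by
  have hn2 : 2 ≤ Module.finrank ℝ V := by omega
  have h1 : ∀ y, ⟪y, s K⟫_ℝ = 0 := by
    intro y
    have h2 := sum_comp (hs y) K
    beta_reduce at h2
    rw [h2]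
    refine Finset.sum_eq_zero fun j hj => ?_
    rw [Finset.mem_range] at hj
    rcases j with _ | j
    · exact ZonalU.st_comp_zero hn2 hs heq y K
    · exact ZonalU.st_comp hn2 hs heq (by omega) y K
  exact inner_self_eq_zero.1 (h1 (s K))

end ZonalU
end MV
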