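import Pool.Agent.Lib.MP_f30071_gt.MVal
import Pool.Agent.Lib.MP_f30071_gt.MW
import Pool.Agent.Lib.MP_f30071_gt.ZonalU
import Pool.Agent.Lib.MP_f30071_gt.Vol
import Pool.Agent.Lib.MP_f30071_gt.Stein

/-! Classification, part A: difference body, mean width identity -/

open MeasureTheory ProbabilityTheory Filter Topology Set
open scoped InnerProductSpace Pointwise NNReal ENNReal

set_option linter.unusedSectionVars false
set_option linter.unusedVariables false

namespace MV

section FinA
variable {V : Type*} [NormedAddCommGroup V] [InnerProductSpace ℝ V] [FiniteDimensional ℝ V]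
  [MeasurableSpace V] [BorelSpace V]
variable {Φ : ConvexBody V → ConvexBody V}

/-- difference body -/
noncomputable def Dif (K : ConvexBody V) : ConvexBody V := K + (-1 : ℝ) • K

theorem hs_Dif (K : ConvexBody V) (v : V) : hs (Dif K) v = hs K v + hs K (-v) := by
  unfold Dif
  rw [hs_add, hs_neg_one_smul]

theorem isMVal_Dif : IsMVal (Dif : ConvexBody V → ConvexBody V) where
  cont := continuous_id.add (continuous_const_smul _)
  val := by
    intro K L M N hM hN
    apply hs_ext
    intro v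
    rw [hs_add, hs_add, hs_Dif, hs_Dif, hs_Dif, hs_Dif]
    have h1 := hs_val K L M N hM hN v
    have h2 := hs_val K L M N hM hN (-v)
    linarith
  trans := by
    intro K x
    apply hs_ext
    intro v
    rw [hs_Dif, hs_Dif, hs_add, hs_add, hs_pt, hs_pt, inner_neg_left]
    ring
  equi := by
    intro g _ K
    apply hs_ext
    intro v
    rw [hs_Dif, hs_isoB, hs_isoB, hs_isoB, hs_Dif, map_neg]

theorem Dif_smul {c : ℝ} (hc : 0 ≤ c) (K : ConvexBody V) : Dif (c • K) = c • Dif K := by
  apply hs_ext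
  intro v
  rw [hs_Dif, hs_smul hc, hs_smul hc, hs_smul hc, hs_Dif]
  ring

theorem FF_Dif_hom (y : V) : IsHom 1 (FF (Dif : ConvexBody V → ConvexBody V) y) := by
  intro c K hc
  unfold FF
  rw [Dif_smul hc, hs_smul hc, pow_one]

theorem FF_PiB_hom (y : V) :
    IsHom (Module.finrank ℝ V - 1) (FF (PiB : ConvexBody V → ConvexBody V) y) := by
  intro c K hc
  unfold FF
  rw [PiB_hom hc, hs_smul (pow_nonneg hc _)]

theorem wd_Dif (K : ConvexBody V) : wd (hs (Dif K)) = 2 * wd (hs K) := by
  unfold wd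
  have h1 : ∀ z, hs (Dif K) z = hs K z + hs K (-z) := hs_Dif K
  simp only [h1]
  have hi : Integrable (hs K) (stdGaussian V) := (hs_sublin K).integrable
  have hi2 : Integrable (fun z => hs K (-z)) (stdGaussian V) := by
    have := MW.mp_neg (V := V)
    exact this.integrable_comp_of_integrable hi
  rw [integral_add hi hi2, MW.int_neg (hs K)]
  ring

theorem Nt_Dif (t : ℝ) (u : V) (K : ConvexBody V) :
    Nt t u (hs (Dif K)) = 2 * Nt t u (hs K) := by
  have h1 : (fun v => hs (Dif K) v) = fun v => ∑ i : Fin 2, (fun _ => (1 : ℝ)) i *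
      (fun i : Fin 2 => hs (if i = 0 then K else (-1 : ℝ) • K)) i v := by
    funext v
    simp [Fin.sum_univ_two, hs_Dif, hs_neg_one_smul]
  have h2 := Nt_sum_hs Finset.univ (fun _ : Fin 2 => (1 : ℝ))
    (fun i : Fin 2 => if i = 0 then K else (-1 : ℝ) • K) t u
  have h3 : (hs (Dif K)) = fun v => hs (Dif K) v := rfl
  rw [h3, h1, h2]
  simp only [Fin.sum_univ_two, Fin.isValue, if_true, one_mul, one_ne_zero, if_false]
  have h4 := Nt_isom (LinearIsometryEquiv.neg ℝ : V ≃ₗᵢ[ℝ] V) t u (hs K)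
  have h5 : (fun v => hs K ((LinearIsometryEquiv.neg ℝ : V ≃ₗᵢ[ℝ] V).symm v)) =
      hs ((-1 : ℝ) • K) := by
    funext v
    rw [hs_neg_one_smul]
    simp
  have h6 : (LinearIsometryEquiv.neg ℝ : V ≃ₗᵢ[ℝ] V) u = -u := by simp
  rw [h5, h6, Nt_neg] at h4
  rw [h4]
  ring

theorem N0_Dif (u : V) (K : ConvexBody V) : N0 u (hs (Dif K)) = 2 * N0 u (hs K) := by
  have h1 := Nt_tendsto (hs_sublin (Dif K)) u
  have h2 := (Nt_tendsto (hs_sublin K) u).const_mul 2
  simp only [Nt_Dif] at h1
  exact tendsto_nhds_unique h1 h2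

/-! limits of finite combinations -/

theorem comp_tendsto {ι : Type*} {l : Filter ι} {f : ι → ConvexBody V → ℝ}
    {g : ConvexBody V → ℝ} (h : ∀ K, Tendsto (fun i => f i K) l (𝓝 (g K))) (j : ℕ)
    (K : ConvexBody V) : Tendsto (fun i => comp j (f i) K) l (𝓝 (comp j g K)) := by
  unfold comp
  apply tendsto_finsetSum
  intro k _
  exact (h _).const_mul _

theorem Ds_tendsto {ι : Type*} {l : Filter ι} {f : ι → ConvexBody V → ℝ}
    {g : ConvexBody V → ℝ} (h : ∀ K, Tendsto (fun i => f i K) l (𝓝 (g K))) (xs : List V)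
    (K : ConvexBody V) : Tendsto (fun i => Ds xs (f i) K) l (𝓝 (Ds xs g K)) := by
  obtain ⟨m, c, L, hL⟩ := Ds_expand xs K
  simp only [hL]
  apply tendsto_finsetSum
  intro k _
  exact (h _).const_mul _

/-- linearity of `Ds` -/
theorem Ds_lin (xs : List V) (f g : ConvexBody V → ℝ) (a b : ℝ) (K : ConvexBody V) :
    Ds xs (fun L => a * f L + b * g L) K = a * Ds xs f K + b * Ds xs g K := by
  obtain ⟨m, c, L, hL⟩ := Ds_expand xs K
  rw [hL, hL, hL, Finset.mul_sum, Finset.mul_sum, ← Finset.sum_add_distrib]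
  apply Finset.sum_congr rfl
  intro i _
  ring

theorem comp_lin (j : ℕ) (f g : ConvexBody V → ℝ) (a b : ℝ) (K : ConvexBody V) :
    comp j (fun L => a * f L + b * g L) K = a * comp j f K + b * comp j g K := by
  unfold comp
  rw [Finset.mul_sum, Finset.mul_sum, ← Finset.sum_add_distrib]
  apply Finset.sum_congr rfl
  intro i _
  ring

theorem Ds_zero_fun (xs : List V) (K : ConvexBody V) : Ds xs (fun _ => (0 : ℝ)) K = 0 := by
  obtain ⟨m, c, L, hL⟩ := Ds_expand xs K
  rw [hL]
  simp

theorem comp_zero_fun (j : ℕ) (K : ConvexBody V) : comp j (fun _ => (0 : ℝ)) K = 0 := by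
  unfold comp; simp

/-- `Ds` of a homogeneous valuation at zero vanishes unless the length is the degree -/
theorem Ds_hom_ne {φ : ConvexBody V → ℝ} (hφ : IsVal φ) {i : ℕ} (hi : IsHom i φ) (xs : List V)
    (h : xs.length ≠ i) : Ds xs φ 0 = 0 := by
  rcases lt_or_gt_of_ne h with h1 | h1
  · have h2 : IsHom ((i - xs.length - 1 + 1) + xs.length) φ := by
      have : (i - xs.length - 1 + 1) + xs.length = i := by omega
      rw [this]; exact hi
    exact IsHom.zero_body (Ds_hom hφ xs h2)
  · exact Ds_hom_lt hφ xs hi h1 0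

/-- `Ds` of length `j` at zero only sees degree `j` -/
theorem Ds_comp_at_zero {φ : ConvexBody V → ℝ} (hφ : IsVal φ) (xs : List V)
    (h : xs.length ≤ Module.finrank ℝ V) : Ds xs (comp xs.length φ) 0 = Ds xs φ 0 := by
  have h1 := Ds_comp hφ xs 0 (by simpa using h) 0
  rw [zero_add] at h1
  rw [← h1, comp_zero (isVal_Ds hφ xs)]

end FinA
end MV
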