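import Pool.Agent.Lib.MP_f30071_gt.FinA

/-! Classification, part B: mean width identity -/

open MeasureTheory ProbabilityTheory Filter Topology Set
open scoped InnerProductSpace Pointwise NNReal ENNReal

set_option linter.unusedSectionVars false
set_option linter.unusedVariables false

namespace MV

section FinB
variable {V : Type*} [NormedAddCommGroup V] [InnerProductSpace ℝ V] [FiniteDimensional ℝ V]
  [MeasurableSpace V] [BorelSpace V]
variable {Φ : ConvexBody V → ConvexBody V}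

/-- expansion of `Ds xs (comp j φ) K` -/
theorem DsComp_expand (xs : List V) (j : ℕ) (K : ConvexBody V) :
    ∃ (s : Finset (ℕ × ℕ)) (c : ℕ × ℕ → ℝ) (L : ℕ × ℕ → ConvexBody V),
      ∀ φ : ConvexBody V → ℝ, Ds xs (comp j φ) K = ∑ p ∈ s, c p * φ (L p) := by
  obtain ⟨m, c, L, hL⟩ := Ds_expand xs K
  refine ⟨Finset.range m ×ˢ Finset.range (Module.finrank ℝ V + 1),
    fun p => (if h : p.1 < m then c ⟨p.1, h⟩ else 0) * lc (Module.finrank ℝ V) j p.2,
    fun p => (p.2 : ℝ) • (if h : p.1 < m then L ⟨p.1, h⟩ else 0), ?_⟩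
  intro φ
  rw [hL, Finset.sum_product, Finset.sum_fin_eq_sum_range]
  apply Finset.sum_congr rfl
  intro i hi
  rw [Finset.mem_range] at hi
  simp only [hi, dif_pos]
  unfold comp
  rw [Finset.mul_sum]
  apply Finset.sum_congr rfl
  intro k _
  ring

theorem DsComp_Nt (Ψ : ConvexBody V → ConvexBody V) (t : ℝ) (u : V) (xs : List V) (j : ℕ)
    (K : ConvexBody V) :
    Ds xs (comp j (fun L => Nt t u (hs (Ψ L)))) K =
      Nt t u (fun y => Ds xs (comp j (FF Ψ y)) K) := by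
  obtain ⟨s, a, L, h⟩ := DsComp_expand xs j K
  simp only [h, FF]
  exact (Nt_sum_hs s a (fun i => Ψ (L i)) t u).symm

theorem DsComp_wd (Ψ : ConvexBody V → ConvexBody V) (xs : List V) (j : ℕ)
    (K : ConvexBody V) :
    Ds xs (comp j (fun L => wd (hs (Ψ L)))) K =
      wd (fun y => Ds xs (comp j (FF Ψ y)) K) := by
  obtain ⟨s, a, L, h⟩ := DsComp_expand xs j K
  simp only [h, FF]
  exact (wd_sum_hs s a (fun i => Ψ (L i))).symm

theorem wd_iso (g : V ≃ₗᵢ[ℝ] V) (M : ConvexBody V) : wd (hs (isoB g M)) = wd (hs M) := by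
  unfold wd
  have h1 := gauss_isometry g.symm
  conv_rhs => rw [← h1]
  rw [integral_map g.symm.continuous.measurable.aemeasurable
    (continuous_hs_right M).aestronglyMeasurable]
  apply integral_congr_ae
  filter_upwards with z
  rw [hs_isoB]

/-- the mean width defect -/
noncomputable def Rw (Φ : ConvexBody V → ConvexBody V) (κ₁ κₙ : ℝ) (K : ConvexBody V) : ℝ :=
  wd (hs (Φ K)) - κ₁ / 2 * wd (hs (Dif K)) - κₙ * wd (hs (PiB K))

theorem isVal_Rw (hΦ : IsMVal Φ) (κ₁ κₙ : ℝ) : IsVal (Rw Φ κ₁ κₙ) :=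
  ((isVal_wd hΦ).sub ((isVal_wd isMVal_Dif).const_mul (κ₁ / 2))).sub
    ((isVal_wd isMVal_PiB).const_mul κₙ)

theorem Rw_iso (hΦ : IsMVal Φ) (κ₁ κₙ : ℝ) (g : V ≃ₗᵢ[ℝ] V) (hg : Rot g) (K : ConvexBody V) :
    Rw Φ κ₁ κₙ (isoB g K) = Rw Φ κ₁ κₙ K := by
  unfold Rw
  rw [hΦ.equi g hg, isMVal_Dif.equi g hg, isMVal_PiB.equi g hg, wd_iso, wd_iso, wd_iso]

theorem Ds_Rw (κ₁ κₙ : ℝ) (xs : List V) (K : ConvexBody V) :
    Ds xs (Rw Φ κ₁ κₙ) K = wd (fun y => Ds xs (FF Φ y) K)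
      - κ₁ / 2 * wd (fun y => Ds xs (FF Dif y) K) - κₙ * wd (fun y => Ds xs (FF PiB y) K) := by
  obtain ⟨m, c, L, hL⟩ := Ds_expand xs K
  simp only [hL]
  have h1 : ∀ Ψ : ConvexBody V → ConvexBody V,
      wd (fun y => ∑ i, c i * FF Ψ y (L i)) = ∑ i, c i * wd (hs (Ψ (L i))) :=
    fun Ψ => wd_sum_hs Finset.univ c (fun i => Ψ (L i))
  rw [h1, h1, h1, Finset.mul_sum, Finset.mul_sum, ← Finset.sum_sub_distrib,
    ← Finset.sum_sub_distrib]
  apply Finset.sum_congr rfl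
  intro i _
  unfold Rw
  ring

theorem DsComp_Rw (κ₁ κₙ : ℝ) (xs : List V) (j : ℕ) (K : ConvexBody V) :
    Ds xs (comp j (Rw Φ κ₁ κₙ)) K = wd (fun y => Ds xs (comp j (FF Φ y)) K)
      - κ₁ / 2 * wd (fun y => Ds xs (comp j (FF Dif y)) K)
      - κₙ * wd (fun y => Ds xs (comp j (FF PiB y)) K) := by
  obtain ⟨s, c, L, hL⟩ := DsComp_expand xs j K
  simp only [hL]
  have h1 : ∀ Ψ : ConvexBody V → ConvexBody V,
      wd (fun y => ∑ i ∈ s, c i * FF Ψ y (L i)) = ∑ i ∈ s, c i * wd (hs (Ψ (L i))) :=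
    fun Ψ => wd_sum_hs s c (fun i => Ψ (L i))
  rw [h1, h1, h1, Finset.mul_sum, Finset.mul_sum, ← Finset.sum_sub_distrib,
    ← Finset.sum_sub_distrib]
  apply Finset.sum_congr rfl
  intro i _
  unfold Rw
  ring

/-- crease hypothesis -/
def Cr (Φ : ConvexBody V → ConvexBody V) (κ₁ κₙ : ℝ) : Prop :=
  ∀ (u : V) (K : ConvexBody V), ‖u‖ = 1 →
      N0 u (hs (Φ K)) = κ₁ * N0 u (hs K) + κₙ * N0 u (hs (PiB K))

variable {κ₁ κₙ : ℝ}

theorem Cr.tendsto (hD : Cr Φ κ₁ κₙ) (u : V) (hu : ‖u‖ = 1) (K : ConvexBody V) :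
    Tendsto (fun t => Nt t u (hs (Φ K)) - κ₁ / 2 * Nt t u (hs (Dif K)) -
      κₙ * Nt t u (hs (PiB K))) (𝓝[>] (0 : ℝ)) (𝓝 0) := by
  have h1 := Nt_tendsto (hs_sublin (Φ K)) u
  have h2 := (Nt_tendsto (hs_sublin (Dif K)) u).const_mul (κ₁ / 2)
  have h3 := (Nt_tendsto (hs_sublin (PiB K)) u).const_mul κₙ
  have h4 := (h1.sub h2).sub h3
  have h5 : N0 u (hs (Φ K)) - κ₁ / 2 * N0 u (hs (Dif K)) - κₙ * N0 u (hs (PiB K)) = 0 := by
    rw [hD u K hu, N0_Dif]; ring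
  rw [h5] at h4
  exact h4

theorem Cr.tendsto_DsComp (hD : Cr Φ κ₁ κₙ) (u : V) (hu : ‖u‖ = 1) (xs : List V) (j : ℕ)
    (K : ConvexBody V) :
    Tendsto (fun t => Nt t u (fun y => Ds xs (comp j (FF Φ y)) K)
      - κ₁ / 2 * Nt t u (fun y => Ds xs (comp j (FF Dif y)) K)
      - κₙ * Nt t u (fun y => Ds xs (comp j (FF PiB y)) K)) (𝓝[>] (0 : ℝ)) (𝓝 0) := by
  have h1 : ∀ K, Tendsto (fun t => comp j (fun L => Nt t u (hs (Φ L)) -
      κ₁ / 2 * Nt t u (hs (Dif L)) - κₙ * Nt t u (hs (PiB L))) K) (𝓝[>] (0 : ℝ))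
      (𝓝 (comp j (fun _ => (0 : ℝ)) K)) := comp_tendsto (fun L => hD.tendsto u hu L) j
  have h2 := Ds_tendsto h1 xs K
  have h3 : Ds xs (comp j (fun _ : ConvexBody V => (0 : ℝ))) K = 0 := by
    obtain ⟨s, c, L, hL⟩ := DsComp_expand xs j K
    rw [hL]; simp
  rw [h3] at h2
  refine h2.congr ?_
  intro t
  obtain ⟨s, c, L, hL⟩ := DsComp_expand xs j K
  rw [← DsComp_Nt, ← DsComp_Nt, ← DsComp_Nt]
  rw [hL, hL, hL, hL, Finset.mul_sum, Finset.mul_sum, ← Finset.sum_sub_distrib,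
    ← Finset.sum_sub_distrib]
  apply Finset.sum_congr rfl
  intro i _
  ring

theorem Cr.N0_Ds (hD : Cr Φ κ₁ κₙ) (hΦ : IsMVal Φ) (u : V) (hu : ‖u‖ = 1) (xs : List V)
    (K : ConvexBody V) :
    N0 u (fun y => Ds xs (FF Φ y) K) = κ₁ / 2 * N0 u (fun y => Ds xs (FF Dif y) K)
      + κₙ * N0 u (fun y => Ds xs (FF PiB y) K) := by
  have h1 := Ds_tendsto (fun L => hD.tendsto u hu L) xs K
  rw [Ds_zero_fun] at h1
  have h2 := Nt_tendsto (sublin_Ds_FF hΦ xs K) u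
  have h3 := (Nt_tendsto (sublin_Ds_FF (isMVal_Dif (V := V)) xs K) u).const_mul (κ₁ / 2)
  have h4 := (Nt_tendsto (sublin_Ds_FF (isMVal_PiB (V := V)) xs K) u).const_mul κₙ
  have h5 := (h2.sub h3).sub h4
  have h6 : (fun t => Nt t u (fun y => Ds xs (FF Φ y) K)
      - κ₁ / 2 * Nt t u (fun y => Ds xs (FF Dif y) K)
      - κₙ * Nt t u (fun y => Ds xs (FF PiB y) K)) =
      fun t => Ds xs (fun L => Nt t u (hs (Φ L)) -
      κ₁ / 2 * Nt t u (hs (Dif L)) - κₙ * Nt t u (hs (PiB L))) K := by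
    funext t
    obtain ⟨m, c, L, hL⟩ := Ds_expand xs K
    rw [← Ds_Nt hΦ, ← Ds_Nt isMVal_Dif, ← Ds_Nt isMVal_PiB]
    rw [hL, hL, hL, hL, Finset.mul_sum, Finset.mul_sum, ← Finset.sum_sub_distrib,
      ← Finset.sum_sub_distrib]
    apply Finset.sum_congr rfl
    intro i _
    ring
  rw [h6] at h5
  have := tendsto_nhds_unique h5 h1
  linarith

/-! cubes for the difference body and the projection body -/

theorem Ds_Dif_ne (xs : List V) (h : xs.length ≠ 1) (y : V) :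
    Ds xs (FF (Dif : ConvexBody V → ConvexBody V) y) 0 = 0 :=
  Ds_hom_ne (isVal_FF isMVal_Dif y) (FF_Dif_hom y) xs h

theorem Ds_PiB_ne (xs : List V) (h : xs.length ≠ Module.finrank ℝ V - 1) (y : V) :
    Ds xs (FF (PiB : ConvexBody V → ConvexBody V) y) 0 = 0 :=
  Ds_hom_ne (isVal_FF isMVal_PiB y) (FF_PiB_hom y) xs h

theorem D_Dif (x y : V) (K : ConvexBody V) :
    D x (FF (Dif : ConvexBody V → ConvexBody V) y) K = |⟪x, y⟫_ℝ| := by
  show hs (Dif (K + seg x)) y - hs (Dif K) y = _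
  rw [hs_Dif, hs_Dif, hs_add, hs_add, hs_seg, hs_seg, inner_neg_left, real_inner_comm]
  rcases le_total 0 ⟪x, y⟫_ℝ with h | h
  · rw [max_eq_right h, max_eq_left (by linarith), abs_of_nonneg h]; ring
  · rw [max_eq_left h, max_eq_right (by linarith), abs_of_nonpos h]; ring

theorem wd_abs (u : V) (hu : ‖u‖ = 1) : wd (fun y : V => |⟪u, y⟫_ℝ|) = 2 * c0 := by
  have h1 := wd_Dif (seg u)
  have h2 : hs (Dif (seg u)) = fun y : V => |⟪u, y⟫_ℝ| := by
    funext y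
    rw [hs_Dif, hs_seg, hs_seg, inner_neg_left, real_inner_comm]
    rcases le_total 0 ⟪u, y⟫_ℝ with h | h
    · rw [max_eq_right h, max_eq_left (by linarith), abs_of_nonneg h]; ring
    · rw [max_eq_left h, max_eq_right (by linarith), abs_of_nonpos h]; ring
  have h3 : hs (seg u) = fun v : V => max 0 ⟪v, u⟫_ℝ := by
    funext v; rw [hs_seg]
  rw [h2, h3, wd_unit u hu] at h1
  exact h1

theorem N0_abs (u : V) (hu : ‖u‖ = 1) : N0 u (fun y : V => |⟪u, y⟫_ℝ|) = 2 := by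
  have h1 := N0_Dif u (seg u)
  have h2 : hs (Dif (seg u)) = fun y : V => |⟪u, y⟫_ℝ| := by
    funext y
    rw [hs_Dif, hs_seg, hs_seg, inner_neg_left, real_inner_comm]
    rcases le_total 0 ⟪u, y⟫_ℝ with h | h
    · rw [max_eq_right h, max_eq_left (by linarith), abs_of_nonneg h]; ring
    · rw [max_eq_left h, max_eq_right (by linarith), abs_of_nonpos h]; ring
  have h3 : hs (seg u) = fun v : V => max 0 ⟪v, u⟫_ℝ := by
    funext v; rw [hs_seg]
  rw [h2, h3, MW.N0_unit u hu] at h1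
  rw [h1]; ring

theorem N0_zero (u : V) : N0 u (fun _ : V => (0 : ℝ)) = 0 := by
  have h1 := Nt_tendsto (g := fun _ : V => (0 : ℝ)) MW.sl_zero u
  have h2 : (fun t => Nt t u (fun _ : V => (0 : ℝ))) = fun _ => (0 : ℝ) := by
    funext t; unfold Nt; simp
  rw [h2] at h1
  exact tendsto_nhds_unique h1 tendsto_const_nhds

theorem wd_zero : wd (fun _ : V => (0 : ℝ)) = 0 := by unfold wd; simp

/-- the lower bound on cubes -/
theorem Rw_Ds_nonneg (hn : 3 ≤ Module.finrank ℝ V) (hΦ : IsMVal Φ) (hD : Cr Φ κ₁ κₙ)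
    (xs : List V) (ho : Orthonormal ℝ (fun i : Fin xs.length => xs.get i))
    (hl : xs.length ≤ Module.finrank ℝ V) : 0 ≤ Ds xs (Rw Φ κ₁ κₙ) 0 := by
  rw [Ds_Rw]
  have hS := sublin_Ds_FF hΦ xs 0
  by_cases h1 : xs.length = 1
  · obtain ⟨x, rfl⟩ := List.length_eq_one_iff.1 h1
    have hx : ‖x‖ = 1 := by
      have := ho.1 ⟨0, by simp⟩
      simpa using this
    have e1 : (fun y => Ds [x] (FF (Dif : ConvexBody V → ConvexBody V) y) 0) =
        fun y : V => |⟪x, y⟫_ℝ| := by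
      funext y
      exact D_Dif x y 0
    have e2 : (fun y => Ds [x] (FF (PiB : ConvexBody V → ConvexBody V) y) 0) =
        fun y : V => (0 : ℝ) := by
      funext y
      exact Ds_PiB_ne [x] (by simp; omega) y
    have h2 := hD.N0_Ds hΦ x hx [x] 0
    rw [e1, e2, N0_abs x hx, N0_zero] at h2
    have h3 := sum_N0_le hS {x} (by simpa using hx) (by
      intro u hu v hv huv
      simp only [Finset.mem_singleton] at hu hv
      exact absurd (hu.trans hv.symm) huv)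
    rw [Finset.sum_singleton, h2] at h3
    rw [e1, e2, wd_abs x hx, wd_zero]
    linarith
  · by_cases h2 : xs.length = Module.finrank ℝ V - 1
    · obtain ⟨u, hu, hux⟩ := exists_perp (ys := xs) (by omega)
      have e1 : (fun y => Ds xs (FF (Dif : ConvexBody V → ConvexBody V) y) 0) =
          fun y : V => (0 : ℝ) := by
        funext y
        exact Ds_Dif_ne xs h1 y
      have e2 : (fun y => Ds xs (FF (PiB : ConvexBody V → ConvexBody V) y) 0) =
          fun y : V => |⟪u, y⟫_ℝ| := by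
        funext y
        exact Ds_PiB u hu xs (by omega) ho hux y
      have h3 := hD.N0_Ds hΦ u hu xs 0
      rw [e1, e2, N0_abs u hu, N0_zero] at h3
      have h4 := sum_N0_le hS {u} (by simpa using hu) (by
        intro u hu v hv huv
        simp only [Finset.mem_singleton] at hu hv
        exact absurd (hu.trans hv.symm) huv)
      rw [Finset.sum_singleton, h3] at h4
      rw [e1, e2, wd_abs u hu, wd_zero]
      linarith
    · have e1 : (fun y => Ds xs (FF (Dif : ConvexBody V → ConvexBody V) y) 0) =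
          fun y : V => (0 : ℝ) := by
        funext y
        exact Ds_Dif_ne xs h1 y
      have e2 : (fun y => Ds xs (FF (PiB : ConvexBody V → ConvexBody V) y) 0) =
          fun y : V => (0 : ℝ) := by
        funext y
        exact Ds_PiB_ne xs h2 y
      rw [e1, e2, wd_zero]
      have := wd_nonneg hS
      linarith

/-- orthonormal lists of every length -/
theorem exists_orthonormal_list (j : ℕ) (hj : j ≤ Module.finrank ℝ V) :
    ∃ xs : List V, xs.length = j ∧ Orthonormal ℝ (fun i : Fin xs.length => xs.get i) := by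
  induction j with
  | zero =>
    refine ⟨[], rfl, ?_⟩
    constructor
    · intro i; exact i.elim0
    · intro i; exact i.elim0
  | succ j ih =>
    obtain ⟨xs, hl, ho⟩ := ih (by omega)
    obtain ⟨e, he, hp⟩ := exists_perp (ys := xs) (by omega)
    exact ⟨e :: xs, by simp [hl], vol_orthonormal_cons he hp ho⟩

theorem Rw_le (hκ₁ : 0 ≤ κ₁) (hκₙ : 0 ≤ κₙ) (hD : Cr Φ κ₁ κₙ)
    (K₀ : ConvexBody V) (P : Finset V) (hP : P.Nonempty) (hPK : Φ K₀ = hull P hP) :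
    Rw Φ κ₁ κₙ K₀ ≤ 0 := by
  obtain ⟨S, hS1, hS2, hS3⟩ := poly_N0_eq P hP
  rw [← hPK] at hS3
  have h1 := sum_N0_le (hs_sublin (Dif K₀)) S hS1 hS2
  have h2 := sum_N0_le (hs_sublin (PiB K₀)) S hS1 hS2
  have h3 : ∑ u ∈ S, N0 u (hs (Φ K₀)) =
      κ₁ / 2 * ∑ u ∈ S, N0 u (hs (Dif K₀)) + κₙ * ∑ u ∈ S, N0 u (hs (PiB K₀)) := by
    rw [Finset.mul_sum, Finset.mul_sum, ← Finset.sum_add_distrib]
    apply Finset.sum_congr rfl
    intro u hu
    rw [hD u K₀ (hS1 u hu), N0_Dif]; ring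
  unfold Rw
  rw [← hS3, h3]
  have h4 : κ₁ / 2 * (c0 * ∑ u ∈ S, N0 u (hs (Dif K₀))) ≤ κ₁ / 2 * wd (hs (Dif K₀)) :=
    mul_le_mul_of_nonneg_left h1 (by positivity)
  have h5 := mul_le_mul_of_nonneg_left h2 hκₙ
  nlinarith

theorem comp_iso_inv {φ : ConvexBody V → ℝ} (g : V ≃ₗᵢ[ℝ] V)
    (h : ∀ K, φ (isoB g K) = φ K) (j : ℕ) (K : ConvexBody V) :
    comp j φ (isoB g K) = comp j φ K := by
  unfold comp
  apply Finset.sum_congr rfl
  intro k _
  rw [← isoB_smul, h]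

/-- Hadwiger -/
theorem hadwiger (φ : ConvexBody V → ℝ) (hφ : IsVal φ)
    (hinv : ∀ g : V ≃ₗᵢ[ℝ] V, Rot g → ∀ K, φ (isoB g K) = φ K)
    {j : ℕ} (hj : j + 1 ≤ Module.finrank ℝ V) (xs : List V) (hl : xs.length = j + 1)
    (ho : Orthonormal ℝ (fun i : Fin xs.length => xs.get i)) (K : ConvexBody V) :
    comp (j + 1) φ K = Ds xs φ 0 / Ds xs (Vj (j + 1)) 0 * Vj (j + 1) K := by
  set ρ := Ds xs φ 0 / Ds xs (Vj (j + 1)) 0 with hρ
  have hpos := Ds_Vj_pos xs hl ho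
  have h1 : IsVal (fun K => 1 * comp (j + 1) φ K + (-ρ) * Vj (j + 1) K) :=
    ((isVal_comp hφ (j + 1)).const_mul 1).add ((isVal_Vj (j + 1)).const_mul (-ρ))
  have h2 : IsHom (j + 1) (fun K => 1 * comp (j + 1) φ K + (-ρ) * Vj (j + 1) K) := by
    intro c L hc
    simp only
    rw [comp_isHom hφ hj c L hc, Vj_hom hj c L hc]; ring
  have h3 := hadwiger_unique h1 h2 (by
    intro g hg L
    rw [comp_iso_inv g (hinv g hg), Vj_iso]) xs hl ho (by
    rw [Ds_lin]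
    have := Ds_comp_at_zero hφ xs (by omega)
    rw [hl] at this
    rw [this, hρ]
    field_simp
    ring) K
  linarith

/-- the mean width identity -/
theorem Rw_eq_zero (hn : 3 ≤ Module.finrank ℝ V) (hΦ : IsMVal Φ) (hκ₁ : 0 ≤ κ₁) (hκₙ : 0 ≤ κₙ)
    (hD : Cr Φ κ₁ κₙ) (K₀ : ConvexBody V) (hK₀ : (interior (K₀ : Set V)).Nonempty)
    (P : Finset V) (hP : P.Nonempty) (hPK : Φ K₀ = hull P hP) (K : ConvexBody V) :
    Rw Φ κ₁ κₙ K = 0 := by
  have hV := isVal_Rw hΦ κ₁ κₙ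
  have hle := Rw_le hκ₁ hκₙ hD K₀ P hP hPK
  rw [sum_comp hV K₀] at hle
  have hnn : ∀ j ∈ Finset.range (Module.finrank ℝ V + 1), 0 ≤ comp j (Rw Φ κ₁ κₙ) K₀ := by
    intro j hj
    rw [Finset.mem_range] at hj
    cases j with
    | zero =>
      rw [comp_zero hV]
      have := Rw_Ds_nonneg hn hΦ hD [] ⟨fun i => i.elim0, fun i => i.elim0⟩ (by simp)
      exact this
    | succ j =>
      obtain ⟨xs, hl, ho⟩ := exists_orthonormal_list (V := V) (j + 1) (by omega)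
      rw [hadwiger _ hV (fun g hg => Rw_iso hΦ κ₁ κₙ g hg) (by omega) xs hl ho]
      have h1 := Rw_Ds_nonneg hn hΦ hD xs ho (by omega)
      have h2 := Ds_Vj_pos xs hl ho
      have h3 := Vj_pos (j + 1) hK₀
      positivity
  have hz : ∀ j ∈ Finset.range (Module.finrank ℝ V + 1), comp j (Rw Φ κ₁ κₙ) K₀ = 0 :=
    (Finset.sum_eq_zero_iff_of_nonneg hnn).1 (le_antisymm hle (Finset.sum_nonneg hnn))
  rw [sum_comp hV K]
  apply Finset.sum_eq_zero
  intro j hj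
  have h0 := hz j hj
  rw [Finset.mem_range] at hj
  cases j with
  | zero =>
    rw [comp_zero hV] at h0 ⊢
    exact h0
  | succ j =>
    obtain ⟨xs, hl, ho⟩ := exists_orthonormal_list (V := V) (j + 1) (by omega)
    have h1 := hadwiger _ hV (fun g hg => Rw_iso hΦ κ₁ κₙ g hg) (by omega) xs hl ho
    rw [h1] at h0
    have h3 := Vj_pos (j + 1) hK₀
    have h4 := (mul_eq_zero.1 h0).resolve_right h3.ne'
    rw [h1, h4, zero_mul]

end FinB
end MV
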