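import Pool.Agent.Lib.MP_f30071_gt.FinB

/-! Classification, part C: cubes, degrees 0, 2..n-2, n -/

open MeasureTheory ProbabilityTheory Filter Topology Set
open scoped InnerProductSpace Pointwise NNReal ENNReal

set_option linter.unusedSectionVars false
set_option linter.unusedVariables false

namespace MV

section FinC
variable {V : Type*} [NormedAddCommGroup V] [InnerProductSpace ℝ V] [FiniteDimensional ℝ V]
  [MeasurableSpace V] [BorelSpace V]
variable {Φ : ConvexBody V → ConvexBody V}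

theorem exists_inner_of_linear (f : V → ℝ) (h1 : ∀ y z, f (y + z) = f y + f z)
    (h2 : ∀ (c : ℝ) y, f (c • y) = c * f y) : ∃ p : V, ∀ y, f y = ⟪p, y⟫_ℝ := by
  let L : V →ₗ[ℝ] ℝ := { toFun := f, map_add' := h1, map_smul' := by intro c y; simpa using h2 c y }
  refine ⟨(InnerProductSpace.toDual ℝ V).symm (LinearMap.toContinuousLinearMap L), fun y => ?_⟩
  rw [InnerProductSpace.toDual_symm_apply]
  rfl

/-- linear valued equivariant families vanish -/
theorem lin_zero (hn : 3 ≤ Module.finrank ℝ V) (Ψ : V → ConvexBody V → ℝ)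
    (hv : ∀ y, IsVal (Ψ y))
    (he : ∀ g : V ≃ₗᵢ[ℝ] V, Rot g → ∀ y K, Ψ (g y) (isoB g K) = Ψ y K)
    (hl : ∀ K, ∃ p : V, ∀ y, Ψ y K = ⟪p, y⟫_ℝ) (y : V) (K : ConvexBody V) : Ψ y K = 0 := by
  choose s hs using hl
  have h1 := steiner_unique hn s (fun y => by
    have : (fun K => ⟪y, s K⟫_ℝ) = Ψ y := by
      funext K; rw [hs K y, real_inner_comm]
    rw [this]; exact hv y) (fun g hg K => by
      apply ext_inner_right ℝ
      intro y
      rw [← hs]
      have h2 := he g hg (g.symm y) K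
      rw [LinearIsometryEquiv.apply_symm_apply, hs K] at h2
      rw [h2]
      have h3 := g.inner_map_map (s K) (g.symm y)
      rw [LinearIsometryEquiv.apply_symm_apply] at h3
      exact h3.symm) K
  rw [hs K y, h1, inner_zero_left]

theorem Ds_fun_eq' {F G : ConvexBody V → ℝ} (h : F = G) (xs : List V) (K : ConvexBody V) :
    Ds xs F K = Ds xs G K := by rw [h]

/-- families which are linear after taking differences vanish -/
theorem lin_zero_Ds (hn : 3 ≤ Module.finrank ℝ V) (Ψ : V → ConvexBody V → ℝ)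
    (hv : ∀ y, IsVal (Ψ y))
    (he : ∀ g : V ≃ₗᵢ[ℝ] V, Rot g → ∀ y K, Ψ (g y) (isoB g K) = Ψ y K)
    {j : ℕ} (hj : ∀ y, IsHom (j + 1) (Ψ y))
    (hl : ∀ xs : List V, xs.length = j → Orthonormal ℝ (fun i : Fin xs.length => xs.get i) →
      ∀ K, ∃ p : V, ∀ y, Ds xs (Ψ y) K = ⟪p, y⟫_ℝ) (y : V) (K : ConvexBody V) : Ψ y K = 0 := by
  apply lin_zero hn Ψ hv he
  intro K
  apply exists_inner_of_linear
  · intro y z
    have h1 : IsVal (fun K => Ψ (y + z) K - (Ψ y K + Ψ z K)) := (hv _).sub ((hv _).add (hv _))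
    have h2 : IsHom (j + 1) (fun K => Ψ (y + z) K - (Ψ y K + Ψ z K)) := by
      intro c L hc
      simp only
      rw [hj _ c L hc, hj _ c L hc, hj _ c L hc]; ring
    have h3 := zero_of_Ds h1 h2 (by
      intro xs hxl ho L
      obtain ⟨p, hp⟩ := hl xs hxl ho L
      obtain ⟨m, c, M, hM⟩ := Ds_expand xs L
      have e1 := hp (y + z)
      have e2 := hp y
      have e3 := hp z
      rw [hM] at e1 e2 e3 ⊢
      have : ∑ i, c i * (Ψ (y + z) (M i) - (Ψ y (M i) + Ψ z (M i))) =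
          ∑ i, c i * Ψ (y + z) (M i) - (∑ i, c i * Ψ y (M i) + ∑ i, c i * Ψ z (M i)) := by
        rw [← Finset.sum_add_distrib, ← Finset.sum_sub_distrib]
        apply Finset.sum_congr rfl
        intro i _
        ring
      rw [this, e1, e2, e3, inner_add_right]; ring) K
    linarith
  · intro a y
    have h1 : IsVal (fun K => Ψ (a • y) K - a * Ψ y K) := (hv _).sub ((hv _).const_mul a)
    have h2 : IsHom (j + 1) (fun K => Ψ (a • y) K - a * Ψ y K) := by
      intro c L hc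
      simp only
      rw [hj _ c L hc, hj _ c L hc]; ring
    have h3 := zero_of_Ds h1 h2 (by
      intro xs hxl ho L
      obtain ⟨p, hp⟩ := hl xs hxl ho L
      obtain ⟨m, c, M, hM⟩ := Ds_expand xs L
      have e1 := hp (a • y)
      have e2 := hp y
      rw [hM] at e1 e2 ⊢
      have : ∑ i, c i * (Ψ (a • y) (M i) - a * Ψ y (M i)) =
          ∑ i, c i * Ψ (a • y) (M i) - a * ∑ i, c i * Ψ y (M i) := by
        rw [Finset.mul_sum, ← Finset.sum_sub_distrib]
        apply Finset.sum_congr rfl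
        intro i _
        ring
      rw [this, e1, e2, real_inner_smul_right]; ring) K
    linarith

theorem comp_iso {φ φ' : ConvexBody V → ℝ} (g : V ≃ₗᵢ[ℝ] V)
    (h : ∀ K, φ' (isoB g K) = φ K) (j : ℕ) (K : ConvexBody V) :
    comp j φ' (isoB g K) = comp j φ K := by
  unfold comp
  apply Finset.sum_congr rfl
  intro k _
  rw [← isoB_smul, h]

theorem comp_FF_iso (hΦ : IsMVal Φ) (j : ℕ) (g : V ≃ₗᵢ[ℝ] V) (hg : Rot g) (y : V)
    (K : ConvexBody V) : comp j (FF Φ (g y)) (isoB g K) = comp j (FF Φ y) K :=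
  comp_iso g (fun L => FF_iso hΦ g hg y L) j K

variable {κ₁ κₙ : ℝ}

/-- package of the hypotheses after the mean width identity -/
structure Pk (Φ : ConvexBody V → ConvexBody V) (κ₁ κₙ : ℝ) : Prop where
  hn : 3 ≤ Module.finrank ℝ V
  mv : IsMVal Φ
  k1 : 0 ≤ κ₁
  kn : 0 ≤ κₙ
  cr : Cr Φ κ₁ κₙ
  rw0 : ∀ K, Rw Φ κ₁ κₙ K = 0

theorem Pk.wd_Ds (h : Pk Φ κ₁ κₙ) (xs : List V) (K : ConvexBody V) :
    wd (fun y => Ds xs (FF Φ y) K) = κ₁ / 2 * wd (fun y => Ds xs (FF Dif y) K)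
      + κₙ * wd (fun y => Ds xs (FF PiB y) K) := by
  have h1 := Ds_Rw (Φ := Φ) κ₁ κₙ xs K
  have h2 : Rw Φ κ₁ κₙ = fun _ => (0 : ℝ) := funext h.rw0
  rw [h2, Ds_zero_fun] at h1
  linarith

theorem Pk.wd_DsComp (h : Pk Φ κ₁ κₙ) (xs : List V) (j : ℕ) (K : ConvexBody V) :
    wd (fun y => Ds xs (comp j (FF Φ y)) K) =
      κ₁ / 2 * wd (fun y => Ds xs (comp j (FF Dif y)) K)
      + κₙ * wd (fun y => Ds xs (comp j (FF PiB y)) K) := by
  have h1 := DsComp_Rw (Φ := Φ) κ₁ κₙ xs j K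
  have h2 : Rw Φ κ₁ κₙ = fun _ => (0 : ℝ) := funext h.rw0
  have h3 : Ds xs (comp j (fun _ : ConvexBody V => (0 : ℝ))) K = 0 := by
    obtain ⟨s, c, L, hL⟩ := DsComp_expand xs j K
    rw [hL]; simp
  rw [h2, h3] at h1
  linarith

/-- cubes, other degrees -/
theorem Pk.cube_ne (h : Pk Φ κ₁ κₙ) (xs : List V) (h1 : xs.length ≠ 1)
    (h2 : xs.length ≠ Module.finrank ℝ V - 1) :
    ∃ p : V, ∀ y, Ds xs (FF Φ y) 0 = ⟪p, y⟫_ℝ := by
  apply wd_eq_zero (sublin_Ds_FF h.mv xs 0)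
  rw [h.wd_Ds]
  have e1 : (fun y => Ds xs (FF (Dif : ConvexBody V → ConvexBody V) y) 0) =
      fun y : V => (0 : ℝ) := funext (Ds_Dif_ne xs h1)
  have e2 : (fun y => Ds xs (FF (PiB : ConvexBody V → ConvexBody V) y) 0) =
      fun y : V => (0 : ℝ) := funext (Ds_PiB_ne xs h2)
  rw [e1, e2, wd_zero]; ring

theorem Sublin.half {g : V → ℝ} (hg : Sublin g) (u : V) (hu : ‖u‖ = 1) (κ : ℝ)
    (hw : wd g = c0 * κ) (hN : N0 u g = κ) :
    ∃ p : V, ∀ v, g v = ⟪p, v⟫_ℝ + κ * max 0 ⟪u, v⟫_ℝ := by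
  apply half_linear u hu g (MW.sl_cont hg) hg.hom (fun v w _ _ => hg.sub v w)
    (fun v w _ _ => hg.sub v w) κ hw
  rw [← hN]
  exact Nt_tendsto hg u

/-- cubes, degree one -/
theorem Pk.cube_one (h : Pk Φ κ₁ κₙ) (x : V) (hx : ‖x‖ = 1) :
    ∃ p : V, ∀ y, Ds [x] (FF Φ y) 0 = ⟪p, y⟫_ℝ + κ₁ * max 0 ⟪x, y⟫_ℝ := by
  have hn := h.hn
  have e1 : (fun y => Ds [x] (FF (Dif : ConvexBody V → ConvexBody V) y) 0) =
      fun y : V => |⟪x, y⟫_ℝ| := by
    funext y
    exact D_Dif x y 0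
  have e2 : (fun y => Ds [x] (FF (PiB : ConvexBody V → ConvexBody V) y) 0) =
      fun y : V => (0 : ℝ) := by
    funext y
    exact Ds_PiB_ne [x] (by simp; omega) y
  apply (sublin_Ds_FF h.mv [x] 0).half x hx
  · rw [h.wd_Ds, e1, e2, wd_abs x hx, wd_zero]; ring
  · rw [h.cr.N0_Ds h.mv x hx, e1, e2, N0_abs x hx, N0_zero]; ring

/-- cubes, degree `n-1` -/
theorem Pk.cube_top (h : Pk Φ κ₁ κₙ) (xs : List V)
    (ho : Orthonormal ℝ (fun i : Fin xs.length => xs.get i))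
    (hl : xs.length + 1 = Module.finrank ℝ V) (u : V) (hu : ‖u‖ = 1)
    (hux : ∀ x ∈ xs, ⟪u, x⟫_ℝ = 0) :
    ∃ p : V, ∀ y, Ds xs (FF Φ y) 0 = ⟪p, y⟫_ℝ + (2 * κₙ) * max 0 ⟪u, y⟫_ℝ := by
  have hn := h.hn
  have e1 : (fun y => Ds xs (FF (Dif : ConvexBody V → ConvexBody V) y) 0) =
      fun y : V => (0 : ℝ) := by
    funext y
    exact Ds_Dif_ne xs (by omega) y
  have e2 : (fun y => Ds xs (FF (PiB : ConvexBody V → ConvexBody V) y) 0) =
      fun y : V => |⟪u, y⟫_ℝ| := by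
    funext y
    exact Ds_PiB u hu xs (by omega) ho hux y
  apply (sublin_Ds_FF h.mv xs 0).half u hu
  · rw [h.wd_Ds, e1, e2, wd_abs u hu, wd_zero]; ring
  · rw [h.cr.N0_Ds h.mv u hu, e1, e2, N0_abs u hu, N0_zero]; ring

/-- degree zero -/
theorem Pk.deg_zero (h : Pk Φ κ₁ κₙ) (y : V) (K : ConvexBody V) : comp 0 (FF Φ y) K = 0 := by
  have hn := h.hn
  apply lin_zero h.hn (fun y => comp 0 (FF Φ y)) (fun y => isVal_comp (isVal_FF h.mv y) 0)
    (fun g hg y K => comp_FF_iso h.mv 0 g hg y K)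
  intro K
  obtain ⟨p, hp⟩ := h.cube_ne [] (by simp) (by simp; omega)
  refine ⟨p, fun y => ?_⟩
  rw [comp_zero (isVal_FF h.mv y)]
  exact hp y

/-- degree `n` -/
theorem Pk.deg_n (h : Pk Φ κ₁ κₙ) (y : V) (K : ConvexBody V) :
    comp (Module.finrank ℝ V) (FF Φ y) K = 0 := by
  have hn := h.hn
  apply lin_zero h.hn (fun y => comp (Module.finrank ℝ V) (FF Φ y))
    (fun y => isVal_comp (isVal_FF h.mv y) _)
    (fun g hg y K => comp_FF_iso h.mv _ g hg y K)
  intro K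
  obtain ⟨es, hl, ho⟩ := exists_orthonormal_list (V := V) (Module.finrank ℝ V) le_rfl
  obtain ⟨p, hp⟩ := h.cube_ne es (by omega) (by omega)
  refine ⟨vol K • p, fun y => ?_⟩
  rw [top_unique (isVal_comp (isVal_FF h.mv y) _) (comp_isHom (isVal_FF h.mv y) le_rfl) es hl ho K]
  have h1 := Ds_comp_at_zero (isVal_FF h.mv y) es hl.le
  rw [hl] at h1
  rw [h1, hp, real_inner_smul_left]; ring

/-! sublinearity of the lowest nonlinear term -/

theorem comp_one_tendsto {φ : ConvexBody V → ℝ} (hφ : IsVal φ) (K : ConvexBody V) :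
    Tendsto (fun t : ℝ => (φ (t • K) - φ 0) / t) (𝓝[>] 0) (𝓝 (comp 1 φ K)) := by
  have h1 := der_tendsto hφ 0 K
  have h2 : der K φ 0 = comp 1 φ K := by
    unfold der cof comp
    apply Finset.sum_congr rfl
    intro k _
    rw [zero_add]
  rw [h2] at h1
  simpa using h1

theorem comp_one_sub (hΦ : IsMVal Φ) (xs : List V) (K : ConvexBody V) (v w : V)
    (h : Ds xs (FF Φ (v + w)) 0 = Ds xs (FF Φ v) 0 + Ds xs (FF Φ w) 0) :
    comp 1 (Ds xs (FF Φ (v + w))) K ≤ comp 1 (Ds xs (FF Φ v)) K + comp 1 (Ds xs (FF Φ w)) K := by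
  have h1 := comp_one_tendsto (isVal_Ds (isVal_FF hΦ (v + w)) xs) K
  have h2 := comp_one_tendsto (isVal_Ds (isVal_FF hΦ v) xs) K
  have h3 := comp_one_tendsto (isVal_Ds (isVal_FF hΦ w) xs) K
  refine le_of_tendsto_of_tendsto h1 (h2.add h3) ?_
  filter_upwards [self_mem_nhdsWithin] with t ht
  have ht' : (0 : ℝ) < t := ht
  rw [← add_div]
  apply div_le_div_of_nonneg_right _ ht'.le
  have := (sublin_Ds_FF hΦ xs (t • K)).sub v w
  linarith

theorem DsComp_hom (xs : List V) (j : ℕ) (K : ConvexBody V) {c : ℝ} (hc : 0 ≤ c) (v : V) :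
    Ds xs (comp j (FF Φ (c • v))) K = c * Ds xs (comp j (FF Φ v)) K := by
  obtain ⟨s, a, L, hL⟩ := DsComp_expand xs j K
  rw [hL, hL, Finset.mul_sum]
  apply Finset.sum_congr rfl
  intro i _
  unfold FF
  rw [hs_smul_right _ hc]; ring

theorem DsComp_cont (xs : List V) (j : ℕ) (K : ConvexBody V) :
    Continuous (fun y => Ds xs (comp j (FF Φ y)) K) := by
  obtain ⟨s, a, L, hL⟩ := DsComp_expand xs j K
  simp only [hL]
  unfold FF
  exact continuous_finsetSum _ fun i _ => continuous_const.mul (continuous_hs_right _)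

theorem Nt_zero_fun (t : ℝ) (u : V) : Nt t u (fun _ : V => (0 : ℝ)) = 0 := by unfold Nt; simp

/-- degrees `2 .. n-2` -/
theorem Pk.deg_mid (h : Pk Φ κ₁ κₙ) (j : ℕ) (hj1 : 1 ≤ j) (hj : j + 3 ≤ Module.finrank ℝ V)
    (y : V) (K : ConvexBody V) : comp (j + 1) (FF Φ y) K = 0 := by
  have hn := h.hn
  apply lin_zero_Ds h.hn (fun y => comp (j + 1) (FF Φ y))
    (fun y => isVal_comp (isVal_FF h.mv y) _)
    (fun g hg y K => comp_FF_iso h.mv _ g hg y K)
    (fun y => comp_isHom (isVal_FF h.mv y) (by omega))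
  intro xs hl ho K
  have e0 : ∀ y, Ds xs (comp (j + 1) (FF Φ y)) K = comp 1 (Ds xs (FF Φ y)) K := by
    intro y
    have := Ds_comp (isVal_FF h.mv y) xs 1 (by omega) K
    rw [this, hl, add_comm]
  have z1 : ∀ y, comp (j + 1) (FF (Dif : ConvexBody V → ConvexBody V) y) = fun _ => (0 : ℝ) := by
    intro y
    funext L
    rw [comp_of_isHom (isVal_FF isMVal_Dif y) (FF_Dif_hom y) (by omega) (by omega), if_neg (by omega)]
  have z2 : ∀ y, comp (j + 1) (FF (PiB : ConvexBody V → ConvexBody V) y) = fun _ => (0 : ℝ) := by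
    intro y
    funext L
    rw [comp_of_isHom (isVal_FF isMVal_PiB y) (FF_PiB_hom y) (by omega) (by omega),
      if_neg (by omega)]
  have hwd : wd (fun y => Ds xs (comp (j + 1) (FF Φ y)) K) = 0 := by
    rw [h.wd_DsComp]
    simp only [z1, z2, Ds_zero_fun, wd_zero]
    ring
  by_cases hj2 : j = 1
  · -- degree two
    subst hj2
    obtain ⟨x, rfl⟩ := List.length_eq_one_iff.1 hl
    have hx : ‖x‖ = 1 := by
      have := ho.1 ⟨0, by simp⟩
      simpa using this
    obtain ⟨p, hp⟩ := h.cube_one x hx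
    have hN := h.cr.tendsto_DsComp x hx [x] (1 + 1) K
    simp only [z1, z2, Ds_zero_fun, Nt_zero_fun, mul_zero, sub_zero] at hN
    obtain ⟨q, hq⟩ := half_linear x hx (fun y => Ds [x] (comp (1 + 1) (FF Φ y)) K)
      (DsComp_cont _ _ _) (fun c v hc => DsComp_hom _ _ _ hc v)
      (by
        intro v w hv hw
        rw [e0, e0, e0]
        apply comp_one_sub h.mv
        rw [hp, hp, hp, inner_add_right, inner_add_right, max_eq_right (by linarith),
          max_eq_right hv, max_eq_right hw]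
        ring)
      (by
        intro v w hv hw
        rw [e0, e0, e0]
        apply comp_one_sub h.mv
        rw [hp, hp, hp, inner_add_right, inner_add_right, max_eq_left (by linarith),
          max_eq_left hv, max_eq_left hw]
        ring) 0 (by rw [hwd]; ring) hN
    refine ⟨q, fun y => ?_⟩
    have := hq y
    simpa using this
  · obtain ⟨p, hp⟩ := h.cube_ne xs (by omega) (by omega)
    have hS : Sublin (fun y => Ds xs (comp (j + 1) (FF Φ y)) K) := by
      refine ⟨fun c v hc => DsComp_hom _ _ _ hc v, fun v w => ?_⟩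
      rw [e0, e0, e0]
      apply comp_one_sub h.mv
      rw [hp, hp, hp, inner_add_right]
    exact wd_eq_zero hS hwd

end FinC
end MV
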