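import Pool.Agent.Lib.MP_f30071_gt.FinC

/-! Classification, part D: geometry of triangles -/

open MeasureTheory ProbabilityTheory Filter Topology Set
open scoped InnerProductSpace Pointwise NNReal ENNReal

set_option linter.unusedSectionVars false
set_option linter.unusedVariables false

namespace MV

section FinD
variable {V : Type*} [NormedAddCommGroup V] [InnerProductSpace ℝ V] [FiniteDimensional ℝ V]

/-- product of two reflections -/
noncomputable def flp (a b : V) : V ≃ₗᵢ[ℝ] V := ((ℝ ∙ a)ᗮ.reflection).trans ((ℝ ∙ b)ᗮ.reflection)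

theorem rot_flp {a b : V} (ha : a ≠ 0) (hb : b ≠ 0) : Rot (flp a b) := by
  have hdet : ∀ w : V, w ≠ 0 →
      LinearMap.det (((ℝ ∙ w)ᗮ.reflection).toLinearEquiv : V →ₗ[ℝ] V) = -1 := by
    intro w hw
    have h1 := (ℝ ∙ w)ᗮ.det_reflection
    rw [Submodule.orthogonal_orthogonal, finrank_span_singleton hw, pow_one] at h1
    exact h1
  unfold Rot flp
  have h1 : ((((ℝ ∙ a)ᗮ.reflection).trans ((ℝ ∙ b)ᗮ.reflection)).toLinearEquiv : V →ₗ[ℝ] V) =
      (((ℝ ∙ b)ᗮ.reflection).toLinearEquiv : V →ₗ[ℝ] V).comp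
      (((ℝ ∙ a)ᗮ.reflection).toLinearEquiv : V →ₗ[ℝ] V) := rfl
  rw [h1, LinearMap.det_comp, hdet a ha, hdet b hb]
  norm_num

theorem refl_fix {a w : V} (h : ⟪a, w⟫_ℝ = 0) : (ℝ ∙ a)ᗮ.reflection w = w := by
  refine Submodule.reflection_mem_subspace_eq_self ?_
  rw [Submodule.mem_orthogonal_singleton_iff_inner_right]
  exact h

theorem flp_left {a b : V} (h : ⟪a, b⟫_ℝ = 0) : flp a b a = -a := by
  unfold flp
  rw [LinearIsometryEquiv.trans_apply, Submodule.reflection_orthogonalComplement_singleton_eq_neg,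
    map_neg, refl_fix (by rw [real_inner_comm]; exact h)]

theorem flp_right {a b : V} (h : ⟪a, b⟫_ℝ = 0) : flp a b b = -b := by
  unfold flp
  rw [LinearIsometryEquiv.trans_apply, refl_fix h,
    Submodule.reflection_orthogonalComplement_singleton_eq_neg]

theorem flp_perp {a b w : V} (h1 : ⟪a, w⟫_ℝ = 0) (h2 : ⟪b, w⟫_ℝ = 0) : flp a b w = w := by
  unfold flp
  rw [LinearIsometryEquiv.trans_apply, refl_fix h1, refl_fix h2]

theorem flp_swap {a c x : V} (h : ‖a‖ = ‖c‖) (hxc : ⟪x, c⟫_ℝ = 0) :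
    flp (a + c) x a = -c := by
  unfold flp
  have h1 : (ℝ ∙ (a - (-c)))ᗮ.reflection a = -c := Submodule.reflection_sub (by rw [norm_neg]; exact h)
  rw [sub_neg_eq_add] at h1
  rw [LinearIsometryEquiv.trans_apply, h1, map_neg, refl_fix hxc]

/-- the odd crease function -/
noncomputable def Wf (s t : ℝ) : ℝ := max 0 (max s (s + t)) + min 0 (min s (s + t))

theorem Wf_neg (s t : ℝ) : Wf (-s) (-t) = -Wf s t := by
  unfold Wf
  have h1 : max 0 (max (-s) (-s + -t)) = -min 0 (min s (s + t)) := by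
    rw [show -s + -t = -(s + t) by ring, max_neg_neg, ← neg_zero, max_neg_neg, neg_zero]
  have h2 : min 0 (min (-s) (-s + -t)) = -max 0 (max s (s + t)) := by
    rw [show -s + -t = -(s + t) by ring, min_neg_neg, ← neg_zero, min_neg_neg, neg_zero]
  rw [h1, h2]; ring

theorem hs_tri_sub (a c y : V) :
    hs (tri a c) y - hs (tri a c) (-y) = Wf ⟪y, a⟫_ℝ ⟪y, c⟫_ℝ := by
  rw [hs_tri, hs_tri, inner_neg_left, inner_neg_left]
  have h1 := Wf_neg ⟪y, a⟫_ℝ ⟪y, c⟫_ℝ
  unfold Wf at *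
  have h2 : max 0 (max (-⟪y, a⟫_ℝ) (-⟪y, a⟫_ℝ + -⟪y, c⟫_ℝ)) =
      -min 0 (min ⟪y, a⟫_ℝ (⟪y, a⟫_ℝ + ⟪y, c⟫_ℝ)) := by
    rw [show -⟪y, a⟫_ℝ + -⟪y, c⟫_ℝ = -(⟪y, a⟫_ℝ + ⟪y, c⟫_ℝ) by ring, max_neg_neg, ← neg_zero,
      max_neg_neg, neg_zero]
  rw [h2]; ring

/-- linear on the six chambers -/
structure ChLin (O : V → ℝ) (a c : V) : Prop where
  hom : ∀ (r : ℝ) (y : V), 0 ≤ r → O (r • y) = r * O y
  add : ∀ y z : V, 0 ≤ ⟪a, y⟫_ℝ * ⟪a, z⟫_ℝ → 0 ≤ ⟪c, y⟫_ℝ * ⟪c, z⟫_ℝ →
    0 ≤ (⟪a, y⟫_ℝ + ⟪c, y⟫_ℝ) * (⟪a, z⟫_ℝ + ⟪c, z⟫_ℝ) → O (y + z) = O y + O z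

theorem ChLin.comb {f g : V → ℝ} {a c : V} (hf : ChLin f a c) (hg : ChLin g a c) (α β : ℝ) :
    ChLin (fun y => α * f y + β * g y) a c where
  hom r y hr := by rw [hf.hom r y hr, hg.hom r y hr]; ring
  add y z h1 h2 h3 := by rw [hf.add y z h1 h2 h3, hg.add y z h1 h2 h3]; ring

theorem abs_add_of_mul {x y : ℝ} (h : 0 ≤ x * y) : |x + y| = |x| + |y| := by
  rcases le_total 0 x with hx | hx
  · rcases eq_or_lt_of_le hx with h0 | h0
    · rw [← h0]; simp
    · have hy : 0 ≤ y := by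
        by_contra hc
        push Not at hc
        nlinarith
      rw [abs_of_nonneg hx, abs_of_nonneg hy, abs_of_nonneg (by linarith)]
  · rcases eq_or_lt_of_le hx with h0 | h0
    · rw [h0]; simp
    · have hy : y ≤ 0 := by
        by_contra hc
        push Not at hc
        nlinarith
      rw [abs_of_nonpos hx, abs_of_nonpos hy, abs_of_nonpos (by linarith)]
      ring

/-- summands of a hexagonal zonotope -/
theorem ChLin.of_sum {f g : V → ℝ} (hf : Sublin f) (hg : Sublin g) {a c : V} {k : ℝ}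
    (h : ∀ y, f y + g y = k * (|⟪a, y⟫_ℝ| + |⟪c, y⟫_ℝ| + |⟪a, y⟫_ℝ + ⟪c, y⟫_ℝ|)) :
    ChLin f a c ∧ ChLin g a c := by
  have key : ∀ y z : V, 0 ≤ ⟪a, y⟫_ℝ * ⟪a, z⟫_ℝ → 0 ≤ ⟪c, y⟫_ℝ * ⟪c, z⟫_ℝ →
      0 ≤ (⟪a, y⟫_ℝ + ⟪c, y⟫_ℝ) * (⟪a, z⟫_ℝ + ⟪c, z⟫_ℝ) →
      f (y + z) + g (y + z) = (f y + f z) + (g y + g z) := by
    intro y z h1 h2 h3
    have e1 := abs_add_of_mul h1
    have e2 := abs_add_of_mul h2
    have e3 := abs_add_of_mul h3
    have e4 : ⟪a, y + z⟫_ℝ + ⟪c, y + z⟫_ℝ =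
        (⟪a, y⟫_ℝ + ⟪c, y⟫_ℝ) + (⟪a, z⟫_ℝ + ⟪c, z⟫_ℝ) := by
      rw [inner_add_right, inner_add_right]; ring
    rw [h (y + z), e4, e3, inner_add_right, inner_add_right, e1, e2]
    have e5 := h y
    have e6 := h z
    linarith
  constructor
  · refine ⟨fun r y hr => hf.hom r y hr, fun y z h1 h2 h3 => ?_⟩
    have := key y z h1 h2 h3
    have hfs := hf.sub y z
    have hgs := hg.sub y z
    linarith
  · refine ⟨fun r y hr => hg.hom r y hr, fun y z h1 h2 h3 => ?_⟩
    have := key y z h1 h2 h3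
    have hfs := hf.sub y z
    have hgs := hg.sub y z
    linarith

/-- odd functions linear on the chambers -/
theorem ChLin.odd_form {O : V → ℝ} {a c : V} (hO : ChLin O a c) {p q : V}
    (hap : ⟪a, p⟫_ℝ = 1) (hcp : ⟪c, p⟫_ℝ = 0) (haq : ⟪a, q⟫_ℝ = 0) (hcq : ⟪c, q⟫_ℝ = 1)
    (hodd : ∀ s t : ℝ, O (-(s • p + t • q)) = -O (s • p + t • q))
    (hw : ∀ w : V, ⟪a, w⟫_ℝ = 0 → ⟪c, w⟫_ℝ = 0 → O w = 0) (y : V) :
    O y = (O p - (O q - O p - O (q - p))) * ⟪a, y⟫_ℝ + (O q - (O q - O p - O (q - p))) * ⟪c, y⟫_ℝ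
      + (O q - O p - O (q - p)) * Wf ⟪a, y⟫_ℝ ⟪c, y⟫_ℝ := by
  set b := O q - O p - O (q - p) with hb
  have ha : ∀ s t : ℝ, ⟪a, s • p + t • q⟫_ℝ = s := by
    intro s t
    rw [inner_add_right, real_inner_smul_right, real_inner_smul_right, hap, haq]; ring
  have hc : ∀ s t : ℝ, ⟪c, s • p + t • q⟫_ℝ = t := by
    intro s t
    rw [inner_add_right, real_inner_smul_right, real_inner_smul_right, hcp, hcq]; ring
  have hqp : O (q - p) = O q - O p - b := by rw [hb]; ring
  have hnp : O (-p) = -O p := by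
    have := hodd 1 0
    simpa using this
  -- the claim in coordinates, first three chambers
  have key : ∀ s t : ℝ, ((0 ≤ s ∧ 0 ≤ t) ∨ (s ≤ 0 ∧ 0 ≤ s + t) ∨ (0 ≤ t ∧ s + t ≤ 0)) →
      O (s • p + t • q) = (O p - b) * s + (O q - b) * t + b * Wf s t := by
    intro s t h
    rcases h with ⟨h1, h2⟩ | ⟨h1, h2⟩ | ⟨h1, h2⟩
    · rw [hO.add (s • p) (t • q) (by simp [real_inner_smul_right, hap, haq])
        (by simp [real_inner_smul_right, hcp, hcq])
        (by simp only [real_inner_smul_right, hap, haq, hcp, hcq]; nlinarith [mul_nonneg h1 h2]),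
        hO.hom s p h1, hO.hom t q h2]
      have : Wf s t = s + t := by
        unfold Wf
        rw [max_eq_right (a := s) (by linarith), max_eq_right (a := 0) (by linarith),
          min_eq_left, add_zero]
        exact le_min h1 (by linarith)
      rw [this]; ring
    · have e : s • p + t • q = (s + t) • q + (-s) • (q - p) := by module
      rw [e, hO.add ((s + t) • q) ((-s) • (q - p))
        (by simp [real_inner_smul_right, inner_sub_right, hap, haq])
        (by simp only [real_inner_smul_right, inner_sub_right, hap, haq, hcp, hcq]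
            nlinarith [mul_nonneg h2 (neg_nonneg.2 h1)])
        (by simp [real_inner_smul_right, inner_sub_right, hap, haq, hcp, hcq]),
        hO.hom (s + t) q h2, hO.hom (-s) (q - p) (by linarith), hqp]
      have : Wf s t = (s + t) + s := by
        unfold Wf
        rw [max_eq_right (a := s) (by linarith), max_eq_right h2,
          min_eq_left (a := s) (by linarith), min_eq_right h1]
      rw [this]; ring
    · have e : s • p + t • q = t • (q - p) + (-(s + t)) • (-p) := by module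
      rw [e, hO.add (t • (q - p)) ((-(s + t)) • (-p))
        (by simp only [real_inner_smul_right, inner_sub_right, inner_neg_right, hap, haq]
            nlinarith [mul_nonneg h1 (neg_nonneg.2 h2)])
        (by simp [real_inner_smul_right, inner_sub_right, hap, haq, hcp, hcq])
        (by simp [real_inner_smul_right, inner_sub_right, hap, haq, hcp, hcq]),
        hO.hom t (q - p) h1, hO.hom (-(s + t)) (-p) (by linarith), hqp, hnp]
      have : Wf s t = s := by
        unfold Wf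
        rw [max_eq_right (a := s) (by linarith), max_eq_left h2,
          min_eq_left (a := s) (by linarith), min_eq_right (by linarith), zero_add]
      rw [this]; ring
  have key2 : ∀ s t : ℝ, O (s • p + t • q) = (O p - b) * s + (O q - b) * t + b * Wf s t := by
    intro s t
    by_cases h : (0 ≤ s ∧ 0 ≤ t) ∨ (s ≤ 0 ∧ 0 ≤ s + t) ∨ (0 ≤ t ∧ s + t ≤ 0)
    · exact key s t h
    · have h' : (0 ≤ -s ∧ 0 ≤ -t) ∨ (-s ≤ 0 ∧ 0 ≤ -s + -t) ∨ (0 ≤ -t ∧ -s + -t ≤ 0) := by
        push Not at h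
        obtain ⟨h1, h2, h3⟩ := h
        rcases le_total 0 s with hs | hs
        · have ht := h1 hs
          rcases le_total 0 (s + t) with hst | hst
          · right; right; constructor <;> linarith
          · right; left; constructor <;> linarith
        · have hst := h2 hs
          rcases le_total 0 t with ht | ht
          · have := h3 ht
            linarith
          · left; constructor <;> linarith
      have h4 := key (-s) (-t) h'
      have h5 := hodd s t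
      have e : (-s) • p + (-t) • q = -(s • p + t • q) := by module
      rw [e, h5, Wf_neg] at h4
      linarith
  set s := ⟪a, y⟫_ℝ with hs
  set t := ⟪c, y⟫_ℝ with ht
  set w := y - (s • p + t • q) with hwd
  have hw1 : ⟪a, w⟫_ℝ = 0 := by rw [hwd, inner_sub_right, ha, ← hs]; ring
  have hw2 : ⟪c, w⟫_ℝ = 0 := by rw [hwd, inner_sub_right, hc, ← ht]; ring
  have hy : y = (s • p + t • q) + w := by rw [hwd]; abel
  have h1 : O y = O (s • p + t • q) + O w := by
    conv_lhs => rw [hy]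
    apply hO.add
    · rw [hw1]; simp
    · rw [hw2]; simp
    · rw [hw1, hw2]; simp
  rw [h1, hw w hw1 hw2, key2]
  ring

/-! identities for triangles -/

theorem tri_add_neg (a c : V) :
    tri a c + (-1 : ℝ) • tri a c = seg a + seg c + seg (-(a + c)) := by
  apply hs_ext
  intro v
  rw [hs_add, hs_neg_one_smul, hs_add, hs_add, hs_tri, hs_tri, hs_seg, hs_seg, hs_seg]
  simp only [inner_neg_left, inner_neg_right, inner_add_right]
  set s := ⟪v, a⟫_ℝ
  set t := ⟪v, c⟫_ℝ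
  rcases le_total 0 s with h1 | h1 <;> rcases le_total 0 t with h2 | h2 <;>
    rcases le_total 0 (s + t) with h3 | h3 <;>
    simp only [max_def] <;> split_ifs <;> linarith

theorem tri_cut (a c : V) {τ : ℝ} (h0 : 0 ≤ τ) (h1 : τ ≤ 1) :
    tri (τ • a) ((1 - τ) • a + c) + (pt (τ • a) + tri ((1 - τ) • a) c) =
      tri a c + (pt (τ • a) + seg ((1 - τ) • a + c)) := by
  apply hs_ext
  intro v
  simp only [hs_add, hs_pt, hs_tri, hs_seg, inner_add_right, real_inner_smul_right]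
  set s := ⟪v, a⟫_ℝ
  set t := ⟪v, c⟫_ℝ
  rw [show τ * s + ((1 - τ) * s + t) = s + t by ring]
  have e1 : τ * s + max 0 (max ((1 - τ) * s) ((1 - τ) * s + t)) =
      max (τ * s) (max s (s + t)) := by
    rw [← max_add_add_left, ← max_add_add_left]
    congr 1
    · ring
    · congr 1 <;> ring
  have e2 : τ * s + max 0 ((1 - τ) * s + t) = max (τ * s) (s + t) := by
    rw [← max_add_add_left]
    congr 1 <;> ring
  rw [e1, e2]
  rcases le_total 0 s with hs | hs
  · have h2 : 0 ≤ τ * s := mul_nonneg h0 hs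
    have h3 : τ * s ≤ s := by nlinarith
    rw [max_eq_right (a := 0) (b := max (τ * s) (s + t)) (h2.trans (le_max_left _ _)),
      max_eq_right (a := τ * s) (b := max s (s + t)) (h3.trans (le_max_left _ _)),
      max_eq_right (a := 0) (b := max s (s + t)) (hs.trans (le_max_left _ _))]
    ring
  · have h2 : τ * s ≤ 0 := mul_nonpos_of_nonneg_of_nonpos h0 hs
    have h3 : s ≤ τ * s := by nlinarith
    have e3 : max 0 (max (τ * s) (s + t)) = max 0 (s + t) := by
      rw [← max_assoc, max_eq_left h2]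
    have e4 : max (τ * s) (max s (s + t)) = max (τ * s) (s + t) := by
      rw [← max_assoc, max_eq_left h3]
    have e5 : max 0 (max s (s + t)) = max 0 (s + t) := by
      rw [← max_assoc, max_eq_left hs]
    rw [e3, e4, e5]

theorem tri_rot (a c : V) : tri a c = pt a + tri c (-(a + c)) := by
  apply hs_ext
  intro v
  simp only [hs_add, hs_pt, hs_tri, inner_add_right, inner_neg_right]
  set s := ⟪v, a⟫_ℝ
  set t := ⟪v, c⟫_ℝ
  rw [← max_add_add_left, ← max_add_add_left]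
  have e1 : s + 0 = s := by ring
  have e2 : s + (t + -(s + t)) = 0 := by ring
  rw [e1, e2, max_comm 0, max_assoc]

theorem tri_flip (a c : V) : tri a c = tri (a + c) (-c) := by
  apply hs_ext
  intro v
  simp only [hs_tri, inner_add_right, inner_neg_right]
  set s := ⟪v, a⟫_ℝ
  set t := ⟪v, c⟫_ℝ
  have e1 : s + t + -t = s := by ring
  rw [e1, max_comm s]

theorem tri_zero_left (c : V) : tri 0 c = seg c := by
  apply hs_ext
  intro v
  simp only [hs_tri, hs_seg, inner_zero_right, zero_add]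
  rw [← max_assoc, max_self]

section cuts
variable {A : ConvexBody V → ℝ}

theorem IsAdd.add_pt (hA : IsAdd A) (x : V) (K : ConvexBody V) : A (MV.pt x + K) = A K := by
  rw [hA.add, hA.pt, zero_add]

theorem IsAdd.cut_tri (hA : IsAdd A) (hs : ∀ x, A (seg x) = 0) (a c : V) {τ : ℝ} (h0 : 0 ≤ τ)
    (h1 : τ ≤ 1) : A (tri a c) = A (tri (τ • a) ((1 - τ) • a + c)) + A (tri ((1 - τ) • a) c) := by
  have h := congrArg A (tri_cut a c h0 h1)
  rw [hA.add, hA.add_pt, hA.add, hA.add_pt, hs] at h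
  linarith

theorem IsAdd.tri_rot (hA : IsAdd A) (a c : V) : A (tri a c) = A (tri c (-(a + c))) := by
  conv_lhs => rw [MV.tri_rot a c]
  rw [hA.add_pt]

/-- every triangle is cut into isosceles ones -/
theorem IsAdd.iso_kill (hA : IsAdd A) (hs : ∀ x, A (seg x) = 0) (S : Submodule ℝ V)
    (hiso : ∀ a ∈ S, ∀ c ∈ S, ‖a‖ = ‖c‖ → A (tri a c) = 0) :
    ∀ a ∈ S, ∀ c ∈ S, A (tri a c) = 0 := by
  -- right angle at the third vertex
  have h1 : ∀ a ∈ S, ∀ c ∈ S, ⟪a + c, c⟫_ℝ = 0 → A (tri a c) = 0 := by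
    intro a ha c hc hac
    rw [hA.cut_tri hs a c (τ := 1 / 2) (by norm_num) (by norm_num)]
    have e : (1 - (1 / 2 : ℝ)) = 1 / 2 := by norm_num
    rw [e]
    have hn : ‖(1 / 2 : ℝ) • a‖ = ‖(1 / 2 : ℝ) • a + c‖ := by
      have h2 : ‖(1 / 2 : ℝ) • a‖ ^ 2 = ‖(1 / 2 : ℝ) • a + c‖ ^ 2 := by
        rw [norm_add_sq_real, real_inner_smul_left, ← real_inner_self_eq_norm_sq c]
        rw [inner_add_left] at hac
        linarith
      exact (pow_left_inj₀ (norm_nonneg _) (norm_nonneg _) two_ne_zero).1 h2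
    rw [hiso _ (S.smul_mem _ ha) _ (S.add_mem (S.smul_mem _ ha) hc) hn, zero_add]
    -- relabel the second one
    rw [MV.tri_flip, hA.tri_rot, hA.tri_rot]
    have e1 : -((-c) + -((1 / 2 : ℝ) • a + c + -c)) = (1 / 2 : ℝ) • a + c := by abel
    have e2 : -((1 / 2 : ℝ) • a + c + -c) = -((1 / 2 : ℝ) • a) := by abel
    rw [e1, e2]
    exact hiso _ (S.neg_mem (S.smul_mem _ ha)) _ (S.add_mem (S.smul_mem _ ha) hc)
      (by rw [norm_neg]; exact hn)
  have h2 : ∀ a ∈ S, ∀ c ∈ S, ⟪a, c⟫_ℝ = 0 → A (tri a c) = 0 := by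
    intro a ha c hc hac
    rw [MV.tri_flip]
    apply h1 _ (S.add_mem ha hc) _ (S.neg_mem hc)
    rw [add_neg_cancel_right, inner_neg_right, hac, neg_zero]
  have h3 : ∀ a ∈ S, ∀ c ∈ S, ⟪a, a + c⟫_ℝ = 0 → A (tri a c) = 0 := by
    intro a ha c hc hac
    rw [hA.tri_rot]
    apply h1 _ hc _ (S.neg_mem (S.add_mem ha hc))
    have e : c + -(a + c) = -a := by abel
    rw [e, inner_neg_neg, hac]
  have h4 : ∀ a ∈ S, ∀ c ∈ S, 0 ≤ ⟪a, a + c⟫_ℝ → ⟪a, c⟫_ℝ ≤ 0 → A (tri a c) = 0 := by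
    intro a ha c hc h5 h6
    by_cases ha0 : a = 0
    · rw [ha0, tri_zero_left, hs]
    have hpos : 0 < ‖a‖ ^ 2 := by positivity
    have h7 : ⟪a, a + c⟫_ℝ = ‖a‖ ^ 2 + ⟪a, c⟫_ℝ := by
      rw [inner_add_right, real_inner_self_eq_norm_sq]
    set τ := ⟪a, a + c⟫_ℝ / ‖a‖ ^ 2 with hτ
    have hτ0 : 0 ≤ τ := div_nonneg h5 hpos.le
    have hτ1 : τ ≤ 1 := by
      rw [hτ, div_le_one hpos, h7]; linarith
    have h8 : ⟪a, (1 - τ) • a + c⟫_ℝ = 0 := by
      rw [inner_add_right, real_inner_smul_right, real_inner_self_eq_norm_sq, hτ, h7]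
      field_simp
      ring
    rw [hA.cut_tri hs a c hτ0 hτ1, h2 _ (S.smul_mem _ ha) _ (S.add_mem (S.smul_mem _ ha) hc)
      (by rw [real_inner_smul_left, h8, mul_zero]), zero_add]
    apply h3 _ (S.smul_mem _ ha) _ hc
    rw [real_inner_smul_left, h8, mul_zero]
  intro a ha c hc
  have e0 : ⟪a, a + c⟫_ℝ = ‖a‖ ^ 2 + ⟪a, c⟫_ℝ := by
    rw [inner_add_right, real_inner_self_eq_norm_sq]
  have e2 : ⟪c, a + c⟫_ℝ = ‖c‖ ^ 2 + ⟪a, c⟫_ℝ := by
    rw [inner_add_right, real_inner_self_eq_norm_sq, real_inner_comm]; ring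
  have hn1 := sq_nonneg ‖a‖
  have hn2 := sq_nonneg ‖c‖
  by_cases p1 : ⟪a, c⟫_ℝ ≤ 0
  · by_cases p0 : 0 ≤ ⟪a, a + c⟫_ℝ
    · exact h4 a ha c hc p0 p1
    · -- then the angle at the third vertex is acute
      push Not at p0
      have hsum : 0 ≤ ⟪a, a + c⟫_ℝ + ⟪c, a + c⟫_ℝ := by
        rw [← inner_add_left]; exact real_inner_self_nonneg
      rw [hA.tri_rot]
      apply h4 c hc _ (S.neg_mem (S.add_mem ha hc))
      · have e : c + -(a + c) = -a := by abel
        rw [e, inner_neg_right, real_inner_comm]; linarith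
      · rw [inner_neg_right]; linarith
  · push Not at p1
    rw [hA.tri_rot, hA.tri_rot]
    have e : -(c + -(a + c)) = a := by abel
    rw [e]
    apply h4 _ (S.neg_mem (S.add_mem ha hc)) a ha
    · have e' : -(a + c) + a = -c := by abel
      rw [e', inner_neg_neg, real_inner_comm, e2]; linarith
    · rw [inner_neg_left, real_inner_comm, e0]; linarith

end cuts

end FinD
end MV
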