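import Pool.Agent.Lib.MP_f30071_gt.Basic

/-!
Extension and restriction of linear isometries between a subspace and the whole space.
-/

open MeasureTheory ProbabilityTheory Filter Topology Set
open scoped InnerProductSpace Pointwise NNReal ENNReal

namespace MV

section Iso
variable {V : Type*} [NormedAddCommGroup V] [InnerProductSpace ℝ V] [FiniteDimensional ℝ V]

/-- an isometry of a subspace extends by the identity on the orthogonal complement -/
theorem ext_iso (E : Submodule ℝ V) (h : E ≃ₗᵢ[ℝ] E) :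
    ∃ g : V ≃ₗᵢ[ℝ] V, (∀ x : E, g (x : V) = (h x : V)) ∧ (∀ x ∈ Eᗮ, g x = x) ∧
      LinearMap.det (g.toLinearEquiv : V →ₗ[ℝ] V) =
        LinearMap.det (h.toLinearEquiv : E →ₗ[ℝ] E) := by
  have hc : IsCompl E Eᗮ := E.isCompl_orthogonal
  set ψ : (E × Eᗮ) ≃ₗ[ℝ] V := E.prodEquivOfIsCompl Eᗮ hc with hψ
  set m : (E × Eᗮ) ≃ₗ[ℝ] (E × Eᗮ) := h.toLinearEquiv.prodCongr (LinearEquiv.refl ℝ Eᗮ) with hm
  set g0 : V ≃ₗ[ℝ] V := (ψ.symm.trans m).trans ψ with hg0
  have hg0a : ∀ (a : E) (b : Eᗮ), g0 ((a : V) + (b : V)) = (h a : V) + (b : V) := by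
    intro a b
    have h1 : ψ.symm ((a : V) + (b : V)) = (a, b) := by
      rw [LinearEquiv.symm_apply_eq]
      simp [hψ]
    simp only [hg0, LinearEquiv.trans_apply, h1]
    simp [hψ, hm]
  have hdec : ∀ v : V, ∃ (a : E) (b : Eᗮ), v = (a : V) + (b : V) := by
    intro v
    refine ⟨(ψ.symm v).1, (ψ.symm v).2, ?_⟩
    have h1 : ψ (ψ.symm v) = v := ψ.apply_symm_apply v
    have h2 : ∀ p : E × Eᗮ, ψ p = (p.1 : V) + (p.2 : V) := by
      intro p
      simp [hψ]
    exact h1.symm.trans (h2 _)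
  have hpyth : ∀ (a : E) (b : Eᗮ), ‖(a : V) + (b : V)‖ ^ 2 = ‖(a : V)‖ ^ 2 + ‖(b : V)‖ ^ 2 := by
    intro a b
    have h0 : ⟪(a : V), (b : V)⟫_ℝ = 0 := Submodule.inner_right_of_mem_orthogonal a.2 b.2
    rw [norm_add_sq_real, h0]
    ring
  have hnorm : ∀ v, ‖g0 v‖ = ‖v‖ := by
    intro v
    obtain ⟨a, b, rfl⟩ := hdec v
    have h1 : ‖g0 ((a : V) + (b : V))‖ ^ 2 = ‖(a : V) + (b : V)‖ ^ 2 := by
      rw [hg0a, hpyth, hpyth]
      have : ‖((h a : E) : V)‖ = ‖(a : V)‖ := h.norm_map a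
      rw [this]
    exact (sq_eq_sq₀ (norm_nonneg _) (norm_nonneg _)).1 h1
  refine ⟨⟨g0, hnorm⟩, ?_, ?_, ?_⟩
  · intro x
    have := hg0a x 0
    simpa using this
  · intro x hx
    have := hg0a 0 ⟨x, hx⟩
    simpa using this
  · change LinearMap.det (g0 : V →ₗ[ℝ] V) = _
    have h1 : (g0 : V →ₗ[ℝ] V)
        = (ψ : (E × Eᗮ) →ₗ[ℝ] V) ∘ₗ (m : (E × Eᗮ) →ₗ[ℝ] (E × Eᗮ)) ∘ₗ
          (ψ.symm : V →ₗ[ℝ] (E × Eᗮ)) := by
      ext v
      rfl
    rw [h1, LinearMap.det_conj]
    have h2 : (m : (E × Eᗮ) →ₗ[ℝ] (E × Eᗮ))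
        = LinearMap.prodMap (h.toLinearEquiv : E →ₗ[ℝ] E) (LinearMap.id : Eᗮ →ₗ[ℝ] Eᗮ) := by
      ext v <;> simp [hm]
    rw [h2, LinearMap.det_prodMap, LinearMap.det_id, mul_one]

/-- an isometry fixing the orthogonal complement of `E` restricts to `E` -/
theorem res_iso (E : Submodule ℝ V) (g : V ≃ₗᵢ[ℝ] V) (hg : ∀ x ∈ Eᗮ, g x = x) :
    ∃ h : E ≃ₗᵢ[ℝ] E, ∀ x : E, (h x : V) = g (x : V) := by
  have hmem : ∀ x ∈ E, g x ∈ E := by
    intro x hx
    rw [← Submodule.orthogonal_orthogonal E, Submodule.mem_orthogonal]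
    intro y hy
    rw [← hg y hy, g.inner_map_map]
    exact Submodule.inner_left_of_mem_orthogonal hx hy
  have hmap : E.map (g.toLinearEquiv : V →ₗ[ℝ] V) = E := by
    apply Submodule.eq_of_le_of_finrank_eq
    · rintro _ ⟨x, hx, rfl⟩
      exact hmem x hx
    · exact LinearEquiv.finrank_map_eq g.toLinearEquiv E
  refine ⟨(g.submoduleMap E).trans (LinearIsometryEquiv.ofEq _ _ hmap), ?_⟩
  intro x
  rfl

/-- orthogonal complement of the span of a list -/
noncomputable def perpE (xs : List V) : Submodule ℝ V := (Submodule.span ℝ {x | x ∈ xs})ᗮ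

omit [FiniteDimensional ℝ V] in
theorem mem_perpE {xs : List V} {v : V} : v ∈ perpE xs ↔ ∀ x ∈ xs, ⟪v, x⟫_ℝ = 0 := by
  unfold perpE
  rw [Submodule.mem_orthogonal']
  constructor
  · intro h x hx
    exact h x (Submodule.subset_span hx)
  · intro h y hy
    refine Submodule.span_induction (fun x hx => h x hx) (inner_zero_right v)
      (fun a b _ _ ha hb => by rw [inner_add_right, ha, hb, add_zero])
      (fun c a _ ha => by rw [inner_smul_right, ha, mul_zero]) hy

theorem mem_perpE_perp {xs : List V} {x : V} (hx : x ∈ xs) : x ∈ (perpE xs)ᗮ := by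
  unfold perpE
  rw [Submodule.orthogonal_orthogonal]
  exact Submodule.subset_span hx

theorem finrank_perpE {xs : List V} (ho : Orthonormal ℝ (fun i : Fin xs.length => xs.get i)) :
    Module.finrank ℝ (perpE xs) + xs.length = Module.finrank ℝ V := by
  have h1 : {x | x ∈ xs} = Set.range (fun i : Fin xs.length => xs.get i) := by
    ext x
    simp [List.mem_iff_get]
  have h2 : Module.finrank ℝ (Submodule.span ℝ {x | x ∈ xs}) = xs.length := by
    rw [h1, finrank_span_eq_card ho.linearIndependent, Fintype.card_fin]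
  have h3 := Submodule.finrank_add_finrank_orthogonal (Submodule.span ℝ {x | x ∈ xs})
  unfold perpE
  omega

/-- support function of a body of a subspace at a vector of the subspace -/
theorem hs_mapB_subtype (E : Submodule ℝ V) (L : ConvexBody E) (v : E) :
    hs (mapB E.subtypeL L) (v : V) = hs L v := by
  rw [hs_mapB]
  have h1 : ContinuousLinearMap.adjoint E.subtypeL (v : V) = v := by
    refine ext_inner_right ℝ fun w => ?_
    rw [ContinuousLinearMap.adjoint_inner_left]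
    rfl
  rw [h1]

/-- support function of a body of a subspace at a vector of the whole space -/
theorem hs_mapB_subtype' (E : Submodule ℝ V) (L : ConvexBody E) (v : V) :
    hs (mapB E.subtypeL L) v = hs L (E.orthogonalProjectionOnto v) := by
  rw [hs_mapB, E.adjoint_subtypeL]

theorem mapB_subtype_isoB {E : Submodule ℝ V} {h : E ≃ₗᵢ[ℝ] E} {g : V ≃ₗᵢ[ℝ] V}
    (hg : ∀ x : E, g (x : V) = (h x : V)) (L : ConvexBody E) :
    mapB E.subtypeL (isoB h L) = isoB g (mapB E.subtypeL L) := by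
  unfold isoB
  rw [mapB_mapB, mapB_mapB]
  have h1 : E.subtypeL.comp ((h : E ≃L[ℝ] E) : E →L[ℝ] E)
      = ((g : V ≃L[ℝ] V) : V →L[ℝ] V).comp E.subtypeL := by
    ext x
    exact (hg x).symm
  rw [h1]

end Iso
end MV
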