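import Pool.Agent.Lib.MP_f30071_gt.FinD
import Pool.Agent.Lib.MP_f30071_gt.Iso

/-! Classification, part E: degree n-1 -/

open MeasureTheory ProbabilityTheory Filter Topology Set
open scoped InnerProductSpace Pointwise NNReal ENNReal

set_option linter.unusedSectionVars false
set_option linter.unusedVariables false

namespace MV

section FinE
variable {V : Type*} [NormedAddCommGroup V] [InnerProductSpace ℝ V] [FiniteDimensional ℝ V]
  [MeasurableSpace V] [BorelSpace V]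
variable {Φ : ConvexBody V → ConvexBody V} {κ₁ κₙ : ℝ}

theorem comp_top_tendsto {φ : ConvexBody V → ℝ} (hφ : IsVal φ) (K : ConvexBody V)
    (hn : 1 ≤ Module.finrank ℝ V) (h : comp (Module.finrank ℝ V) φ K = 0) :
    Tendsto (fun s : ℝ => φ (s • K) / s ^ (Module.finrank ℝ V - 1)) atTop
      (𝓝 (comp (Module.finrank ℝ V - 1) φ K)) := by
  set m := Module.finrank ℝ V - 1 with hm
  have hm1 : Module.finrank ℝ V = m + 1 := by omega
  have h1 : ∀ᶠ s : ℝ in atTop, φ (s • K) / s ^ m =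
      ∑ j ∈ Finset.range (m + 1), (s ^ j / s ^ m) * comp j φ K := by
    filter_upwards [eventually_gt_atTop 0] with s hs
    rw [mcmullen hφ hs.le K, hm1, Finset.sum_range_succ, ← hm1, h, mul_zero, add_zero,
      Finset.sum_div]
    apply Finset.sum_congr rfl
    intro j _
    ring
  have h2 : Tendsto (fun s : ℝ => ∑ j ∈ Finset.range (m + 1), (s ^ j / s ^ m) * comp j φ K) atTop
      (𝓝 (∑ j ∈ Finset.range (m + 1), (if j = m then 1 else 0) * comp j φ K)) := by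
    apply tendsto_finsetSum
    intro j hj
    apply Tendsto.mul_const
    by_cases hjm : j = m
    · rw [if_pos hjm, hjm]
      apply Tendsto.congr' _ tendsto_const_nhds
      filter_upwards [eventually_gt_atTop 0] with s hs
      rw [div_self (pow_pos hs m).ne']
    · rw [if_neg hjm]
      rw [Finset.mem_range] at hj
      exact tendsto_pow_div_pow_atTop_zero (by omega)
  have h3 : ∑ j ∈ Finset.range (m + 1), (if j = m then (1 : ℝ) else 0) * comp j φ K =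
      comp m φ K := by
    rw [Finset.sum_range_succ]
    have : ∑ j ∈ Finset.range m, (if j = m then (1 : ℝ) else 0) * comp j φ K = 0 := by
      apply Finset.sum_eq_zero
      intro j hj
      rw [Finset.mem_range] at hj
      rw [if_neg (by omega), zero_mul]
    rw [this]; simp
  rw [h3] at h2
  exact h2.congr' (h1.mono fun s hs => hs.symm)

theorem Pk.top_sub (h : Pk Φ κ₁ κₙ) (K : ConvexBody V) (v w : V) :
    comp (Module.finrank ℝ V - 1) (FF Φ (v + w)) K ≤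
      comp (Module.finrank ℝ V - 1) (FF Φ v) K + comp (Module.finrank ℝ V - 1) (FF Φ w) K := by
  have hn := h.hn
  have h1 := comp_top_tendsto (isVal_FF h.mv (v + w)) K (by omega) (h.deg_n _ K)
  have h2 := comp_top_tendsto (isVal_FF h.mv v) K (by omega) (h.deg_n _ K)
  have h3 := comp_top_tendsto (isVal_FF h.mv w) K (by omega) (h.deg_n _ K)
  refine le_of_tendsto_of_tendsto h1 (h2.add h3) ?_
  filter_upwards [eventually_gt_atTop 0] with s hs
  rw [← add_div]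
  apply div_le_div_of_nonneg_right _ (pow_pos hs _).le
  exact hs_add_right _ _ _

/-- `Ds` of the top component is sublinear -/
theorem Pk.top_sublin (h : Pk Φ κ₁ κₙ) (xs : List V) (K : ConvexBody V) :
    Sublin (fun y => Ds xs (comp (Module.finrank ℝ V - 1) (FF Φ y)) K) := by
  refine ⟨fun c v hc => DsComp_hom _ _ _ hc v, fun v w => ?_⟩
  have hv : ∀ y, IsVal (comp (Module.finrank ℝ V - 1) (FF Φ y)) :=
    fun y => isVal_comp (isVal_FF h.mv y) _
  have h1 := Ds_nonneg (((hv v).add (hv w)).sub (hv (v + w)))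
    (fun K => by
      have := h.top_sub K v w
      linarith) xs K
  obtain ⟨m, c, L, hL⟩ := Ds_expand xs K
  rw [hL] at h1
  rw [hL, hL, hL]
  have h2 : ∑ i, c i * (comp (Module.finrank ℝ V - 1) (FF Φ v) (L i) +
      comp (Module.finrank ℝ V - 1) (FF Φ w) (L i) -
      comp (Module.finrank ℝ V - 1) (FF Φ (v + w)) (L i)) =
      (∑ i, c i * comp (Module.finrank ℝ V - 1) (FF Φ v) (L i) +
      ∑ i, c i * comp (Module.finrank ℝ V - 1) (FF Φ w) (L i)) -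
      ∑ i, c i * comp (Module.finrank ℝ V - 1) (FF Φ (v + w)) (L i) := by
    rw [← Finset.sum_add_distrib, ← Finset.sum_sub_distrib]
    apply Finset.sum_congr rfl
    intro i _
    ring
  rw [h2] at h1
  linarith

/-- `Ds` does not see signs -/
theorem Ds_sign {φ : ConvexBody V → ℝ} (hφ : IsVal φ) (g : V ≃ₗᵢ[ℝ] V) (xs : List V)
    (h : ∀ x ∈ xs, g x = x ∨ g x = -x) (K : ConvexBody V) : Ds (xs.map g) φ K = Ds xs φ K := by
  induction xs generalizing K with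
  | nil => rfl
  | cons x xs ih =>
    have ih' : Ds (xs.map g) φ = Ds xs φ :=
      funext fun L => ih (fun y hy => h y (List.mem_cons_of_mem _ hy)) L
    rw [List.map_cons, Ds_cons, Ds_cons, ih']
    rcases h x List.mem_cons_self with h1 | h1
    · rw [h1]
    · rw [h1, D_neg (isVal_Ds hφ xs)]

theorem isoB_zero (g : V ≃ₗᵢ[ℝ] V) : isoB g (0 : ConvexBody V) = 0 := mapB_zero _

theorem Ds_iso_sign {φ φ' : ConvexBody V → ℝ} (hφ' : IsVal φ') (g : V ≃ₗᵢ[ℝ] V)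
    (hg : ∀ K, φ' (isoB g K) = φ K) (xs : List V)
    (h : ∀ x ∈ xs, g x = x ∨ g x = -x) (K : ConvexBody V) :
    Ds xs φ' (isoB g K) = Ds xs φ K := by
  have h1 := Ds_iso g xs φ' K
  have h2 : (fun L => φ' (isoB g L)) = φ := funext hg
  rw [h2, Ds_sign hφ' g xs h] at h1
  exact h1.symm

/-- frames -/
structure Frm (xs : List V) (e₁ e₂ : V) : Prop where
  ho : Orthonormal ℝ (fun i : Fin xs.length => xs.get i)
  hl : xs.length + 2 = Module.finrank ℝ V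
  n1 : ‖e₁‖ = 1
  n2 : ‖e₂‖ = 1
  o : ⟪e₁, e₂⟫_ℝ = 0
  p1 : ∀ x ∈ xs, ⟪e₁, x⟫_ℝ = 0
  p2 : ∀ x ∈ xs, ⟪e₂, x⟫_ℝ = 0

theorem exists_frm {xs : List V} (ho : Orthonormal ℝ (fun i : Fin xs.length => xs.get i))
    (hl : xs.length + 2 = Module.finrank ℝ V) : ∃ e₁ e₂ : V, Frm xs e₁ e₂ := by
  obtain ⟨e₂, h1, h2⟩ := exists_perp (ys := xs) (by omega)
  obtain ⟨e₁, h3, h4⟩ := exists_perp (ys := e₂ :: xs) (by simp; omega)
  exact ⟨e₁, e₂, ho, hl, h3, h1, h4 e₂ (by simp), fun x hx => h4 x (by simp [hx]), h2⟩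

theorem Frm.expand {xs : List V} {e₁ e₂ : V} (h : Frm xs e₁ e₂) {v : V}
    (hv : ∀ x ∈ xs, ⟪v, x⟫_ℝ = 0) : v = ⟪e₁, v⟫_ℝ • e₁ + ⟪e₂, v⟫_ℝ • e₂ := by
  have h1 : ⟪e₁, e₁⟫_ℝ = 1 := by rw [real_inner_self_eq_norm_sq, h.n1]; norm_num
  have h2 := eq_smul_of_perp (e := e₂) (ys := e₁ :: xs) (by simpa using (by have := h.hl; omega))
    h.n2 (by
      intro y hy
      rcases List.mem_cons.1 hy with rfl | hy
      · rw [real_inner_comm]; exact h.o
      · exact h.p2 y hy)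
    (vol_orthonormal_cons h.n1 h.p1 h.ho) (v := v - ⟪e₁, v⟫_ℝ • e₁) (by
      intro y hy
      rcases List.mem_cons.1 hy with rfl | hy
      · rw [inner_sub_left, real_inner_smul_left, h1, real_inner_comm]; ring
      · rw [inner_sub_left, real_inner_smul_left, h.p1 y hy, hv y hy]; ring)
  have h3 : ⟪e₂, v - ⟪e₁, v⟫_ℝ • e₁⟫_ℝ = ⟪e₂, v⟫_ℝ := by
    rw [inner_sub_right, real_inner_smul_right, real_inner_comm e₁ e₂, h.o]; ring
  rw [h3] at h2
  rw [← h2]; abel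

/-- rotation by a right angle in the plane of `e₁, e₂` -/
noncomputable def Jr (e₁ e₂ v : V) : V := ⟪e₁, v⟫_ℝ • e₂ - ⟪e₂, v⟫_ℝ • e₁

theorem Jr_add (e₁ e₂ v w : V) : Jr e₁ e₂ (v + w) = Jr e₁ e₂ v + Jr e₁ e₂ w := by
  unfold Jr; rw [inner_add_right, inner_add_right]; module

theorem Jr_smul (e₁ e₂ : V) (c : ℝ) (v : V) : Jr e₁ e₂ (c • v) = c • Jr e₁ e₂ v := by
  unfold Jr; rw [real_inner_smul_right, real_inner_smul_right]; module

theorem Jr_neg (e₁ e₂ v : V) : Jr e₁ e₂ (-v) = -Jr e₁ e₂ v := by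
  unfold Jr; rw [inner_neg_right, inner_neg_right]; module

theorem Frm.inner_Jr {xs : List V} {e₁ e₂ : V} (h : Frm xs e₁ e₂) (v w : V) :
    ⟪Jr e₁ e₂ v, w⟫_ℝ = ⟪e₁, v⟫_ℝ * ⟪e₂, w⟫_ℝ - ⟪e₂, v⟫_ℝ * ⟪e₁, w⟫_ℝ := by
  unfold Jr
  rw [inner_sub_left, real_inner_smul_left, real_inner_smul_left]

theorem Frm.norm_sq {xs : List V} {e₁ e₂ : V} (h : Frm xs e₁ e₂) {v : V}
    (hv : ∀ x ∈ xs, ⟪v, x⟫_ℝ = 0) : ‖v‖ ^ 2 = ⟪e₁, v⟫_ℝ ^ 2 + ⟪e₂, v⟫_ℝ ^ 2 := by
  have h1 := h.expand hv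
  rw [← real_inner_self_eq_norm_sq]
  conv_lhs => rw [h1]
  rw [inner_add_left, real_inner_smul_left, real_inner_smul_left]
  conv_lhs => rw [← h1]
  ring

theorem Frm.norm_Jr {xs : List V} {e₁ e₂ : V} (h : Frm xs e₁ e₂) {v : V}
    (hv : ∀ x ∈ xs, ⟪v, x⟫_ℝ = 0) : ‖Jr e₁ e₂ v‖ = ‖v‖ := by
  have h1 : ⟪e₁, e₁⟫_ℝ = 1 := by rw [real_inner_self_eq_norm_sq, h.n1]; norm_num
  have h2 : ⟪e₂, e₂⟫_ℝ = 1 := by rw [real_inner_self_eq_norm_sq, h.n2]; norm_num
  have h3 : ⟪e₂, e₁⟫_ℝ = 0 := by rw [real_inner_comm]; exact h.o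
  have h4 : ‖Jr e₁ e₂ v‖ ^ 2 = ‖v‖ ^ 2 := by
    rw [h.norm_sq hv, ← real_inner_self_eq_norm_sq, h.inner_Jr]
    unfold Jr
    simp only [inner_sub_right, real_inner_smul_right, h1, h2, h3, h.o]
    ring
  exact (pow_left_inj₀ (norm_nonneg _) (norm_nonneg _) two_ne_zero).1 h4

theorem Frm.Jr_perp {xs : List V} {e₁ e₂ : V} (h : Frm xs e₁ e₂) (v : V) :
    ∀ x ∈ xs, ⟪Jr e₁ e₂ v, x⟫_ℝ = 0 := by
  intro x hx
  rw [h.inner_Jr, h.p1 x hx, h.p2 x hx]; ring

theorem Frm.Jr_self {xs : List V} {e₁ e₂ : V} (h : Frm xs e₁ e₂) (v : V) :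
    ⟪Jr e₁ e₂ v, v⟫_ℝ = 0 := by
  rw [h.inner_Jr]; ring

/-- the additive functionals of the top component -/
theorem Pk.top_isAdd (h : Pk Φ κ₁ κₙ) {xs : List V} (hl : xs.length + 2 = Module.finrank ℝ V)
    (y : V) : IsAdd (Ds xs (comp (Module.finrank ℝ V - 1) (FF Φ y))) := by
  have h1 : IsVal (comp (Module.finrank ℝ V - 1) (FF Φ y)) := isVal_comp (isVal_FF h.mv y) _
  apply (isVal_Ds h1 xs).isAdd
  apply Ds_hom h1 xs
  have e : 1 + xs.length = Module.finrank ℝ V - 1 := by omega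
  rw [e]
  exact comp_isHom (isVal_FF h.mv y) (by omega)

/-- unit segments -/
theorem Pk.top_seg_unit (h : Pk Φ κ₁ κₙ) {xs : List V}
    (hl : xs.length + 2 = Module.finrank ℝ V)
    (ho : Orthonormal ℝ (fun i : Fin xs.length => xs.get i)) (x u : V) (hx : ‖x‖ = 1)
    (hxs : ∀ z ∈ xs, ⟪x, z⟫_ℝ = 0) (hu : ‖u‖ = 1) (hux : ⟪u, x⟫_ℝ = 0)
    (hus : ∀ z ∈ xs, ⟪u, z⟫_ℝ = 0) (y : V) :
    Ds xs (comp (Module.finrank ℝ V - 1) (FF Φ y)) (seg x) = κₙ * |⟪u, y⟫_ℝ| := by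
  have hn := h.hn
  have ho' := vol_orthonormal_cons hx hxs ho
  have hup : ∀ z ∈ x :: xs, ⟪u, z⟫_ℝ = 0 := by
    intro z hz
    rcases List.mem_cons.1 hz with rfl | hz
    · exact hux
    · exact hus z hz
  have hl' : (x :: xs).length + 1 = Module.finrank ℝ V := by simp; omega
  obtain ⟨p, hp⟩ := h.cube_top (x :: xs) ho' hl' u hu hup
  have hu0 : u ≠ 0 := by rintro rfl; simp at hu
  -- sign invariance
  have hsym : ∀ z ∈ x :: xs, ∀ y, Ds (x :: xs) (FF Φ (flp u z y)) 0 = Ds (x :: xs) (FF Φ y) 0 := by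
    intro z hz y
    have hz0 : z ≠ 0 := by
      rintro rfl
      obtain ⟨i, hi⟩ := List.mem_iff_get.1 hz
      have h9 : ‖(x :: xs).get i‖ = 1 := ho'.1 i
      rw [hi] at h9
      simp at h9
    have hR := rot_flp hu0 hz0
    have h1 := Ds_iso_sign (isVal_FF h.mv (flp u z y)) (flp u z)
      (fun K => FF_iso h.mv (flp u z) hR y K) (x :: xs) (by
        intro w hw
        by_cases hwz : w = z
        · right; rw [hwz]; exact flp_right (hup z hz)
        · left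
          apply flp_perp (hup w hw)
          obtain ⟨i, hi⟩ := List.mem_iff_get.1 hz
          obtain ⟨j, hj⟩ := List.mem_iff_get.1 hw
          rw [← hi, ← hj]
          apply ho'.2
          rintro rfl
          exact hwz (hj.symm.trans hi)) 0
    rw [isoB_zero] at h1
    exact h1
  set q := p + κₙ • u with hq
  have hg : ∀ y, Ds (x :: xs) (FF Φ y) 0 = ⟪q, y⟫_ℝ + κₙ * |⟪u, y⟫_ℝ| := by
    intro y
    rw [hp y, hq, inner_add_left, real_inner_smul_left]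
    rcases le_total 0 ⟪u, y⟫_ℝ with h1 | h1
    · rw [max_eq_right h1, abs_of_nonneg h1]; ring
    · rw [max_eq_left h1, abs_of_nonpos h1]; ring
  have hqz : ∀ z ∈ x :: xs, ⟪q, z⟫_ℝ = 0 := by
    intro z hz
    have h1 := hsym z hz z
    rw [hg, hg, flp_right (hup z hz), hup z hz, inner_neg_right, inner_neg_right, hup z hz] at h1
    simp at h1
    linarith
  have hqu : ⟪u, q⟫_ℝ = 0 := by
    have h1 := hsym x (by simp) u
    rw [hg, hg, flp_left hux, inner_neg_right, inner_neg_right, abs_neg] at h1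
    rw [real_inner_comm]
    linarith
  have hq0 : q = 0 := by
    have := eq_smul_of_perp hl' hu hup ho' hqz
    rw [this, hqu, zero_smul]
  have h1 : IsVal (comp (Module.finrank ℝ V - 1) (FF Φ y)) := isVal_comp (isVal_FF h.mv y) _
  have h2 : Ds xs (comp (Module.finrank ℝ V - 1) (FF Φ y)) 0 = 0 :=
    Ds_hom_ne h1 (comp_isHom (isVal_FF h.mv y) (by omega)) xs (by omega)
  have h3 : Ds (x :: xs) (comp (Module.finrank ℝ V - 1) (FF Φ y)) 0 =
      Ds xs (comp (Module.finrank ℝ V - 1) (FF Φ y)) (seg x) := by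
    rw [Ds_cons]
    show Ds xs _ (0 + seg x) - Ds xs _ 0 = _
    rw [h2, zero_add, sub_zero]
  have h4 := Ds_comp_at_zero (isVal_FF h.mv y) (x :: xs) (by omega)
  have e : (x :: xs).length = Module.finrank ℝ V - 1 := by omega
  rw [e] at h4
  rw [← h3, h4, hg, hq0, inner_zero_left, zero_add]

/-- general segments in the plane -/
theorem Pk.top_seg (h : Pk Φ κ₁ κₙ) {xs : List V} {e₁ e₂ : V} (hf : Frm xs e₁ e₂) (x : V)
    (hx : ∀ z ∈ xs, ⟪x, z⟫_ℝ = 0) (y : V) :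
    Ds xs (comp (Module.finrank ℝ V - 1) (FF Φ y)) (seg x) = κₙ * |⟪Jr e₁ e₂ x, y⟫_ℝ| := by
  have hA := h.top_isAdd hf.hl y
  by_cases hx0 : x = 0
  · rw [hx0, seg_zero]
    have : Jr e₁ e₂ (0 : V) = 0 := by unfold Jr; simp
    rw [this, inner_zero_left, abs_zero, mul_zero]
    have h2 := hA.pt 0
    rw [pt_zero] at h2
    exact h2
  · have hnx : 0 < ‖x‖ := norm_pos_iff.2 hx0
    set x0 := ‖x‖⁻¹ • x with hx0'
    have e : x = ‖x‖ • x0 := by
      rw [hx0', smul_smul, mul_inv_cancel₀ hnx.ne', one_smul]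
    have hx1 : ‖x0‖ = 1 := by rw [hx0', norm_smul, norm_inv, norm_norm, inv_mul_cancel₀ hnx.ne']
    have hxs0 : ∀ z ∈ xs, ⟪x0, z⟫_ℝ = 0 := by
      intro z hz
      rw [hx0', real_inner_smul_left, hx z hz, mul_zero]
    have h1 := h.top_seg_unit hf.hl hf.ho x0 (Jr e₁ e₂ x0) hx1 hxs0
      (by rw [hf.norm_Jr hxs0, hx1]) (hf.Jr_self x0) (hf.Jr_perp x0) y
    have h2 : seg x = ‖x‖ • seg x0 := by rw [smul_seg hnx.le, ← e]
    have h3 : Jr e₁ e₂ x0 = ‖x‖⁻¹ • Jr e₁ e₂ x := by rw [hx0', Jr_smul]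
    rw [h2, hA.smul hnx.le, h1, h3, real_inner_smul_left, abs_mul, abs_of_pos (inv_pos.2 hnx)]
    field_simp

/-- the projection body satisfies the hypotheses with constants `0, 1` -/
theorem pk_PiB (hn : 3 ≤ Module.finrank ℝ V) : Pk (PiB : ConvexBody V → ConvexBody V) 0 1 where
  hn := hn
  mv := isMVal_PiB
  k1 := le_rfl
  kn := zero_le_one
  cr := by
    intro u K _
    ring
  rw0 := by
    intro K
    unfold Rw
    ring

/-- the defect in degree `n - 1` -/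
noncomputable def Td (Φ : ConvexBody V → ConvexBody V) (κₙ : ℝ) (y : V) (K : ConvexBody V) : ℝ :=
  comp (Module.finrank ℝ V - 1) (FF Φ y) K - κₙ * comp (Module.finrank ℝ V - 1) (FF PiB y) K

theorem isVal_Td (hΦ : IsMVal Φ) (y : V) : IsVal (Td Φ κₙ y) :=
  (isVal_comp (isVal_FF hΦ y) _).sub ((isVal_comp (isVal_FF isMVal_PiB y) _).const_mul κₙ)

theorem Td_hom (hΦ : IsMVal Φ) (y : V) : IsHom (Module.finrank ℝ V - 1) (Td Φ κₙ y) := by
  intro c K hc
  unfold Td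
  rw [comp_isHom (isVal_FF hΦ y) (by omega) c K hc,
    comp_isHom (isVal_FF isMVal_PiB y) (by omega) c K hc]
  ring

theorem Td_iso (hΦ : IsMVal Φ) (g : V ≃ₗᵢ[ℝ] V) (hg : Rot g) (y : V) (K : ConvexBody V) :
    Td Φ κₙ (g y) (isoB g K) = Td Φ κₙ y K := by
  unfold Td
  rw [comp_FF_iso hΦ _ g hg, comp_FF_iso isMVal_PiB _ g hg]

theorem Ds_Td (xs : List V) (y : V) (K : ConvexBody V) :
    Ds xs (Td Φ κₙ y) K = Ds xs (comp (Module.finrank ℝ V - 1) (FF Φ y)) K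
      - κₙ * Ds xs (comp (Module.finrank ℝ V - 1) (FF PiB y)) K := by
  obtain ⟨m, c, L, hL⟩ := Ds_expand xs K
  rw [hL, hL, hL, Finset.mul_sum, ← Finset.sum_sub_distrib]
  apply Finset.sum_congr rfl
  intro i _
  unfold Td
  ring

theorem Td_isAdd (hΦ : IsMVal Φ) {xs : List V} (hl : xs.length + 2 = Module.finrank ℝ V)
    (y : V) : IsAdd (Ds xs (Td Φ κₙ y)) := by
  apply (isVal_Ds (isVal_Td hΦ y) xs).isAdd
  apply Ds_hom (isVal_Td hΦ y) xs
  have e : 1 + xs.length = Module.finrank ℝ V - 1 := by omega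
  rw [e]
  exact Td_hom hΦ y

/-- orthogonal projection along a list -/
theorem exists_proj (xs : List V) (x : V) :
    ∃ x' : V, (∀ z ∈ xs, ⟪x', z⟫_ℝ = 0) ∧ ∀ v : V, (∀ z ∈ xs, ⟪v, z⟫_ℝ = 0) →
      ⟪v, x'⟫_ℝ = ⟪v, x⟫_ℝ := by
  set S := Submodule.span ℝ {z | z ∈ xs} with hS
  refine ⟨x - S.starProjection x, ?_, ?_⟩
  · intro z hz
    have h1 : x - S.starProjection x ∈ Sᗮ := Submodule.sub_starProjection_mem_orthogonal x
    exact (Submodule.mem_orthogonal' S _).1 h1 z (Submodule.subset_span hz)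
  · intro v hv
    have h1 : v ∈ Sᗮ := by
      rw [Submodule.mem_orthogonal']
      intro z hz
      refine Submodule.span_induction (fun x hx => hv x hx) (inner_zero_right v)
        (fun a b _ _ ha hb => by rw [inner_add_right, ha, hb, add_zero])
        (fun c a _ ha => by rw [inner_smul_right, ha, mul_zero]) hz
    have h2 : ⟪v, S.starProjection x⟫_ℝ = 0 :=
      (Submodule.mem_orthogonal' S v).1 h1 _ (Submodule.starProjection_apply_mem S x)
    rw [inner_sub_right, h2, sub_zero]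

theorem Ds_seg_proj {φ : ConvexBody V → ℝ} (hφ : IsVal φ) (xs : List V) {x x' : V}
    (h : ∀ v : V, (∀ z ∈ xs, ⟪v, z⟫_ℝ = 0) → ⟪v, x'⟫_ℝ = ⟪v, x⟫_ℝ) :
    Ds xs φ (seg x') = Ds xs φ (seg x) := by
  apply Ds_congr hφ
  intro v hv
  rw [hs_seg, hs_seg, h v hv]

theorem Ds_tri_proj {φ : ConvexBody V → ℝ} (hφ : IsVal φ) (xs : List V) {x x' z z' : V}
    (h : ∀ v : V, (∀ z ∈ xs, ⟪v, z⟫_ℝ = 0) → ⟪v, x'⟫_ℝ = ⟪v, x⟫_ℝ)
    (h2 : ∀ v : V, (∀ z ∈ xs, ⟪v, z⟫_ℝ = 0) → ⟪v, z'⟫_ℝ = ⟪v, z⟫_ℝ) :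
    Ds xs φ (tri x' z') = Ds xs φ (tri x z) := by
  apply Ds_congr hφ
  intro v hv
  rw [hs_tri, hs_tri, h v hv, h2 v hv]

theorem Pk.Td_seg (h : Pk Φ κ₁ κₙ) {xs : List V} {e₁ e₂ : V} (hf : Frm xs e₁ e₂) (x y : V) :
    Ds xs (Td Φ κₙ y) (seg x) = 0 := by
  obtain ⟨x', h1, h2⟩ := exists_proj xs x
  rw [← Ds_seg_proj (isVal_Td h.mv y) xs h2, Ds_Td, h.top_seg hf x' h1,
    (pk_PiB h.hn).top_seg hf x' h1]
  ring

theorem isoB_tri_neg {e₁ e₂ a c : V} (g : V ≃ₗᵢ[ℝ] V) (ha : g a = -a) (hc : g c = -c) :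
    isoB g (tri a c) = (-1 : ℝ) • tri a c := by
  rw [isoB_tri, ha, hc]
  apply hs_ext
  intro v
  rw [hs_neg_one_smul, hs_tri, hs_tri]
  simp only [inner_neg_left, inner_neg_right]

/-- chamber linearity of the defect on triangles -/
theorem Pk.Td_chlin (h : Pk Φ κ₁ κₙ) {xs : List V} {e₁ e₂ : V} (hf : Frm xs e₁ e₂) (a c : V)
    (ha : ∀ z ∈ xs, ⟪a, z⟫_ℝ = 0) (hc : ∀ z ∈ xs, ⟪c, z⟫_ℝ = 0) :
    ChLin (fun y => Ds xs (Td Φ κₙ y) (tri a c)) (Jr e₁ e₂ a) (Jr e₁ e₂ c) := by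
  have key : ∀ {Ψ : ConvexBody V → ConvexBody V} {k₁ kₙ : ℝ}, Pk Ψ k₁ kₙ →
      ChLin (fun y => Ds xs (comp (Module.finrank ℝ V - 1) (FF Ψ y)) (tri a c))
        (Jr e₁ e₂ a) (Jr e₁ e₂ c) := by
    intro Ψ k₁ kₙ hP
    refine (ChLin.of_sum (hP.top_sublin xs (tri a c)) (hP.top_sublin xs ((-1 : ℝ) • tri a c))
      (k := kₙ) ?_).1
    intro y
    have hA := hP.top_isAdd hf.hl y
    rw [← hA.add, tri_add_neg, hA.add, hA.add, hP.top_seg hf a ha, hP.top_seg hf c hc,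
      hP.top_seg hf (-(a + c)) (by
        intro z hz
        rw [inner_neg_left, inner_add_left, ha z hz, hc z hz]; ring)]
    rw [Jr_neg, Jr_add, inner_neg_left, abs_neg, inner_add_left]
    ring
  have h1 := (key h).comb (key (pk_PiB h.hn)) 1 (-κₙ)
  have h2 : (fun y => Ds xs (Td Φ κₙ y) (tri a c)) = fun y =>
      1 * Ds xs (comp (Module.finrank ℝ V - 1) (FF Φ y)) (tri a c) +
      -κₙ * Ds xs (comp (Module.finrank ℝ V - 1) (FF PiB y)) (tri a c) := by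
    funext y
    rw [Ds_Td]; ring
  rw [h2]
  exact h1

theorem list_flp_fix {xs : List V} {e₁ e₂ : V} (hf : Frm xs e₁ e₂) :
    ∀ x ∈ xs, flp e₁ e₂ x = x := fun x hx => flp_perp (hf.p1 x hx) (hf.p2 x hx)

theorem Frm.flp_neg {xs : List V} {e₁ e₂ : V} (hf : Frm xs e₁ e₂) {v : V}
    (hv : ∀ x ∈ xs, ⟪v, x⟫_ℝ = 0) : flp e₁ e₂ v = -v := by
  have h1 := hf.expand hv
  rw [h1, map_add, map_smul, map_smul, flp_left hf.o, flp_right hf.o]
  module

theorem Frm.ne1 {xs : List V} {e₁ e₂ : V} (hf : Frm xs e₁ e₂) : e₁ ≠ 0 := by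
  rintro rfl
  have := hf.n1
  simp at this

theorem Frm.ne2 {xs : List V} {e₁ e₂ : V} (hf : Frm xs e₁ e₂) : e₂ ≠ 0 := by
  rintro rfl
  have := hf.n2
  simp at this

/-- oddness of the defect -/
theorem Pk.Td_odd (h : Pk Φ κ₁ κₙ) {xs : List V} {e₁ e₂ : V} (hf : Frm xs e₁ e₂) (a c : V)
    (ha : ∀ z ∈ xs, ⟪a, z⟫_ℝ = 0) (hc : ∀ z ∈ xs, ⟪c, z⟫_ℝ = 0) (y : V) :
    Ds xs (Td Φ κₙ (flp e₁ e₂ y)) (tri a c) = -Ds xs (Td Φ κₙ y) (tri a c) := by
  have hR := rot_flp hf.ne1 hf.ne2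
  have h1 := Ds_iso_sign (isVal_Td (κₙ := κₙ) h.mv (flp e₁ e₂ y)) (flp e₁ e₂)
    (fun K => Td_iso h.mv _ hR y K) xs (fun x hx => Or.inl (list_flp_fix hf x hx)) (tri a c)
  rw [isoB_tri_neg (e₁ := e₁) (e₂ := e₂) _ (hf.flp_neg ha) (hf.flp_neg hc)] at h1
  have hA := Td_isAdd (κₙ := κₙ) h.mv hf.hl (flp e₁ e₂ y)
  have h2 : Ds xs (Td Φ κₙ (flp e₁ e₂ y)) (tri a c) +
      Ds xs (Td Φ κₙ (flp e₁ e₂ y)) ((-1 : ℝ) • tri a c) = 0 := by
    rw [← hA.add, tri_add_neg, hA.add, hA.add, h.Td_seg hf, h.Td_seg hf, h.Td_seg hf]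
    ring
  rw [h1] at h2
  linarith

/-- isosceles triangles -/
theorem Pk.Td_iso_tri (h : Pk Φ κ₁ κₙ) {xs : List V} {e₁ e₂ : V} (hf : Frm xs e₁ e₂) (a c : V)
    (ha : ∀ z ∈ xs, ⟪a, z⟫_ℝ = 0) (hc : ∀ z ∈ xs, ⟪c, z⟫_ℝ = 0) (hac : ‖a‖ = ‖c‖) :
    ∃ α β : ℝ, ∀ y, Ds xs (Td Φ κₙ y) (tri a c) =
      α * ⟪Jr e₁ e₂ a, y⟫_ℝ + β * ⟪Jr e₁ e₂ c, y⟫_ℝ := by
  have hn := h.hn
  set Δ := ⟪Jr e₁ e₂ a, c⟫_ℝ with hΔ
  have hΔ' : ⟪Jr e₁ e₂ c, a⟫_ℝ = -Δ := by rw [hΔ, hf.inner_Jr, hf.inner_Jr]; ring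
  by_cases h0 : Δ = 0
  · -- degenerate: a segment
    have e1 := hf.norm_sq ha
    have e2 := hf.norm_sq hc
    have e3 : ⟪a, c⟫_ℝ = ⟪e₁, a⟫_ℝ * ⟪e₁, c⟫_ℝ + ⟪e₂, a⟫_ℝ * ⟪e₂, c⟫_ℝ := by
      conv_lhs => rw [hf.expand ha]
      rw [inner_add_left, real_inner_smul_left, real_inner_smul_left]
    have e4 : ⟪a, c⟫_ℝ ^ 2 = (‖a‖ ^ 2) ^ 2 := by
      have : Δ = ⟪e₁, a⟫_ℝ * ⟪e₂, c⟫_ℝ - ⟪e₂, a⟫_ℝ * ⟪e₁, c⟫_ℝ := by rw [hΔ, hf.inner_Jr]
      have e5 : (‖a‖ ^ 2) ^ 2 = ‖a‖ ^ 2 * ‖c‖ ^ 2 := by rw [hac]; ring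
      rw [e5, e1, e2, e3]
      rw [h0] at this
      nlinarith [this]
    have e6 : ⟪a, c⟫_ℝ = ‖a‖ ^ 2 ∨ ⟪a, c⟫_ℝ = -‖a‖ ^ 2 := sq_eq_sq_iff_eq_or_eq_neg.1 e4
    refine ⟨0, 0, fun y => ?_⟩
    rw [zero_mul, zero_mul, add_zero]
    have hA := Td_isAdd (κₙ := κₙ) h.mv hf.hl y
    rcases e6 with e6 | e6
    · have e7 : c = a := by
        have : ‖c - a‖ ^ 2 = 0 := by
          rw [norm_sub_sq_real, real_inner_comm, e6, ← hac]; ring
        have := pow_eq_zero_iff (two_ne_zero) |>.1 this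
        exact sub_eq_zero.1 (norm_eq_zero.1 this)
      have e8 : tri a c = seg ((2 : ℝ) • a) := by
        rw [e7]
        apply hs_ext
        intro v
        rw [hs_tri, hs_seg, real_inner_smul_right]
        set s := ⟪v, a⟫_ℝ
        rcases le_total 0 s with hs | hs
        · rw [max_eq_right (a := s) (by linarith)]; ring_nf
        · rw [max_eq_left (a := s) (by linarith), max_eq_left hs, max_eq_left (by linarith)]
      rw [e8]
      exact h.Td_seg hf _ y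
    · have e7 : c = -a := by
        have : ‖c + a‖ ^ 2 = 0 := by
          rw [norm_add_sq_real, real_inner_comm, e6, ← hac]; ring
        have := pow_eq_zero_iff (two_ne_zero) |>.1 this
        exact eq_neg_of_add_eq_zero_left (norm_eq_zero.1 this)
      have e8 : tri a c = seg a := by
        rw [e7]
        apply hs_ext
        intro v
        rw [hs_tri, hs_seg, inner_neg_right]
        set s := ⟪v, a⟫_ℝ
        have : s + -s = 0 := by ring
        rw [this, max_comm s 0, ← max_assoc, max_self]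
      rw [e8]
      exact h.Td_seg hf _ y
  · set O := fun y => Ds xs (Td Φ κₙ y) (tri a c) with hO
    have hch : ChLin O (Jr e₁ e₂ a) (Jr e₁ e₂ c) := h.Td_chlin hf a c ha hc
    have hodd0 : ∀ y, O (flp e₁ e₂ y) = -O y := h.Td_odd hf a c ha hc
    set p := Δ⁻¹ • c with hp
    set q := -(Δ⁻¹ • a) with hq
    have hperp : ∀ s t : ℝ, ∀ x ∈ xs, ⟪s • p + t • q, x⟫_ℝ = 0 := by
      intro s t x hx
      rw [hp, hq, inner_add_left, real_inner_smul_left, real_inner_smul_left,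
        real_inner_smul_left, inner_neg_left, real_inner_smul_left, ha x hx, hc x hx]
      ring
    have hodd : ∀ s t : ℝ, O (-(s • p + t • q)) = -O (s • p + t • q) := by
      intro s t
      rw [← hf.flp_neg (hperp s t)]
      exact hodd0 _
    -- vanishing on the complement
    have hw : ∀ w : V, ⟪Jr e₁ e₂ a, w⟫_ℝ = 0 → ⟪Jr e₁ e₂ c, w⟫_ℝ = 0 → O w = 0 := by
      intro w hw1 hw2
      rw [hf.inner_Jr] at hw1 hw2
      have hD : Δ = ⟪e₁, a⟫_ℝ * ⟪e₂, c⟫_ℝ - ⟪e₂, a⟫_ℝ * ⟪e₁, c⟫_ℝ := by rw [hΔ, hf.inner_Jr]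
      have h1 : Δ * ⟪e₁, w⟫_ℝ = 0 := by
        rw [hD]; linear_combination ⟪e₁, c⟫_ℝ * hw1 - ⟪e₁, a⟫_ℝ * hw2
      have h2 : Δ * ⟪e₂, w⟫_ℝ = 0 := by
        rw [hD]; linear_combination ⟪e₂, c⟫_ℝ * hw1 - ⟪e₂, a⟫_ℝ * hw2
      have h3 := (mul_eq_zero.1 h1).resolve_left h0
      have h4 := (mul_eq_zero.1 h2).resolve_left h0
      have h5 := hodd0 w
      rw [flp_perp h3 h4] at h5
      linarith
    have e1 : ⟪Jr e₁ e₂ a, p⟫_ℝ = 1 := by
      rw [hp, real_inner_smul_right, ← hΔ, inv_mul_cancel₀ h0]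
    have e2 : ⟪Jr e₁ e₂ c, p⟫_ℝ = 0 := by
      rw [hp, real_inner_smul_right, hf.Jr_self, mul_zero]
    have e3 : ⟪Jr e₁ e₂ a, q⟫_ℝ = 0 := by
      rw [hq, inner_neg_right, real_inner_smul_right, hf.Jr_self, mul_zero, neg_zero]
    have e4 : ⟪Jr e₁ e₂ c, q⟫_ℝ = 1 := by
      rw [hq, inner_neg_right, real_inner_smul_right, hΔ', mul_neg, neg_neg, inv_mul_cancel₀ h0]
    have hform := hch.odd_form e1 e2 e3 e4 hodd hw
    -- the reflection
    have hac0 : a + c ≠ 0 := by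
      intro h1
      have h2 : c = -a := by rw [← add_eq_zero_iff_neg_eq.1 h1]
      apply h0
      rw [hΔ, h2, inner_neg_right, hf.Jr_self, neg_zero]
    obtain ⟨x1, hx1⟩ : ∃ x1, x1 ∈ xs := by
      have hpos : 0 < xs.length := by have := hf.hl; omega
      exact ⟨xs.get ⟨0, hpos⟩, List.get_mem _ _⟩
    have hx1n : ‖x1‖ = 1 := by
      obtain ⟨i, hi⟩ := List.mem_iff_get.1 hx1
      rw [← hi]; exact hf.ho.1 i
    have hx10 : x1 ≠ 0 := by rintro rfl; simp at hx1n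
    set σ := flp (a + c) x1 with hσ
    have hσR : Rot σ := rot_flp hac0 hx10
    have hσa : σ a = -c := flp_swap hac (by rw [real_inner_comm]; exact hc x1 hx1)
    have hσc : σ c = -a := by
      rw [hσ, add_comm a c]
      exact flp_swap hac.symm (by rw [real_inner_comm]; exact ha x1 hx1)
    have hσs : ∀ x ∈ xs, σ x = x ∨ σ x = -x := by
      intro x hx
      have hacx : ⟪a + c, x⟫_ℝ = 0 := by rw [inner_add_left, ha x hx, hc x hx]; ring
      by_cases hxx : x = x1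
      · right
        rw [hxx]
        apply flp_right
        rw [← hxx]; exact hacx
      · left
        apply flp_perp hacx
        obtain ⟨i, hi⟩ := List.mem_iff_get.1 hx
        obtain ⟨j, hj⟩ := List.mem_iff_get.1 hx1
        rw [← hi, ← hj]
        apply hf.ho.2
        rintro rfl
        exact hxx (hi.symm.trans hj)
    have hsymm : ∀ y, O (σ y) = O y := by
      intro y
      have h1 := Ds_iso_sign (isVal_Td (κₙ := κₙ) h.mv (σ y)) σ
        (fun K => Td_iso h.mv _ hσR y K) xs hσs (tri a c)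
      rw [isoB_tri, hσa, hσc] at h1
      have h2 : tri (-c) (-a) = MV.pt (-(a + c)) + tri a c := by
        apply hs_ext
        intro v
        simp only [hs_add, hs_pt, hs_tri, inner_neg_right, inner_add_right]
        set s := ⟪v, a⟫_ℝ
        set t := ⟪v, c⟫_ℝ
        rw [← max_add_add_left, ← max_add_add_left]
        have f1 : -(s + t) + 0 = -t + -s := by ring
        have f2 : -(s + t) + s = -t := by ring
        have f3 : -(s + t) + (s + t) = 0 := by ring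
        rw [f1, f2, f3]
        ac_rfl
      rw [h2, (Td_isAdd (κₙ := κₙ) h.mv hf.hl (σ y)).add_pt] at h1
      exact h1
    have hpq : O p = O q := by
      have h1 := hsymm q
      have h2 : σ q = p := by rw [hq, map_neg, map_smul, hσa, hp]; module
      rw [h2] at h1
      exact h1
    have hqp : O (q - p) = 0 := by
      have h1 := hsymm (q - p)
      have h2 : σ (q - p) = -(q - p) := by
        rw [map_sub, hq, hp, map_neg, map_smul, map_smul, hσa, hσc]; module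
      have h3 := hodd (-1) 1
      have h4 : (-1 : ℝ) • p + (1 : ℝ) • q = q - p := by module
      rw [h4] at h3
      rw [h2, h3] at h1
      linarith
    refine ⟨O p, O q, fun y => ?_⟩
    have h1 := hform y
    rw [hqp, hpq] at h1
    rw [hpq]
    show O y = _
    rw [h1]; ring

theorem exists_inner_of_affine (f : V → ℝ) (h : ∀ y z (r : ℝ), f (y + r • z) = f y + r * f z) :
    ∃ p : V, ∀ y, f y = ⟪p, y⟫_ℝ := by
  have h0 : f 0 = 0 := by
    have := h 0 0 1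
    simp at this
    linarith
  apply exists_inner_of_linear
  · intro y z
    have := h y z 1
    simpa using this
  · intro c y
    have := h 0 y c
    simpa [h0] using this

theorem Pk.Td_linear (h : Pk Φ κ₁ κₙ) {xs : List V} {e₁ e₂ : V} (hf : Frm xs e₁ e₂)
    (K : ConvexBody V) : ∃ p : V, ∀ y, Ds xs (Td Φ κₙ y) K = ⟪p, y⟫_ℝ := by
  apply exists_inner_of_affine
  intro y z r
  have hA : IsAdd (fun K => Ds xs (Td Φ κₙ (y + r • z)) K - Ds xs (Td Φ κₙ y) K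
      - r * Ds xs (Td Φ κₙ z) K) :=
    ((Td_isAdd h.mv hf.hl _).sub' (Td_isAdd h.mv hf.hl _)).sub'
      ((Td_isAdd h.mv hf.hl _).const_mul r)
  have hseg : ∀ x, (fun K => Ds xs (Td Φ κₙ (y + r • z)) K - Ds xs (Td Φ κₙ y) K
      - r * Ds xs (Td Φ κₙ z) K) (seg x) = 0 := by
    intro x
    simp only [h.Td_seg hf]
    ring
  have htri := hA.iso_kill hseg (perpE xs) (by
    intro a ha c hc hac
    rw [mem_perpE] at ha hc
    obtain ⟨α, β, hl⟩ := h.Td_iso_tri hf a c ha hc hac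
    simp only [hl]
    simp only [inner_add_right, real_inner_smul_right]
    ring)
  have := K1 hA hseg (by
    intro a c
    obtain ⟨a', ha1, ha2⟩ := exists_proj xs a
    obtain ⟨c', hc1, hc2⟩ := exists_proj xs c
    have h1 := htri a' (mem_perpE.2 ha1) c' (mem_perpE.2 hc1)
    simp only [Ds_tri_proj (isVal_Td (κₙ := κₙ) h.mv _) xs ha2 hc2] at h1
    exact h1) K
  linarith

/-- degree `n - 1` -/
theorem Pk.deg_top (h : Pk Φ κ₁ κₙ) (y : V) (K : ConvexBody V) :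
    comp (Module.finrank ℝ V - 1) (FF Φ y) K = κₙ * hs (PiB K) y := by
  have hn := h.hn
  have h1 : Td Φ κₙ y K = 0 := by
    obtain ⟨j, hj⟩ : ∃ j, Module.finrank ℝ V - 1 = j + 1 := ⟨Module.finrank ℝ V - 2, by omega⟩
    apply lin_zero_Ds h.hn (fun y => Td Φ κₙ y) (fun y => isVal_Td h.mv y)
      (fun g hg y K => Td_iso h.mv g hg y K) (j := j)
      (fun y => by rw [← hj]; exact Td_hom h.mv y)
    intro xs hl ho K
    obtain ⟨e₁, e₂, hf⟩ := exists_frm ho (by omega)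
    exact h.Td_linear hf K
  unfold Td at h1
  rw [comp_of_isHom (isVal_FF isMVal_PiB y) (FF_PiB_hom y) (by omega) (by omega), if_pos rfl] at h1
  unfold FF at h1 ⊢
  linarith

end FinE
end MV
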