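import Pool.Agent.Lib.MP_f30071_gt.Gauss

/-!
Null sets invariant under the rotations of a subspace.
-/

open MeasureTheory ProbabilityTheory Filter Topology Set
open scoped InnerProductSpace Pointwise NNReal ENNReal

namespace MV

variable {V : Type*} [NormedAddCommGroup V] [InnerProductSpace ℝ V] [FiniteDimensional ℝ V]
  [MeasurableSpace V] [BorelSpace V]

/-! ### module InvNull (InvNull.lean) -/

namespace InvNull

omit [MeasurableSpace V] [BorelSpace V] in
/-- The rotations of `W` act transitively on the spheres of `W`. -/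
theorem trans_sub (W : Submodule ℝ V) (hW : 2 ≤ Module.finrank ℝ W) (a b : V) (ha : a ∈ W)
    (hb : b ∈ W) (hab : ‖a‖ = ‖b‖) :
    ∃ g : V ≃ₗᵢ[ℝ] V, Rot g ∧ (∀ x ∈ Wᗮ, g x = x) ∧ g a = b := by
  by_cases hab' : a = b
  · refine ⟨LinearIsometryEquiv.refl ℝ V, ?_, fun x _ => rfl, hab'⟩
    unfold Rot
    exact LinearMap.det_id
  have hfix : ∀ w ∈ W, ∀ x ∈ Wᗮ, (ℝ ∙ w)ᗮ.reflection x = x := by
    intro w hw x hx
    refine Submodule.reflection_mem_subspace_eq_self ?_
    rw [Submodule.mem_orthogonal_singleton_iff_inner_right]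
    exact (Submodule.mem_orthogonal W x).1 hx w hw
  have hdet : ∀ w : V, w ≠ 0 →
      LinearMap.det (((ℝ ∙ w)ᗮ.reflection).toLinearEquiv : V →ₗ[ℝ] V) = -1 := by
    intro w hw
    have h1 := (ℝ ∙ w)ᗮ.det_reflection
    rw [Submodule.orthogonal_orthogonal, finrank_span_singleton hw, pow_one] at h1
    exact h1
  -- a vector of `W` orthogonal to `b`
  obtain ⟨z, hzW, hz0, hzb⟩ : ∃ z ∈ W, z ≠ 0 ∧ ⟪z, b⟫_ℝ = 0 := by
    by_contra hcon
    push Not at hcon
    have h1 : Function.Injective ((innerSL ℝ b).toLinearMap.comp W.subtype) := by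
      rw [← LinearMap.ker_eq_bot, LinearMap.ker_eq_bot']
      intro m hm
      by_contra hm0
      have h2 : (m : V) ≠ 0 := fun h => hm0 (Subtype.ext h)
      refine hcon m m.2 h2 ?_
      rw [real_inner_comm]
      exact hm
    have h3 := LinearMap.finrank_le_finrank_of_injective h1
    rw [Module.finrank_self] at h3
    omega
  set g1 : V ≃ₗᵢ[ℝ] V := (ℝ ∙ (a - b))ᗮ.reflection with hg1
  set g2 : V ≃ₗᵢ[ℝ] V := (ℝ ∙ z)ᗮ.reflection with hg2
  have hg1a : g1 a = b := Submodule.reflection_sub hab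
  have hg2b : g2 b = b := by
    refine Submodule.reflection_mem_subspace_eq_self ?_
    rw [Submodule.mem_orthogonal_singleton_iff_inner_right]
    exact hzb
  refine ⟨g1.trans g2, ?_, ?_, ?_⟩
  · unfold Rot
    have h1 : ((g1.trans g2).toLinearEquiv : V →ₗ[ℝ] V) =
        (g2.toLinearEquiv : V →ₗ[ℝ] V).comp (g1.toLinearEquiv : V →ₗ[ℝ] V) := rfl
    rw [h1, LinearMap.det_comp, hg1, hg2, hdet z hz0, hdet (a - b) (sub_ne_zero.2 hab')]
    norm_num
  · intro x hx
    rw [LinearIsometryEquiv.trans_apply, hg1, hfix (a - b) (W.sub_mem ha hb) x hx, hg2,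
      hfix z hzW x hx]
  · rw [LinearIsometryEquiv.trans_apply, hg1a, hg2b]

end InvNull

theorem inv_null (W : Submodule ℝ V) (u : V) (huW : u ∈ W) (hu : ‖u‖ = 1)
    (hW : 2 ≤ Module.finrank ℝ W) (Z : Set V) (_hZm : MeasurableSet Z)
    (hZ : stdGaussian V Z = 0)
    (hinv : ∀ g : V ≃ₗᵢ[ℝ] V, Rot g →
      (∀ x ∈ Wᗮ, g x = x) → ∀ e ∈ Z, g e ∈ Z) :
    stdGaussian V ((fun z => prj u z) ⁻¹' Z) = 0 := by
  rw [gauss_null_iff] at hZ ⊢
  -- components in `W` and in its orthogonal complement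
  set p : V →L[ℝ] V := W.starProjection with hp
  have hpW : ∀ z, p z ∈ W := fun z => Submodule.starProjection_apply_mem W z
  have hpo : ∀ z, z - p z ∈ Wᗮ := fun z => Submodule.sub_starProjection_mem_orthogonal z
  -- `q z` is the component of `p z` orthogonal to `u`
  set q : V →L[ℝ] V := p - (innerSL ℝ u).smulRight u with hq
  have hqa : ∀ z, q z = p z - ⟪u, z⟫_ℝ • u := by
    intro z
    simp [hq]
  have hqW : ∀ z, q z ∈ W := by
    intro z
    rw [hqa]
    exact W.sub_mem (hpW z) (W.smul_mem _ huW)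
  have hprj : ∀ z, prj u z = q z + (z - p z) := by
    intro z
    rw [hqa, prj, hu]
    simp
  have hpin : ∀ z, ⟪u, p z⟫_ℝ = ⟪u, z⟫_ℝ := by
    intro z
    have h1 := (Submodule.mem_orthogonal W (z - p z)).1 (hpo z) u huW
    rw [inner_sub_right] at h1
    linarith
  have hpW' : ∀ z ∈ W, p z = z := fun z hz => Submodule.starProjection_eq_self_iff.2 hz
  have hpp : ∀ z, p (p z) = p z := fun z => hpW' _ (hpW z)
  have hp0 : ∀ z, q z ≠ 0 → p z ≠ 0 := by
    intro z hz h
    apply hz
    rw [hqa, ← hpin, h]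
    simp
  -- the map `S`
  set S : V → V := fun w => (w - p w) + (‖p w‖ / ‖q w‖) • p w with hS
  have hdiff : DifferentiableOn ℝ S (Z ∩ {w | q w ≠ 0}) := by
    intro w hw
    have hqw : q w ≠ 0 := hw.2
    have hpw : p w ≠ 0 := hp0 w hqw
    refine DifferentiableAt.differentiableWithinAt ?_
    have h1 : DifferentiableAt ℝ (fun w => ‖p w‖) w :=
      (p.differentiableAt).norm ℝ hpw
    have h2 : DifferentiableAt ℝ (fun w => ‖q w‖) w :=
      (q.differentiableAt).norm ℝ hqw
    have h3 : ‖q w‖ ≠ 0 := norm_ne_zero_iff.2 hqw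
    have h4 : DifferentiableAt ℝ (fun w => ‖p w‖ / ‖q w‖) w := by
      simp only [div_eq_mul_inv]
      exact h1.mul (h2.inv h3)
    have h5 : DifferentiableAt ℝ (fun w : V => w - p w) w :=
      differentiableAt_id.sub p.differentiableAt
    exact h5.add (h4.smul p.differentiableAt)
  have hnull1 : (volume : Measure V) (S '' (Z ∩ {w | q w ≠ 0})) = 0 :=
    addHaar_image_eq_zero_of_differentiableOn_of_addHaar_eq_zero volume hdiff
      (measure_mono_null inter_subset_left hZ)
  have hker : LinearMap.ker (q : V →ₗ[ℝ] V) ≠ ⊤ := by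
    intro h
    have h2 : W ≤ Submodule.span ℝ {u} := by
      intro w hw
      have h3 : w ∈ LinearMap.ker (q : V →ₗ[ℝ] V) := by rw [h]; trivial
      have h4 : q w = 0 := h3
      rw [hqa, hpW' w hw, sub_eq_zero] at h4
      rw [h4]
      exact Submodule.smul_mem _ _ (Submodule.mem_span_singleton_self u)
    have h5 := Submodule.finrank_mono h2
    have h6 : Module.finrank ℝ (Submodule.span ℝ {u}) ≤ 1 := by
      have h7 := finrank_span_singleton (K := ℝ) (v := u) (by
        intro h0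
        rw [h0, norm_zero] at hu
        exact zero_ne_one hu)
      exact h7.le
    omega
  have hnull2 : (volume : Measure V) {w | q w = 0} = 0 :=
    Measure.addHaar_submodule volume (LinearMap.ker (q : V →ₗ[ℝ] V)) hker
  refine measure_mono_null ?_ (measure_union_null hnull1 hnull2)
  intro z hz
  have hz : prj u z ∈ Z := hz
  by_cases hqz : q z = 0
  · exact Or.inr hqz
  left
  have hqn : ‖q z‖ ≠ 0 := norm_ne_zero_iff.2 hqz
  have hpn : ‖p z‖ ≠ 0 := norm_ne_zero_iff.2 (hp0 z hqz)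
  set c : ℝ := ‖q z‖ / ‖p z‖ with hc
  have hc0 : 0 < c := div_pos (norm_pos_iff.2 hqz) (norm_pos_iff.2 (hp0 z hqz))
  set T : V := (z - p z) + c • p z with hT
  have hpT : p T = c • p z := by
    rw [hT, map_add, map_sub, map_smul, hpp, sub_self, zero_add]
  have hqT : q T = c • q z := by
    rw [hqa, hqa, ← hpin T, hpT, inner_smul_right, hpin, smul_sub, smul_smul]
  refine ⟨T, ⟨?_, ?_⟩, ?_⟩
  · have hb : c • p z ∈ W := W.smul_mem _ (hpW z)
    have hab : ‖q z‖ = ‖c • p z‖ := by
      rw [norm_smul, Real.norm_of_nonneg hc0.le, hc]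
      field_simp
    obtain ⟨g, hg1, hg2, hg3⟩ := InvNull.trans_sub W hW (q z) (c • p z) (hqW z) hb hab
    have h1 := hinv g hg1 hg2 _ hz
    rw [hprj, map_add, hg3, hg2 _ (hpo z), add_comm] at h1
    exact h1
  · change q T ≠ 0
    rw [hqT]
    exact smul_ne_zero hc0.ne' hqz
  · simp only [hS]
    rw [hpT, hqT, norm_smul, norm_smul, Real.norm_of_nonneg hc0.le, smul_smul]
    have h1 : c * ‖p z‖ / (c * ‖q z‖) * c = 1 := by
      rw [hc]
      field_simp
    rw [h1, hT]
    simp

end MV
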