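import Pool.Agent.Lib.MP_f30071_gt.FinE
import Pool.Agent.Lib.MP_f30071_gt.InvNull

/-! Classification, part F: degree one -/

open MeasureTheory ProbabilityTheory Filter Topology Set
open scoped InnerProductSpace Pointwise NNReal ENNReal

set_option linter.unusedSectionVars false
set_option linter.unusedVariables false

namespace MV

section FinF
variable {V : Type*} [NormedAddCommGroup V] [InnerProductSpace ℝ V] [FiniteDimensional ℝ V]
  [MeasurableSpace V] [BorelSpace V]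
variable {Φ : ConvexBody V → ConvexBody V} {κ₁ κₙ : ℝ}

/-- the difference body satisfies the hypotheses with constants `2, 0` -/
theorem pk_Dif (hn : 3 ≤ Module.finrank ℝ V) : Pk (Dif : ConvexBody V → ConvexBody V) 2 0 where
  hn := hn
  mv := isMVal_Dif
  k1 := zero_le_two
  kn := le_rfl
  cr := by
    intro u K _
    rw [N0_Dif]; ring
  rw0 := by
    intro K
    unfold Rw
    ring

theorem Pk.FF_zero (h : Pk Φ κ₁ κₙ) (y : V) : FF Φ y 0 = 0 := by
  have := h.deg_zero y 0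
  rw [comp_zero (isVal_FF h.mv y)] at this
  exact this

theorem Pk.one_isAdd (h : Pk Φ κ₁ κₙ) (y : V) : IsAdd (comp 1 (FF Φ y)) := by
  have hn := h.hn
  exact (isVal_comp (isVal_FF h.mv y) 1).isAdd (comp_isHom (isVal_FF h.mv y) (by omega))

theorem Pk.one_sublin (h : Pk Φ κ₁ κₙ) (K : ConvexBody V) :
    Sublin (fun y => comp 1 (FF Φ y) K) := by
  refine ⟨fun c v hc => DsComp_hom [] 1 K hc v, fun v w => ?_⟩
  apply comp_one_sub h.mv [] K v w
  show FF Φ (v + w) 0 = FF Φ v 0 + FF Φ w 0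
  rw [h.FF_zero, h.FF_zero, h.FF_zero, add_zero]

theorem exists_perp_ne (hn : 3 ≤ Module.finrank ℝ V) (x : V) : ∃ v : V, v ≠ 0 ∧ ⟪v, x⟫_ℝ = 0 := by
  obtain ⟨e, he, hp⟩ := exists_perp (ys := [x]) (by simp; omega)
  exact ⟨e, by rintro rfl; simp at he, hp x (by simp)⟩

theorem Pk.one_seg_unit (h : Pk Φ κ₁ κₙ) (x : V) (hx : ‖x‖ = 1) (y : V) :
    comp 1 (FF Φ y) (seg x) = κ₁ / 2 * |⟪x, y⟫_ℝ| := by
  have hn := h.hn
  obtain ⟨p, hp⟩ := h.cube_one x hx
  have hx0 : x ≠ 0 := by rintro rfl; simp at hx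
  have hsym : ∀ v : V, v ≠ 0 → ⟪x, v⟫_ℝ = 0 → ∀ y, Ds [x] (FF Φ (flp x v y)) 0 =
      Ds [x] (FF Φ y) 0 := by
    intro v hv hxv y
    have hR := rot_flp hx0 hv
    have h1 := Ds_iso_sign (isVal_FF h.mv (flp x v y)) (flp x v)
      (fun K => FF_iso h.mv (flp x v) hR y K) [x] (by
        intro w hw
        rw [List.mem_singleton] at hw
        right
        rw [hw]
        exact flp_left hxv) 0
    rw [isoB_zero] at h1
    exact h1
  set q := p + (κ₁ / 2) • x with hq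
  have hg : ∀ y, Ds [x] (FF Φ y) 0 = ⟪q, y⟫_ℝ + κ₁ / 2 * |⟪x, y⟫_ℝ| := by
    intro y
    rw [hp y, hq, inner_add_left, real_inner_smul_left]
    rcases le_total 0 ⟪x, y⟫_ℝ with h1 | h1
    · rw [max_eq_right h1, abs_of_nonneg h1]; ring
    · rw [max_eq_left h1, abs_of_nonpos h1]; ring
  have hqx : ⟪q, x⟫_ℝ = 0 := by
    obtain ⟨v, hv, hvx⟩ := exists_perp_ne hn x
    have hxv : ⟪x, v⟫_ℝ = 0 := by rw [real_inner_comm]; exact hvx
    have h1 := hsym v hv hxv x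
    rw [hg, hg, flp_left hxv, inner_neg_right, inner_neg_right, abs_neg] at h1
    linarith
  have hq0 : q = 0 := by
    by_contra hne
    have hxq : ⟪x, q⟫_ℝ = 0 := by rw [real_inner_comm]; exact hqx
    have h1 := hsym q hne hxq q
    rw [hg, hg, flp_right hxq, inner_neg_right, inner_neg_right, abs_neg, hxq, abs_zero] at h1
    have h2 : ⟪q, q⟫_ℝ = 0 := by linarith
    exact hne (inner_self_eq_zero.1 h2)
  have h1 : IsVal (comp 1 (FF Φ y)) := isVal_comp (isVal_FF h.mv y) _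
  have h2 : comp 1 (FF Φ y) 0 = 0 := by
    have := (h.one_isAdd y).pt 0
    rw [pt_zero] at this
    exact this
  have h3 : Ds [x] (comp 1 (FF Φ y)) 0 = comp 1 (FF Φ y) (seg x) := by
    show comp 1 (FF Φ y) (0 + seg x) - comp 1 (FF Φ y) 0 = _
    rw [h2, zero_add, sub_zero]
  have h4 := Ds_comp_at_zero (isVal_FF h.mv y) [x] (by simp; omega)
  rw [List.length_singleton] at h4
  rw [← h3, h4, hg, hq0, inner_zero_left, zero_add]

theorem Pk.one_seg (h : Pk Φ κ₁ κₙ) (x y : V) :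
    comp 1 (FF Φ y) (seg x) = κ₁ / 2 * |⟪x, y⟫_ℝ| := by
  have hA := h.one_isAdd y
  by_cases hx0 : x = 0
  · rw [hx0, seg_zero, inner_zero_left, abs_zero, mul_zero]
    have h2 := hA.pt 0
    rw [pt_zero] at h2
    exact h2
  · have hnx : 0 < ‖x‖ := norm_pos_iff.2 hx0
    set x0 := ‖x‖⁻¹ • x with hx0'
    have e : x = ‖x‖ • x0 := by
      rw [hx0', smul_smul, mul_inv_cancel₀ hnx.ne', one_smul]
    have hx1 : ‖x0‖ = 1 := by rw [hx0', norm_smul, norm_inv, norm_norm, inv_mul_cancel₀ hnx.ne']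
    have h1 := h.one_seg_unit x0 hx1 y
    have h2 : seg x = ‖x‖ • seg x0 := by rw [smul_seg hnx.le, ← e]
    rw [h2, hA.smul hnx.le, h1]
    conv_rhs => rw [e, real_inner_smul_left, abs_mul, abs_of_pos hnx]
    ring

/-- the defect in degree one -/
noncomputable def Od (Φ : ConvexBody V → ConvexBody V) (κ₁ : ℝ) (y : V) (K : ConvexBody V) : ℝ :=
  comp 1 (FF Φ y) K - κ₁ / 2 * comp 1 (FF Dif y) K

theorem Pk.Od_isAdd (h : Pk Φ κ₁ κₙ) (y : V) : IsAdd (Od Φ κ₁ y) :=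
  (h.one_isAdd y).sub' (((pk_Dif h.hn).one_isAdd y).const_mul _)

theorem Pk.Od_seg (h : Pk Φ κ₁ κₙ) (x y : V) : Od Φ κ₁ y (seg x) = 0 := by
  unfold Od
  rw [h.one_seg, (pk_Dif h.hn).one_seg]; ring

theorem Od_iso (hΦ : IsMVal Φ) (g : V ≃ₗᵢ[ℝ] V) (hg : Rot g) (y : V) (K : ConvexBody V) :
    Od Φ κ₁ (g y) (isoB g K) = Od Φ κ₁ y K := by
  unfold Od
  rw [comp_FF_iso hΦ _ g hg, comp_FF_iso isMVal_Dif _ g hg]

theorem Pk.Od_chlin (h : Pk Φ κ₁ κₙ) (a c : V) : ChLin (fun y => Od Φ κ₁ y (tri a c)) a c := by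
  have key : ∀ {Ψ : ConvexBody V → ConvexBody V} {k₁ kₙ : ℝ}, Pk Ψ k₁ kₙ →
      ChLin (fun y => comp 1 (FF Ψ y) (tri a c)) a c := by
    intro Ψ k₁ kₙ hP
    refine (ChLin.of_sum (hP.one_sublin (tri a c)) (hP.one_sublin ((-1 : ℝ) • tri a c))
      (k := k₁ / 2) ?_).1
    intro y
    have hA := hP.one_isAdd y
    rw [← hA.add, tri_add_neg, hA.add, hA.add, hP.one_seg, hP.one_seg, hP.one_seg]
    rw [inner_neg_left, abs_neg, inner_add_left]
    ring
  have h1 := (key h).comb (key (pk_Dif h.hn)) 1 (-(κ₁ / 2))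
  have h2 : (fun y => Od Φ κ₁ y (tri a c)) = fun y =>
      1 * comp 1 (FF Φ y) (tri a c) + -(κ₁ / 2) * comp 1 (FF Dif y) (tri a c) := by
    funext y
    unfold Od; ring
  rw [h2]
  exact h1

/-- orthonormal pairs -/
structure Onp (e₁ e₂ : V) : Prop where
  n1 : ‖e₁‖ = 1
  n2 : ‖e₂‖ = 1
  o : ⟪e₁, e₂⟫_ℝ = 0

theorem Onp.i1 {e₁ e₂ : V} (h : Onp e₁ e₂) : ⟪e₁, e₁⟫_ℝ = 1 := by
  rw [real_inner_self_eq_norm_sq, h.n1]; norm_num
theorem Onp.i2 {e₁ e₂ : V} (h : Onp e₁ e₂) : ⟪e₂, e₂⟫_ℝ = 1 := by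
  rw [real_inner_self_eq_norm_sq, h.n2]; norm_num
theorem Onp.o' {e₁ e₂ : V} (h : Onp e₁ e₂) : ⟪e₂, e₁⟫_ℝ = 0 := by
  rw [real_inner_comm]; exact h.o
theorem Onp.ne1 {e₁ e₂ : V} (h : Onp e₁ e₂) : e₁ ≠ 0 := by
  rintro rfl
  have := h.n1
  simp at this
theorem Onp.ne2 {e₁ e₂ : V} (h : Onp e₁ e₂) : e₂ ≠ 0 := by
  rintro rfl
  have := h.n2
  simp at this

/-- the crease coefficient of the defect on a triangle -/
def HasB (Φ : ConvexBody V → ConvexBody V) (κ₁ : ℝ) (a c : V) (b : ℝ) : Prop :=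
  ∃ A B : ℝ, ∀ y, Od Φ κ₁ y (tri a c) = A * ⟪a, y⟫_ℝ + B * ⟪c, y⟫_ℝ + b * Wf ⟪a, y⟫_ℝ ⟪c, y⟫_ℝ

/-- dual pairs -/
def Dua (a c : V) : Prop :=
  ∃ p q : V, ⟪a, p⟫_ℝ = 1 ∧ ⟪c, p⟫_ℝ = 0 ∧ ⟪a, q⟫_ℝ = 0 ∧ ⟪c, q⟫_ℝ = 1

theorem Dua.surj {a c : V} (h : Dua a c) (s t : ℝ) : ∃ y : V, ⟪a, y⟫_ℝ = s ∧ ⟪c, y⟫_ℝ = t := by
  obtain ⟨p, q, h1, h2, h3, h4⟩ := h
  refine ⟨s • p + t • q, ?_, ?_⟩
  · rw [inner_add_right, real_inner_smul_right, real_inner_smul_right, h1, h3]; ring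
  · rw [inner_add_right, real_inner_smul_right, real_inner_smul_right, h2, h4]; ring

theorem Onp.dua {e₁ e₂ : V} (h : Onp e₁ e₂) {α γ δ : ℝ} (hα : α ≠ 0) (hδ : δ ≠ 0) :
    ⟪α • e₁, α⁻¹ • e₁ - (α⁻¹ * γ * δ⁻¹) • e₂⟫_ℝ = 1 ∧
    ⟪γ • e₁ + δ • e₂, α⁻¹ • e₁ - (α⁻¹ * γ * δ⁻¹) • e₂⟫_ℝ = 0 ∧
    ⟪α • e₁, δ⁻¹ • e₂⟫_ℝ = 0 ∧ ⟪γ • e₁ + δ • e₂, δ⁻¹ • e₂⟫_ℝ = 1 := by
  simp only [inner_add_left, inner_sub_right, real_inner_smul_left, real_inner_smul_right,
    h.i1, h.i2, h.o, h.o']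
  refine ⟨?_, ?_, ?_, ?_⟩
  · field_simp; ring
  · field_simp; ring
  · ring
  · field_simp; ring

/-- existence of the crease coefficient -/
theorem Pk.exists_hasB (h : Pk Φ κ₁ κₙ) {e₁ e₂ : V} (ho : Onp e₁ e₂) {α γ δ : ℝ} (hα : α ≠ 0)
    (hδ : δ ≠ 0) : ∃ b, HasB Φ κ₁ (α • e₁) (γ • e₁ + δ • e₂) b := by
  set a := α • e₁ with ha
  set c := γ • e₁ + δ • e₂ with hc
  obtain ⟨h1, h2, h3, h4⟩ := ho.dua (γ := γ) hα hδ
  set p := α⁻¹ • e₁ - (α⁻¹ * γ * δ⁻¹) • e₂ with hp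
  set q := δ⁻¹ • e₂ with hq
  have hR := rot_flp ho.ne1 ho.ne2
  have hfa : flp e₁ e₂ a = -a := by rw [ha, map_smul, flp_left ho.o]; module
  have hfc : flp e₁ e₂ c = -c := by
    rw [hc, map_add, map_smul, map_smul, flp_left ho.o, flp_right ho.o]; module
  have hodd0 : ∀ y, Od Φ κ₁ (flp e₁ e₂ y) (tri a c) = -Od Φ κ₁ y (tri a c) := by
    intro y
    have h5 := Od_iso (κ₁ := κ₁) h.mv (flp e₁ e₂) hR y (tri a c)
    rw [isoB_tri_neg (e₁ := e₁) (e₂ := e₂) _ hfa hfc] at h5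
    have hA := h.Od_isAdd (flp e₁ e₂ y)
    have h6 : Od Φ κ₁ (flp e₁ e₂ y) (tri a c) +
        Od Φ κ₁ (flp e₁ e₂ y) ((-1 : ℝ) • tri a c) = 0 := by
      rw [← hA.add, tri_add_neg, hA.add, hA.add, h.Od_seg, h.Od_seg, h.Od_seg]
      ring
    rw [h5] at h6
    linarith
  have hform := (h.Od_chlin a c).odd_form h1 h2 h3 h4
    (by
      intro s t
      have e : -(s • p + t • q) = flp e₁ e₂ (s • p + t • q) := by
        rw [hp, hq]
        simp only [map_add, map_sub, map_smul, flp_left ho.o, flp_right ho.o]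
        module
      show Od Φ κ₁ (-(s • p + t • q)) (tri a c) = -Od Φ κ₁ (s • p + t • q) (tri a c)
      rw [e]
      exact hodd0 _)
    (by
      intro w hw1 hw2
      show Od Φ κ₁ w (tri a c) = 0
      rw [ha, real_inner_smul_left] at hw1
      have h5 := (mul_eq_zero.1 hw1).resolve_left hα
      rw [hc, inner_add_left, real_inner_smul_left, real_inner_smul_left, h5] at hw2
      have h6 : ⟪e₂, w⟫_ℝ = 0 := by
        have : δ * ⟪e₂, w⟫_ℝ = 0 := by linarith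
        exact (mul_eq_zero.1 this).resolve_left hδ
      have h7 := hodd0 w
      rw [flp_perp h5 h6] at h7
      linarith)
  exact ⟨_, _, _, hform⟩

theorem Wf_hom (r s t : ℝ) (hr : 0 ≤ r) : Wf (r * s) (r * t) = r * Wf s t := by
  unfold Wf
  have e : r * s + r * t = r * (s + t) := by ring
  rw [e, ← mul_max_of_nonneg _ _ hr, ← mul_min_of_nonneg _ _ hr]
  have e1 : max 0 (r * max s (s + t)) = r * max 0 (max s (s + t)) := by
    have h1 := mul_max_of_nonneg 0 (max s (s + t)) hr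
    rw [mul_zero] at h1
    exact h1.symm
  have e2 : min 0 (r * min s (s + t)) = r * min 0 (min s (s + t)) := by
    have h1 := mul_min_of_nonneg 0 (min s (s + t)) hr
    rw [mul_zero] at h1
    exact h1.symm
  rw [e1, e2]; ring

theorem HasB.unique {a c : V} {b b' : ℝ} (hd : Dua a c) (h : HasB Φ κ₁ a c b)
    (h' : HasB Φ κ₁ a c b') : b = b' := by
  obtain ⟨A, B, h⟩ := h
  obtain ⟨A', B', h'⟩ := h'
  have key : ∀ s t : ℝ, A * s + B * t + b * Wf s t = A' * s + B' * t + b' * Wf s t := by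
    intro s t
    obtain ⟨y, hy1, hy2⟩ := hd.surj s t
    have e1 := h y
    have e2 := h' y
    rw [hy1, hy2] at e1 e2
    rw [← e1, ← e2]
  have k1 := key 1 0
  have k2 := key 0 1
  have k3 := key (-1) 1
  have w1 : Wf 1 0 = 1 := by unfold Wf; norm_num
  have w2 : Wf 0 1 = 1 := by unfold Wf; norm_num
  have w3 : Wf (-1) 1 = -1 := by unfold Wf; norm_num
  rw [w1] at k1
  rw [w2] at k2
  rw [w3] at k3
  linarith

theorem Pk.hasB_scale (h : Pk Φ κ₁ κₙ) {a c : V} {b : ℝ} (hb : HasB Φ κ₁ a c b) {r : ℝ}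
    (hr : 0 ≤ r) : HasB Φ κ₁ (r • a) (r • c) b := by
  obtain ⟨A, B, hb⟩ := hb
  refine ⟨A, B, fun y => ?_⟩
  have e : tri (r • a) (r • c) = r • tri a c := by
    apply hs_ext
    intro v
    rw [hs_smul hr, hs_tri, hs_tri, real_inner_smul_right, real_inner_smul_right,
      mul_max_of_nonneg _ _ hr, mul_max_of_nonneg _ _ hr]
    ring_nf
  rw [e, (h.Od_isAdd y).smul hr, hb, real_inner_smul_left, real_inner_smul_left, Wf_hom _ _ _ hr]
  ring

theorem Pk.hasB_rot (h : Pk Φ κ₁ κₙ) {a c : V} {b : ℝ} (hb : HasB Φ κ₁ a c b) (g : V ≃ₗᵢ[ℝ] V)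
    (hg : Rot g) : HasB Φ κ₁ (g a) (g c) b := by
  obtain ⟨A, B, hb⟩ := hb
  refine ⟨A, B, fun y => ?_⟩
  have h1 := Od_iso (κ₁ := κ₁) h.mv g hg (g.symm y) (tri a c)
  rw [LinearIsometryEquiv.apply_symm_apply, isoB_tri] at h1
  have e : ∀ z : V, ⟪z, g.symm y⟫_ℝ = ⟪g z, y⟫_ℝ := by
    intro z
    have := g.inner_map_map z (g.symm y)
    rw [LinearIsometryEquiv.apply_symm_apply] at this
    exact this.symm
  rw [h1, hb, e, e]

/-- cutting a triangle does not change the crease coefficient -/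
theorem Pk.hasB_cut (h : Pk Φ κ₁ κₙ) {a c : V} (hd : Dua a c) {τ : ℝ} (h0 : 0 < τ) (h1 : τ < 1)
    {b b₁ b₂ : ℝ} (hb : HasB Φ κ₁ a c b) (hb₁ : HasB Φ κ₁ (τ • a) ((1 - τ) • a + c) b₁)
    (hb₂ : HasB Φ κ₁ ((1 - τ) • a) c b₂) : b₁ = b ∧ b₂ = b := by
  obtain ⟨A, B, hb⟩ := hb
  obtain ⟨A₁, B₁, hb₁⟩ := hb₁
  obtain ⟨A₂, B₂, hb₂⟩ := hb₂
  have key : ∀ s t : ℝ, A * s + B * t + b * Wf s t =
      (A₁ * (τ * s) + B₁ * ((1 - τ) * s + t) + b₁ * Wf (τ * s) ((1 - τ) * s + t)) +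
      (A₂ * ((1 - τ) * s) + B₂ * t + b₂ * Wf ((1 - τ) * s) t) := by
    intro s t
    obtain ⟨y, hy1, hy2⟩ := hd.surj s t
    have e1 := hb y
    have e2 := hb₁ y
    have e3 := hb₂ y
    have e4 := (h.Od_isAdd y).cut_tri (fun x => h.Od_seg x y) a c h0.le h1.le
    simp only [inner_add_left, real_inner_smul_left, hy1, hy2] at e1 e2 e3
    rw [← e1, ← e2, ← e3, e4]
  constructor
  · have k1 := key 1 (-1)
    have k2 := key 1 (-1 + τ / 2)
    have k3 := key 1 (-1 - τ / 2)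
    have w1 : Wf 1 (-1) = 1 := by unfold Wf; norm_num
    have w2 : Wf 1 (-1 + τ / 2) = 1 := by
      unfold Wf
      rw [max_eq_left (a := (1 : ℝ)) (by linarith), max_eq_right (a := (0 : ℝ)) (by norm_num),
        min_eq_left (a := (0 : ℝ)) (le_min (by norm_num) (by linarith))]
      ring
    have w3 : Wf 1 (-1 - τ / 2) = 1 - τ / 2 := by
      unfold Wf
      rw [max_eq_left (a := (1 : ℝ)) (by linarith), max_eq_right (a := (0 : ℝ)) (by norm_num),
        min_eq_right (a := (1 : ℝ)) (by linarith), min_eq_right (a := (0 : ℝ)) (by linarith)]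
      ring
    have w4 : Wf (τ * 1) ((1 - τ) * 1 + -1) = τ := by
      unfold Wf
      rw [max_eq_left (a := τ * 1) (by linarith), max_eq_right (a := (0 : ℝ)) (by linarith),
        min_eq_left (a := (0 : ℝ)) (le_min (by linarith) (by linarith))]
      ring
    have w5 : Wf (τ * 1) ((1 - τ) * 1 + (-1 + τ / 2)) = τ := by
      unfold Wf
      rw [max_eq_left (a := τ * 1) (by linarith), max_eq_right (a := (0 : ℝ)) (by linarith),
        min_eq_left (a := (0 : ℝ)) (le_min (by linarith) (by linarith))]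
      ring
    have w6 : Wf (τ * 1) ((1 - τ) * 1 + (-1 - τ / 2)) = τ - τ / 2 := by
      unfold Wf
      rw [max_eq_left (a := τ * 1) (by linarith), max_eq_right (a := (0 : ℝ)) (by linarith),
        min_eq_right (a := τ * 1) (by linarith), min_eq_right (a := (0 : ℝ)) (by linarith)]
      ring
    have w7 : Wf ((1 - τ) * 1) (-1) = 1 - 2 * τ := by
      unfold Wf
      rw [max_eq_left (a := (1 - τ) * 1) (by linarith), max_eq_right (a := (0 : ℝ)) (by linarith),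
        min_eq_right (a := (1 - τ) * 1) (by linarith), min_eq_right (a := (0 : ℝ)) (by linarith)]
      ring
    have w8 : Wf ((1 - τ) * 1) (-1 + τ / 2) = 1 - 2 * τ + τ / 2 := by
      unfold Wf
      rw [max_eq_left (a := (1 - τ) * 1) (by linarith), max_eq_right (a := (0 : ℝ)) (by linarith),
        min_eq_right (a := (1 - τ) * 1) (by linarith), min_eq_right (a := (0 : ℝ)) (by linarith)]
      ring
    have w9 : Wf ((1 - τ) * 1) (-1 - τ / 2) = 1 - 2 * τ - τ / 2 := by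
      unfold Wf
      rw [max_eq_left (a := (1 - τ) * 1) (by linarith), max_eq_right (a := (0 : ℝ)) (by linarith),
        min_eq_right (a := (1 - τ) * 1) (by linarith), min_eq_right (a := (0 : ℝ)) (by linarith)]
      ring
    rw [w1, w4, w7] at k1
    rw [w2, w5, w8] at k2
    rw [w3, w6, w9] at k3
    have k4 : τ * (b₁ - b) = 0 := by linarith
    have := (mul_eq_zero.1 k4).resolve_left h0.ne'
    linarith
  · have k1 := key 1 0
    have k2 := key 1 ((1 - τ) / 2)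
    have k3 := key 1 (-((1 - τ) / 2))
    have w1 : Wf 1 0 = 1 := by unfold Wf; norm_num
    have w2 : Wf 1 ((1 - τ) / 2) = 1 + (1 - τ) / 2 := by
      unfold Wf
      rw [max_eq_right (a := (1 : ℝ)) (by linarith), max_eq_right (a := (0 : ℝ)) (by linarith),
        min_eq_left (a := (0 : ℝ)) (le_min (by norm_num) (by linarith))]
      ring
    have w3 : Wf 1 (-((1 - τ) / 2)) = 1 := by
      unfold Wf
      rw [max_eq_left (a := (1 : ℝ)) (by linarith), max_eq_right (a := (0 : ℝ)) (by norm_num),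
        min_eq_left (a := (0 : ℝ)) (le_min (by norm_num) (by linarith))]
      ring
    have w4 : Wf (τ * 1) ((1 - τ) * 1 + 0) = 1 := by
      unfold Wf
      rw [max_eq_right (a := τ * 1) (by linarith), max_eq_right (a := (0 : ℝ)) (by linarith),
        min_eq_left (a := (0 : ℝ)) (le_min (by linarith) (by linarith))]
      ring
    have w5 : Wf (τ * 1) ((1 - τ) * 1 + (1 - τ) / 2) = 1 + (1 - τ) / 2 := by
      unfold Wf
      rw [max_eq_right (a := τ * 1) (by linarith), max_eq_right (a := (0 : ℝ)) (by linarith),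
        min_eq_left (a := (0 : ℝ)) (le_min (by linarith) (by linarith))]
      ring
    have w6 : Wf (τ * 1) ((1 - τ) * 1 + -((1 - τ) / 2)) = 1 - (1 - τ) / 2 := by
      unfold Wf
      rw [max_eq_right (a := τ * 1) (by linarith), max_eq_right (a := (0 : ℝ)) (by linarith),
        min_eq_left (a := (0 : ℝ)) (le_min (by linarith) (by linarith))]
      ring
    have w7 : Wf ((1 - τ) * 1) 0 = 1 - τ := by
      unfold Wf
      rw [max_eq_right (a := (1 - τ) * 1) (by linarith), max_eq_right (a := (0 : ℝ)) (by linarith),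
        min_eq_left (a := (0 : ℝ)) (le_min (by linarith) (by linarith))]
      ring
    have w8 : Wf ((1 - τ) * 1) ((1 - τ) / 2) = 1 - τ + (1 - τ) / 2 := by
      unfold Wf
      rw [max_eq_right (a := (1 - τ) * 1) (by linarith), max_eq_right (a := (0 : ℝ)) (by linarith),
        min_eq_left (a := (0 : ℝ)) (le_min (by linarith) (by linarith))]
      ring
    have w9 : Wf ((1 - τ) * 1) (-((1 - τ) / 2)) = 1 - τ := by
      unfold Wf
      rw [max_eq_left (a := (1 - τ) * 1) (by linarith), max_eq_right (a := (0 : ℝ)) (by linarith),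
        min_eq_left (a := (0 : ℝ)) (le_min (by linarith) (by linarith))]
      ring
    rw [w1, w4, w7] at k1
    rw [w2, w5, w8] at k2
    rw [w3, w6, w9] at k3
    have k4 : (1 - τ) * (b₂ - b) = 0 := by linarith
    have := (mul_eq_zero.1 k4).resolve_left (by linarith)
    linarith

/-- the crease coefficient in normal form does not depend on the parameters -/
theorem Pk.hasB_all (h : Pk Φ κ₁ κₙ) {e₁ e₂ : V} (ho : Onp e₁ e₂) {b : ℝ}
    (hb : HasB Φ κ₁ e₁ e₂ b) {α γ δ : ℝ} (hα : 0 < α) (hδ : 0 < δ) :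
    HasB Φ κ₁ (α • e₁) (γ • e₁ + δ • e₂) b := by
  have hD : ∀ {α γ δ : ℝ}, 0 < α → 0 < δ → Dua (α • e₁) (γ • e₁ + δ • e₂) := by
    intro α γ δ hα hδ
    exact ⟨_, _, ho.dua hα.ne' hδ.ne'⟩
  -- shrinking the first edge
  have s1 : ∀ {α γ δ ρ b : ℝ}, 0 < α → 0 < δ → 0 < ρ → ρ < 1 →
      HasB Φ κ₁ (α • e₁) (γ • e₁ + δ • e₂) b → HasB Φ κ₁ ((ρ * α) • e₁) (γ • e₁ + δ • e₂) b := by
    intro α γ δ ρ b hα hδ hρ hρ1 hb
    obtain ⟨b₁, hb₁⟩ := h.exists_hasB (e₁ := e₁) (e₂ := e₂) ho (α := (1 - ρ) * α)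
      (γ := ρ * α + γ) (δ := δ) (by have : 0 < (1 - ρ) * α := mul_pos (by linarith) hα
                                    exact this.ne') hδ.ne'
    obtain ⟨b₂, hb₂⟩ := h.exists_hasB (e₁ := e₁) (e₂ := e₂) ho (α := ρ * α) (γ := γ) (δ := δ)
      (mul_pos hρ hα).ne' hδ.ne'
    have e1 : (1 - ρ) • (α • e₁) = ((1 - ρ) * α) • e₁ := by rw [smul_smul]
    have e2 : (1 - (1 - ρ)) • (α • e₁) + (γ • e₁ + δ • e₂) = (ρ * α + γ) • e₁ + δ • e₂ := by module
    have e3 : (1 - (1 - ρ)) • (α • e₁) = (ρ * α) • e₁ := by module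
    have := h.hasB_cut (hD hα hδ) (τ := 1 - ρ) (by linarith) (by linarith) hb
      (b₁ := b₁) (b₂ := b₂) (by rw [e1, e2]; exact hb₁) (by rw [e3]; exact hb₂)
    rw [← this.2]
    exact hb₂
  -- changing the first edge
  have s2 : ∀ {α α' γ δ b : ℝ}, 0 < α → 0 < α' → 0 < δ →
      HasB Φ κ₁ (α • e₁) (γ • e₁ + δ • e₂) b → HasB Φ κ₁ (α' • e₁) (γ • e₁ + δ • e₂) b := by
    intro α α' γ δ b hα hα' hδ hb
    rcases lt_trichotomy α' α with hlt | heq | hgt
    · have := s1 (ρ := α' / α) hα hδ (div_pos hα' hα) ((div_lt_one hα).2 hlt) hb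
      rwa [div_mul_cancel₀ _ hα.ne'] at this
    · rw [heq]; exact hb
    · obtain ⟨b', hb'⟩ := h.exists_hasB (e₁ := e₁) (e₂ := e₂) ho (γ := γ) hα'.ne' hδ.ne'
      have h1 := s1 (ρ := α / α') hα' hδ (div_pos hα hα') ((div_lt_one hα').2 hgt) hb'
      rw [div_mul_cancel₀ _ hα'.ne'] at h1
      rw [HasB.unique (hD hα hδ) hb h1]
      exact hb'
  -- increasing gamma
  have s3 : ∀ {α γ γ' δ b : ℝ}, 0 < α → 0 < δ → γ < γ' →
      HasB Φ κ₁ (α • e₁) (γ • e₁ + δ • e₂) b → HasB Φ κ₁ (α • e₁) (γ' • e₁ + δ • e₂) b := by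
    intro α γ γ' δ b hα hδ hγ hb
    -- change the first edge to 2 (γ' - γ), cut in the middle
    have h1 := s2 (α' := 2 * (γ' - γ)) hα (by linarith) hδ hb
    obtain ⟨b₁, hb₁⟩ := h.exists_hasB (e₁ := e₁) (e₂ := e₂) ho (α := γ' - γ)
      (γ := γ') (δ := δ) (by linarith) hδ.ne'
    obtain ⟨b₂, hb₂⟩ := h.exists_hasB (e₁ := e₁) (e₂ := e₂) ho (α := γ' - γ)
      (γ := γ) (δ := δ) (by linarith) hδ.ne'
    have e1 : (1 / 2 : ℝ) • ((2 * (γ' - γ)) • e₁) = (γ' - γ) • e₁ := by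
      rw [smul_smul]; congr 1; ring
    have e2 : (1 - 1 / 2 : ℝ) • ((2 * (γ' - γ)) • e₁) + (γ • e₁ + δ • e₂) = γ' • e₁ + δ • e₂ := by
      module
    have e3 : (1 - 1 / 2 : ℝ) • ((2 * (γ' - γ)) • e₁) = (γ' - γ) • e₁ := by module
    have h2 := h.hasB_cut (hD (by linarith) hδ) (τ := 1 / 2) (by norm_num) (by norm_num) h1
      (b₁ := b₁) (b₂ := b₂) (by rw [e1, e2]; exact hb₁) (by rw [e3]; exact hb₂)
    rw [← h2.1]
    exact s2 (by linarith) hα hδ hb₁
  have s4 : ∀ {α γ γ' δ b : ℝ}, 0 < α → 0 < δ →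
      HasB Φ κ₁ (α • e₁) (γ • e₁ + δ • e₂) b → HasB Φ κ₁ (α • e₁) (γ' • e₁ + δ • e₂) b := by
    intro α γ γ' δ b hα hδ hb
    rcases lt_trichotomy γ γ' with hlt | heq | hgt
    · exact s3 hα hδ hlt hb
    · rw [← heq]; exact hb
    · obtain ⟨b', hb'⟩ := h.exists_hasB (e₁ := e₁) (e₂ := e₂) ho (γ := γ') hα.ne' hδ.ne'
      have h1 := s3 hα hδ hgt hb'
      rw [HasB.unique (hD hα hδ) hb h1]
      exact hb'
  have h0 : HasB Φ κ₁ ((1 : ℝ) • e₁) ((0 : ℝ) • e₁ + (1 : ℝ) • e₂) b := by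
    rw [one_smul, zero_smul, zero_add, one_smul]; exact hb
  have h1 := h.hasB_scale h0 hδ.le
  have e1 : δ • ((1 : ℝ) • e₁) = δ • e₁ := by module
  have e2 : δ • ((0 : ℝ) • e₁ + (1 : ℝ) • e₂) = (0 : ℝ) • e₁ + δ • e₂ := by module
  rw [e1, e2] at h1
  exact s4 hα hδ (s2 hδ hα hδ h1)

/-- rotations act transitively on orthonormal pairs -/
theorem exists_rot_pair (hn : 3 ≤ Module.finrank ℝ V) {e₁ e₂ f₁ f₂ : V} (he : Onp e₁ e₂)
    (hf : Onp f₁ f₂) : ∃ g : V ≃ₗᵢ[ℝ] V, Rot g ∧ g e₁ = f₁ ∧ g e₂ = f₂ := by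
  obtain ⟨g1, hg1, _, hg1e⟩ := InvNull.trans_sub (⊤ : Submodule ℝ V) (by rw [finrank_top]; omega)
    e₁ f₁ trivial trivial (by rw [he.n1, hf.n1])
  have hW : 2 ≤ Module.finrank ℝ (ℝ ∙ f₁)ᗮ := by
    have h1 := Submodule.finrank_add_finrank_orthogonal (ℝ ∙ f₁)
    have h2 := finrank_span_singleton (K := ℝ) hf.ne1
    rw [h2] at h1
    omega
  obtain ⟨g2, hg2, hfix, hg2e⟩ := InvNull.trans_sub ((ℝ ∙ f₁)ᗮ) hW (g1 e₂) f₂
    (by
      rw [Submodule.mem_orthogonal_singleton_iff_inner_right, ← hg1e, g1.inner_map_map]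
      exact he.o)
    (by rw [Submodule.mem_orthogonal_singleton_iff_inner_right]; exact hf.o)
    (by rw [g1.norm_map, he.n2, hf.n2])
  refine ⟨g1.trans g2, ?_, ?_, ?_⟩
  · unfold Rot at *
    have h1 : ((g1.trans g2).toLinearEquiv : V →ₗ[ℝ] V) =
        (g2.toLinearEquiv : V →ₗ[ℝ] V).comp (g1.toLinearEquiv : V →ₗ[ℝ] V) := rfl
    rw [h1, LinearMap.det_comp, hg1, hg2, mul_one]
  · rw [LinearIsometryEquiv.trans_apply, hg1e]
    apply hfix
    rw [Submodule.orthogonal_orthogonal]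
    exact Submodule.mem_span_singleton_self f₁
  · rw [LinearIsometryEquiv.trans_apply, hg2e]

theorem exists_onp (hn : 3 ≤ Module.finrank ℝ V) : ∃ e₁ e₂ : V, Onp e₁ e₂ := by
  obtain ⟨e₁, h1, _⟩ := exists_perp (V := V) (ys := []) (by simp; omega)
  obtain ⟨e₂, h2, h3⟩ := exists_perp (ys := [e₁]) (by simp; omega)
  exact ⟨e₁, e₂, h1, h2, by rw [real_inner_comm]; exact h3 e₁ (by simp)⟩

theorem Wf_dep (s γ : ℝ) : Wf s (γ * s) = s * Wf 1 γ := by
  rcases le_total 0 s with hs | hs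
  · have := Wf_hom s 1 γ hs
    rw [mul_one, mul_comm s γ] at this
    exact this
  · have h1 := Wf_hom (-s) 1 γ (by linarith)
    have h2 := Wf_neg s (γ * s)
    have e : -s * γ = -(γ * s) := by ring
    rw [mul_one, e] at h1
    rw [h1] at h2
    linarith

/-- the defect minus the crease function is linear on every triangle -/
theorem Pk.exists_b (h : Pk Φ κ₁ κₙ) : ∃ b : ℝ, ∀ a c : V, ∃ q : V, ∀ y,
    Od Φ κ₁ y (tri a c) - b * (hs (tri a c) y - hs (tri a c) (-y)) = ⟪q, y⟫_ℝ := by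
  have hn := h.hn
  obtain ⟨f₁, f₂, hf⟩ := exists_onp hn
  obtain ⟨b, hb⟩ := h.exists_hasB hf (α := 1) (γ := 0) (δ := 1) one_ne_zero one_ne_zero
  rw [one_smul, zero_smul, zero_add, one_smul] at hb
  have hall : ∀ {e₁ e₂ : V}, Onp e₁ e₂ → HasB Φ κ₁ e₁ e₂ b := by
    intro e₁ e₂ he
    obtain ⟨g, hg, h1, h2⟩ := exists_rot_pair hn hf he
    have := h.hasB_rot hb g hg
    rwa [h1, h2] at this
  refine ⟨b, fun a c => ?_⟩
  by_cases ha : a = 0
  · rw [ha, tri_zero_left]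
    refine ⟨-b • c, fun y => ?_⟩
    rw [h.Od_seg, hs_seg, hs_seg, inner_neg_left, real_inner_smul_left, real_inner_comm c y]
    rcases le_total 0 ⟪c, y⟫_ℝ with h1 | h1
    · rw [max_eq_right h1, max_eq_left (by linarith)]; ring
    · rw [max_eq_left h1, max_eq_right (by linarith)]; ring
  · have hna : 0 < ‖a‖ := norm_pos_iff.2 ha
    set e₁ := ‖a‖⁻¹ • a with he₁
    have hn1 : ‖e₁‖ = 1 := by rw [he₁, norm_smul, norm_inv, norm_norm, inv_mul_cancel₀ hna.ne']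
    have hi1 : ⟪e₁, e₁⟫_ℝ = 1 := by rw [real_inner_self_eq_norm_sq, hn1]; norm_num
    have hae : a = ‖a‖ • e₁ := by rw [he₁, smul_smul, mul_inv_cancel₀ hna.ne', one_smul]
    set γ := ⟪e₁, c⟫_ℝ with hγ
    set w := c - γ • e₁ with hw
    have hew : ⟪e₁, w⟫_ℝ = 0 := by rw [hw, inner_sub_right, real_inner_smul_right, hi1, ← hγ]; ring
    by_cases hw0 : w = 0
    · -- dependent
      have hc : c = (γ * ‖a‖⁻¹) • a := by
        rw [← smul_smul, ← he₁]
        exact sub_eq_zero.1 hw0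
      set γ' := γ * ‖a‖⁻¹ with hγ'
      have hseg : ∃ (z x : V), tri a c = MV.pt z + seg x := by
        rcases le_total 0 γ' with g1 | g1
        · refine ⟨0, (1 + γ') • a, ?_⟩
          apply hs_ext
          intro v
          rw [hs_add, hs_pt, hs_tri, hs_seg, hc, real_inner_smul_right, real_inner_smul_right,
            inner_zero_right, zero_add]
          set s := ⟪v, a⟫_ℝ
          rcases le_total 0 s with hs | hs
          · rw [max_eq_right (a := s) (by nlinarith [mul_nonneg g1 hs])]; ring_nf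
          · rw [max_eq_left (a := s) (by nlinarith [mul_nonneg g1 (neg_nonneg.2 hs)]),
              max_eq_left hs, max_eq_left (by nlinarith [mul_nonneg g1 (neg_nonneg.2 hs)])]
        · rcases le_total (-1) γ' with g2 | g2
          · refine ⟨0, a, ?_⟩
            apply hs_ext
            intro v
            rw [hs_add, hs_pt, hs_tri, hs_seg, hc, real_inner_smul_right,
              inner_zero_right, zero_add]
            set s := ⟪v, a⟫_ℝ
            rcases le_total 0 s with hs | hs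
            · rw [max_eq_left (a := s) (by nlinarith [mul_nonneg (neg_nonneg.2 g1) hs])]
            · rw [max_eq_right (a := s) (by nlinarith [mul_nonneg (neg_nonneg.2 g1) (neg_nonneg.2 hs)]),
                max_eq_left hs, max_eq_left (by nlinarith [mul_nonneg (by linarith : (0:ℝ) ≤ 1 + γ') (neg_nonneg.2 hs)])]
          · refine ⟨(1 + γ') • a, -γ' • a, ?_⟩
            apply hs_ext
            intro v
            rw [hs_add, hs_pt, hs_tri, hs_seg, hc, real_inner_smul_right,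
              real_inner_smul_right, real_inner_smul_right]
            set s := ⟪v, a⟫_ℝ
            rcases le_total 0 s with hs | hs
            · rw [max_eq_left (a := s) (by nlinarith [mul_nonneg (neg_nonneg.2 g1) hs]),
                max_eq_right hs, max_eq_right (by nlinarith [mul_nonneg (neg_nonneg.2 g1) hs])]
              ring
            · rw [max_eq_right (a := s) (by nlinarith [mul_nonneg (neg_nonneg.2 g1) (neg_nonneg.2 hs)]),
                max_eq_right (a := (0:ℝ)) (b := s + γ' * s) (by nlinarith [mul_nonneg (by linarith : (0:ℝ) ≤ -(1 + γ')) (neg_nonneg.2 hs)]),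
                max_eq_left (by nlinarith [mul_nonneg (neg_nonneg.2 g1) (neg_nonneg.2 hs)])]
              ring
      obtain ⟨z, x, hzx⟩ := hseg
      refine ⟨(-b * Wf 1 γ') • a, fun y => ?_⟩
      rw [hs_tri_sub]
      have h1 : Od Φ κ₁ y (tri a c) = 0 := by
        rw [hzx, (h.Od_isAdd y).add_pt, h.Od_seg]
      rw [h1, hc, real_inner_smul_right, Wf_dep, real_inner_smul_left, real_inner_comm y a]
      ring
    · have hnw : 0 < ‖w‖ := norm_pos_iff.2 hw0
      set e₂ := ‖w‖⁻¹ • w with he₂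
      have hn2 : ‖e₂‖ = 1 := by rw [he₂, norm_smul, norm_inv, norm_norm, inv_mul_cancel₀ hnw.ne']
      have ho : Onp e₁ e₂ := ⟨hn1, hn2, by rw [he₂, real_inner_smul_right, hew, mul_zero]⟩
      have hce : c = γ • e₁ + ‖w‖ • e₂ := by
        have h9 : ‖w‖ • e₂ = w := by rw [he₂, smul_smul, mul_inv_cancel₀ hnw.ne', one_smul]
        rw [h9, hw]; abel
      obtain ⟨A, B, hAB⟩ := h.hasB_all ho (hall ho) (γ := γ) hna hnw
      rw [← hae, ← hce] at hAB
      refine ⟨A • a + B • c, fun y => ?_⟩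
      rw [hAB, hs_tri_sub, inner_add_left, real_inner_smul_left, real_inner_smul_left,
        real_inner_comm y a, real_inner_comm y c]
      ring

/-- degree one up to a linear term -/
theorem Pk.one_form (h : Pk Φ κ₁ κₙ) : ∃ b : ℝ, ∀ K, ∃ p : V, ∀ y,
    Od Φ κ₁ y K - b * (hs K y - hs K (-y)) = ⟪p, y⟫_ℝ := by
  obtain ⟨b, hb⟩ := h.exists_b
  refine ⟨b, fun K => ?_⟩
  apply exists_inner_of_affine
  intro y z r
  set Gd : V → ConvexBody V → ℝ := fun y K => Od Φ κ₁ y K - b * (hs K y - hs K (-y)) with hGd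
  have hG : ∀ y, Continuous (Gd y) ∧ (∀ K L, Gd y (K + L) = Gd y K + Gd y L) ∧
      ∀ x, Gd y (MV.pt x) = -(b * (2 * ⟪y, x⟫_ℝ)) := by
    intro y
    have hA := h.Od_isAdd y
    refine ⟨hA.cont.sub (continuous_const.mul ((continuous_hs_left y).sub
      (continuous_hs_left (-y)))), ?_, ?_⟩
    · intro K L
      simp only [hGd]
      rw [hA.add, hs_add, hs_add]; ring
    · intro x
      simp only [hGd]
      rw [hA.pt, hs_pt, hs_pt, inner_neg_left]; ring
  have hA : IsAdd (fun K => Gd (y + r • z) K - Gd y K - r * Gd z K) := by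
    refine ⟨((hG _).1.sub (hG _).1).sub (continuous_const.mul (hG _).1), ?_, ?_⟩
    · intro K L
      rw [(hG _).2.1, (hG _).2.1, (hG _).2.1]; ring
    · intro x
      rw [(hG _).2.2, (hG _).2.2, (hG _).2.2, inner_add_left, real_inner_smul_left]; ring
  have htri : ∀ a c, (fun K => Gd (y + r • z) K - Gd y K - r * Gd z K) (tri a c) = 0 := by
    intro a c
    obtain ⟨q, hq⟩ := hb a c
    have e : ∀ y, Gd y (tri a c) = ⟪q, y⟫_ℝ := hq
    simp only [e, inner_add_right, real_inner_smul_right]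
    ring
  have hseg : ∀ x, (fun K => Gd (y + r • z) K - Gd y K - r * Gd z K) (seg x) = 0 := by
    intro x
    have := htri 0 x
    rwa [tri_zero_left] at this
  have := K1 hA hseg htri K
  show Gd (y + r • z) K = Gd y K + r * Gd z K
  linarith

theorem isVal_steiner_part (hn : 3 ≤ Module.finrank ℝ V) (y : V) (σ : ℝ) :
    IsVal (fun K : ConvexBody V => hs K (σ • y) - σ * ⟪stn K, y⟫_ℝ) where
  cont := (continuous_hs_left _).sub (continuous_const.mul
    (continuous_stn.inner continuous_const))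
  val := by
    intro K L M N hM hN
    have h1 := hs_val K L M N hM hN (σ • y)
    have h2 := stn_val K L M N hM hN
    have h3 : ⟪stn M, y⟫_ℝ + ⟪stn N, y⟫_ℝ = ⟪stn K, y⟫_ℝ + ⟪stn L, y⟫_ℝ := by
      rw [← inner_add_left, ← inner_add_left, h2]
    linear_combination h1 - σ * h3
  trans := by
    intro K x
    rw [hs_add, stn_add, stn_pt (by omega), hs_pt, inner_add_left, real_inner_smul_left,
      real_inner_comm y x]
    ring

/-- degree one -/
theorem Pk.deg_one (h : Pk Φ κ₁ κₙ) : ∃ c₂ c₃ : ℝ, 0 ≤ c₂ ∧ 0 ≤ c₃ ∧ ∀ K y,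
    comp 1 (FF Φ y) K = c₂ * (hs K y - ⟪stn K, y⟫_ℝ) + c₃ * (hs K (-y) + ⟪stn K, y⟫_ℝ) := by
  have hn := h.hn
  obtain ⟨b, hb⟩ := h.one_form
  set c₂ := κ₁ / 2 + b with hc₂
  set c₃ := κ₁ / 2 - b with hc₃
  have hDif : ∀ y (K : ConvexBody V), comp 1 (FF Dif y) K = hs K y + hs K (-y) := by
    intro y K
    rw [comp_of_isHom (isVal_FF isMVal_Dif y) (FF_Dif_hom y) (by omega) (by omega), if_pos rfl]
    exact hs_Dif K y
  have hform : ∀ K, ∃ p : V, ∀ y, comp 1 (FF Φ y) K = c₂ * hs K y + c₃ * hs K (-y) + ⟪p, y⟫_ℝ := by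
    intro K
    obtain ⟨p, hp⟩ := hb K
    refine ⟨p, fun y => ?_⟩
    have := hp y
    unfold Od at this
    rw [hDif] at this
    rw [← this, hc₂, hc₃]; ring
  have hzero : ∀ y K, comp 1 (FF Φ y) K - c₂ * (hs K ((1 : ℝ) • y) - 1 * ⟪stn K, y⟫_ℝ)
      - c₃ * (hs K ((-1 : ℝ) • y) - (-1) * ⟪stn K, y⟫_ℝ) = 0 := by
    intro y K
    apply lin_zero h.hn (fun y K => comp 1 (FF Φ y) K -
      c₂ * (hs K ((1 : ℝ) • y) - 1 * ⟪stn K, y⟫_ℝ)
      - c₃ * (hs K ((-1 : ℝ) • y) - (-1) * ⟪stn K, y⟫_ℝ))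
    · intro y
      exact ((isVal_comp (isVal_FF h.mv y) 1).sub ((isVal_steiner_part hn y 1).const_mul c₂)).sub
        ((isVal_steiner_part hn y (-1)).const_mul c₃)
    · intro g hg y K
      rw [comp_FF_iso h.mv 1 g hg, hs_isoB, hs_isoB, stn_isoB, g.inner_map_map, map_smul, map_smul,
        LinearIsometryEquiv.symm_apply_apply]
    · intro K
      obtain ⟨p, hp⟩ := hform K
      refine ⟨p + (c₂ - c₃) • stn K, fun y => ?_⟩
      rw [hp, inner_add_left, real_inner_smul_left, one_smul, neg_one_smul]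
      ring
  have hmain : ∀ K y, comp 1 (FF Φ y) K =
      c₂ * (hs K y - ⟪stn K, y⟫_ℝ) + c₃ * (hs K (-y) + ⟪stn K, y⟫_ℝ) := by
    intro K y
    have := hzero y K
    rw [one_smul, neg_one_smul] at this
    linarith
  refine ⟨c₂, c₃, ?_, ?_, hmain⟩
  · obtain ⟨e₁, e₂, ho⟩ := exists_onp hn
    have h1 := (h.one_sublin (tri e₁ e₂)).sub (e₁ + e₂) (e₁ - e₂)
    simp only [hmain] at h1
    simp only [hs_tri, inner_add_left, inner_sub_left, inner_neg_left, inner_add_right,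
      inner_sub_right, ho.i1, ho.i2, ho.o, ho.o'] at h1
    norm_num at h1
    linarith
  · obtain ⟨e₁, e₂, ho⟩ := exists_onp hn
    have h1 := (h.one_sublin (tri e₁ e₂)).sub (-e₁ - e₂) (-e₁ + e₂)
    simp only [hmain] at h1
    simp only [hs_tri, inner_add_left, inner_sub_left, inner_neg_left, inner_add_right,
      inner_sub_right, inner_neg_right, ho.i1, ho.i2, ho.o, ho.o'] at h1
    norm_num at h1
    linarith

end FinF
end MV
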