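import Pool.Agent.Lib.MP_f30071_gt.Stein

/-! Translation between set based and body based formulations (MP_f30071_gt). -/

open MeasureTheory Set Filter Topology
open scoped InnerProductSpace Pointwise ENNReal

namespace MV

section
variable {n : ℕ}

/-- the set based hypotheses give a body based operator, and a body based classification gives
the set based one -/
theorem frozen_of_body
    (hcls : ∀ Ψ : ConvexBody (EuclideanSpace ℝ (Fin n)) → ConvexBody (EuclideanSpace ℝ (Fin n)),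
      IsMVal Ψ → ∀ (K0 : ConvexBody (EuclideanSpace ℝ (Fin n))),
      (interior (K0 : Set (EuclideanSpace ℝ (Fin n)))).Nonempty →
      ∀ (P : Finset (EuclideanSpace ℝ (Fin n))) (hP : P.Nonempty), Ψ K0 = hull P hP →
      ∃ c₁ c₂ c₃ : ℝ, 0 ≤ c₁ ∧ 0 ≤ c₂ ∧ 0 ≤ c₃ ∧
        ∀ (K : ConvexBody (EuclideanSpace ℝ (Fin n))) (u : EuclideanSpace ℝ (Fin n)), ‖u‖ = 1 →
          hs (Ψ K) u =
            c₁ * (Measure.hausdorffMeasure ((n : ℝ) - 1)
                ((fun x => x - ⟪u, x⟫_ℝ • u) '' (K : Set (EuclideanSpace ℝ (Fin n))))).toReal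
            + c₂ * (hs K u - ⟪stn K, u⟫_ℝ)
            + c₃ * (hs K (-u) + ⟪stn K, u⟫_ℝ))
    (h : Set (EuclideanSpace ℝ (Fin n)) → EuclideanSpace ℝ (Fin n) → ℝ)
    (hh : h = (fun S u => sSup ((fun y => ⟪u, y⟫_ℝ) '' S)))
    (s : Set (EuclideanSpace ℝ (Fin n)) → EuclideanSpace ℝ (Fin n))
    (hs' : s = (fun K => (((n : ℝ) + 2) /
        (MeasureTheory.volume (Metric.ball (0 : EuclideanSpace ℝ (Fin n)) 1)).toReal) •
        ∫ x in Metric.ball (0 : EuclideanSpace ℝ (Fin n)) 1, h K x • x))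
    (Φ : Set (EuclideanSpace ℝ (Fin n)) → Set (EuclideanSpace ℝ (Fin n)))
    (h1 : ∀ K : Set (EuclideanSpace ℝ (Fin n)), K.Nonempty → IsCompact K → Convex ℝ K →
     (Φ K).Nonempty ∧ IsCompact (Φ K) ∧ Convex ℝ (Φ K))
    (h2 : ∀ K : Set (EuclideanSpace ℝ (Fin n)), K.Nonempty → IsCompact K → Convex ℝ K →
     ∀ ε : ℝ, 0 < ε → ∃ δ : ℝ, 0 < δ ∧ ∀ L : Set (EuclideanSpace ℝ (Fin n)),
       L.Nonempty → IsCompact L → Convex ℝ L →
       Metric.hausdorffDist L K < δ → Metric.hausdorffDist (Φ L) (Φ K) < ε)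
    (h3 : ∀ K L : Set (EuclideanSpace ℝ (Fin n)),
     K.Nonempty → IsCompact K → Convex ℝ K →
     L.Nonempty → IsCompact L → Convex ℝ L →
     Convex ℝ (K ∪ L) → Φ (K ∪ L) + Φ (K ∩ L) = Φ K + Φ L)
    (h4 : ∀ K : Set (EuclideanSpace ℝ (Fin n)), K.Nonempty → IsCompact K → Convex ℝ K →
     ∀ t : EuclideanSpace ℝ (Fin n), Φ ((fun x => x + t) '' K) = Φ K)
    (h5 : ∀ K : Set (EuclideanSpace ℝ (Fin n)), K.Nonempty → IsCompact K → Convex ℝ K →
     ∀ ϑ : EuclideanSpace ℝ (Fin n) ≃ₗᵢ[ℝ] EuclideanSpace ℝ (Fin n),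
       LinearMap.det (ϑ.toLinearEquiv : EuclideanSpace ℝ (Fin n) →ₗ[ℝ] EuclideanSpace ℝ (Fin n)) = 1 →
       Φ (ϑ '' K) = ϑ '' (Φ K))
    (h6 : ∃ K : Set (EuclideanSpace ℝ (Fin n)), IsCompact K ∧ Convex ℝ K ∧ (interior K).Nonempty ∧
     ∃ P : Finset (EuclideanSpace ℝ (Fin n)), Φ K = convexHull ℝ (P : Set (EuclideanSpace ℝ (Fin n)))) :
    ∃ c₁ c₂ c₃ : ℝ, 0 ≤ c₁ ∧ 0 ≤ c₂ ∧ 0 ≤ c₃ ∧
    ∀ K : Set (EuclideanSpace ℝ (Fin n)), K.Nonempty → IsCompact K → Convex ℝ K →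
    ∀ u : EuclideanSpace ℝ (Fin n), ‖u‖ = 1 →
      h (Φ K) u =
        c₁ * (MeasureTheory.Measure.hausdorffMeasure ((n : ℝ) - 1)
                ((fun x => x - ⟪u, x⟫_ℝ • u) '' K)).toReal
        + c₂ * (h K u - ⟪s K, u⟫_ℝ)
        + c₃ * (h K (-u) + ⟪s K, u⟫_ℝ) := by
  let Ψ : ConvexBody (EuclideanSpace ℝ (Fin n)) → ConvexBody (EuclideanSpace ℝ (Fin n)) := fun K =>
    ⟨Φ (K : Set (EuclideanSpace ℝ (Fin n))), (h1 K K.nonempty K.isCompact K.convex).2.2,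
      (h1 K K.nonempty K.isCompact K.convex).2.1, (h1 K K.nonempty K.isCompact K.convex).1⟩
  have hΨ : ∀ K : ConvexBody (EuclideanSpace ℝ (Fin n)), (Ψ K : Set (EuclideanSpace ℝ (Fin n))) = Φ (K : Set (EuclideanSpace ℝ (Fin n))) := fun _ => rfl
  have hM : IsMVal Ψ := by
    refine ⟨?_, ?_, ?_, ?_⟩
    · rw [Metric.continuous_iff]
      intro K ε hε
      obtain ⟨δ, hδ, hd⟩ := h2 K K.nonempty K.isCompact K.convex ε hε
      refine ⟨δ, hδ, fun L hL => ?_⟩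
      have := hd L L.nonempty L.isCompact L.convex hL
      exact this
    · intro K L M N hMs hNs
      apply ConvexBody.ext
      have hN0 : ((K : Set (EuclideanSpace ℝ (Fin n))) ∩ L).Nonempty := by rw [← hNs]; exact N.nonempty
      have hc : Convex ℝ ((K : Set (EuclideanSpace ℝ (Fin n))) ∪ L) := by rw [← hMs]; exact M.convex
      have := h3 K L K.nonempty K.isCompact K.convex L.nonempty L.isCompact L.convex hc
      rw [ConvexBody.coe_add, ConvexBody.coe_add, hΨ, hΨ, hΨ, hΨ, hMs, hNs]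
      exact this
    · intro K x
      apply ConvexBody.ext
      rw [hΨ, hΨ, ← h4 K K.nonempty K.isCompact K.convex x]
      congr 1
      rw [ConvexBody.coe_add, coe_pt, Set.add_singleton]
    · intro g hg K
      apply ConvexBody.ext
      rw [hΨ, coe_isoB, coe_isoB, hΨ]
      exact h5 K K.nonempty K.isCompact K.convex g hg
  obtain ⟨K0, hK0c, hK0x, hK0i, P, hP⟩ := h6
  have hK0n : K0.Nonempty := hK0i.mono interior_subset
  have hPn : P.Nonempty := by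
    by_contra hne
    rw [Finset.not_nonempty_iff_eq_empty] at hne
    have := (h1 K0 hK0n hK0c hK0x).1
    rw [hP, hne] at this
    simp at this
  obtain ⟨c₁, c₂, c₃, p1, p2, p3, hmain⟩ := hcls Ψ hM ⟨K0, hK0x, hK0c, hK0n⟩ hK0i P hPn (by
    apply ConvexBody.ext
    rw [hΨ, coe_hull]
    exact hP)
  refine ⟨c₁, c₂, c₃, p1, p2, p3, ?_⟩
  intro K hKn hKc hKx u hu
  have h7 := hmain ⟨K, hKx, hKc, hKn⟩ u hu
  have h8 : s K = stn (⟨K, hKx, hKc, hKn⟩ : ConvexBody (EuclideanSpace ℝ (Fin n))) := by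
    rw [hs']
    unfold stn
    rw [hh]
    have : (Module.finrank ℝ (EuclideanSpace ℝ (Fin n)) : ℝ) = n := by simp
    rw [this]
    rfl
  rw [h8, hh]
  exact h7

end

end MV
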