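import Pool.Agent.Lib.MP_f30071_gt.FinF
import Pool.Agent.Lib.MP_f30071_gt.Frz

/-! Classification, part G: assembly -/

open MeasureTheory ProbabilityTheory Filter Topology Set
open scoped InnerProductSpace Pointwise NNReal ENNReal

set_option linter.unusedSectionVars false
set_option linter.unusedVariables false

namespace MV

section FinG
variable {V : Type*} [NormedAddCommGroup V] [InnerProductSpace ℝ V] [FiniteDimensional ℝ V]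
  [MeasurableSpace V] [BorelSpace V]
variable {Φ : ConvexBody V → ConvexBody V}

theorem classification (hn : 3 ≤ Module.finrank ℝ V) (hΦ : IsMVal Φ)
    (hD : ∃ κ₁ κₙ : ℝ, 0 ≤ κ₁ ∧ 0 ≤ κₙ ∧ ∀ (u : V) (K : ConvexBody V), ‖u‖ = 1 →
      N0 u (hs (Φ K)) = κ₁ * N0 u (hs K) + κₙ * N0 u (hs (PiB K)))
    (K₀ : ConvexBody V) (hK₀ : (interior (K₀ : Set V)).Nonempty) (P : Finset V) (hP : P.Nonempty)
    (hPK : Φ K₀ = hull P hP) :
    ∃ c₁ c₂ c₃ : ℝ, 0 ≤ c₁ ∧ 0 ≤ c₂ ∧ 0 ≤ c₃ ∧ ∀ (K : ConvexBody V) (y : V),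
      hs (Φ K) y = c₁ * hs (PiB K) y + c₂ * (hs K y - ⟪stn K, y⟫_ℝ)
        + c₃ * (hs K (-y) + ⟪stn K, y⟫_ℝ) := by
  obtain ⟨κ₁, κₙ, hκ₁, hκₙ, hcr⟩ := hD
  have h : Pk Φ κ₁ κₙ := ⟨hn, hΦ, hκ₁, hκₙ, hcr,
    Rw_eq_zero hn hΦ hκ₁ hκₙ hcr K₀ hK₀ P hP hPK⟩
  obtain ⟨c₂, c₃, hc₂, hc₃, h1⟩ := h.deg_one
  refine ⟨κₙ, c₂, c₃, hκₙ, hc₂, hc₃, fun K y => ?_⟩
  have h2 := sum_comp (isVal_FF hΦ y) K
  have h3 : ∑ j ∈ Finset.range (Module.finrank ℝ V + 1), comp j (FF Φ y) K =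
      comp 1 (FF Φ y) K + comp (Module.finrank ℝ V - 1) (FF Φ y) K := by
    apply Finset.sum_eq_add_of_mem 1 (Module.finrank ℝ V - 1)
    · rw [Finset.mem_range]; omega
    · rw [Finset.mem_range]; omega
    · omega
    · intro j hj hne
      rw [Finset.mem_range] at hj
      rcases Nat.eq_zero_or_pos j with h0 | h0
      · rw [h0]; exact h.deg_zero y K
      · by_cases h4 : j = Module.finrank ℝ V
        · rw [h4]; exact h.deg_n y K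
        · obtain ⟨i, rfl⟩ : ∃ i, j = i + 1 := ⟨j - 1, by omega⟩
          exact h.deg_mid i (by omega) (by omega) y K
  have h4 : hs (Φ K) y = FF Φ y K := rfl
  rw [h4, h2, h3, h1, h.deg_top]
  ring

end FinG

/-- the statement for sets, given the crease formula -/
theorem frozen_core {n : ℕ} (hn : 3 ≤ n)
    (hcr : ∀ Ψ : ConvexBody (EuclideanSpace ℝ (Fin n)) → ConvexBody (EuclideanSpace ℝ (Fin n)),
      IsMVal Ψ → ∃ κ₁ κₙ : ℝ, 0 ≤ κ₁ ∧ 0 ≤ κₙ ∧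
        ∀ (u : EuclideanSpace ℝ (Fin n)) (K : ConvexBody (EuclideanSpace ℝ (Fin n))), ‖u‖ = 1 →
          N0 u (hs (Ψ K)) = κ₁ * N0 u (hs K) + κₙ * N0 u (hs (PiB K)))
    (Ψ : ConvexBody (EuclideanSpace ℝ (Fin n)) → ConvexBody (EuclideanSpace ℝ (Fin n)))
    (hΨ : IsMVal Ψ) (K0 : ConvexBody (EuclideanSpace ℝ (Fin n)))
    (hK0 : (interior (K0 : Set (EuclideanSpace ℝ (Fin n)))).Nonempty)
    (P : Finset (EuclideanSpace ℝ (Fin n))) (hP : P.Nonempty) (hPK : Ψ K0 = hull P hP) :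
    ∃ c₁ c₂ c₃ : ℝ, 0 ≤ c₁ ∧ 0 ≤ c₂ ∧ 0 ≤ c₃ ∧
      ∀ (K : ConvexBody (EuclideanSpace ℝ (Fin n))) (u : EuclideanSpace ℝ (Fin n)), ‖u‖ = 1 →
        hs (Ψ K) u =
          c₁ * (Measure.hausdorffMeasure ((n : ℝ) - 1)
              ((fun x => x - ⟪u, x⟫_ℝ • u) '' (K : Set (EuclideanSpace ℝ (Fin n))))).toReal
          + c₂ * (hs K u - ⟪stn K, u⟫_ℝ)
          + c₃ * (hs K (-u) + ⟪stn K, u⟫_ℝ) := by
  have hfr : Module.finrank ℝ (EuclideanSpace ℝ (Fin n)) = n := finrank_euclideanSpace_fin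
  obtain ⟨c₁, c₂, c₃, h1, h2, h3, h4⟩ := classification (by rw [hfr]; exact hn) hΨ (hcr Ψ hΨ) K0
    hK0 P hP hPK
  obtain ⟨c, hc, h5⟩ := PiB_hausdorff (V := EuclideanSpace ℝ (Fin n)) (by rw [hfr]; omega)
  rw [hfr] at h5
  refine ⟨c₁ * c, c₂, c₃, mul_nonneg h1 hc.le, h2, h3, fun K u hu => ?_⟩
  rw [h4, h5 K u hu]
  ring

end MV
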