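import Pool.Agent.Lib.MP_f30071_gt.Defs

/-! # Module Moment for MP_f30071_gt: a moment problem on the line

`moment_line`: a function of at most linear growth whose integrals against all weights
`wk k` (`k ≠ 1`) vanish is linear almost everywhere; `qk_repr`: the convex-function style
representation of `sqrt (1+s^2) (s / sqrt (1+s^2))^k`. -/

open MeasureTheory ProbabilityTheory Filter Topology Set
open scoped InnerProductSpace Pointwise NNReal ENNReal

namespace MV

/-! ### module Moment (Moment.lean) : a moment problem on the line -/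

/-- the weight `q_k''`, with `q_k s = (1+s^2)^((1-k)/2) s^k` -/
noncomputable def wk (k : ℕ) (s : ℝ) : ℝ :=
  (Real.sqrt (1 + s ^ 2) ^ 3)⁻¹ * ((k : ℝ) - 1) *
    ((k : ℝ) * (s / Real.sqrt (1 + s ^ 2)) ^ (k - 2) - ((k : ℝ) + 1) * (s / Real.sqrt (1 + s ^ 2)) ^ k)

namespace Moment

/-- the length of `(s,1)` -/
noncomputable def rr (s : ℝ) : ℝ := Real.sqrt (1 + s ^ 2)

/-- the slope variable -/
noncomputable def tt (s : ℝ) : ℝ := s / Real.sqrt (1 + s ^ 2)

/-- the basic weight -/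
noncomputable def w0 (s : ℝ) : ℝ := (Real.sqrt (1 + s ^ 2) ^ 3)⁻¹

theorem wk_eq (k : ℕ) (s : ℝ) :
    wk k s = w0 s * ((k : ℝ) - 1) * ((k : ℝ) * tt s ^ (k - 2) - ((k : ℝ) + 1) * tt s ^ k) := rfl

theorem rr_pos (s : ℝ) : 0 < rr s := Real.sqrt_pos.mpr (by positivity)

theorem rr_sq (s : ℝ) : rr s ^ 2 = 1 + s ^ 2 := Real.sq_sqrt (by positivity)

theorem one_le_rr (s : ℝ) : 1 ≤ rr s := by
  have := rr_sq s
  nlinarith [rr_pos s, sq_nonneg s]

theorem abs_le_rr (s : ℝ) : |s| ≤ rr s := by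
  apply Real.abs_le_sqrt
  linarith

theorem tt_eq (s : ℝ) : tt s = s / rr s := rfl

theorem w0_eq (s : ℝ) : w0 s = (rr s ^ 3)⁻¹ := rfl

theorem w0_pos (s : ℝ) : 0 < w0 s := by
  rw [w0_eq]
  have := rr_pos s
  positivity

theorem abs_tt_le (s : ℝ) : |tt s| ≤ 1 := by
  rw [tt_eq, abs_div, abs_of_pos (rr_pos s), div_le_one (rr_pos s)]
  exact abs_le_rr s

theorem one_sub_tt_sq (s : ℝ) : 1 - tt s ^ 2 = (rr s ^ 2)⁻¹ := by
  rw [tt_eq, div_pow, rr_sq]
  have : (1 + s ^ 2) ≠ 0 := by positivity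
  field_simp
  ring

theorem hasDerivAt_rr (s : ℝ) : HasDerivAt rr (tt s) s := by
  have h1 : HasDerivAt (fun s : ℝ => 1 + s ^ 2) (2 * s) s := by
    simpa using (hasDerivAt_pow 2 s).const_add 1
  have h2 := h1.sqrt (by positivity)
  have h3 : 2 * s / (2 * Real.sqrt (1 + s ^ 2)) = tt s := by
    unfold tt
    have : Real.sqrt (1 + s ^ 2) ≠ 0 := (rr_pos s).ne'
    field_simp
  rw [← h3]
  exact h2

theorem hasDerivAt_tt (s : ℝ) : HasDerivAt tt (w0 s) s := by
  have h := (hasDerivAt_id s).div (hasDerivAt_rr s) (rr_pos s).ne'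
  have h3 : (1 * rr s - id s * tt s) / rr s ^ 2 = w0 s := by
    rw [w0_eq, tt_eq, id]
    have : rr s ≠ 0 := (rr_pos s).ne'
    have h2 := rr_sq s
    field_simp
    linarith
  rw [← h3]
  exact h

theorem continuous_rr : Continuous rr :=
  continuous_iff_continuousAt.mpr fun s => (hasDerivAt_rr s).continuousAt

theorem continuous_tt : Continuous tt :=
  continuous_iff_continuousAt.mpr fun s => (hasDerivAt_tt s).continuousAt

theorem continuous_w0 : Continuous w0 := by
  have : w0 = fun s => (rr s ^ 3)⁻¹ := rfl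
  rw [this]
  exact (continuous_rr.pow 3).inv₀ fun s => pow_ne_zero 3 (rr_pos s).ne'

theorem strictMono_tt : StrictMono tt := by
  apply strictMono_of_deriv_pos
  intro x
  rw [(hasDerivAt_tt x).deriv]
  exact w0_pos x

theorem tendsto_rr_atTop : Tendsto rr atTop atTop :=
  tendsto_atTop_mono (fun s => (le_abs_self s).trans (abs_le_rr s)) tendsto_id

theorem tendsto_rr_atBot : Tendsto rr atBot atTop :=
  tendsto_atTop_mono (fun s => (neg_le_abs s).trans (abs_le_rr s)) tendsto_neg_atBot_atTop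

theorem tendsto_tt_atBot : Tendsto tt atBot (𝓝 (-1)) := by
  have h1 : Tendsto (fun s => (rr s)⁻¹) atBot (𝓝 0) := tendsto_rr_atBot.inv_tendsto_atTop
  have h2 : ∀ᶠ s in atBot, |tt s - (-1)| ≤ (rr s)⁻¹ := by
    filter_upwards [eventually_le_atBot (0 : ℝ)] with s hs
    have hr := rr_pos s
    have hr2 := rr_sq s
    have h3 : tt s - (-1) = (s + rr s) * (rr s)⁻¹ := by
      rw [tt_eq]
      field_simp
      ring
    rw [h3, abs_mul, abs_of_pos (inv_pos.mpr hr)]
    have h4 : |s + rr s| ≤ 1 := by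
      have h5 : 0 ≤ s + rr s := by
        have := abs_le_rr s
        have := neg_le_abs s
        linarith
      rw [abs_of_nonneg h5]
      have h6 : (s + rr s) * (rr s - s) = 1 := by ring_nf; rw [hr2]; ring
      have h7 : 1 ≤ rr s - s := by linarith [one_le_rr s]
      nlinarith
    calc |s + rr s| * (rr s)⁻¹ ≤ 1 * (rr s)⁻¹ :=
          mul_le_mul_of_nonneg_right h4 (inv_pos.mpr hr).le
      _ = (rr s)⁻¹ := one_mul _
  have h5 : Tendsto (fun s => tt s - (-1)) atBot (𝓝 0) :=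
    squeeze_zero_norm' h2 h1
  have h6 := h5.add_const (-1)
  simpa using h6

/-- first derivative of `q_k` -/
noncomputable def Fp (k : ℕ) (s : ℝ) : ℝ := (k : ℝ) * tt s ^ (k - 1) - ((k : ℝ) - 1) * tt s ^ (k + 1)

/-- the function `s q_k' - q_k` -/
noncomputable def Gk (k : ℕ) (s : ℝ) : ℝ := ((k : ℝ) - 1) * (tt s ^ k * (rr s)⁻¹)

theorem hasDerivAt_Fp (k : ℕ) (s : ℝ) : HasDerivAt (Fp k) (wk k s) s := by
  have ht := hasDerivAt_tt s
  have h := ((ht.pow (k - 1)).const_mul (k : ℝ)).sub ((ht.pow (k + 1)).const_mul ((k : ℝ) - 1))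
  refine h.congr_deriv ?_
  rw [wk_eq]
  rcases k with _ | _ | k
  · simp
  · simp
  · have e1 : k + 1 + 1 - 1 = k + 1 := rfl
    have e2 : k + 1 + 1 - 2 = k := rfl
    rw [e1, e2]
    have e3 : k + 1 - 1 = k := rfl
    have e4 : k + 1 + 1 + 1 - 1 = k + 2 := rfl
    rw [e3, e4]
    push_cast
    ring

theorem hasDerivAt_Gk (k : ℕ) (s : ℝ) : HasDerivAt (Gk k) (s * wk k s) s := by
  have ht := hasDerivAt_tt s
  have hr := (hasDerivAt_rr s).inv (rr_pos s).ne'
  have h := ((ht.pow k).mul hr).const_mul ((k : ℝ) - 1)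
  refine h.congr_deriv ?_
  rw [wk_eq]
  have hr0 : rr s ≠ 0 := (rr_pos s).ne'
  have hs : s = tt s * rr s := by rw [tt_eq]; field_simp
  have h1 : (rr s ^ 2)⁻¹ = 1 - tt s ^ 2 := (one_sub_tt_sq s).symm
  have h2 : w0 s = (rr s ^ 2)⁻¹ * (rr s)⁻¹ := by rw [w0_eq]; field_simp
  have h3 : s * w0 s = tt s * (rr s ^ 2)⁻¹ := by
    rw [w0_eq, tt_eq]; field_simp
  have h4 : w0 s * (rr s)⁻¹ = (1 - tt s ^ 2) * (rr s ^ 2)⁻¹ := by
    rw [← h1, w0_eq]; field_simp
  have h5 : -tt s / rr s ^ 2 = - (tt s * (rr s ^ 2)⁻¹) := by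
    rw [neg_div, div_eq_mul_inv]
  rcases k with _ | _ | k
  · simp
    linear_combination (-1) * h3 + h5
  · simp
  · have e1 : k + 1 + 1 - 1 = k + 1 := rfl
    have e2 : k + 1 + 1 - 2 = k := rfl
    rw [e1, e2]
    push_cast
    simp only [Pi.pow_apply, Pi.inv_apply]
    rw [h5]
    have e : s * (w0 s * ((k : ℝ) + 1 + 1 - 1) *
        (((k : ℝ) + 1 + 1) * tt s ^ k - ((k : ℝ) + 1 + 1 + 1) * tt s ^ (k + 1 + 1)))
        = (s * w0 s) * (((k : ℝ) + 1 + 1 - 1) *
        (((k : ℝ) + 1 + 1) * tt s ^ k - ((k : ℝ) + 1 + 1 + 1) * tt s ^ (k + 1 + 1))) := by ring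
    rw [e, h3]
    have e' : (((k : ℝ) + 1 + 1) * tt s ^ (k + 1) * w0 s * (rr s)⁻¹)
        = (((k : ℝ) + 1 + 1) * tt s ^ (k + 1) * (w0 s * (rr s)⁻¹)) := by ring
    rw [e', h4]
    ring

theorem wk_bound (k : ℕ) (s : ℝ) : |wk k s| ≤ (|(k : ℝ) - 1| * (2 * k + 1)) * w0 s := by
  rw [wk_eq, abs_mul, abs_mul, abs_of_pos (w0_pos s)]
  have h1 : |(k : ℝ) * tt s ^ (k - 2) - ((k : ℝ) + 1) * tt s ^ k| ≤ 2 * k + 1 := by
    have e1 : |tt s ^ (k - 2)| ≤ 1 := by
      rw [abs_pow]; exact pow_le_one₀ (abs_nonneg _) (abs_tt_le s)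
    have e2 : |tt s ^ k| ≤ 1 := by
      rw [abs_pow]; exact pow_le_one₀ (abs_nonneg _) (abs_tt_le s)
    calc |(k : ℝ) * tt s ^ (k - 2) - ((k : ℝ) + 1) * tt s ^ k|
        ≤ |(k : ℝ) * tt s ^ (k - 2)| + |((k : ℝ) + 1) * tt s ^ k| := abs_sub _ _
      _ = (k : ℝ) * |tt s ^ (k - 2)| + ((k : ℝ) + 1) * |tt s ^ k| := by
          rw [abs_mul, abs_mul, Nat.abs_cast, abs_of_nonneg (by positivity : (0 : ℝ) ≤ (k : ℝ) + 1)]
      _ ≤ (k : ℝ) * 1 + ((k : ℝ) + 1) * 1 := by gcongr
      _ = 2 * k + 1 := by ring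
  have h2 := (w0_pos s).le
  have h3 := abs_nonneg ((k : ℝ) - 1)
  calc w0 s * |(k : ℝ) - 1| * |(k : ℝ) * tt s ^ (k - 2) - ((k : ℝ) + 1) * tt s ^ k|
      ≤ w0 s * |(k : ℝ) - 1| * (2 * k + 1) := by gcongr
    _ = _ := by ring

theorem continuous_wk (k : ℕ) : Continuous (wk k) := by
  have : wk k = fun s => w0 s * ((k : ℝ) - 1) *
      ((k : ℝ) * tt s ^ (k - 2) - ((k : ℝ) + 1) * tt s ^ k) := by
    funext s; exact wk_eq k s
  rw [this]
  have h1 := continuous_w0
  have h2 := continuous_tt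
  fun_prop

theorem lin_w0_le (s : ℝ) : (1 + |s|) * w0 s ≤ 2 * (1 + s ^ 2)⁻¹ := by
  have h1 : 1 + |s| ≤ 2 * rr s := by linarith [one_le_rr s, abs_le_rr s]
  have hr := rr_pos s
  rw [← rr_sq, w0_eq]
  calc (1 + |s|) * (rr s ^ 3)⁻¹ ≤ (2 * rr s) * (rr s ^ 3)⁻¹ := by gcongr
    _ = 2 * (rr s ^ 2)⁻¹ := by field_simp

/-- measurable functions of at most linear growth are integrable against `w0` times a
bounded function -/
theorem integrable_of_lin {f g : ℝ → ℝ} (hf : Measurable f) (hg : Measurable g) {C D : ℝ}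
    (hfC : ∀ τ, |f τ| ≤ C * (1 + |τ|)) (hgD : ∀ τ, |g τ| ≤ D * w0 τ) :
    Integrable (fun τ => f τ * g τ) := by
  have hC : 0 ≤ C := by
    have := (abs_nonneg _).trans (hfC 0)
    simpa using this
  have hD : 0 ≤ D := by
    have h := (abs_nonneg _).trans (hgD 0)
    exact nonneg_of_mul_nonneg_left h (w0_pos 0)
  have h1 : Integrable (fun τ : ℝ => (C * D * 2) * (1 + τ ^ 2)⁻¹) :=
    integrable_inv_one_add_sq.const_mul _
  refine h1.mono' (hf.mul hg).aestronglyMeasurable (Eventually.of_forall fun τ => ?_)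
  rw [Real.norm_eq_abs, abs_mul]
  calc |f τ| * |g τ| ≤ (C * (1 + |τ|)) * (D * w0 τ) := by
        gcongr
        · exact hfC τ
        · exact hgD τ
    _ = (C * D) * ((1 + |τ|) * w0 τ) := by ring
    _ ≤ (C * D) * (2 * (1 + τ ^ 2)⁻¹) := by
        exact mul_le_mul_of_nonneg_left (lin_w0_le τ) (mul_nonneg hC hD)
    _ = _ := by ring

theorem tendsto_Gk_atTop (k : ℕ) : Tendsto (Gk k) atTop (𝓝 0) := by
  have h1 : Tendsto (fun s => |(k : ℝ) - 1| * (rr s)⁻¹) atTop (𝓝 (|(k : ℝ) - 1| * 0)) :=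
    tendsto_rr_atTop.inv_tendsto_atTop.const_mul _
  rw [mul_zero] at h1
  refine squeeze_zero_norm (fun s => ?_) h1
  rw [Real.norm_eq_abs, Gk, abs_mul, abs_mul, abs_of_pos (inv_pos.mpr (rr_pos s)), abs_pow]
  have h2 : |tt s| ^ k ≤ 1 := pow_le_one₀ (abs_nonneg _) (abs_tt_le s)
  have h3 := (inv_pos.mpr (rr_pos s)).le
  calc |(k : ℝ) - 1| * (|tt s| ^ k * (rr s)⁻¹) ≤ |(k : ℝ) - 1| * (1 * (rr s)⁻¹) := by gcongr
    _ = _ := by ring

theorem tendsto_Gk_atBot (k : ℕ) : Tendsto (Gk k) atBot (𝓝 0) := by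
  have h1 : Tendsto (fun s => |(k : ℝ) - 1| * (rr s)⁻¹) atBot (𝓝 (|(k : ℝ) - 1| * 0)) :=
    tendsto_rr_atBot.inv_tendsto_atTop.const_mul _
  rw [mul_zero] at h1
  refine squeeze_zero_norm (fun s => ?_) h1
  rw [Real.norm_eq_abs, Gk, abs_mul, abs_mul, abs_of_pos (inv_pos.mpr (rr_pos s)), abs_pow]
  have h2 : |tt s| ^ k ≤ 1 := pow_le_one₀ (abs_nonneg _) (abs_tt_le s)
  have h3 := (inv_pos.mpr (rr_pos s)).le
  calc |(k : ℝ) - 1| * (|tt s| ^ k * (rr s)⁻¹) ≤ |(k : ℝ) - 1| * (1 * (rr s)⁻¹) := by gcongr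
    _ = _ := by ring

theorem tendsto_Fp_atBot (k : ℕ) : Tendsto (Fp k) atBot (𝓝 (-(-1) ^ k)) := by
  have h1 := ((tendsto_tt_atBot.pow (k - 1)).const_mul (k : ℝ)).sub
    ((tendsto_tt_atBot.pow (k + 1)).const_mul ((k : ℝ) - 1))
  have h2 : (k : ℝ) * (-1) ^ (k - 1) - ((k : ℝ) - 1) * (-1) ^ (k + 1) = -(-1) ^ k := by
    rcases k with _ | k
    · simp
    · have : k + 1 - 1 = k := rfl
      rw [this]
      push_cast
      ring
  rw [h2] at h1
  exact h1

theorem integral_lin_wk (k : ℕ) : ∫ τ, τ * wk k τ = 0 := by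
  have hint : Integrable (fun τ => τ * wk k τ) :=
    integrable_of_lin measurable_id (continuous_wk k).measurable (C := 1)
      (fun τ => by simp) (wk_bound k)
  have := integral_of_hasDerivAt_of_tendsto (f := Gk k) (fun s => hasDerivAt_Gk k s) hint
    (tendsto_Gk_atBot k) (tendsto_Gk_atTop k)
  simpa using this

theorem Fp_sub_Gk (k : ℕ) (s : ℝ) : s * Fp k s - Gk k s = rr s * tt s ^ k := by
  have hr0 : rr s ≠ 0 := (rr_pos s).ne'
  have hs : s = tt s * rr s := by rw [tt_eq]; field_simp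
  have h1 : (rr s)⁻¹ = rr s * (1 - tt s ^ 2) := by
    rw [one_sub_tt_sq]; field_simp
  unfold Fp Gk
  rw [h1]
  rcases k with _ | k
  · simp
    linear_combination (tt s) * hs
  · have : k + 1 - 1 = k := rfl
    rw [this]
    push_cast
    linear_combination (((k : ℝ) + 1) * tt s ^ k - ((k : ℝ) + 1 - 1) * tt s ^ (k + 1 + 1)) * hs

/-- an integrable function whose moments in the bounded variable `tt` vanish is zero -/
theorem ae_zero_of_moments (f : ℝ → ℝ) (hf : Measurable f) (hi : Integrable f)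
    (h : ∀ k : ℕ, ∫ τ, f τ * tt τ ^ k = 0) : f =ᵐ[volume] 0 := by
  let T : BoundedContinuousFunction ℝ ℝ :=
    BoundedContinuousFunction.ofNormedAddCommGroup tt continuous_tt 1
      (fun x => by rw [Real.norm_eq_abs]; exact abs_tt_le x)
  have hT : ∀ x, T x = tt x := fun _ => rfl
  let P : Measure ℝ := volume.withDensity (fun τ => ENNReal.ofReal (f τ))
  let P' : Measure ℝ := volume.withDensity (fun τ => ENNReal.ofReal (-f τ))
  have hP : IsFiniteMeasure P := isFiniteMeasure_withDensity_ofReal hi.2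
  have hP' : IsFiniteMeasure P' := isFiniteMeasure_withDensity_ofReal hi.neg.2
  let A : StarSubalgebra ℝ (BoundedContinuousFunction ℝ ℝ) :=
    { (Polynomial.aeval (R := ℝ) T).range with
      star_mem' := fun {a} ha => by
        have : star a = a := by ext x; simp
        rw [this]; exact ha }
  have hmemA : ∀ g, g ∈ A ↔ ∃ p : Polynomial ℝ, Polynomial.aeval T p = g := fun g => Iff.rfl
  have intP : ∀ g : BoundedContinuousFunction ℝ ℝ,
      ∫ x, g x ∂P - ∫ x, g x ∂P' = ∫ x, f x * g x := by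
    intro g
    have e1 : ∫ x, g x ∂P = ∫ x, (ENNReal.ofReal (f x)).toReal • g x := by
      exact integral_withDensity_eq_integral_toReal_smul hf.ennreal_ofReal
        (Eventually.of_forall fun _ => ENNReal.ofReal_lt_top) _
    have e2 : ∫ x, g x ∂P' = ∫ x, (ENNReal.ofReal (-f x)).toReal • g x := by
      exact integral_withDensity_eq_integral_toReal_smul hf.neg.ennreal_ofReal
        (Eventually.of_forall fun _ => ENNReal.ofReal_lt_top) _
    have hgi : ∀ (h : ℝ → ℝ), Integrable h → Integrable (fun x => (ENNReal.ofReal (h x)).toReal • g x) := by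
      intro h hh
      have h1 : Integrable (fun x => (ENNReal.ofReal (h x)).toReal) := by
        have : (fun x => (ENNReal.ofReal (h x)).toReal) = fun x => max (h x) 0 := by
          funext x; rw [ENNReal.toReal_ofReal']
        rw [this]
        exact hh.pos_part
      have h2 := h1.bdd_mul (c := ‖g‖) g.continuous.aestronglyMeasurable
        (Eventually.of_forall fun x => g.norm_coe_le_norm x)
      refine h2.congr (Eventually.of_forall fun x => ?_)
      simp only [smul_eq_mul]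
      ring
    rw [e1, e2, ← integral_sub (hgi f hi) (hgi (fun x => -f x) hi.neg)]
    apply integral_congr_ae
    refine Eventually.of_forall fun x => ?_
    simp only [smul_eq_mul]
    rw [ENNReal.toReal_ofReal', ENNReal.toReal_ofReal']
    rcases le_total 0 (f x) with h0 | h0
    · rw [max_eq_left h0, max_eq_right (by linarith)]; ring
    · rw [max_eq_right h0, max_eq_left (by linarith)]; ring
  have hgint : ∀ g : BoundedContinuousFunction ℝ ℝ, Integrable (fun x => f x * g x) := by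
    intro g
    have h2 := hi.bdd_mul (c := ‖g‖) g.continuous.aestronglyMeasurable
        (Eventually.of_forall fun x => g.norm_coe_le_norm x)
    refine h2.congr (Eventually.of_forall fun x => ?_)
    simp only
    ring
  have hpoly : ∀ p : Polynomial ℝ, ∫ x, f x * (Polynomial.aeval T p) x = 0 := by
    intro p
    induction p using Polynomial.induction_on' with
    | add p q hp hq =>
      have e : ∀ x, f x * (Polynomial.aeval T (p + q)) x
          = f x * (Polynomial.aeval T p) x + f x * (Polynomial.aeval T q) x := by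
        intro x
        rw [map_add, BoundedContinuousFunction.add_apply, mul_add]
      simp_rw [e]
      rw [integral_add (hgint _) (hgint _), hp, hq, add_zero]
    | monomial n c =>
      have e : ∀ x, f x * (Polynomial.aeval T (Polynomial.monomial n c)) x
          = c * (f x * tt x ^ n) := by
        intro x
        rw [Polynomial.aeval_monomial]
        have : ((algebraMap ℝ (BoundedContinuousFunction ℝ ℝ)) c * T ^ n) x = c * tt x ^ n := by
          simp [hT]
        rw [this]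
        ring
      simp_rw [e]
      rw [integral_const_mul, h n, mul_zero]
  have heq : P = P' := by
    refine ext_of_forall_mem_subalgebra_integral_eq_of_polish (A := A) ?_ ?_
    · intro x y hxy
      refine ⟨tt, ?_, strictMono_tt.injective.ne hxy⟩
      refine ⟨BoundedContinuousFunction.toContinuousMapStarₐ ℝ T, ?_, rfl⟩
      exact ⟨T, (hmemA T).mpr ⟨Polynomial.X, by simp⟩, rfl⟩
    · intro g hg
      obtain ⟨p, rfl⟩ := (hmemA g).mp hg
      have := intP (Polynomial.aeval T p)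
      rw [hpoly p] at this
      linarith
  have hl : ∫⁻ a, ENNReal.ofReal (f a) ≠ ⊤ := by
    have := hP.measure_univ_lt_top
    rw [withDensity_apply _ MeasurableSet.univ, Measure.restrict_univ] at this
    exact this.ne
  have h3 : (fun τ => ENNReal.ofReal (f τ)) =ᵐ[volume] fun τ => ENNReal.ofReal (-f τ) :=
    (withDensity_eq_iff hf.ennreal_ofReal.aemeasurable hf.neg.ennreal_ofReal.aemeasurable hl).mp heq
  filter_upwards [h3] with x hx
  simp only [Pi.zero_apply]
  rcases le_total 0 (f x) with h0 | h0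
  · rw [ENNReal.ofReal_of_nonpos (by linarith : -f x ≤ 0), ENNReal.ofReal_eq_zero] at hx
    linarith
  · rw [ENNReal.ofReal_of_nonpos h0, eq_comm, ENNReal.ofReal_eq_zero] at hx
    linarith

/-- moments of a function against `w0` -/
theorem moments_rec {a : ℝ → ℝ} (ha : Measurable a) {C : ℝ} (hC : ∀ τ, |a τ| ≤ C * (1 + |τ|))
    (k : ℕ) (hk : ∫ τ, a τ * wk (k + 2) τ = 0) :
    ((k : ℝ) + 2) * ∫ τ, a τ * (w0 τ * tt τ ^ k)
      = ((k : ℝ) + 3) * ∫ τ, a τ * (w0 τ * tt τ ^ (k + 2)) := by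
  have hint : ∀ j : ℕ, Integrable (fun τ => a τ * (w0 τ * tt τ ^ j)) := by
    intro j
    refine integrable_of_lin ha ((continuous_w0.mul (continuous_tt.pow j)).measurable) hC (D := 1)
      (fun τ => ?_)
    rw [abs_mul, abs_of_pos (w0_pos τ), abs_pow, one_mul]
    exact mul_le_of_le_one_right (w0_pos τ).le (pow_le_one₀ (abs_nonneg _) (abs_tt_le τ))
  have e : ∀ τ, a τ * wk (k + 2) τ = ((k : ℝ) + 1) * (((k : ℝ) + 2) * (a τ * (w0 τ * tt τ ^ k))
      - ((k : ℝ) + 3) * (a τ * (w0 τ * tt τ ^ (k + 2)))) := by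
    intro τ
    rw [wk_eq]
    have : k + 2 - 2 = k := rfl
    rw [this]
    push_cast
    ring
  simp_rw [e] at hk
  rw [integral_const_mul, integral_sub ((hint k).const_mul _) ((hint (k + 2)).const_mul _),
    integral_const_mul, integral_const_mul] at hk
  have h1 : ((k : ℝ) + 1) ≠ 0 := by positivity
  have h2 := (mul_eq_zero.mp hk).resolve_left h1
  linarith

end Moment

open Moment

theorem moment_line (a : ℝ → ℝ) (ha : Measurable a) (C : ℝ) (hC : ∀ τ, |a τ| ≤ C * (1 + |τ|))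
    (h0 : ∫ τ, a τ * wk 0 τ = 0) (hk : ∀ k : ℕ, 2 ≤ k → ∫ τ, a τ * wk k τ = 0) :
    ∃ b : ℝ, ∀ᵐ τ ∂(volume : Measure ℝ), a τ = b * τ := by
  have hwb : ∀ (j : ℕ) (τ : ℝ), |w0 τ * tt τ ^ j| ≤ 1 * w0 τ := by
    intro j τ
    rw [abs_mul, abs_of_pos (w0_pos τ), abs_pow, one_mul]
    exact mul_le_of_le_one_right (w0_pos τ).le (pow_le_one₀ (abs_nonneg _) (abs_tt_le τ))
  have hwm : ∀ j : ℕ, Measurable (fun τ => w0 τ * tt τ ^ j) := fun j =>
    (continuous_w0.mul (continuous_tt.pow j)).measurable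
  have hid : ∀ τ : ℝ, |τ| ≤ 1 * (1 + |τ|) := fun τ => by linarith
  have inta : ∀ j : ℕ, Integrable (fun τ => a τ * (w0 τ * tt τ ^ j)) := fun j =>
    integrable_of_lin ha (hwm j) hC (hwb j)
  have intid : ∀ j : ℕ, Integrable (fun τ => τ * (w0 τ * tt τ ^ j)) := fun j =>
    integrable_of_lin measurable_id (hwm j) hid (hwb j)
  -- the first moment of the identity is positive
  have hb1 : 0 < ∫ τ, τ * (w0 τ * tt τ ^ 1) := by
    have hnn : ∀ τ : ℝ, 0 ≤ τ * (w0 τ * tt τ ^ 1) := by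
      intro τ
      have : τ * (w0 τ * tt τ ^ 1) = w0 τ * (τ ^ 2 / rr τ) := by
        rw [tt_eq]; ring
      rw [this]
      have := rr_pos τ
      have := w0_pos τ
      positivity
    rw [integral_pos_iff_support_of_nonneg hnn (intid 1)]
    have hsup : Ioi (0 : ℝ) ⊆ Function.support fun τ => τ * (w0 τ * tt τ ^ 1) := by
      intro τ hτ
      have h1 : (0 : ℝ) < τ := hτ
      have := rr_pos τ
      have := w0_pos τ
      rw [Function.mem_support]
      have h2 : 0 < τ * (w0 τ * tt τ ^ 1) := by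
        rw [tt_eq]; positivity
      exact h2.ne'
    refine lt_of_lt_of_le ?_ (measure_mono hsup)
    simp
  set b : ℝ := (∫ τ, a τ * (w0 τ * tt τ ^ 1)) / ∫ τ, τ * (w0 τ * tt τ ^ 1) with hb
  refine ⟨b, ?_⟩
  have hcm : Measurable (fun τ => a τ - b * τ) := ha.sub (measurable_id.const_mul b)
  have hcb : ∀ τ, |a τ - b * τ| ≤ (C + |b|) * (1 + |τ|) := by
    intro τ
    calc |a τ - b * τ| ≤ |a τ| + |b * τ| := abs_sub _ _
      _ ≤ C * (1 + |τ|) + |b| * (1 + |τ|) := by
          rw [abs_mul]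
          have := hC τ
          have h2 : |b| * |τ| ≤ |b| * (1 + |τ|) := by
            have := abs_nonneg b
            gcongr
            linarith
          linarith
      _ = _ := by ring
  have hsplit : ∀ g : ℝ → ℝ, Integrable (fun τ => a τ * g τ) → Integrable (fun τ => τ * g τ) →
      ∫ τ, (a τ - b * τ) * g τ = (∫ τ, a τ * g τ) - b * ∫ τ, τ * g τ := by
    intro g h1 h2
    have e : ∀ τ, (a τ - b * τ) * g τ = a τ * g τ - b * (τ * g τ) := fun τ => by ring
    simp_rw [e]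
    rw [integral_sub h1 (h2.const_mul b), integral_const_mul]
  have hwk : ∀ k : ℕ, k ≠ 1 → ∫ τ, (a τ - b * τ) * wk k τ = 0 := by
    intro k hk1
    rw [hsplit (wk k) (integrable_of_lin ha (continuous_wk k).measurable hC (wk_bound k))
      (integrable_of_lin measurable_id (continuous_wk k).measurable hid (wk_bound k)),
      integral_lin_wk, mul_zero, sub_zero]
    rcases Nat.lt_or_ge k 2 with h | h
    · have : k = 0 := by omega
      rw [this]; exact h0
    · exact hk k h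
  have hm0 : ∫ τ, (a τ - b * τ) * (w0 τ * tt τ ^ 0) = 0 := by
    have := hwk 0 (by norm_num)
    have e : ∀ τ, (a τ - b * τ) * wk 0 τ = (a τ - b * τ) * (w0 τ * tt τ ^ 0) := by
      intro τ
      rw [wk_eq]
      simp
    simp_rw [e] at this
    exact this
  have hm1 : ∫ τ, (a τ - b * τ) * (w0 τ * tt τ ^ 1) = 0 := by
    rw [hsplit _ (inta 1) (intid 1), hb, div_mul_cancel₀ _ hb1.ne', sub_self]
  have hmall : ∀ j : ℕ, (∫ τ, (a τ - b * τ) * (w0 τ * tt τ ^ j) = 0) ∧
      (∫ τ, (a τ - b * τ) * (w0 τ * tt τ ^ (j + 1)) = 0) := by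
    intro j
    induction j with
    | zero => exact ⟨hm0, hm1⟩
    | succ j ih =>
      refine ⟨ih.2, ?_⟩
      have h1 := moments_rec hcm hcb j (hwk (j + 2) (by omega))
      rw [ih.1, mul_zero] at h1
      have h2 : ((j : ℝ) + 3) ≠ 0 := by positivity
      exact (mul_eq_zero.mp h1.symm).resolve_left h2
  have hfi : Integrable (fun τ => (a τ - b * τ) * w0 τ) :=
    integrable_of_lin hcm continuous_w0.measurable hcb (D := 1) (fun τ => by
      rw [abs_of_pos (w0_pos τ), one_mul])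
  have hz := ae_zero_of_moments (fun τ => (a τ - b * τ) * w0 τ)
    (hcm.mul continuous_w0.measurable) hfi (fun k => by
      have := (hmall k).1
      have e : ∀ τ, (a τ - b * τ) * (w0 τ * tt τ ^ k) = (a τ - b * τ) * w0 τ * tt τ ^ k :=
        fun τ => by ring
      simp_rw [e] at this
      exact this)
  filter_upwards [hz] with τ hτ
  have h1 : (a τ - b * τ) * w0 τ = 0 := hτ
  have h2 := (mul_eq_zero.mp h1).resolve_right (w0_pos τ).ne'
  linarith

/-- `q_k s = |(s,1)|^(1-k) s^k`. -/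
theorem qk_repr (k : ℕ) (hk : k ≠ 1) (s : ℝ) :
    Integrable (fun τ => max 0 (s - τ) * wk k τ) ∧
    Integrable (fun τ => (1 + |τ|) * wk k τ) ∧
    Real.sqrt (1 + s ^ 2) * (s / Real.sqrt (1 + s ^ 2)) ^ k
      = -(-1) ^ k * s + ∫ τ, max 0 (s - τ) * wk k τ := by
  have hm : Measurable (fun τ : ℝ => max 0 (s - τ)) := by fun_prop
  have hb : ∀ τ : ℝ, |max 0 (s - τ)| ≤ (1 + |s|) * (1 + |τ|) := by
    intro τ
    rw [abs_of_nonneg (le_max_left _ _)]
    apply max_le
    · positivity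
    · nlinarith [le_abs_self s, neg_abs_le τ, abs_nonneg s, abs_nonneg τ,
        mul_nonneg (abs_nonneg s) (abs_nonneg τ)]
  have i1 : Integrable (fun τ => max 0 (s - τ) * wk k τ) :=
    integrable_of_lin hm (continuous_wk k).measurable hb (wk_bound k)
  refine ⟨i1, integrable_of_lin (by fun_prop) (continuous_wk k).measurable (C := 1)
    (fun τ => ?_) (wk_bound k), ?_⟩
  · rw [abs_of_nonneg (by positivity), one_mul]
  have e1 : ∫ τ, max 0 (s - τ) * wk k τ = ∫ τ in Iic s, (s - τ) * wk k τ := by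
    rw [← integral_indicator measurableSet_Iic]
    apply integral_congr_ae
    refine Eventually.of_forall fun τ => ?_
    by_cases h : τ ≤ s
    · simp only [indicator, mem_Iic, h, if_true]
      rw [max_eq_right (by linarith)]
    · simp only [indicator, mem_Iic, h, if_false]
      rw [max_eq_left (by linarith), zero_mul]
  have hder : ∀ x ∈ Iic s, HasDerivAt (fun τ => s * Fp k τ - Gk k τ) ((s - x) * wk k x) x := by
    intro x _
    have := ((hasDerivAt_Fp k x).const_mul s).sub (hasDerivAt_Gk k x)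
    refine this.congr_deriv (by ring)
  have hint : IntegrableOn (fun τ => (s - τ) * wk k τ) (Iic s) := by
    have : IntegrableOn (fun τ => max 0 (s - τ) * wk k τ) (Iic s) := i1.integrableOn
    refine this.congr_fun (fun τ hτ => ?_) measurableSet_Iic
    have : τ ≤ s := hτ
    simp only
    rw [max_eq_right (by linarith)]
  have hlim : Tendsto (fun τ => s * Fp k τ - Gk k τ) atBot (𝓝 (s * (-(-1) ^ k) - 0)) :=
    ((tendsto_Fp_atBot k).const_mul s).sub (tendsto_Gk_atBot k)
  have h := integral_Iic_of_hasDerivAt_of_tendsto' hder hint hlim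
  rw [e1, h]
  have h2 := Fp_sub_Gk k s
  have h3 : Real.sqrt (1 + s ^ 2) * (s / Real.sqrt (1 + s ^ 2)) ^ k = rr s * tt s ^ k := rfl
  rw [h3, ← h2]
  ring

end MV
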