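import Pool.Agent.Lib.MP_f30071_gt.Defs

/-!
Random rotations about an axis.
-/

open MeasureTheory ProbabilityTheory Filter Topology Set
open scoped InnerProductSpace Pointwise NNReal ENNReal

namespace MV

universe u

variable {V : Type u} [NormedAddCommGroup V] [InnerProductSpace ℝ V] [FiniteDimensional ℝ V]
  [MeasurableSpace V] [BorelSpace V]

/-! ### module Rot (Rot.lean) : random rotations about an axis -/

omit [MeasurableSpace V] [BorelSpace V] in
theorem Gax_trans (e x y : V) (_he : ‖e‖ = 1) (hd : 2 ≤ Module.finrank ℝ V)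
    (hxy : ‖x‖ = ‖y‖) (hx : ⟪e, x⟫_ℝ = ⟪e, y⟫_ℝ) : ∃ g : V ≃ₗᵢ[ℝ] V, Gax e g ∧ g x = y := by
  by_cases hxy' : x = y
  · refine ⟨LinearIsometryEquiv.refl ℝ V, ⟨rfl, Or.inl ?_⟩, hxy'⟩
    unfold Rot
    exact LinearMap.det_id
  set g1 : V ≃ₗᵢ[ℝ] V := (ℝ ∙ (x - y))ᗮ.reflection with hg1
  have hg1x : g1 x = y := Submodule.reflection_sub hxy
  have hg1e : g1 e = e := by
    refine Submodule.reflection_mem_subspace_eq_self ?_
    rw [Submodule.mem_orthogonal_singleton_iff_inner_left, inner_sub_right, hx, sub_self]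
  have hdet : ∀ w : V, w ≠ 0 →
      LinearMap.det (((ℝ ∙ w)ᗮ.reflection).toLinearEquiv : V →ₗ[ℝ] V) = -1 := by
    intro w hw
    have h1 := (ℝ ∙ w)ᗮ.det_reflection
    rw [Submodule.orthogonal_orthogonal, finrank_span_singleton hw, pow_one] at h1
    exact h1
  rcases Nat.lt_or_ge 2 (Module.finrank ℝ V) with hd' | hd'
  · -- dimension at least three
    obtain ⟨z, hz, hze, hzy⟩ : ∃ z : V, z ≠ 0 ∧ ⟪z, e⟫_ℝ = 0 ∧ ⟪z, y⟫_ℝ = 0 := by
      have h1 : (Submodule.span ℝ {e, y} : Submodule ℝ V) ≠ ⊤ := by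
        intro h
        have h2 : Module.finrank ℝ (Submodule.span ℝ {e, y} : Submodule ℝ V) ≤ 2 := by
          classical
          have h3 := finrank_span_finset_le_card (R := ℝ) ({e, y} : Finset V)
          refine le_trans ?_ (h3.trans Finset.card_le_two)
          unfold Set.finrank
          rw [Finset.coe_pair]
        rw [h, finrank_top] at h2
        omega
      have h2 : (Submodule.span ℝ {e, y} : Submodule ℝ V)ᗮ ≠ ⊥ := by
        intro h
        exact h1 ((Submodule.orthogonal_eq_bot_iff).1 h)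
      obtain ⟨z, hz, hz0⟩ := Submodule.exists_mem_ne_zero_of_ne_bot h2
      rw [Submodule.mem_orthogonal'] at hz
      exact ⟨z, hz0, hz e (Submodule.subset_span (by simp)), hz y (Submodule.subset_span (by simp))⟩
    set g2 : V ≃ₗᵢ[ℝ] V := (ℝ ∙ z)ᗮ.reflection with hg2
    have hg2e : g2 e = e := by
      refine Submodule.reflection_mem_subspace_eq_self ?_
      rw [Submodule.mem_orthogonal_singleton_iff_inner_right]
      exact hze
    have hg2y : g2 y = y := by
      refine Submodule.reflection_mem_subspace_eq_self ?_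
      rw [Submodule.mem_orthogonal_singleton_iff_inner_right]
      exact hzy
    refine ⟨g1.trans g2, ⟨?_, Or.inl ?_⟩, ?_⟩
    · rw [LinearIsometryEquiv.trans_apply, hg1e, hg2e]
    · unfold Rot
      have h1 : ((g1.trans g2).toLinearEquiv : V →ₗ[ℝ] V) =
          (g2.toLinearEquiv : V →ₗ[ℝ] V).comp (g1.toLinearEquiv : V →ₗ[ℝ] V) := rfl
      rw [h1, LinearMap.det_comp, hg1, hg2, hdet z hz, hdet (x - y) (sub_ne_zero.2 hxy')]
      norm_num
    · rw [LinearIsometryEquiv.trans_apply, hg1x, hg2y]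
  · exact ⟨g1, ⟨hg1e, Or.inr (le_antisymm hd' hd)⟩, hg1x⟩

section Haar

omit [MeasurableSpace V] [BorelSpace V]

/-- The compact group of the isometries fixing the axis. -/
noncomputable def RotG (e : V) : Subgroup (unitary (V →L[ℝ] V)) where
  carrier := {u | Gax e (Unitary.linearIsometryEquiv u)}
  one_mem' := by
    refine ⟨rfl, Or.inl ?_⟩
    unfold Rot
    exact LinearMap.det_id
  mul_mem' := by
    rintro a b ⟨ha, ha'⟩ ⟨hb, hb'⟩
    refine ⟨?_, ?_⟩
    · rw [map_mul]
      change Unitary.linearIsometryEquiv a (Unitary.linearIsometryEquiv b e) = e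
      rw [hb, ha]
    · rcases ha' with ha' | ha'
      · rcases hb' with hb' | hb'
        · left
          unfold Rot at *
          have h1 : ((Unitary.linearIsometryEquiv (a * b)).toLinearEquiv : V →ₗ[ℝ] V)
              = ((Unitary.linearIsometryEquiv a).toLinearEquiv : V →ₗ[ℝ] V).comp
                ((Unitary.linearIsometryEquiv b).toLinearEquiv : V →ₗ[ℝ] V) := rfl
          rw [h1, LinearMap.det_comp, ha', hb', one_mul]
        · exact Or.inr hb'
      · exact Or.inr ha'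
  inv_mem' := by
    rintro a ⟨ha, ha'⟩
    have h0 : (Unitary.linearIsometryEquiv a⁻¹ : V ≃ₗᵢ[ℝ] V)
        = (Unitary.linearIsometryEquiv a).symm := by
      rw [map_inv]; rfl
    refine ⟨?_, ?_⟩
    · rw [h0, LinearIsometryEquiv.symm_apply_eq]
      exact ha.symm
    · rcases ha' with ha' | ha'
      · left
        unfold Rot at *
        have h1 : ((Unitary.linearIsometryEquiv a⁻¹).toLinearEquiv : V →ₗ[ℝ] V).comp
                ((Unitary.linearIsometryEquiv a).toLinearEquiv : V →ₗ[ℝ] V) = LinearMap.id := by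
          ext v
          rw [h0]
          simp
        have h2 := congrArg LinearMap.det h1
        rw [LinearMap.det_comp, ha', LinearMap.det_id, mul_one] at h2
        exact h2
      · exact Or.inr ha'

theorem RotG_isCompact (e : V) : IsCompact (RotG e : Set (unitary (V →L[ℝ] V))) := by
  have hU : IsCompact (unitary (V →L[ℝ] V) : Set (V →L[ℝ] V)) := by
    have : ProperSpace (V →L[ℝ] V) := FiniteDimensional.proper ℝ _
    refine Metric.isCompact_of_isClosed_isBounded isClosed_unitary ?_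
    refine (Metric.isBounded_closedBall (x := (0 : V →L[ℝ] V)) (r := 1)).subset ?_
    intro A hA
    rw [mem_closedBall_zero_iff]
    refine ContinuousLinearMap.opNorm_le_bound _ zero_le_one fun x => ?_
    rw [one_mul]
    exact (Unitary.norm_map ⟨A, hA⟩ x).le
  have : CompactSpace (unitary (V →L[ℝ] V)) := isCompact_iff_compactSpace.1 hU
  refine IsClosed.isCompact ?_
  have h1 : (RotG e : Set (unitary (V →L[ℝ] V))) =
      {u : unitary (V →L[ℝ] V) | (u : V →L[ℝ] V) e = e} ∩
      ({u : unitary (V →L[ℝ] V) | (u : V →L[ℝ] V).det = 1} ∪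
        {u : unitary (V →L[ℝ] V) | Module.finrank ℝ V = 2}) := by
    ext u
    rfl
  rw [h1]
  refine IsClosed.inter ?_ (IsClosed.union ?_ ?_)
  · exact isClosed_eq (by fun_prop) continuous_const
  · exact isClosed_eq (ContinuousLinearMap.continuous_det.comp continuous_subtype_val)
      continuous_const
  · exact isClosed_const

instance (e : V) : CompactSpace (RotG e) := isCompact_iff_compactSpace.1 (RotG_isCompact e)

instance (e : V) : SecondCountableTopology (RotG e) := by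
  have : ProperSpace (V →L[ℝ] V) := FiniteDimensional.proper ℝ _
  have : SecondCountableTopology (V →L[ℝ] V) := inferInstance
  have : SecondCountableTopology (unitary (V →L[ℝ] V)) := inferInstance
  infer_instance

end Haar

theorem exists_rot (e : V) (he : ‖e‖ = 1) (hd : 2 ≤ Module.finrank ℝ V) :
    ∃ (Ω : Type u) (_ : TopologicalSpace Ω) (_ : CompactSpace Ω) (_ : SecondCountableTopology Ω)
      (_ : MeasurableSpace Ω) (_ : BorelSpace Ω)
      (P : Measure Ω) (g : Ω → (V ≃ₗᵢ[ℝ] V)), IsProbabilityMeasure P ∧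
      (∀ ω, Gax e (g ω)) ∧ (Continuous fun ω => ((g ω : V ≃L[ℝ] V) : V →L[ℝ] V)) ∧
      (∀ x y : V, ‖x‖ = ‖y‖ → ⟪e, x⟫_ℝ = ⟪e, y⟫_ℝ →
        P.map (fun ω => g ω x) = P.map (fun ω => g ω y)) := by
  let _ : MeasurableSpace (RotG e) := borel _
  have _ : BorelSpace (RotG e) := ⟨rfl⟩
  set P : Measure (RotG e) := Measure.haarMeasure ⊤ with hP
  set g : RotG e → (V ≃ₗᵢ[ℝ] V) := fun ω =>
    Unitary.linearIsometryEquiv ((ω⁻¹ : RotG e) : unitary (V →L[ℝ] V)) with hg
  have hcont : Continuous fun ω => ((g ω : V ≃L[ℝ] V) : V →L[ℝ] V) := by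
    have h1 : (fun ω => ((g ω : V ≃L[ℝ] V) : V →L[ℝ] V)) =
        fun ω : RotG e => (((ω⁻¹ : RotG e) : unitary (V →L[ℝ] V)) : V →L[ℝ] V) := by
      funext ω
      rfl
    rw [h1]
    exact continuous_subtype_val.comp (continuous_subtype_val.comp continuous_inv)
  refine ⟨RotG e, inferInstance, inferInstance, inferInstance, inferInstance, inferInstance,
    P, g, ⟨?_⟩, fun ω => (ω⁻¹ : RotG e).2, hcont, ?_⟩
  · exact Measure.haarMeasure_self (K₀ := (⊤ : TopologicalSpace.PositiveCompacts (RotG e)))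
  · intro x y hxy hexy
    obtain ⟨h, hh, hhx⟩ := Gax_trans e x y he hd hxy hexy
    have hh' : Unitary.linearIsometryEquiv.symm h ∈ RotG e := by
      change Gax e (Unitary.linearIsometryEquiv (Unitary.linearIsometryEquiv.symm h))
      rw [MulEquiv.apply_symm_apply]
      exact hh
    set h' : RotG e := ⟨Unitary.linearIsometryEquiv.symm h, hh'⟩ with hh'
    have hmeas : ∀ z : V, Measurable fun ω => g ω z := by
      intro z
      have h2 : Continuous fun ω => ((g ω : V ≃L[ℝ] V) : V →L[ℝ] V) z :=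
        hcont.clm_apply continuous_const
      exact h2.measurable
    have h3 : (fun ω => g ω y) = (fun ω => g ω x) ∘ (fun ω => h'⁻¹ * ω) := by
      funext ω
      have h4 : (h'⁻¹ * ω)⁻¹ = ω⁻¹ * h' := by group
      have h5 : g (h'⁻¹ * ω) = g ω * h := by
        simp only [hg, h4]
        rw [Subgroup.coe_mul, map_mul]
        rw [hh']
        simp only [MulEquiv.apply_symm_apply]
      simp only [Function.comp_apply]
      rw [h5]
      change g ω y = g ω (h x)
      rw [hhx]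
    rw [h3, ← Measure.map_map (hmeas x) (measurable_const_mul _), map_mul_left_eq_self]

namespace Rot

/-- the map `s ↦ s / √(s² + ρ²)` pulls null sets back to null sets -/
theorem quot_null (ρ : ℝ) (hρ : 0 < ρ) (N : Set ℝ) (hN : volume N = 0) :
    volume {s : ℝ | s / √(s ^ 2 + ρ ^ 2) ∈ N} = 0 := by
  have hsub : {s : ℝ | s / √(s ^ 2 + ρ ^ 2) ∈ N} ⊆
      (fun t => ρ * t / √(1 - t ^ 2)) '' (N ∩ Ioo (-1) 1) := by
    intro s hs
    have hpos : 0 < s ^ 2 + ρ ^ 2 := by positivity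
    have hsq : 0 < √(s ^ 2 + ρ ^ 2) := Real.sqrt_pos.2 hpos
    have hsq2 : √(s ^ 2 + ρ ^ 2) ^ 2 = s ^ 2 + ρ ^ 2 := Real.sq_sqrt hpos.le
    have h1 : 1 - (s / √(s ^ 2 + ρ ^ 2)) ^ 2 = (ρ / √(s ^ 2 + ρ ^ 2)) ^ 2 := by
      rw [div_pow, div_pow, hsq2]
      field_simp
      ring
    have h2 : 0 < ρ / √(s ^ 2 + ρ ^ 2) := div_pos hρ hsq
    refine ⟨s / √(s ^ 2 + ρ ^ 2), ⟨hs, ?_⟩, ?_⟩
    · have h3 : (s / √(s ^ 2 + ρ ^ 2)) ^ 2 < 1 := by nlinarith
      exact abs_lt.1 ((sq_lt_one_iff_abs_lt_one _).1 h3)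
    · simp only [h1]
      rw [Real.sqrt_sq h2.le]
      field_simp
  refine measure_mono_null hsub ?_
  refine MeasureTheory.addHaar_image_eq_zero_of_differentiableOn_of_addHaar_eq_zero volume ?_
    (measure_mono_null inter_subset_left hN)
  intro t ht
  have h4 : (1 - t ^ 2) ≠ 0 := by
    have : 0 < 1 - t ^ 2 := by nlinarith [ht.2.1, ht.2.2]
    exact this.ne'
  have h5 : √(1 - t ^ 2) ≠ 0 := by
    have : 0 < 1 - t ^ 2 := by nlinarith [ht.2.1, ht.2.2]
    exact (Real.sqrt_pos.2 this).ne'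
  refine DifferentiableAt.differentiableWithinAt ?_
  fun_prop (disch := assumption)

/-- the map `w ↦ ⟪u,w⟫ / ‖prj e w‖` pulls null sets back to null sets -/
theorem angle_null (e u : V) (he : ‖e‖ = 1) (hd : 3 ≤ Module.finrank ℝ V) (hu : ‖u‖ = 1)
    (hue : ⟪e, u⟫_ℝ = 0) (N : Set ℝ) (hNm : MeasurableSet N) (hN : volume N = 0) :
    MeasurableSet {w : V | ⟪u, w⟫_ℝ / ‖prj e w‖ ∈ N} ∧
    (volume : Measure V) {w : V | ⟪u, w⟫_ℝ / ‖prj e w‖ ∈ N} = 0 := by
  have hprj : Continuous fun w : V => prj e w := by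
    unfold prj
    fun_prop
  have hmeas : MeasurableSet {w : V | ⟪u, w⟫_ℝ / ‖prj e w‖ ∈ N} := by
    have h1 : Measurable fun w : V => ⟪u, w⟫_ℝ / ‖prj e w‖ :=
      (Continuous.measurable (by fun_prop)).div (hprj.norm.measurable)
    exact h1 hNm
  refine ⟨hmeas, ?_⟩
  set q : V →ₗ[ℝ] V := LinearMap.id - ((innerSL ℝ e).toLinearMap.smulRight e)
    - ((innerSL ℝ u).toLinearMap.smulRight u) with hq
  have hqa : ∀ w, q w = w - ⟪e, w⟫_ℝ • e - ⟪u, w⟫_ℝ • u := by
    intro w
    simp [hq]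
  have hker : LinearMap.ker q ≠ ⊤ := by
    intro h
    have h2 : (⊤ : Submodule ℝ V) ≤ Submodule.span ℝ {e, u} := by
      intro w _
      have h3 : w ∈ LinearMap.ker q := by rw [h]; trivial
      rw [LinearMap.mem_ker, hqa] at h3
      have h4 : w = ⟪e, w⟫_ℝ • e + ⟪u, w⟫_ℝ • u := by
        rw [← sub_eq_zero, ← h3]
        abel
      rw [h4]
      exact Submodule.add_mem _ (Submodule.smul_mem _ _ (Submodule.subset_span (by simp)))
        (Submodule.smul_mem _ _ (Submodule.subset_span (by simp)))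
    have h5 : Module.finrank ℝ V ≤ 2 := by
      classical
      have h3 := finrank_span_finset_le_card (R := ℝ) ({e, u} : Finset V)
      unfold Set.finrank at h3
      rw [Finset.coe_pair, top_le_iff.1 h2, finrank_top] at h3
      exact h3.trans Finset.card_le_two
    omega
  have hker0 : (volume : Measure V) {w | q w = 0} = 0 :=
    Measure.addHaar_submodule volume (LinearMap.ker q) hker
  have hnorm : ∀ w, ‖prj e w‖ = √(⟪u, w⟫_ℝ ^ 2 + ‖q w‖ ^ 2) := by
    intro w
    have h1 : prj e w = ⟪u, w⟫_ℝ • u + q w := by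
      rw [hqa, prj, he]
      simp
    have h2 : ⟪u, q w⟫_ℝ = 0 := by
      have h0 : ⟪u, e⟫_ℝ = 0 := by rw [real_inner_comm]; exact hue
      rw [hqa, inner_sub_right, inner_sub_right, inner_smul_right, inner_smul_right,
        real_inner_self_eq_norm_sq, hu, h0]
      ring
    rw [h1, eq_comm, Real.sqrt_eq_iff_mul_self_eq (by positivity) (norm_nonneg _), ← sq,
      norm_add_sq_real, inner_smul_left, h2, norm_smul, hu]
    simp
  have hkey : ∀ᵐ w ∂(volume : Measure V), w ∈ {w : V | q w ≠ 0 → ⟪u, w⟫_ℝ / ‖prj e w‖ ∉ N} := by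
    have hm2 : MeasurableSet {w : V | q w ≠ 0 → ⟪u, w⟫_ℝ / ‖prj e w‖ ∉ N} := by
      have h1 : {w : V | q w ≠ 0 → ⟪u, w⟫_ℝ / ‖prj e w‖ ∉ N} =
          {w : V | q w = 0} ∪ {w : V | ⟪u, w⟫_ℝ / ‖prj e w‖ ∈ N}ᶜ := by
        ext w
        change (q w ≠ 0 → ⟪u, w⟫_ℝ / ‖prj e w‖ ∉ N) ↔ (q w = 0 ∨ ¬ (⟪u, w⟫_ℝ / ‖prj e w‖ ∈ N))
        tauto
      rw [h1]
      exact (isClosed_eq (q.continuous_of_finiteDimensional) continuous_const).measurableSet.union
        hmeas.compl
    refine MeasureTheory.ae_mem_of_ae_add_linearMap_mem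
      (LinearMap.toSpanSingleton ℝ V u) (volume : Measure ℝ) (volume : Measure V) hm2 ?_
    intro w
    by_cases hqw : q w = 0
    · refine Filter.Eventually.of_forall fun t => ?_
      intro h
      exfalso
      apply h
      rw [LinearMap.toSpanSingleton_apply, map_add, hqw, map_smul, hqa u,
        real_inner_self_eq_norm_sq, hu, hue]
      simp
    · have hq' : ∀ t : ℝ, q (w + t • u) = q w := by
        intro t
        rw [map_add, map_smul, hqa u, real_inner_self_eq_norm_sq, hu, hue]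
        simp
      have h2 := quot_null ‖q w‖ (norm_pos_iff.2 hqw) N hN
      have h3 : volume ((fun t : ℝ => ⟪u, w⟫_ℝ + t) ⁻¹' {s : ℝ | s / √(s ^ 2 + ‖q w‖ ^ 2) ∈ N})
          = 0 := by
        rw [measure_preimage_add]
        exact h2
      rw [ae_iff]
      refine measure_mono_null ?_ h3
      intro t ht
      have ht : ¬ (q (w + t • u) ≠ 0 → ⟪u, w + t • u⟫_ℝ / ‖prj e (w + t • u)‖ ∉ N) := ht
      rw [Classical.not_imp, not_not] at ht
      obtain ⟨_, ht⟩ := ht
      rw [hnorm, hq', inner_add_right, inner_smul_right, real_inner_self_eq_norm_sq, hu] at ht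
      simpa using ht
  have h6 : {w : V | ⟪u, w⟫_ℝ / ‖prj e w‖ ∈ N} ⊆
      {w | q w = 0} ∪ {w : V | q w ≠ 0 → ⟪u, w⟫_ℝ / ‖prj e w‖ ∉ N}ᶜ := by
    intro w hw
    by_cases h : q w = 0
    · exact Or.inl h
    · right
      intro hcon
      exact hcon h hw
  exact measure_mono_null h6 (measure_union_null hker0 hkey)

end Rot

/-- For `dim ≥ 3` the law of `⟪u, g x⟫` (u, x unit, orthogonal to e) is absolutely continuous. -/
theorem rot_ac (e : V) (he : ‖e‖ = 1) (hd : 3 ≤ Module.finrank ℝ V)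
    {Ω : Type*} [MeasurableSpace Ω] (P : Measure Ω) [IsProbabilityMeasure P]
    (g : Ω → (V ≃ₗᵢ[ℝ] V)) (hg : ∀ ω, Gax e (g ω)) (hm : ∀ x, Measurable fun ω => g ω x)
    (hlaw : ∀ x y : V, ‖x‖ = ‖y‖ → ⟪e, x⟫_ℝ = ⟪e, y⟫_ℝ →
        P.map (fun ω => g ω x) = P.map (fun ω => g ω y))
    (u x : V) (hu : ‖u‖ = 1) (hx : ‖x‖ = 1) (hue : ⟪e, u⟫_ℝ = 0) (hxe : ⟪e, x⟫_ℝ = 0) :
    P.map (fun ω => ⟪u, g ω x⟫_ℝ) ≪ volume := by
  refine Measure.AbsolutelyContinuous.mk fun N hNm hN => ?_
  obtain ⟨hSm, hS0⟩ := Rot.angle_null e u he hd hu hue N hNm hN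
  set S : Set V := {w : V | ⟪u, w⟫_ℝ / ‖prj e w‖ ∈ N} with hS
  have hinner : Measurable fun v : V => ⟪u, v⟫_ℝ := Continuous.measurable (by fun_prop)
  have hmx : Measurable fun ω => ⟪u, g ω x⟫_ℝ := hinner.comp (hm x)
  rw [Measure.map_apply hmx hNm]
  -- joint measurability
  have hjoint : Measurable fun p : V × Ω => g p.2 p.1 := by
    set b := stdOrthonormalBasis ℝ V with hb
    have h1 : (fun p : V × Ω => g p.2 p.1) =
        fun p : V × Ω => ∑ i, ⟪b i, p.1⟫_ℝ • g p.2 (b i) := by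
      funext p
      conv_lhs => rw [← b.sum_repr' p.1]
      rw [map_sum]
      refine Finset.sum_congr rfl fun i _ => ?_
      rw [map_smul]
    rw [h1]
    refine Finset.measurable_sum _ fun i _ => ?_
    refine Measurable.smul ?_ ?_
    · exact (Continuous.measurable (by fun_prop)).comp measurable_fst
    · exact (hm (b i)).comp measurable_snd
  -- evaluation of one fibre
  have hfib : ∀ Z : V, prj e Z ≠ 0 →
      P {ω | g ω Z ∈ S} = P {ω | ⟪u, g ω x⟫_ℝ ∈ N} := by
    intro Z hZ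
    set p := prj e Z with hp
    have hpn : ‖p‖ ≠ 0 := norm_ne_zero_iff.2 hZ
    have hpe : ⟪e, p⟫_ℝ = 0 := by
      rw [hp, prj, he, inner_sub_right, inner_smul_right, real_inner_self_eq_norm_sq, he]
      simp
    have hZp : Z = ⟪e, Z⟫_ℝ • e + p := by
      rw [hp, prj, he]
      simp
    have h2 : ∀ ω, g ω Z ∈ S ↔ ⟪u, g ω (‖p‖⁻¹ • p)⟫_ℝ ∈ N := by
      intro ω
      have h3 : g ω Z = ⟪e, Z⟫_ℝ • e + g ω p := by
        conv_lhs => rw [hZp]
        rw [map_add, map_smul, (hg ω).1]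
      have h4 : ⟪e, g ω p⟫_ℝ = 0 := by
        conv_lhs => rw [← (hg ω).1]
        rw [LinearIsometryEquiv.inner_map_map, hpe]
      have h5 : prj e (g ω Z) = g ω p := by
        rw [h3, prj, he, inner_add_right, inner_smul_right, real_inner_self_eq_norm_sq, he, h4]
        simp
      have h6 : ⟪u, g ω Z⟫_ℝ = ⟪u, g ω p⟫_ℝ := by
        have h0 : ⟪u, e⟫_ℝ = 0 := by rw [real_inner_comm]; exact hue
        rw [h3, inner_add_right, inner_smul_right, h0]
        simp
      change ⟪u, g ω Z⟫_ℝ / ‖prj e (g ω Z)‖ ∈ N ↔ _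
      rw [h5, h6, LinearIsometryEquiv.norm_map, map_smul, inner_smul_right, div_eq_inv_mul]
    have h7 : {ω | g ω Z ∈ S} = {ω | ⟪u, g ω (‖p‖⁻¹ • p)⟫_ℝ ∈ N} := by
      ext ω
      exact h2 ω
    have h8 := hlaw (‖p‖⁻¹ • p) x (by rw [norm_smul, norm_inv, norm_norm, inv_mul_cancel₀ hpn, hx])
      (by rw [inner_smul_right, hpe, mul_zero, hxe])
    have h9 : ∀ y : V, P {ω | ⟪u, g ω y⟫_ℝ ∈ N} =
        (P.map (fun ω => g ω y)) {v | ⟪u, v⟫_ℝ ∈ N} := by
      intro y
      have hset : MeasurableSet {v : V | ⟪u, v⟫_ℝ ∈ N} := hinner hNm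
      rw [Measure.map_apply (hm y) hset]
      rfl
    rw [h7, h9, h8, ← h9]
  -- Fubini
  have hT : MeasurableSet {p : V × Ω | g p.2 p.1 ∈ S} := hjoint hSm
  have h10 : ((volume : Measure V).prod P) {p : V × Ω | g p.2 p.1 ∈ S} = 0 := by
    rw [Measure.prod_apply_symm hT]
    have h11 : ∀ ω, (volume : Measure V) ((fun Z => (Z, ω)) ⁻¹' {p : V × Ω | g p.2 p.1 ∈ S}) = 0 := by
      intro ω
      have h12 : ((fun Z => (Z, ω)) ⁻¹' {p : V × Ω | g p.2 p.1 ∈ S}) = (g ω) ⁻¹' S := rfl
      rw [h12, ((g ω).measurePreserving).measure_preimage hSm.nullMeasurableSet]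
      exact hS0
    rw [lintegral_congr h11]
    simp
  rw [Measure.measure_prod_null hT] at h10
  have h13 : ∀ᵐ Z ∂(volume : Measure V), prj e Z ≠ 0 := by
    have h14 : (volume : Measure V) {w | prj e w = 0} = 0 := by
      have h15 : {w : V | prj e w = 0} ⊆ (Submodule.span ℝ {e} : Submodule ℝ V) := by
        intro w hw
        have h16 : w = (⟪e, w⟫_ℝ / ‖e‖ ^ 2) • e := by
          have : w - (⟪e, w⟫_ℝ / ‖e‖ ^ 2) • e = 0 := hw
          exact sub_eq_zero.1 this
        rw [h16]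
        exact Submodule.smul_mem _ _ (Submodule.mem_span_singleton_self e)
      refine measure_mono_null h15 ?_
      refine Measure.addHaar_submodule volume _ ?_
      intro h
      have he0 : e ≠ 0 := by
        intro h0
        rw [h0, norm_zero] at he
        exact zero_ne_one he
      have h17 := finrank_span_singleton (K := ℝ) he0
      rw [h, finrank_top] at h17
      omega
    rw [ae_iff]
    simpa using h14
  obtain ⟨Z, hZ1, hZ2⟩ := (h10.and h13).exists
  have h18 := hfib Z hZ2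
  change P {ω | ⟪u, g ω x⟫_ℝ ∈ N} = 0
  rw [← h18]
  exact hZ1

end MV
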