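import Pool.Agent.Lib.MP_f30071_gt.Gauss

/-! Sublinear functions and the quotients `Nt`, `Mt`. -/

open MeasureTheory ProbabilityTheory Filter Topology Set
open scoped InnerProductSpace Pointwise NNReal ENNReal

namespace MV

variable {V : Type*} [NormedAddCommGroup V] [InnerProductSpace ℝ V] [FiniteDimensional ℝ V]
  [MeasurableSpace V] [BorelSpace V]

omit [FiniteDimensional ℝ V] [MeasurableSpace V] [BorelSpace V] in
theorem Sublin.zero {g : V → ℝ} (hg : Sublin g) : g 0 = 0 := by
  have h := hg.hom 0 0 le_rfl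
  simpa using h

omit [FiniteDimensional ℝ V] [MeasurableSpace V] [BorelSpace V] in
theorem Sublin.convexOn {g : V → ℝ} (hg : Sublin g) : ConvexOn ℝ univ g := by
  refine ⟨convex_univ, ?_⟩
  intro x _ y _ a b ha hb _
  calc g (a • x + b • y) ≤ g (a • x) + g (b • y) := hg.sub _ _
    _ = a • g x + b • g y := by rw [hg.hom a x ha, hg.hom b y hb]; rfl

omit [MeasurableSpace V] [BorelSpace V] in
theorem Sublin.continuous {g : V → ℝ} (hg : Sublin g) : Continuous g := by
  have h := hg.convexOn.continuousOn isOpen_univ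
  exact continuousOn_univ.mp h

omit [MeasurableSpace V] [BorelSpace V] in
theorem Sublin.lip {g : V → ℝ} (hg : Sublin g) :
    ∃ C : ℝ, 0 ≤ C ∧ (∀ x y, |g x - g y| ≤ C * ‖x - y‖) ∧ (∀ x, |g x| ≤ C * ‖x‖) := by
  obtain ⟨C, hC⟩ := (isCompact_closedBall (0 : V) 1).exists_bound_of_continuousOn
    hg.continuous.continuousOn
  have hC0 : 0 ≤ C := le_trans (norm_nonneg _) (hC 0 (by simp))
  have hb : ∀ x, |g x| ≤ C * ‖x‖ := by
    intro x
    by_cases hx : x = 0
    · subst hx; simp [hg.zero]
    · have hx' : 0 < ‖x‖ := norm_pos_iff.mpr hx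
      have h1 := hC (‖x‖⁻¹ • x) (by
        simp only [Metric.mem_closedBall, dist_zero_right, norm_smul, norm_inv, norm_norm]
        rw [inv_mul_cancel₀ hx'.ne'])
      rw [hg.hom _ _ (by positivity), Real.norm_eq_abs, abs_mul, abs_of_pos (by positivity : (0:ℝ) < ‖x‖⁻¹),
        inv_mul_le_iff₀ hx'] at h1
      linarith
  refine ⟨C, hC0, ?_, hb⟩
  intro x y
  have h1 : g x ≤ g (x - y) + g y := by
    have := hg.sub (x - y) y
    simpa using this
  have h2 : g y ≤ g (y - x) + g x := by
    have := hg.sub (y - x) x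
    simpa using this
  have h3 := (abs_le.mp (hb (x - y))).2
  have h4 := (abs_le.mp (hb (y - x))).2
  rw [norm_sub_rev] at h4
  rw [abs_le]
  constructor <;> linarith

omit [FiniteDimensional ℝ V] [MeasurableSpace V] [BorelSpace V] in
theorem prj_continuous (e : V) : Continuous (prj e) := by
  unfold prj
  fun_prop

omit [FiniteDimensional ℝ V] [MeasurableSpace V] [BorelSpace V] in
theorem prj_neg_left (e x : V) : prj (-e) x = prj e x := by
  simp [prj, neg_div]

omit [FiniteDimensional ℝ V] [MeasurableSpace V] [BorelSpace V] in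
theorem prj_neg (e x : V) : prj e (-x) = - prj e x := by
  simp only [prj, inner_neg_right, neg_div, neg_smul]
  abel

omit [FiniteDimensional ℝ V] [MeasurableSpace V] [BorelSpace V] in
theorem prj_add (e x y : V) : prj e (x + y) = prj e x + prj e y := by
  simp only [prj, inner_add_right, add_div, add_smul]
  abel

omit [FiniteDimensional ℝ V] [MeasurableSpace V] [BorelSpace V] in
theorem prj_smul (e x : V) (c : ℝ) : prj e (c • x) = c • prj e x := by
  simp only [prj, real_inner_smul_right, smul_sub, smul_smul]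
  congr 2
  ring

omit [FiniteDimensional ℝ V] [MeasurableSpace V] [BorelSpace V] in
theorem inner_prj (e x : V) : ⟪e, prj e x⟫_ℝ = 0 := by
  by_cases he : e = 0
  · subst he; simp
  · have : ‖e‖ ^ 2 ≠ 0 := by positivity
    simp only [prj, inner_sub_right, real_inner_smul_right, real_inner_self_eq_norm_sq]
    field_simp
    ring

omit [FiniteDimensional ℝ V] [MeasurableSpace V] [BorelSpace V] in
theorem norm_prj_sq (e x : V) : ‖prj e x‖ ^ 2 + (⟪e, x⟫_ℝ / ‖e‖) ^ 2 = ‖x‖ ^ 2 := by
  by_cases he : e = 0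
  · subst he; simp [prj]
  · have hne : ‖e‖ ≠ 0 := by simpa using he
    have hx : x = prj e x + (⟪e, x⟫_ℝ / ‖e‖ ^ 2) • e := by simp [prj]
    have h1 : ‖x‖ ^ 2 = ‖prj e x‖ ^ 2 + ‖(⟪e, x⟫_ℝ / ‖e‖ ^ 2) • e‖ ^ 2 := by
      conv_lhs => rw [hx]
      rw [norm_add_sq_real, real_inner_smul_right, real_inner_comm e (prj e x), inner_prj]
      ring
    rw [h1, norm_smul, mul_pow, Real.norm_eq_abs, sq_abs]
    field_simp

omit [FiniteDimensional ℝ V] [MeasurableSpace V] [BorelSpace V] in
theorem norm_prj_le (e x : V) : ‖prj e x‖ ≤ ‖x‖ := by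
  have h := norm_prj_sq e x
  have h1 : ‖prj e x‖ ^ 2 ≤ ‖x‖ ^ 2 := by
    have := sq_nonneg (⟪e, x⟫_ℝ / ‖e‖)
    linarith
  exact (sq_le_sq₀ (norm_nonneg _) (norm_nonneg _)).mp h1

omit [FiniteDimensional ℝ V] [MeasurableSpace V] [BorelSpace V] in
/-- `prj e` of a vector orthogonal to `e` -/
theorem prj_of_inner_zero (e x : V) (h : ⟪e, x⟫_ℝ = 0) : prj e x = x := by
  simp [prj, h]

omit [FiniteDimensional ℝ V] [MeasurableSpace V] [BorelSpace V] in
theorem prj_isom (R : V ≃ₗᵢ[ℝ] V) (u z : V) : prj (R u) z = R (prj u (R.symm z)) := by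
  simp only [prj, map_sub, map_smul, LinearIsometryEquiv.apply_symm_apply, LinearIsometryEquiv.norm_map]
  have : ⟪R u, z⟫_ℝ = ⟪u, R.symm z⟫_ℝ := by
    conv_lhs => rw [← R.apply_symm_apply z]
    rw [R.inner_map_map]
  rw [this]

theorem integrable_norm_gauss : Integrable (fun x : V => ‖x‖) (stdGaussian V) := by
  have h : Integrable (id : V → V) (stdGaussian V) := IsGaussian.integrable_id
  exact h.norm

/-- continuous with linear growth composed with a map of linear growth -/
theorem integrable_lin {f : V → ℝ} (hf : Continuous f) (A B : ℝ) (h : ∀ x, |f x| ≤ A + B * ‖x‖) :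
    Integrable f (stdGaussian V) := by
  refine Integrable.mono' ((integrable_const A).add (integrable_norm_gauss.const_mul B))
    hf.aestronglyMeasurable (Eventually.of_forall ?_)
  intro x
  exact h x

theorem Sublin.integrable {g : V → ℝ} (hg : Sublin g) : Integrable g (stdGaussian V) := by
  obtain ⟨C, hC0, -, hC⟩ := hg.lip
  refine integrable_lin hg.continuous 0 C ?_
  intro x
  simpa using hC x

theorem integral_gauss_isom (R : V ≃ₗᵢ[ℝ] V) (f : V → ℝ) :
    ∫ z, f (R z) ∂(stdGaussian V) = ∫ z, f z ∂(stdGaussian V) := by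
  have h : (stdGaussian V).map R = stdGaussian V := stdGaussian_map R
  conv_rhs => rw [← h]
  exact ((R.toHomeomorph.measurableEmbedding).integral_map (μ := stdGaussian V) f).symm

theorem integral_gauss_neg (f : V → ℝ) :
    ∫ z, f (-z) ∂(stdGaussian V) = ∫ z, f z ∂(stdGaussian V) :=
  integral_gauss_isom (LinearIsometryEquiv.neg ℝ) f

/-- growth bound of the integrand of `Nt` -/
theorem Nt_integrable {g : V → ℝ} (hg : Continuous g) {C : ℝ} (hC : ∀ x, |g x| ≤ C * (1 + ‖x‖))
    (t : ℝ) (u : V) :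
    Integrable (fun z => g (prj u z + t • u) + g (prj u z - t • u) - 2 * g (prj u z))
      (stdGaussian V) := by
  have hc := prj_continuous u
  have hC0 : 0 ≤ C := by
    have := (abs_nonneg _).trans (hC 0)
    simpa using this
  have key : ∀ y : V, Integrable (fun z => g (prj u z + y)) (stdGaussian V) := by
    intro y
    refine integrable_lin (hg.comp (hc.add continuous_const)) (C * (1 + ‖y‖)) C ?_
    intro x
    refine (hC _).trans ?_
    have h1 : ‖prj u x + y‖ ≤ ‖x‖ + ‖y‖ := (norm_add_le _ _).trans (by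
      have := norm_prj_le u x
      linarith)
    nlinarith
  have h1 := key (t • u)
  have h2 := key (-(t • u))
  have h3 := key 0
  simp only [← sub_eq_add_neg] at h2
  simp only [add_zero] at h3
  exact (h1.add h2).sub (h3.const_mul 2)

theorem Mt_integrable {g : V → ℝ} (hg : Continuous g) {C : ℝ} (hC : ∀ x, |g x| ≤ C * (1 + ‖x‖))
    (t : ℝ) (e : V) :
    Integrable (fun z => g (e + t • prj e z) - g e) (stdGaussian V) := by
  have hc := prj_continuous e
  have hC0 : 0 ≤ C := by
    have := (abs_nonneg _).trans (hC 0)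
    simpa using this
  refine Integrable.sub ?_ (integrable_const _)
  refine integrable_lin (hg.comp (continuous_const.add (hc.const_smul t))) (C * (1 + ‖e‖))
    (C * |t|) ?_
  intro x
  refine (hC _).trans ?_
  have h1 : ‖e + t • prj e x‖ ≤ ‖e‖ + |t| * ‖x‖ := (norm_add_le _ _).trans (by
    rw [norm_smul, Real.norm_eq_abs]
    have := norm_prj_le e x
    have := mul_le_mul_of_nonneg_left this (abs_nonneg t)
    linarith)
  nlinarith

omit [MeasurableSpace V] [BorelSpace V] in
theorem Sublin.growth {g : V → ℝ} (hg : Sublin g) :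
    ∃ C : ℝ, 0 ≤ C ∧ ∀ x, |g x| ≤ C * (1 + ‖x‖) := by
  obtain ⟨C, hC0, -, hC⟩ := hg.lip
  exact ⟨C, hC0, fun x => (hC x).trans (by nlinarith [norm_nonneg x])⟩

omit [FiniteDimensional ℝ V] [MeasurableSpace V] [BorelSpace V] in
/-- second differences are nonnegative -/
theorem Sublin.second_nonneg {g : V → ℝ} (hg : Sublin g) (p y : V) :
    0 ≤ g (p + y) + g (p - y) - 2 * g p := by
  have h := hg.sub (p + y) (p - y)
  have h2 : p + y + (p - y) = (2 : ℝ) • p := by rw [two_smul]; abel
  rw [h2, hg.hom 2 p (by norm_num)] at h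
  linarith

omit [FiniteDimensional ℝ V] [MeasurableSpace V] [BorelSpace V] in
/-- slopes are monotone -/
theorem Sublin.slope {g : V → ℝ} (hg : Sublin g) (p y : V) {s t : ℝ} (hs : 0 ≤ s) (hst : s ≤ t) :
    t * (g (p + s • y) - g p) ≤ s * (g (p + t • y) - g p) := by
  have h := hg.sub ((t - s) • p) (s • (p + t • y))
  have e : (t - s) • p + s • (p + t • y) = t • (p + s • y) := by
    simp only [smul_add, sub_smul, smul_smul, mul_comm s t]
    abel
  rw [e, hg.hom _ _ (by linarith), hg.hom _ _ (by linarith), hg.hom _ _ hs] at h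
  linarith

theorem Nt_nonneg {g : V → ℝ} (hg : Sublin g) (u : V) {t : ℝ} (ht : 0 < t) : 0 ≤ Nt t u g := by
  unfold Nt
  refine mul_nonneg (by positivity) (integral_nonneg ?_)
  intro z
  exact hg.second_nonneg _ _

theorem Nt_mono {g : V → ℝ} (hg : Sublin g) (u : V) {s t : ℝ} (hs : 0 < s) (hst : s ≤ t) :
    Nt s u g ≤ Nt t u g := by
  obtain ⟨C, -, hC⟩ := hg.growth
  have ht : 0 < t := lt_of_lt_of_le hs hst
  unfold Nt
  rw [← integral_const_mul, ← integral_const_mul]
  refine integral_mono ((Nt_integrable hg.continuous hC s u).const_mul _)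
    ((Nt_integrable hg.continuous hC t u).const_mul _) ?_
  intro z
  have h1 := hg.slope (prj u z) u hs.le hst
  have h2 := hg.slope (prj u z) (-u) hs.le hst
  simp only [smul_neg, ← sub_eq_add_neg] at h2
  simp only
  rw [one_div, one_div, inv_mul_le_iff₀ hs, ← mul_assoc, mul_comm s t⁻¹, mul_assoc,
    ← div_eq_inv_mul, le_div_iff₀ ht]
  nlinarith

theorem Nt_tendsto {g : V → ℝ} (hg : Sublin g) (u : V) :
    Tendsto (fun t => Nt t u g) (𝓝[>] (0 : ℝ)) (𝓝 (N0 u g)) := by
  have h : Tendsto (fun t => Nt t u g) (𝓝[>] (0 : ℝ)) (𝓝 (sInf ((fun t => Nt t u g) '' Ioi 0))) := by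
    apply MonotoneOn.tendsto_nhdsGT
    · intro s hs t _ hst
      exact Nt_mono hg u hs hst
    · refine ⟨0, ?_⟩
      rintro _ ⟨t, ht, rfl⟩
      exact Nt_nonneg hg u ht
  unfold N0
  rw [h.limUnder_eq]
  exact h

theorem N0_nonneg {g : V → ℝ} (hg : Sublin g) (u : V) : 0 ≤ N0 u g := by
  refine ge_of_tendsto (Nt_tendsto hg u) ?_
  filter_upwards [self_mem_nhdsWithin] with t ht
  exact Nt_nonneg hg u ht

theorem N0_le_Nt {g : V → ℝ} (hg : Sublin g) (u : V) {t : ℝ} (ht : 0 < t) :
    N0 u g ≤ Nt t u g := by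
  refine le_of_tendsto (Nt_tendsto hg u) ?_
  filter_upwards [Ioc_mem_nhdsGT ht] with s hs
  exact Nt_mono hg u hs.1 hs.2

/-- linearity of `Nt` in `g`, on functions with linear growth -/
theorem Nt_sum {ι : Type*} (s : Finset ι) (c : ι → ℝ) (g : ι → V → ℝ)
    (hg : ∀ i ∈ s, Continuous (g i)) (C : ℝ) (hC : ∀ i ∈ s, ∀ x, |g i x| ≤ C * (1 + ‖x‖))
    (t : ℝ) (u : V) :
    Nt t u (fun v => ∑ i ∈ s, c i * g i v) = ∑ i ∈ s, c i * Nt t u (g i) := by
  unfold Nt
  have h : ∀ z, (∑ i ∈ s, c i * g i (prj u z + t • u)) + (∑ i ∈ s, c i * g i (prj u z - t • u))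
      - 2 * (∑ i ∈ s, c i * g i (prj u z))
      = ∑ i ∈ s, c i * (g i (prj u z + t • u) + g i (prj u z - t • u) - 2 * g i (prj u z)) := by
    intro z
    rw [Finset.mul_sum, ← Finset.sum_add_distrib, ← Finset.sum_sub_distrib]
    refine Finset.sum_congr rfl fun i _ => ?_
    ring
  simp only [h]
  rw [integral_finsetSum _ (fun i hi => (Nt_integrable (hg i hi) (hC i hi) t u).const_mul _),
    Finset.mul_sum]
  refine Finset.sum_congr rfl fun i _ => ?_
  rw [integral_const_mul]
  ring

theorem Mt_sum {ι : Type*} (s : Finset ι) (c : ι → ℝ) (g : ι → V → ℝ)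
    (hg : ∀ i ∈ s, Continuous (g i)) (C : ℝ) (hC : ∀ i ∈ s, ∀ x, |g i x| ≤ C * (1 + ‖x‖))
    (t : ℝ) (u : V) :
    Mt t u (fun v => ∑ i ∈ s, c i * g i v) = ∑ i ∈ s, c i * Mt t u (g i) := by
  unfold Mt
  have h : ∀ z, (∑ i ∈ s, c i * g i (u + t • prj u z)) - (∑ i ∈ s, c i * g i u)
      = ∑ i ∈ s, c i * (g i (u + t • prj u z) - g i u) := by
    intro z
    rw [← Finset.sum_sub_distrib]
    refine Finset.sum_congr rfl fun i _ => ?_
    ring
  simp only [h]
  rw [integral_finsetSum _ (fun i hi => (Mt_integrable (hg i hi) (hC i hi) t u).const_mul _),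
    Finset.mul_sum]
  refine Finset.sum_congr rfl fun i _ => ?_
  rw [integral_const_mul]
  ring

/-- equivariance -/
theorem Nt_isom (R : V ≃ₗᵢ[ℝ] V) (t : ℝ) (u : V) (g : V → ℝ) :
    Nt t (R u) (fun v => g (R.symm v)) = Nt t u g := by
  unfold Nt
  rw [← integral_gauss_isom R.symm (fun z => g (prj u z + t • u) + g (prj u z - t • u)
    - 2 * g (prj u z))]
  simp only [prj_isom, map_add, map_sub, map_smul, LinearIsometryEquiv.symm_apply_apply]

theorem Mt_isom (R : V ≃ₗᵢ[ℝ] V) (t : ℝ) (u : V) (g : V → ℝ) :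
    Mt t (R u) (fun v => g (R.symm v)) = Mt t u g := by
  unfold Mt
  rw [← integral_gauss_isom R.symm (fun z => g (u + t • prj u z) - g u)]
  simp only [prj_isom, map_add, map_smul, LinearIsometryEquiv.symm_apply_apply]

theorem Nt_neg (t : ℝ) (u : V) (g : V → ℝ) : Nt t (-u) g = Nt t u g := by
  unfold Nt
  simp only [prj_neg_left, smul_neg, sub_neg_eq_add, ← sub_eq_add_neg]
  congr 2
  ext z
  ring

theorem Nt_inner (t : ℝ) (u p : V) : Nt t u (fun v => ⟪p, v⟫_ℝ) = 0 := by
  unfold Nt
  have : ∀ z, ⟪p, prj u z + t • u⟫_ℝ + ⟪p, prj u z - t • u⟫_ℝ - 2 * ⟪p, prj u z⟫_ℝ = 0 := by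
    intro z
    rw [inner_add_right, inner_sub_right]
    ring
  simp [this]

theorem integral_odd {f : V → ℝ} (hf : ∀ z, f (-z) = - f z) :
    ∫ z, f z ∂(stdGaussian V) = 0 := by
  have h := integral_gauss_neg f
  simp only [hf, integral_neg] at h
  linarith

theorem Mt_inner (t : ℝ) (u p : V) : Mt t u (fun v => ⟪p, v⟫_ℝ) = 0 := by
  unfold Mt
  rw [integral_odd, mul_zero]
  intro z
  simp only [inner_add_right, add_sub_cancel_left, prj_neg, smul_neg, inner_neg_right]

/-- the unit segment in direction `u` -/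
theorem Nt_unit (u : V) (hu : ‖u‖ = 1) {t : ℝ} (ht : 0 < t) :
    Nt t u (fun v => max 0 ⟪v, u⟫_ℝ) = 1 := by
  unfold Nt
  have : ∀ z, max 0 ⟪prj u z + t • u, u⟫_ℝ + max 0 ⟪prj u z - t • u, u⟫_ℝ
      - 2 * max 0 ⟪prj u z, u⟫_ℝ = t := by
    intro z
    have h0 : ⟪prj u z, u⟫_ℝ = 0 := by rw [real_inner_comm]; exact inner_prj u z
    have h1 : ⟪u, u⟫_ℝ = 1 := by rw [real_inner_self_eq_norm_sq, hu]; norm_num
    rw [inner_add_left, inner_sub_left, h0, real_inner_smul_left, h1]
    simp [ht.le]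
  simp only [this]
  simp only [integral_const, probReal_univ, one_smul]
  field_simp

theorem Mt_nonneg {g : V → ℝ} (hg : Sublin g) (e : V) {t : ℝ} (ht : 0 < t) : 0 ≤ Mt t e g := by
  obtain ⟨C, -, hC⟩ := hg.growth
  unfold Mt
  refine mul_nonneg (by positivity) ?_
  have h := integral_gauss_neg (fun z => g (e + t • prj e z) - g e)
  have h2 : 0 ≤ ∫ z, ((g (e + t • prj e z) - g e) + (g (e + t • prj e (-z)) - g e))
      ∂(stdGaussian V) := by
    refine integral_nonneg ?_
    intro z
    have := hg.second_nonneg e (t • prj e z)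
    simp only [prj_neg, smul_neg, ← sub_eq_add_neg, Pi.zero_apply]
    linarith
  have hi := Mt_integrable hg.continuous hC t e
  have hi2 : Integrable (fun z => g (e + t • prj e (-z)) - g e) (stdGaussian V) := by
    have hm : MeasurePreserving (fun z : V => -z) (stdGaussian V) (stdGaussian V) :=
      ⟨measurable_neg, stdGaussian_map (LinearIsometryEquiv.neg ℝ)⟩
    exact hm.integrable_comp_of_integrable hi
  rw [integral_add hi hi2, h] at h2
  linarith

theorem Mt_mono {g : V → ℝ} (hg : Sublin g) (e : V) {s t : ℝ} (hs : 0 < s) (hst : s ≤ t) :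
    Mt s e g ≤ Mt t e g := by
  obtain ⟨C, -, hC⟩ := hg.growth
  have ht : 0 < t := lt_of_lt_of_le hs hst
  unfold Mt
  rw [← integral_const_mul, ← integral_const_mul]
  refine integral_mono ((Mt_integrable hg.continuous hC s e).const_mul _)
    ((Mt_integrable hg.continuous hC t e).const_mul _) ?_
  intro z
  have h1 := hg.slope e (prj e z) hs.le hst
  simp only
  rw [one_div, one_div, inv_mul_le_iff₀ hs, ← mul_assoc, mul_comm s t⁻¹, mul_assoc,
    ← div_eq_inv_mul, le_div_iff₀ ht]
  nlinarith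

/-- bound of `Mt` uniform in `t ≤ 1`, measurability in `e` -/
theorem Mt_bound {g : V → ℝ} (_hg : Sublin g) (C : ℝ) (hC : ∀ x y, |g x - g y| ≤ C * ‖x - y‖)
    (e : V) {t : ℝ} (ht : 0 < t) : |Mt t e g| ≤ C * ∫ z, ‖z‖ ∂(stdGaussian V) := by
  unfold Mt
  rw [abs_mul, abs_of_pos (by positivity : 0 < 1 / t), one_div, inv_mul_le_iff₀ ht]
  have hb : ∀ z, ‖g (e + t • prj e z) - g e‖ ≤ (t * C) * ‖z‖ := by
    intro z
    have hC0 : 0 ≤ C * ‖z‖ := (abs_nonneg _).trans ((hC z 0).trans (by simp))
    rw [Real.norm_eq_abs]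
    refine (hC _ _).trans ?_
    rw [add_sub_cancel_left, norm_smul, Real.norm_eq_abs, abs_of_pos ht]
    by_cases hz : z = 0
    · subst hz; simp [prj]
    · have hC1 : 0 ≤ C := by
        have : 0 < ‖z‖ := norm_pos_iff.mpr hz
        by_contra hneg
        push Not at hneg
        nlinarith
      have := norm_prj_le e z
      nlinarith [mul_nonneg hC1 ht.le]
  have h := norm_integral_le_of_norm_le (μ := stdGaussian V)
    ((integrable_norm_gauss).const_mul (t * C)) (Eventually.of_forall hb)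
  rw [integral_const_mul] at h
  rw [Real.norm_eq_abs] at h
  linarith

theorem Nt_bound {g : V → ℝ} (_hg : Sublin g) (C : ℝ) (hC : ∀ x y, |g x - g y| ≤ C * ‖x - y‖)
    (u : V) {t : ℝ} (ht : 0 < t) : |Nt t u g| ≤ 2 * C * ‖u‖ := by
  unfold Nt
  rw [abs_mul, abs_of_pos (by positivity : 0 < 1 / t), one_div, inv_mul_le_iff₀ ht]
  have hb : ∀ z, ‖g (prj u z + t • u) + g (prj u z - t • u) - 2 * g (prj u z)‖
      ≤ t * (2 * C * ‖u‖) := by
    intro z
    have h1 := hC (prj u z + t • u) (prj u z)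
    have h2 := hC (prj u z - t • u) (prj u z)
    rw [add_sub_cancel_left, norm_smul, Real.norm_eq_abs, abs_of_pos ht] at h1
    rw [sub_sub_cancel_left, norm_neg, norm_smul, Real.norm_eq_abs, abs_of_pos ht] at h2
    rw [Real.norm_eq_abs]
    have e1 : g (prj u z + t • u) + g (prj u z - t • u) - 2 * g (prj u z)
        = (g (prj u z + t • u) - g (prj u z)) + (g (prj u z - t • u) - g (prj u z)) := by ring
    rw [e1]
    refine (abs_add_le _ _).trans ?_
    linarith
  have h := norm_integral_le_of_norm_le (μ := stdGaussian V)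
    (integrable_const _) (Eventually.of_forall hb)
  rw [integral_const, probReal_univ, one_smul, Real.norm_eq_abs] at h
  exact h

omit [FiniteDimensional ℝ V] [MeasurableSpace V] [BorelSpace V] in
theorem prj_measurable2 [MeasurableSpace V] [BorelSpace V] [SecondCountableTopology V] :
    Measurable (fun p : V × V => prj p.1 p.2) := by
  unfold prj
  fun_prop

theorem Mt_measurable {g : V → ℝ} (hg : Sublin g) (t : ℝ) : Measurable fun e => Mt t e g := by
  unfold Mt
  have h1 : Measurable (fun p : V × V => g (p.1 + t • prj p.1 p.2) - g p.1) := by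
    have := prj_measurable2 (V := V)
    have hgm := hg.continuous.measurable
    exact (hgm.comp (measurable_fst.add (this.const_smul t))).sub (hgm.comp measurable_fst)
  have h2 : StronglyMeasurable (fun e : V => ∫ z, (g (e + t • prj e z) - g e) ∂(stdGaussian V)) :=
    h1.stronglyMeasurable.integral_prod_right'
  exact h2.measurable.const_mul _

theorem Mt_tendsto_zero {g : V → ℝ} (hg : Sublin g) (e : V) (hd : DifferentiableAt ℝ g e) :
    Tendsto (fun t => Mt t e g) (𝓝[>] (0 : ℝ)) (𝓝 0) := by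
  obtain ⟨C, hC0, hC, -⟩ := hg.lip
  have h0 : ∫ z, (fderiv ℝ g e) (prj e z) ∂(stdGaussian V) = 0 := by
    apply integral_odd
    intro z
    rw [prj_neg, map_neg]
  have goal : Tendsto (fun t => Mt t e g) (𝓝[>] (0 : ℝ))
    (𝓝 (∫ z, (fderiv ℝ g e) (prj e z) ∂(stdGaussian V))) := ?_
  · rwa [h0] at goal
  have hF : ∀ t : ℝ, Mt t e g = ∫ z, (1 / t) * (g (e + t • prj e z) - g e) ∂(stdGaussian V) := by
    intro t
    rw [integral_const_mul]
    rfl
  simp only [hF]
  refine tendsto_integral_filter_of_dominated_convergence (fun z => C * ‖z‖) ?_ ?_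
    (integrable_norm_gauss.const_mul C) ?_
  · refine Eventually.of_forall fun t => ?_
    exact ((hg.continuous.comp (continuous_const.add ((prj_continuous e).const_smul t))).sub
      continuous_const).const_mul _ |>.aestronglyMeasurable
  · filter_upwards [self_mem_nhdsWithin] with t ht
    have ht' : 0 < t := ht
    refine Eventually.of_forall fun z => ?_
    rw [Real.norm_eq_abs, abs_mul, abs_of_pos (by positivity : 0 < 1 / t), one_div,
      inv_mul_le_iff₀ ht']
    refine (hC _ _).trans ?_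
    rw [add_sub_cancel_left, norm_smul, Real.norm_eq_abs, abs_of_pos ht']
    have := norm_prj_le e z
    nlinarith [mul_nonneg hC0 ht'.le]
  · refine Eventually.of_forall fun z => ?_
    have h := hd.hasFDerivAt.hasLineDerivAt (prj e z)
    have h2 := h.tendsto_slope_zero_right
    simpa [smul_eq_mul, one_div] using h2

omit [FiniteDimensional ℝ V] [MeasurableSpace V] [BorelSpace V] in
theorem exists_unit_perp [FiniteDimensional ℝ V] (u : V) (hd : 2 ≤ Module.finrank ℝ V) :
    ∃ w : V, ‖w‖ = 1 ∧ ⟪u, w⟫_ℝ = 0 := by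
  have h : (ℝ ∙ u)ᗮ ≠ ⊥ := by
    intro hbot
    have h1 := Submodule.finrank_add_finrank_orthogonal (ℝ ∙ u)
    rw [hbot, finrank_bot] at h1
    have h2 : Module.finrank ℝ (ℝ ∙ u) ≤ 1 := by
      have := finrank_span_le_card (R := ℝ) ({u} : Set V)
      simpa using this
    omega
  obtain ⟨w, hw, hw0⟩ := Submodule.exists_mem_ne_zero_of_ne_bot h
  refine ⟨‖w‖⁻¹ • w, ?_, ?_⟩
  · rw [norm_smul, norm_inv, norm_norm, inv_mul_cancel₀ (norm_ne_zero_iff.mpr hw0)]
  · rw [real_inner_smul_right, Submodule.mem_orthogonal_singleton_iff_inner_right.mp hw, mul_zero]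

theorem map_inner_gauss (w : V) (hw : ‖w‖ = 1) :
    (stdGaussian V).map (fun x => ⟪w, x⟫_ℝ) = gaussianReal 0 1 := by
  have h := IsGaussian.map_eq_gaussianReal (μ := stdGaussian V) (innerSL ℝ w)
  rw [variance_dual_stdGaussian, integral_strongDual_stdGaussian, innerSL_apply_norm, hw] at h
  simpa using h

/-- hyperplanes are null -/
theorem gauss_hyperplane (w : V) (hw : ‖w‖ = 1) : ∀ᵐ z ∂(stdGaussian V), ⟪w, z⟫_ℝ ≠ 0 := by
  have h := map_inner_gauss w hw
  have hm : Measurable (fun x : V => ⟪w, x⟫_ℝ) := by fun_prop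
  have h1 : ∀ᵐ s ∂((stdGaussian V).map (fun x => ⟪w, x⟫_ℝ)), s ≠ 0 := by
    rw [h]
    have := nullSingletonClass_gaussianReal (μ := 0) (v := 1) one_ne_zero
    rw [ae_iff]
    simp only [ne_eq, not_not, Set.ofPred_eq_eq_singleton]
    exact measure_singleton 0
  exact ae_of_ae_map hm.aemeasurable h1

/-- the Euclidean norm has no creases -/
theorem Nt_norm_tendsto (u : V) (hd : 2 ≤ Module.finrank ℝ V) :
    Tendsto (fun t => Nt t u (fun v => ‖v‖)) (𝓝[>] (0 : ℝ)) (𝓝 0) := by
  have goal : Tendsto (fun t => Nt t u (fun v : V => ‖v‖)) (𝓝[>] (0 : ℝ))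
    (𝓝 (∫ _z, (0 : ℝ) ∂(stdGaussian V))) := ?_
  · simpa using goal
  have hF : ∀ t : ℝ, Nt t u (fun v : V => ‖v‖)
      = ∫ z, (1 / t) * (‖prj u z + t • u‖ + ‖prj u z - t • u‖ - 2 * ‖prj u z‖)
        ∂(stdGaussian V) := by
    intro t
    rw [integral_const_mul]
    rfl
  simp only [hF]
  refine tendsto_integral_filter_of_dominated_convergence (fun _ => 2 * ‖u‖) ?_ ?_
    (integrable_const _) ?_
  · refine Eventually.of_forall fun t => ?_
    have := prj_continuous u
    exact (Continuous.aestronglyMeasurable (by fun_prop))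
  · filter_upwards [self_mem_nhdsWithin] with t ht
    have ht' : 0 < t := ht
    refine Eventually.of_forall fun z => ?_
    rw [Real.norm_eq_abs, abs_mul, abs_of_pos (by positivity : 0 < 1 / t), one_div,
      inv_mul_le_iff₀ ht']
    have h1 := abs_norm_sub_norm_le (prj u z + t • u) (prj u z)
    have h2 := abs_norm_sub_norm_le (prj u z - t • u) (prj u z)
    rw [add_sub_cancel_left, norm_smul, Real.norm_eq_abs, abs_of_pos ht'] at h1
    rw [sub_sub_cancel_left, norm_neg, norm_smul, Real.norm_eq_abs, abs_of_pos ht'] at h2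
    rw [abs_le] at *
    constructor <;> linarith [h1.1, h1.2, h2.1, h2.2]
  · obtain ⟨w, hw1, hw⟩ := exists_unit_perp u hd
    filter_upwards [gauss_hyperplane w hw1] with z hz
    have hp : prj u z ≠ 0 := by
      intro h0
      apply hz
      have : z = (⟪u, z⟫_ℝ / ‖u‖ ^ 2) • u := by
        unfold prj at h0
        exact sub_eq_zero.mp h0
      rw [this, real_inner_smul_right, real_inner_comm u w, hw, mul_zero]
    have hp' : 0 < ‖prj u z‖ := norm_pos_iff.mpr hp
    have hn1 : ∀ t : ℝ, ‖prj u z + t • u‖ = Real.sqrt (‖prj u z‖ ^ 2 + t ^ 2 * ‖u‖ ^ 2) := by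
      intro t
      rw [← Real.sqrt_sq (norm_nonneg (prj u z + t • u)), norm_add_sq_real,
        real_inner_smul_right, real_inner_comm u (prj u z), inner_prj, norm_smul, mul_pow, Real.norm_eq_abs,
        sq_abs]
      congr 1
      ring
    have hn2 : ∀ t : ℝ, ‖prj u z - t • u‖ = Real.sqrt (‖prj u z‖ ^ 2 + t ^ 2 * ‖u‖ ^ 2) := by
      intro t
      have := hn1 (-t)
      rw [neg_smul, ← sub_eq_add_neg] at this
      rw [this]
      congr 1
      ring
    -- squeeze
    have hub : ∀ t : ℝ, 0 < t →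
        (1 / t) * (‖prj u z + t • u‖ + ‖prj u z - t • u‖ - 2 * ‖prj u z‖)
          ≤ t * (‖u‖ ^ 2 / ‖prj u z‖) := by
      intro t ht
      rw [hn1, hn2]
      have hs : Real.sqrt (‖prj u z‖ ^ 2 + t ^ 2 * ‖u‖ ^ 2)
          ≤ ‖prj u z‖ + t ^ 2 * ‖u‖ ^ 2 / (2 * ‖prj u z‖) := by
        apply Real.sqrt_le_iff.mpr
        refine ⟨by positivity, ?_⟩
        have e1 : (‖prj u z‖ + t ^ 2 * ‖u‖ ^ 2 / (2 * ‖prj u z‖)) ^ 2
            = ‖prj u z‖ ^ 2 + t ^ 2 * ‖u‖ ^ 2 + (t ^ 2 * ‖u‖ ^ 2 / (2 * ‖prj u z‖)) ^ 2 := by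
          field_simp
          ring
        rw [e1]
        have := sq_nonneg (t ^ 2 * ‖u‖ ^ 2 / (2 * ‖prj u z‖))
        linarith
      rw [one_div, inv_mul_le_iff₀ ht]
      have e2 : t * (t * (‖u‖ ^ 2 / ‖prj u z‖)) = 2 * (t ^ 2 * ‖u‖ ^ 2 / (2 * ‖prj u z‖)) := by
        field_simp
      rw [e2]
      linarith
    have hlb : ∀ t : ℝ, 0 < t →
        0 ≤ (1 / t) * (‖prj u z + t • u‖ + ‖prj u z - t • u‖ - 2 * ‖prj u z‖) := by
      intro t ht
      refine mul_nonneg (by positivity) ?_
      have h1 := norm_add_le (prj u z + t • u) (prj u z - t • u)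
      have h2 : prj u z + t • u + (prj u z - t • u) = (2 : ℝ) • prj u z := by
        rw [two_smul]; abel
      rw [h2, norm_smul, Real.norm_eq_abs, abs_of_pos (by norm_num : (0:ℝ) < 2)] at h1
      linarith
    have hlim : Tendsto (fun t : ℝ => t * (‖u‖ ^ 2 / ‖prj u z‖)) (𝓝[>] 0) (𝓝 0) := by
      have : Tendsto (fun t : ℝ => t * (‖u‖ ^ 2 / ‖prj u z‖)) (𝓝 0)
          (𝓝 (0 * (‖u‖ ^ 2 / ‖prj u z‖))) := tendsto_id.mul_const _
      rw [zero_mul] at this
      exact this.mono_left nhdsWithin_le_nhds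
    refine tendsto_of_tendsto_of_tendsto_of_le_of_le' tendsto_const_nhds hlim ?_ ?_
    · filter_upwards [self_mem_nhdsWithin] with t ht using hlb t ht
    · filter_upwards [self_mem_nhdsWithin] with t ht using hub t ht

theorem Sublin.ae_diff {g : V → ℝ} (hg : Sublin g) :
    ∀ᵐ e ∂(stdGaussian V), DifferentiableAt ℝ g e := by
  obtain ⟨C, hC0, hC, -⟩ := hg.lip
  have hL : LipschitzWith ⟨C, hC0⟩ g := by
    refine LipschitzWith.of_dist_le_mul fun x y => ?_
    rw [Real.dist_eq, dist_eq_norm]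
    exact hC x y
  have h := hL.ae_differentiableAt (μ := (volume : Measure V))
  rw [ae_iff] at h ⊢
  exact (gauss_null_iff _).mpr h

/-- Gaussian domination. -/
theorem Nt_le_Mt : ∃ C : ℝ, 0 < C ∧ ∀ (g : V → ℝ), Sublin g → ∀ (u : V), ‖u‖ = 1 →
    ∀ t : ℝ, 0 < t → Nt t u g ≤ C * ∫ z, Mt t (prj u z) g ∂(stdGaussian V) := by
  have hint : Integrable (fun s : ℝ => max (|s| - 1) 0) (gaussianReal 0 1) := by
    have h : Integrable (id : ℝ → ℝ) (gaussianReal 0 1) := IsGaussian.integrable_id
    have h2 := (h.norm.sub (integrable_const 1)).sup (integrable_const 0)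
    exact h2
  have hpos : 0 < ∫ s, max (|s| - 1) 0 ∂(gaussianReal 0 1) := by
    have hnn : ∀ s : ℝ, 0 ≤ max (|s| - 1) 0 := fun s => le_max_right _ _
    rw [integral_pos_iff_support_of_nonneg (f := fun s : ℝ => max (|s| - 1) 0) hnn hint]
    have hsub : Ioi (1 : ℝ) ⊆ Function.support (fun s : ℝ => max (|s| - 1) 0) := by
      intro s hs
      have : 0 < max (|s| - 1) 0 := by
        apply lt_max_of_lt_left
        rw [mem_Ioi] at hs
        rw [abs_of_pos (by linarith)]
        linarith
      exact this.ne'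
    refine lt_of_lt_of_le ?_ (measure_mono hsub)
    rw [pos_iff_ne_zero]
    intro h0
    have := gaussianReal_absolutelyContinuous' 0 (one_ne_zero (α := ℝ≥0)) h0
    simp at this
  set c := ∫ s, max (|s| - 1) 0 ∂(gaussianReal 0 1) with hc
  refine ⟨2 / c, by positivity, ?_⟩
  intro g hg u hu t ht
  obtain ⟨K, hK0, hK, -⟩ := hg.lip
  obtain ⟨G, -, hG⟩ := hg.growth
  -- pointwise inequality for each direction
  have huu : ⟪u, u⟫_ℝ = 1 := by rw [real_inner_self_eq_norm_sq, hu]; norm_num
  have key : ∀ e : V, ⟪u, e⟫_ℝ = 0 →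
      (c / 2) * ((1 / t) * (g (e + t • u) + g (e - t • u) - 2 * g e)) ≤ Mt t e g := by
    intro e he
    have hi := Mt_integrable hg.continuous hG t e
    -- reflection isometry
    set R : V ≃ₗᵢ[ℝ] V := (ℝ ∙ u).reflection with hR
    have hRx : ∀ x : V, R x = 2 • (⟪u, x⟫_ℝ • u) - x := by
      intro x
      rw [hR, Submodule.reflection_singleton_apply]
      simp [hu]
    have hsplit : ∀ x : V, prj e x = ⟪u, x⟫_ℝ • u + prj e (x - ⟪u, x⟫_ℝ • u) := by
      intro x
      have h1 : prj e (⟪u, x⟫_ℝ • u) = ⟪u, x⟫_ℝ • u := by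
        apply prj_of_inner_zero
        rw [real_inner_smul_right, real_inner_comm u e, he, mul_zero]
      conv_lhs => rw [← add_sub_cancel (⟪u, x⟫_ℝ • u) x, prj_add, h1]
    have hsplit2 : ∀ x : V, prj e (R x) = ⟪u, x⟫_ℝ • u - prj e (x - ⟪u, x⟫_ℝ • u) := by
      intro x
      have e1 : ⟪u, R x⟫_ℝ = ⟪u, x⟫_ℝ := by
        rw [hRx, inner_sub_right, two_smul, inner_add_right, real_inner_smul_right, huu]
        ring
      rw [hsplit (R x), e1, sub_eq_add_neg (⟪u, x⟫_ℝ • u) (prj e (x - ⟪u, x⟫_ℝ • u)), ← prj_neg]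
      congr 2
      rw [hRx]
      rw [two_smul]
      abel
    have h4 : ∀ x : V, 4 * (g e) + max (|⟪u, x⟫_ℝ| - 1) 0 * (2 * (g (e + t • u) + g (e - t • u)
        - 2 * g e)) ≤ g (e + t • prj e x) + g (e + t • prj e (R x))
          + (g (e + t • prj e (-x)) + g (e + t • prj e (R (-x)))) := by
      intro x
      set s := ⟪u, x⟫_ℝ with hs
      set y := prj e (x - s • u) with hy
      have a1 : g (e + t • prj e x) + g (e + t • prj e (R x)) ≥ 2 * g (e + s • (t • u)) := by
        rw [hsplit x, hsplit2 x, ← hs, ← hy]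
        have := hg.second_nonneg (e + s • (t • u)) (t • y)
        have e1 : e + s • (t • u) + t • y = e + t • (s • u + y) := by
          rw [smul_add, smul_smul, smul_smul, mul_comm]; abel
        have e2 : e + s • (t • u) - t • y = e + t • (s • u - y) := by
          rw [smul_sub, smul_smul, smul_smul, mul_comm]; abel
        rw [e1, e2] at this
        linarith
      have hs' : ⟪u, -x⟫_ℝ = -s := by rw [inner_neg_right]
      have hy' : prj e (-x - (-s) • u) = - y := by
        rw [← prj_neg, neg_sub, neg_smul]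
        congr 1
        abel
      have a2 : g (e + t • prj e (-x)) + g (e + t • prj e (R (-x))) ≥ 2 * g (e - s • (t • u)) := by
        rw [hsplit (-x), hsplit2 (-x), hs', hy']
        have := hg.second_nonneg (e - s • (t • u)) (t • y)
        have e1 : e - s • (t • u) + t • y = e + t • (-s • u - -y) := by
          rw [smul_sub, smul_neg, neg_smul, smul_neg, smul_smul, smul_smul, mul_comm]; abel
        have e2 : e - s • (t • u) - t • y = e + t • (-s • u + -y) := by
          rw [smul_add, smul_neg, neg_smul, smul_neg, smul_smul, smul_smul, mul_comm]; abel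
        rw [e1, e2] at this
        linarith
      have a3 : max (|s| - 1) 0 * (g (e + t • u) + g (e - t • u) - 2 * g e)
          ≤ g (e + s • (t • u)) + g (e - s • (t • u)) - 2 * g e := by
        have hnn := hg.second_nonneg e (t • u)
        by_cases h1 : |s| ≤ 1
        · rw [max_eq_right (by linarith), zero_mul]
          exact hg.second_nonneg _ _
        · push Not at h1
          rw [max_eq_left (by linarith)]
          have b1 := hg.slope e (t • u) (s := 1) (t := |s|) zero_le_one h1.le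
          have b2 := hg.slope e (-(t • u)) (s := 1) (t := |s|) zero_le_one h1.le
          simp only [one_smul, one_mul, smul_neg, ← sub_eq_add_neg] at b1 b2
          have b3 : g (e + s • (t • u)) + g (e - s • (t • u))
              = g (e + |s| • (t • u)) + g (e - |s| • (t • u)) := by
            rcases abs_cases s with ⟨h, -⟩ | ⟨h, -⟩
            · rw [h]
            · rw [h]
              simp only [neg_smul, sub_neg_eq_add, ← sub_eq_add_neg]
              ring
          rw [b3]
          nlinarith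
      linarith
    -- integrate
    have hiso : ∀ Q : V ≃ₗᵢ[ℝ] V, Integrable (fun z => g (e + t • prj e (Q z)) - g e)
        (stdGaussian V) ∧ ∫ z, (g (e + t • prj e (Q z)) - g e) ∂(stdGaussian V)
          = ∫ z, (g (e + t • prj e z) - g e) ∂(stdGaussian V) := by
      intro Q
      refine ⟨?_, integral_gauss_isom Q (fun z => g (e + t • prj e z) - g e)⟩
      have hm : MeasurePreserving Q (stdGaussian V) (stdGaussian V) :=
        ⟨Q.continuous.measurable, stdGaussian_map Q⟩
      exact hm.integrable_comp_of_integrable hi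
    have i1 := hiso R
    have i2 := hiso (LinearIsometryEquiv.neg ℝ)
    have i3 := hiso ((LinearIsometryEquiv.neg ℝ).trans R)
    simp only [LinearIsometryEquiv.coe_neg, LinearIsometryEquiv.trans_apply] at i2 i3
    have hw : Integrable (fun x : V => max (|⟪u, x⟫_ℝ| - 1) 0) (stdGaussian V) := by
      have := map_inner_gauss u hu
      rw [← this] at hint
      exact hint.comp_measurable (by fun_prop)
    have hwc : ∫ x, max (|⟪u, x⟫_ℝ| - 1) 0 ∂(stdGaussian V) = c := by
      rw [hc, ← map_inner_gauss u hu, integral_map (by fun_prop)]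
      exact (Continuous.aestronglyMeasurable (by fun_prop))
    have hle : ∫ x, max (|⟪u, x⟫_ℝ| - 1) 0 * (2 * (g (e + t • u) + g (e - t • u)
        - 2 * g e)) ∂(stdGaussian V) ≤ ∫ x, ((g (e + t • prj e x) - g e)
          + (g (e + t • prj e (R x)) - g e) + ((g (e + t • prj e (-x)) - g e)
          + (g (e + t • prj e (R (-x))) - g e))) ∂(stdGaussian V) := by
      refine integral_mono (hw.mul_const _) ((hi.add i1.1).add (i2.1.add i3.1)) ?_
      intro x
      have := h4 x
      simp only
      linarith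
    have hsum : ∫ x, ((g (e + t • prj e x) - g e)
          + (g (e + t • prj e (R x)) - g e) + ((g (e + t • prj e (-x)) - g e)
          + (g (e + t • prj e (R (-x))) - g e))) ∂(stdGaussian V)
        = 4 * ∫ z, (g (e + t • prj e z) - g e) ∂(stdGaussian V) := by
      have s1 := integral_add hi i1.1
      have s2 := integral_add i2.1 i3.1
      have s3 := integral_add (hi.add i1.1) (i2.1.add i3.1)
      simp only [Pi.add_apply] at s3
      rw [s3, s1, s2, i1.2, i2.2, i3.2]
      ring
    rw [hsum, integral_mul_const, hwc] at hle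
    unfold Mt
    have ht' : 0 < 1 / t := by positivity
    nlinarith
  -- integrate over e
  have hMi : Integrable (fun z => Mt t (prj u z) g) (stdGaussian V) := by
    refine Integrable.of_bound ((Mt_measurable hg t).comp
      (prj_continuous u).measurable).aestronglyMeasurable (K * ∫ z, ‖z‖ ∂(stdGaussian V)) ?_
    exact Eventually.of_forall fun z => Mt_bound hg K hK _ ht
  have hNi := Nt_integrable hg.continuous hG t u
  have hfin : ∫ z, (c / 2) * ((1 / t) * (g (prj u z + t • u) + g (prj u z - t • u)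
      - 2 * g (prj u z))) ∂(stdGaussian V) ≤ ∫ z, Mt t (prj u z) g ∂(stdGaussian V) :=
    integral_mono ((hNi.const_mul _).const_mul _) hMi (fun z => key _ (inner_prj u z))
  rw [integral_const_mul, integral_const_mul] at hfin
  unfold Nt
  rw [div_mul_eq_mul_div 2, le_div_iff₀ hpos]
  linarith

end MV
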