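import Pool.Agent.Lib.MP_f30071_gt.MInt
import Pool.Agent.Lib.MP_f30071_gt.K1
import Pool.Agent.Lib.MP_f30071_gt.Conv1
import Pool.Agent.Lib.MP_f30071_gt.Moment
import Pool.Agent.Lib.MP_f30071_gt.Ac1
import Pool.Agent.Lib.MP_f30071_gt.Rot
import Pool.Agent.Lib.MP_f30071_gt.Sub

open MeasureTheory ProbabilityTheory Filter Topology Set
open scoped InnerProductSpace Pointwise NNReal ENNReal

set_option linter.unusedSectionVars false

namespace MV

/-! ### module Hinge (Hinge.lean): additive functionals invariant under rotations about an axis -/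

section Hinge
variable {V : Type*} [NormedAddCommGroup V] [InnerProductSpace ℝ V] [FiniteDimensional ℝ V]

theorem sublin_disc (e : V) : Sublin (fun v => ‖prj e v‖) := by
  refine ⟨fun c v hc => ?_, fun v w => ?_⟩
  · rw [prj_smul, norm_smul, Real.norm_eq_abs, abs_of_nonneg hc]
  · rw [prj_add]; exact norm_add_le _ _

/-- unit ball of the orthogonal complement of `e` -/
noncomputable def disc (e : V) : ConvexBody V := body (fun v => ‖prj e v‖) (sublin_disc e)

theorem sublin_inner' (e : V) : Sublin (fun v => ⟪e, v⟫_ℝ) := by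
  have := sublin_inner (V := V) e
  simpa only [real_inner_comm] using this

theorem sublin_Tb (e : V) (τ : ℝ) :
    Sublin (fun v => max (max τ 0 * ‖prj e v‖) (⟪e, v⟫_ℝ + max (-τ) 0 * ‖prj e v‖)) :=
  sublin_max (sublin_smul (sublin_disc e) (le_max_right _ _))
    (sublin_add (sublin_inner' e) (sublin_smul (sublin_disc e) (le_max_right _ _)))

/-- cone with base radius `|τ|` and height one about the axis `e` -/
noncomputable def Tb (e : V) (τ : ℝ) : ConvexBody V :=
  body (fun v => max (max τ 0 * ‖prj e v‖) (⟪e, v⟫_ℝ + max (-τ) 0 * ‖prj e v‖)) (sublin_Tb e τ)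

theorem hs_disc (e v : V) : hs (disc e) v = ‖prj e v‖ := by
  rw [disc, hs_body]

theorem hs_Tb' (e : V) (τ : ℝ) (v : V) :
    hs (Tb e τ) v = max (max τ 0 * ‖prj e v‖) (⟪e, v⟫_ℝ + max (-τ) 0 * ‖prj e v‖) := by
  rw [Tb, hs_body]

theorem max_neg_zero (τ : ℝ) : max (-τ) 0 = max τ 0 - τ := by
  rcases le_total τ 0 with h | h
  · rw [max_eq_left (by linarith), max_eq_right h]; ring
  · rw [max_eq_right (by linarith), max_eq_left h]; ring

theorem hs_Tb (e : V) (τ : ℝ) (v : V) :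
    hs (Tb e τ) v = max 0 (⟪e, v⟫_ℝ - τ * ‖prj e v‖) + max τ 0 * ‖prj e v‖ := by
  rw [hs_Tb', max_neg_zero, max_add]
  congr 1
  · ring
  · ring

theorem sublin_Sb (e : V) (t : ℝ) :
    Sublin (fun v => max (max t 0 * ‖prj e v‖)
      (Real.sqrt (1 - t ^ 2) * ⟪e, v⟫_ℝ + max (-t) 0 * ‖prj e v‖)) :=
  sublin_max (sublin_smul (sublin_disc e) (le_max_right _ _))
    (sublin_add (sublin_smul (sublin_inner' e) (Real.sqrt_nonneg _))
      (sublin_smul (sublin_disc e) (le_max_right _ _)))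

/-- cone with unit slanted edges, `t = cos θ` -/
noncomputable def Sb (e : V) (t : ℝ) : ConvexBody V :=
  body (fun v => max (max t 0 * ‖prj e v‖)
      (Real.sqrt (1 - t ^ 2) * ⟪e, v⟫_ℝ + max (-t) 0 * ‖prj e v‖)) (sublin_Sb e t)

theorem hs_Sb (e : V) (t : ℝ) (v : V) :
    hs (Sb e t) v = max (max t 0 * ‖prj e v‖)
      (Real.sqrt (1 - t ^ 2) * ⟪e, v⟫_ℝ + max (-t) 0 * ‖prj e v‖) := by
  rw [Sb, hs_body]

theorem continuous_of_dist_le {f : ℝ → ConvexBody V} (w : ℝ → ℝ → ℝ)
    (hw : ∀ t, Tendsto (fun s => w s t) (𝓝 t) (𝓝 0)) (h : ∀ s t, dist (f s) (f t) ≤ w s t) :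
    Continuous f := by
  rw [continuous_iff_continuousAt]
  intro t
  rw [ContinuousAt, tendsto_iff_dist_tendsto_zero]
  exact squeeze_zero (fun _ => dist_nonneg) (fun s => h s t) (hw t)

theorem abs_max_zero_sub_le (a b : ℝ) : |max a 0 - max b 0| ≤ |a - b| := by
  have := abs_max_sub_max_le_max a 0 b 0
  simpa using this

theorem continuous_Sb (e : V) : Continuous (Sb e) := by
  apply continuous_of_dist_le (fun s t => |Real.sqrt (1 - s ^ 2) - Real.sqrt (1 - t ^ 2)| * ‖e‖
    + |s - t| )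
  · intro t
    have : Continuous (fun s => |Real.sqrt (1 - s ^ 2) - Real.sqrt (1 - t ^ 2)| * ‖e‖ + |s - t|) := by
      fun_prop
    simpa using this.tendsto t
  · intro s t
    apply dist_le_of_hs (by positivity)
    intro v
    rw [hs_Sb, hs_Sb]
    refine (abs_max_sub_max_le_max _ _ _ _).trans ?_
    have h1 : |s - t| * ‖prj e v‖ ≤ |s - t| * ‖v‖ :=
      mul_le_mul_of_nonneg_left (norm_prj_le _ _) (abs_nonneg _)
    have h2 : |⟪e, v⟫_ℝ| ≤ ‖e‖ * ‖v‖ := abs_real_inner_le_norm e v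
    have h3 : 0 ≤ |Real.sqrt (1 - s ^ 2) - Real.sqrt (1 - t ^ 2)| := abs_nonneg _
    apply max_le
    · rw [← sub_mul, abs_mul, abs_norm]
      have h4 := mul_le_mul_of_nonneg_right (abs_max_zero_sub_le s t) (norm_nonneg (prj e v))
      have h5 : 0 ≤ |Real.sqrt (1 - s ^ 2) - Real.sqrt (1 - t ^ 2)| * ‖e‖ * ‖v‖ := by positivity
      rw [add_mul]
      linarith
    · have h4 : |max (-s) 0 - max (-t) 0| ≤ |s - t| := by
        have := abs_max_zero_sub_le (-s) (-t)
        rw [show -s - -t = -(s - t) by ring, abs_neg] at this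
        exact this
      have e1 : Real.sqrt (1 - s ^ 2) * ⟪e, v⟫_ℝ + max (-s) 0 * ‖prj e v‖ -
          (Real.sqrt (1 - t ^ 2) * ⟪e, v⟫_ℝ + max (-t) 0 * ‖prj e v‖)
          = (Real.sqrt (1 - s ^ 2) - Real.sqrt (1 - t ^ 2)) * ⟪e, v⟫_ℝ
            + (max (-s) 0 - max (-t) 0) * ‖prj e v‖ := by ring
      rw [e1]
      refine (abs_add_le _ _).trans ?_
      rw [abs_mul, abs_mul, abs_norm, add_mul, mul_assoc]
      have h5 := mul_le_mul_of_nonneg_left h2 h3
      have h6 := mul_le_mul_of_nonneg_right h4 (norm_nonneg (prj e v))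
      linarith

theorem dist_Tb_Tb (e : V) (s t : ℝ) : dist (Tb e s) (Tb e t) ≤ |s - t| := by
  apply dist_le_of_hs (abs_nonneg _)
  intro v
  rw [hs_Tb', hs_Tb']
  refine (abs_max_sub_max_le_max _ _ _ _).trans ?_
  have h1 : |s - t| * ‖prj e v‖ ≤ |s - t| * ‖v‖ :=
    mul_le_mul_of_nonneg_left (norm_prj_le _ _) (abs_nonneg _)
  apply max_le
  · rw [← sub_mul, abs_mul, abs_norm]
    have h4 := mul_le_mul_of_nonneg_right (abs_max_zero_sub_le s t) (norm_nonneg (prj e v))
    linarith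
  · have h4 : |max (-s) 0 - max (-t) 0| ≤ |s - t| := by
      have := abs_max_zero_sub_le (-s) (-t)
      rw [show -s - -t = -(s - t) by ring, abs_neg] at this
      exact this
    have e1 : ⟪e, v⟫_ℝ + max (-s) 0 * ‖prj e v‖ - (⟪e, v⟫_ℝ + max (-t) 0 * ‖prj e v‖)
        = (max (-s) 0 - max (-t) 0) * ‖prj e v‖ := by ring
    rw [e1, abs_mul, abs_norm]
    have h6 := mul_le_mul_of_nonneg_right h4 (norm_nonneg (prj e v))
    linarith

theorem continuous_Tb (e : V) : Continuous (Tb e) := by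
  apply continuous_of_dist_le (fun s t => |s - t|)
  · intro t
    have : Continuous (fun s => |s - t|) := by fun_prop
    simpa using this.tendsto t
  · exact dist_Tb_Tb e

theorem dist_Tb (e : V) (he : ‖e‖ = 1) (τ : ℝ) : dist (Tb e τ) 0 ≤ 1 + |τ| := by
  apply dist_le_of_hs (by positivity)
  intro v
  rw [hs_Tb']
  simp only [hs_zero, sub_zero]
  have h1 : |τ| * ‖prj e v‖ ≤ |τ| * ‖v‖ :=
    mul_le_mul_of_nonneg_left (norm_prj_le _ _) (abs_nonneg _)
  have h2 : |⟪e, v⟫_ℝ| ≤ ‖v‖ := by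
    have := abs_real_inner_le_norm e v
    rwa [he, one_mul] at this
  have h3 : max τ 0 ≤ |τ| := max_le (le_abs_self _) (abs_nonneg _)
  have h4 : max (-τ) 0 ≤ |τ| := max_le (neg_le_abs _) (abs_nonneg _)
  have h5 := mul_le_mul_of_nonneg_right h3 (norm_nonneg (prj e v))
  have h6 := mul_le_mul_of_nonneg_right h4 (norm_nonneg (prj e v))
  have h7 : 0 ≤ max τ 0 * ‖prj e v‖ := by positivity
  have h8 := abs_le.1 h2
  have h9 : 0 ≤ ‖v‖ := norm_nonneg _
  rw [abs_le]
  constructor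
  · exact le_trans (by nlinarith [abs_nonneg τ]) (le_trans h7 (le_max_left _ _))
  · apply max_le <;> linarith

theorem Sb_eq (e : V) {t : ℝ} (ht : |t| < 1) :
    Sb e t = Real.sqrt (1 - t ^ 2) • Tb e (t / Real.sqrt (1 - t ^ 2)) := by
  have h0 : 0 < 1 - t ^ 2 := by
    have := abs_lt.1 ht
    nlinarith
  have hs0 : 0 < Real.sqrt (1 - t ^ 2) := Real.sqrt_pos.2 h0
  apply hs_ext
  intro v
  rw [hs_smul hs0.le, hs_Sb, hs_Tb', mul_max_of_nonneg _ _ hs0.le]
  congr 1
  · rw [← mul_assoc, mul_max_of_nonneg _ _ hs0.le, mul_zero, mul_div_cancel₀ _ hs0.ne']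
  · rw [mul_add, ← mul_assoc _ (max _ _), mul_max_of_nonneg _ _ hs0.le, mul_zero,
      ← neg_div, mul_div_cancel₀ _ hs0.ne']

theorem Sb_one (e : V) : Sb e 1 = disc e := by
  apply hs_ext; intro v
  rw [hs_Sb, hs_disc]
  norm_num

theorem Sb_neg_one (e : V) : Sb e (-1) = disc e := by
  apply hs_ext; intro v
  rw [hs_Sb, hs_disc]
  norm_num

theorem Tb_zero (e : V) : Tb e 0 = seg e := by
  apply hs_ext; intro v
  rw [hs_Tb, hs_seg, real_inner_comm]
  simp

theorem norm_prj_isom (g : V ≃ₗᵢ[ℝ] V) (e v : V) : ‖prj (g e) v‖ = ‖prj e (g.symm v)‖ := by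
  rw [prj_isom, LinearIsometryEquiv.norm_map]

theorem inner_isom (g : V ≃ₗᵢ[ℝ] V) (e v : V) : ⟪g e, v⟫_ℝ = ⟪e, g.symm v⟫_ℝ := by
  conv_lhs => rw [← g.apply_symm_apply v]
  rw [g.inner_map_map]

theorem isoB_disc (g : V ≃ₗᵢ[ℝ] V) (e : V) : isoB g (disc e) = disc (g e) := by
  apply hs_ext; intro v
  rw [hs_isoB, hs_disc, hs_disc, norm_prj_isom]

theorem isoB_Tb (g : V ≃ₗᵢ[ℝ] V) (e : V) (τ : ℝ) : isoB g (Tb e τ) = Tb (g e) τ := by
  apply hs_ext; intro v
  rw [hs_isoB, hs_Tb, hs_Tb, norm_prj_isom, inner_isom]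

theorem Tb_neg (e : V) (τ : ℝ) : Tb (-e) (-τ) = Tb e τ + pt (-e) := by
  apply hs_ext; intro v
  rw [hs_add, hs_pt, hs_Tb, hs_Tb, prj_neg_left, inner_neg_left, inner_neg_right, max_neg_zero,
    real_inner_comm e v]
  set s := ⟪e, v⟫_ℝ
  set r := ‖prj e v‖
  have : max 0 (-s - -τ * r) = max 0 (s - τ * r) - (s - τ * r) := by
    have h := max_neg_zero (s - τ * r)
    rw [max_comm 0, max_comm 0, ← h]
    congr 1; ring
  rw [this]; ring


variable [MeasurableSpace V] [BorelSpace V]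

/-- invariance about the axis `e` -/
def AxInv (e : V) (A : ConvexBody V → ℝ) : Prop :=
  ∀ g : V ≃ₗᵢ[ℝ] V, Gax e g → ∀ L, A (isoB g L) = A L

theorem Gax.symm {e : V} {g : V ≃ₗᵢ[ℝ] V} (h : Gax e g) : Gax e g.symm := by
  refine ⟨?_, ?_⟩
  · rw [LinearIsometryEquiv.symm_apply_eq]; exact h.1.symm
  · rcases h.2 with h2 | h2
    · left
      unfold Rot at h2 ⊢
      have h3 : LinearMap.det ((g.toLinearEquiv : V →ₗ[ℝ] V) ∘ₗ
          (g.symm.toLinearEquiv : V →ₗ[ℝ] V)) = 1 := by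
        have : (g.toLinearEquiv : V →ₗ[ℝ] V) ∘ₗ (g.symm.toLinearEquiv : V →ₗ[ℝ] V)
            = LinearMap.id := by
          ext v; simp
        rw [this, LinearMap.det_id]
      rw [LinearMap.det_comp, h2, one_mul] at h3
      exact h3
    · exact Or.inr h2

theorem integrable_max_sub {μ : Measure ℝ} [IsFiniteMeasure μ] (hμ : Integrable (fun τ : ℝ => τ) μ)
    (s : ℝ) : Integrable (fun τ : ℝ => max 0 (s - τ)) μ := by
  have h : Integrable (fun τ : ℝ => |s| + |τ|) μ := (integrable_const _).add hμ.abs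
  refine h.mono' (by fun_prop) (Eventually.of_forall fun τ => ?_)
  rw [Real.norm_eq_abs, abs_of_nonneg (le_max_left _ _)]
  apply max_le (by positivity)
  have := le_abs_self s
  have := neg_abs_le τ
  linarith

/-- the averaging construction -/
theorem hinge_aux (e : V) (he : ‖e‖ = 1) {Ω : Type*} [TopologicalSpace Ω] [CompactSpace Ω]
    [SecondCountableTopology Ω] [MeasurableSpace Ω] [BorelSpace Ω] (P : Measure Ω)
    [IsProbabilityMeasure P] (g : Ω → (V ≃ₗᵢ[ℝ] V)) (hg : ∀ ω, Gax e (g ω))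
    (hc : Continuous fun ω => ((g ω : V ≃L[ℝ] V) : V →L[ℝ] V))
    (hlaw : ∀ x y : V, ‖x‖ = ‖y‖ → ⟪e, x⟫_ℝ = ⟪e, y⟫_ℝ →
      P.map (fun ω => g ω x) = P.map (fun ω => g ω y))
    (x₀ : V) (hx₀ : ‖x₀‖ = 1) (hx₀e : ⟪e, x₀⟫_ℝ = 0) (K : ConvexBody V) :
    ∃ (μ : Measure ℝ) (c : ℝ), IsFiniteMeasure μ ∧ Integrable (fun τ : ℝ => τ) μ ∧ 0 ≤ c ∧
      (∀ s : ℝ, ∫ ω, hs K (g ω (s • e + x₀)) ∂P
        = - hs K (-e) * s + c + ∫ τ, max 0 (s - τ) ∂μ) ∧
      ∀ A : ConvexBody V → ℝ, IsAdd A → AxInv e A →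
        Integrable (fun τ => A (Tb e τ)) μ ∧
        A K = c * A (disc e) + ∫ τ, (A (Tb e τ) - max τ 0 * A (disc e)) ∂μ := by
  have hcv : ∀ v, Continuous fun ω => g ω v := by
    intro v
    exact (ContinuousLinearMap.apply ℝ V v).continuous.comp hc
  -- the averaged body
  let κ : Ω → ConvexBody V := fun ω => isoB (g ω).symm K
  have hκ : ∀ ω v, hs (κ ω) v = hs K (g ω v) := by
    intro ω v
    rw [hs_isoB]; simp
  have hκc : Continuous κ := by
    rw [continuous_iff_continuousAt]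
    intro ω
    rw [ContinuousAt, tendsto_iff_dist_tendsto_zero]
    have h1 : Continuous fun ω' => dist K 0 *
        ‖((g ω' : V ≃L[ℝ] V) : V →L[ℝ] V) - ((g ω : V ≃L[ℝ] V) : V →L[ℝ] V)‖ := by fun_prop
    have h2 := h1.tendsto ω
    simp only [sub_self, norm_zero, mul_zero] at h2
    refine squeeze_zero (fun _ => dist_nonneg) (fun ω' => ?_) h2
    apply dist_le_of_hs (by positivity)
    intro v
    rw [hκ, hκ, mul_assoc]
    refine (hs_lip K _ _).trans (mul_le_mul_of_nonneg_left ?_ dist_nonneg)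
    exact (((g ω' : V ≃L[ℝ] V) : V →L[ℝ] V) - ((g ω : V ≃L[ℝ] V) : V →L[ℝ] V)).le_opNorm v
  have hκm : AEStronglyMeasurable κ P := hκc.aestronglyMeasurable
  have hκi : Integrable (fun ω => dist (κ ω) 0) P := by
    refine Integrable.of_bound (hκc.dist continuous_const).aestronglyMeasurable (dist K 0)
      (Eventually.of_forall fun ω => ?_)
    rw [Real.norm_eq_abs, abs_of_nonneg dist_nonneg]
    apply dist_le_of_hs dist_nonneg
    intro v
    rw [hκ, hs_zero, sub_zero]
    refine (abs_hs_le K _).trans ?_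
    rw [LinearIsometryEquiv.norm_map]
  obtain ⟨Ke, hKe⟩ := exists_mint P κ hκm hκi
  simp only [hκ] at hKe
  have hAKe : ∀ A : ConvexBody V → ℝ, IsAdd A → AxInv e A → A Ke = A K := by
    intro A hA hi
    have h := (hA.mint P κ hκm hκi Ke (by simpa only [hκ] using hKe)).2
    have h2 : ∀ ω, A (κ ω) = A K := fun ω => hi _ (hg ω).symm K
    simp only [h2, integral_const, probReal_univ, one_smul] at h
    exact h
  -- law invariance
  have hflaw : ∀ x y : V, ‖x‖ = ‖y‖ → ⟪e, x⟫_ℝ = ⟪e, y⟫_ℝ → hs Ke x = hs Ke y := by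
    intro x y hxy hxe
    rw [hKe, hKe]
    have hm : ∀ v, ∫ ω, hs K (g ω v) ∂P = ∫ w, hs K w ∂(P.map fun ω => g ω v) := by
      intro v
      rw [integral_map (hcv v).aemeasurable (continuous_hs_right K).aestronglyMeasurable]
    rw [hm, hm, hlaw x y hxy hxe]
  have hgax : ∀ ω (s : ℝ), g ω (s • e) = s • e := by
    intro ω s; rw [map_smul, (hg ω).1]
  have hKe_e : hs Ke e = hs K e := by
    rw [hKe]
    have : ∀ ω, g ω e = e := fun ω => (hg ω).1
    simp [this]
  have hKe_ne : hs Ke (-e) = hs K (-e) := by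
    rw [hKe]
    have : ∀ ω, g ω (-e) = -e := fun ω => by rw [map_neg, (hg ω).1]
    simp [this]
  set k₁ := hs K (-e) with hk₁
  set k₂ := hs K e with hk₂
  have hneg : ∀ s : ℝ, s ≤ 0 → hs Ke (s • e) = -k₁ * s := by
    intro s hs0
    have : s • e = (-s) • (-e) := by simp
    rw [this, hs_smul_right _ (by linarith), hKe_ne]; ring
  have hpos : ∀ s : ℝ, 0 ≤ s → hs Ke (s • e) = k₂ * s := by
    intro s hs0
    rw [hs_smul_right _ hs0, hKe_e]; ring
  -- the convex function
  let q : ℝ → ℝ := fun s => hs Ke (s • e + x₀)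
  have hq : ConvexOn ℝ univ q := by
    refine ⟨convex_univ, ?_⟩
    intro s _ t _ a b ha hb hab
    have h1 : (a • s + b • t) • e + x₀ = a • (s • e + x₀) + b • (t • e + x₀) := by
      have : x₀ = (a + b) • x₀ := by rw [hab, one_smul]
      conv_lhs => rw [this]
      simp only [smul_eq_mul]
      module
    change hs Ke ((a • s + b • t) • e + x₀) ≤ a • hs Ke (s • e + x₀) + b • hs Ke (t • e + x₀)
    rw [h1]
    refine (hs_add_right _ _ _).trans ?_
    rw [hs_smul_right _ ha, hs_smul_right _ hb, smul_eq_mul, smul_eq_mul]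
  have hlip : ∀ s : ℝ, |q s - hs Ke (s • e)| ≤ dist Ke 0 := by
    intro s
    have := hs_lip Ke (s • e + x₀) (s • e)
    rwa [add_sub_cancel_left, hx₀, mul_one] at this
  have h1 : ∀ s : ℝ, s ≤ 0 → |q s + k₁ * s| ≤ dist Ke 0 := by
    intro s hs0
    have := hlip s
    rw [hneg s hs0] at this
    rwa [show q s + k₁ * s = q s - -k₁ * s by ring]
  have h2 : ∀ s : ℝ, 0 ≤ s → |q s - k₂ * s| ≤ dist Ke 0 := by
    intro s hs0
    have := hlip s
    rwa [hpos s hs0] at this
  obtain ⟨μ, c, hμf, hμi, hlim, hrep⟩ := conv_repr q hq k₁ k₂ (dist Ke 0) h1 h2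
  -- `c ≥ 0`
  have hc0 : 0 ≤ c := by
    refine ge_of_tendsto hlim ?_
    filter_upwards [eventually_le_atBot 0] with s hs0
    have e1 : hs Ke (s • e + x₀) = hs Ke (s • e - x₀) := by
      apply hflaw
      · rw [← sq_eq_sq₀ (norm_nonneg _) (norm_nonneg _), norm_add_sq_real, norm_sub_sq_real,
          real_inner_smul_left, hx₀e]
        ring
      · rw [inner_add_right, inner_sub_right, hx₀e]; ring
    have e2 := hs_add_right Ke (s • e + x₀) (s • e - x₀)
    have e3 : s • e + x₀ + (s • e - x₀) = (2 : ℝ) • (s • e) := by module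
    rw [e3, hs_smul_right _ (by norm_num), hneg s hs0, ← e1] at e2
    change 0 ≤ hs Ke (s • e + x₀) + k₁ * s
    linarith
  -- total mass
  have hmass : k₁ + k₂ = μ.real univ := by
    set m := μ.real univ with hm
    set I := ∫ τ, |τ| ∂μ with hI
    have hb : ∀ s : ℝ, 0 ≤ s → |(m - (k₁ + k₂)) * s| ≤ dist Ke 0 + c + I := by
      intro s hs0
      have e1 : |(∫ τ, max 0 (s - τ) ∂μ) - m * s| ≤ I := by
        have e2 : (∫ τ, max 0 (s - τ) ∂μ) - m * s = ∫ τ, (max 0 (s - τ) - s) ∂μ := by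
          rw [integral_sub (integrable_max_sub hμi s) (integrable_const _), integral_const,
            smul_eq_mul]
        rw [e2]
        refine (abs_integral_le_integral_abs).trans ?_
        refine integral_mono ((integrable_max_sub hμi s).sub (integrable_const _)).abs hμi.abs ?_
        intro τ
        simp only
        rcases le_total τ s with h | h
        · rw [max_eq_right (by linarith)]
          rw [show s - τ - s = -τ by ring, abs_neg]
        · rw [max_eq_left (by linarith), zero_sub, abs_neg, abs_of_nonneg hs0]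
          exact h.trans (le_abs_self τ)
      have e3 := h2 s hs0
      have e4 := hrep s
      rw [e4] at e3
      have e5 := abs_le.1 e1
      have e6 := abs_le.1 e3
      rw [abs_le]
      constructor <;> nlinarith
    by_contra hne
    have hne' : 0 < |m - (k₁ + k₂)| := abs_pos.2 (fun h => hne (by linarith))
    have hI0 : 0 ≤ I := integral_nonneg fun _ => abs_nonneg _
    have hD : 0 ≤ dist Ke 0 := dist_nonneg
    have hb1 := hb ((dist Ke 0 + c + I + 1) / |m - (k₁ + k₂)|) (by positivity)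
    rw [abs_mul, abs_of_nonneg (show 0 ≤ (dist Ke 0 + c + I + 1) / |m - (k₁ + k₂)| by positivity),
      mul_div_cancel₀ _ hne'.ne'] at hb1
    linarith
  refine ⟨μ, c, hμf, hμi, hc0, ?_, ?_⟩
  · intro s
    rw [← hKe]
    exact hrep s
  · -- representation of the support function
    have hform : ∀ v : V, hs Ke v = -k₁ * ⟪e, v⟫_ℝ + c * ‖prj e v‖
        + ∫ τ, max 0 (⟪e, v⟫_ℝ - τ * ‖prj e v‖) ∂μ := by
      intro v
      set s := ⟪e, v⟫_ℝ with hsdef
      set r := ‖prj e v‖ with hrdef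
      have hdecomp : v = prj e v + s • e := by simp [prj, he, ← hsdef]
      have hnv : r ^ 2 + s ^ 2 = ‖v‖ ^ 2 := by
        have := norm_prj_sq e v
        rwa [he, div_one] at this
      rcases (norm_nonneg (prj e v)).eq_or_lt with h0 | h0
      · have hr0 : r = 0 := h0.symm
        have hp0 : prj e v = 0 := norm_eq_zero.1 h0.symm
        have hv : v = s • e := by rw [hdecomp, hp0, zero_add]
        rw [hr0]
        simp only [mul_zero, sub_zero, add_zero]
        rw [integral_const, smul_eq_mul, ← hmass]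
        rcases le_total s 0 with hs0 | hs0
        · rw [max_eq_left hs0, hv, hneg _ hs0]; ring
        · rw [max_eq_right hs0, hv, hpos _ hs0]; ring
      · have hr : 0 < r := h0
        have e1 : hs Ke v = r * hs Ke (r⁻¹ • v) := by
          rw [hs_smul_right _ (by positivity), ← mul_assoc, mul_inv_cancel₀ hr.ne', one_mul]
        have e2 : hs Ke (r⁻¹ • v) = q (s / r) := by
          apply hflaw
          · rw [← sq_eq_sq₀ (norm_nonneg _) (norm_nonneg _), norm_add_sq_real, norm_smul,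
              norm_smul, real_inner_smul_left, hx₀e, he, hx₀, mul_pow, ← hnv]
            simp only [norm_inv, Real.norm_eq_abs, abs_div, abs_of_pos hr]
            field_simp
            rw [sq_abs]
            ring
          · rw [inner_add_right, hx₀e, real_inner_smul_right, real_inner_smul_right,
              real_inner_self_eq_norm_sq, he]
            field_simp
            ring
        rw [e1, e2, hrep]
        have e3 : ∫ τ, max 0 (s - τ * r) ∂μ = r * ∫ τ, max 0 (s / r - τ) ∂μ := by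
          rw [← integral_const_mul]
          congr 1
          ext τ
          rw [mul_max_of_nonneg _ _ hr.le, mul_zero]
          congr 1
          field_simp
        rw [e3]
        field_simp
    set T₀ := ∫ τ, max τ 0 ∂μ with hT₀
    have hT₀i : Integrable (fun τ : ℝ => max τ 0) μ := by
      refine hμi.abs.mono' (by fun_prop) (Eventually.of_forall fun τ => ?_)
      rw [Real.norm_eq_abs, abs_of_nonneg (le_max_right _ _)]
      exact max_le (le_abs_self _) (abs_nonneg _)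
    have hT₀0 : 0 ≤ T₀ := integral_nonneg fun τ => le_max_right _ _
    have hTm : AEStronglyMeasurable (Tb e) μ := (continuous_Tb e).aestronglyMeasurable
    have hTi : Integrable (fun τ => dist (Tb e τ) 0) μ := by
      have h : Integrable (fun τ : ℝ => 1 + |τ|) μ := (integrable_const _).add hμi.abs
      refine h.mono' ((continuous_Tb e).dist continuous_const).aestronglyMeasurable
        (Eventually.of_forall fun τ => ?_)
      rw [Real.norm_eq_abs, abs_of_nonneg dist_nonneg]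
      exact dist_Tb e he τ
    obtain ⟨M, hM⟩ := exists_mint μ (Tb e) hTm hTi
    have hmax_int : ∀ v : V, Integrable (fun τ : ℝ => max 0 (⟪e, v⟫_ℝ - τ * ‖prj e v‖)) μ := by
      intro v
      have h : Integrable (fun τ : ℝ => |⟪e, v⟫_ℝ| + |τ| * ‖prj e v‖) μ :=
        (integrable_const _).add (hμi.abs.mul_const _)
      refine h.mono' (by fun_prop) (Eventually.of_forall fun τ => ?_)
      rw [Real.norm_eq_abs, abs_of_nonneg (le_max_left _ _)]
      apply max_le (by positivity)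
      have h1 := le_abs_self ⟪e, v⟫_ℝ
      have h2 := neg_abs_le τ
      have h3 := norm_nonneg (prj e v)
      nlinarith
    have hbody : Ke + pt (k₁ • e) + T₀ • disc e = c • disc e + M := by
      apply hs_ext
      intro v
      rw [hs_add, hs_add, hs_add, hs_pt, hs_smul hT₀0, hs_smul hc0, hs_disc, hM, hform,
        real_inner_smul_right, real_inner_comm e v]
      have e1 : ∫ τ, hs (Tb e τ) v ∂μ = (∫ τ, max 0 (⟪e, v⟫_ℝ - τ * ‖prj e v‖) ∂μ)
          + T₀ * ‖prj e v‖ := by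
        simp only [hs_Tb]
        rw [integral_add (hmax_int v) (hT₀i.mul_const _), integral_mul_const]
      rw [e1]
      ring
    intro A hA hi
    obtain ⟨hAi, hAM⟩ := hA.mint μ (Tb e) hTm hTi M hM
    refine ⟨hAi, ?_⟩
    have h3 := congrArg A hbody
    rw [hA.add, hA.add, hA.add, hA.pt, MInt.smul hA hT₀0, MInt.smul hA hc0, hAM,
      hAKe A hA hi] at h3
    rw [integral_sub hAi (hT₀i.mul_const _), integral_mul_const]
    linarith


theorem exists_perp_unit (e : V) (he : ‖e‖ = 1) (hd : 2 ≤ Module.finrank ℝ V) :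
    ∃ x₀ : V, ‖x₀‖ = 1 ∧ ⟪e, x₀⟫_ℝ = 0 := by
  have h1 : 0 < Module.finrank ℝ (Submodule.span ℝ {e})ᗮ := by
    have h2 := Submodule.finrank_add_finrank_orthogonal (Submodule.span ℝ {e})
    have h3 : Module.finrank ℝ (Submodule.span ℝ {e}) = 1 :=
      finrank_span_singleton (by intro h; simp [h] at he)
    omega
  have : Nontrivial (Submodule.span ℝ {e})ᗮ := Module.nontrivial_of_finrank_pos h1
  obtain ⟨y, hy⟩ := exists_ne (0 : (Submodule.span ℝ {e})ᗮ)
  have hy0 : (y : V) ≠ 0 := fun h => hy (Subtype.ext h)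
  have hyn : ‖(y : V)‖ ≠ 0 := norm_ne_zero_iff.2 hy0
  refine ⟨‖(y : V)‖⁻¹ • (y : V), ?_, ?_⟩
  · rw [norm_smul, norm_inv, norm_norm, inv_mul_cancel₀ hyn]
  · rw [real_inner_smul_right, Submodule.mem_orthogonal_singleton_iff_inner_right.1 y.2, mul_zero]

theorem hinge (e : V) (he : ‖e‖ = 1) (hd : 2 ≤ Module.finrank ℝ V) (K : ConvexBody V) :
    ∃ (μ : Measure ℝ) (c : ℝ), IsFiniteMeasure μ ∧ Integrable (fun τ : ℝ => τ) μ ∧ 0 ≤ c ∧
      ∀ A : ConvexBody V → ℝ, IsAdd A → AxInv e A →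
        Integrable (fun τ => A (Tb e τ)) μ ∧
        A K = c * A (disc e) + ∫ τ, (A (Tb e τ) - max τ 0 * A (disc e)) ∂μ := by
  obtain ⟨Ω, _, _, _, _, _, P, g, hP, hg, hc, hlaw⟩ := exists_rot e he hd
  obtain ⟨x₀, hx₀, hx₀e⟩ := exists_perp_unit e he hd
  obtain ⟨μ, c, h1, h2, h3, _, h5⟩ := hinge_aux e he P g hg hc hlaw x₀ hx₀ hx₀e K
  exact ⟨μ, c, h1, h2, h3, h5⟩

theorem hinge_zero (e : V) (he : ‖e‖ = 1) (hd : 2 ≤ Module.finrank ℝ V) (A : ConvexBody V → ℝ)
    (hA : IsAdd A) (hi : AxInv e A) (h1 : ∀ τ, A (Tb e τ) = 0) (h2 : A (disc e) = 0)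
    (K : ConvexBody V) : A K = 0 := by
  obtain ⟨μ, c, _, _, _, h⟩ := hinge e he hd K
  rw [(h A hA hi).2, h2]
  simp [h1]

/-- the total mass of `wk k` -/
theorem integral_wk (k : ℕ) (hk : k ≠ 1) :
    Integrable (wk k) ∧ Integrable (fun τ => |τ| * |wk k τ|) ∧
      ∫ τ, wk k τ = 1 + (-1) ^ k := by
  obtain ⟨_, hi, _⟩ := qk_repr k hk 0
  have hcont : Continuous (wk k) := by
    have h : ∀ s : ℝ, Real.sqrt (1 + s ^ 2) ≠ 0 := fun s => (Real.sqrt_pos.2 (by positivity)).ne'
    have hsq : Continuous fun s : ℝ => Real.sqrt (1 + s ^ 2) := by fun_prop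
    have hd : Continuous fun s : ℝ => s / Real.sqrt (1 + s ^ 2) := continuous_id.div hsq h
    unfold wk
    exact (((hsq.pow 3).inv₀ (fun s => pow_ne_zero _ (h s))).mul continuous_const).mul
      ((continuous_const.mul (hd.pow _)).sub (continuous_const.mul (hd.pow _)))
  have hi0 : Integrable (wk k) := by
    refine hi.mono hcont.aestronglyMeasurable (Eventually.of_forall fun τ => ?_)
    rw [norm_mul, Real.norm_eq_abs (1 + |τ|), abs_of_nonneg (by positivity)]
    have := norm_nonneg (wk k τ)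
    nlinarith [abs_nonneg τ]
  have hi1 : Integrable (fun τ => |τ| * |wk k τ|) := by
    refine hi.mono (by fun_prop) (Eventually.of_forall fun τ => ?_)
    rw [Real.norm_eq_abs, Real.norm_eq_abs, abs_mul, abs_mul, abs_abs, abs_abs,
      abs_of_nonneg (show 0 ≤ 1 + |τ| by positivity)]
    have := abs_nonneg (wk k τ)
    nlinarith [abs_nonneg τ]
  refine ⟨hi0, hi1, ?_⟩
  set W := ∫ τ, wk k τ with hW
  set I := ∫ τ, |τ| * |wk k τ| with hI
  -- the limit of `q_k(s)/s`
  have hlim1 : Tendsto (fun s : ℝ => Real.sqrt (1 + s ^ 2) * (s / Real.sqrt (1 + s ^ 2)) ^ k / s)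
      atTop (𝓝 1) := by
    have ha : Tendsto (fun s : ℝ => Real.sqrt (1 + s ^ 2) / s) atTop (𝓝 1) := by
      have hb : Tendsto (fun s : ℝ => Real.sqrt (1 + (s⁻¹) ^ 2)) atTop (𝓝 1) := by
        have hc : Tendsto (fun s : ℝ => 1 + (s⁻¹) ^ 2) atTop (𝓝 (1 + 0 ^ 2)) :=
          (tendsto_inv_atTop_zero.pow 2).const_add 1
        have := (Real.continuous_sqrt.tendsto _).comp hc
        simpa [Function.comp_def] using this
      refine hb.congr' ?_
      filter_upwards [eventually_gt_atTop 0] with s hs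
      rw [eq_div_iff hs.ne']
      nth_rewrite 2 [← Real.sqrt_sq hs.le]
      rw [← Real.sqrt_mul (by positivity)]
      congr 1
      field_simp
      ring
    have hb : Tendsto (fun s : ℝ => (s / Real.sqrt (1 + s ^ 2)) ^ k) atTop (𝓝 1) := by
      have := (ha.inv₀ one_ne_zero).pow k
      simpa using this
    have := ha.mul hb
    rw [mul_one] at this
    refine this.congr fun s => ?_
    ring
  have hlim2 : Tendsto (fun s : ℝ => Real.sqrt (1 + s ^ 2) * (s / Real.sqrt (1 + s ^ 2)) ^ k / s)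
      atTop (𝓝 (-(-1) ^ k + W)) := by
    rw [tendsto_iff_dist_tendsto_zero]
    have hz : Tendsto (fun s : ℝ => I / s) atTop (𝓝 0) := tendsto_const_nhds.div_atTop tendsto_id
    refine squeeze_zero' (Eventually.of_forall fun _ => dist_nonneg) ?_ hz
    filter_upwards [eventually_gt_atTop 0] with s hs
    obtain ⟨hm, _, hr⟩ := qk_repr k hk s
    rw [Real.dist_eq, hr]
    have e1 : (-(-1) ^ k * s + ∫ τ, max 0 (s - τ) * wk k τ) / s - (-(-1) ^ k + W)
        = ((∫ τ, max 0 (s - τ) * wk k τ) - s * W) / s := by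
      field_simp
      ring
    rw [e1, abs_div, abs_of_pos hs]
    refine div_le_div_of_nonneg_right ?_ hs.le
    have e2 : (∫ τ, max 0 (s - τ) * wk k τ) - s * W = ∫ τ, (max 0 (s - τ) - s) * wk k τ := by
      rw [hW, ← integral_const_mul, ← integral_sub hm (hi0.const_mul _)]
      congr 1
      ext τ
      ring
    rw [e2]
    refine (abs_integral_le_integral_abs).trans ?_
    refine integral_mono_of_nonneg (Eventually.of_forall fun _ => abs_nonneg _) hi1
      (Eventually.of_forall fun τ => ?_)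
    simp only
    rw [abs_mul]
    refine mul_le_mul_of_nonneg_right ?_ (abs_nonneg _)
    rcases le_total τ s with h | h
    · rw [max_eq_right (by linarith)]
      rw [show s - τ - s = -τ by ring, abs_neg]
    · rw [max_eq_left (by linarith), zero_sub, abs_neg, abs_of_nonneg hs.le]
      exact h.trans (le_abs_self τ)
  have := tendsto_nhds_unique hlim1 hlim2
  linarith


/-- `pk` in terms of the cones -/
theorem pk_formula (e : V) (he : ‖e‖ = 1) (k : ℕ) (hk : k ≠ 1) (v : V) :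
    Integrable (fun τ => max 0 (⟪e, v⟫_ℝ - τ * ‖prj e v‖) * wk k τ) ∧
    pk k e v = -(-1) ^ k * ⟪e, v⟫_ℝ + ∫ τ, max 0 (⟪e, v⟫_ℝ - τ * ‖prj e v‖) * wk k τ := by
  set s := ⟪e, v⟫_ℝ with hs
  set r := ‖prj e v‖ with hr
  have hnv : r ^ 2 + s ^ 2 = ‖v‖ ^ 2 := by
    have := norm_prj_sq e v
    rwa [he, div_one] at this
  obtain ⟨hi0, hi1, hW⟩ := integral_wk k hk
  rcases (norm_nonneg (prj e v)).eq_or_lt with h0 | h0
  · have hr0 : r = 0 := h0.symm
    rw [hr0]
    simp only [mul_zero, sub_zero]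
    refine ⟨hi0.const_mul _, ?_⟩
    rw [integral_const_mul, hW]
    rw [hr0] at hnv
    have hnv' : ‖v‖ = |s| := by
      rw [← sq_eq_sq₀ (norm_nonneg _) (abs_nonneg _), sq_abs]; linarith
    rw [pk, hnv', ← hs]
    rcases lt_trichotomy s 0 with h | h | h
    · rw [max_eq_left h.le, abs_of_neg h, div_neg, div_self h.ne]; ring
    · rw [h]; simp
    · rw [max_eq_right h.le, abs_of_pos h, div_self h.ne']; ring
  · have hrp : 0 < r := h0
    obtain ⟨hm, _, hq⟩ := qk_repr k hk (s / r)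
    have e3 : (fun τ => max 0 (s - τ * r) * wk k τ)
        = fun τ => r * (max 0 (s / r - τ) * wk k τ) := by
      ext τ
      rw [← mul_assoc, mul_max_of_nonneg _ _ hrp.le, mul_zero]
      congr 2
      field_simp
    rw [e3]
    refine ⟨hm.const_mul _, ?_⟩
    rw [integral_const_mul]
    have e4 : r * (∫ τ, max 0 (s / r - τ) * wk k τ)
        = r * (Real.sqrt (1 + (s / r) ^ 2) * ((s / r) / Real.sqrt (1 + (s / r) ^ 2)) ^ k)
          + (-1) ^ k * s := by
      rw [hq]; field_simp; ring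
    rw [e4]
    have e5 : Real.sqrt (1 + (s / r) ^ 2) = ‖v‖ / r := by
      rw [Real.sqrt_eq_iff_mul_self_eq (by positivity) (by positivity)]
      field_simp
      linarith
    rw [e5, pk, ← hs]
    have hv0 : 0 < ‖v‖ := by
      by_contra hcon
      have h00 : ‖v‖ = 0 := le_antisymm (not_lt.1 hcon) (norm_nonneg _)
      rw [h00] at hnv
      have := pow_pos hrp 2
      have := sq_nonneg s
      norm_num at hnv
      linarith
    have e6 : s / r / (‖v‖ / r) = s / ‖v‖ := by field_simp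
    rw [e6]
    field_simp
    ring

theorem hinge_pk (e : V) (he : ‖e‖ = 1) (hd : 2 ≤ Module.finrank ℝ V) (A : ConvexBody V → ℝ)
    (hA : IsAdd A) (hi : AxInv e A) (k : ℕ) (hk : k ≠ 1) :
    ext A (pk k e) = ∫ τ, (A (Tb e τ) - max τ 0 * A (disc e)) * wk k τ := by
  obtain ⟨hi0, hi1, hW⟩ := integral_wk k hk
  have hTm : AEStronglyMeasurable (Tb e) (volume : Measure ℝ) :=
    (continuous_Tb e).aestronglyMeasurable
  have hi2 : Integrable (fun τ => wk k τ * (1 + dist (Tb e τ) 0)) := by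
    have h : Integrable (fun τ => 2 * |wk k τ| + |τ| * |wk k τ|) :=
      (hi0.abs.const_mul 2).add hi1
    refine h.mono' ?_ (Eventually.of_forall fun τ => ?_)
    · exact hi0.aestronglyMeasurable.mul
        (aestronglyMeasurable_const.add
          ((continuous_Tb e).dist continuous_const).aestronglyMeasurable)
    · rw [norm_mul, Real.norm_eq_abs, Real.norm_eq_abs,
        abs_of_nonneg (show 0 ≤ 1 + dist (Tb e τ) 0 by positivity)]
      have h1 := dist_Tb e he τ
      have h2 := abs_nonneg (wk k τ)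
      nlinarith
  obtain ⟨hD1, hAi, hE1⟩ := hA.mint_signed volume (wk k) hi0.aestronglyMeasurable (Tb e) hTm hi2
  have hmaxi : Integrable (fun τ => max τ 0 * wk k τ) := by
    refine hi1.mono' ?_ (Eventually.of_forall fun τ => ?_)
    · exact (Continuous.aestronglyMeasurable (by fun_prop)).mul hi0.aestronglyMeasurable
    · rw [norm_mul, Real.norm_eq_abs, Real.norm_eq_abs, abs_of_nonneg (le_max_right _ _)]
      exact mul_le_mul_of_nonneg_right (max_le (le_abs_self _) (abs_nonneg _)) (abs_nonneg _)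
  set W₁ := ∫ τ, max τ 0 * wk k τ with hW₁
  have hfun : pk k e = fun v => (-(-1) ^ k * ⟪v, e⟫_ℝ + ∫ τ, wk k τ * hs (Tb e τ) v)
      + (-W₁) * hs (disc e) v := by
    ext v
    obtain ⟨hm, hf⟩ := pk_formula e he k hk v
    rw [hf, hs_disc, real_inner_comm e v]
    have e1 : ∫ τ, wk k τ * hs (Tb e τ) v
        = (∫ τ, max 0 (⟪e, v⟫_ℝ - τ * ‖prj e v‖) * wk k τ) + W₁ * ‖prj e v‖ := by
      rw [hW₁, ← integral_mul_const, ← integral_add hm (hmaxi.mul_const _)]
      congr 1
      ext τ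
      rw [hs_Tb]; ring
    rw [e1]; ring
  have hdI : IsDiff (fun v : V => -(-1) ^ k * ⟪v, e⟫_ℝ) := by
    refine IsDiff.smul _ ⟨pt e, 0, fun v => ?_⟩
    simp
  have hd2 : IsDiff (fun v : V => (-W₁) * hs (disc e) v) := IsDiff.smul _ (IsDiff.hs _)
  rw [hfun, ext_add hA (hdI.add hD1) hd2, ext_add hA hdI hD1, hE1,
    ext_smul hA _ (IsDiff.hs _), ext_hs hA, ext_smul hA _ ⟨pt e, 0, fun v => by simp⟩,
    ext_inner hA, mul_zero, zero_add]
  have e7 : (fun τ => (A (Tb e τ) - max τ 0 * A (disc e)) * wk k τ)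
      = fun τ => wk k τ * A (Tb e τ) - (max τ 0 * wk k τ) * A (disc e) := by
    ext τ; ring
  rw [e7, integral_sub hAi (hmaxi.mul_const _), integral_mul_const]
  ring

theorem hinge_Tb_pos (u e : V) (hu : ‖u‖ = 1) (he : ‖e‖ = 1) (hue : ⟪u, e⟫_ℝ = 0)
    (hd : 3 ≤ Module.finrank ℝ V) (θ : ℝ) (hθ : 0 < θ) :
    ∃ μ : Measure ℝ, IsFiniteMeasure μ ∧ Integrable (fun τ : ℝ => τ) μ ∧ μ ≪ volume ∧
      ∫ τ, τ ∂μ = 0 ∧ ∀ A : ConvexBody V → ℝ, IsAdd A → AxInv e A →
        A (Tb u θ) = ∫ τ, (A (Tb e τ) - max τ 0 * A (disc e)) ∂μ := by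
  obtain ⟨Ω, _, _, _, _, _, P, g, hP, hg, hc, hlaw⟩ := exists_rot e he (by omega)
  obtain ⟨x₀, hx₀, hx₀e⟩ := exists_perp_unit e he (by omega)
  obtain ⟨μ, c, h1, h2, h3, h4, h5⟩ := hinge_aux e he P g hg hc hlaw x₀ hx₀ hx₀e (Tb u θ)
  have heu : ⟪e, u⟫_ℝ = 0 := by rw [real_inner_comm]; exact hue
  have hcv : ∀ v, Continuous fun ω => g ω v := by
    intro v
    exact (ContinuousLinearMap.apply ℝ V v).continuous.comp hc
  have hcz : Continuous fun ω => ⟪u, g ω x₀⟫_ℝ := by
    have := hcv x₀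
    fun_prop
  set ν := P.map (fun ω => ⟪u, g ω x₀⟫_ℝ) with hν
  have : IsProbabilityMeasure ν := Measure.isProbabilityMeasure_map hcz.aemeasurable
  have hν1 : ∀ᵐ ζ ∂ν, |ζ| ≤ 1 := by
    rw [hν, ae_map_iff hcz.aemeasurable (measurableSet_le (by fun_prop) (by fun_prop))]
    refine Eventually.of_forall fun ω => ?_
    have := abs_real_inner_le_norm u (g ω x₀)
    rwa [hu, LinearIsometryEquiv.norm_map, hx₀, one_mul] at this
  have hac : ν ≪ volume :=
    rot_ac e he hd P g hg (fun x => (hcv x).measurable) hlaw u x₀ hu hx₀ heu hx₀e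
  have hkey : ∀ s : ℝ, ∫ ζ, max ζ (θ * Real.sqrt (s ^ 2 + 1 - ζ ^ 2)) ∂ν
      = -hs (Tb u θ) (-e) * s + c + ∫ τ, max 0 (s - τ) ∂μ := by
    intro s
    rw [← h4 s, hν, integral_map hcz.aemeasurable
      (Continuous.aestronglyMeasurable (by fun_prop))]
    congr 1
    ext ω
    rw [hs_Tb', max_eq_left hθ.le, max_eq_right (show -θ ≤ 0 by linarith), zero_mul, add_zero,
      max_comm]
    have e1 : ⟪u, g ω (s • e + x₀)⟫_ℝ = ⟪u, g ω x₀⟫_ℝ := by
      rw [map_add, map_smul, (hg ω).1, inner_add_right, real_inner_smul_right, hue]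
      ring
    rw [e1]
    congr 2
    have e2 := norm_prj_sq u (g ω (s • e + x₀))
    rw [hu, div_one, e1, LinearIsometryEquiv.norm_map, norm_add_sq_real, norm_smul, he, hx₀,
      real_inner_smul_left, hx₀e, Real.norm_eq_abs] at e2
    rw [eq_comm, ← Real.sqrt_sq (norm_nonneg (prj u _))]
    congr 1
    have e3 : (|s| * 1) ^ 2 = s ^ 2 := by rw [mul_one, sq_abs]
    rw [e3] at e2
    linarith
  obtain ⟨g1, g2, g3⟩ := ac_line ν hν1 hac θ hθ μ h2 _ c hkey
  refine ⟨μ, h1, h2, g1, g3, fun A hA hi => ?_⟩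
  rw [(h5 A hA hi).2, g2]
  ring

theorem hinge_Tb (u e : V) (hu : ‖u‖ = 1) (he : ‖e‖ = 1) (hue : ⟪u, e⟫_ℝ = 0)
    (hd : 3 ≤ Module.finrank ℝ V) (θ : ℝ) (hθ : θ ≠ 0) :
    ∃ μ : Measure ℝ, IsFiniteMeasure μ ∧ Integrable (fun τ : ℝ => τ) μ ∧ μ ≪ volume ∧
      ∫ τ, τ ∂μ = 0 ∧ ∀ A : ConvexBody V → ℝ, IsAdd A → AxInv e A →
        A (Tb u θ) = ∫ τ, (A (Tb e τ) - max τ 0 * A (disc e)) ∂μ := by
  rcases hθ.lt_or_gt with h | h
  · obtain ⟨μ, h1, h2, h3, h4, h5⟩ := hinge_Tb_pos (-u) e (by rwa [norm_neg]) he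
      (by rw [inner_neg_left, hue, neg_zero]) hd (-θ) (by linarith)
    refine ⟨μ, h1, h2, h3, h4, fun A hA hi => ?_⟩
    rw [← h5 A hA hi, Tb_neg, hA.add, hA.pt, add_zero]
  · exact hinge_Tb_pos u e hu he hue hd θ h

end Hinge
end MV
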