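import Pool.Agent.Lib.MP_f30071_gt.Basic

/-!
Minkowski integrals, additive functionals on differences of support functions.
-/

open MeasureTheory ProbabilityTheory Filter Topology Set
open scoped InnerProductSpace Pointwise NNReal ENNReal

set_option linter.unusedSectionVars false

namespace MV

/-! ### module MInt (MInt.lean): Minkowski integrals, additive functionals on differences -/

section MInt
variable {V : Type*} [NormedAddCommGroup V] [InnerProductSpace ℝ V] [FiniteDimensional ℝ V]
variable {A : ConvexBody V → ℝ}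

/-- differences of support functions -/
def IsDiff (f : V → ℝ) : Prop := ∃ K L : ConvexBody V, ∀ v, f v = hs K v - hs L v

/-- extension of an additive functional to differences of support functions -/
noncomputable def ext (A : ConvexBody V → ℝ) (f : V → ℝ) : ℝ :=
  open Classical in if h : IsDiff f then A h.choose - A h.choose_spec.choose else 0

theorem ext_eq (hA : IsAdd A) {f : V → ℝ} {K L : ConvexBody V} (h : ∀ v, f v = hs K v - hs L v) :
    ext A f = A K - A L := by
  have hf : IsDiff f := ⟨K, L, h⟩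
  have h1 : ext A f = A hf.choose - A hf.choose_spec.choose := by
    unfold ext
    rw [dif_pos hf]
  rw [h1]
  have h2 := hf.choose_spec.choose_spec
  have h3 : hf.choose + L = K + hf.choose_spec.choose := by
    apply hs_ext
    intro v
    rw [hs_add, hs_add]
    have h4 := h2 v
    have h5 := h v
    linarith
  have h6 := congrArg A h3
  rw [hA.add, hA.add] at h6
  linarith

theorem IsDiff.hs (K : ConvexBody V) : IsDiff (hs K) := ⟨K, 0, fun v => by simp⟩

theorem MInt.A_zero (hA : IsAdd A) : A 0 = 0 := by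
  rw [← pt_zero]
  exact hA.pt 0

theorem ext_hs (hA : IsAdd A) (K : ConvexBody V) : ext A (MV.hs K) = A K := by
  rw [ext_eq hA (K := K) (L := 0) (fun v => by simp), MInt.A_zero hA, sub_zero]

theorem IsDiff.add {f g : V → ℝ} (hf : IsDiff f) (hg : IsDiff g) : IsDiff (fun v => f v + g v) := by
  obtain ⟨K, L, h⟩ := hf
  obtain ⟨K', L', h'⟩ := hg
  refine ⟨K + K', L + L', fun v => ?_⟩
  simp only [hs_add, h, h']
  ring

/-- additive functionals are positively homogeneous -/
theorem MInt.smul (hA : IsAdd A) {c : ℝ} (hc : 0 ≤ c) (K : ConvexBody V) :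
    A (c • K) = c * A K := by
  have hadd : ∀ a b : ℝ, 0 ≤ a → 0 ≤ b → A ((a + b) • K) = A (a • K) + A (b • K) := by
    intro a b ha hb
    rw [add_smul_body ha hb, hA.add]
  have h0 : A ((0 : ℝ) • K) = 0 := by rw [zero_smul_body, MInt.A_zero hA]
  set F : ℝ → ℝ := fun t => A ((max t 0) • K) - A ((max (-t) 0) • K) with hF
  have hFadd : ∀ a b, F (a + b) = F a + F b := by
    intro a b
    have e1 : max (a + b) 0 + (max (-a) 0 + max (-b) 0) = max (-(a + b)) 0 + (max a 0 + max b 0) := by
      rcases le_total a 0 with ha | ha <;> rcases le_total b 0 with hb | hb <;>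
        rcases le_total (a + b) 0 with hab | hab <;>
        simp only [max_eq_left, max_eq_right, ha, hb, hab, neg_nonneg, neg_nonpos] <;> ring
    have e2 : A ((max (a + b) 0 + (max (-a) 0 + max (-b) 0)) • K) =
        A ((max (-(a + b)) 0 + (max a 0 + max b 0)) • K) := by rw [e1]
    rw [hadd _ _ (le_max_right _ _) (add_nonneg (le_max_right _ _) (le_max_right _ _)),
      hadd _ _ (le_max_right _ _) (le_max_right _ _),
      hadd _ _ (le_max_right _ _) (add_nonneg (le_max_right _ _) (le_max_right _ _)),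
      hadd _ _ (le_max_right _ _) (le_max_right _ _)] at e2
    simp only [hF]
    linarith
  have hFc : Continuous F := by
    have h1 : ∀ g : ℝ → ℝ, Continuous g → Continuous fun t => A (g t • K) := fun g hg =>
      hA.cont.comp (hg.smul continuous_const)
    exact (h1 _ (by fun_prop)).sub (h1 _ (by fun_prop))
  let Fh : ℝ →+ ℝ := AddMonoidHom.mk' F hFadd
  have h2 : F (c • (1 : ℝ)) = c • F 1 := map_real_smul Fh hFc c 1
  simp only [hF, smul_eq_mul, mul_one, max_eq_left hc, max_eq_right (neg_nonpos.2 hc), h0,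
    max_eq_left (zero_le_one' ℝ), max_eq_right (neg_nonpos.2 (zero_le_one' ℝ)), one_smul_body,
    sub_zero] at h2
  exact h2

theorem IsDiff.smul {f : V → ℝ} (c : ℝ) (hf : IsDiff f) : IsDiff (fun v => c * f v) := by
  obtain ⟨K, L, h⟩ := hf
  rcases le_total 0 c with hc | hc
  · refine ⟨c • K, c • L, fun v => ?_⟩
    simp only [hs_smul hc, h]
    ring
  · refine ⟨(-c) • L, (-c) • K, fun v => ?_⟩
    simp only [hs_smul (neg_nonneg.2 hc), h]
    ring

theorem ext_add (hA : IsAdd A) {f g : V → ℝ} (hf : IsDiff f) (hg : IsDiff g) :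
    ext A (fun v => f v + g v) = ext A f + ext A g := by
  obtain ⟨K, L, h⟩ := hf
  obtain ⟨K', L', h'⟩ := hg
  rw [ext_eq hA h, ext_eq hA h', ext_eq hA (K := K + K') (L := L + L'), hA.add, hA.add]
  · ring
  · intro v
    rw [hs_add, hs_add, h, h']
    ring

theorem ext_smul (hA : IsAdd A) {f : V → ℝ} (c : ℝ) (hf : IsDiff f) :
    ext A (fun v => c * f v) = c * ext A f := by
  obtain ⟨K, L, h⟩ := hf
  rw [ext_eq hA h]
  rcases le_total 0 c with hc | hc
  · rw [ext_eq hA (K := c • K) (L := c • L), MInt.smul hA hc, MInt.smul hA hc]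
    · ring
    · intro v
      rw [hs_smul hc, hs_smul hc, h]
      ring
  · have hc' := neg_nonneg.2 hc
    rw [ext_eq hA (K := (-c) • L) (L := (-c) • K), MInt.smul hA hc', MInt.smul hA hc']
    · ring
    · intro v
      rw [hs_smul hc', hs_smul hc', h]
      ring

theorem ext_inner (hA : IsAdd A) (p : V) : ext A (fun v => ⟪v, p⟫_ℝ) = 0 := by
  rw [ext_eq hA (K := pt p) (L := 0), hA.pt, MInt.A_zero hA, sub_zero]
  intro v
  simp

theorem IsAdd.bound (hA : IsAdd A) : ∃ C : ℝ, 0 ≤ C ∧ ∀ K, |A K| ≤ C * dist K 0 := by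
  have h1 : ContinuousAt A 0 := hA.cont.continuousAt
  rw [Metric.continuousAt_iff] at h1
  obtain ⟨δ, hδ, h⟩ := h1 1 one_pos
  refine ⟨2 / δ, by positivity, fun K => ?_⟩
  rcases (dist_nonneg (x := K) (y := (0 : ConvexBody V))).eq_or_lt with h0 | h0
  · have : K = 0 := dist_eq_zero.1 h0.symm
    rw [this, MInt.A_zero hA]
    simp
  set r := dist K 0 with hr
  have hc : 0 < δ / (2 * r) := by positivity
  have h2 : dist ((δ / (2 * r)) • K) 0 < δ := by
    have h3 := dist_smul_le (δ / (2 * r)) (δ / (2 * r)) K 0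
    rw [smul_zero_body, sub_self, abs_zero, zero_mul, zero_add, abs_of_pos hc, ← hr] at h3
    have h4 : δ / (2 * r) * r = δ / 2 := by field_simp
    rw [h4] at h3
    linarith
  have h5 := h h2
  rw [MInt.A_zero hA, Real.dist_eq, sub_zero, MInt.smul hA hc.le, abs_mul, abs_of_pos hc] at h5
  have h6 : |A K| = (2 * r / δ) * (δ / (2 * r) * |A K|) := by field_simp
  rw [h6]
  have h7 : (0 : ℝ) ≤ 2 * r / δ := by positivity
  calc (2 * r / δ) * (δ / (2 * r) * |A K|) ≤ (2 * r / δ) * 1 :=
        mul_le_mul_of_nonneg_left h5.le h7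
    _ = 2 / δ * r := by ring

variable {Ω : Type*} [MeasurableSpace Ω]

namespace MInt

theorem hs_meas {μ : Measure Ω} {κ : Ω → ConvexBody V} (hκ : AEStronglyMeasurable κ μ) (v : V) :
    AEStronglyMeasurable (fun ω => MV.hs (κ ω) v) μ :=
  (continuous_hs_left v).comp_aestronglyMeasurable hκ

theorem hs_int {μ : Measure Ω} {κ : Ω → ConvexBody V} (hκ : AEStronglyMeasurable κ μ)
    (hi : Integrable (fun ω => dist (κ ω) 0) μ) (v : V) :
    Integrable (fun ω => MV.hs (κ ω) v) μ := by
  refine (hi.mul_const ‖v‖).mono' (hs_meas hκ v) (Eventually.of_forall fun ω => ?_)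
  rw [Real.norm_eq_abs]
  exact abs_hs_le _ _

/-- integral of a function of a simple function -/
theorem simple_int (μ : Measure Ω) [IsFiniteMeasure μ] {β : Type*} (s : SimpleFunc Ω β)
    (g : β → ℝ) :
    ∫ ω, g (s ω) ∂μ = ∑ y ∈ s.range, μ.real (s ⁻¹' {y}) * g y := by
  have h1 : ∀ ω, g (s ω) = ∑ y ∈ s.range, (s ⁻¹' {y}).indicator (fun _ => g y) ω := by
    intro ω
    rw [Finset.sum_eq_single (s ω)]
    · rw [Set.indicator_of_mem]
      rfl
    · intro b _ hb
      rw [Set.indicator_of_notMem]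
      intro h
      exact hb h.symm
    · intro h
      exact absurd (s.mem_range_self ω) h
  simp_rw [h1]
  rw [integral_finsetSum]
  · refine Finset.sum_congr rfl fun y _ => ?_
    rw [integral_indicator_const _ (s.measurableSet_fiber y), smul_eq_mul]
  · intro y _
    exact (integrable_const (g y)).indicator (s.measurableSet_fiber y)

/-- the Minkowski integral of a simple function -/
noncomputable def sbody (μ : Measure Ω) (s : SimpleFunc Ω (ConvexBody V)) : ConvexBody V :=
  ∑ y ∈ s.range, μ.real (s ⁻¹' {y}) • y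

theorem hs_sum {ι : Type*} (s : Finset ι) (f : ι → ConvexBody V) (v : V) :
    MV.hs (∑ i ∈ s, f i) v = ∑ i ∈ s, MV.hs (f i) v := by
  classical
  induction s using Finset.induction_on with
  | empty => simp
  | insert a s ha ih => rw [Finset.sum_insert ha, Finset.sum_insert ha, hs_add, ih]

theorem A_sum (hA : IsAdd A) {ι : Type*} (s : Finset ι) (f : ι → ConvexBody V) :
    A (∑ i ∈ s, f i) = ∑ i ∈ s, A (f i) := by
  classical
  induction s using Finset.induction_on with
  | empty => simp [MInt.A_zero hA]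
  | insert a s ha ih => rw [Finset.sum_insert ha, Finset.sum_insert ha, hA.add, ih]

theorem hs_sbody (μ : Measure Ω) [IsFiniteMeasure μ] (s : SimpleFunc Ω (ConvexBody V)) (v : V) :
    MV.hs (sbody μ s) v = ∫ ω, MV.hs (s ω) v ∂μ := by
  rw [simple_int μ s (fun K => MV.hs K v), sbody, hs_sum]
  refine Finset.sum_congr rfl fun y _ => ?_
  rw [hs_smul measureReal_nonneg]

theorem A_sbody (hA : IsAdd A) (μ : Measure Ω) [IsFiniteMeasure μ]
    (s : SimpleFunc Ω (ConvexBody V)) : A (sbody μ s) = ∫ ω, A (s ω) ∂μ := by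
  rw [simple_int μ s A, sbody, A_sum hA]
  refine Finset.sum_congr rfl fun y _ => ?_
  rw [MInt.smul hA measureReal_nonneg]

/-- approximation by simple functions -/
theorem exists_approx (κ : Ω → ConvexBody V) (hκ : StronglyMeasurable κ) :
    ∃ s : ℕ → SimpleFunc Ω (ConvexBody V), (∀ ω, Tendsto (fun n => s n ω) atTop (𝓝 (κ ω))) ∧
      ∀ n ω, dist (s n ω) 0 ≤ 2 * dist (κ ω) 0 := by
  borelize (ConvexBody V)
  have : TopologicalSpace.SeparableSpace (range κ ∪ {0} : Set (ConvexBody V)) :=
    hκ.separableSpace_range_union_singleton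
  refine ⟨fun n => SimpleFunc.approxOn κ hκ.measurable (range κ ∪ {0}) 0 (by simp) n, ?_, ?_⟩
  · intro ω
    exact SimpleFunc.tendsto_approxOn _ _ (subset_closure (by simp))
  · intro n ω
    have h1 := SimpleFunc.edist_approxOn_y0_le hκ.measurable (s := range κ ∪ {0})
      (y₀ := (0 : ConvexBody V)) (by simp) ω n
    rw [edist_dist, edist_dist, ← ENNReal.ofReal_add dist_nonneg dist_nonneg,
      ENNReal.ofReal_le_ofReal_iff (by positivity)] at h1
    rw [dist_comm, dist_comm (κ ω)]
    linarith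

end MInt

/-- existence of Minkowski integrals -/
theorem exists_mint (μ : Measure Ω) [IsFiniteMeasure μ] (κ : Ω → ConvexBody V)
    (hκ : AEStronglyMeasurable κ μ) (hi : Integrable (fun ω => dist (κ ω) 0) μ) :
    ∃ K : ConvexBody V, ∀ v, MV.hs K v = ∫ ω, MV.hs (κ ω) v ∂μ := by
  have hf : Sublin (fun v => ∫ ω, MV.hs (κ ω) v ∂μ) := by
    constructor
    · intro c v hc
      rw [← integral_const_mul]
      refine integral_congr_ae (Eventually.of_forall fun ω => ?_)
      exact hs_smul_right _ hc v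
    · intro v w
      rw [← integral_add (MInt.hs_int hκ hi v) (MInt.hs_int hκ hi w)]
      refine integral_mono (MInt.hs_int hκ hi _) ((MInt.hs_int hκ hi v).add (MInt.hs_int hκ hi w)) ?_
      intro ω
      exact hs_add_right _ v w
  exact exists_body hf

/-- additive functionals commute with Minkowski integrals -/
theorem IsAdd.mint (hA : IsAdd A) (μ : Measure Ω) [IsFiniteMeasure μ] (κ : Ω → ConvexBody V)
    (hκ : AEStronglyMeasurable κ μ) (hi : Integrable (fun ω => dist (κ ω) 0) μ)
    (K : ConvexBody V) (hK : ∀ v, MV.hs K v = ∫ ω, MV.hs (κ ω) v ∂μ) :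
    Integrable (fun ω => A (κ ω)) μ ∧ A K = ∫ ω, A (κ ω) ∂μ := by
  obtain ⟨C, hC, hb⟩ := hA.bound
  have hint : Integrable (fun ω => A (κ ω)) μ := by
    refine (hi.const_mul C).mono' (hA.cont.comp_aestronglyMeasurable hκ)
      (Eventually.of_forall fun ω => ?_)
    rw [Real.norm_eq_abs]
    exact hb _
  refine ⟨hint, ?_⟩
  set κ' := hκ.mk κ with hκ'
  have hmk : StronglyMeasurable κ' := hκ.stronglyMeasurable_mk
  have hae : κ =ᵐ[μ] κ' := hκ.ae_eq_mk
  have hi' : Integrable (fun ω => dist (κ' ω) 0) μ := by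
    refine hi.congr (hae.mono fun ω hω => ?_)
    simp only [hω]
  have hK' : ∀ v, MV.hs K v = ∫ ω, MV.hs (κ' ω) v ∂μ := by
    intro v
    rw [hK]
    refine integral_congr_ae (hae.mono fun ω hω => ?_)
    simp only [hω]
  have hA' : ∫ ω, A (κ ω) ∂μ = ∫ ω, A (κ' ω) ∂μ := by
    refine integral_congr_ae (hae.mono fun ω hω => ?_)
    simp only [hω]
  rw [hA']
  obtain ⟨s, hs1, hs2⟩ := MInt.exists_approx κ' hmk
  have hsm : ∀ n, AEStronglyMeasurable (s n) μ := fun n =>
    (SimpleFunc.stronglyMeasurable (s n)).aestronglyMeasurable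
  have hsi : ∀ n, Integrable (fun ω => dist (s n ω) 0) μ := by
    intro n
    have h1 : AEStronglyMeasurable (fun ω => dist (s n ω) (0 : ConvexBody V)) μ :=
      (Continuous.dist continuous_id continuous_const).comp_aestronglyMeasurable (hsm n)
    refine (hi'.const_mul 2).mono' h1 (Eventually.of_forall fun ω => ?_)
    rw [Real.norm_of_nonneg dist_nonneg]
    exact hs2 n ω
  -- the approximating bodies converge
  have hdist : Tendsto (fun n => ∫ ω, dist (s n ω) (κ' ω) ∂μ) atTop (𝓝 0) := by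
    have h1 : (∫ _, (0 : ℝ) ∂μ) = 0 := integral_zero _ _
    rw [← h1]
    refine tendsto_integral_of_dominated_convergence (fun ω => 3 * dist (κ' ω) 0) ?_
      (hi'.const_mul 3) ?_ ?_
    · intro n
      exact continuous_dist.comp_aestronglyMeasurable
        ((hsm n).prodMk hmk.aestronglyMeasurable)
    · intro n
      refine Eventually.of_forall fun ω => ?_
      rw [Real.norm_of_nonneg dist_nonneg]
      have h2 := dist_triangle (s n ω) 0 (κ' ω)
      have h3 := hs2 n ω
      rw [dist_comm 0 (κ' ω)] at h2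
      linarith
    · refine Eventually.of_forall fun ω => ?_
      have h2 := (hs1 ω).dist (tendsto_const_nhds (x := κ' ω))
      rwa [dist_self] at h2
  have hconv : Tendsto (fun n => MInt.sbody μ (s n)) atTop (𝓝 K) := by
    rw [tendsto_iff_dist_tendsto_zero]
    refine squeeze_zero (fun _ => dist_nonneg) (fun n => ?_) hdist
    refine dist_le_of_hs (integral_nonneg fun _ => dist_nonneg) fun v => ?_
    rw [MInt.hs_sbody, hK', ← integral_sub (MInt.hs_int (hsm n) (hsi n) v)
      (MInt.hs_int hmk.aestronglyMeasurable hi' v), ← integral_mul_const]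
    refine (abs_integral_le_integral_abs).trans ?_
    refine integral_mono_of_nonneg (Eventually.of_forall fun _ => abs_nonneg _) ?_
      (Eventually.of_forall fun ω => abs_hs_sub_le _ _ _)
    have h4 : Integrable (fun ω => dist (s n ω) (κ' ω)) μ := by
      have h5 : AEStronglyMeasurable (fun ω => dist (s n ω) (κ' ω)) μ :=
        continuous_dist.comp_aestronglyMeasurable ((hsm n).prodMk hmk.aestronglyMeasurable)
      refine (hi'.const_mul 3).mono' h5 (Eventually.of_forall fun ω => ?_)
      rw [Real.norm_of_nonneg dist_nonneg]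
      have h2 := dist_triangle (s n ω) 0 (κ' ω)
      have h3 := hs2 n ω
      rw [dist_comm 0 (κ' ω)] at h2
      linarith
    exact h4.mul_const _
  have hlim1 : Tendsto (fun n => A (MInt.sbody μ (s n))) atTop (𝓝 (A K)) :=
    (hA.cont.tendsto K).comp hconv
  have hlim2 : Tendsto (fun n => ∫ ω, A (s n ω) ∂μ) atTop (𝓝 (∫ ω, A (κ' ω) ∂μ)) := by
    refine tendsto_integral_of_dominated_convergence (fun ω => C * (2 * dist (κ' ω) 0)) ?_
      ((hi'.const_mul 2).const_mul C) ?_ ?_
    · intro n
      exact hA.cont.comp_aestronglyMeasurable (hsm n)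
    · intro n
      refine Eventually.of_forall fun ω => ?_
      rw [Real.norm_eq_abs]
      exact (hb _).trans (mul_le_mul_of_nonneg_left (hs2 n ω) hC)
    · exact Eventually.of_forall fun ω => (hA.cont.tendsto _).comp (hs1 ω)
  have hlim3 : Tendsto (fun n => A (MInt.sbody μ (s n))) atTop (𝓝 (∫ ω, A (κ' ω) ∂μ)) := by
    refine hlim2.congr fun n => ?_
    rw [MInt.A_sbody hA]
  exact tendsto_nhds_unique hlim1 hlim3

namespace MInt

/-- one sided version for the mint with a nonnegative weight -/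
theorem weight (hA : IsAdd A) (μ : Measure Ω) (ρ : Ω → ℝ) (hρ : AEStronglyMeasurable ρ μ)
    (κ : Ω → ConvexBody V) (hκ : AEStronglyMeasurable κ μ)
    (hi : Integrable (fun ω => ρ ω * (1 + dist (κ ω) 0)) μ) :
    ∃ K : ConvexBody V, (∀ v, MV.hs K v = ∫ ω, max (ρ ω) 0 * MV.hs (κ ω) v ∂μ) ∧
      (∀ v, Integrable (fun ω => max (ρ ω) 0 * MV.hs (κ ω) v) μ) ∧
      Integrable (fun ω => max (ρ ω) 0 * A (κ ω)) μ ∧
      A K = ∫ ω, max (ρ ω) 0 * A (κ ω) ∂μ := by
  set f : Ω → ℝ≥0∞ := fun ω => ENNReal.ofReal (ρ ω) with hf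
  have hfm : AEMeasurable f μ := hρ.aemeasurable.ennreal_ofReal
  have hft : ∀ᵐ ω ∂μ, f ω < ∞ := Eventually.of_forall fun ω => ENNReal.ofReal_lt_top
  have hfr : ∀ ω, (f ω).toReal = max (ρ ω) 0 := fun ω => by
    simp only [hf, ENNReal.toReal_ofReal']
  have hdm : AEStronglyMeasurable (fun ω => dist (κ ω) (0 : ConvexBody V)) μ :=
    (Continuous.dist continuous_id continuous_const).comp_aestronglyMeasurable hκ
  have hmax : AEStronglyMeasurable (fun ω => max (ρ ω) 0) μ :=
    (continuous_id.max continuous_const).comp_aestronglyMeasurable hρ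
  have hle : ∀ t : ℝ, |max t 0| ≤ |t| := fun t => by
    rcases le_total t 0 with h | h
    · rw [max_eq_right h, abs_zero]; exact abs_nonneg _
    · rw [max_eq_left h]
  -- integrability transfers
  have key : ∀ g : Ω → ℝ, AEStronglyMeasurable g μ → (∃ c : ℝ, ∀ ω, |g ω| ≤ c * (1 + dist (κ ω) 0)) →
      Integrable (fun ω => max (ρ ω) 0 * g ω) μ := by
    rintro g hg ⟨c, hc⟩
    refine (hi.norm.mul_const c).mono' (hmax.mul hg) (Eventually.of_forall fun ω => ?_)
    have h1 : (0 : ℝ) ≤ 1 + dist (κ ω) 0 := by positivity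
    rw [norm_mul, norm_mul, Real.norm_eq_abs, Real.norm_eq_abs, Real.norm_eq_abs, Real.norm_eq_abs,
      abs_of_nonneg h1]
    calc |max (ρ ω) 0| * |g ω| ≤ |ρ ω| * (c * (1 + dist (κ ω) 0)) :=
          mul_le_mul (hle _) (hc ω) (abs_nonneg _) (abs_nonneg _)
      _ = |ρ ω| * (1 + dist (κ ω) 0) * c := by ring
  set ν : Measure Ω := μ.withDensity f with hν
  have hkey' : ∀ g : Ω → ℝ, Integrable g ν ↔ Integrable (fun ω => max (ρ ω) 0 * g ω) μ := by
    intro g
    rw [hν, integrable_withDensity_iff_integrable_smul₀' hfm hft]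
    simp only [hfr, smul_eq_mul]
  have hint' : ∀ g : Ω → ℝ, ∫ ω, g ω ∂ν = ∫ ω, max (ρ ω) 0 * g ω ∂μ := by
    intro g
    rw [hν, integral_withDensity_eq_integral_toReal_smul₀ hfm hft]
    simp only [hfr, smul_eq_mul]
  have h1 : Integrable (fun _ => (1 : ℝ)) ν := by
    rw [hkey']
    refine key _ aestronglyMeasurable_const ⟨1, fun ω => ?_⟩
    rw [abs_one, one_mul]
    have := dist_nonneg (x := κ ω) (y := (0 : ConvexBody V))
    linarith
  have hfin : IsFiniteMeasure ν := by
    rcases integrable_const_iff.1 h1 with h | h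
    · exact absurd h one_ne_zero
    · exact h
  have hκν : AEStronglyMeasurable κ ν := hκ.mono_ac (withDensity_absolutelyContinuous _ _)
  have hdν : Integrable (fun ω => dist (κ ω) 0) ν := by
    rw [hkey']
    refine key _ hdm ⟨1, fun ω => ?_⟩
    rw [abs_of_nonneg dist_nonneg]
    linarith
  obtain ⟨K, hK⟩ := exists_mint ν κ hκν hdν
  obtain ⟨h2, h3⟩ := hA.mint ν κ hκν hdν K hK
  refine ⟨K, ?_, ?_, ?_, ?_⟩
  · intro v
    rw [hK, hint']
  · intro v
    exact (hkey' _).1 (hs_int hκν hdν v)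
  · exact (hkey' _).1 h2
  · rw [h3, hint']

end MInt

/-- signed version with an arbitrary measure -/
theorem IsAdd.mint_signed (hA : IsAdd A) (μ : Measure Ω) (ρ : Ω → ℝ) (hρ : AEStronglyMeasurable ρ μ)
    (κ : Ω → ConvexBody V) (hκ : AEStronglyMeasurable κ μ)
    (hi : Integrable (fun ω => ρ ω * (1 + dist (κ ω) 0)) μ) :
    IsDiff (fun v => ∫ ω, ρ ω * MV.hs (κ ω) v ∂μ) ∧
    Integrable (fun ω => ρ ω * A (κ ω)) μ ∧
    ext A (fun v => ∫ ω, ρ ω * MV.hs (κ ω) v ∂μ) = ∫ ω, ρ ω * A (κ ω) ∂μ := by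
  obtain ⟨K, hK1, hK2, hK3, hK4⟩ := MInt.weight hA μ ρ hρ κ hκ hi
  obtain ⟨L, hL1, hL2, hL3, hL4⟩ := MInt.weight hA μ (fun ω => -ρ ω) hρ.neg κ hκ (by
    refine hi.neg.congr (Eventually.of_forall fun ω => ?_)
    simp)
  have hdec : ∀ (t x : ℝ), t * x = max t 0 * x - max (-t) 0 * x := by
    intro t x
    rcases le_total t 0 with h | h
    · rw [max_eq_right h, max_eq_left (neg_nonneg.2 h)]; ring
    · rw [max_eq_left h, max_eq_right (neg_nonpos.2 h)]; ring
  have h1 : ∀ v, ∫ ω, ρ ω * MV.hs (κ ω) v ∂μ = MV.hs K v - MV.hs L v := by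
    intro v
    rw [hK1, hL1, ← integral_sub (hK2 v) (hL2 v)]
    exact integral_congr_ae (Eventually.of_forall fun ω => hdec _ _)
  refine ⟨⟨K, L, h1⟩, ?_, ?_⟩
  · refine (hK3.sub hL3).congr (Eventually.of_forall fun ω => ?_)
    exact (hdec _ _).symm
  · rw [ext_eq hA h1, hK4, hL4, ← integral_sub hK3 hL3]
    exact integral_congr_ae (Eventually.of_forall fun ω => (hdec _ _).symm)

end MInt
end MV
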