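import Pool.Agent.Lib.MP_f30071_gt.Poly
import Pool.Agent.Lib.MP_f30071_gt.Sub

/-! ### module MVal: body valued valuations, Gaussian functionals of them -/

open MeasureTheory ProbabilityTheory Filter Topology Set
open scoped InnerProductSpace Pointwise NNReal ENNReal

set_option linter.unusedSectionVars false

namespace MV

section MVal
variable {V : Type*} [NormedAddCommGroup V] [InnerProductSpace ℝ V] [FiniteDimensional ℝ V]
variable {Φ : ConvexBody V → ConvexBody V}

/-- support function of the image as a valuation -/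
noncomputable def FF (Φ : ConvexBody V → ConvexBody V) (y : V) : ConvexBody V → ℝ :=
  fun K => hs (Φ K) y

theorem isVal_FF (hΦ : IsMVal Φ) (y : V) : IsVal (FF Φ y) where
  cont := (continuous_hs_left y).comp hΦ.cont
  val := by
    intro K L M N h1 h2
    have h := congrArg (fun B => hs B y) (hΦ.val K L M N h1 h2)
    simp only [hs_add] at h
    exact h
  trans := by
    intro K x
    unfold FF
    rw [hΦ.trans]

theorem FF_iso (hΦ : IsMVal Φ) (g : V ≃ₗᵢ[ℝ] V) (hg : Rot g) (y : V) (K : ConvexBody V) :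
    FF Φ (g y) (isoB g K) = FF Φ y K := by
  unfold FF
  rw [hΦ.equi g hg, hs_isoB, LinearIsometryEquiv.symm_apply_apply]

/-- free positivity -/
theorem sublin_Ds_FF (hΦ : IsMVal Φ) (xs : List V) (K : ConvexBody V) :
    Sublin (fun y => Ds xs (FF Φ y) K) := by
  constructor
  · intro c v hc
    obtain ⟨m, a, L, h⟩ := Ds_expand xs K
    rw [h, h, Finset.mul_sum]
    refine Finset.sum_congr rfl fun i _ => ?_
    have : FF Φ (c • v) (L i) = c * FF Φ v (L i) := hs_smul_right _ hc _
    rw [this]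
    ring
  · intro v w
    have h0 : IsVal (fun K => (FF Φ v K + FF Φ w K) - FF Φ (v + w) K) :=
      ((isVal_FF hΦ v).add (isVal_FF hΦ w)).sub (isVal_FF hΦ (v + w))
    have h1 := Ds_nonneg h0 (fun K => by
      have := hs_add_right (Φ K) v w
      simp only [FF]
      linarith) xs K
    obtain ⟨m, a, L, h⟩ := Ds_expand xs K
    rw [h] at h1 ⊢
    rw [h (FF Φ v), h (FF Φ w)]
    have h2 : ∑ i, a i * ((FF Φ v (L i) + FF Φ w (L i)) - FF Φ (v + w) (L i))
        = (∑ i, a i * FF Φ v (L i) + ∑ i, a i * FF Φ w (L i)) - ∑ i, a i * FF Φ (v + w) (L i) := by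
      rw [← Finset.sum_add_distrib, ← Finset.sum_sub_distrib]
      refine Finset.sum_congr rfl fun i _ => ?_
      ring
    rw [h2] at h1
    linarith

/-- Lipschitz bound locally uniform in `K` -/
theorem Ds_FF_lip (hΦ : IsMVal Φ) (xs : List V) (K : ConvexBody V) :
    ∃ C : ℝ, 0 ≤ C ∧ (∀ x y, |Ds xs (FF Φ x) K - Ds xs (FF Φ y) K| ≤ C * ‖x - y‖) ∧
      ∀ x, |Ds xs (FF Φ x) K| ≤ C * ‖x‖ :=
  (sublin_Ds_FF hΦ xs K).lip

/-- joint continuity -/
theorem continuous_Ds_FF (hΦ : IsMVal Φ) (xs : List V) :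
    Continuous (fun p : ConvexBody V × V => Ds xs (FF Φ p.2) p.1) := by
  induction xs with
  | nil =>
    show Continuous (fun p : ConvexBody V × V => hs (Φ p.1) p.2)
    exact continuous_hs.comp ((hΦ.cont.comp continuous_fst).prodMk continuous_snd)
  | cons x xs ih =>
    show Continuous (fun p : ConvexBody V × V =>
      Ds xs (FF Φ p.2) (p.1 + seg x) - Ds xs (FF Φ p.2) p.1)
    refine Continuous.sub ?_ ih
    exact ih.comp ((continuous_fst.add continuous_const).prodMk continuous_snd)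

theorem Ds_FF_iso (hΦ : IsMVal Φ) (g : V ≃ₗᵢ[ℝ] V) (hg : Rot g) (xs : List V) (y : V)
    (K : ConvexBody V) : Ds (xs.map g) (FF Φ (g y)) (isoB g K) = Ds xs (FF Φ y) K := by
  rw [← Ds_iso]
  have : (fun L => FF Φ (g y) (isoB g L)) = FF Φ y := by
    funext L
    exact FF_iso hΦ g hg y L
  rw [this]

/-- a sublinear function is bounded by its values at plus and minus an orthonormal basis -/
theorem Sublin.abs_le_basis {f : V → ℝ} (hf : Sublin f) (v : V) :
    |f v| ≤ (∑ i, (|f (stdOrthonormalBasis ℝ V i)| + |f (-(stdOrthonormalBasis ℝ V i))|)) * ‖v‖ := by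
  set b := stdOrthonormalBasis ℝ V
  have key : ∀ v : V, f v ≤ (∑ i, (|f (b i)| + |f (-(b i))|)) * ‖v‖ := by
    intro v
    conv_lhs => rw [← b.sum_repr v]
    refine (hf.sum_le _ _).trans ?_
    rw [Finset.sum_mul]
    apply Finset.sum_le_sum
    intro i _
    have h1 : |b.repr v i| ≤ ‖v‖ := by
      rw [b.repr_apply_apply]
      have := abs_real_inner_le_norm (b i) v
      rwa [b.orthonormal.1 i, one_mul] at this
    rcases le_total 0 (b.repr v i) with h | h
    · rw [hf.hom _ _ h]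
      rw [abs_of_nonneg h] at h1
      have h2 : b.repr v i * f (b i) ≤ b.repr v i * |f (b i)| :=
        mul_le_mul_of_nonneg_left (le_abs_self _) h
      have h3 : b.repr v i * |f (b i)| ≤ ‖v‖ * |f (b i)| :=
        mul_le_mul_of_nonneg_right h1 (abs_nonneg _)
      have h4 : 0 ≤ |f (-(b i))| * ‖v‖ := by positivity
      nlinarith
    · have h5 : b.repr v i • b i = (-(b.repr v i)) • (-(b i)) := by simp
      rw [h5, hf.hom _ _ (by linarith)]
      rw [abs_of_nonpos h] at h1
      have h2 : -(b.repr v i) * f (-(b i)) ≤ -(b.repr v i) * |f (-(b i))| :=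
        mul_le_mul_of_nonneg_left (le_abs_self _) (by linarith)
      have h3 : -(b.repr v i) * |f (-(b i))| ≤ ‖v‖ * |f (-(b i))| :=
        mul_le_mul_of_nonneg_right h1 (abs_nonneg _)
      have h4 : 0 ≤ |f (b i)| * ‖v‖ := by positivity
      nlinarith
  rw [abs_le]
  constructor
  · have h1 := key (-v)
    rw [norm_neg] at h1
    have h2 := hf.sub v (-v)
    rw [add_neg_cancel, hf.zero'] at h2
    linarith
  · exact key v

/-- polynomial growth of a body valued valuation -/
theorem IsMVal.bound (hΦ : IsMVal Φ) :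
    ∃ C : ℝ, 0 ≤ C ∧ ∀ K, dist (Φ K) 0 ≤ C * (1 + dist K 0) ^ Module.finrank ℝ V := by
  set b := stdOrthonormalBasis ℝ V
  choose Cp hCp0 hCp using fun i => (isVal_FF hΦ (b i)).bound
  choose Cm hCm0 hCm using fun i => (isVal_FF hΦ (-(b i))).bound
  refine ⟨∑ i, (Cp i + Cm i), Finset.sum_nonneg fun i _ => add_nonneg (hCp0 i) (hCm0 i), ?_⟩
  intro K
  apply dist_le_of_hs
  · have : 0 ≤ ∑ i, (Cp i + Cm i) := Finset.sum_nonneg fun i _ => add_nonneg (hCp0 i) (hCm0 i)
    positivity
  · intro v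
    rw [hs_zero, sub_zero]
    refine ((hs_sublin (Φ K)).abs_le_basis v).trans ?_
    refine mul_le_mul_of_nonneg_right ?_ (norm_nonneg v)
    rw [Finset.sum_mul]
    refine Finset.sum_le_sum fun i _ => ?_
    rw [add_mul]
    exact add_le_add (hCp i K) (hCm i K)

variable [MeasurableSpace V] [BorelSpace V]

/-- integrals of valuations: general principle -/
theorem isVal_integral {Ω : Type*} [MeasurableSpace Ω] (μ : Measure Ω)
    (φ : Ω → ConvexBody V → ℝ) (h : ∀ ω, IsVal (φ ω))
    (hm : ∀ K, AEStronglyMeasurable (fun ω => φ ω K) μ)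
    (hb : ∀ R : ℝ, ∃ b : Ω → ℝ, Integrable b μ ∧ ∀ ω K, dist K 0 ≤ R → |φ ω K| ≤ b ω) :
    IsVal (fun K => ∫ ω, φ ω K ∂μ) := by
  have hint : ∀ K, Integrable (fun ω => φ ω K) μ := by
    intro K
    obtain ⟨b, hb1, hb2⟩ := hb (dist K 0)
    exact Integrable.mono' hb1 (hm K) (Eventually.of_forall fun ω => hb2 ω K le_rfl)
  constructor
  · rw [continuous_iff_continuousAt]
    intro K
    obtain ⟨b, hb1, hb2⟩ := hb (dist K 0 + 1)
    refine continuousAt_of_dominated (bound := b) (Eventually.of_forall hm) ?_ hb1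
      (Eventually.of_forall fun ω => (h ω).cont.continuousAt)
    filter_upwards [Metric.ball_mem_nhds K one_pos] with L hL
    refine Eventually.of_forall fun ω => hb2 ω L ?_
    have h1 := dist_triangle L K 0
    have h2 : dist L K < 1 := hL
    linarith
  · intro K L M N h1 h2
    rw [← integral_add (hint M) (hint N), ← integral_add (hint K) (hint L)]
    refine integral_congr_ae (Eventually.of_forall fun ω => ?_)
    exact (h ω).val K L M N h1 h2
  · intro K x
    simp only [(h _).trans]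

/-- value of the support function of the image, uniformly on bounded sets -/
theorem IsMVal.abs_hs_le (hΦ : IsMVal Φ) (R : ℝ) :
    ∃ C : ℝ, 0 ≤ C ∧ ∀ K, dist K 0 ≤ R → ∀ v, |hs (Φ K) v| ≤ C * ‖v‖ := by
  obtain ⟨C, hC0, hC⟩ := hΦ.bound
  refine ⟨C * (1 + |R|) ^ Module.finrank ℝ V, by positivity, ?_⟩
  intro K hK v
  refine (MV.abs_hs_le (Φ K) v).trans (mul_le_mul_of_nonneg_right ?_ (norm_nonneg v))
  refine (hC K).trans (mul_le_mul_of_nonneg_left ?_ hC0)
  have h0 : 0 ≤ dist K 0 := dist_nonneg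
  have h1 : 1 + dist K 0 ≤ 1 + |R| := by
    have := le_abs_self R
    linarith
  exact pow_le_pow_left₀ (by linarith) h1 _

theorem isVal_Nt (hΦ : IsMVal Φ) (t : ℝ) (u : V) : IsVal (fun K => Nt t u (hs (Φ K))) := by
  unfold Nt
  refine IsVal.const_mul (1 / t) ?_
  refine isVal_integral (stdGaussian V) (fun z K => hs (Φ K) (prj u z + t • u)
    + hs (Φ K) (prj u z - t • u) - 2 * hs (Φ K) (prj u z)) ?_ ?_ ?_
  · intro z
    exact ((isVal_FF hΦ _).add (isVal_FF hΦ _)).sub ((isVal_FF hΦ _).const_mul 2)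
  · intro K
    have hc := continuous_hs_right (Φ K)
    have hp := prj_continuous (V := V) u
    refine Continuous.aestronglyMeasurable ?_
    exact ((hc.comp (hp.add continuous_const)).add (hc.comp (hp.sub continuous_const))).sub
      (continuous_const.mul (hc.comp hp))
  · intro R
    obtain ⟨C, hC0, hC⟩ := hΦ.abs_hs_le R
    refine ⟨fun z => C * (‖z‖ + ‖t • u‖) + C * (‖z‖ + ‖t • u‖) + 2 * (C * ‖z‖), ?_, ?_⟩
    · have h1 : Integrable (fun z : V => ‖z‖) (stdGaussian V) := integrable_norm_gauss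
      have h2 : Integrable (fun z : V => C * (‖z‖ + ‖t • u‖)) (stdGaussian V) :=
        (h1.add (integrable_const _)).const_mul C
      exact (h2.add h2).add ((h1.const_mul C).const_mul 2)
    · intro z K hK
      have h0 := norm_prj_le u z
      have h1 := hC K hK (prj u z + t • u)
      have h2 := hC K hK (prj u z - t • u)
      have h3 := hC K hK (prj u z)
      have h4 : ‖prj u z + t • u‖ ≤ ‖z‖ + ‖t • u‖ := (norm_add_le _ _).trans (by linarith)
      have h5 : ‖prj u z - t • u‖ ≤ ‖z‖ + ‖t • u‖ := (norm_sub_le _ _).trans (by linarith)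
      have h6 := mul_le_mul_of_nonneg_left h4 hC0
      have h7 := mul_le_mul_of_nonneg_left h5 hC0
      have h8 := mul_le_mul_of_nonneg_left h0 hC0
      simp only
      rw [abs_le] at h1 h2 h3 ⊢
      constructor <;> linarith [h1.1, h1.2, h2.1, h2.2, h3.1, h3.2]

theorem isVal_Mt (hΦ : IsMVal Φ) (t : ℝ) (u : V) : IsVal (fun K => Mt t u (hs (Φ K))) := by
  unfold Mt
  refine IsVal.const_mul (1 / t) ?_
  refine isVal_integral (stdGaussian V) (fun z K => hs (Φ K) (u + t • prj u z)
    - hs (Φ K) u) ?_ ?_ ?_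
  · intro z
    exact (isVal_FF hΦ _).sub (isVal_FF hΦ _)
  · intro K
    have hc := continuous_hs_right (Φ K)
    have hp := prj_continuous (V := V) u
    refine Continuous.aestronglyMeasurable ?_
    exact (hc.comp (continuous_const.add (hp.const_smul t))).sub continuous_const
  · intro R
    obtain ⟨C, hC0, hC⟩ := hΦ.abs_hs_le R
    refine ⟨fun z => C * (‖u‖ + |t| * ‖z‖) + C * ‖u‖, ?_, ?_⟩
    · have h1 : Integrable (fun z : V => ‖z‖) (stdGaussian V) := integrable_norm_gauss
      exact (((integrable_const _).add (h1.const_mul _)).const_mul C).add (integrable_const _)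
    · intro z K hK
      have h0 := norm_prj_le u z
      have h1 := hC K hK (u + t • prj u z)
      have h2 := hC K hK u
      have h4 : ‖u + t • prj u z‖ ≤ ‖u‖ + |t| * ‖z‖ := (norm_add_le _ _).trans (by
        rw [norm_smul, Real.norm_eq_abs]
        have := mul_le_mul_of_nonneg_left h0 (abs_nonneg t)
        linarith)
      have h6 := mul_le_mul_of_nonneg_left h4 hC0
      simp only
      rw [abs_le] at h1 h2 ⊢
      constructor <;> linarith [h1.1, h1.2, h2.1, h2.2]

theorem isVal_wd (hΦ : IsMVal Φ) : IsVal (fun K => wd (hs (Φ K))) := by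
  unfold wd
  refine isVal_integral (stdGaussian V) (fun z K => hs (Φ K) z) ?_ ?_ ?_
  · intro z
    exact isVal_FF hΦ z
  · intro K
    exact (continuous_hs_right (Φ K)).aestronglyMeasurable
  · intro R
    obtain ⟨C, hC0, hC⟩ := hΦ.abs_hs_le R
    exact ⟨fun z => C * ‖z‖, integrable_norm_gauss.const_mul C, fun z K hK => hC K hK z⟩

/-- linearity of `wd` on support functions -/
theorem wd_sum_hs {ι : Type*} (s : Finset ι) (c : ι → ℝ) (L : ι → ConvexBody V) :
    wd (fun v => ∑ i ∈ s, c i * hs (L i) v) = ∑ i ∈ s, c i * wd (hs (L i)) := by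
  unfold wd
  rw [integral_finsetSum _ (fun i _ => ((hs_sublin (L i)).integrable).const_mul _)]
  refine Finset.sum_congr rfl fun i _ => ?_
  rw [integral_const_mul]

theorem Nt_sum_hs {ι : Type*} (s : Finset ι) (c : ι → ℝ) (L : ι → ConvexBody V) (t : ℝ) (u : V) :
    Nt t u (fun v => ∑ i ∈ s, c i * hs (L i) v) = ∑ i ∈ s, c i * Nt t u (hs (L i)) := by
  refine Nt_sum s c (fun i => hs (L i)) (fun i _ => continuous_hs_right (L i))
    (∑ i ∈ s, dist (L i) 0) ?_ t u
  intro i hi x
  refine (MV.abs_hs_le (L i) x).trans ?_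
  have h1 : dist (L i) 0 ≤ ∑ i ∈ s, dist (L i) 0 :=
    Finset.single_le_sum (f := fun i => dist (L i) 0) (fun _ _ => dist_nonneg) hi
  have h2 : 0 ≤ dist (L i) 0 := dist_nonneg
  have h3 := norm_nonneg x
  nlinarith

theorem Mt_sum_hs {ι : Type*} (s : Finset ι) (c : ι → ℝ) (L : ι → ConvexBody V) (t : ℝ) (u : V) :
    Mt t u (fun v => ∑ i ∈ s, c i * hs (L i) v) = ∑ i ∈ s, c i * Mt t u (hs (L i)) := by
  refine Mt_sum s c (fun i => hs (L i)) (fun i _ => continuous_hs_right (L i))
    (∑ i ∈ s, dist (L i) 0) ?_ t u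
  intro i hi x
  refine (MV.abs_hs_le (L i) x).trans ?_
  have h1 : dist (L i) 0 ≤ ∑ i ∈ s, dist (L i) 0 :=
    Finset.single_le_sum (f := fun i => dist (L i) 0) (fun _ _ => dist_nonneg) hi
  have h2 : 0 ≤ dist (L i) 0 := dist_nonneg
  have h3 := norm_nonneg x
  nlinarith

theorem Ds_Nt (_hΦ : IsMVal Φ) (t : ℝ) (u : V) (xs : List V) (K : ConvexBody V) :
    Ds xs (fun L => Nt t u (hs (Φ L))) K = Nt t u (fun y => Ds xs (FF Φ y) K) := by
  obtain ⟨m, a, L, h⟩ := Ds_expand xs K
  simp only [h, FF]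
  exact (Nt_sum_hs Finset.univ a (fun i => Φ (L i)) t u).symm

theorem Ds_Mt (_hΦ : IsMVal Φ) (t : ℝ) (u : V) (xs : List V) (K : ConvexBody V) :
    Ds xs (fun L => Mt t u (hs (Φ L))) K = Mt t u (fun y => Ds xs (FF Φ y) K) := by
  obtain ⟨m, a, L, h⟩ := Ds_expand xs K
  simp only [h, FF]
  exact (Mt_sum_hs Finset.univ a (fun i => Φ (L i)) t u).symm

theorem Ds_wd (_hΦ : IsMVal Φ) (xs : List V) (K : ConvexBody V) :
    Ds xs (fun L => wd (hs (Φ L))) K = wd (fun y => Ds xs (FF Φ y) K) := by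
  obtain ⟨m, a, L, h⟩ := Ds_expand xs K
  simp only [h, FF]
  exact (wd_sum_hs Finset.univ a (fun i => Φ (L i))).symm

theorem comp_Nt (_hΦ : IsMVal Φ) (t : ℝ) (u : V) (j : ℕ) (K : ConvexBody V) :
    comp j (fun L => Nt t u (hs (Φ L))) K = Nt t u (fun y => comp j (FF Φ y) K) := by
  unfold comp
  simp only [FF]
  exact (Nt_sum_hs _ (fun k => lc (Module.finrank ℝ V) j k) (fun k => Φ ((k : ℝ) • K)) t u).symm

theorem comp_Mt (_hΦ : IsMVal Φ) (t : ℝ) (u : V) (j : ℕ) (K : ConvexBody V) :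
    comp j (fun L => Mt t u (hs (Φ L))) K = Mt t u (fun y => comp j (FF Φ y) K) := by
  unfold comp
  simp only [FF]
  exact (Mt_sum_hs _ (fun k => lc (Module.finrank ℝ V) j k) (fun k => Φ ((k : ℝ) • K)) t u).symm

theorem comp_wd (_hΦ : IsMVal Φ) (j : ℕ) (K : ConvexBody V) :
    comp j (fun L => wd (hs (Φ L))) K = wd (fun y => comp j (FF Φ y) K) := by
  unfold comp
  simp only [FF]
  exact (wd_sum_hs _ (fun k => lc (Module.finrank ℝ V) j k) (fun k => Φ ((k : ℝ) • K))).symm

theorem zonal_Nt (hΦ : IsMVal Φ) (t : ℝ) (u : V) : Zonal u (fun K => Nt t u (hs (Φ K))) := by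
  intro g hg hgu K
  simp only
  have h1 : hs (Φ (isoB g K)) = fun v => hs (Φ K) (g.symm v) := by
    funext v
    rw [hΦ.equi g hg, hs_isoB]
  rw [h1]
  have h2 := Nt_isom g t u (hs (Φ K))
  rw [hgu] at h2
  exact h2

theorem zonal_Mt (hΦ : IsMVal Φ) (t : ℝ) (u : V) : Zonal u (fun K => Mt t u (hs (Φ K))) := by
  intro g hg hgu K
  simp only
  have h1 : hs (Φ (isoB g K)) = fun v => hs (Φ K) (g.symm v) := by
    funext v
    rw [hΦ.equi g hg, hs_isoB]
  rw [h1]
  have h2 := Mt_isom g t u (hs (Φ K))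
  rw [hgu] at h2
  exact h2

theorem Nt_hs_bound (M : ConvexBody V) {t : ℝ} (ht : 0 < t) {u : V} (hu : ‖u‖ = 1) :
    |Nt t u (hs M)| ≤ 2 * dist M 0 := by
  have := Nt_bound (hs_sublin M) (dist M 0) (fun x y => hs_lip M x y) u ht
  rwa [hu, mul_one] at this

theorem dist_smul_zero_le (c : ℝ) (K : ConvexBody V) : dist (c • K) 0 ≤ |c| * dist K 0 := by
  have h := dist_smul_le c c K 0
  rw [smul_zero, sub_self, abs_zero, zero_mul, zero_add] at h
  exact h

/-- uniform bounds for `0 < t ≤ 1` -/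
theorem comp_Nt_bound (hΦ : IsMVal Φ) (j : ℕ) (hj : j ≤ Module.finrank ℝ V) :
    ∃ C : ℝ, 0 ≤ C ∧ ∀ t : ℝ, 0 < t → ∀ u : V, ‖u‖ = 1 → ∀ K,
      |comp j (fun L => Nt t u (hs (Φ L))) K| ≤ C * dist K 0 ^ j := by
  obtain ⟨C, hC0, hC⟩ := hΦ.bound
  set n := Module.finrank ℝ V with hn
  set C1 : ℝ := ∑ k ∈ Finset.range (n + 1), |lc n j k| * (2 * (C * (1 + (k : ℝ)) ^ n)) with hC1
  have hC10 : 0 ≤ C1 := Finset.sum_nonneg fun k _ => by positivity
  refine ⟨C1, hC10, ?_⟩
  intro t ht u hu K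
  have hval := isVal_Nt hΦ t u
  have hhom := comp_isHom hval hj
  have key : ∀ L : ConvexBody V, dist L 0 ≤ 1 →
      |comp j (fun L => Nt t u (hs (Φ L))) L| ≤ C1 := by
    intro L hL
    unfold comp
    refine (Finset.abs_sum_le_sum_abs _ _).trans (Finset.sum_le_sum fun k _ => ?_)
    rw [abs_mul]
    refine mul_le_mul_of_nonneg_left ?_ (abs_nonneg _)
    refine (Nt_hs_bound _ ht hu).trans ?_
    refine mul_le_mul_of_nonneg_left ?_ (by norm_num)
    refine (hC _).trans (mul_le_mul_of_nonneg_left ?_ hC0)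
    have h1 := dist_smul_zero_le (k : ℝ) L
    rw [Nat.abs_cast] at h1
    have h2 : (k : ℝ) * dist L 0 ≤ k * 1 := mul_le_mul_of_nonneg_left hL (by positivity)
    have h3 : 0 ≤ dist ((k : ℝ) • L) 0 := dist_nonneg
    exact pow_le_pow_left₀ (by linarith) (by linarith) _
  rcases (dist_nonneg (x := K) (y := 0)).eq_or_lt with h0 | h0
  · rcases Nat.eq_zero_or_pos j with hj0 | hj0
    · subst hj0
      rw [pow_zero, mul_one]
      exact key K (by rw [← h0]; norm_num)
    · have hK : K = 0 := dist_eq_zero.1 h0.symm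
      have h1 := hhom 0 K le_rfl
      rw [zero_smul_body, zero_pow hj0.ne', zero_mul] at h1
      rw [hK, h1, abs_zero]
      positivity
  · set r := dist K 0 with hr
    have h1 := hhom r (r⁻¹ • K) h0.le
    rw [smul_smul, mul_inv_cancel₀ h0.ne', one_smul] at h1
    rw [h1, abs_mul, abs_of_nonneg (by positivity : 0 ≤ r ^ j), mul_comm]
    refine mul_le_mul_of_nonneg_right (key _ ?_) (by positivity)
    refine (dist_smul_zero_le _ _).trans ?_
    rw [← hr, abs_of_pos (by positivity : 0 < r⁻¹), inv_mul_cancel₀ h0.ne']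

end MVal
end MV
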