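import Pool.Agent.Lib.MP_f30071_gt.PolyA

/-! MP_f30071_gt, module Poly: the McMullen decomposition of a continuous translation invariant
valuation, homogeneous components, directional derivatives. -/

open MeasureTheory ProbabilityTheory Filter Topology Set
open scoped InnerProductSpace Pointwise NNReal ENNReal

namespace MV

set_option linter.unusedSectionVars false
set_option linter.unusedVariables false
set_option linter.unusedSimpArgs false

section Poly
variable {V : Type*} [NormedAddCommGroup V] [InnerProductSpace ℝ V] [FiniteDimensional ℝ V]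
variable {φ ψ : ConvexBody V → ℝ}

theorem lc_natDegree_le {n k : ℕ} (hk : k ∈ Finset.range (n + 1)) :
    (Lagrange.basis (Finset.range (n + 1)) (fun i : ℕ => (i : ℝ)) k).natDegree ≤ n := by
  rw [Polynomial.natDegree_le_iff_degree_le]
  have h := Lagrange.degree_basis (s := Finset.range (n + 1)) (v := fun i : ℕ => (i : ℝ))
    (i := k) (Nat.cast_injective.injOn) hk
  rw [h]; simp

theorem lc_eq_zero {n j k : ℕ} (hk : k ∈ Finset.range (n + 1)) (h : n < j) : lc n j k = 0 :=
  Polynomial.coeff_eq_zero_of_natDegree_lt (lt_of_le_of_lt (lc_natDegree_le hk) h)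

theorem sum_lc_pow {n k : ℕ} (hk : k ∈ Finset.range (n + 1)) (c : ℝ) :
    ∑ j ∈ Finset.range (n + 1), c ^ j * lc n j k =
      (Lagrange.basis (Finset.range (n + 1)) (fun i : ℕ => (i : ℝ)) k).eval c := by
  rw [Polynomial.eval_eq_sum_range' (lt_of_le_of_lt (lc_natDegree_le hk) (Nat.lt_succ_self n))]
  exact Finset.sum_congr rfl fun j _ => by rw [lc, mul_comm]

theorem mcmullen (hφ : IsVal φ) {c : ℝ} (hc : 0 ≤ c) (K : ConvexBody V) :
    φ (c • K) = ∑ j ∈ Finset.range (Module.finrank ℝ V + 1), c ^ j * comp j φ K := by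
  rw [mcmullen_lag hφ hc K]
  simp only [comp, Finset.mul_sum]
  rw [Finset.sum_comm]
  refine Finset.sum_congr rfl fun k hk => ?_
  rw [← sum_lc_pow hk c, Finset.sum_mul]
  exact Finset.sum_congr rfl fun j _ => by ring

theorem mcmullen_add (hφ : IsVal φ) {c : ℝ} (hc : 0 ≤ c) (K L : ConvexBody V) :
    φ (K + c • L) = ∑ j ∈ Finset.range (Module.finrank ℝ V + 1), c ^ j * cof j L φ K := by
  have h : φ (c • L + K) = _ := mcmullen (hφ.shift K) hc L
  rw [add_comm, h]
  refine Finset.sum_congr rfl fun j _ => ?_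
  congr 1
  simp only [comp, cof]
  exact Finset.sum_congr rfl fun k _ => by rw [add_comm]

/-- Lagrange coefficients pick the coefficients of polynomials of degree at most `n` -/
theorem lc_pow {n i j : ℕ} (hi : i ≤ n) (hj : j ≤ n) :
    ∑ k ∈ Finset.range (n + 1), lc n j k * (k : ℝ) ^ i = if i = j then 1 else 0 := by
  have hinj : Set.InjOn (fun i : ℕ => (i : ℝ)) (Finset.range (n + 1) : Set ℕ) :=
    Nat.cast_injective.injOn
  have hdeg : (Polynomial.X ^ i : Polynomial ℝ).degree < (Finset.range (n + 1)).card := by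
    rw [Polynomial.degree_X_pow, Finset.card_range]; exact_mod_cast Nat.lt_succ_of_le hi
  have h := Lagrange.eq_interpolate (s := Finset.range (n + 1)) (v := fun i : ℕ => (i : ℝ))
    hinj hdeg
  have h2 := congrArg (fun p : Polynomial ℝ => p.coeff j) h
  simp only [Lagrange.interpolate_apply, Polynomial.finsetSum_coeff, Polynomial.coeff_C_mul,
    Polynomial.eval_pow, Polynomial.eval_X, Polynomial.coeff_X_pow] at h2
  rw [show (if i = j then (1 : ℝ) else 0) = if j = i then 1 else 0 by simp [eq_comm], h2]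
  exact Finset.sum_congr rfl fun k _ => by rw [lc, mul_comm]

theorem sum_lc_poly {n : ℕ} (a : ℕ → ℝ) {j : ℕ} (hj : j ≤ n) :
    ∑ k ∈ Finset.range (n + 1), lc n j k * ∑ i ∈ Finset.range (n + 1), (k : ℝ) ^ i * a i
      = a j := by
  simp only [Finset.mul_sum]
  rw [Finset.sum_comm]
  have : ∀ i ∈ Finset.range (n + 1),
      ∑ k ∈ Finset.range (n + 1), lc n j k * ((k : ℝ) ^ i * a i) = if i = j then a i else 0 := by
    intro i hi
    have h := lc_pow (n := n) (i := i) (j := j) (by simpa [Nat.lt_succ_iff] using hi) hj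
    have : ∑ k ∈ Finset.range (n + 1), lc n j k * ((k : ℝ) ^ i * a i) =
        (∑ k ∈ Finset.range (n + 1), lc n j k * (k : ℝ) ^ i) * a i := by
      rw [Finset.sum_mul]; exact Finset.sum_congr rfl fun k _ => by ring
    rw [this, h]; split_ifs <;> simp
  rw [Finset.sum_congr rfl this]
  simp [Nat.lt_succ_iff, hj]

theorem comp_eq_of_poly {a : ℕ → ℝ} {K : ConvexBody V}
    (h : ∀ c : ℝ, 0 ≤ c → φ (c • K) = ∑ j ∈ Finset.range (Module.finrank ℝ V + 1), c ^ j * a j)
    {j : ℕ} (hj : j ≤ Module.finrank ℝ V) : comp j φ K = a j := by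
  simp only [comp]
  rw [← sum_lc_poly a hj]
  exact Finset.sum_congr rfl fun k _ => by rw [h k (Nat.cast_nonneg k)]

theorem cof_eq_of_poly {a : ℕ → ℝ} {K L : ConvexBody V}
    (h : ∀ c : ℝ, 0 ≤ c → φ (K + c • L) =
      ∑ j ∈ Finset.range (Module.finrank ℝ V + 1), c ^ j * a j)
    {j : ℕ} (hj : j ≤ Module.finrank ℝ V) : cof j L φ K = a j := by
  simp only [cof]
  rw [← sum_lc_poly a hj]
  exact Finset.sum_congr rfl fun k _ => by rw [h k (Nat.cast_nonneg k)]

theorem isVal_cof (hφ : IsVal φ) (j : ℕ) (L : ConvexBody V) : IsVal (cof j L φ) :=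
  IsVal.sum _ _ fun k _ => (hφ.shift ((k : ℝ) • L)).const_mul _

theorem mapB_smul_id (c : ℝ) (K : ConvexBody V) :
    mapB (c • ContinuousLinearMap.id ℝ V) K = c • K := by
  apply SetLike.coe_injective
  ext x
  simp [mapB, Set.mem_smul_set]

theorem isVal_smul (hφ : IsVal φ) (c : ℝ) : IsVal (fun K => φ (c • K)) := by
  have h := hφ.pull (c • ContinuousLinearMap.id ℝ V)
  simpa only [mapB_smul_id] using h

theorem isVal_comp (hφ : IsVal φ) (j : ℕ) : IsVal (comp j φ) :=
  IsVal.sum _ _ fun k _ => (isVal_smul hφ (k : ℝ)).const_mul _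

theorem comp_isHom (hφ : IsVal φ) {j : ℕ} (hj : j ≤ Module.finrank ℝ V) :
    IsHom j (comp j φ) := by
  intro c K hc
  refine comp_eq_of_poly (a := fun i => c ^ i * comp i φ K) (fun t ht => ?_) hj
  rw [smul_smul, mcmullen hφ (mul_nonneg ht hc)]
  exact Finset.sum_congr rfl fun i _ => by rw [mul_pow]; ring

theorem sum_comp (hφ : IsVal φ) (K : ConvexBody V) :
    φ K = ∑ j ∈ Finset.range (Module.finrank ℝ V + 1), comp j φ K := by
  have h := mcmullen hφ zero_le_one K
  simpa using h

theorem comp_of_isHom (hφ : IsVal φ) {i j : ℕ} (hi : IsHom i φ) (h : i ≤ Module.finrank ℝ V)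
    (hj : j ≤ Module.finrank ℝ V) (K : ConvexBody V) :
    MV.comp j φ K = if j = i then φ K else 0 := by
  refine comp_eq_of_poly (a := fun j => if j = i then φ K else 0) (fun c hc => ?_) hj
  rw [hi c K hc]
  simp [Nat.lt_succ_iff, h]

/-- homogeneous of degree larger than the dimension implies zero -/
theorem eq_zero_of_isHom_gt (hφ : IsVal φ) {i : ℕ} (hi : IsHom i φ) (h : Module.finrank ℝ V < i)
    (K : ConvexBody V) : φ K = 0 := by
  classical
  set n := Module.finrank ℝ V
  let P : Polynomial ℝ := Polynomial.C (φ K) * Polynomial.X ^ i -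
    ∑ j ∈ Finset.range (n + 1), Polynomial.C (comp j φ K) * Polynomial.X ^ j
  have hP : P = 0 := by
    apply Polynomial.eq_zero_of_infinite_isRoot
    refine (Set.Ici_infinite (0 : ℝ)).mono fun c hc => ?_
    have h1 := hi c K hc
    have h2 := mcmullen hφ (show (0 : ℝ) ≤ c from hc) K
    simp only [P, Set.mem_ofPred_eq, Polynomial.IsRoot.def, Polynomial.eval_sub,
      Polynomial.eval_mul, Polynomial.eval_C, Polynomial.eval_pow, Polynomial.eval_X,
      Polynomial.eval_finsetSum]
    rw [mul_comm, ← h1, h2, sub_eq_zero]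
    exact Finset.sum_congr rfl fun j _ => mul_comm _ _
  have h3 := congrArg (fun p : Polynomial ℝ => p.coeff i) hP
  simp only [P, Polynomial.coeff_sub, Polynomial.coeff_C_mul, Polynomial.coeff_X_pow,
    Polynomial.finsetSum_coeff, Polynomial.coeff_zero, if_true, mul_one] at h3
  rw [Finset.sum_eq_zero, sub_zero] at h3
  · exact h3
  · intro j hj
    rw [if_neg, mul_zero]
    have := Finset.mem_range.1 hj
    omega

theorem comp_zero (hφ : IsVal φ) (K : ConvexBody V) : MV.comp 0 φ K = φ 0 := by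
  have h := mcmullen hφ (le_refl (0 : ℝ)) K
  rw [zero_smul_body, Finset.sum_range_succ'] at h
  simp only [pow_zero, one_mul] at h
  rw [h, Finset.sum_eq_zero, zero_add]
  intro j _; rw [zero_pow (Nat.succ_ne_zero j), zero_mul]

theorem IsHom.zero_body {j : ℕ} (hj : IsHom (j + 1) φ) : φ 0 = 0 := by
  have h := hj 0 0 le_rfl
  rwa [smul_zero_body, zero_pow (Nat.succ_ne_zero j), zero_mul] at h

theorem IsHom.deg_zero (hφ : IsVal φ) (h : IsHom 0 φ) (K : ConvexBody V) : φ K = φ 0 := by
  have h := h 0 K le_rfl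
  rw [zero_smul_body, pow_zero, one_mul] at h
  exact h.symm

theorem comp_sum' {ι : Type*} (s : Finset ι) (f : ι → ConvexBody V → ℝ) (j : ℕ)
    (K : ConvexBody V) :
    MV.comp j (fun L => ∑ i ∈ s, f i L) K = ∑ i ∈ s, MV.comp j (f i) K := by
  simp only [comp, Finset.mul_sum]
  rw [Finset.sum_comm]

theorem Ds_eq_sum (hφ : IsVal φ) (xs : List V) :
    MV.Ds xs φ = fun K => ∑ i ∈ Finset.range (Module.finrank ℝ V + 1),
      MV.Ds xs (MV.comp i φ) K := by
  funext K
  have h := Ds_sum (Finset.range (Module.finrank ℝ V + 1)) (fun _ => (1 : ℝ))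
    (fun i => MV.comp i φ) xs K
  simp only [one_mul] at h
  rw [← h]
  congr 1
  funext L
  exact sum_comp hφ L

theorem comp_Ds_comp (hφ : IsVal φ) (xs : List V) {i j : ℕ} (hi : i ≤ Module.finrank ℝ V)
    (hj : j ≤ Module.finrank ℝ V) (K : ConvexBody V) :
    MV.comp j (MV.Ds xs (MV.comp i φ)) K =
      if i = j + xs.length then MV.Ds xs (MV.comp i φ) K else 0 := by
  have hv : IsVal (MV.Ds xs (MV.comp i φ)) := isVal_Ds (isVal_comp hφ i) xs
  rcases lt_or_ge i xs.length with hlt | hge
  · have h0 : ∀ K, MV.Ds xs (MV.comp i φ) K = 0 := fun K =>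
      Ds_hom_lt (isVal_comp hφ i) xs (comp_isHom hφ hi) hlt K
    rw [if_neg (by omega)]
    simp [comp, h0]
  · obtain ⟨m, rfl⟩ := Nat.exists_eq_add_of_le hge
    have hh : IsHom m (MV.Ds xs (MV.comp (xs.length + m) φ)) := by
      refine Ds_hom (isVal_comp hφ _) xs ?_
      rw [add_comm]
      exact comp_isHom hφ hi
    rw [comp_of_isHom hv hh (by omega) hj]
    by_cases hjm : j = m
    · rw [if_pos hjm, if_pos (by omega)]
    · rw [if_neg hjm, if_neg (by omega)]

/-- degree `j` component of `Ds xs φ` -/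
theorem Ds_comp (hφ : IsVal φ) (xs : List V) (j : ℕ) (h : j + xs.length ≤ Module.finrank ℝ V)
    (K : ConvexBody V) : MV.comp j (MV.Ds xs φ) K = MV.Ds xs (MV.comp (j + xs.length) φ) K := by
  rw [Ds_eq_sum hφ xs, comp_sum']
  rw [Finset.sum_congr rfl (g := fun i => if i = j + xs.length then
    MV.Ds xs (MV.comp i φ) K else 0)]
  · simp [Nat.lt_succ_iff, h]
  · intro i hi
    exact comp_Ds_comp hφ xs (Nat.lt_succ_iff.1 (Finset.mem_range.1 hi)) (by omega) K

/-- components above `n - length xs` vanish -/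
theorem Ds_comp_zero (hφ : IsVal φ) (xs : List V) (j : ℕ) (h : Module.finrank ℝ V < j + xs.length)
    (hj : j ≤ Module.finrank ℝ V)
    (K : ConvexBody V) : MV.comp j (MV.Ds xs φ) K = 0 := by
  rw [Ds_eq_sum hφ xs, comp_sum']
  refine Finset.sum_eq_zero fun i hi => ?_
  rw [comp_Ds_comp hφ xs (Nat.lt_succ_iff.1 (Finset.mem_range.1 hi)) hj K, if_neg]
  have := Finset.mem_range.1 hi
  omega

/-! derivatives -/

theorem cof_zero (hφ : IsVal φ) (L K : ConvexBody V) : MV.cof 0 L φ K = φ K := by
  have h := mcmullen_add hφ (le_refl (0 : ℝ)) K L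
  rw [zero_smul_body, add_zero, Finset.sum_range_succ'] at h
  simp only [pow_zero, one_mul] at h
  rw [h, Finset.sum_eq_zero, zero_add]
  intro j _; rw [zero_pow (Nat.succ_ne_zero j), zero_mul]

theorem cof_eq_zero_of_gt {j : ℕ} (h : Module.finrank ℝ V < j) (L K : ConvexBody V) :
    MV.cof j L φ K = 0 := by
  simp only [cof]
  exact Finset.sum_eq_zero fun k hk => by rw [lc_eq_zero hk h, zero_mul]

theorem add_smul_expand (hφ : IsVal φ) {t : ℝ} (ht : 0 ≤ t) (K L : ConvexBody V) :
    φ (K + t • L) = φ K + t * (MV.der L φ K +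
      ∑ j ∈ Finset.range (Module.finrank ℝ V), t ^ (j + 1) * cof (j + 2) L φ K) := by
  rw [mcmullen_add hφ ht K L, Finset.sum_range_succ', cof_zero hφ]
  simp only [pow_zero, one_mul]
  rw [add_comm, der]
  congr 1
  cases hn : Module.finrank ℝ V with
  | zero => simp [cof_eq_zero_of_gt (φ := φ) (L := L) (K := K) (show Module.finrank ℝ V < 1 by omega)]
  | succ m =>
    rw [Finset.sum_range_succ', Finset.sum_range_succ,
      cof_eq_zero_of_gt (φ := φ) (L := L) (K := K) (show Module.finrank ℝ V < m + 2 by omega),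
      mul_zero, add_zero, mul_add, Finset.mul_sum, add_comm]
    congr 1
    · simp
    · exact Finset.sum_congr rfl fun j _ => by ring_nf

theorem der_tendsto (hφ : IsVal φ) (K L : ConvexBody V) :
    Tendsto (fun t : ℝ => (φ (K + t • L) - φ K) / t) (𝓝[>] 0) (𝓝 (der L φ K)) := by
  have h1 : Tendsto (fun t : ℝ => MV.der L φ K +
      ∑ j ∈ Finset.range (Module.finrank ℝ V), t ^ (j + 1) * cof (j + 2) L φ K) (𝓝[>] 0)
      (𝓝 (MV.der L φ K + ∑ j ∈ Finset.range (Module.finrank ℝ V),
        (0 : ℝ) ^ (j + 1) * cof (j + 2) L φ K)) := by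
    refine (Continuous.tendsto ?_ 0).mono_left nhdsWithin_le_nhds
    fun_prop
  have h2 : ∑ j ∈ Finset.range (Module.finrank ℝ V), (0 : ℝ) ^ (j + 1) * cof (j + 2) L φ K = 0 :=
    Finset.sum_eq_zero fun j _ => by rw [zero_pow (Nat.succ_ne_zero j), zero_mul]
  rw [h2, add_zero] at h1
  refine h1.congr' ?_
  filter_upwards [self_mem_nhdsWithin] with t ht
  have ht' : (0 : ℝ) < t := ht
  rw [add_smul_expand hφ ht'.le]
  field_simp
  ring

theorem isVal_der (hφ : IsVal φ) (L : ConvexBody V) : IsVal (der L φ) := isVal_cof hφ 1 L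

theorem der_seg (hφ : IsVal φ) (x : V) (K : ConvexBody V) : MV.der (seg x) φ K = MV.D x φ K := by
  refine tendsto_nhds_unique (der_tendsto hφ K (seg x)) ?_
  refine (tendsto_const_nhds (x := MV.D x φ K)).congr' ?_
  filter_upwards [self_mem_nhdsWithin] with t ht
  have ht' : (0 : ℝ) < t := ht
  rw [smul_seg ht'.le, add_seg_smul hφ x ht'.le]
  field_simp
  ring

theorem continuous_der_left (hφ : IsVal φ) (K : ConvexBody V) :
    Continuous (fun L => MV.der L φ K) := by
  unfold der cof
  refine continuous_finsetSum _ fun k _ => continuous_const.mul (hφ.cont.comp ?_)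
  exact continuous_const.add (continuous_smul_body.comp (continuous_const.prodMk continuous_id))

theorem tendsto_smul_body (K L : ConvexBody V) :
    Tendsto (fun t : ℝ => K + t • L) (𝓝[>] 0) (𝓝 K) := by
  have h : Continuous (fun t : ℝ => K + t • L) :=
    continuous_const.add (continuous_smul_body.comp (continuous_id.prodMk continuous_const))
  have h2 := (h.tendsto 0).mono_left (nhdsWithin_le_nhds (s := Set.Ioi 0))
  rwa [zero_smul_body, add_zero] at h2

/-- for fixed `K`, `L ↦ der L φ K` is additive -/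
theorem der_isAdd (hφ : IsVal φ) (K : ConvexBody V) : IsAdd (fun L => MV.der L φ K) := by
  refine ⟨continuous_der_left hφ K, fun L M => ?_, fun x => ?_⟩
  · refine tendsto_nhds_unique (der_tendsto hφ K (L + M)) ?_
    have h1 := der_tendsto hφ K L
    have h2 : Tendsto (fun t : ℝ => MV.der M φ (K + t • L) +
        ∑ j ∈ Finset.range (Module.finrank ℝ V), t ^ (j + 1) * cof (j + 2) M φ (K + t • L))
        (𝓝[>] 0) (𝓝 (MV.der M φ K + ∑ j ∈ Finset.range (Module.finrank ℝ V),
          (0 : ℝ) ^ (j + 1) * cof (j + 2) M φ K)) := by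
      refine Tendsto.add ?_ ?_
      · exact ((isVal_der hφ M).cont.tendsto K).comp (tendsto_smul_body K L)
      · refine tendsto_finsetSum _ fun j _ => Tendsto.mul ?_ ?_
        · exact ((continuous_pow (j + 1)).tendsto 0).mono_left nhdsWithin_le_nhds
        · exact ((isVal_cof hφ (j + 2) M).cont.tendsto K).comp (tendsto_smul_body K L)
    have h0 : ∑ j ∈ Finset.range (Module.finrank ℝ V), (0 : ℝ) ^ (j + 1) * cof (j + 2) M φ K = 0 :=
      Finset.sum_eq_zero fun j _ => by rw [zero_pow (Nat.succ_ne_zero j), zero_mul]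
    rw [h0, add_zero] at h2
    refine (h1.add h2).congr' ?_
    filter_upwards [self_mem_nhdsWithin] with t ht
    have ht' : (0 : ℝ) < t := ht
    have h3 := add_smul_expand hφ ht'.le (K + t • L) M
    have h4 : K + t • (L + M) = K + t • L + t • M := by rw [smul_add_body, add_assoc]
    rw [h4, h3]
    field_simp
    ring
  · refine tendsto_nhds_unique (der_tendsto hφ K (pt x)) ?_
    refine (tendsto_const_nhds (x := (0 : ℝ))).congr' ?_
    filter_upwards with t
    rw [smul_pt, hφ.trans, sub_self, zero_div]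

theorem der_comm (L M : ConvexBody V) (φ : ConvexBody V → ℝ) :
    MV.der L (MV.der M φ) = MV.der M (MV.der L φ) := by
  funext K
  simp only [der, cof, Finset.mul_sum]
  rw [Finset.sum_comm]
  refine Finset.sum_congr rfl fun k _ => Finset.sum_congr rfl fun l _ => ?_
  rw [add_right_comm]; ring

theorem D_der (x : V) (L : ConvexBody V) (φ : ConvexBody V → ℝ) :
    MV.D x (MV.der L φ) = MV.der L (MV.D x φ) := by
  funext K
  simp only [D, der, cof]
  rw [← Finset.sum_sub_distrib]
  refine Finset.sum_congr rfl fun k _ => ?_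
  rw [add_right_comm]; ring

theorem der_hom {j : ℕ} (hφ : IsVal φ) (hj : IsHom (j + 1) φ) (L : ConvexBody V) :
    IsHom j (MV.der L φ) := by
  intro c K hc
  have key : ∀ c : ℝ, 0 < c → MV.der L φ (c • K) = c ^ j * MV.der L φ K := by
    intro c hc
    have h1 := der_tendsto hφ (c • K) L
    have h2 := der_tendsto hφ K L
    have h3 : Tendsto (fun t : ℝ => t / c) (𝓝[>] 0) (𝓝[>] 0) := by
      refine tendsto_nhdsWithin_iff.2 ⟨?_, ?_⟩
      · have : Continuous (fun t : ℝ => t / c) := by fun_prop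
        simpa using (this.tendsto 0).mono_left nhdsWithin_le_nhds
      · filter_upwards [self_mem_nhdsWithin] with t ht
        exact div_pos ht hc
    have h4 := (h2.comp h3).const_mul (c ^ j)
    refine tendsto_nhds_unique h1 (h4.congr' ?_)
    filter_upwards [self_mem_nhdsWithin] with t ht
    have ht' : (0 : ℝ) < t := ht
    have h5 : c • K + t • L = c • (K + (t / c) • L) := by
      rw [smul_add_body, smul_smul, mul_div_cancel₀ _ hc.ne']
    simp only [Function.comp]
    rw [h5, hj c _ hc.le, hj c _ hc.le]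
    field_simp
    ring
  rcases hc.eq_or_lt with h0 | h0
  · subst h0
    have hcont1 : Tendsto (fun c : ℝ => MV.der L φ (c • K)) (𝓝[>] 0) (𝓝 (MV.der L φ ((0 : ℝ) • K))) := by
      have : Continuous (fun c : ℝ => MV.der L φ (c • K)) :=
        (isVal_der hφ L).cont.comp (continuous_smul_body.comp (continuous_id.prodMk continuous_const))
      exact (this.tendsto 0).mono_left nhdsWithin_le_nhds
    have hcont2 : Tendsto (fun c : ℝ => c ^ j * MV.der L φ K) (𝓝[>] 0)
        (𝓝 ((0 : ℝ) ^ j * MV.der L φ K)) := by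
      have : Continuous (fun c : ℝ => c ^ j * MV.der L φ K) := by fun_prop
      exact (this.tendsto 0).mono_left nhdsWithin_le_nhds
    refine tendsto_nhds_unique hcont1 (hcont2.congr' ?_)
    filter_upwards [self_mem_nhdsWithin] with c hc
    exact (key c hc).symm
  · exact key c h0

theorem der_self {j : ℕ} (hφ : IsVal φ) (hj : IsHom j φ) (K : ConvexBody V) :
    MV.der K φ K = j * φ K := by
  refine tendsto_nhds_unique (der_tendsto hφ K K) ?_
  have h : HasDerivAt (fun t : ℝ => (1 + t) ^ j * φ K) ((j * (1 + 0) ^ (j - 1) * 1) * φ K) 0 :=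
    (((hasDerivAt_id (0 : ℝ)).const_add 1).pow j).mul_const _
  have h2 := h.tendsto_slope
  have h3 := h2.mono_left (nhdsWithin_mono (0 : ℝ) (show Set.Ioi (0 : ℝ) ⊆ {0}ᶜ from
    fun x hx => by simpa using (ne_of_gt hx)))
  simp only [add_zero, one_pow, mul_one] at h3
  refine h3.congr' ?_
  filter_upwards [self_mem_nhdsWithin] with t ht
  have ht' : (0 : ℝ) < t := ht
  have : K + t • K = (1 + t) • K := by rw [add_smul_body zero_le_one ht'.le, one_smul_body]
  rw [this, hj _ _ (by positivity), slope_def_field]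
  simp

theorem cof_smul (hφ : IsVal φ) {i j : ℕ} (hj : IsHom j φ) (hi : i ≤ Module.finrank ℝ V)
    (L K : ConvexBody V) {c : ℝ} (hc : 0 < c) :
    c ^ i * MV.cof i L φ (c • K) = c ^ j * MV.cof i L φ K := by
  have h : MV.cof i L φ (c • K) = c ^ j * ((c ^ i)⁻¹ * MV.cof i L φ K) := by
    refine cof_eq_of_poly (a := fun i => c ^ j * ((c ^ i)⁻¹ * MV.cof i L φ K)) (fun t ht => ?_) hi
    have h5 : c • K + t • L = c • (K + (t / c) • L) := by
      rw [smul_add_body, smul_smul, mul_div_cancel₀ _ hc.ne']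
    rw [h5, hj c _ hc.le, mcmullen_add hφ (div_nonneg ht hc.le), Finset.mul_sum]
    refine Finset.sum_congr rfl fun k _ => ?_
    rw [div_pow]; field_simp
  rw [h]
  field_simp

theorem cof_isHom_gt (hφ : IsVal φ) {i j : ℕ} (hj : IsHom j φ) (hij : j < i)
    (L K : ConvexBody V) : MV.cof i L φ K = 0 := by
  rcases lt_or_ge (Module.finrank ℝ V) i with hi | hi
  · exact cof_eq_zero_of_gt hi L K
  obtain ⟨m, rfl⟩ := Nat.exists_eq_add_of_lt hij
  have h1 : Tendsto (fun c : ℝ => c ^ (m + 1) * MV.cof (j + m + 1) L φ (c • K)) (𝓝[>] 0)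
      (𝓝 ((0 : ℝ) ^ (m + 1) * MV.cof (j + m + 1) L φ ((0 : ℝ) • K))) := by
    have : Continuous (fun c : ℝ => c ^ (m + 1) * MV.cof (j + m + 1) L φ (c • K)) :=
      (continuous_pow _).mul ((isVal_cof hφ _ L).cont.comp
        (continuous_smul_body.comp (continuous_id.prodMk continuous_const)))
    exact (this.tendsto 0).mono_left nhdsWithin_le_nhds
  rw [zero_pow (Nat.succ_ne_zero m), zero_mul] at h1
  refine tendsto_nhds_unique (tendsto_const_nhds.congr' ?_) h1
  filter_upwards [self_mem_nhdsWithin] with c hc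
  have hc' : (0 : ℝ) < c := hc
  have h2 := cof_smul hφ hj hi L K hc'
  have h3 : c ^ (j + m + 1) = c ^ j * c ^ (m + 1) := by ring
  rw [h3, mul_assoc] at h2
  exact (mul_left_cancel₀ (pow_ne_zero j hc'.ne') h2).symm

theorem cof_isHom_self (hφ : IsVal φ) {j : ℕ} (hj : IsHom j φ) (hjn : j ≤ Module.finrank ℝ V)
    (L K : ConvexBody V) : MV.cof j L φ K = φ L := by
  have h0 : MV.cof j L φ 0 = φ L := by
    refine (cof_eq_of_poly (a := fun i => if i = j then φ L else 0) (fun t ht => ?_) hjn).trans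
      (by simp)
    rw [zero_add, hj t L ht]
    simp [Nat.lt_succ_iff, hjn]
  have h1 : Tendsto (fun c : ℝ => MV.cof j L φ (c • K)) (𝓝[>] 0)
      (𝓝 (MV.cof j L φ ((0 : ℝ) • K))) := by
    have : Continuous (fun c : ℝ => MV.cof j L φ (c • K)) :=
      (isVal_cof hφ _ L).cont.comp
        (continuous_smul_body.comp (continuous_id.prodMk continuous_const))
    exact (this.tendsto 0).mono_left nhdsWithin_le_nhds
  rw [zero_smul_body, h0] at h1
  refine tendsto_nhds_unique (tendsto_const_nhds.congr' ?_) h1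
  filter_upwards [self_mem_nhdsWithin] with c hc
  have hc' : (0 : ℝ) < c := hc
  exact (mul_left_cancel₀ (pow_ne_zero j hc'.ne') (cof_smul hφ hj hjn L K hc')).symm

theorem IsVal.isAdd (hφ : IsVal φ) (h1 : IsHom 1 φ) : IsAdd φ := by
  refine ⟨hφ.cont, fun K L => ?_, fun x => ?_⟩
  · rcases lt_or_ge (Module.finrank ℝ V) 1 with hn | hn
    · simp [eq_zero_of_isHom_gt hφ h1 hn]
    · have h := mcmullen_add hφ zero_le_one K L
      rw [one_smul_body] at h
      obtain ⟨m, hm⟩ := Nat.exists_eq_add_of_le hn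
      rw [h, hm, show 1 + m + 1 = (m + 1) + 1 by ring, Finset.sum_range_succ',
        Finset.sum_range_succ', Finset.sum_eq_zero, cof_zero hφ, cof_isHom_self hφ h1 hn]
      · simp; ring
      · intro i _
        rw [cof_isHom_gt hφ h1 (by omega), mul_zero]
  · have h := hφ.trans 0 x
    rw [zero_add] at h
    rw [h]
    exact IsHom.zero_body (j := 0) h1

theorem isHom_two_add (hφ : IsVal φ) (h2 : IsHom 2 φ) (K L : ConvexBody V) :
    φ (K + L) = φ K + MV.der L φ K + φ L := by
  rcases lt_or_ge (Module.finrank ℝ V) 2 with hn | hn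
  · have h0 := eq_zero_of_isHom_gt hφ h2 hn
    simp [h0, der, cof]
  · have h := mcmullen_add hφ zero_le_one K L
    rw [one_smul_body] at h
    obtain ⟨m, hm⟩ := Nat.exists_eq_add_of_le hn
    rw [h, hm, show 2 + m + 1 = ((m + 1) + 1) + 1 by ring, Finset.sum_range_succ',
      Finset.sum_range_succ', Finset.sum_range_succ', Finset.sum_eq_zero, cof_zero hφ,
      cof_isHom_self hφ h2 hn]
    · simp [der]; ring
    · intro i _
      rw [cof_isHom_gt hφ h2 (by omega), mul_zero]

theorem der_symm_two (hφ : IsVal φ) (h2 : IsHom 2 φ) (K L : ConvexBody V) :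
    MV.der L φ K = MV.der K φ L := by
  have h3 := isHom_two_add hφ h2 K L
  have h4 := isHom_two_add hφ h2 L K
  rw [add_comm] at h4
  linarith

theorem der_mono_body (hφ : IsVal φ) (hm : ∀ K L : ConvexBody V, K ≤ L → φ K ≤ φ L)
    {L M : ConvexBody V} (h : L ≤ M) (K : ConvexBody V) : MV.der L φ K ≤ MV.der M φ K := by
  refine le_of_tendsto_of_tendsto (der_tendsto hφ K L) (der_tendsto hφ K M) ?_
  filter_upwards [self_mem_nhdsWithin] with t ht
  have ht' : (0 : ℝ) < t := ht
  have h1 : φ (K + t • L) ≤ φ (K + t • M) := by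
    refine hm _ _ (le_iff_hs.2 fun v => ?_)
    rw [hs_add, hs_add, hs_smul ht'.le, hs_smul ht'.le]
    have := mul_le_mul_of_nonneg_left (hs_mono h v) ht'.le
    linarith
  gcongr

/-- derivative and restriction to a subspace / linear image -/
theorem der_pull {W : Type*} [NormedAddCommGroup W] [InnerProductSpace ℝ W]
    [FiniteDimensional ℝ W] (f : W →L[ℝ] V) (hφ : IsVal φ) (L K : ConvexBody W) :
    MV.der L (fun M : ConvexBody W => φ (mapB f M)) K = MV.der (mapB f L) φ (mapB f K) := by
  refine tendsto_nhds_unique (der_tendsto (hφ.pull f) K L) ?_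
  refine (der_tendsto hφ (mapB f K) (mapB f L)).congr' ?_
  filter_upwards with t
  rw [mapB_add, mapB_smul]

theorem dist_smul_zero {c : ℝ} (hc : 0 ≤ c) (K : ConvexBody V) :
    dist (c • K) 0 ≤ c * dist K 0 := by
  refine dist_zero_le fun x hx => ?_
  obtain ⟨y, hy, rfl⟩ := (Set.mem_smul_set (a := c) (t := (K : Set V))).1 hx
  rw [norm_smul, Real.norm_of_nonneg hc]
  exact mul_le_mul_of_nonneg_left (norm_le_of_mem hy) hc

/-- bound for homogeneous valuations -/
theorem IsHom.bound {j : ℕ} (hφ : IsVal φ) (hj : IsHom j φ) :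
    ∃ C : ℝ, 0 ≤ C ∧ ∀ K, |φ K| ≤ C * dist K 0 ^ j := by
  cases j with
  | zero =>
    refine ⟨|φ 0|, abs_nonneg _, fun K => ?_⟩
    rw [IsHom.deg_zero hφ hj K]; simp
  | succ j =>
    have h0 : φ 0 = 0 := IsHom.zero_body hj
    obtain ⟨δ, hδ, h⟩ := Metric.continuous_iff.1 hφ.cont 0 1 one_pos
    refine ⟨(2 / δ) ^ (j + 1), by positivity, fun K => ?_⟩
    rcases (dist_nonneg (x := K) (y := 0)).eq_or_lt with hd | hd
    · rw [dist_comm] at hd
      have : K = 0 := (dist_eq_zero.1 hd.symm).symm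
      rw [this, h0]; simp
    · set d := dist K 0 with hd'
      have hc : 0 < δ / (2 * d) := by positivity
      have h1 : dist ((δ / (2 * d)) • K) 0 < δ := by
        refine lt_of_le_of_lt (dist_smul_zero hc.le K) ?_
        rw [← hd']
        have : δ / (2 * d) * d = δ / 2 := by field_simp
        rw [this]; linarith
      have h2 := h _ h1
      rw [h0, Real.dist_eq, sub_zero, hj _ _ hc.le, abs_mul, abs_of_pos (pow_pos hc _)] at h2
      have h3 : (2 / δ) ^ (j + 1) * d ^ (j + 1) * (δ / (2 * d)) ^ (j + 1) = 1 := by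
        rw [← mul_pow, ← mul_pow]
        have : 2 / δ * d * (δ / (2 * d)) = 1 := by field_simp
        rw [this, one_pow]
      have h4 : 0 < (2 / δ) ^ (j + 1) * d ^ (j + 1) := by positivity
      have h5 := mul_le_mul_of_nonneg_left h2.le h4.le
      rw [← mul_assoc, h3, one_mul, mul_one] at h5
      exact h5

/-- growth bound -/
theorem IsVal.bound (hφ : IsVal φ) :
    ∃ C : ℝ, 0 ≤ C ∧ ∀ K, |φ K| ≤ C * (1 + dist K 0) ^ Module.finrank ℝ V := by
  have h : ∀ j : ℕ, ∃ C : ℝ, 0 ≤ C ∧ (j ≤ Module.finrank ℝ V →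
      ∀ K, |MV.comp j φ K| ≤ C * (1 + dist K 0) ^ Module.finrank ℝ V) := by
    intro j
    by_cases hj : j ≤ Module.finrank ℝ V
    · obtain ⟨C, hC, h⟩ := IsHom.bound (isVal_comp hφ j) (comp_isHom hφ hj)
      refine ⟨C, hC, fun _ K => (h K).trans ?_⟩
      refine mul_le_mul_of_nonneg_left ?_ hC
      have hd := dist_nonneg (x := K) (y := 0)
      exact (pow_le_pow_left₀ hd (by linarith) j).trans
        (pow_le_pow_right₀ (by linarith) hj)
    · exact ⟨0, le_rfl, fun h => absurd h hj⟩
  choose C hC hb using h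
  refine ⟨∑ j ∈ Finset.range (Module.finrank ℝ V + 1), C j, Finset.sum_nonneg fun j _ => hC j,
    fun K => ?_⟩
  rw [sum_comp hφ K, Finset.sum_mul]
  refine (Finset.abs_sum_le_sum_abs _ _).trans (Finset.sum_le_sum fun j hj => ?_)
  exact hb j (Nat.lt_succ_iff.1 (Finset.mem_range.1 hj)) K

end Poly
end MV
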