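import Pool.Agent.Lib.MP_f30071_gt.Val

/-! MP_f30071_gt, module Poly, part A: polynomiality of `c ↦ φ (c • K)`. -/

open MeasureTheory ProbabilityTheory Filter Topology Set
open scoped InnerProductSpace Pointwise NNReal ENNReal fwdDiff

set_option linter.unusedSectionVars false
set_option linter.unusedVariables false
set_option linter.unusedSimpArgs false

namespace MV

section Phz
variable {V : Type*} [NormedAddCommGroup V] [InnerProductSpace ℝ V] [FiniteDimensional ℝ V]
variable {φ ψ : ConvexBody V → ℝ}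

open Classical in
/-- extension by zero to all sets -/
noncomputable def phz (φ : ConvexBody V → ℝ) (S : Set V) : ℝ :=
  if h : Convex ℝ S ∧ IsCompact S ∧ S.Nonempty then φ ⟨S, h.1, h.2.1, h.2.2⟩ else 0

theorem phz_coe (φ : ConvexBody V → ℝ) (K : ConvexBody V) : phz φ (K : Set V) = φ K := by
  rw [phz, dif_pos ⟨K.convex, K.isCompact, K.nonempty⟩]
  rfl

theorem phz_empty (φ : ConvexBody V → ℝ) : phz φ ∅ = 0 := by
  rw [phz, dif_neg]
  rintro ⟨_, _, h⟩
  exact Set.not_nonempty_empty h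

/-- closed half space -/
def hge (v : V) (c : ℝ) : Set V := {x | c ≤ ⟪v, x⟫_ℝ}
def hle (v : V) (c : ℝ) : Set V := {x | ⟪v, x⟫_ℝ ≤ c}
def heq (v : V) (c : ℝ) : Set V := {x | ⟪v, x⟫_ℝ = c}

theorem cont_in (v : V) : Continuous (fun x : V => ⟪v, x⟫_ℝ) := by fun_prop

theorem lin_in (v : V) : IsLinearMap ℝ (fun x : V => ⟪v, x⟫_ℝ) :=
  ⟨fun x y => inner_add_right v x y, fun c x => by rw [inner_smul_right, smul_eq_mul]⟩

theorem closed_hge (v : V) (c : ℝ) : IsClosed (hge v c) := isClosed_le continuous_const (cont_in v)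
theorem closed_hle (v : V) (c : ℝ) : IsClosed (hle v c) := isClosed_le (cont_in v) continuous_const
theorem closed_heq (v : V) (c : ℝ) : IsClosed (heq v c) := isClosed_eq (cont_in v) continuous_const
theorem convex_hge (v : V) (c : ℝ) : Convex ℝ (hge v c) := convex_halfSpace_ge (lin_in v) c
theorem convex_hle (v : V) (c : ℝ) : Convex ℝ (hle v c) := convex_halfSpace_le (lin_in v) c
theorem convex_heq (v : V) (c : ℝ) : Convex ℝ (heq v c) := convex_hyperplane (lin_in v) c

theorem phz_cut (hφ : IsVal φ) {X : Set V} (hc : Convex ℝ X) (hk : IsCompact X) (v : V) (c : ℝ) :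
    phz φ X + phz φ (X ∩ heq v c) = phz φ (X ∩ hge v c) + phz φ (X ∩ hle v c) := by
  classical
  rcases Set.eq_empty_or_nonempty (X ∩ hge v c) with h1 | h1
  · have h2 : X ∩ heq v c = ∅ := by
      rw [Set.eq_empty_iff_forall_notMem] at h1 ⊢
      rintro x ⟨hx, hx2⟩
      exact h1 x ⟨hx, (le_of_eq (show ⟪v, x⟫_ℝ = c from hx2).symm : c ≤ ⟪v, x⟫_ℝ)⟩
    have h3 : X ∩ hle v c = X := by
      rw [Set.inter_eq_left]
      intro x hx
      by_contra hx2
      rw [Set.eq_empty_iff_forall_notMem] at h1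
      exact h1 x ⟨hx, (le_of_lt (not_le.1 hx2) : c ≤ ⟪v, x⟫_ℝ)⟩
    rw [h1, h2, h3, phz_empty]; ring
  rcases Set.eq_empty_or_nonempty (X ∩ hle v c) with h4 | h4
  · have h2 : X ∩ heq v c = ∅ := by
      rw [Set.eq_empty_iff_forall_notMem] at h4 ⊢
      rintro x ⟨hx, hx2⟩
      exact h4 x ⟨hx, (le_of_eq (show ⟪v, x⟫_ℝ = c from hx2) : ⟪v, x⟫_ℝ ≤ c)⟩
    have h3 : X ∩ hge v c = X := by
      rw [Set.inter_eq_left]
      intro x hx
      by_contra hx2
      rw [Set.eq_empty_iff_forall_notMem] at h4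
      exact h4 x ⟨hx, (le_of_lt (not_le.1 hx2) : ⟪v, x⟫_ℝ ≤ c)⟩
    rw [h4, h2, h3, phz_empty]
  have h5 : (X ∩ heq v c).Nonempty := by
    obtain ⟨x, hx, hx2⟩ := h1
    obtain ⟨y, hy, hy2⟩ := h4
    have hpre : IsPreconnected ((fun x : V => ⟪v, x⟫_ℝ) '' X) :=
      hc.isPreconnected.image _ (cont_in v).continuousOn
    have := hpre.ordConnected.out (Set.mem_image_of_mem _ hy) (Set.mem_image_of_mem _ hx)
      ⟨hy2, hx2⟩
    obtain ⟨z, hz, hz2⟩ := this
    exact ⟨z, hz, hz2⟩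
  have hX : X.Nonempty := h1.mono Set.inter_subset_left
  have e0 : phz φ X = φ ⟨X, hc, hk, hX⟩ := dif_pos ⟨hc, hk, hX⟩
  have k1 := hc.inter (convex_hge v c)
  have k2 := hk.inter_right (closed_hge v c)
  have k3 := hc.inter (convex_hle v c)
  have k4 := hk.inter_right (closed_hle v c)
  have k5 := hc.inter (convex_heq v c)
  have k6 := hk.inter_right (closed_heq v c)
  have e1 : phz φ (X ∩ hge v c) = φ ⟨_, k1, k2, h1⟩ := dif_pos ⟨k1, k2, h1⟩
  have e2 : phz φ (X ∩ hle v c) = φ ⟨_, k3, k4, h4⟩ := dif_pos ⟨k3, k4, h4⟩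
  have e3 : phz φ (X ∩ heq v c) = φ ⟨_, k5, k6, h5⟩ := dif_pos ⟨k5, k6, h5⟩
  rw [e0, e1, e2, e3]
  exact hφ.cut _ _ _ _ v c rfl rfl rfl

theorem phz_trans (hφ : IsVal φ) (S : Set V) (x : V) : phz φ ((fun y => y + x) '' S) = phz φ S := by
  classical
  have hc : Convex ℝ ((fun y => y + x) '' S) ↔ Convex ℝ S := by
    constructor
    · intro h
      have := h.translate (-x)
      have h2 : ((fun z => -x + z) '' ((fun y => y + x) '' S)) = S := by
        rw [Set.image_image]; simp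
      rwa [h2] at this
    · intro h
      have := h.translate x
      have h2 : (fun z => x + z) '' S = (fun y => y + x) '' S :=
        Set.image_congr fun y _ => add_comm _ _
      rwa [h2] at this
  have hk : IsCompact ((fun y => y + x) '' S) ↔ IsCompact S := by
    constructor
    · intro h
      have := h.image (f := fun z => z + (-x)) (by fun_prop)
      rw [Set.image_image] at this
      simpa using this
    · intro h
      exact h.image (by fun_prop)
  by_cases h : Convex ℝ S ∧ IsCompact S ∧ S.Nonempty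
  · have h' : Convex ℝ ((fun y => y + x) '' S) ∧ IsCompact ((fun y => y + x) '' S) ∧
        ((fun y => y + x) '' S).Nonempty := ⟨hc.2 h.1, hk.2 h.2.1, h.2.2.image _⟩
    rw [phz, dif_pos h', phz, dif_pos h, ← hφ.trans ⟨S, h.1, h.2.1, h.2.2⟩ x]
    congr 1
    apply SetLike.coe_injective
    ext z
    simp only [ConvexBody.coe_mk, ConvexBody.coe_add, Set.mem_image, Set.mem_add]
    constructor
    · rintro ⟨y, hy, rfl⟩
      exact ⟨y, hy, x, rfl, rfl⟩
    · rintro ⟨y, hy, w, hw, rfl⟩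
      have : w = x := hw
      exact ⟨y, hy, by rw [this]⟩
  · have h' : ¬ (Convex ℝ ((fun y => y + x) '' S) ∧ IsCompact ((fun y => y + x) '' S) ∧
        ((fun y => y + x) '' S).Nonempty) := fun h2 =>
      h ⟨hc.1 h2.1, hk.1 h2.2.1, (Set.image_nonempty.1 h2.2.2)⟩
    rw [phz, dif_neg h', phz, dif_neg h]

/-! ### inclusion-exclusion over half spaces -/

/-- inclusion-exclusion sum over a list of half spaces -/
noncomputable def ie (φ : ConvexBody V → ℝ) : List (V × ℝ) → Set V → ℝ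
  | [], X => phz φ X
  | (h :: l), X => ie φ l X - ie φ l (X ∩ hge h.1 h.2)

theorem ie_cut (hφ : IsVal φ) (v : V) (c : ℝ) : ∀ (l : List (V × ℝ)) {X : Set V}
    (_ : Convex ℝ X) (_ : IsCompact X),
    ie φ l X + ie φ l (X ∩ heq v c) = ie φ l (X ∩ hge v c) + ie φ l (X ∩ hle v c)
  | [], X, hc, hk => phz_cut hφ hc hk v c
  | (h :: l), X, hc, hk => by
    have h1 := ie_cut hφ v c l hc hk
    have h2 := ie_cut hφ v c l (hc.inter (convex_hge h.1 h.2)) (hk.inter_right (closed_hge h.1 h.2))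
    simp only [ie]
    rw [Set.inter_right_comm X (heq v c), Set.inter_right_comm X (hge v c) (hge h.1 h.2),
      Set.inter_right_comm X (hle v c)]
    linarith

theorem ie_zero (hφ : IsVal φ) : ∀ (l : List (V × ℝ)) {X : Set V}
    (_ : Convex ℝ X) (_ : IsCompact X) (_ : ∀ x ∈ X, ∃ h ∈ l, h.2 ≤ ⟪h.1, x⟫_ℝ), ie φ l X = 0
  | [], X, hc, hk, hcov => by
    have : X = ∅ := by
      rw [Set.eq_empty_iff_forall_notMem]
      intro x hx
      obtain ⟨h, hh, _⟩ := hcov x hx
      simp at hh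
    rw [ie, this, phz_empty]
  | (h :: l), X, hc, hk, hcov => by
    have h1 := ie_cut hφ h.1 h.2 l hc hk
    simp only [ie]
    have h2 : ie φ l X - ie φ l (X ∩ hge h.1 h.2) =
        ie φ l (X ∩ hle h.1 h.2) - ie φ l (X ∩ heq h.1 h.2) := by linarith
    rw [h2]
    by_cases hex : ∃ y ∈ X, ⟪h.1, y⟫_ℝ < h.2
    · obtain ⟨y, hy, hyl⟩ := hex
      have hcov2 : ∀ x ∈ X ∩ hle h.1 h.2, ∃ k ∈ l, k.2 ≤ ⟪k.1, x⟫_ℝ := by
        rintro x ⟨hx, hxl⟩
        have hxl' : ⟪h.1, x⟫_ℝ ≤ h.2 := hxl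
        by_contra hno
        push Not at hno
        have hev : ∀ᶠ z in 𝓝 x, ∀ k ∈ {k | k ∈ l}, ⟪k.1, z⟫_ℝ < k.2 := by
          rw [Filter.eventually_all_finite (List.finite_toSet l)]
          intro k hk
          exact (cont_in k.1).continuousAt.eventually_lt continuousAt_const (hno k hk)
        have htend : Tendsto (fun t : ℝ => x + t • (y - x)) (𝓝[>] 0) (𝓝 x) := by
          have : Continuous (fun t : ℝ => x + t • (y - x)) := by fun_prop
          have h3 := (this.tendsto 0).mono_left (nhdsWithin_le_nhds (s := Set.Ioi 0))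
          simpa using h3
        have hev2 := htend.eventually hev
        have hev3 : ∀ᶠ t : ℝ in 𝓝[>] 0, t ∈ Set.Ioo (0 : ℝ) 1 :=
          Ioo_mem_nhdsGT one_pos
        obtain ⟨t, ht1, ht2⟩ := (hev2.and hev3).exists
        have hmem : x + t • (y - x) ∈ X := by
          have := hc hx hy (a := 1 - t) (b := t) (by linarith [ht2.2]) ht2.1.le (by ring)
          have h4 : x + t • (y - x) = (1 - t) • x + t • y := by
            rw [smul_sub, sub_smul, one_smul]; abel
          rwa [h4]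
        obtain ⟨k, hk, hk2⟩ := hcov _ hmem
        rcases List.mem_cons.1 hk with rfl | hk3
        · rw [inner_add_right, inner_smul_right, inner_sub_right] at hk2
          have h5 := mul_nonneg (sub_nonneg.2 ht2.2.le) (sub_nonneg.2 hxl')
          have h6 := mul_pos ht2.1 (sub_pos.2 hyl)
          nlinarith
        · exact absurd hk2 (not_le.2 (ht1 k hk3))
      rw [ie_zero hφ l (hc.inter (convex_hle _ _)) (hk.inter_right (closed_hle _ _)) hcov2,
        ie_zero hφ l (hc.inter (convex_heq _ _)) (hk.inter_right (closed_heq _ _))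
          (fun x hx => hcov2 x ⟨hx.1, (le_of_eq (show ⟪h.1, x⟫_ℝ = h.2 from hx.2) :
            ⟪h.1, x⟫_ℝ ≤ h.2)⟩), sub_zero]
    · push Not at hex
      have : X ∩ hle h.1 h.2 = X ∩ heq h.1 h.2 := by
        ext x
        constructor
        · rintro ⟨hx, hx2⟩
          exact ⟨hx, le_antisymm hx2 (hex x hx)⟩
        · rintro ⟨hx, hx2⟩
          exact ⟨hx, le_of_eq hx2⟩
      rw [this, sub_self]

theorem ie_trans (hφ : IsVal φ) (x : V) : ∀ (l : List (V × ℝ)) (_ : ∀ h ∈ l, ⟪h.1, x⟫_ℝ = 0)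
    (X : Set V), ie φ l ((fun y => y + x) '' X) = ie φ l X
  | [], _, X => phz_trans hφ X x
  | (h :: l), hl, X => by
    simp only [ie]
    have h1 : (fun y => y + x) '' X ∩ hge h.1 h.2 = (fun y => y + x) '' (X ∩ hge h.1 h.2) := by
      have h0 := hl h (by simp)
      ext z
      constructor
      · rintro ⟨⟨y, hy, rfl⟩, hz⟩
        refine ⟨y, ⟨hy, ?_⟩, rfl⟩
        have hz' : h.2 ≤ ⟪h.1, y + x⟫_ℝ := hz
        rw [inner_add_right, h0, add_zero] at hz'
        exact hz'
      · rintro ⟨y, ⟨hy, hz⟩, rfl⟩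
        refine ⟨⟨y, hy, rfl⟩, ?_⟩
        have hz' : h.2 ≤ ⟪h.1, y⟫_ℝ := hz
        show h.2 ≤ ⟪h.1, y + x⟫_ℝ
        rw [inner_add_right, h0, add_zero]
        exact hz'
    rw [h1, ie_trans hφ x l (fun k hk => hl k (by simp [hk])) X,
      ie_trans hφ x l (fun k hk => hl k (by simp [hk])) _]

/-! ### growth -/

theorem phz_slab (hφ : IsVal φ) (v : V) {δ M : ℝ} (hδ : 0 ≤ δ) (hM : 0 ≤ M) :
    ∀ (N : ℕ) (a : ℝ) (X : Set V), Convex ℝ X → IsCompact X →
      (∀ x ∈ X, a ≤ ⟪v, x⟫_ℝ ∧ ⟪v, x⟫_ℝ ≤ a + (N + 1) * δ) →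
      (∀ Y ⊆ X, Convex ℝ Y → IsCompact Y → ∀ b : ℝ,
        (∀ x ∈ Y, b ≤ ⟪v, x⟫_ℝ ∧ ⟪v, x⟫_ℝ ≤ b + δ) → |phz φ Y| ≤ M) →
      |phz φ X| ≤ 2 * (N + 1) * M := by
  intro N
  induction N with
  | zero =>
    intro a X hc hk hX h
    have h1 := h X subset_rfl hc hk a (fun x hx => by simpa using hX x hx)
    simp only [Nat.cast_zero, zero_add, mul_one]
    linarith
  | succ N IH =>
    intro a X hc hk hX h
    have hcut := phz_cut hφ hc hk v (a + δ)
    have h1 : |phz φ (X ∩ heq v (a + δ))| ≤ M := by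
      refine h _ Set.inter_subset_left (hc.inter (convex_heq _ _))
        (hk.inter_right (closed_heq _ _)) a fun x hx => ?_
      have : ⟪v, x⟫_ℝ = a + δ := hx.2
      rw [this]; constructor <;> linarith
    have h2 : |phz φ (X ∩ hle v (a + δ))| ≤ M :=
      h _ Set.inter_subset_left (hc.inter (convex_hle _ _))
        (hk.inter_right (closed_hle _ _)) a fun x hx => ⟨(hX x hx.1).1, hx.2⟩
    have h3 : |phz φ (X ∩ hge v (a + δ))| ≤ 2 * (N + 1) * M := by
      refine IH (a + δ) _ (hc.inter (convex_hge _ _)) (hk.inter_right (closed_hge _ _))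
        (fun x hx => ⟨hx.2, ?_⟩) (fun Y hY => h Y (hY.trans Set.inter_subset_left))
      have := (hX x hx.1).2
      push_cast at this
      linarith
    have h4 : phz φ X = phz φ (X ∩ hge v (a + δ)) + phz φ (X ∩ hle v (a + δ)) -
        phz φ (X ∩ heq v (a + δ)) := by linarith
    rw [h4]
    have h5 := abs_sub (phz φ (X ∩ hge v (a + δ)) + phz φ (X ∩ hle v (a + δ)))
        (phz φ (X ∩ heq v (a + δ)))
    have h6 := abs_add_le (phz φ (X ∩ hge v (a + δ))) (phz φ (X ∩ hle v (a + δ)))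
    push_cast
    nlinarith

theorem phz_grid (hφ : IsVal φ) {δ M : ℝ} (hδ : 0 ≤ δ) (hM : 0 ≤ M) (N : ℕ) :
    ∀ (l : List V) (X : Set V), Convex ℝ X → IsCompact X →
      (∀ v ∈ l, ∃ a : ℝ, ∀ x ∈ X, a ≤ ⟪v, x⟫_ℝ ∧ ⟪v, x⟫_ℝ ≤ a + (N + 1) * δ) →
      (∀ Y ⊆ X, Convex ℝ Y → IsCompact Y →
        (∀ v ∈ l, ∃ b : ℝ, ∀ x ∈ Y, b ≤ ⟪v, x⟫_ℝ ∧ ⟪v, x⟫_ℝ ≤ b + δ) → |phz φ Y| ≤ M) →
      |phz φ X| ≤ (2 * (N + 1)) ^ l.length * M
  | [], X, hc, hk, _, h => by
    simpa using h X subset_rfl hc hk (by simp)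
  | (v :: l), X, hc, hk, hX, h => by
    obtain ⟨a, ha⟩ := hX v (by simp)
    have h1 : |phz φ X| ≤ 2 * (N + 1) * ((2 * (N + 1)) ^ l.length * M) := by
      refine phz_slab hφ v hδ (by positivity) N a X hc hk ha fun Y hY hYc hYk b hb => ?_
      refine phz_grid hφ hδ hM N l Y hYc hYk (fun w hw => ?_) (fun Z hZ hZc hZk hZ2 => ?_)
      · obtain ⟨a, ha⟩ := hX w (by simp [hw])
        exact ⟨a, fun x hx => ha x (hY hx)⟩
      · refine h Z (hZ.trans hY) hZc hZk fun w hw => ?_
        rcases List.mem_cons.1 hw with rfl | hw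
        · exact ⟨b, fun x hx => hb x (hZ hx)⟩
        · exact hZ2 w hw
    rw [List.length_cons, pow_succ]
    calc |phz φ X| ≤ 2 * (N + 1) * ((2 * (N + 1)) ^ l.length * M) := h1
      _ = (2 * (N + 1)) ^ l.length * (2 * (N + 1)) * M := by ring

theorem exists_growth (hφ : IsVal φ) (K : ConvexBody V) :
    ∃ C : ℝ, 0 ≤ C ∧ ∀ k : ℕ, |φ ((k : ℝ) • K)| ≤ C * (k + 1) ^ Module.finrank ℝ V := by
  classical
  set n := Module.finrank ℝ V with hn
  obtain ⟨δ0, hδ0, h0⟩ := Metric.continuous_iff.1 hφ.cont 0 1 one_pos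
  set δ : ℝ := δ0 / (n + 1) with hδdef
  have hδ : 0 < δ := by positivity
  let b := stdOrthonormalBasis ℝ V
  let l : List V := (List.finRange n).map b
  have hl : l.length = n := by simp [l]
  set M : ℝ := |φ 0| + 1 with hM
  have hM0 : 0 ≤ M := by positivity
  have hsmall : ∀ Y : Set V, Convex ℝ Y → IsCompact Y →
      (∀ v ∈ l, ∃ b : ℝ, ∀ x ∈ Y, b ≤ ⟪v, x⟫_ℝ ∧ ⟪v, x⟫_ℝ ≤ b + δ) → |phz φ Y| ≤ M := by
    intro Y hc hk hY
    rcases Set.eq_empty_or_nonempty Y with rfl | ⟨y0, hy0⟩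
    · rw [phz_empty]; simpa using hM0
    · rw [← phz_trans hφ Y (-y0)]
      have hc' : Convex ℝ ((fun y => y + -y0) '' Y) := by
        have := hc.translate (-y0)
        have h2 : (fun z => -y0 + z) '' Y = (fun y => y + -y0) '' Y :=
          Set.image_congr fun y _ => add_comm _ _
        rwa [h2] at this
      have hk' : IsCompact ((fun y => y + -y0) '' Y) := hk.image (by fun_prop)
      have hn' : ((fun y => y + -y0) '' Y).Nonempty := ⟨_, Set.mem_image_of_mem _ hy0⟩
      rw [phz, dif_pos ⟨hc', hk', hn'⟩]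
      have hd : dist (⟨(fun y => y + -y0) '' Y, hc', hk', hn'⟩ : ConvexBody V) 0 < δ0 := by
        refine lt_of_le_of_lt (dist_zero_le (r := n * δ) ?_) ?_
        · rintro x ⟨y, hy, rfl⟩
          have hcoord : ∀ i : Fin n, |⟪b i, y + -y0⟫_ℝ| ≤ δ := by
            intro i
            obtain ⟨c, hcc⟩ := hY (b i) (by simp [l])
            have h1 := hcc y hy
            have h2 := hcc y0 hy0
            rw [inner_add_right, inner_neg_right, abs_le]
            constructor <;> linarith [h1.1, h1.2, h2.1, h2.2]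
          calc ‖y + -y0‖ = ‖∑ i : Fin n, ⟪b i, y + -y0⟫_ℝ • b i‖ := by
                rw [b.sum_repr']
            _ ≤ ∑ i : Fin n, ‖⟪b i, y + -y0⟫_ℝ • b i‖ := norm_sum_le _ _
            _ ≤ ∑ i : Fin n, δ := by
                refine Finset.sum_le_sum fun i _ => ?_
                rw [norm_smul, b.norm_eq_one, mul_one, Real.norm_eq_abs]
                exact hcoord i
            _ = n * δ := by simp
        · rw [hδdef]
          have : (n : ℝ) * (δ0 / (n + 1)) = δ0 * (n / (n + 1)) := by ring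
          rw [this]
          have h3 : (n : ℝ) / (n + 1) < 1 := by
            rw [div_lt_one (by positivity)]; linarith
          nlinarith
      have h1 := h0 _ hd
      rw [Real.dist_eq] at h1
      have h2 := abs_sub_abs_le_abs_sub
        (φ (⟨(fun y => y + -y0) '' Y, hc', hk', hn'⟩ : ConvexBody V)) (φ 0)
      rw [hM]; linarith
  set R : ℝ := dist K 0 with hR
  have hR0 : 0 ≤ R := dist_nonneg
  refine ⟨(2 * (2 * R / δ + 2)) ^ n * M, by positivity, fun k => ?_⟩
  obtain ⟨N, hN1, hN2⟩ : ∃ N : ℕ, 2 * (k * R) / δ ≤ N ∧ (N : ℝ) ≤ 2 * (k * R) / δ + 1 := by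
    refine ⟨⌈2 * (k * R) / δ⌉₊, Nat.le_ceil _, ?_⟩
    exact (Nat.ceil_lt_add_one (by positivity)).le
  have hgr := phz_grid hφ hδ.le hM0 N l (((k : ℝ) • K : ConvexBody V) : Set V)
    ((k : ℝ) • K).convex ((k : ℝ) • K).isCompact ?_ (fun Y _ hYc hYk hY => hsmall Y hYc hYk hY)
  · rw [phz_coe, hl] at hgr
    refine hgr.trans ?_
    rw [mul_right_comm, ← mul_pow]
    refine mul_le_mul_of_nonneg_right (pow_le_pow_left₀ (by positivity) ?_ n) hM0
    have h5 : 2 * (k * R) / δ = 2 * R / δ * k := by ring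
    rw [h5] at hN2
    have h6 : 0 ≤ 2 * R / δ := by positivity
    have h7 : (0 : ℝ) ≤ k := Nat.cast_nonneg k
    nlinarith
  · intro v hv
    obtain ⟨i, _, rfl⟩ := List.mem_map.1 hv
    refine ⟨-(k * R), fun x hx => ?_⟩
    obtain ⟨y, hy, rfl⟩ := (Set.mem_smul_set (a := (k : ℝ)) (t := (K : Set V))).1 hx
    have h1 : ‖(k : ℝ) • y‖ ≤ k * R := by
      rw [norm_smul, Real.norm_of_nonneg (Nat.cast_nonneg k)]
      exact mul_le_mul_of_nonneg_left (norm_le_of_mem hy) (Nat.cast_nonneg k)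
    have h2 : |⟪b i, (k : ℝ) • y⟫_ℝ| ≤ k * R := by
      refine (abs_real_inner_le_norm _ _).trans ?_
      rw [b.norm_eq_one, one_mul]; exact h1
    rw [abs_le] at h2
    refine ⟨h2.1, h2.2.trans ?_⟩
    have h3 : 2 * (k * R) ≤ N * δ := by
      rw [div_le_iff₀ hδ] at hN1; exact hN1
    have h4 : (N + 1 : ℝ) * δ = N * δ + δ := by ring
    linarith

end Phz

section Pol

/-- a function on the naturals with vanishing `m`-th difference is a polynomial -/
theorem poly_of_fwdDiff {g : ℕ → ℝ} {m : ℕ} (h : ∀ k, (fwdDiff 1)^[m] g k = 0) :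
    ∃ p : Polynomial ℝ, ∀ k : ℕ, g k = p.eval (k : ℝ) := by
  have h0 : ∀ j, m ≤ j → ∀ k, (fwdDiff 1)^[j] g k = 0 := by
    intro j hj
    obtain ⟨i, rfl⟩ := Nat.exists_eq_add_of_le hj
    induction i with
    | zero => exact h
    | succ i IH =>
      intro k
      rw [← add_assoc, Function.iterate_succ_apply', fwdDiff, IH (by omega), IH (by omega), sub_self]
  refine ⟨∑ j ∈ Finset.range m, Polynomial.C ((fwdDiff 1)^[j] g 0 / (j.factorial : ℝ)) *
    descPochhammer ℝ j, fun k => ?_⟩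
  have h1 := shift_eq_sum_fwdDiff_iter 1 g k 0
  simp only [smul_eq_mul, mul_one, zero_add] at h1
  rw [h1, Polynomial.eval_finsetSum]
  have h2 : ∀ (M : ℕ), m ≤ M → k + 1 ≤ M → ∑ j ∈ Finset.range (k + 1), k.choose j • (fwdDiff 1)^[j] g 0 =
      ∑ j ∈ Finset.range M, k.choose j • (fwdDiff 1)^[j] g 0 := by
    intro M _ hM
    refine Finset.sum_subset (fun i hi => Finset.mem_range.2
      (lt_of_lt_of_le (Finset.mem_range.1 hi) hM)) fun i _ hi => ?_
    rw [Nat.choose_eq_zero_of_lt (by simpa using hi), zero_smul]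
  have h3 : ∀ (M : ℕ), m ≤ M → ∑ j ∈ Finset.range m, k.choose j • (fwdDiff 1)^[j] g 0 =
      ∑ j ∈ Finset.range M, k.choose j • (fwdDiff 1)^[j] g 0 := by
    intro M hM
    refine Finset.sum_subset (fun i hi => Finset.mem_range.2
      (lt_of_lt_of_le (Finset.mem_range.1 hi) hM)) fun i _ hi => ?_
    rw [h0 i (by simpa using hi), smul_zero]
  rw [h2 (max m (k + 1)) (le_max_left _ _) (le_max_right _ _), ← h3 _ (le_max_left _ _)]
  refine Finset.sum_congr rfl fun j _ => ?_
  rw [Polynomial.eval_mul, Polynomial.eval_C, descPochhammer_eval_eq_descFactorial,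
    Nat.descFactorial_eq_factorial_mul_choose, nsmul_eq_mul]
  push_cast
  field_simp

theorem natDegree_le_of_growth {p : Polynomial ℝ} {n : ℕ} {C : ℝ}
    (h : ∀ k : ℕ, |p.eval (k : ℝ)| ≤ C * (k + 1) ^ n) : p.natDegree ≤ n := by
  by_contra hlt
  push Not at hlt
  set q : Polynomial ℝ := (Polynomial.X + 1) ^ n with hq
  have hqm : q.Monic := (Polynomial.monic_X_add_C (1 : ℝ)).pow n
  have hqd : q.natDegree = n := by
    rw [hq, Polynomial.natDegree_pow]
    have : (Polynomial.X + 1 : Polynomial ℝ).natDegree = 1 := Polynomial.natDegree_X_add_C 1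
    rw [this, mul_one]
  have hdeg : q.degree < p.degree := Polynomial.degree_lt_degree (by rw [hqd]; exact hlt)
  have ht := Polynomial.abs_div_tendsto_atTop_atTop_of_degree_gt p q hdeg hqm.ne_zero
  have ht2 := ht.comp (tendsto_natCast_atTop_atTop (R := ℝ))
  obtain ⟨k, hk⟩ := (ht2.eventually (eventually_gt_atTop C)).exists
  simp only [Function.comp] at hk
  have hqe : q.eval (k : ℝ) = (k + 1) ^ n := by simp [hq]
  rw [hqe, abs_div, abs_of_pos (show (0 : ℝ) < (k + 1) ^ n by positivity),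
    lt_div_iff₀ (by positivity)] at hk
  exact absurd (h k) (not_le.2 hk)

theorem poly_eq_of_nat {p q : Polynomial ℝ} (h : ∀ k : ℕ, p.eval (k : ℝ) = q.eval (k : ℝ)) :
    p = q := by
  refine Polynomial.eq_of_infinite_eval_eq p q ?_
  refine (Set.infinite_range_of_injective (Nat.cast_injective (R := ℝ))).mono ?_
  rintro _ ⟨k, rfl⟩
  exact h k

end Pol

section Simp
variable {ι : Type*} [Fintype ι]

/-- dilated standard simplex -/
def Sx (ι : Type*) [Fintype ι] (k : ℝ) : Set (EuclideanSpace ℝ ι) :=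
  {t | (∀ i, 0 ≤ t i) ∧ ∑ i, t i = k}

theorem convex_Sx (k : ℝ) : Convex ℝ (Sx ι k) := by
  intro x hx y hy a b ha hb hab
  refine ⟨fun i => ?_, ?_⟩
  · simp only [PiLp.add_apply, PiLp.smul_apply, smul_eq_mul]
    have := hx.1 i
    have := hy.1 i
    positivity
  · simp only [PiLp.add_apply, PiLp.smul_apply, smul_eq_mul]
    rw [Finset.sum_add_distrib, ← Finset.mul_sum, ← Finset.mul_sum, hx.2, hy.2, ← add_mul, hab,
      one_mul]

theorem isCompact_Sx (k : ℝ) : IsCompact (Sx ι k) := by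
  classical
  refine Metric.isCompact_of_isClosed_isBounded ?_ ?_
  · have h1 : IsClosed {t : EuclideanSpace ℝ ι | ∀ i, 0 ≤ t i} := by
      rw [Set.ofPred_forall]
      exact isClosed_iInter fun i => isClosed_le continuous_const (by fun_prop)
    have h2 : IsClosed {t : EuclideanSpace ℝ ι | ∑ i, t i = k} :=
      isClosed_eq (by fun_prop) continuous_const
    exact h1.inter h2
  · refine (Metric.isBounded_iff_subset_closedBall 0).2 ⟨k, fun t ht => ?_⟩
    rw [mem_closedBall_zero_iff]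
    let b := EuclideanSpace.basisFun ι ℝ
    calc ‖t‖ = ‖∑ i, t i • b i‖ := by
          conv_lhs => rw [← b.sum_repr t]
          simp [b]
      _ ≤ ∑ i, ‖t i • b i‖ := norm_sum_le _ _
      _ = ∑ i, t i := by
          refine Finset.sum_congr rfl fun i _ => ?_
          rw [norm_smul, b.norm_eq_one, mul_one, Real.norm_of_nonneg (ht.1 i)]
      _ = k := ht.2
      _ ≤ k := le_rfl

theorem nonempty_Sx [Nonempty ι] {k : ℝ} (hk : 0 ≤ k) : (Sx ι k).Nonempty := by
  classical
  obtain ⟨i⟩ := ‹Nonempty ι›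
  refine ⟨EuclideanSpace.single i k, fun j => ?_, ?_⟩
  · by_cases h : j = i
    · subst h; simpa using hk
    · simp [h]
  · simp

/-- the dilated standard simplex as a body -/
noncomputable def Sb' (ι : Type*) [Fintype ι] [Nonempty ι] (k : ℝ) (hk : 0 ≤ k) :
    ConvexBody (EuclideanSpace ℝ ι) :=
  ⟨Sx ι k, convex_Sx k, isCompact_Sx k, nonempty_Sx hk⟩

theorem Sb'_eq_smul [Nonempty ι] (k : ℝ) (hk : 0 ≤ k) : Sb' ι k hk = k • Sb' ι 1 zero_le_one := by
  apply SetLike.coe_injective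
  ext t
  simp only [Sb', ConvexBody.coe_mk, ConvexBody.coe_smul, Set.mem_smul_set]
  constructor
  · intro ht
    rcases hk.eq_or_lt with h0 | h0
    · subst h0
      obtain ⟨s, hs⟩ := nonempty_Sx (ι := ι) zero_le_one
      refine ⟨s, hs, ?_⟩
      rw [zero_smul]
      have h1 : ∀ i, t i = 0 := fun i =>
        (Finset.sum_eq_zero_iff_of_nonneg (fun i _ => ht.1 i)).1 ht.2 i (Finset.mem_univ i)
      ext i; simp [h1 i]
    · refine ⟨k⁻¹ • t, ⟨fun i => ?_, ?_⟩, ?_⟩
      · simp only [PiLp.smul_apply, smul_eq_mul]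
        exact mul_nonneg (inv_nonneg.2 hk) (ht.1 i)
      · simp only [PiLp.smul_apply, smul_eq_mul]
        rw [← Finset.mul_sum, ht.2, inv_mul_cancel₀ h0.ne']
      · rw [smul_smul, mul_inv_cancel₀ h0.ne', one_smul]
  · rintro ⟨s, hs, rfl⟩
    refine ⟨fun i => ?_, ?_⟩
    · simp only [PiLp.smul_apply, smul_eq_mul]
      exact mul_nonneg hk (hs.1 i)
    · simp only [PiLp.smul_apply, smul_eq_mul]
      rw [← Finset.mul_sum, hs.2, mul_one]

theorem Sx_inter [DecidableEq ι] (i : ι) (k : ℝ) :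
    Sx ι (k + 1) ∩ hge (EuclideanSpace.single i (1 : ℝ)) 1 =
      (fun y => y + EuclideanSpace.single i (1 : ℝ)) '' Sx ι k := by
  ext t
  constructor
  · rintro ⟨⟨h1, h2⟩, h3⟩
    have h3' : (1 : ℝ) ≤ t i := by
      have : (1 : ℝ) ≤ ⟪EuclideanSpace.single i (1 : ℝ), t⟫_ℝ := h3
      simpa [EuclideanSpace.inner_single_left] using this
    refine ⟨t - EuclideanSpace.single i (1 : ℝ), ⟨fun j => ?_, ?_⟩, by simp⟩
    · by_cases h : j = i
      · subst h; simpa using h3'
      · simpa [h] using h1 j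
    · simp [Finset.sum_sub_distrib, h2]
  · rintro ⟨s, ⟨h1, h2⟩, rfl⟩
    refine ⟨⟨fun j => ?_, ?_⟩, ?_⟩
    · by_cases h : j = i
      · subst h
        have := h1 j
        simp; linarith
      · simpa [h] using h1 j
    · simp [Finset.sum_add_distrib, h2]
    · show (1 : ℝ) ≤ ⟪EuclideanSpace.single i (1 : ℝ), s + EuclideanSpace.single i (1 : ℝ)⟫_ℝ
      have := h1 i
      simp only [inner_add_right, EuclideanSpace.inner_single_left]
      simp
      linarith

theorem ie_Sx [DecidableEq ι] {ψ : ConvexBody (EuclideanSpace ℝ ι) → ℝ} (hψ : IsVal ψ) :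
    ∀ (L : List ι) (_ : L.Nodup) (k : ℕ),
      ie ψ (L.map fun i => (EuclideanSpace.single i (1 : ℝ), (1 : ℝ))) (Sx ι ((k + L.length : ℕ) : ℝ)) =
        (fwdDiff 1)^[L.length] (fun j : ℕ => phz ψ (Sx ι (j : ℝ))) k
  | [], _, k => by simp [ie]
  | (i :: L), hL, k => by
    have hL' := List.nodup_cons.1 hL
    rw [List.map_cons, ie, List.length_cons, Function.iterate_succ_apply', fwdDiff]
    have e1 : k + (L.length + 1) = (k + 1) + L.length := by ring
    rw [← ie_Sx hψ L hL'.2 (k + 1), ← ie_Sx hψ L hL'.2 k, e1]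
    congr 1
    have e2 : (((k + 1) + L.length : ℕ) : ℝ) = ((k + L.length : ℕ) : ℝ) + 1 := by
      push_cast; ring
    simp only
    rw [e2, Sx_inter i, ie_trans hψ]
    intro h hh
    obtain ⟨j, hj, rfl⟩ := List.mem_map.1 hh
    have : j ≠ i := fun h => hL'.1 (h ▸ hj)
    simp [EuclideanSpace.inner_single_left, this]

theorem fwdDiff_Sx {ψ : ConvexBody (EuclideanSpace ℝ ι) → ℝ} (hψ : IsVal ψ) [Nonempty ι] (k : ℕ) :
    (fwdDiff 1)^[Fintype.card ι] (fun j : ℕ => phz ψ (Sx ι (j : ℝ))) k = 0 := by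
  classical
  have h := ie_Sx hψ (Finset.univ.toList : List ι) (Finset.nodup_toList _) k
  rw [Finset.length_toList, Finset.card_univ] at h
  rw [← h]
  refine ie_zero hψ _ (convex_Sx _) (isCompact_Sx _) fun t ht => ?_
  by_contra hno
  push Not at hno
  have h1 : ∀ i, t i < 1 := by
    intro i
    have := hno (EuclideanSpace.single i (1 : ℝ), (1 : ℝ)) (by simp)
    simpa [EuclideanSpace.inner_single_left] using this
  have h2 : ∑ i, t i < ∑ i : ι, (1 : ℝ) :=
    Finset.sum_lt_sum_of_nonempty Finset.univ_nonempty fun i _ => h1 i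
  rw [ht.2] at h2
  simp at h2
  have : (0 : ℝ) ≤ k := Nat.cast_nonneg k
  linarith

end Simp

section Mc
variable {V : Type*} [NormedAddCommGroup V] [InnerProductSpace ℝ V] [FiniteDimensional ℝ V]
variable {φ : ConvexBody V → ℝ}

/-- images of the standard simplex -/
theorem exists_poly_nat {ι : Type*} [Fintype ι] [Nonempty ι] (hφ : IsVal φ)
    (f : EuclideanSpace ℝ ι →L[ℝ] V) :
    ∃ p : Polynomial ℝ, p.natDegree ≤ Module.finrank ℝ V ∧
      ∀ k : ℕ, φ ((k : ℝ) • mapB f (Sb' ι 1 zero_le_one)) = p.eval (k : ℝ) := by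
  have hψ := hφ.pull f
  obtain ⟨p, hp⟩ := poly_of_fwdDiff (fwdDiff_Sx hψ)
  have h1 : ∀ k : ℕ, φ ((k : ℝ) • mapB f (Sb' ι 1 zero_le_one)) = p.eval (k : ℝ) := by
    intro k
    rw [← hp k]
    have h2 := phz_coe (fun K : ConvexBody (EuclideanSpace ℝ ι) => φ (mapB f K))
      (Sb' ι (k : ℝ) (Nat.cast_nonneg k))
    have h3 : ((Sb' ι (k : ℝ) (Nat.cast_nonneg k) : ConvexBody _) : Set (EuclideanSpace ℝ ι)) =
      Sx ι (k : ℝ) := rfl
    rw [h3] at h2
    rw [h2, ← mapB_smul, ← Sb'_eq_smul (k : ℝ) (Nat.cast_nonneg k)]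
  obtain ⟨C, _, hC⟩ := exists_growth hφ (mapB f (Sb' ι 1 zero_le_one))
  refine ⟨p, natDegree_le_of_growth (C := C) fun k => ?_, h1⟩
  rw [← h1 k]
  exact hC k

theorem exists_poly_real {ι : Type*} [Fintype ι] [Nonempty ι] (hφ : IsVal φ)
    (f : EuclideanSpace ℝ ι →L[ℝ] V) :
    ∃ p : Polynomial ℝ, p.natDegree ≤ Module.finrank ℝ V ∧
      ∀ c : ℝ, 0 ≤ c → φ (c • mapB f (Sb' ι 1 zero_le_one)) = p.eval c := by
  obtain ⟨p, hp, h⟩ := exists_poly_nat hφ f
  refine ⟨p, hp, fun c hc => ?_⟩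
  set P := mapB f (Sb' ι 1 zero_le_one) with hP
  have hrat : ∀ a q : ℕ, 0 < q → φ (((a : ℝ) / q) • P) = p.eval ((a : ℝ) / q) := by
    intro a q hq
    have hq' : (q : ℝ) ≠ 0 := by positivity
    obtain ⟨pq, _, hpq⟩ := exists_poly_nat hφ (((q : ℝ)⁻¹) • f)
    have hPq : mapB (((q : ℝ)⁻¹) • f) (Sb' ι 1 zero_le_one) = ((q : ℝ)⁻¹) • P := by
      rw [hP]
      apply SetLike.coe_injective
      ext x
      simp [mapB, Set.mem_smul_set]
    rw [hPq] at hpq
    have h2 : pq.comp (Polynomial.C (q : ℝ) * Polynomial.X) = p := by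
      refine poly_eq_of_nat fun k => ?_
      rw [← h k]
      have h3 := hpq (q * k)
      rw [smul_smul] at h3
      push_cast at h3
      rw [show (q : ℝ) * k * (q : ℝ)⁻¹ = k by field_simp] at h3
      rw [h3]
      simp
    rw [← h2]
    simp only [Polynomial.eval_comp, Polynomial.eval_mul, Polynomial.eval_C, Polynomial.eval_X]
    rw [mul_div_cancel₀ _ hq', ← hpq a, smul_smul, div_eq_mul_inv]
  have hcont1 : Continuous (fun c : ℝ => φ (c • P)) :=
    hφ.cont.comp (continuous_smul_body.comp (continuous_id.prodMk continuous_const))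
  have hlim : Tendsto (fun q : ℕ => ((⌊c * q⌋₊ : ℝ) / (q : ℝ))) atTop (𝓝 c) :=
    (tendsto_nat_floor_mul_div_atTop hc).comp tendsto_natCast_atTop_atTop
  refine tendsto_nhds_unique ((hcont1.tendsto c).comp hlim) ?_
  refine ((p.continuous.tendsto c).comp hlim).congr' ?_
  filter_upwards [eventually_gt_atTop 0] with q hq
  simp only [Function.comp]
  exact (hrat _ q hq).symm

theorem exists_simplex_approx (K : ConvexBody V) {ε : ℝ} (hε : 0 < ε) :
    ∃ (s : Finset V) (_ : Nonempty s) (f : EuclideanSpace ℝ s →L[ℝ] V),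
      dist (mapB f (Sb' s 1 zero_le_one)) K ≤ ε := by
  classical
  obtain ⟨t, htK, htf, hcov⟩ := K.isCompact.finite_cover_balls hε
  set s : Finset V := htf.toFinset with hs
  obtain ⟨x0, hx0⟩ := K.nonempty
  have hne : Nonempty s := by
    obtain ⟨y, hy, _⟩ := Set.mem_iUnion₂.1 (hcov hx0)
    exact ⟨⟨y, by rw [hs]; simpa using hy⟩⟩
  let f0 : EuclideanSpace ℝ s →ₗ[ℝ] V :=
    { toFun := fun t => ∑ x : s, t x • (x : V)
      map_add' := fun a b => by simp [add_smul, Finset.sum_add_distrib]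
      map_smul' := fun c a => by simp [Finset.smul_sum, smul_smul] }
  let f : EuclideanSpace ℝ s →L[ℝ] V := LinearMap.toContinuousLinearMap f0
  have hf : ∀ t, f t = ∑ x : s, t x • (x : V) := fun t => rfl
  refine ⟨s, hne, f, dist_le_of_forall hε.le ?_ ?_⟩
  · rintro x ⟨t, ht, rfl⟩
    refine ⟨f t, ?_, by simpa using hε.le⟩
    rw [hf]
    have ht' : t ∈ Sx s 1 := ht
    refine K.convex.sum_mem (fun i _ => ht'.1 i) ht'.2 fun x _ => ?_
    exact htK (htf.mem_toFinset.1 x.2)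
  · intro x hx
    obtain ⟨y, hy, hxy⟩ := Set.mem_iUnion₂.1 (hcov hx)
    have hys : y ∈ s := by rw [hs]; simpa using hy
    refine ⟨y, ⟨EuclideanSpace.single ⟨y, hys⟩ (1 : ℝ), ?_, ?_⟩, (Metric.mem_ball.1 hxy).le⟩
    · refine ⟨fun j => ?_, by simp⟩
      by_cases h : j = ⟨y, hys⟩
      · subst h; simp
      · simp [h]
    · show f _ = y
      rw [hf]
      rw [Finset.sum_eq_single ⟨y, hys⟩]
      · simp
      · intro b _ hb
        simp [hb]
      · intro h; exact absurd (Finset.mem_univ _) h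

theorem mcmullen_lag (hφ : IsVal φ) {c : ℝ} (hc : 0 ≤ c) (K : ConvexBody V) :
    φ (c • K) = ∑ k ∈ Finset.range (Module.finrank ℝ V + 1),
      (Lagrange.basis (Finset.range (Module.finrank ℝ V + 1)) (fun i : ℕ => (i : ℝ)) k).eval c *
        φ ((k : ℝ) • K) := by
  set n := Module.finrank ℝ V
  have hsimp : ∀ {ι : Type _} [Fintype ι] [Nonempty ι] (f : EuclideanSpace ℝ ι →L[ℝ] V),
      φ (c • mapB f (Sb' ι 1 zero_le_one)) = ∑ k ∈ Finset.range (n + 1),
      (Lagrange.basis (Finset.range (n + 1)) (fun i : ℕ => (i : ℝ)) k).eval c *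
        φ ((k : ℝ) • mapB f (Sb' ι 1 zero_le_one)) := by
    intro ι _ _ f
    obtain ⟨p, hp, h⟩ := exists_poly_real hφ f
    have hdeg : p.degree < ((Finset.range (n + 1)).card : ℕ) := by
      rw [Finset.card_range]
      exact lt_of_le_of_lt Polynomial.degree_le_natDegree (by exact_mod_cast Nat.lt_succ_of_le hp)
    have hinj : Set.InjOn (fun i : ℕ => (i : ℝ)) (Finset.range (n + 1) : Set ℕ) :=
      Nat.cast_injective.injOn
    have h2 := Lagrange.eq_interpolate hinj hdeg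
    rw [h c hc]
    conv_lhs => rw [h2]
    rw [Lagrange.interpolate_apply, Polynomial.eval_finsetSum]
    refine Finset.sum_congr rfl fun k _ => ?_
    rw [Polynomial.eval_mul, Polynomial.eval_C, h k (Nat.cast_nonneg k), mul_comm]
  choose s hne f hf using fun j : ℕ =>
    exists_simplex_approx K (show (0 : ℝ) < 1 / ((j : ℝ) + 1) by positivity)
  have hlim : Tendsto (fun j => mapB (f j) (Sb' (s j) 1 zero_le_one)) atTop (𝓝 K) := by
    rw [tendsto_iff_dist_tendsto_zero]
    exact squeeze_zero (fun _ => dist_nonneg) hf tendsto_one_div_add_atTop_nhds_zero_nat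
  have hcs : ∀ c : ℝ, Continuous (fun L : ConvexBody V => φ (c • L)) := fun c =>
    hφ.cont.comp (continuous_smul_body.comp (continuous_const.prodMk continuous_id))
  refine tendsto_nhds_unique (((hcs c).tendsto K).comp hlim) ?_
  have hR : Continuous (fun L : ConvexBody V => ∑ k ∈ Finset.range (n + 1),
      (Lagrange.basis (Finset.range (n + 1)) (fun i : ℕ => (i : ℝ)) k).eval c *
        φ ((k : ℝ) • L)) :=
    continuous_finsetSum _ fun k _ => continuous_const.mul (hcs k)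
  refine ((hR.tendsto K).comp hlim).congr fun j => ?_
  simp only [Function.comp]
  exact (hsimp (f j)).symm

end Mc

end MV
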