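import Pool.Agent.Lib.MP_f30071_gt.MVal
import Pool.Agent.Lib.MP_f30071_gt.Hinge
import Pool.Agent.Lib.MP_f30071_gt.InvNull
import Pool.Agent.Lib.MP_f30071_gt.Iso

/-!
Limit profiles of the crease functionals on cones, in low degrees.
-/

open MeasureTheory ProbabilityTheory Filter Topology Set
open scoped InnerProductSpace Pointwise NNReal ENNReal

namespace MV
namespace ProfB

section Core
variable {F : Type*} [NormedAddCommGroup F] [InnerProductSpace ℝ F] [FiniteDimensional ℝ F]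
  [MeasurableSpace F] [BorelSpace F]

theorem core_limit (hd : 3 ≤ Module.finrank ℝ F) (u e : F) (hu : ‖u‖ = 1) (he : ‖e‖ = 1)
    (hue : ⟪u, e⟫_ℝ = 0) (A : ℕ → ConvexBody F → ℝ) (hA : ∀ m, IsAdd (A m))
    (hi : ∀ m, AxInv e (A m)) (C : ℝ) (hC0 : 0 ≤ C) (hC : ∀ m K, |A m K| ≤ C * dist K 0)
    (Ai : ConvexBody F → ℝ) (hlim : ∀ K, Tendsto (fun m => A m K) atTop (𝓝 (Ai K)))
    (h1 : ∀ᵐ x ∂(stdGaussian F), Tendsto (fun m => A m (seg x)) atTop (𝓝 0))
    (h2 : ∀ᵐ p ∂((stdGaussian F).prod (stdGaussian F)),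
      Tendsto (fun m => A m (tri p.1 p.2)) atTop (𝓝 0))
    (θ : ℝ) (hθ : θ ≠ 0) : Ai (Tb u θ) = 0 := by
  -- the kernels
  set a : ℕ → ℝ → ℝ := fun m τ => A m (Tb e τ) - max τ 0 * A m (disc e) with ha
  set ai : ℝ → ℝ := fun τ => Ai (Tb e τ) - max τ 0 * Ai (disc e) with hai
  set D0 : ℝ := dist (disc e) 0 with hD0
  have hD00 : 0 ≤ D0 := dist_nonneg
  set C' : ℝ := C * (1 + D0) with hC'
  have hab : ∀ m τ, |a m τ| ≤ C' * (1 + |τ|) := by
    intro m τ
    have e1 := hC m (Tb e τ)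
    have e2 := hC m (disc e)
    have e3 := dist_Tb e he τ
    have e4 : |max τ 0| ≤ |τ| := by
      rw [abs_of_nonneg (le_max_right _ _)]
      exact max_le (le_abs_self _) (abs_nonneg _)
    calc |a m τ| ≤ |A m (Tb e τ)| + |max τ 0 * A m (disc e)| := abs_sub _ _
      _ = |A m (Tb e τ)| + |max τ 0| * |A m (disc e)| := by rw [abs_mul]
      _ ≤ C * (1 + |τ|) + |τ| * (C * D0) := by
          refine add_le_add (e1.trans (mul_le_mul_of_nonneg_left e3 hC0)) ?_
          exact mul_le_mul e4 e2 (abs_nonneg _) (abs_nonneg _)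
      _ ≤ C' * (1 + |τ|) := by
          have : 0 ≤ C * D0 := mul_nonneg hC0 hD00
          rw [hC']
          nlinarith [abs_nonneg τ]
  have hac : ∀ m, Continuous (a m) := by
    intro m
    exact ((hA m).cont.comp (continuous_Tb e)).sub ((continuous_id.max continuous_const).mul
      continuous_const)
  have hal : ∀ τ, Tendsto (fun m => a m τ) atTop (𝓝 (ai τ)) := by
    intro τ
    exact (hlim _).sub ((hlim _).const_mul _)
  have haim : Measurable ai :=
    measurable_of_tendsto_metrizable (fun m => (hac m).measurable) (tendsto_pi_nhds.2 hal)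
  have haib : ∀ τ, |ai τ| ≤ C' * (1 + |τ|) := by
    intro τ
    exact le_of_tendsto (hal τ).abs (Eventually.of_forall fun m => hab m τ)
  -- the moments vanish
  have hmom : ∀ k : ℕ, k ≠ 1 → ∫ τ, ai τ * wk k τ = 0 := by
    intro k hk
    have e1 : Tendsto (fun m => ext (A m) (pk k e)) atTop (𝓝 0) :=
      (pk_tendsto A hA C hC h1 h2 k hk e he).2
    have e2 : ∀ m, ext (A m) (pk k e) = ∫ τ, a m τ * wk k τ := by
      intro m
      exact hinge_pk e he (by omega) (A m) (hA m) (hi m) k hk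
    have e3 : Tendsto (fun m => ∫ τ, a m τ * wk k τ) atTop (𝓝 (∫ τ, ai τ * wk k τ)) := by
      refine tendsto_integral_of_dominated_convergence
        (fun τ => ‖C' * ((1 + |τ|) * wk k τ)‖) ?_ ?_ ?_ ?_
      · intro m
        exact ((hac m).mul (Moment.continuous_wk k)).aestronglyMeasurable
      · exact ((qk_repr k hk 0).2.1.const_mul C').norm
      · intro m
        refine Eventually.of_forall fun τ => ?_
        have h3 := hab m τ
        have h4 : (0 : ℝ) ≤ 1 + |τ| := by positivity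
        calc ‖a m τ * wk k τ‖ = |a m τ| * |wk k τ| := by rw [Real.norm_eq_abs, abs_mul]
          _ ≤ (C' * (1 + |τ|)) * |wk k τ| := mul_le_mul_of_nonneg_right h3 (abs_nonneg _)
          _ = C' * |(1 + |τ|) * wk k τ| := by rw [abs_mul (1 + |τ|), abs_of_nonneg h4]; ring
          _ ≤ ‖C' * ((1 + |τ|) * wk k τ)‖ := by
              rw [Real.norm_eq_abs, abs_mul C']
              exact mul_le_mul_of_nonneg_right (le_abs_self _) (abs_nonneg _)
      · exact Eventually.of_forall fun τ => (hal τ).mul_const _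
    simp_rw [e2] at e1
    exact tendsto_nhds_unique e3 e1
  obtain ⟨b, hb⟩ := moment_line ai haim C' haib (hmom 0 (by norm_num))
    (fun k hk => hmom k (by omega))
  obtain ⟨μ, hμf, hμi, hμac, hμ0, hμ⟩ := hinge_Tb u e hu he hue hd θ hθ
  have e1 : ∀ m, A m (Tb u θ) = ∫ τ, a m τ ∂μ := fun m => hμ (A m) (hA m) (hi m)
  have e2 : Tendsto (fun m => ∫ τ, a m τ ∂μ) atTop (𝓝 (∫ τ, ai τ ∂μ)) := by
    refine tendsto_integral_of_dominated_convergence
      (fun τ => C' * (1 + |τ|)) ?_ ?_ ?_ ?_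
    · intro m
      exact (hac m).aestronglyMeasurable
    · exact ((integrable_const (1 : ℝ)).add hμi.abs).const_mul C'
    · intro m
      exact Eventually.of_forall fun τ => by rw [Real.norm_eq_abs]; exact hab m τ
    · exact Eventually.of_forall hal
  have e3 : ∫ τ, ai τ ∂μ = 0 := by
    have : ai =ᵐ[μ] fun τ => b * τ := hμac.ae_le hb
    rw [integral_congr_ae this, integral_const_mul, hμ0, mul_zero]
  rw [e3] at e2
  simp_rw [← e1] at e2
  exact tendsto_nhds_unique (hlim _) e2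

end Core

section BBs
variable {V : Type*} [NormedAddCommGroup V] [InnerProductSpace ℝ V] [FiniteDimensional ℝ V]
  [MeasurableSpace V] [BorelSpace V]

/-- uniform bound of a homogeneous component -/
theorem comp_bound (j : ℕ) (hj : j ≤ Module.finrank ℝ V) (C : ℝ) (hC0 : 0 ≤ C) :
    ∃ C1 : ℝ, 0 ≤ C1 ∧ ∀ φ : ConvexBody V → ℝ, IsVal φ →
      (∀ K, |φ K| ≤ C * (1 + dist K 0) ^ Module.finrank ℝ V) →
      ∀ K, |comp j φ K| ≤ C1 * dist K 0 ^ j := by
  set n := Module.finrank ℝ V with hn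
  set C1 : ℝ := ∑ k ∈ Finset.range (n + 1), |lc n j k| * (C * (1 + (k : ℝ)) ^ n) with hC1
  have hC10 : 0 ≤ C1 := Finset.sum_nonneg fun k _ => by positivity
  refine ⟨C1, hC10, ?_⟩
  intro φ hφ hC K
  have hhom := comp_isHom hφ hj
  have key : ∀ L : ConvexBody V, dist L 0 ≤ 1 → |comp j φ L| ≤ C1 := by
    intro L hL
    unfold comp
    refine (Finset.abs_sum_le_sum_abs _ _).trans (Finset.sum_le_sum fun k _ => ?_)
    rw [abs_mul]
    refine mul_le_mul_of_nonneg_left ?_ (abs_nonneg _)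
    refine (hC _).trans (mul_le_mul_of_nonneg_left ?_ hC0)
    have h1 := dist_smul_zero_le (k : ℝ) L
    rw [Nat.abs_cast] at h1
    have h2 : (k : ℝ) * dist L 0 ≤ k * 1 := mul_le_mul_of_nonneg_left hL (by positivity)
    have h3 : 0 ≤ dist ((k : ℝ) • L) 0 := dist_nonneg
    exact pow_le_pow_left₀ (by linarith) (by linarith) _
  rcases (dist_nonneg (x := K) (y := 0)).eq_or_lt with h0 | h0
  · rcases Nat.eq_zero_or_pos j with hj0 | hj0
    · subst hj0
      rw [pow_zero, mul_one]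
      exact key K (by rw [← h0]; norm_num)
    · have hK : K = 0 := dist_eq_zero.1 h0.symm
      have h1 := hhom 0 K le_rfl
      rw [zero_smul_body, zero_pow hj0.ne', zero_mul] at h1
      rw [hK, h1, abs_zero]
      positivity
  · set r := dist K 0 with hr
    have h1 := hhom r (r⁻¹ • K) h0.le
    rw [smul_smul, mul_inv_cancel₀ h0.ne', one_smul] at h1
    rw [h1, abs_mul, abs_of_nonneg (by positivity : 0 ≤ r ^ j), mul_comm]
    refine mul_le_mul_of_nonneg_right (key _ ?_) (by positivity)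
    refine (dist_smul_zero_le _ _).trans ?_
    rw [← hr, abs_of_pos (by positivity : 0 < r⁻¹), inv_mul_cancel₀ h0.ne']

variable {Φ : ConvexBody V → ConvexBody V}

/-- the first order functionals -/
noncomputable def BB (Φ : ConvexBody V → ConvexBody V) (xs : List V) (t : ℝ) (e : V)
    (K : ConvexBody V) : ℝ := Mt t e (fun y => Ds xs (FF Φ y) K)

theorem BB_eq (hΦ : IsMVal Φ) (xs : List V) (t : ℝ) (e : V) :
    BB Φ xs t e = Ds xs (fun L => Mt t e (hs (Φ L))) := by
  funext K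
  exact (Ds_Mt hΦ t e xs K).symm

theorem isVal_BB (hΦ : IsMVal Φ) (xs : List V) (t : ℝ) (e : V) : IsVal (BB Φ xs t e) := by
  rw [BB_eq hΦ]
  exact isVal_Ds (isVal_Mt hΦ t e) xs

theorem BB_nonneg (hΦ : IsMVal Φ) (xs : List V) {t : ℝ} (ht : 0 < t) (e : V)
    (K : ConvexBody V) : 0 ≤ BB Φ xs t e K :=
  Mt_nonneg (sublin_Ds_FF hΦ xs K) e ht

theorem BB_mono (hΦ : IsMVal Φ) (xs : List V) {s t : ℝ} (hs : 0 < s) (hst : s ≤ t) (e : V)
    (K : ConvexBody V) : BB Φ xs s e K ≤ BB Φ xs t e K :=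
  Mt_mono (sublin_Ds_FF hΦ xs K) e hs hst

theorem BB_iso (hΦ : IsMVal Φ) (xs : List V) (t : ℝ) (e : V) (K : ConvexBody V)
    (g : V ≃ₗᵢ[ℝ] V) (hg : Rot g) (hx : ∀ x ∈ xs, g x = x) :
    BB Φ xs t (g e) (isoB g K) = BB Φ xs t e K := by
  have h1 : xs.map g = xs := by
    conv_rhs => rw [← List.map_id xs]
    exact List.map_congr_left hx
  have h2 : (fun y => Ds xs (FF Φ y) (isoB g K)) = fun y => Ds xs (FF Φ (g.symm y)) K := by
    funext y
    have := Ds_FF_iso hΦ g hg xs (g.symm y) K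
    rw [h1, g.apply_symm_apply] at this
    exact this
  unfold BB
  rw [h2]
  exact Mt_isom g t e (fun y => Ds xs (FF Φ y) K)

theorem BB_bound (hΦ : IsMVal Φ) (xs : List V) :
    ∃ C : ℝ, 0 ≤ C ∧ ∀ t : ℝ, 0 < t → ∀ e K,
      |BB Φ xs t e K| ≤ C * (1 + dist K 0) ^ Module.finrank ℝ V := by
  set b := stdOrthonormalBasis ℝ V with hb
  choose Cp hCp0 hCp using fun i => (isVal_Ds (isVal_FF hΦ (b i)) xs).bound
  choose Cm hCm0 hCm using fun i => (isVal_Ds (isVal_FF hΦ (-(b i))) xs).bound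
  set M : ℝ := ∫ z, ‖z‖ ∂(stdGaussian V) with hM
  have hM0 : 0 ≤ M := integral_nonneg fun z => norm_nonneg _
  have hS : 0 ≤ ∑ i, (Cp i + Cm i) := Finset.sum_nonneg fun i _ => add_nonneg (hCp0 i) (hCm0 i)
  refine ⟨(∑ i, (Cp i + Cm i)) * M, mul_nonneg hS hM0, ?_⟩
  intro t ht e K
  have hg := sublin_Ds_FF hΦ xs K
  have h1 := Sublin.abs_le_basis hg
  have h2 : (∑ i, (|Ds xs (FF Φ (b i)) K| + |Ds xs (FF Φ (-(b i))) K|))
      ≤ (∑ i, (Cp i + Cm i)) * (1 + dist K 0) ^ Module.finrank ℝ V := by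
    rw [Finset.sum_mul]
    refine Finset.sum_le_sum fun i _ => ?_
    rw [add_mul]
    exact add_le_add (hCp i K) (hCm i K)
  have h3 : ∀ x y, |Ds xs (FF Φ x) K - Ds xs (FF Φ y) K|
      ≤ ((∑ i, (Cp i + Cm i)) * (1 + dist K 0) ^ Module.finrank ℝ V) * ‖x - y‖ := by
    intro x y
    have e1 := hg.sub (x - y) y
    have e2 := hg.sub (y - x) x
    have e3 := h1 (x - y)
    have e4 := h1 (y - x)
    simp only [sub_add_cancel] at e1 e2
    rw [norm_sub_rev] at e4
    have e5 := mul_le_mul_of_nonneg_right h2 (norm_nonneg (x - y))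
    have e6 := le_abs_self (Ds xs (FF Φ (x - y)) K)
    have e7 := le_abs_self (Ds xs (FF Φ (y - x)) K)
    rw [abs_le]
    constructor <;> linarith
  have h4 := Mt_bound hg _ h3 e ht
  unfold BB
  refine h4.trans (le_of_eq ?_)
  ring

/-- joint measurability -/
theorem BB_measurable (hΦ : IsMVal Φ) (xs : List V) (t : ℝ) {P : Type*} [TopologicalSpace P]
    [SecondCountableTopology P] [MeasurableSpace P] [BorelSpace P] (κ : P → ConvexBody V)
    (hκ : Continuous κ) : Measurable (fun q : V × P => BB Φ xs t q.1 (κ q.2)) := by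
  have hG : Continuous (fun q : P × V => Ds xs (FF Φ q.2) (κ q.1)) :=
    (continuous_Ds_FF hΦ xs).comp ((hκ.comp continuous_fst).prodMk continuous_snd)
  have hprj : Measurable (fun w : (V × P) × V => prj w.1.1 w.2) :=
    prj_measurable2.comp ((measurable_fst.comp measurable_fst).prodMk measurable_snd)
  have h1 : Measurable (fun w : (V × P) × V =>
      Ds xs (FF Φ (w.1.1 + t • prj w.1.1 w.2)) (κ w.1.2)) := by
    refine hG.measurable.comp (f := fun w : (V × P) × V => (w.1.2, w.1.1 + t • prj w.1.1 w.2)) ?_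
    exact (measurable_snd.comp measurable_fst).prodMk
      ((measurable_fst.comp measurable_fst).add (hprj.const_smul t))
  have h2 : Measurable (fun w : (V × P) × V => Ds xs (FF Φ w.1.1) (κ w.1.2)) := by
    refine hG.measurable.comp (f := fun w : (V × P) × V => (w.1.2, w.1.1)) ?_
    exact (measurable_snd.comp measurable_fst).prodMk (measurable_fst.comp measurable_fst)
  unfold BB Mt
  refine Measurable.const_mul ?_ _
  exact ((h1.sub h2).stronglyMeasurable.integral_prod_right'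
    (ν := stdGaussian V)).measurable

/-- the null sequence -/
noncomputable def tm (m : ℕ) : ℝ := 1 / ((m : ℝ) + 1)

theorem tm_pos (m : ℕ) : 0 < tm m := by
  unfold tm
  positivity

theorem tm_tendsto : Tendsto tm atTop (𝓝[>] (0 : ℝ)) := by
  rw [tendsto_nhdsWithin_iff]
  exact ⟨tendsto_one_div_add_atTop_nhds_zero_nat, Eventually.of_forall fun m => tm_pos m⟩

theorem BB_ae (hΦ : IsMVal Φ) (xs : List V) (K : ConvexBody V) :
    ∀ᵐ e ∂(stdGaussian V), Tendsto (fun m => BB Φ xs (tm m) e K) atTop (𝓝 0) := by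
  have hg := sublin_Ds_FF hΦ xs K
  filter_upwards [hg.ae_diff] with e he
  exact (Mt_tendsto_zero hg e he).comp tm_tendsto

/-- null sets and projections -/
theorem good_prj (hΦ : IsMVal Φ) (xs : List V) (u : V) (hu : ‖u‖ = 1) (W : Submodule ℝ V)
    (hW : 2 ≤ Module.finrank ℝ W) (huW : u ∈ W) (hx : ∀ x ∈ xs, x ∈ Wᗮ)
    {P : Type*} [TopologicalSpace P]
    [SecondCountableTopology P] [MeasurableSpace P] [BorelSpace P] (ν : Measure P) [SFinite ν]
    (κ : P → ConvexBody V) (hκ : Continuous κ)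
    (hinv : ∀ g : V ≃ₗᵢ[ℝ] V, Rot g → (∀ x ∈ Wᗮ, g x = x) →
      ∃ T : P → P, MeasurePreserving T ν ν ∧ ∀ p, κ (T p) = isoB g (κ p)) :
    ∀ᵐ z ∂(stdGaussian V), ∀ᵐ p ∂ν,
      Tendsto (fun m => BB Φ xs (tm m) (prj u z) (κ p)) atTop (𝓝 0) := by
  have hmeas : MeasurableSet {q : V × P | Tendsto (fun m => BB Φ xs (tm m) q.1 (κ q.2)) atTop
      (𝓝 0)} := measurableSet_tendsto (𝓝 0) fun m => BB_measurable hΦ xs (tm m) κ hκ
  have h1 : ∀ᵐ p ∂ν, ∀ᵐ e ∂(stdGaussian V),
      Tendsto (fun m => BB Φ xs (tm m) e (κ p)) atTop (𝓝 0) :=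
    Eventually.of_forall fun p => BB_ae hΦ xs (κ p)
  have h2 : ∀ᵐ e ∂(stdGaussian V), ∀ᵐ p ∂ν,
      Tendsto (fun m => BB Φ xs (tm m) e (κ p)) atTop (𝓝 0) :=
    (Measure.ae_ae_comm (p := fun e p => Tendsto (fun m => BB Φ xs (tm m) e (κ p)) atTop
      (𝓝 0)) hmeas).2 h1
  set Z : Set V := {e | ¬ ∀ᵐ p ∂ν, Tendsto (fun m => BB Φ xs (tm m) e (κ p)) atTop (𝓝 0)} with hZ
  have hZm : MeasurableSet Z := by
    have h3 : Measurable (fun e : V => ν (Prod.mk e ⁻¹'
        {q : V × P | Tendsto (fun m => BB Φ xs (tm m) q.1 (κ q.2)) atTop (𝓝 0)}ᶜ)) :=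
      measurable_measure_prodMk_left hmeas.compl
    have h4 : Z = (fun e : V => ν (Prod.mk e ⁻¹'
        {q : V × P | Tendsto (fun m => BB Φ xs (tm m) q.1 (κ q.2)) atTop (𝓝 0)}ᶜ)) ⁻¹' {0}ᶜ := by
      ext e
      rfl
    rw [h4]
    exact h3 (measurableSet_singleton 0).compl
  have hZ0 : stdGaussian V Z = 0 := h2
  have h5 := inv_null W u huW hu hW Z hZm hZ0 (by
    intro g hg hgW e he
    obtain ⟨T, hT, hTκ⟩ := hinv g hg hgW
    intro hcon
    apply he
    have h6 := hT.quasiMeasurePreserving.ae hcon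
    filter_upwards [h6] with p hp
    have h7 : ∀ m, BB Φ xs (tm m) (g e) (κ (T p)) = BB Φ xs (tm m) e (κ p) := by
      intro m
      rw [hTκ, BB_iso hΦ xs (tm m) e (κ p) g hg (fun x hxx => hgW x (hx x hxx))]
    simpa only [h7] using hp)
  have h8 : ∀ᵐ z ∂(stdGaussian V), prj u z ∉ Z := by
    rw [ae_iff]
    have h9 : {a | ¬ prj u a ∉ Z} = (fun z => prj u z) ⁻¹' Z := by
      ext a
      simp
    rw [h9]
    exact h5
  filter_upwards [h8] with z hz
  by_contra hcon
  exact hz hcon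

/-- the limit functional -/
noncomputable def BI (Φ : ConvexBody V → ConvexBody V) (xs : List V) (e : V)
    (K : ConvexBody V) : ℝ := ⨅ m, BB Φ xs (tm m) e K

theorem tm_anti {a b : ℕ} (h : a ≤ b) : tm b ≤ tm a := by
  unfold tm
  have : (a : ℝ) ≤ b := by exact_mod_cast h
  exact one_div_le_one_div_of_le (by positivity) (by linarith)

theorem BB_lim (hΦ : IsMVal Φ) (xs : List V) (e : V) (K : ConvexBody V) :
    Tendsto (fun m => BB Φ xs (tm m) e K) atTop (𝓝 (BI Φ xs e K)) := by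
  refine tendsto_atTop_ciInf ?_ ⟨0, ?_⟩
  · intro a b h
    exact BB_mono hΦ xs (tm_pos b) (tm_anti h) e K
  · rintro _ ⟨m, rfl⟩
    exact BB_nonneg hΦ xs (tm_pos m) e K

omit [FiniteDimensional ℝ V] [MeasurableSpace V] [BorelSpace V] in
theorem comp_tendsto {φ : ℕ → ConvexBody V → ℝ} {ψ : ConvexBody V → ℝ} (K : ConvexBody V)
    (h : ∀ k : ℕ, Tendsto (fun m => φ m ((k : ℝ) • K)) atTop (𝓝 (ψ ((k : ℝ) • K)))) (i : ℕ) :
    Tendsto (fun m => comp i (φ m) K) atTop (𝓝 (comp i ψ K)) := by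
  unfold comp
  exact tendsto_finsetSum _ fun k _ => (h k).const_mul _

omit [FiniteDimensional ℝ V] [MeasurableSpace V] [BorelSpace V] in
theorem comp_tendsto_zero {φ : ℕ → ConvexBody V → ℝ} (K : ConvexBody V)
    (h : ∀ k : ℕ, Tendsto (fun m => φ m ((k : ℝ) • K)) atTop (𝓝 0)) (i : ℕ) :
    Tendsto (fun m => comp i (φ m) K) atTop (𝓝 0) := by
  have h1 := comp_tendsto (ψ := fun _ => 0) K h i
  have h2 : comp i (fun _ : ConvexBody V => (0 : ℝ)) K = 0 := by
    unfold comp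
    simp
  rw [h2] at h1
  exact h1

omit [MeasurableSpace V] [BorelSpace V] in
/-- the cone of the subspace and the cone of the whole space -/
theorem hs_Tb_sub (E : Submodule ℝ V) (u : E) (θ : ℝ) (v : E) :
    hs (mapB E.subtypeL (Tb u θ)) (v : V) = hs (Tb (u : V) θ) (v : V) := by
  rw [hs_mapB_subtype, hs_Tb, hs_Tb]
  have h1 : ((prj u v : E) : V) = prj (u : V) (v : V) := rfl
  have h2 : ‖prj u v‖ = ‖prj (u : V) (v : V)‖ := by rw [← h1]; rfl
  rw [h2]
  rfl

theorem BB_congr (hΦ : IsMVal Φ) (xs : List V) (t : ℝ) (e : V) {K L : ConvexBody V}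
    (h : ∀ v ∈ perpE xs, hs K v = hs L v) : BB Φ xs t e K = BB Φ xs t e L := by
  rw [BB_eq hΦ]
  exact Ds_congr (isVal_Mt hΦ t e) xs fun v hv => h v (mem_perpE.2 hv)

theorem good_limit (hΦ : IsMVal Φ) (u : V) (hu : ‖u‖ = 1)
    (xs : List V) (ho : Orthonormal ℝ (fun i : Fin xs.length => xs.get i))
    (hx : ∀ x ∈ xs, ⟪u, x⟫_ℝ = 0) (hj : xs.length + 3 ≤ Module.finrank ℝ V)
    (θ : ℝ) (hθ : θ ≠ 0) :
    ∀ᵐ z ∂(stdGaussian V),
      comp 1 (BI Φ xs (prj u z)) (Tb u θ) = 0 ∧ BI Φ xs (prj u z) 0 = 0 := by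
  set E : Submodule ℝ V := perpE xs with hE
  have hfr : Module.finrank ℝ E + xs.length = Module.finrank ℝ V := finrank_perpE ho
  have hE3 : 3 ≤ Module.finrank ℝ E := by omega
  have huE : u ∈ E := mem_perpE.2 hx
  set uE : E := ⟨u, huE⟩ with huE'
  have hxE : ∀ x ∈ xs, x ∈ Eᗮ := fun x hxx => mem_perpE_perp hxx
  -- segments
  have hseg : ∀ k : ℕ, ∀ᵐ z ∂(stdGaussian V), ∀ᵐ (a : E) ∂(stdGaussian E),
      Tendsto (fun m => BB Φ xs (tm m) (prj u z) ((k : ℝ) • seg (a : V))) atTop (𝓝 0) := by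
    intro k
    have hc2 : Continuous (fun a : E => ((k : ℝ), seg (a : V))) :=
      continuous_const.prodMk (continuous_seg.comp continuous_subtype_val)
    have hc3 := continuous_smul_body.comp hc2
    refine good_prj hΦ xs u hu E (by omega) huE hxE (stdGaussian E)
      (fun a : E => (k : ℝ) • seg (a : V)) ?_ ?_
    · exact hc3
    · intro g hg hgW
      obtain ⟨h, hh⟩ := res_iso E g hgW
      refine ⟨h, ⟨h.continuous.measurable, gauss_isometry h⟩, fun a => ?_⟩
      rw [isoB_smul, isoB_seg, hh]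
  have htri : ∀ k : ℕ, ∀ᵐ z ∂(stdGaussian V), ∀ᵐ (p : E × E) ∂((stdGaussian E).prod (stdGaussian E)),
      Tendsto (fun m => BB Φ xs (tm m) (prj u z) ((k : ℝ) • tri (p.1 : V) (p.2 : V))) atTop
        (𝓝 0) := by
    intro k
    have hc0 : Continuous (fun p : E × E => ((p.1 : V), (p.2 : V))) :=
      (continuous_subtype_val.comp continuous_fst).prodMk
        (continuous_subtype_val.comp continuous_snd)
    have hc1 := K1aux.continuous_tri2.comp hc0
    have hc2 : Continuous (fun p : E × E => ((k : ℝ), tri (p.1 : V) (p.2 : V))) :=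
      continuous_const.prodMk hc1
    have hc3 := continuous_smul_body.comp hc2
    refine good_prj hΦ xs u hu E (by omega) huE hxE ((stdGaussian E).prod (stdGaussian E))
      (fun p : E × E => (k : ℝ) • tri (p.1 : V) (p.2 : V)) ?_ ?_
    · exact hc3
    · intro g hg hgW
      obtain ⟨h, hh⟩ := res_iso E g hgW
      have hmp : MeasurePreserving h (stdGaussian E) (stdGaussian E) :=
        ⟨h.continuous.measurable, gauss_isometry h⟩
      refine ⟨Prod.map h h, hmp.prod hmp, fun p => ?_⟩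
      simp only [Prod.map_fst, Prod.map_snd]
      rw [isoB_smul, isoB_tri, hh, hh]
  -- a unit vector of `E` orthogonal to `u`
  obtain ⟨w, hw1, hw2⟩ := exists_unit_perp uE (by omega)
  have hwV : ‖(w : V)‖ = 1 := hw1
  have huw : ⟪u, (w : V)⟫_ℝ = 0 := hw2
  filter_upwards [ae_all_iff.2 hseg, ae_all_iff.2 htri, gauss_hyperplane (w : V) hwV] with z hz1 hz2 hz3
  set e : V := prj u z with he
  -- the value at the origin
  have hB0 : BI Φ xs e 0 = 0 := by
    obtain ⟨a, ha⟩ := (hz1 0).exists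
    have h1 : ((0 : ℕ) : ℝ) • seg (a : V) = 0 := by
      rw [Nat.cast_zero]
      exact zero_smul_body _
    rw [h1] at ha
    exact tendsto_nhds_unique (BB_lim hΦ xs e 0) ha
  refine ⟨?_, hB0⟩
  -- the component of `e` in `E`
  set eE : E := E.orthogonalProjectionOnto e with heE
  have hdec : e - (eE : V) ∈ Eᗮ := E.sub_starProjection_mem_orthogonal e
  have hin : ∀ y : E, ⟪(y : V), (eE : V)⟫_ℝ = ⟪(y : V), e⟫_ℝ := by
    intro y
    have h1 : ⟪(y : V), e - (eE : V)⟫_ℝ = 0 := Submodule.inner_right_of_mem_orthogonal y.2 hdec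
    rw [inner_sub_right] at h1
    linarith
  have heE0 : eE ≠ 0 := by
    intro h0
    have h1 := hin w
    rw [h0] at h1
    apply hz3
    have h2 : ⟪(w : V), e⟫_ℝ = ⟪(w : V), z⟫_ℝ := by
      rw [he, prj, inner_sub_right, inner_smul_right, real_inner_comm u (w : V), huw]
      ring
    rw [← h2, ← h1]
    simp
  have hn0 : ‖eE‖ ≠ 0 := norm_ne_zero_iff.2 heE0
  set eh : E := ‖eE‖⁻¹ • eE with heh
  have heh1 : ‖eh‖ = 1 := by
    rw [heh, norm_smul, norm_inv, norm_norm, inv_mul_cancel₀ hn0]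
  have hueh : ⟪uE, eh⟫_ℝ = 0 := by
    rw [heh, inner_smul_right]
    have h1 : ⟪uE, eE⟫_ℝ = ⟪u, (eE : V)⟫_ℝ := rfl
    have h2 := hin uE
    have h3 : ⟪u, e⟫_ℝ = 0 := inner_prj u z
    rw [h1]
    rw [show ((uE : E) : V) = u from rfl, h3] at h2
    rw [h2, mul_zero]
  -- the additive functionals
  have hval : ∀ m, IsVal (BB Φ xs (tm m) e) := fun m => isVal_BB hΦ xs (tm m) e
  have h1n : 1 ≤ Module.finrank ℝ V := by omega
  set A : ℕ → ConvexBody E → ℝ := fun m L => comp 1 (BB Φ xs (tm m) e) (mapB E.subtypeL L) with hA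
  have hAdd : ∀ m, IsAdd (A m) := fun m =>
    IsAdd.pull E.subtypeL (IsVal.isAdd (isVal_comp (hval m) 1) (comp_isHom (hval m) h1n))
  have hAx : ∀ m, AxInv eh (A m) := by
    intro m h hh L
    have hR : Rot h := by
      rcases hh.2 with h1 | h1
      · exact h1
      · omega
    obtain ⟨g, hg1, hg2, hg3⟩ := ext_iso E h
    have hgR : Rot g := by
      unfold Rot
      rw [hg3]
      exact hR
    have hge : g e = e := by
      have h1 : e = (eE : V) + (e - (eE : V)) := by abel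
      have h2 : h eE = eE := by
        have h3 : eE = ‖eE‖ • eh := by
          rw [heh, smul_smul, mul_inv_cancel₀ hn0, one_smul]
        rw [h3, map_smul, hh.1]
      calc g e = g (eE : V) + g (e - (eE : V)) := by rw [← map_add, ← h1]
        _ = (h eE : V) + (e - (eE : V)) := by rw [hg1, hg2 _ hdec]
        _ = e := by rw [h2]; abel
    have hgx : ∀ x ∈ xs, g x = x := fun x hxx => hg2 x (hxE x hxx)
    simp only [hA]
    rw [mapB_subtype_isoB hg1]
    unfold comp
    refine Finset.sum_congr rfl fun k _ => ?_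
    rw [← isoB_smul]
    have h5 := BB_iso hΦ xs (tm m) e ((k : ℝ) • mapB E.subtypeL L) g hgR hgx
    rw [hge] at h5
    rw [h5]
  obtain ⟨CB, hCB0, hCB⟩ := BB_bound hΦ xs
  obtain ⟨C1, hC10, hC1⟩ := comp_bound (V := V) 1 h1n CB hCB0
  have hAb : ∀ m L, |A m L| ≤ (C1 * ‖E.subtypeL‖) * dist L 0 := by
    intro m L
    have h1 := hC1 (BB Φ xs (tm m) e) (hval m) (fun K => hCB (tm m) (tm_pos m) e K)
      (mapB E.subtypeL L)
    have h2 := dist_mapB_le E.subtypeL L 0
    rw [mapB_zero] at h2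
    rw [pow_one] at h1
    refine h1.trans ?_
    rw [mul_assoc]
    exact mul_le_mul_of_nonneg_left h2 hC10
  have hAl : ∀ L, Tendsto (fun m => A m L) atTop
      (𝓝 (comp 1 (BI Φ xs e) (mapB E.subtypeL L))) := by
    intro L
    exact comp_tendsto _ (fun k => BB_lim hΦ xs e _) 1
  have hs1 : ∀ᵐ (x : E) ∂(stdGaussian E), Tendsto (fun m => A m (seg x)) atTop (𝓝 0) := by
    filter_upwards [ae_all_iff.2 hz1] with a ha
    have h1 : mapB E.subtypeL (seg a) = seg (a : V) := mapB_seg _ _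
    simp only [hA, h1]
    exact comp_tendsto_zero _ ha 1
  have hs2 : ∀ᵐ (p : E × E) ∂((stdGaussian E).prod (stdGaussian E)),
      Tendsto (fun m => A m (tri p.1 p.2)) atTop (𝓝 0) := by
    filter_upwards [ae_all_iff.2 hz2] with p hp
    have h1 : mapB E.subtypeL (tri p.1 p.2) = tri (p.1 : V) (p.2 : V) := mapB_tri _ _ _
    simp only [hA, h1]
    exact comp_tendsto_zero _ hp 1
  have hCn : 0 ≤ C1 * ‖E.subtypeL‖ := mul_nonneg hC10 (ContinuousLinearMap.opNorm_nonneg _)
  have hfin := core_limit hE3 uE eh hu heh1 hueh A hAdd hAx (C1 * ‖E.subtypeL‖)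
    hCn hAb _ hAl hs1 hs2 θ hθ
  have hK : ∀ m, comp 1 (BB Φ xs (tm m) e) (Tb u θ)
      = comp 1 (BB Φ xs (tm m) e) (mapB E.subtypeL (Tb uE θ)) := by
    intro m
    unfold comp
    refine Finset.sum_congr rfl fun k _ => ?_
    congr 1
    refine BB_congr hΦ xs _ _ fun v hv => ?_
    rw [hs_smul (Nat.cast_nonneg k), hs_smul (Nat.cast_nonneg k)]
    congr 1
    exact (hs_Tb_sub E uE θ ⟨v, hv⟩).symm
  have h6 : Tendsto (fun m => comp 1 (BB Φ xs (tm m) e) (Tb u θ)) atTop
      (𝓝 (comp 1 (BI Φ xs e) (Tb u θ))) := comp_tendsto _ (fun k => BB_lim hΦ xs e _) 1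
  simp_rw [hK] at h6
  have h7 := tendsto_nhds_unique h6 (hAl (Tb uE θ))
  rw [h7]
  exact hfin

end BBs

theorem poly_low (n : ℕ) (hn : 1 ≤ n) (x c : ℕ → ℝ)
    (h0 : ∀ ρ : ℝ, 0 ≤ ρ → 0 ≤ ∑ i ∈ Finset.range (n + 1), ρ ^ i * x i)
    (h1 : ∀ ρ : ℝ, 0 ≤ ρ → ∑ i ∈ Finset.range (n + 1), ρ ^ i * x i
      ≤ ∑ i ∈ Finset.range (n + 1), ρ ^ i * c i) (c0 : c 0 = 0) (c1 : c 1 = 0) : x 1 = 0 := by
  have hsplit : ∀ (y : ℕ → ℝ) (ρ : ℝ), ∑ i ∈ Finset.range (n + 1), ρ ^ i * y i
      = y 0 + ρ * ∑ i ∈ Finset.range n, ρ ^ i * y (i + 1) := by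
    intro y ρ
    rw [Finset.sum_range_succ', Finset.mul_sum, add_comm, pow_zero, one_mul]
    congr 1
    refine Finset.sum_congr rfl fun i _ => ?_
    ring
  have hval : ∀ y : ℕ → ℝ, ∑ i ∈ Finset.range n, (0 : ℝ) ^ i * y (i + 1) = y 1 := by
    intro y
    rw [Finset.sum_eq_single 0]
    · simp
    · intro i _ hi
      rw [zero_pow hi, zero_mul]
    · intro h
      exact absurd (Finset.mem_range.2 (by omega)) h
  have hcont : ∀ y : ℕ → ℝ, Tendsto (fun ρ : ℝ => ∑ i ∈ Finset.range n, ρ ^ i * y (i + 1))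
      (𝓝[>] (0 : ℝ)) (𝓝 (y 1)) := by
    intro y
    have h : Continuous (fun ρ : ℝ => ∑ i ∈ Finset.range n, ρ ^ i * y (i + 1)) := by fun_prop
    have h2 := h.tendsto 0
    rw [hval y] at h2
    exact h2.mono_left nhdsWithin_le_nhds
  have x0 : x 0 = 0 := by
    have e1 := h0 0 le_rfl
    have e2 := h1 0 le_rfl
    rw [hsplit, hsplit] at e2
    rw [hsplit] at e1
    rw [c0] at e2
    linarith
  apply le_antisymm
  · have h3 : ∀ᶠ ρ : ℝ in 𝓝[>] (0 : ℝ), ∑ i ∈ Finset.range n, ρ ^ i * x (i + 1)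
        ≤ ∑ i ∈ Finset.range n, ρ ^ i * c (i + 1) := by
      filter_upwards [self_mem_nhdsWithin] with ρ hρ
      have hρ : 0 < ρ := hρ
      have e2 := h1 ρ hρ.le
      rw [hsplit, hsplit, x0, c0, zero_add, zero_add] at e2
      exact le_of_mul_le_mul_left e2 hρ
    have h4 := le_of_tendsto_of_tendsto (hcont x) (hcont c) h3
    rw [c1] at h4
    exact h4
  · have h3 : ∀ᶠ ρ : ℝ in 𝓝[>] (0 : ℝ), 0 ≤ ∑ i ∈ Finset.range n, ρ ^ i * x (i + 1) := by
      filter_upwards [self_mem_nhdsWithin] with ρ hρ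
      have hρ : 0 < ρ := hρ
      have e2 := h0 ρ hρ.le
      rw [hsplit, x0, zero_add] at e2
      exact nonneg_of_mul_nonneg_right e2 hρ
    exact ge_of_tendsto (hcont x) h3

section
variable {V : Type*} [NormedAddCommGroup V] [InnerProductSpace ℝ V] [FiniteDimensional ℝ V]
  [MeasurableSpace V] [BorelSpace V]
variable {Φ : ConvexBody V → ConvexBody V}

theorem integral_comp_BB (hΦ : IsMVal Φ) (xs : List V) (u : V) (m : ℕ) (i : ℕ)
    (K : ConvexBody V) :
    Measurable (fun z => comp i (BB Φ xs (tm m) (prj u z)) K) := by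
  unfold comp
  refine Finset.measurable_sum _ fun k _ => ?_
  refine Measurable.const_mul ?_ _
  have h1 := BB_measurable hΦ xs (tm m) (P := ℝ) (fun _ => (k : ℝ) • K) continuous_const
  have h2 : Measurable (fun z : V => (prj u z, (0 : ℝ))) :=
    (prj_continuous u).measurable.prodMk measurable_const
  have h3 := h1.comp h2
  exact h3

end

end ProfB

section Prof
variable {V : Type*} [NormedAddCommGroup V] [InnerProductSpace ℝ V] [FiniteDimensional ℝ V]
  [MeasurableSpace V] [BorelSpace V]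
variable {Φ : ConvexBody V → ConvexBody V}

open ProfB in
/-- degrees `j+1 ≤ n-2`, cones with `θ ≠ 0` -/
theorem prof_low (hn : 3 ≤ Module.finrank ℝ V) (hΦ : IsMVal Φ) (u : V) (hu : ‖u‖ = 1)
    (xs : List V) (ho : Orthonormal ℝ (fun i : Fin xs.length => xs.get i))
    (hx : ∀ x ∈ xs, ⟪u, x⟫_ℝ = 0) (hj : xs.length + 3 ≤ Module.finrank ℝ V)
    (θ : ℝ) (hθ : θ ≠ 0) :
    Tendsto (fun t => Ds xs (comp (xs.length + 1) (fun L => Nt t u (hs (Φ L)))) (Tb u θ))
      (𝓝[>] (0 : ℝ)) (𝓝 0) := by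
  set K : ConvexBody V := Tb u θ with hK
  set n := Module.finrank ℝ V with hnn
  set G : ConvexBody V → V → ℝ := fun L y => Ds xs (FF Φ y) L with hG
  have hGs : ∀ L, Sublin (G L) := fun L => sublin_Ds_FF hΦ xs L
  -- the functional
  set X : ℝ → ConvexBody V → ℝ := fun t => Ds xs (fun L => Nt t u (hs (Φ L))) with hX
  have hXN : ∀ t L, X t L = Nt t u (G L) := fun t L => Ds_Nt hΦ t u xs L
  have hXv : ∀ t, IsVal (X t) := fun t => isVal_Ds (isVal_Nt hΦ t u) xs
  have hgoal : ∀ t, Ds xs (comp (xs.length + 1) (fun L => Nt t u (hs (Φ L)))) K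
      = comp 1 (X t) K := by
    intro t
    rw [hX, Ds_comp (isVal_Nt hΦ t u) xs 1 (by omega) K, add_comm]
  simp_rw [hgoal]
  -- limits of the components
  set N : ConvexBody V → ℝ := fun L => N0 u (G L) with hN
  have hlimX : ∀ L, Tendsto (fun t => X t L) (𝓝[>] (0 : ℝ)) (𝓝 (N L)) := by
    intro L
    simp_rw [hXN]
    exact Nt_tendsto (hGs L) u
  have hlimc : ∀ i, Tendsto (fun t => comp i (X t) K) (𝓝[>] (0 : ℝ)) (𝓝 (comp i N K)) := by
    intro i
    unfold comp
    exact tendsto_finsetSum _ fun k _ => (hlimX _).const_mul _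
  have hpolyN : ∀ ρ : ℝ, 0 ≤ ρ → N (ρ • K)
      = ∑ i ∈ Finset.range (n + 1), ρ ^ i * comp i N K := by
    intro ρ hρ
    have h1 : Tendsto (fun t => ∑ i ∈ Finset.range (n + 1), ρ ^ i * comp i (X t) K)
        (𝓝[>] (0 : ℝ)) (𝓝 (∑ i ∈ Finset.range (n + 1), ρ ^ i * comp i N K)) :=
      tendsto_finsetSum _ fun i _ => (hlimc i).const_mul _
    have h2 : ∀ t, X t (ρ • K) = ∑ i ∈ Finset.range (n + 1), ρ ^ i * comp i (X t) K :=
      fun t => mcmullen (hXv t) hρ K
    simp_rw [← h2] at h1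
    exact tendsto_nhds_unique (hlimX _) h1
  -- bounds
  obtain ⟨C, hC0, hC⟩ := Nt_le_Mt (V := V)
  obtain ⟨CB, hCB0, hCB⟩ := BB_bound hΦ xs
  set cm : ℕ → ℕ → ℝ := fun m i => ∫ z, comp i (BB Φ xs (tm m) (prj u z)) K ∂(stdGaussian V)
    with hcm
  set ci : ℕ → ℝ := fun i => ∫ z, comp i (BI Φ xs (prj u z)) K ∂(stdGaussian V) with hci
  have hint : ∀ i m, i ≤ n →
      Integrable (fun z => comp i (BB Φ xs (tm m) (prj u z)) K) (stdGaussian V) := by
    intro i m hi
    obtain ⟨C1, hC10, hC1⟩ := comp_bound (V := V) i hi CB hCB0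
    refine Integrable.mono' (integrable_const (C1 * dist K 0 ^ i))
      (integral_comp_BB hΦ xs u m i K).aestronglyMeasurable ?_
    exact Eventually.of_forall fun z => hC1 _ (isVal_BB hΦ xs _ _)
      (fun L => hCB (tm m) (tm_pos m) _ L) K
  have hcl : ∀ i, i ≤ n → Tendsto (fun m => cm m i) atTop (𝓝 (ci i)) := by
    intro i hi
    obtain ⟨C1, hC10, hC1⟩ := comp_bound (V := V) i hi CB hCB0
    refine tendsto_integral_of_dominated_convergence (fun _ => C1 * dist K 0 ^ i) ?_ ?_ ?_ ?_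
    · intro m
      exact (hint i m hi).aestronglyMeasurable
    · exact integrable_const _
    · intro m
      exact Eventually.of_forall fun z => hC1 _ (isVal_BB hΦ xs _ _)
        (fun L => hCB (tm m) (tm_pos m) _ L) K
    · exact Eventually.of_forall fun z => comp_tendsto K (fun k => BB_lim hΦ xs _ _) i
  have hgood := good_limit hΦ u hu xs ho hx hj θ hθ
  have hci1 : ci 1 = 0 := by
    have : (fun z => comp 1 (BI Φ xs (prj u z)) K) =ᵐ[stdGaussian V] fun _ => 0 := by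
      filter_upwards [hgood] with z hz
      exact hz.1
    simp only [hci]
    rw [integral_congr_ae this, integral_zero]
  have hci0 : ci 0 = 0 := by
    have : (fun z => comp 0 (BI Φ xs (prj u z)) K) =ᵐ[stdGaussian V] fun _ => 0 := by
      filter_upwards [hgood] with z hz
      have h1 : Tendsto (fun m => comp 0 (BB Φ xs (tm m) (prj u z)) K) atTop
          (𝓝 (comp 0 (BI Φ xs (prj u z)) K)) := comp_tendsto K (fun k => BB_lim hΦ xs _ _) 0
      have h2 : ∀ m, comp 0 (BB Φ xs (tm m) (prj u z)) K = BB Φ xs (tm m) (prj u z) 0 :=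
        fun m => comp_zero (isVal_BB hΦ xs _ _) K
      simp_rw [h2] at h1
      have h3 := tendsto_nhds_unique (BB_lim hΦ xs (prj u z) 0) h1
      rw [← h3]
      exact hz.2
    simp only [hci]
    rw [integral_congr_ae this, integral_zero]
  have hle : ∀ ρ : ℝ, 0 ≤ ρ → N (ρ • K)
      ≤ ∑ i ∈ Finset.range (n + 1), ρ ^ i * (C * ci i) := by
    intro ρ hρ
    have h1 : ∀ m, N (ρ • K) ≤ C * ∑ i ∈ Finset.range (n + 1), ρ ^ i * cm m i := by
      intro m
      have e1 : N (ρ • K) ≤ Nt (tm m) u (G (ρ • K)) := N0_le_Nt (hGs _) u (tm_pos m)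
      have e2 := hC (G (ρ • K)) (hGs _) u hu (tm m) (tm_pos m)
      refine e1.trans (e2.trans (le_of_eq ?_))
      congr 1
      have e3 : ∀ z, Mt (tm m) (prj u z) (G (ρ • K))
          = ∑ i ∈ Finset.range (n + 1), ρ ^ i * comp i (BB Φ xs (tm m) (prj u z)) K :=
        fun z => mcmullen (isVal_BB hΦ xs (tm m) (prj u z)) hρ K
      simp_rw [e3]
      rw [integral_finsetSum]
      · refine Finset.sum_congr rfl fun i _ => ?_
        rw [integral_const_mul]
      · intro i hi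
        exact (hint i m (by have := Finset.mem_range.1 hi; omega)).const_mul _
    have h2 : Tendsto (fun m => C * ∑ i ∈ Finset.range (n + 1), ρ ^ i * cm m i) atTop
        (𝓝 (C * ∑ i ∈ Finset.range (n + 1), ρ ^ i * ci i)) := by
      refine Tendsto.const_mul _ (tendsto_finsetSum _ fun i hi => ?_)
      exact (hcl i (by have := Finset.mem_range.1 hi; omega)).const_mul _
    have h3 := ge_of_tendsto' h2 h1
    refine h3.trans (le_of_eq ?_)
    rw [Finset.mul_sum]
    refine Finset.sum_congr rfl fun i _ => ?_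
    ring
  have hx1 : comp 1 N K = 0 := by
    refine poly_low n (by omega) (fun i => comp i N K) (fun i => C * ci i) ?_ ?_ ?_ ?_
    · intro ρ hρ
      rw [← hpolyN ρ hρ]
      exact N0_nonneg (hGs _) u
    · intro ρ hρ
      rw [← hpolyN ρ hρ]
      exact hle ρ hρ
    · simp only [hci0, mul_zero]
    · simp only [hci1, mul_zero]
  have := hlimc 1
  rw [hx1] at this
  exact this

end Prof
end MV
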