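import Pool.Agent.Lib.MP_f30071_gt.MVal
import Pool.Agent.Lib.MP_f30071_gt.Hinge
import Pool.Agent.Lib.MP_f30071_gt.MW
import Pool.Agent.Lib.MP_f30071_gt.Sub

/-! Profiles of the crease functionals, first part. -/

open MeasureTheory ProbabilityTheory Filter Topology Set
open scoped InnerProductSpace Pointwise NNReal ENNReal

set_option linter.unusedSectionVars false

namespace MV

section ProfA
variable {V : Type*} [NormedAddCommGroup V] [InnerProductSpace ℝ V] [FiniteDimensional ℝ V]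
  [MeasurableSpace V] [BorelSpace V]
variable {Φ : ConvexBody V → ConvexBody V}

theorem profA_c0_pos : 0 < c0 := by
  unfold c0
  positivity

/-- symmetry trick: if infinitely many lines are equivalent to `u`, no crease across `u` -/
theorem N0_zero_of_orbit {g : V → ℝ} (hg : Sublin g) (u : V) (hu : ‖u‖ = 1)
    (R : ℕ → (V ≃ₗᵢ[ℝ] V)) (hR : ∀ i v, g (R i v) = g v)
    (hne : ∀ i j, i ≠ j → R i u ≠ R j u ∧ R i u ≠ -(R j u)) : N0 u g = 0 := by
  classical
  have h1 : ∀ i, N0 (R i u) g = N0 u g := by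
    intro i
    have h2 : ∀ t, Nt t (R i u) g = Nt t u g := by
      intro t
      have h3 := Nt_isom (R i) t u g
      have h4 : (fun v => g ((R i).symm v)) = g := by
        funext v
        have := hR i ((R i).symm v)
        rw [LinearIsometryEquiv.apply_symm_apply] at this
        exact this.symm
      rwa [h4] at h3
    unfold N0
    simp only [h2]
  have hinj : Function.Injective (fun i => R i u) := by
    intro i j hij
    by_contra hne'
    exact (hne i j hne').1 hij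
  have h2 : ∀ m : ℕ, c0 * (m * N0 u g) ≤ wd g := by
    intro m
    have h3 := sum_N0_le hg ((Finset.range m).image (fun i => R i u)) (by
      intro w hw
      obtain ⟨i, -, rfl⟩ := Finset.mem_image.mp hw
      rw [LinearIsometryEquiv.norm_map, hu]) (by
      intro w hw w' hw' hww
      obtain ⟨i, -, rfl⟩ := Finset.mem_image.mp hw
      obtain ⟨j, -, rfl⟩ := Finset.mem_image.mp hw'
      have hij : i ≠ j := by
        rintro rfl
        exact hww rfl
      exact (hne i j hij).2)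
    rw [Finset.sum_image (fun i _ j _ hij => hinj hij)] at h3
    simp only [h1, Finset.sum_const, Finset.card_range, nsmul_eq_mul] at h3
    exact h3
  have h0 := N0_nonneg hg u
  by_contra hne0
  have hpos : 0 < c0 * N0 u g := mul_pos profA_c0_pos (lt_of_le_of_ne h0 (Ne.symm hne0))
  obtain ⟨m, hm⟩ := exists_nat_gt (wd g / (c0 * N0 u g))
  rw [div_lt_iff₀ hpos] at hm
  have := h2 m
  nlinarith

namespace ProfA

/-- rotation in the plane of the orthonormal vectors `a`, `b` -/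
noncomputable def rot2 (a b : V) (θ : ℝ) : V ≃ₗᵢ[ℝ] V :=
  ((ℝ ∙ a)ᗮ.reflection).trans
    ((ℝ ∙ (Real.cos (θ / 2) • a + Real.sin (θ / 2) • b))ᗮ.reflection)

theorem refl_apply (c : V) (hc : ‖c‖ = 1) (v : V) :
    (ℝ ∙ c)ᗮ.reflection v = v - (2 * ⟪c, v⟫_ℝ) • c := by
  rw [Submodule.reflection_orthogonal_apply, Submodule.reflection_singleton_apply]
  simp only [hc, RCLike.ofReal_real_eq_id, id, one_pow, div_one, neg_sub, two_smul, two_mul, add_smul]

theorem norm_cs {a b : V} (ha : ‖a‖ = 1) (hb : ‖b‖ = 1) (hab : ⟪a, b⟫_ℝ = 0) (θ : ℝ) :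
    ‖Real.cos θ • a + Real.sin θ • b‖ = 1 := by
  have h1 : ‖Real.cos θ • a + Real.sin θ • b‖ ^ 2 = 1 := by
    rw [norm_add_sq_real, real_inner_smul_left, real_inner_smul_right, hab, norm_smul, norm_smul,
      ha, hb, Real.norm_eq_abs, Real.norm_eq_abs, mul_one, mul_one, sq_abs, sq_abs]
    have := Real.cos_sq_add_sin_sq θ
    linarith
  have h2 := norm_nonneg (Real.cos θ • a + Real.sin θ • b)
  nlinarith

theorem rot2_apply {a b : V} (ha : ‖a‖ = 1) (hb : ‖b‖ = 1) (hab : ⟪a, b⟫_ℝ = 0) (θ : ℝ) (v : V) :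
    rot2 a b θ v = v + ((Real.cos θ - 1) * ⟪a, v⟫_ℝ - Real.sin θ * ⟪b, v⟫_ℝ) • a
      + (Real.sin θ * ⟪a, v⟫_ℝ + (Real.cos θ - 1) * ⟪b, v⟫_ℝ) • b := by
  have haa : ⟪a, a⟫_ℝ = 1 := by rw [real_inner_self_eq_norm_sq, ha]; norm_num
  have hba : ⟪b, a⟫_ℝ = 0 := by rw [real_inner_comm]; exact hab
  unfold rot2
  rw [LinearIsometryEquiv.trans_apply, refl_apply _ (norm_cs ha hb hab _), refl_apply _ ha]
  have hc : Real.cos θ = 2 * Real.cos (θ / 2) ^ 2 - 1 := by
    rw [← Real.cos_two_mul]; congr 1; ring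
  have hs : Real.sin θ = 2 * Real.sin (θ / 2) * Real.cos (θ / 2) := by
    rw [← Real.sin_two_mul]; congr 1; ring
  have hcs := Real.cos_sq_add_sin_sq (θ / 2)
  set C := Real.cos (θ / 2)
  set S := Real.sin (θ / 2)
  have e1 : ⟪C • a + S • b, v - (2 * ⟪a, v⟫_ℝ) • a⟫_ℝ = -C * ⟪a, v⟫_ℝ + S * ⟪b, v⟫_ℝ := by
    simp only [inner_add_left, inner_sub_right, real_inner_smul_left, real_inner_smul_right, haa, hba]
    ring
  rw [e1, hc, hs]
  have hS : S ^ 2 = 1 - C ^ 2 := by linarith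
  set α := ⟪a, v⟫_ℝ
  set β := ⟪b, v⟫_ℝ
  have e2 : v - (2 * α) • a - (2 * (-C * α + S * β)) • (C • a + S • b)
      = v + (-(2 * α) - 2 * (-C * α + S * β) * C) • a + (-(2 * (-C * α + S * β) * S)) • b := by
    module
  have e3 : -(2 * α) - 2 * (-C * α + S * β) * C
      = (2 * C ^ 2 - 1 - 1) * α - 2 * S * C * β := by ring
  have e4 : -(2 * (-C * α + S * β) * S) = 2 * S * C * α + (2 * C ^ 2 - 1 - 1) * β := by
    have : -(2 * (-C * α + S * β) * S) = 2 * S * C * α - 2 * S ^ 2 * β := by ring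
    rw [this, hS]
    ring
  rw [e2, e3, e4]

theorem det_refl (w : V) (hw : w ≠ 0) :
    LinearMap.det (((ℝ ∙ w)ᗮ.reflection).toLinearEquiv : V →ₗ[ℝ] V) = -1 := by
  have h1 := (ℝ ∙ w)ᗮ.det_reflection
  rw [Submodule.orthogonal_orthogonal, finrank_span_singleton hw, pow_one] at h1
  exact h1

theorem rot_rot2 {a b : V} (ha : ‖a‖ = 1) (hb : ‖b‖ = 1) (hab : ⟪a, b⟫_ℝ = 0) (θ : ℝ) :
    Rot (rot2 a b θ) := by
  unfold Rot rot2
  have h1 : ((((ℝ ∙ a)ᗮ.reflection).trans
    ((ℝ ∙ (Real.cos (θ / 2) • a + Real.sin (θ / 2) • b))ᗮ.reflection)).toLinearEquiv : V →ₗ[ℝ] V)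
      = (((ℝ ∙ (Real.cos (θ / 2) • a + Real.sin (θ / 2) • b))ᗮ.reflection).toLinearEquiv :
          V →ₗ[ℝ] V).comp (((ℝ ∙ a)ᗮ.reflection).toLinearEquiv : V →ₗ[ℝ] V) := rfl
  rw [h1, LinearMap.det_comp, det_refl, det_refl]
  · norm_num
  · intro h
    rw [h, norm_zero] at ha
    norm_num at ha
  · intro h
    have := norm_cs ha hb hab (θ / 2)
    rw [h, norm_zero] at this
    norm_num at this

theorem rot2_a {a b : V} (ha : ‖a‖ = 1) (hb : ‖b‖ = 1) (hab : ⟪a, b⟫_ℝ = 0) (θ : ℝ) :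
    rot2 a b θ a = Real.cos θ • a + Real.sin θ • b := by
  have haa : ⟪a, a⟫_ℝ = 1 := by rw [real_inner_self_eq_norm_sq, ha]; norm_num
  have hba : ⟪b, a⟫_ℝ = 0 := by rw [real_inner_comm]; exact hab
  rw [rot2_apply ha hb hab, haa, hba]
  module

theorem rot2_b {a b : V} (ha : ‖a‖ = 1) (hb : ‖b‖ = 1) (hab : ⟪a, b⟫_ℝ = 0) (θ : ℝ) :
    rot2 a b θ b = (-Real.sin θ) • a + Real.cos θ • b := by
  have hbb : ⟪b, b⟫_ℝ = 1 := by rw [real_inner_self_eq_norm_sq, hb]; norm_num
  rw [rot2_apply ha hb hab, hab, hbb]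
  module

theorem rot2_perp {a b : V} (ha : ‖a‖ = 1) (hb : ‖b‖ = 1) (hab : ⟪a, b⟫_ℝ = 0) (θ : ℝ) {x : V}
    (h1 : ⟪a, x⟫_ℝ = 0) (h2 : ⟪b, x⟫_ℝ = 0) : rot2 a b θ x = x := by
  rw [rot2_apply ha hb hab, h1, h2]
  simp

/-- invariance under the rotations of a plane not perpendicular to `u` -/
theorem N0_zero_of_inv {g : V → ℝ} (hg : Sublin g) (u : V) (hu : ‖u‖ = 1) {a b : V}
    (ha : ‖a‖ = 1) (hb : ‖b‖ = 1) (hab : ⟪a, b⟫_ℝ = 0) (hua : ⟪a, u⟫_ℝ ≠ 0)
    (hinv : ∀ θ : ℝ, Real.cos θ ≠ 0 → ∀ v, g (rot2 a b θ v) = g v) : N0 u g = 0 := by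
  have haa : ⟪a, a⟫_ℝ = 1 := by rw [real_inner_self_eq_norm_sq, ha]; norm_num
  have hbb : ⟪b, b⟫_ℝ = 1 := by rw [real_inner_self_eq_norm_sq, hb]; norm_num
  have hba : ⟪b, a⟫_ℝ = 0 := by rw [real_inner_comm]; exact hab
  have hθ : ∀ i : ℕ, 0 < (1 : ℝ) / (i + 1) ∧ (1 : ℝ) / (i + 1) ≤ 1 := by
    intro i
    have : (1 : ℝ) ≤ i + 1 := by
      have : (0 : ℝ) ≤ i := Nat.cast_nonneg i
      linarith
    refine ⟨by positivity, ?_⟩
    rw [div_le_one (by positivity)]
    exact this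
  have hcos : ∀ i : ℕ, 0 < Real.cos ((1 : ℝ) / (i + 1)) := by
    intro i
    apply Real.cos_pos_of_le_one
    rw [abs_of_pos (hθ i).1]
    exact (hθ i).2
  refine N0_zero_of_orbit hg u hu (fun i => rot2 a b (1 / ((i : ℝ) + 1)))
    (fun i v => hinv _ (hcos i).ne' v) ?_
  intro i j hij
  set θ := (1 : ℝ) / (i + 1) with hθi
  set θ' := (1 : ℝ) / (j + 1) with hθj
  set α := ⟪a, u⟫_ℝ with hα
  set β := ⟪b, u⟫_ℝ with hβ
  have ea : ∀ t : ℝ, ⟪a, rot2 a b t u⟫_ℝ = Real.cos t * α - Real.sin t * β := by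
    intro t
    rw [rot2_apply ha hb hab, inner_add_right, inner_add_right, real_inner_smul_right,
      real_inner_smul_right, haa, hab]
    ring
  have eb : ∀ t : ℝ, ⟪b, rot2 a b t u⟫_ℝ = Real.sin t * α + Real.cos t * β := by
    intro t
    rw [rot2_apply ha hb hab, inner_add_right, inner_add_right, real_inner_smul_right,
      real_inner_smul_right, hba, hbb]
    ring
  have hpos : 0 < α ^ 2 + β ^ 2 := by positivity
  constructor
  · intro h
    have h1 := congrArg (fun w => ⟪a, w⟫_ℝ) h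
    have h2 := congrArg (fun w => ⟪b, w⟫_ℝ) h
    simp only [ea, eb] at h1 h2
    have h3 : Real.sin θ * (α ^ 2 + β ^ 2) = Real.sin θ' * (α ^ 2 + β ^ 2) := by
      linear_combination α * h2 - β * h1
    have h4 := mul_right_cancel₀ hpos.ne' h3
    have hpi := Real.pi_gt_three
    have h6 : θ = θ' := Real.injOn_sin ⟨by linarith [(hθ i).1], by linarith [(hθ i).2]⟩
      ⟨by linarith [(hθ j).1], by linarith [(hθ j).2]⟩ h4
    have h7 : (i : ℝ) + 1 = j + 1 := by
      rw [hθi, hθj] at h6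
      have := one_div_one_div ((i : ℝ) + 1)
      rw [h6, one_div_one_div] at this
      exact this.symm
    apply hij
    have : (i : ℝ) = j := by linarith
    exact_mod_cast this
  · intro h
    have h1 := congrArg (fun w => ⟪a, w⟫_ℝ) h
    have h2 := congrArg (fun w => ⟪b, w⟫_ℝ) h
    simp only [inner_neg_right, ea, eb] at h1 h2
    have h3 : Real.cos θ * (α ^ 2 + β ^ 2) = -Real.cos θ' * (α ^ 2 + β ^ 2) := by
      linear_combination α * h1 + β * h2
    have h4 := mul_right_cancel₀ hpos.ne' h3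
    have := hcos i
    have := hcos j
    linarith

variable {φ : ConvexBody V → ℝ}

/-- invariance of `D a D b` under rotations of the plane -/
theorem D_rot (hφ : IsVal φ) (a b : V) (θ : ℝ) (hθ : Real.cos θ ≠ 0) (K : ConvexBody V) :
    MV.D (Real.cos θ • a + Real.sin θ • b) (MV.D ((-Real.sin θ) • a + Real.cos θ • b) φ) K
      = MV.D a (MV.D b φ) K := by
  set x := Real.cos θ • a + Real.sin θ • b with hx
  have h1 : (-Real.sin θ) • a + Real.cos θ • b
      = (Real.cos θ)⁻¹ • b + (-(Real.sin θ / Real.cos θ)) • x := by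
    have hcs := Real.sin_sq_add_cos_sq θ
    have e : (Real.cos θ)⁻¹ - Real.sin θ / Real.cos θ * Real.sin θ = Real.cos θ := by
      field_simp
      linarith
    have e2 : -(Real.sin θ / Real.cos θ) * Real.cos θ = -Real.sin θ := by field_simp
    have e3 : (Real.cos θ)⁻¹ • b + (-(Real.sin θ / Real.cos θ)) • x
        = (-(Real.sin θ / Real.cos θ) * Real.cos θ) • a
          + ((Real.cos θ)⁻¹ - Real.sin θ / Real.cos θ * Real.sin θ) • b := by
      rw [hx]
      module
    rw [e3, e, e2]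
  rw [h1, D_shear hφ, D_comm, D_smul (isVal_D hφ _), D_comm]
  have h2 : x = Real.cos θ • a + Real.sin θ • b := hx
  rw [D_comm, h2, D_shear hφ, D_comm, D_smul (isVal_D hφ _), ← mul_assoc, ← abs_mul,
    inv_mul_cancel₀ hθ, abs_one, one_mul]

theorem Ds_rot (hφ : IsVal φ) (a b : V) (rest : List V) (θ : ℝ) (hθ : Real.cos θ ≠ 0)
    (K : ConvexBody V) :
    MV.Ds ((Real.cos θ • a + Real.sin θ • b) :: ((-Real.sin θ) • a + Real.cos θ • b) :: rest) φ K
      = MV.Ds (a :: b :: rest) φ K := by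
  rw [Ds_cons, Ds_cons, Ds_cons, Ds_cons]
  exact D_rot (isVal_Ds hφ rest) a b θ hθ K

theorem map_rot2 {a b : V} (ha : ‖a‖ = 1) (hb : ‖b‖ = 1) (hab : ⟪a, b⟫_ℝ = 0) (rest : List V)
    (h1 : ∀ x ∈ rest, ⟪a, x⟫_ℝ = 0) (h2 : ∀ x ∈ rest, ⟪b, x⟫_ℝ = 0) (θ : ℝ) :
    rest.map (rot2 a b θ) = rest := by
  have : rest.map (rot2 a b θ) = rest.map id := by
    apply List.map_congr_left
    intro x hx
    exact rot2_perp ha hb hab θ (h1 x hx) (h2 x hx)
  rw [this, List.map_id]

theorem isoB_zero (g : V ≃ₗᵢ[ℝ] V) : isoB g (0 : ConvexBody V) = 0 := by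
  rw [← pt_zero, isoB_pt, map_zero]

/-- invariance of the sublinear function attached to an orthonormal list -/
theorem G_inv1 (hΦ : IsMVal Φ) {a b : V} (ha : ‖a‖ = 1) (hb : ‖b‖ = 1) (hab : ⟪a, b⟫_ℝ = 0)
    (rest : List V) (h1 : ∀ x ∈ rest, ⟪a, x⟫_ℝ = 0) (h2 : ∀ x ∈ rest, ⟪b, x⟫_ℝ = 0)
    (θ : ℝ) (hθ : Real.cos θ ≠ 0) (y : V) :
    MV.Ds (a :: b :: rest) (FF Φ (rot2 a b θ y)) 0 = MV.Ds (a :: b :: rest) (FF Φ y) 0 := by
  have h3 := Ds_FF_iso hΦ (rot2 a b θ) (rot_rot2 ha hb hab θ) (a :: b :: rest) y 0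
  rw [isoB_zero, List.map_cons, List.map_cons, map_rot2 ha hb hab rest h1 h2, rot2_a ha hb hab,
    rot2_b ha hb hab, Ds_rot (isVal_FF hΦ _) a b rest θ hθ] at h3
  exact h3

/-- invariance under rotations perpendicular to the list -/
theorem G_inv2 (hΦ : IsMVal Φ) {a b : V} (ha : ‖a‖ = 1) (hb : ‖b‖ = 1) (hab : ⟪a, b⟫_ℝ = 0)
    (zs : List V) (h1 : ∀ x ∈ zs, ⟪a, x⟫_ℝ = 0) (h2 : ∀ x ∈ zs, ⟪b, x⟫_ℝ = 0)
    (θ : ℝ) (y : V) :
    MV.Ds zs (FF Φ (rot2 a b θ y)) 0 = MV.Ds zs (FF Φ y) 0 := by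
  have h3 := Ds_FF_iso hΦ (rot2 a b θ) (rot_rot2 ha hb hab θ) zs y 0
  rw [isoB_zero, map_rot2 ha hb hab zs h1 h2] at h3
  exact h3

theorem orthonormal_cons_inv {x : V} {xs : List V}
    (ho : Orthonormal ℝ (fun i : Fin (x :: xs).length => (x :: xs).get i)) :
    ‖x‖ = 1 ∧ Orthonormal ℝ (fun i : Fin xs.length => xs.get i) ∧ ∀ y ∈ xs, ⟪x, y⟫_ℝ = 0 := by
  refine ⟨ho.1 ⟨0, by simp⟩, ⟨fun i => ho.1 i.succ, ?_⟩, ?_⟩
  · intro i j hij
    exact ho.2 (fun h => hij (Fin.succ_injective _ h))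
  · intro y hy
    obtain ⟨i, rfl⟩ := List.get_of_mem hy
    exact ho.2 (i := ⟨0, by simp⟩) (j := i.succ) (by
      intro h
      have := congrArg Fin.val h
      simp at this)

theorem hom_seg {A : ConvexBody V → ℝ} (h1 : IsHom 1 A) (x : V) : A (seg x) = MV.D x A 0 := by
  unfold MV.D
  rw [zero_add, IsHom.zero_body (j := 0) h1, sub_zero]

/-- value on a segment -/
theorem val_seg (hΦ : IsMVal Φ) (u : V) (xs : List V) (hj : xs.length + 1 ≤ Module.finrank ℝ V)
    (x : V) (t : ℝ) :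
    MV.Ds xs (MV.comp (xs.length + 1) (fun L => Nt t u (hs (Φ L)))) (seg x)
      = Nt t u (fun y => MV.Ds (x :: xs) (FF Φ y) 0) := by
  have hN := isVal_Nt hΦ t u
  have hh : IsHom 1 (MV.Ds xs (MV.comp (xs.length + 1) (fun L => Nt t u (hs (Φ L))))) := by
    apply Ds_hom (isVal_comp hN _)
    rw [add_comm]
    exact comp_isHom hN hj
  rw [hom_seg hh, ← Ds_cons, ← Ds_Nt hΦ t u (x :: xs) 0]
  have h1 := Ds_comp hN (x :: xs) 0 (by rw [List.length_cons]; omega) 0
  rw [List.length_cons, zero_add] at h1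
  rw [← h1, comp_zero (isVal_Ds hN _)]

end ProfA

open ProfA

/-- the segment in direction `u`, degree at least two -/
theorem prof_seg (_hn : 3 ≤ Module.finrank ℝ V) (hΦ : IsMVal Φ) (u : V) (hu : ‖u‖ = 1)
    (xs : List V) (ho : Orthonormal ℝ (fun i : Fin xs.length => xs.get i))
    (hx : ∀ x ∈ xs, ⟪u, x⟫_ℝ = 0) (hne : xs ≠ []) (hj : xs.length + 2 ≤ Module.finrank ℝ V) :
    Tendsto (fun t => Ds xs (comp (xs.length + 1) (fun L => Nt t u (hs (Φ L)))) (seg u))
      (𝓝[>] (0 : ℝ)) (𝓝 0) := by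
  obtain ⟨b, rest, rfl⟩ := List.exists_cons_of_ne_nil hne
  have hG := sublin_Ds_FF hΦ (u :: b :: rest) 0
  have h1 : ∀ t, Ds (b :: rest) (comp ((b :: rest).length + 1)
      (fun L => Nt t u (hs (Φ L)))) (seg u)
      = Nt t u (fun y => Ds (u :: b :: rest) (FF Φ y) 0) := fun t =>
    val_seg hΦ u (b :: rest) (by omega) u t
  simp only [h1]
  obtain ⟨hb, ho2, hb2⟩ := orthonormal_cons_inv ho
  have h2 : N0 u (fun y => Ds (u :: b :: rest) (FF Φ y) 0) = 0 := by
    apply N0_zero_of_inv hG u hu hu hb (hx b (by simp))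
    · rw [real_inner_self_eq_norm_sq, hu]; norm_num
    · intro θ hθ v
      exact G_inv1 hΦ hu hb (hx b (by simp)) rest (fun x hx' => hx x (by simp [hx']))
        (fun x hx' => hb2 x hx') θ hθ v
  have h3 := Nt_tendsto hG u
  rwa [h2] at h3

namespace ProfA

theorem exists_perp (zs : List V) (h : zs.length < Module.finrank ℝ V) :
    ∃ w : V, ‖w‖ = 1 ∧ ∀ z ∈ zs, ⟪w, z⟫_ℝ = 0 := by
  classical
  have h1 : (Submodule.span ℝ (zs.toFinset : Set V)) ≠ ⊤ := by
    intro h0
    have h2 := finrank_span_finset_le_card (R := ℝ) zs.toFinset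
    unfold Set.finrank at h2
    rw [h0, finrank_top] at h2
    have := List.toFinset_card_le zs
    omega
  have h2 : (Submodule.span ℝ (zs.toFinset : Set V))ᗮ ≠ ⊥ := by
    intro h0
    exact h1 ((Submodule.orthogonal_eq_bot_iff).1 h0)
  obtain ⟨z, hz, hz0⟩ := Submodule.exists_mem_ne_zero_of_ne_bot h2
  rw [Submodule.mem_orthogonal'] at hz
  refine ⟨‖z‖⁻¹ • z, ?_, ?_⟩
  · rw [norm_smul, norm_inv, norm_norm, inv_mul_cancel₀ (norm_ne_zero_iff.mpr hz0)]
  · intro y hy
    rw [real_inner_smul_left, hz y (Submodule.subset_span (by simpa using hy)), mul_zero]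

theorem Nt_G_iso (hΦ : IsMVal Φ) (R : V ≃ₗᵢ[ℝ] V) (hR : Rot R) (zs : List V) (t : ℝ) (u : V) :
    Nt t (R u) (fun y => MV.Ds (zs.map R) (FF Φ y) 0)
      = Nt t u (fun y => MV.Ds zs (FF Φ y) 0) := by
  have h1 := Nt_isom R t u (fun y => MV.Ds zs (FF Φ y) 0)
  rw [← h1]
  congr 1
  funext v
  have h3 := Ds_FF_iso hΦ R hR zs (R.symm v) 0
  rw [isoB_zero, LinearIsometryEquiv.apply_symm_apply] at h3
  exact h3

theorem det_iso (g : V ≃ₗᵢ[ℝ] V) : LinearMap.det (g.toLinearEquiv : V →ₗ[ℝ] V) = 1 ∨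
    LinearMap.det (g.toLinearEquiv : V →ₗ[ℝ] V) = -1 := by
  set L : V →ₗ[ℝ] V := (g.toLinearEquiv : V →ₗ[ℝ] V) with hL
  have hdet : LinearMap.det L ≠ 0 := (LinearEquiv.isUnit_det' g.toLinearEquiv).ne_zero
  have h1 := Measure.addHaar_preimage_linearMap (volume : Measure V) hdet (Metric.ball (0 : V) 1)
  have h2 : (volume : Measure V) (L ⁻¹' Metric.ball (0 : V) 1)
      = (volume : Measure V) (Metric.ball (0 : V) 1) :=
    g.measurePreserving.measure_preimage measurableSet_ball.nullMeasurableSet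
  rw [h2] at h1
  have hpos : (volume : Measure V) (Metric.ball (0 : V) 1) ≠ 0 :=
    (Metric.measure_ball_pos _ _ one_pos).ne'
  have hfin : (volume : Measure V) (Metric.ball (0 : V) 1) ≠ ∞ := measure_ball_lt_top.ne
  have h3 : ENNReal.ofReal |(LinearMap.det L)⁻¹| = 1 := by
    have h4 : ENNReal.ofReal |(LinearMap.det L)⁻¹| * (volume : Measure V) (Metric.ball (0 : V) 1)
        = 1 * (volume : Measure V) (Metric.ball (0 : V) 1) := by rw [one_mul]; exact h1.symm
    exact (ENNReal.mul_left_inj hpos hfin).mp h4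
  have h5 : |(LinearMap.det L)⁻¹| = 1 := by
    rw [ENNReal.ofReal_eq_one] at h3
    exact h3
  rw [abs_inv] at h5
  have h6 : |LinearMap.det L| = 1 := inv_eq_one.mp h5
  exact eq_or_eq_neg_of_abs_eq h6

/-- an orthonormal list of full length is a basis -/
theorem list_basis (l : List V) (hl : l.length = Module.finrank ℝ V)
    (ho : Orthonormal ℝ (fun i : Fin l.length => l.get i)) :
    ∃ b : OrthonormalBasis (Fin l.length) ℝ V, ∀ i, b i = l.get i := by
  have hcard : Fintype.card (Fin l.length) = Module.finrank ℝ V := by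
    rw [Fintype.card_fin, hl]
  have hsp : (⊤ : Submodule ℝ V) ≤ Submodule.span ℝ (Set.range fun i : Fin l.length => l.get i) := by
    rw [ho.linearIndependent.span_eq_top_of_card_eq_finrank' hcard]
  exact ⟨OrthonormalBasis.mk ho hsp, fun i => by rw [OrthonormalBasis.coe_mk]⟩

theorem zero_of_perp (l : List V) (hl : l.length = Module.finrank ℝ V)
    (ho : Orthonormal ℝ (fun i : Fin l.length => l.get i)) (w : V)
    (h : ∀ x ∈ l, ⟪x, w⟫_ℝ = 0) : w = 0 := by
  obtain ⟨b, hb⟩ := list_basis l hl ho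
  have h1 := b.sum_repr' w
  rw [← h1]
  refine Finset.sum_eq_zero fun i _ => ?_
  rw [hb, h _ (List.get_mem l i), zero_smul]

theorem exists_iso_lists (l l' : List V) (hl : l.length = Module.finrank ℝ V)
    (hl' : l'.length = Module.finrank ℝ V)
    (ho : Orthonormal ℝ (fun i : Fin l.length => l.get i))
    (ho' : Orthonormal ℝ (fun i : Fin l'.length => l'.get i)) :
    ∃ g : V ≃ₗᵢ[ℝ] V, l.map g = l' := by
  obtain ⟨b, hb⟩ := list_basis l hl ho
  obtain ⟨b', hb'⟩ := list_basis l' hl' ho'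
  have hll : l.length = l'.length := by rw [hl, hl']
  refine ⟨b.equiv b' (finCongr hll), ?_⟩
  apply List.ext_get
  · simp [hll]
  · intro i h1 h2
    rw [List.get_eq_getElem, List.getElem_map, List.get_eq_getElem]
    have h3 : i < l.length := by simpa using h1
    have h4 := b.equiv_apply_basis b' (finCongr hll) ⟨i, h3⟩
    rw [hb, hb'] at h4
    simpa using h4

/-- the value of the crease is independent of the basis -/
theorem kap_indep (hΦ : IsMVal Φ) (u e u' e' : V) (xs xs' : List V)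
    (hl : (u :: e :: xs).length = Module.finrank ℝ V)
    (hl' : (u' :: e' :: xs').length = Module.finrank ℝ V)
    (ho : Orthonormal ℝ (fun i : Fin (u :: e :: xs).length => (u :: e :: xs).get i))
    (ho' : Orthonormal ℝ (fun i : Fin (u' :: e' :: xs').length => (u' :: e' :: xs').get i))
    (t : ℝ) :
    Nt t u' (fun y => MV.Ds (e' :: xs') (FF Φ y) 0)
      = Nt t u (fun y => MV.Ds (e :: xs) (FF Φ y) 0) := by
  obtain ⟨g, hg⟩ := exists_iso_lists _ _ hl hl' ho ho'
  rw [List.map_cons, List.map_cons] at hg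
  injection hg with h1 h2
  injection h2 with h2 h3
  obtain ⟨hu, ho2, hu2⟩ := orthonormal_cons_inv ho
  obtain ⟨he, ho3, he2⟩ := orthonormal_cons_inv ho2
  rcases det_iso g with hd | hd
  · have h4 := Nt_G_iso hΦ g hd (e :: xs) t u
    rw [List.map_cons, h1, h2, h3] at h4
    exact h4
  · set r : V ≃ₗᵢ[ℝ] V := (ℝ ∙ e)ᗮ.reflection with hr
    have hre : r e = -e := by
      rw [hr, refl_apply e he, real_inner_self_eq_norm_sq, he]
      module
    have hru : r u = u := by
      rw [hr, refl_apply e he, real_inner_comm, hu2 e (by simp)]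
      simp
    have hrx : xs.map r = xs := by
      have : xs.map r = xs.map id := by
        apply List.map_congr_left
        intro x hx
        rw [hr, refl_apply e he, he2 x hx]
        simp
      rw [this, List.map_id]
    have he0 : e ≠ 0 := by
      intro h0
      rw [h0, norm_zero] at he
      norm_num at he
    have hrot : Rot (r.trans g) := by
      unfold Rot
      have h5 : ((r.trans g).toLinearEquiv : V →ₗ[ℝ] V)
          = (g.toLinearEquiv : V →ₗ[ℝ] V).comp (r.toLinearEquiv : V →ₗ[ℝ] V) := rfl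
      rw [h5, LinearMap.det_comp, hd, hr, det_refl e he0]
      norm_num
    have h4 := Nt_G_iso hΦ (r.trans g) hrot (e :: xs) t u
    have h6 : xs.map (r.trans g) = xs' := by
      have h60 : xs.map (r.trans g) = (xs.map r).map g := by
        rw [List.map_map]
        rfl
      rw [h60, hrx, h3]
    rw [List.map_cons, h6, LinearIsometryEquiv.trans_apply, LinearIsometryEquiv.trans_apply, hru,
      hre, map_neg, h1, h2] at h4
    have h7 : ∀ y, MV.Ds (-e' :: xs') (FF Φ y) 0 = MV.Ds (e' :: xs') (FF Φ y) 0 := by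
      intro y
      rw [Ds_cons, Ds_cons, D_neg (isVal_Ds (isVal_FF hΦ y) _)]
    simp only [h7] at h4
    exact h4

theorem Ds_bound (xs : List V) (φ : ConvexBody V → ℝ) (B : ℝ) : ∀ (r : ℝ),
    (∀ L : ConvexBody V, dist L 0 ≤ r + (xs.map (fun x => ‖x‖)).sum → |φ L| ≤ B) →
    ∀ K : ConvexBody V, dist K 0 ≤ r → |MV.Ds xs φ K| ≤ 2 ^ xs.length * B := by
  induction xs with
  | nil =>
    intro r h K hK
    rw [Ds_nil]
    simpa using h K (by simpa using hK)
  | cons x xs ih =>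
    intro r h K hK
    rw [Ds_cons]
    have h1 := ih (r + ‖x‖) (fun L hL => h L (by
      rw [List.map_cons, List.sum_cons]
      linarith))
    have h2 : dist (K + seg x) 0 ≤ r + ‖x‖ := by
      have h3 := dist_add_le K 0 (seg x) 0
      rw [add_zero] at h3
      have h4 := K1aux.dist_seg_zero x
      linarith
    have h5 := h1 (K + seg x) h2
    have h6 := h1 K (by have := norm_nonneg x; linarith)
    have h7 : MV.D x (MV.Ds xs φ) K = MV.Ds xs φ (K + seg x) - MV.Ds xs φ K := rfl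
    rw [h7, List.length_cons, pow_succ]
    have := abs_sub (MV.Ds xs φ (K + seg x)) (MV.Ds xs φ K)
    linarith

theorem hom_bound {A : ConvexBody V → ℝ} (h1 : IsHom 1 A) {B : ℝ}
    (hB : ∀ K : ConvexBody V, dist K 0 ≤ 1 → |A K| ≤ B) (K : ConvexBody V) :
    |A K| ≤ B * dist K 0 := by
  rcases (dist_nonneg (x := K) (y := 0)).eq_or_lt with h | h
  · have hK : K = 0 := dist_eq_zero.mp h.symm
    rw [← h, hK, IsHom.zero_body (j := 0) h1]
    simp
  · set r := dist K 0 with hr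
    have h2 : dist (r⁻¹ • K) 0 ≤ 1 := by
      have h3 := dist_smul_le r⁻¹ r⁻¹ K 0
      rw [smul_zero_body, sub_self, abs_zero, zero_mul, zero_add, abs_of_pos (inv_pos.mpr h),
        ← hr, inv_mul_cancel₀ h.ne'] at h3
      exact h3
    have h4 := hB _ h2
    rw [h1 r⁻¹ K (inv_nonneg.mpr h.le), pow_one, abs_mul, abs_of_pos (inv_pos.mpr h),
      inv_mul_le_iff₀ h] at h4
    linarith

/-- uniform bound of the profile functionals -/
theorem prof_bound (hΦ : IsMVal Φ) (xs : List V) (hj : xs.length + 1 ≤ Module.finrank ℝ V) :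
    ∃ C : ℝ, 0 ≤ C ∧ ∀ t : ℝ, 0 < t → ∀ u : V, ‖u‖ = 1 → ∀ K,
      |MV.Ds xs (MV.comp (xs.length + 1) (fun L => Nt t u (hs (Φ L)))) K| ≤ C * dist K 0 := by
  obtain ⟨C, hC0, hC⟩ := comp_Nt_bound hΦ (xs.length + 1) hj
  have hs0 : 0 ≤ (xs.map (fun x => ‖x‖)).sum := by
    apply List.sum_nonneg
    intro y hy
    obtain ⟨x, -, rfl⟩ := List.mem_map.mp hy
    exact norm_nonneg x
  refine ⟨2 ^ xs.length * (C * (1 + (xs.map (fun x => ‖x‖)).sum) ^ (xs.length + 1)),
    by positivity, ?_⟩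
  intro t ht u hu K
  have hN := isVal_Nt hΦ t u
  have hh : IsHom 1 (MV.Ds xs (MV.comp (xs.length + 1) (fun L => Nt t u (hs (Φ L))))) := by
    apply Ds_hom (isVal_comp hN _)
    rw [add_comm]
    exact comp_isHom hN hj
  apply hom_bound hh
  apply Ds_bound
  intro L hL
  refine (hC t ht u hu L).trans ?_
  apply mul_le_mul_of_nonneg_left _ hC0
  exact pow_le_pow_left₀ dist_nonneg hL _

theorem prof_isAdd (hΦ : IsMVal Φ) (xs : List V) (hj : xs.length + 1 ≤ Module.finrank ℝ V)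
    (t : ℝ) (u : V) :
    IsAdd (MV.Ds xs (MV.comp (xs.length + 1) (fun L => Nt t u (hs (Φ L))))) := by
  have hN := isVal_Nt hΦ t u
  apply IsVal.isAdd (isVal_Ds (isVal_comp hN _) xs)
  apply Ds_hom (isVal_comp hN _)
  rw [add_comm]
  exact comp_isHom hN hj

end ProfA

/-- the segment, degree one: a constant independent of `u` -/
theorem prof_seg_one (hn : 3 ≤ Module.finrank ℝ V) (hΦ : IsMVal Φ) :
    ∃ κ : ℝ, 0 ≤ κ ∧ ∀ u : V, ‖u‖ = 1 →
      Tendsto (fun t => comp 1 (fun L => Nt t u (hs (Φ L))) (seg u)) (𝓝[>] (0 : ℝ)) (𝓝 κ) := by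
  obtain ⟨u0, hu0, -⟩ := exists_perp (V := V) [] (by simp; omega)
  refine ⟨N0 u0 (fun y => Ds [u0] (FF Φ y) 0), N0_nonneg (sublin_Ds_FF hΦ [u0] 0) u0, ?_⟩
  intro u hu
  have h1 : ∀ t, comp 1 (fun L => Nt t u (hs (Φ L))) (seg u)
      = Nt t u (fun y => Ds [u] (FF Φ y) 0) := fun t =>
    val_seg hΦ u [] (by simp; omega) u t
  obtain ⟨e, he, he2⟩ := exists_perp (V := V) [u0, u] (by simp; omega)
  obtain ⟨g, ⟨-, hgR⟩, hgu⟩ := Gax_trans e u0 u he (by omega) (by rw [hu0, hu])
    (by rw [he2 u0 (by simp), he2 u (by simp)])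
  have hrot : Rot g := by
    rcases hgR with h | h
    · exact h
    · omega
  have h2 : ∀ t, Nt t u (fun y => Ds [u] (FF Φ y) 0) = Nt t u0 (fun y => Ds [u0] (FF Φ y) 0) := by
    intro t
    have h3 := Nt_G_iso hΦ g hrot [u0] t u0
    rw [List.map_cons, List.map_nil, hgu] at h3
    exact h3
  simp only [h1, h2]
  exact Nt_tendsto (sublin_Ds_FF hΦ [u0] 0) u0

/-- discs -/
theorem prof_disc_low (_hn : 3 ≤ Module.finrank ℝ V) (hΦ : IsMVal Φ) (u : V) (hu : ‖u‖ = 1)
    (xs : List V) (_ho : Orthonormal ℝ (fun i : Fin xs.length => xs.get i))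
    (hx : ∀ x ∈ xs, ⟪u, x⟫_ℝ = 0) (hj : xs.length + 3 ≤ Module.finrank ℝ V) :
    Tendsto (fun t => Ds xs (comp (xs.length + 1) (fun L => Nt t u (hs (Φ L)))) (disc u))
      (𝓝[>] (0 : ℝ)) (𝓝 0) := by
  obtain ⟨C, hC0, hC⟩ := prof_bound hΦ xs (by omega)
  have hT : ∀ v, hs (disc u) v = ‖ContinuousLinearMap.adjoint (prjL u) v‖ := by
    intro v
    rw [hs_disc, adjoint_prjL, prjL_apply]
    congr 1
    unfold prj
    congr 2
    ring
  have h1 : ∀ t, Ds xs (comp (xs.length + 1) (fun L => Nt t u (hs (Φ L)))) (disc u)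
      = Real.sqrt (2 * Real.pi) * ∫ g, Ds xs (comp (xs.length + 1)
        (fun L => Nt t u (hs (Φ L)))) (seg (prjL u g)) ∂(stdGaussian V) := fun t =>
    disc_mint (prof_isAdd hΦ xs (by omega) t u) (prjL u) (disc u) hT
  simp only [h1]
  have goal : Tendsto (fun t => ∫ g, Ds xs (comp (xs.length + 1)
        (fun L => Nt t u (hs (Φ L)))) (seg (prjL u g)) ∂(stdGaussian V)) (𝓝[>] (0 : ℝ))
        (𝓝 (∫ _ : V, (0 : ℝ) ∂(stdGaussian V))) := ?_
  · have := goal.const_mul (Real.sqrt (2 * Real.pi))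
    simpa using this
  refine tendsto_integral_filter_of_dominated_convergence (fun g => C * ‖prjL u g‖) ?_ ?_ ?_ ?_
  · refine Eventually.of_forall fun t => ?_
    exact ((prof_isAdd hΦ xs (by omega) t u).cont.comp
      (continuous_seg.comp (prjL u).continuous)).aestronglyMeasurable
  · filter_upwards [self_mem_nhdsWithin] with t ht
    refine Eventually.of_forall fun g => ?_
    rw [Real.norm_eq_abs]
    refine (hC t ht u hu _).trans ?_
    exact mul_le_mul_of_nonneg_left (K1aux.dist_seg_zero _) hC0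
  · refine Integrable.const_mul ?_ C
    refine Integrable.mono' (integrable_norm_gauss.const_mul ‖prjL u‖)
      (Continuous.aestronglyMeasurable (by fun_prop)) ?_
    refine Eventually.of_forall fun g => ?_
    rw [norm_norm]
    exact (prjL u).le_opNorm g
  · refine Eventually.of_forall fun g => ?_
    set x := prjL u g with hxg
    have hu0 : u ≠ 0 := by
      intro h0
      rw [h0, norm_zero] at hu
      norm_num at hu
    have hux : ⟪u, x⟫_ℝ = 0 := inner_prjL hu0 g
    have hG := sublin_Ds_FF hΦ (x :: xs) 0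
    have h2 : ∀ t, Ds xs (comp (xs.length + 1) (fun L => Nt t u (hs (Φ L)))) (seg x)
        = Nt t u (fun y => Ds (x :: xs) (FF Φ y) 0) := fun t => val_seg hΦ u xs (by omega) x t
    simp only [h2]
    obtain ⟨w, hw, hw2⟩ := exists_perp (V := V) (u :: x :: xs) (by simp; omega)
    have huw : ⟪u, w⟫_ℝ = 0 := by rw [real_inner_comm]; exact hw2 u (by simp)
    have h3 : N0 u (fun y => Ds (x :: xs) (FF Φ y) 0) = 0 := by
      apply N0_zero_of_inv hG u hu hu hw huw
      · rw [real_inner_self_eq_norm_sq, hu]; norm_num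
      · intro θ _ v
        apply G_inv2 hΦ hu hw huw (x :: xs)
        · intro z hz
          rcases List.mem_cons.mp hz with rfl | hz
          · exact hux
          · exact hx z hz
        · intro z hz
          exact hw2 z (by simp only [List.mem_cons] at hz ⊢; tauto)
    have h4 := Nt_tendsto hG u
    rwa [h3] at h4

namespace ProfA

theorem ocons {x : V} {xs : List V} (hx : ‖x‖ = 1)
    (ho : Orthonormal ℝ (fun i : Fin xs.length => xs.get i)) (h : ∀ y ∈ xs, ⟪x, y⟫_ℝ = 0) :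
    Orthonormal ℝ (fun i : Fin (x :: xs).length => (x :: xs).get i) := by
  constructor
  · intro i
    refine Fin.cases ?_ (fun i => ?_) i
    · exact hx
    · exact ho.1 i
  · intro i j
    refine Fin.cases ?_ (fun i => ?_) i
    · refine Fin.cases ?_ (fun j => ?_) j
      · intro hij
        exact absurd rfl hij
      · intro _
        exact h _ (List.get_mem xs j)
    · refine Fin.cases ?_ (fun j => ?_) j
      · intro _
        have := h _ (List.get_mem xs i)
        rw [real_inner_comm] at this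
        exact this
      · intro hij
        exact ho.2 (fun h' => hij (congrArg Fin.succ h'))

theorem exists_orthonormal_list (k : ℕ) (hk : k ≤ Module.finrank ℝ V) :
    ∃ l : List V, l.length = k ∧ Orthonormal ℝ (fun i : Fin l.length => l.get i) := by
  induction k with
  | zero =>
    refine ⟨[], rfl, ⟨fun i => i.elim0, fun i => i.elim0⟩⟩
  | succ k ih =>
    obtain ⟨l, hl, ho⟩ := ih (by omega)
    obtain ⟨w, hw, hw2⟩ := exists_perp (V := V) l (by omega)
    exact ⟨w :: l, by rw [List.length_cons, hl], ocons hw ho hw2⟩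

theorem Nt_const_mul (t : ℝ) (u : V) (c : ℝ) (g : V → ℝ) :
    Nt t u (fun y => c * g y) = c * Nt t u g := by
  unfold Nt
  have h1 : (fun z => c * g (prj u z + t • u) + c * g (prj u z - t • u) - 2 * (c * g (prj u z)))
      = fun z => c * (g (prj u z + t • u) + g (prj u z - t • u) - 2 * g (prj u z)) := by
    funext z
    ring
  rw [h1, integral_const_mul]
  ring

theorem Ds_smul_cons (hΦ : IsMVal Φ) (c : ℝ) (x : V) (xs : List V) (y : V) :
    MV.Ds ((c • x) :: xs) (FF Φ y) 0 = |c| * MV.Ds (x :: xs) (FF Φ y) 0 := by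
  rw [Ds_cons, Ds_cons, D_smul (isVal_Ds (isVal_FF hΦ y) _)]

/-- no crease across a direction which is not perpendicular to `x` -/
theorem N0_slant (hΦ : IsMVal Φ) {u : V} (hu : ‖u‖ = 1) {x b : V} (rest : List V)
    (hb : ‖b‖ = 1) (hxb : ⟪x, b⟫_ℝ = 0) (hxr : ∀ y ∈ rest, ⟪x, y⟫_ℝ = 0)
    (hbr : ∀ y ∈ rest, ⟪b, y⟫_ℝ = 0) (hux : ⟪x, u⟫_ℝ ≠ 0) :
    N0 u (fun y => MV.Ds (x :: b :: rest) (FF Φ y) 0) = 0 := by
  have hx0 : x ≠ 0 := by
    intro h0
    rw [h0, inner_zero_left] at hux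
    exact hux rfl
  have hn0 : ‖x‖ ≠ 0 := norm_ne_zero_iff.mpr hx0
  set a := ‖x‖⁻¹ • x with ha
  have hxa : x = ‖x‖ • a := by rw [ha, smul_smul, mul_inv_cancel₀ hn0, one_smul]
  have ha1 : ‖a‖ = 1 := by rw [ha, norm_smul, norm_inv, norm_norm, inv_mul_cancel₀ hn0]
  have hab : ⟪a, b⟫_ℝ = 0 := by rw [ha, real_inner_smul_left, hxb, mul_zero]
  have har : ∀ y ∈ rest, ⟪a, y⟫_ℝ = 0 := by
    intro y hy
    rw [ha, real_inner_smul_left, hxr y hy, mul_zero]
  refine N0_zero_of_inv (sublin_Ds_FF hΦ (x :: b :: rest) 0) u hu ha1 hb hab ?_ ?_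
  · rw [ha, real_inner_smul_left]
    exact mul_ne_zero (inv_ne_zero hn0) hux
  · intro θ hθ v
    have h1 := Ds_smul_cons hΦ ‖x‖ a (b :: rest) (rot2 a b θ v)
    have h2 := Ds_smul_cons hΦ ‖x‖ a (b :: rest) v
    rw [← hxa] at h1 h2
    rw [h1, h2, G_inv1 hΦ ha1 hb hab rest har hbr θ hθ v]

theorem comp_rot (hΦ : IsMVal Φ) (ρ : V ≃ₗᵢ[ℝ] V) (hρ : Rot ρ) (u : V) (hρu : ρ u = -u)
    (j : ℕ) (t : ℝ) (K : ConvexBody V) :
    MV.comp j (fun L => Nt t u (hs (Φ L))) (isoB ρ K)
      = MV.comp j (fun L => Nt t u (hs (Φ L))) K := by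
  have h1 : ∀ L : ConvexBody V, Nt t u (hs (Φ (isoB ρ L))) = Nt t u (hs (Φ L)) := by
    intro L
    have h2 := Nt_isom ρ t u (hs (Φ L))
    rw [hρu, Nt_neg] at h2
    rw [← h2, hΦ.equi ρ hρ]
    congr 1
    funext v
    rw [hs_isoB]
  unfold MV.comp
  refine Finset.sum_congr rfl fun k _ => ?_
  rw [← isoB_smul]
  exact congrArg _ (h1 _)

theorem max_id (α p : ℝ) :
    |p| + max |p| |α| + (α + p) = max 0 (2 * p) + max 0 (α - p) + max 0 (α + p) := by
  rcases le_total 0 p with hp | hp <;> rcases le_total 0 (α - p) with h1 | h1 <;>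
    rcases le_total 0 (α + p) with h2 | h2 <;> rcases le_total 0 α with h3 | h3
  all_goals
    first
    | rw [abs_of_nonneg hp]
    | rw [abs_of_nonpos hp]
  all_goals
    first
    | rw [abs_of_nonneg h3]
    | rw [abs_of_nonpos h3]
  all_goals
    first
    | rw [max_eq_right h1]
    | rw [max_eq_left h1]
  all_goals
    first
    | rw [max_eq_right h2]
    | rw [max_eq_left h2]
  all_goals
    first
    | rw [max_eq_right (show (0 : ℝ) ≤ 2 * p by linarith)]
    | rw [max_eq_left (show 2 * p ≤ (0 : ℝ) by linarith)]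
  all_goals
    first
    | (rw [max_eq_right (by linarith)]; linarith)
    | (rw [max_eq_left (by linarith)]; linarith)

theorem Tb_sym (θ α β : ℝ) :
    (max 0 (α - θ * |β|) + max θ 0 * |β|) + (max 0 (-α - θ * |β|) + max θ 0 * |β|)
      = |θ * β| + max |θ * β| |α| := by
  rw [abs_mul]
  have hb := abs_nonneg β
  rcases le_total 0 θ with hθ | hθ
  · rw [abs_of_nonneg hθ, max_eq_left hθ]
    set q := θ * |β| with hq
    have hq0 : 0 ≤ q := mul_nonneg hθ hb
    rcases le_total 0 α with h | h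
    · rw [abs_of_nonneg h, max_eq_left (show -α - q ≤ 0 by linarith)]
      rcases le_total 0 (α - q) with h1 | h1
      · rw [max_eq_right h1, max_eq_right (by linarith)]
        ring
      · rw [max_eq_left h1, max_eq_left (by linarith)]
        ring
    · rw [abs_of_nonpos h, max_eq_left (show α - q ≤ 0 by linarith)]
      rcases le_total 0 (-α - q) with h1 | h1
      · rw [max_eq_right h1, max_eq_right (by linarith)]
        ring
      · rw [max_eq_left h1, max_eq_left (by linarith)]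
        ring
  · rw [abs_of_nonpos hθ, max_eq_right hθ]
    have hq : -θ * |β| = -(θ * |β|) := by ring
    rw [hq]
    set q := θ * |β| with hq
    have hq0 : q ≤ 0 := mul_nonpos_of_nonpos_of_nonneg hθ hb
    rcases le_total 0 α with h | h
    · rw [abs_of_nonneg h, max_eq_right (show 0 ≤ α - q by linarith)]
      rcases le_total 0 (-α - q) with h1 | h1
      · rw [max_eq_right h1, max_eq_left (by linarith)]
        ring
      · rw [max_eq_left h1, max_eq_right (by linarith)]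
        ring
    · rw [abs_of_nonpos h, max_eq_right (show 0 ≤ -α - q by linarith)]
      rcases le_total 0 (α - q) with h1 | h1
      · rw [max_eq_right h1, max_eq_left (by linarith)]
        ring
      · rw [max_eq_left h1, max_eq_right (by linarith)]
        ring

end ProfA

/-- degree `n-1` -/
theorem prof_top (hn : 3 ≤ Module.finrank ℝ V) (hΦ : IsMVal Φ) :
    ∃ κ : ℝ, 0 ≤ κ ∧ ∀ u : V, ‖u‖ = 1 → ∀ xs : List V,
      Orthonormal ℝ (fun i : Fin xs.length => xs.get i) →
      (∀ x ∈ xs, ⟪u, x⟫_ℝ = 0) → xs.length + 2 = Module.finrank ℝ V →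
      (∀ θ : ℝ, Tendsto (fun t => Ds xs (comp (xs.length + 1)
        (fun L => Nt t u (hs (Φ L)))) (Tb u θ)) (𝓝[>] (0 : ℝ)) (𝓝 (κ * |θ|))) ∧
      Tendsto (fun t => Ds xs (comp (xs.length + 1)
        (fun L => Nt t u (hs (Φ L)))) (disc u)) (𝓝[>] (0 : ℝ)) (𝓝 (κ * 2)) := by
  obtain ⟨l0, hl0, ho0⟩ := exists_orthonormal_list (V := V) (Module.finrank ℝ V) le_rfl
  obtain ⟨u0, l1, rfl⟩ : ∃ u0 l1, l0 = u0 :: l1 := by
    apply List.exists_cons_of_ne_nil
    rintro rfl
    simp at hl0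
    omega
  obtain ⟨e0, xs0, rfl⟩ : ∃ e0 xs0, l1 = e0 :: xs0 := by
    apply List.exists_cons_of_ne_nil
    rintro rfl
    simp at hl0
    omega
  refine ⟨N0 u0 (fun y => Ds (e0 :: xs0) (FF Φ y) 0),
    N0_nonneg (sublin_Ds_FF hΦ (e0 :: xs0) 0) u0, ?_⟩
  set κ := N0 u0 (fun y => Ds (e0 :: xs0) (FF Φ y) 0) with hκ
  intro u hu xs ho hx hj
  obtain ⟨e, he, he2⟩ := exists_perp (V := V) (u :: xs) (by simp; omega)
  have heu : ⟪e, u⟫_ℝ = 0 := he2 u (by simp)
  have hue : ⟪u, e⟫_ℝ = 0 := by rw [real_inner_comm]; exact heu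
  have hex : ∀ x ∈ xs, ⟪e, x⟫_ℝ = 0 := fun x hx' => he2 x (by simp [hx'])
  have hee : ⟪e, e⟫_ℝ = 1 := by rw [real_inner_self_eq_norm_sq, he]; norm_num
  have huu : ⟪u, u⟫_ℝ = 1 := by rw [real_inner_self_eq_norm_sq, hu]; norm_num
  have ho2 : Orthonormal ℝ (fun i : Fin (u :: e :: xs).length => (u :: e :: xs).get i) := by
    apply ocons hu (ocons he ho hex)
    intro y hy
    rcases List.mem_cons.mp hy with rfl | hy
    · exact hue
    · exact hx y hy
  have hlen : (u :: e :: xs).length = Module.finrank ℝ V := by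
    simp only [List.length_cons]
    omega
  have hvs : ∀ (x : V) (t : ℝ), Ds xs (comp (xs.length + 1) (fun L => Nt t u (hs (Φ L)))) (seg x)
      = Nt t u (fun y => Ds (x :: xs) (FF Φ y) 0) := fun x t => val_seg hΦ u xs (by omega) x t
  have hseg_e : ∀ c : ℝ, Tendsto (fun t => Ds xs (comp (xs.length + 1)
      (fun L => Nt t u (hs (Φ L)))) (seg (c • e))) (𝓝[>] (0 : ℝ)) (𝓝 (|c| * κ)) := by
    intro c
    have h1 : ∀ t, Ds xs (comp (xs.length + 1) (fun L => Nt t u (hs (Φ L)))) (seg (c • e))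
        = |c| * Nt t u0 (fun y => Ds (e0 :: xs0) (FF Φ y) 0) := by
      intro t
      rw [hvs, ← kap_indep hΦ u0 e0 u e xs0 xs hl0 hlen ho0 ho2 t, ← Nt_const_mul]
      congr 1
      funext y
      exact Ds_smul_cons hΦ c e xs y
    simp only [h1]
    exact (Nt_tendsto (sublin_Ds_FF hΦ (e0 :: xs0) 0) u0).const_mul _
  have hslant : ∀ x : V, (∀ y ∈ xs, ⟪x, y⟫_ℝ = 0) → ⟪x, u⟫_ℝ ≠ 0 →
      Tendsto (fun t => Ds xs (comp (xs.length + 1)
      (fun L => Nt t u (hs (Φ L)))) (seg x)) (𝓝[>] (0 : ℝ)) (𝓝 0) := by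
    intro x hx1 hx2
    simp only [hvs]
    have h1 := Nt_tendsto (sublin_Ds_FF hΦ (x :: xs) 0) u
    obtain ⟨b, rest, rfl⟩ := List.exists_cons_of_ne_nil (l := xs) (by
      rintro rfl
      simp at hj
      omega)
    obtain ⟨hb, -, hb2⟩ := orthonormal_cons_inv ho
    rwa [N0_slant hΦ hu rest hb (hx1 b (by simp)) (fun y hy => hx1 y (by simp [hy])) hb2 hx2]
      at h1
  have hdec : ∀ v : V, (∀ x ∈ xs, ⟪v, x⟫_ℝ = 0) → ‖prj u v‖ = |⟪e, v⟫_ℝ| := by
    intro v hv
    have h1 : prj u v - ⟪e, v⟫_ℝ • e = 0 := by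
      apply zero_of_perp (u :: e :: xs) hlen ho2
      intro y hy
      have hprj : prj u v = v - ⟪u, v⟫_ℝ • u := by
        unfold prj
        rw [hu]
        norm_num
      rw [hprj, inner_sub_right, inner_sub_right, real_inner_smul_right, real_inner_smul_right]
      rcases List.mem_cons.mp hy with rfl | hy
      · rw [huu, hue]
        ring
      · rcases List.mem_cons.mp hy with rfl | hy
        · rw [hee, heu]
          ring
        · have g1 : ⟪y, v⟫_ℝ = 0 := by rw [real_inner_comm]; exact hv y hy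
          have g2 : ⟪y, u⟫_ℝ = 0 := by rw [real_inner_comm]; exact hx y hy
          have g3 : ⟪y, e⟫_ℝ = 0 := by rw [real_inner_comm]; exact hex y hy
          rw [g1, g2, g3]
          ring
    rw [sub_eq_zero.mp h1, norm_smul, he, mul_one, Real.norm_eq_abs]
  have hVal : ∀ t, IsVal (comp (xs.length + 1) (fun L => Nt t u (hs (Φ L)))) := fun t =>
    isVal_comp (isVal_Nt hΦ t u) _
  have hAdd : ∀ t, IsAdd (Ds xs (comp (xs.length + 1) (fun L => Nt t u (hs (Φ L))))) := fun t =>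
    prof_isAdd hΦ xs (by omega) t u
  constructor
  · intro θ
    set ρ := rot2 u e Real.pi with hρ
    have hρu : ρ u = -u := by
      rw [hρ, rot2_a hu he hue, Real.cos_pi, Real.sin_pi]
      module
    have hρe : ρ e = -e := by
      rw [hρ, rot2_b hu he hue, Real.cos_pi, Real.sin_pi]
      module
    have hρx : xs.map ρ = xs := map_rot2 hu he hue xs hx hex _
    have hρR : Rot ρ := rot_rot2 hu he hue _
    have h1 : ∀ t K, Ds xs (comp (xs.length + 1) (fun L => Nt t u (hs (Φ L)))) (isoB ρ K)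
        = Ds xs (comp (xs.length + 1) (fun L => Nt t u (hs (Φ L)))) K := by
      intro t K
      have h2 := Ds_iso ρ xs (comp (xs.length + 1) (fun L => Nt t u (hs (Φ L)))) K
      rw [hρx] at h2
      rw [← h2]
      congr 1
      funext L
      exact comp_rot hΦ ρ hρR u hρu _ t L
    have h2 : ∀ t, 2 * Ds xs (comp (xs.length + 1) (fun L => Nt t u (hs (Φ L)))) (Tb u θ)
        = Ds xs (comp (xs.length + 1) (fun L => Nt t u (hs (Φ L)))) (seg ((2 * θ) • e))
          + Ds xs (comp (xs.length + 1) (fun L => Nt t u (hs (Φ L)))) (seg (u - θ • e))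
          + Ds xs (comp (xs.length + 1) (fun L => Nt t u (hs (Φ L)))) (seg (u + θ • e)) := by
      intro t
      have h3 : Ds xs (comp (xs.length + 1) (fun L => Nt t u (hs (Φ L))))
          (Tb u θ + isoB ρ (Tb u θ) + pt (u + θ • e))
          = Ds xs (comp (xs.length + 1) (fun L => Nt t u (hs (Φ L))))
            (seg ((2 * θ) • e) + seg (u - θ • e) + seg (u + θ • e)) := by
        apply Ds_congr (hVal t)
        intro v hv
        have hsym : ∀ x ∈ xs, ⟪ρ.symm v, x⟫_ℝ = 0 := by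
          intro x hx'
          have h4 : ρ x = x := rot2_perp hu he hue _ (hx x hx') (hex x hx')
          rw [← h4, ← ρ.inner_map_map, LinearIsometryEquiv.apply_symm_apply, h4, h4]
          exact hv x hx'
        have hs1 : ⟪u, ρ.symm v⟫_ℝ = -⟪u, v⟫_ℝ := by
          rw [← ρ.inner_map_map, LinearIsometryEquiv.apply_symm_apply, hρu, inner_neg_left]
        have hs2 : ⟪e, ρ.symm v⟫_ℝ = -⟪e, v⟫_ℝ := by
          rw [← ρ.inner_map_map, LinearIsometryEquiv.apply_symm_apply, hρe, inner_neg_left]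
        rw [hs_add, hs_add, hs_add, hs_add, hs_isoB, hs_Tb, hs_Tb, hs_pt, hs_seg, hs_seg, hs_seg,
          hdec v hv, hdec _ hsym, hs1, hs2, abs_neg, Tb_sym, inner_add_right, inner_sub_right,
          real_inner_smul_right, real_inner_smul_right, real_inner_comm u v,
          real_inner_comm e v, mul_assoc]
        exact max_id _ _
      rw [(hAdd t).add, (hAdd t).add, (hAdd t).add, (hAdd t).add, (hAdd t).pt, h1] at h3
      linarith
    have h3 : Tendsto (fun t => 2 * Ds xs (comp (xs.length + 1)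
        (fun L => Nt t u (hs (Φ L)))) (Tb u θ)) (𝓝[>] (0 : ℝ)) (𝓝 (|2 * θ| * κ + 0 + 0)) := by
      simp only [h2]
      refine ((hseg_e _).add (hslant _ ?_ ?_)).add (hslant _ ?_ ?_)
      · intro y hy
        rw [inner_sub_left, real_inner_smul_left, hx y hy, hex y hy]
        ring
      · rw [inner_sub_left, real_inner_smul_left, huu, heu]
        norm_num
      · intro y hy
        rw [inner_add_left, real_inner_smul_left, hx y hy, hex y hy]
        ring
      · rw [inner_add_left, real_inner_smul_left, huu, heu]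
        norm_num
    have h4 := h3.const_mul (1 / 2)
    have h5 : (1 / 2) * (|2 * θ| * κ + 0 + 0) = κ * |θ| := by
      rw [abs_mul, abs_of_pos (by norm_num : (0 : ℝ) < 2)]
      ring
    rw [h5] at h4
    refine h4.congr fun t => ?_
    ring
  · have h2 : ∀ t, Ds xs (comp (xs.length + 1) (fun L => Nt t u (hs (Φ L)))) (disc u)
        = Ds xs (comp (xs.length + 1) (fun L => Nt t u (hs (Φ L)))) (seg ((1 : ℝ) • e))
          + Ds xs (comp (xs.length + 1) (fun L => Nt t u (hs (Φ L)))) (seg ((-1 : ℝ) • e)) := by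
      intro t
      rw [← (hAdd t).add]
      apply Ds_congr (hVal t)
      intro v hv
      rw [hs_disc, hs_add, hs_seg, hs_seg, hdec v hv, real_inner_smul_right,
        real_inner_smul_right, real_inner_comm e v]
      rcases le_total 0 ⟪e, v⟫_ℝ with h | h
      · rw [abs_of_nonneg h, max_eq_right (by linarith), max_eq_left (by linarith)]
        ring
      · rw [abs_of_nonpos h, max_eq_left (by linarith), max_eq_right (by linarith)]
        ring
    simp only [h2]
    have h3 := (hseg_e 1).add (hseg_e (-1))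
    have h5 : |(1 : ℝ)| * κ + |(-1 : ℝ)| * κ = κ * 2 := by
      rw [abs_neg, abs_one]
      ring
    rwa [h5] at h3

end ProfA
end MV
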