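import Pool.Agent.Lib.MP_f30071_gt.RfGeo
import Pool.Agent.Lib.MP_f30071_gt.ZonalU
import Pool.Agent.Lib.MP_f30071_gt.InvNull

open MeasureTheory ProbabilityTheory Filter Topology Set
open scoped InnerProductSpace Pointwise NNReal ENNReal CompactlySupported

namespace MV
namespace RfRep

variable {V : Type*} [NormedAddCommGroup V] [InnerProductSpace ℝ V]

theorem det_trans (g h : V ≃ₗᵢ[ℝ] V) :
    LinearMap.det ((g.trans h).toLinearEquiv : V →ₗ[ℝ] V) =
      LinearMap.det (h.toLinearEquiv : V →ₗ[ℝ] V) * LinearMap.det (g.toLinearEquiv : V →ₗ[ℝ] V) := by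
  have h1 : ((g.trans h).toLinearEquiv : V →ₗ[ℝ] V) =
      (h.toLinearEquiv : V →ₗ[ℝ] V).comp (g.toLinearEquiv : V →ₗ[ℝ] V) := rfl
  rw [h1, LinearMap.det_comp]

theorem Rot_refl : Rot (LinearIsometryEquiv.refl ℝ V) := by
  unfold Rot
  exact LinearMap.det_id

theorem Rot_trans {g h : V ≃ₗᵢ[ℝ] V} (hg : Rot g) (hh : Rot h) : Rot (g.trans h) := by
  unfold Rot at *
  rw [det_trans, hg, hh, one_mul]

variable [FiniteDimensional ℝ V]

theorem det_iso (g : V ≃ₗᵢ[ℝ] V) : LinearMap.det (g.toLinearEquiv : V →ₗ[ℝ] V) = 1 ∨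
    LinearMap.det (g.toLinearEquiv : V →ₗ[ℝ] V) = -1 := by
  have h1 := g.toLinearIsometry.normDet_eq_one
  have h2 := LinearMap.normDet_eq_abs_det (g.toLinearEquiv : V →ₗ[ℝ] V)
  have h3 : (g.toLinearEquiv : V →ₗ[ℝ] V) = g.toLinearIsometry.toLinearMap := rfl
  rw [h3] at h2 ⊢
  rw [h1] at h2
  exact eq_or_eq_neg_of_abs_eq h2.symm

theorem det_refl {w : V} (hw : w ≠ 0) :
    LinearMap.det (((ℝ ∙ w)ᗮ.reflection).toLinearEquiv : V →ₗ[ℝ] V) = -1 := by
  have h1 := (ℝ ∙ w)ᗮ.det_reflection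
  rw [Submodule.orthogonal_orthogonal, finrank_span_singleton hw, pow_one] at h1
  exact h1

theorem ext_iso (E : Submodule ℝ V) (g : E ≃ₗᵢ[ℝ] E) :
    ∃ G : V ≃ₗᵢ[ℝ] V, (∀ x : E, G x = g x) ∧ ∀ x ∈ Eᗮ, G x = x := by
  set P := E.orthogonalProjectionOnto with hP
  set f : V →ₗ[ℝ] V := E.subtype ∘ₗ (g.toLinearEquiv : E →ₗ[ℝ] E) ∘ₗ
    (P : V →L[ℝ] E).toLinearMap +
      (LinearMap.id - (E.subtype ∘ₗ (P : V →L[ℝ] E).toLinearMap)) with hf
  have hfx : ∀ x, f x = (g (P x) : V) + (x - P x) := by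
    intro x; simp [hf]
  have hn : ∀ x, ‖f x‖ = ‖x‖ := by
    intro x
    rw [hfx]
    have h1 : x - (P x : V) ∈ Eᗮ := E.sub_starProjection_mem_orthogonal x
    have h2 : ⟪(g (P x) : V), x - (P x : V)⟫_ℝ = 0 := h1 _ (g (P x)).2
    have h3 : ⟪(P x : V), x - (P x : V)⟫_ℝ = 0 := h1 _ (P x).2
    have h4 := norm_add_sq_eq_norm_sq_add_norm_sq_of_inner_eq_zero _ _ h2
    have h5 := norm_add_sq_eq_norm_sq_add_norm_sq_of_inner_eq_zero _ _ h3
    rw [add_sub_cancel] at h5
    have h6 : ‖(g (P x) : V)‖ = ‖(P x : V)‖ := g.norm_map (P x)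
    rw [h6, ← h5] at h4
    nlinarith [norm_nonneg ((g (P x) : V) + (x - P x)), norm_nonneg x]
  set F : V →ₗᵢ[ℝ] V := ⟨f, hn⟩
  refine ⟨F.toLinearIsometryEquiv rfl, ?_, ?_⟩
  · intro x
    rw [LinearIsometry.coe_toLinearIsometryEquiv]
    change f x = _
    rw [hfx]
    simp [hP]
  · intro x hx
    rw [LinearIsometry.coe_toLinearIsometryEquiv]
    change f x = _
    rw [hfx]
    have : P x = 0 := by
      rwa [hP, Submodule.orthogonalProjectionOnto_eq_zero_iff]
    rw [this]; simp

omit [FiniteDimensional ℝ V] in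
theorem orthonormal_uncons {x : V} {xs : List V}
    (h : Orthonormal ℝ (fun i : Fin (x :: xs).length => (x :: xs).get i)) :
    ‖x‖ = 1 ∧ (∀ y ∈ xs, ⟪x, y⟫_ℝ = 0) ∧ Orthonormal ℝ (fun i : Fin xs.length => xs.get i) := by
  refine ⟨h.1 ⟨0, by simp⟩, ?_, ?_⟩
  · intro y hy
    obtain ⟨i, hi⟩ := List.get_of_mem hy
    have := h.2 (i := ⟨0, by simp⟩) (j := i.succ) (by intro h; exact absurd h.symm (Fin.succ_ne_zero i))
    rw [← hi]
    exact this
  · exact h.comp Fin.succ (Fin.succ_injective _)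

omit [FiniteDimensional ℝ V] in
theorem orthonormal_map (g : V ≃ₗᵢ[ℝ] V) {xs : List V}
    (h : Orthonormal ℝ (fun i : Fin xs.length => xs.get i)) :
    Orthonormal ℝ (fun i : Fin (xs.map g).length => (xs.map g).get i) := by
  have h1 := (h.comp (Fin.cast (List.length_map g)) (Fin.cast_injective _)).comp_linearIsometry
    g.toLinearIsometry
  have h2 : (fun i : Fin (xs.map g).length => (xs.map g).get i) =
      (g.toLinearIsometry : V → V) ∘ ((fun i : Fin xs.length => xs.get i) ∘
        (Fin.cast (List.length_map g))) := by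
    funext i
    simp
  rw [h2]
  exact h1

/-- rotations fixing `F` act transitively on orthonormal tuples in the complement of `F` -/
theorem frame_trans : ∀ (k : ℕ) (xs ys : List V) (F : Submodule ℝ V), xs.length = k →
    ys.length = k → Orthonormal ℝ (fun i : Fin xs.length => xs.get i) →
    Orthonormal ℝ (fun i : Fin ys.length => ys.get i) →
    (∀ x ∈ xs, x ∈ Fᗮ) → (∀ y ∈ ys, y ∈ Fᗮ) →
    Module.finrank ℝ F + k + 1 ≤ Module.finrank ℝ V →
    ∃ g : V ≃ₗᵢ[ℝ] V, Rot g ∧ (∀ x ∈ F, g x = x) ∧ xs.map g = ys := by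
  intro k
  induction k with
  | zero =>
    intro xs ys F hl hl' _ _ _ _ _
    rw [List.length_eq_zero_iff] at hl hl'
    subst hl; subst hl'
    exact ⟨LinearIsometryEquiv.refl ℝ V, Rot_refl, fun _ _ => rfl, rfl⟩
  | succ k ih =>
    intro xs ys F hl hl' hx hy hxF hyF hd
    match xs, ys, hl, hl', hx, hy, hxF, hyF with
    | x :: xs, y :: ys, hl, hl', hx, hy, hxF, hyF =>
      obtain ⟨hx1, hx2, hx3⟩ := orthonormal_uncons hx
      obtain ⟨hy1, hy2, hy3⟩ := orthonormal_uncons hy
      have hfr := F.finrank_add_finrank_orthogonal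
      obtain ⟨g1, hg1, hg1F, hg1x⟩ := InvNull.trans_sub Fᗮ (by omega) x y
        (hxF x (List.mem_cons_self)) (hyF y (List.mem_cons_self)) (by rw [hx1, hy1])
      rw [Submodule.orthogonal_orthogonal] at hg1F
      have hF' : Module.finrank ℝ (F ⊔ (ℝ ∙ y) : Submodule ℝ V) ≤ Module.finrank ℝ F + 1 := by
        refine (Submodule.finrank_add_le_finrank_add_finrank F (ℝ ∙ y)).trans ?_
        have := finrank_span_singleton (K := ℝ) (v := y) (by
          intro h; rw [h, norm_zero] at hy1; exact zero_ne_one hy1)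
        omega
      have key : ∀ z : V, z ∈ Fᗮ → ⟪y, z⟫_ℝ = 0 → z ∈ (F ⊔ (ℝ ∙ y))ᗮ := by
        intro z hz1 hz2
        rw [← Submodule.inf_orthogonal]
        exact ⟨hz1, Submodule.mem_orthogonal_singleton_iff_inner_right.2 hz2⟩
      obtain ⟨g2, hg2, hg2F, hg2x⟩ := ih (xs.map g1) ys (F ⊔ (ℝ ∙ y)) (by simpa using hl)
        (by simpa using hl') (orthonormal_map g1 hx3) hy3 (by
          intro z hz
          rw [List.mem_map] at hz
          obtain ⟨w, hw, rfl⟩ := hz
          refine key _ ?_ ?_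
          · intro v hv
            rw [← hg1F v hv, g1.inner_map_map]
            exact hxF w (List.mem_cons_of_mem _ hw) v hv
          · rw [← hg1x, g1.inner_map_map]
            exact hx2 w hw) (by
          intro z hz
          exact key z (hyF z (List.mem_cons_of_mem _ hz)) (hy2 z hz)) (by omega)
      refine ⟨g1.trans g2, Rot_trans hg1 hg2, ?_, ?_⟩
      · intro z hz
        rw [LinearIsometryEquiv.trans_apply, hg1F z hz,
          hg2F z (Submodule.mem_sup_left hz)]
      · rw [List.map_cons]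
        congr 1
        · rw [LinearIsometryEquiv.trans_apply, hg1x,
            hg2F y (Submodule.mem_sup_right (Submodule.mem_span_singleton_self y))]
        · rw [← hg2x, List.map_map]
          rfl

theorem hs_mapB_sub (E : Submodule ℝ V) (K : ConvexBody E) (w : E) :
    hs (mapB E.subtypeL K) (w : V) = hs K w := by
  rw [hs_mapB, Submodule.adjoint_subtypeL]
  congr 1
  exact Submodule.orthogonalProjectionOnto_mem_subspace_eq_self w

theorem hs_mapB_proj (E : Submodule ℝ V) (K : ConvexBody V) (w : E) :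
    hs (mapB E.orthogonalProjectionOnto K) w = hs K (w : V) := by
  rw [hs_mapB, Submodule.adjoint_orthogonalProjectionOnto]
  rfl

omit [FiniteDimensional ℝ V] in
theorem mem_E_iff (xs : List V) (v : V) :
    v ∈ (Submodule.span ℝ {x | x ∈ xs})ᗮ ↔ ∀ x ∈ xs, ⟪v, x⟫_ℝ = 0 := by
  constructor
  · intro h x hx
    rw [real_inner_comm]
    exact h x (Submodule.subset_span hx)
  · intro h w hw
    induction hw using Submodule.span_induction with
    | mem x hx => rw [real_inner_comm]; exact h x hx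
    | zero => exact inner_zero_left _
    | add a b _ _ ha hb => rw [inner_add_left, ha, hb, add_zero]
    | smul c a _ ha => rw [real_inner_smul_left, ha, mul_zero]

omit [FiniteDimensional ℝ V] in
theorem finrank_span_list (xs : List V) (ho : Orthonormal ℝ (fun i : Fin xs.length => xs.get i)) :
    Module.finrank ℝ (Submodule.span ℝ {x | x ∈ xs}) = xs.length := by
  have h1 := finrank_span_eq_card ho.linearIndependent
  rw [Fintype.card_fin] at h1
  have h2 : Set.range (fun i : Fin xs.length => xs.get i) = {x | x ∈ xs} := by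
    ext x
    rw [Set.mem_range, Set.mem_ofPred_eq, List.mem_iff_get]
  rw [h2] at h1
  exact h1

omit [FiniteDimensional ℝ V] in
theorem prj_coe (E : Submodule ℝ V) (u w : E) : ((prj u w : E) : V) = prj (u : V) (w : V) := by
  simp [prj]

omit [FiniteDimensional ℝ V] in
theorem norm_prj_coe (E : Submodule ℝ V) (u w : E) : ‖prj u w‖ = ‖prj (u : V) (w : V)‖ := by
  rw [← prj_coe]; rfl

omit [FiniteDimensional ℝ V] in
theorem isoB_sub (E : Submodule ℝ V) (g : E ≃ₗᵢ[ℝ] E) (G : V ≃ₗᵢ[ℝ] V) (h : ∀ x : E, G x = g x)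
    (L : ConvexBody E) : mapB E.subtypeL (isoB g L) = isoB G (mapB E.subtypeL L) := by
  apply ConvexBody.ext
  rw [coe_mapB, coe_isoB, coe_isoB, coe_mapB, Set.image_image, Set.image_image]
  refine Set.image_congr fun x _ => ?_
  exact (h x).symm

theorem Ds_iso_fix {u : V} {φ : ConvexBody V → ℝ} (hφ : IsVal φ) (hz : Zonal u φ)
    {xs : List V} (hne : xs ≠ []) (hx : ∀ x ∈ xs, ⟪u, x⟫_ℝ = 0)
    (ho : Orthonormal ℝ (fun i : Fin xs.length => xs.get i))
    (G : V ≃ₗᵢ[ℝ] V) (hGu : G u = u) (hGx : ∀ x ∈ xs, G x = x) (K : ConvexBody V) :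
    Ds xs φ (isoB G K) = Ds xs φ K := by
  rcases det_iso G with hd | hd
  · have h1 := Ds_iso G xs φ K
    have h2 : xs.map G = xs := by
      conv_rhs => rw [← List.map_id xs]
      exact List.map_congr_left hGx
    rw [h2] at h1
    rw [← h1]
    congr 1
    funext K
    exact hz G hd hGu K
  · match xs, hne, hx, ho, hGx with
    | x :: xs, _, hx, ho, hGx =>
      obtain ⟨hx1, hx2, hx3⟩ := orthonormal_uncons ho
      have hx0 : x ≠ 0 := by
        intro h; rw [h, norm_zero] at hx1; exact zero_ne_one hx1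
      set R : V ≃ₗᵢ[ℝ] V := (ℝ ∙ x)ᗮ.reflection with hR
      have hRv : ∀ v, ⟪x, v⟫_ℝ = 0 → R v = v := by
        intro v hv
        refine Submodule.reflection_mem_subspace_eq_self ?_
        rw [Submodule.mem_orthogonal_singleton_iff_inner_right]
        exact hv
      have hRx : R x = -x := Submodule.reflection_orthogonalComplement_singleton_eq_neg x
      have hrot : Rot (G.trans R) := by
        unfold Rot
        rw [det_trans, hd, hR, det_refl hx0]; norm_num
      have hGRu : (G.trans R) u = u := by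
        rw [LinearIsometryEquiv.trans_apply, hGu]
        refine hRv u ?_
        rw [real_inner_comm]
        exact hx x List.mem_cons_self
      have h1 := Ds_iso (G.trans R) (x :: xs) φ K
      have h2 : (x :: xs).map (G.trans R) = (-x) :: xs := by
        rw [List.map_cons]
        congr 1
        · rw [LinearIsometryEquiv.trans_apply, hGx x List.mem_cons_self, hRx]
        · conv_rhs => rw [← List.map_id xs]
          refine List.map_congr_left fun y hy => ?_
          rw [LinearIsometryEquiv.trans_apply, hGx y (List.mem_cons_of_mem _ hy), hRv y (hx2 y hy)]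
          rfl
      rw [h2, Ds_cons (-x), D_neg (isVal_Ds hφ xs), ← Ds_cons] at h1
      have h3 : (fun L => φ (isoB (G.trans R) L)) = φ := by
        funext L
        exact hz _ hrot hGRu L
      rw [h3] at h1
      rw [h1]
      refine Ds_congr hφ _ ?_
      intro v hv
      rw [hs_isoB, hs_isoB]
      congr 1
      have h4 : R v = v := hRv v (by rw [real_inner_comm]; exact hv x List.mem_cons_self)
      rw [LinearIsometryEquiv.symm_trans, LinearIsometryEquiv.trans_apply]
      congr 1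
      rw [LinearIsometryEquiv.eq_symm_apply, h4]

/-! ### iterated derivatives -/

theorem isVal_iter (L : ConvexBody V) {φ : ConvexBody V → ℝ} (hφ : IsVal φ) (k : ℕ) :
    IsVal ((der L)^[k] φ) := by
  induction k with
  | zero => exact hφ
  | succ k ih => rw [Function.iterate_succ_apply']; exact isVal_der ih L

theorem iter_hom (L : ConvexBody V) {φ : ConvexBody V → ℝ} (hφ : IsVal φ) :
    ∀ (k m : ℕ), IsHom (m + k) φ → IsHom m ((der L)^[k] φ) := by
  intro k
  induction k with
  | zero => intro m h; exact h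
  | succ k ih =>
    intro m h
    rw [Function.iterate_succ_apply']
    refine der_hom (isVal_iter L hφ k) (ih (m + 1) ?_) L
    rw [add_assoc, add_comm 1 k]; exact h

theorem cof_iso {g : V ≃ₗᵢ[ℝ] V} {L : ConvexBody V} (hL : isoB g L = L) {φ : ConvexBody V → ℝ}
    (hg : ∀ K, φ (isoB g K) = φ K) (j : ℕ) (K : ConvexBody V) :
    cof j L φ (isoB g K) = cof j L φ K := by
  unfold cof
  refine Finset.sum_congr rfl fun k _ => ?_
  congr 1
  rw [← hg (K + (k : ℝ) • L), isoB_add, isoB_smul, hL]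

theorem iter_iso {g : V ≃ₗᵢ[ℝ] V} {L : ConvexBody V} (hL : isoB g L = L) {φ : ConvexBody V → ℝ}
    (hg : ∀ K, φ (isoB g K) = φ K) (k : ℕ) :
    ∀ K, (der L)^[k] φ (isoB g K) = (der L)^[k] φ K := by
  induction k with
  | zero => exact hg
  | succ k ih =>
    intro K
    rw [Function.iterate_succ_apply']
    exact cof_iso hL ih 1 K

/-! ### invariant bodies -/

/-- invariance under all isometries fixing `u` -/
def Inv (u : V) (L : ConvexBody V) : Prop := ∀ g : V ≃ₗᵢ[ℝ] V, g u = u → isoB g L = L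

theorem Inv.add {u : V} {K L : ConvexBody V} (hK : Inv u K) (hL : Inv u L) : Inv u (K + L) := by
  intro g hg
  rw [isoB_add, hK g hg, hL g hg]

theorem Inv.smul {u : V} {K : ConvexBody V} (hK : Inv u K) (c : ℝ) : Inv u (c • K) := by
  intro g hg
  rw [isoB_smul, hK g hg]

theorem Inv_pt (u : V) (c : ℝ) : Inv u (pt (c • u)) := by
  intro g hg
  rw [isoB_pt, map_smul, hg]

theorem Inv_ball (u : V) : Inv u (ballB V) := by
  intro g hg
  apply hs_ext
  intro v
  rw [hs_isoB, hs_ballB, hs_ballB, LinearIsometryEquiv.norm_map]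

/-- convex hull of two bodies -/
noncomputable def mx (K L : ConvexBody V) : ConvexBody V :=
  body (fun v => max (hs K v) (hs L v)) (sublin_max (hs_sublin K) (hs_sublin L))

theorem hs_mx (K L : ConvexBody V) (v : V) : hs (mx K L) v = max (hs K v) (hs L v) := by
  rw [mx, hs_body]

theorem Inv.mx {u : V} {K L : ConvexBody V} (hK : Inv u K) (hL : Inv u L) : Inv u (mx K L) := by
  intro g hg
  apply hs_ext
  intro v
  rw [hs_isoB, hs_mx, hs_mx, ← hs_isoB, ← hs_isoB, hK g hg, hL g hg]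

/-- the profile function of a body -/
noncomputable def prof (u x : V) (L : ConvexBody V) (t : ℝ) : ℝ :=
  hs L (t • u + Real.sqrt (1 - t ^ 2) • x)

theorem continuous_prof (u x : V) (L : ConvexBody V) : Continuous (prof u x L) := by
  unfold prof
  exact (continuous_hs_right L).comp (by fun_prop)

omit [FiniteDimensional ℝ V] in
theorem prof_add (u x : V) (K L : ConvexBody V) (t : ℝ) :
    prof u x (K + L) t = prof u x K t + prof u x L t := hs_add _ _ _

omit [FiniteDimensional ℝ V] in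
theorem prof_smul (u x : V) {c : ℝ} (hc : 0 ≤ c) (K : ConvexBody V) (t : ℝ) :
    prof u x (c • K) t = c * prof u x K t := hs_smul hc _ _

theorem prof_mx (u x : V) (K L : ConvexBody V) (t : ℝ) :
    prof u x (RfRep.mx K L) t = max (prof u x K t) (prof u x L t) := hs_mx _ _ _

omit [FiniteDimensional ℝ V] in
theorem norm_pr {u x : V} (hu : ‖u‖ = 1) (hx : ‖x‖ = 1) (hux : ⟪u, x⟫_ℝ = 0) {t : ℝ}
    (ht : t ∈ Icc (-1 : ℝ) 1) : ‖t • u + Real.sqrt (1 - t ^ 2) • x‖ = 1 := by
  have h0 : 0 ≤ 1 - t ^ 2 := by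
    have := ht.1; have := ht.2; nlinarith
  have h1 : ‖t • u + Real.sqrt (1 - t ^ 2) • x‖ ^ 2 = 1 := by
    rw [norm_add_sq_real, norm_smul, norm_smul, hu, hx, real_inner_smul_left,
      real_inner_smul_right, hux, mul_one, mul_one, Real.norm_eq_abs, Real.norm_eq_abs,
      sq_abs, sq_abs, Real.sq_sqrt h0]
    ring
  have h2 := norm_nonneg (t • u + Real.sqrt (1 - t ^ 2) • x)
  nlinarith

omit [FiniteDimensional ℝ V] in
theorem inner_pr {u x : V} (hu : ‖u‖ = 1) (hux : ⟪u, x⟫_ℝ = 0) (t : ℝ) :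
    ⟪u, t • u + Real.sqrt (1 - t ^ 2) • x⟫_ℝ = t := by
  rw [inner_add_right, real_inner_smul_right, real_inner_smul_right, hux,
    real_inner_self_eq_norm_sq, hu]
  ring

theorem prof_ball {u x : V} (hu : ‖u‖ = 1) (hx : ‖x‖ = 1) (hux : ⟪u, x⟫_ℝ = 0) {t : ℝ}
    (ht : t ∈ Icc (-1 : ℝ) 1) : prof u x (ballB V) t = 1 := by
  unfold prof
  rw [hs_ballB, norm_pr hu hx hux ht]

omit [FiniteDimensional ℝ V] in
theorem hs_pt' (x v : V) : hs (pt x) v = ⟪v, x⟫_ℝ := by
  apply le_antisymm
  · refine hs_le ?_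
    intro y hy
    have : y = x := hy
    rw [this]
  · exact inner_le_hs (show x ∈ pt x from rfl) v

omit [FiniteDimensional ℝ V] in
theorem prof_pt {u x : V} (hu : ‖u‖ = 1) (hux : ⟪u, x⟫_ℝ = 0) (c t : ℝ) :
    prof u x (pt (c • u)) t = c * t := by
  unfold prof
  rw [hs_pt', real_inner_smul_right, real_inner_comm, inner_pr hu hux]

theorem Inv.hs_eq {u : V} {L : ConvexBody V} (hL : Inv u L) (hu : ‖u‖ = 1)
    (hd : 2 ≤ Module.finrank ℝ V) {v w : V} (hvw : ‖v‖ = ‖w‖) (huv : ⟪u, v⟫_ℝ = ⟪u, w⟫_ℝ) :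
    hs L v = hs L w := by
  obtain ⟨g, hg, hgv⟩ := Gax_trans u v w hu hd hvw huv
  conv_rhs => rw [← hL g hg.1, hs_isoB, ← hgv, LinearIsometryEquiv.symm_apply_apply]

theorem le_of_prof {u x : V} (hu : ‖u‖ = 1) (hx : ‖x‖ = 1) (hux : ⟪u, x⟫_ℝ = 0)
    (hd : 2 ≤ Module.finrank ℝ V) {K L : ConvexBody V} (hK : Inv u K) (hL : Inv u L)
    (h : ∀ t ∈ Icc (-1 : ℝ) 1, prof u x K t ≤ prof u x L t) : K ≤ L := by
  rw [le_iff_hs]
  intro v
  rcases eq_or_ne v 0 with rfl | hv
  · simp
  have hr : 0 < ‖v‖ := norm_pos_iff.2 hv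
  set t := ⟪u, v⟫_ℝ / ‖v‖ with ht
  have htI : t ∈ Icc (-1 : ℝ) 1 := by
    have h1 := abs_real_inner_le_norm u v
    rw [hu, one_mul] at h1
    have h2 := abs_le.1 h1
    constructor
    · rw [ht, le_div_iff₀ hr]; linarith [h2.1]
    · rw [ht, div_le_iff₀ hr]; linarith [h2.2]
  have h1 : ‖v‖ = ‖‖v‖ • (t • u + Real.sqrt (1 - t ^ 2) • x)‖ := by
    rw [norm_smul, norm_pr hu hx hux htI, norm_norm, mul_one]
  have h2 : ⟪u, v⟫_ℝ = ⟪u, ‖v‖ • (t • u + Real.sqrt (1 - t ^ 2) • x)⟫_ℝ := by
    rw [real_inner_smul_right, inner_pr hu hux, ht]; field_simp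
  rw [hK.hs_eq hu hd h1 h2, hL.hs_eq hu hd h1 h2, hs_smul_right _ hr.le, hs_smul_right _ hr.le]
  exact mul_le_mul_of_nonneg_left (h t htI) hr.le

/-! ### the positive functional -/

/-- the profile as a continuous function on `[-1,1]` -/
noncomputable def fL (u x : V) (L : ConvexBody V) : C(Icc (-1 : ℝ) 1, ℝ) :=
  ⟨fun t => prof u x L t, (continuous_prof u x L).comp continuous_subtype_val⟩

/-- differences of profiles -/
noncomputable def Sub (u x : V) : Submodule ℝ C(Icc (-1 : ℝ) 1, ℝ) where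
  carrier := {f | ∃ K L : ConvexBody V, Inv u K ∧ Inv u L ∧ f = fL u x K - fL u x L}
  zero_mem' := ⟨ballB V, ballB V, Inv_ball u, Inv_ball u, by rw [sub_self]⟩
  add_mem' := by
    rintro f g ⟨K, L, hK, hL, rfl⟩ ⟨K', L', hK', hL', rfl⟩
    refine ⟨K + K', L + L', hK.add hK', hL.add hL', ?_⟩
    ext t
    simp only [fL, ContinuousMap.add_apply, ContinuousMap.sub_apply, ContinuousMap.coe_mk, prof_add]
    ring
  smul_mem' := by
    rintro c f ⟨K, L, hK, hL, rfl⟩
    rcases le_total 0 c with hc | hc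
    · refine ⟨c • K, c • L, hK.smul c, hL.smul c, ?_⟩
      ext t
      simp only [fL, ContinuousMap.smul_apply, ContinuousMap.sub_apply, ContinuousMap.coe_mk,
        prof_smul _ _ hc, smul_eq_mul]
      ring
    · refine ⟨(-c) • L, (-c) • K, hL.smul _, hK.smul _, ?_⟩
      ext t
      simp only [fL, ContinuousMap.smul_apply, ContinuousMap.sub_apply, ContinuousMap.coe_mk,
        prof_smul _ _ (neg_nonneg.2 hc), smul_eq_mul]
      ring

theorem exists_meas {u x : V} (hu : ‖u‖ = 1) (hx : ‖x‖ = 1) (hux : ⟪u, x⟫_ℝ = 0)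
    (hd : 2 ≤ Module.finrank ℝ V) (T : ConvexBody V → ℝ) (hT : IsAdd T)
    (hTm : ∀ K L, Inv u K → Inv u L → K ≤ L → T K ≤ T L) :
    ∃ μ : Measure (Icc (-1 : ℝ) 1), IsFiniteMeasure μ ∧
      ∀ L, Inv u L → T L = ∫ t : Icc (-1 : ℝ) 1, prof u x L t ∂μ := by
  classical
  -- value of the functional
  have hwd : ∀ K L K' L' : ConvexBody V, Inv u K → Inv u L → Inv u K' → Inv u L' →
      (∀ t ∈ Icc (-1 : ℝ) 1, prof u x K t - prof u x L t ≤ prof u x K' t - prof u x L' t) →
      T K - T L ≤ T K' - T L' := by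
    intro K L K' L' hK hL hK' hL' h
    have h1 : K + L' ≤ K' + L := by
      refine le_of_prof hu hx hux hd (hK.add hL') (hK'.add hL) ?_
      intro t ht
      rw [prof_add, prof_add]
      have := h t ht
      linarith
    have h2 := hTm _ _ (hK.add hL') (hK'.add hL) h1
    rw [hT.add, hT.add] at h2
    linarith
  have hwd' : ∀ K L K' L' : ConvexBody V, Inv u K → Inv u L → Inv u K' → Inv u L' →
      (∀ t ∈ Icc (-1 : ℝ) 1, prof u x K t - prof u x L t = prof u x K' t - prof u x L' t) →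
      T K - T L = T K' - T L' := by
    intro K L K' L' hK hL hK' hL' h
    exact le_antisymm (hwd _ _ _ _ hK hL hK' hL' fun t ht => (h t ht).le)
      (hwd _ _ _ _ hK' hL' hK hL fun t ht => (h t ht).ge)
  have hrep : ∀ f : Sub u x, ∃ K L : ConvexBody V, Inv u K ∧ Inv u L ∧
      (f : C(Icc (-1 : ℝ) 1, ℝ)) = fL u x K - fL u x L := fun f => f.2
  choose k l hk hl hkl using hrep
  have hfv : ∀ (f : Sub u x) (t : Icc (-1 : ℝ) 1), (f : C(Icc (-1 : ℝ) 1, ℝ)) t =
      prof u x (k f) t - prof u x (l f) t := by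
    intro f t
    rw [hkl f]
    rfl
  set F : Sub u x →ₗ[ℝ] ℝ :=
    { toFun := fun f => T (k f) - T (l f)
      map_add' := by
        intro f g
        have h1 := hwd' (k (f + g)) (l (f + g)) (k f + k g) (l f + l g) (hk _) (hl _)
          ((hk f).add (hk g)) ((hl f).add (hl g)) (by
            intro t ht
            have h2 := hfv (f + g) ⟨t, ht⟩
            have h3 := hfv f ⟨t, ht⟩
            have h4 := hfv g ⟨t, ht⟩
            rw [Submodule.coe_add, ContinuousMap.add_apply, h3, h4] at h2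
            rw [prof_add, prof_add]
            simp only at h2
            linarith)
        rw [h1, hT.add, hT.add]; ring
      map_smul' := by
        intro c f
        simp only [RingHom.id_apply, smul_eq_mul]
        rcases le_total 0 c with hc | hc
        · have h1 := hwd' (k (c • f)) (l (c • f)) (c • k f) (c • l f) (hk _) (hl _)
            ((hk f).smul c) ((hl f).smul c) (by
              intro t ht
              have h2 := hfv (c • f) ⟨t, ht⟩
              have h3 := hfv f ⟨t, ht⟩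
              rw [Submodule.coe_smul, ContinuousMap.smul_apply, h3, smul_eq_mul] at h2
              rw [prof_smul _ _ hc, prof_smul _ _ hc]
              simp only at h2
              linarith)
          rw [h1, hT.smul hc, hT.smul hc]; ring
        · have h1 := hwd' (k (c • f)) (l (c • f)) ((-c) • l f) ((-c) • k f) (hk _) (hl _)
            ((hl f).smul _) ((hk f).smul _) (by
              intro t ht
              have h2 := hfv (c • f) ⟨t, ht⟩
              have h3 := hfv f ⟨t, ht⟩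
              rw [Submodule.coe_smul, ContinuousMap.smul_apply, h3, smul_eq_mul] at h2
              rw [prof_smul _ _ (neg_nonneg.2 hc), prof_smul _ _ (neg_nonneg.2 hc)]
              simp only at h2
              linarith)
          rw [h1, hT.smul (neg_nonneg.2 hc), hT.smul (neg_nonneg.2 hc)]; ring } with hF
  have hFL : ∀ (L : ConvexBody V) (hL : Inv u L) (h : fL u x L ∈ Sub u x),
      F ⟨fL u x L, h⟩ = T L := by
    intro L hL h
    have h0 : T (0 : ConvexBody V) = 0 := by rw [← pt_zero]; exact hT.pt 0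
    have hI0 : Inv u (0 : ConvexBody V) := by
      have := Inv_pt u 0
      rwa [zero_smul, pt_zero] at this
    have h1 := hwd' (k ⟨fL u x L, h⟩) (l ⟨fL u x L, h⟩) L 0 (hk _) (hl _) hL hI0 (by
      intro t ht
      have h2 := hfv ⟨fL u x L, h⟩ ⟨t, ht⟩
      have h3 : prof u x (0 : ConvexBody V) t = 0 := by
        unfold prof; rw [hs_zero]
      rw [h3, sub_zero]
      exact h2.symm)
    change T _ - T _ = T L
    rw [h1, h0, sub_zero]
  have hball : ∀ t : Icc (-1 : ℝ) 1, fL u x (ballB V) t = 1 := fun t => prof_ball hu hx hux t.2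
  have hmemL : ∀ L, Inv u L → fL u x L ∈ Sub u x := by
    intro L hL
    have hI0 : Inv u (0 : ConvexBody V) := by
      have := Inv_pt u 0
      rwa [zero_smul, pt_zero] at this
    refine ⟨L, 0, hL, hI0, ?_⟩
    ext t
    have h3 : prof u x (0 : ConvexBody V) t = 0 := by
      unfold prof; rw [hs_zero]
    simp only [fL, ContinuousMap.sub_apply, ContinuousMap.coe_mk, h3, sub_zero]
  obtain ⟨Λ, hΛ1, hΛ2⟩ := riesz_extension
    (PointedCone.positive ℝ C(Icc (-1 : ℝ) 1, ℝ)) ⟨Sub u x, F⟩ (by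
      intro f hf
      have hf' : ∀ t : Icc (-1 : ℝ) 1, 0 ≤ (f : C(Icc (-1 : ℝ) 1, ℝ)) t := by
        intro t
        exact (show (0 : C(Icc (-1 : ℝ) 1, ℝ)) ≤ f from hf) t
      have h1 := hwd (ballB V) (ballB V) (k f) (l f) (Inv_ball u) (Inv_ball u) (hk f) (hl f) (by
        intro t ht
        rw [sub_self]
        have h2 := hf' ⟨t, ht⟩
        rw [hfv f ⟨t, ht⟩] at h2
        exact h2)
      rw [sub_self] at h1
      exact h1) (by
      intro f
      refine ⟨⟨fL u x (‖f‖ • ballB V), hmemL _ ((Inv_ball u).smul _)⟩, ?_⟩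
      change (0 : C(Icc (-1 : ℝ) 1, ℝ)) ≤ fL u x (‖f‖ • ballB V) + f
      intro t
      have h1 := ContinuousMap.norm_coe_le_norm f t
      rw [Real.norm_eq_abs] at h1
      have h2 := (abs_le.1 h1).1
      change 0 ≤ prof u x (‖f‖ • ballB V) t + f t
      rw [prof_smul _ _ (norm_nonneg f), prof_ball hu hx hux t.2]
      linarith)
  set Λ' : (C_c(Icc (-1 : ℝ) 1, ℝ)) →ₗ[ℝ] ℝ :=
    { toFun := fun f => Λ (f : C(Icc (-1 : ℝ) 1, ℝ))
      map_add' := fun f g => by
        rw [← map_add]; rfl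
      map_smul' := fun c f => by
        rw [RingHom.id_apply, ← map_smul]; rfl } with hΛ'
  set P : (C_c(Icc (-1 : ℝ) 1, ℝ)) →ₚ[ℝ] ℝ := PositiveLinearMap.mk₀ Λ' (by
    intro f hf
    refine hΛ2 _ ?_
    change (0 : C(Icc (-1 : ℝ) 1, ℝ)) ≤ f
    intro t
    exact hf t) with hP
  refine ⟨RealRMK.rieszMeasure P, ?_, ?_⟩
  · infer_instance
  · intro L hL
    have h1 := RealRMK.integral_rieszMeasure P
      (CompactlySupportedContinuousMap.continuousMapEquiv (fL u x L))
    have h2 : P (CompactlySupportedContinuousMap.continuousMapEquiv (fL u x L)) = T L := by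
      change Λ (fL u x L) = T L
      rw [← hFL L hL (hmemL L hL)]
      exact hΛ1 ⟨fL u x L, hmemL L hL⟩
    rw [h2] at h1
    rw [← h1]
    rfl

/-! ### density -/

theorem dense_Sub {u x : V} (hu : ‖u‖ = 1) (hx : ‖x‖ = 1) (hux : ⟪u, x⟫_ℝ = 0) :
    closure (Sub u x : Set C(Icc (-1 : ℝ) 1, ℝ)) = ⊤ := by
  refine ContinuousMap.sublattice_closure_eq_top _ ⟨0, (Sub u x).zero_mem⟩ ?_ ?_ ?_
  · rintro f ⟨K, L, hK, hL, rfl⟩ g ⟨K', L', hK', hL', rfl⟩
    refine ⟨K + K', RfRep.mx (L + K') (L' + K), hK.add hK', (hL.add hK').mx (hL'.add hK), ?_⟩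
    ext t
    simp only [fL, ContinuousMap.inf_apply, ContinuousMap.sub_apply, ContinuousMap.coe_mk,
      prof_add, prof_mx]
    rcases le_total (prof u x K t - prof u x L t) (prof u x K' t - prof u x L' t) with h | h
    · rw [inf_eq_left.2 h, max_eq_left (by linarith)]; ring
    · rw [inf_eq_right.2 h, max_eq_right (by linarith)]; ring
  · rintro f ⟨K, L, hK, hL, rfl⟩ g ⟨K', L', hK', hL', rfl⟩
    refine ⟨RfRep.mx (K + L') (K' + L), L + L', (hK.add hL').mx (hK'.add hL), hL.add hL', ?_⟩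
    ext t
    simp only [fL, ContinuousMap.sup_apply, ContinuousMap.sub_apply, ContinuousMap.coe_mk,
      prof_add, prof_mx]
    rcases le_total (prof u x K t - prof u x L t) (prof u x K' t - prof u x L' t) with h | h
    · rw [sup_eq_right.2 h, max_eq_right (by linarith)]; ring
    · rw [sup_eq_left.2 h, max_eq_left (by linarith)]; ring
  · intro v p q
    -- affine functions
    have haff : ∀ a b : ℝ, ∃ f ∈ (Sub u x : Set C(Icc (-1 : ℝ) 1, ℝ)),
        ∀ t : Icc (-1 : ℝ) 1, f t = a + b * t := by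
      intro a b
      refine ⟨_, ⟨(max a 0) • ballB V + pt (b • u), (max (-a) 0) • ballB V,
        ((Inv_ball u).smul _).add (Inv_pt u b), (Inv_ball u).smul _, rfl⟩, ?_⟩
      intro t
      simp only [fL, ContinuousMap.sub_apply, ContinuousMap.coe_mk,
        prof_add, prof_smul _ _ (le_max_right _ _), prof_ball hu hx hux t.2, prof_pt hu hux]
      rcases le_total 0 a with h | h
      · rw [max_eq_left h, max_eq_right (by linarith)]; ring
      · rw [max_eq_right h, max_eq_left (by linarith)]; ring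
    by_cases hpq : p = q
    · subst hpq
      obtain ⟨f, hf, hft⟩ := haff (v p) 0
      refine ⟨f, hf, ?_, ?_⟩ <;> rw [hft] <;> ring
    · have h0 : (p : ℝ) - q ≠ 0 := sub_ne_zero.2 fun h => hpq (Subtype.ext h)
      obtain ⟨f, hf, hft⟩ := haff (v p - (v p - v q) / ((p : ℝ) - q) * p)
        ((v p - v q) / ((p : ℝ) - q))
      refine ⟨f, hf, ?_, ?_⟩
      · rw [hft]; ring
      · rw [hft]; field_simp; ring

/-- approximation by profiles -/
theorem approx {u x : V} (hu : ‖u‖ = 1) (hx : ‖x‖ = 1) (hux : ⟪u, x⟫_ℝ = 0)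
    (f : C(Icc (-1 : ℝ) 1, ℝ)) {ε : ℝ} (hε : 0 < ε) : ∃ K L : ConvexBody V, Inv u K ∧ Inv u L ∧
      ∀ t : Icc (-1 : ℝ) 1, |f t - (prof u x K t - prof u x L t)| ≤ ε := by
  have h1 : f ∈ closure (Sub u x : Set C(Icc (-1 : ℝ) 1, ℝ)) := by
    rw [dense_Sub hu hx hux]; trivial
  obtain ⟨g, ⟨K, L, hK, hL, rfl⟩, hg⟩ := Metric.mem_closure_iff.1 h1 ε hε
  refine ⟨K, L, hK, hL, fun t => ?_⟩
  have h2 := ContinuousMap.dist_apply_le_dist (f := f) (g := fL u x K - fL u x L) t
  rw [Real.dist_eq] at h2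
  exact h2.trans hg.le

/-! ### limits of valuations -/

section lim
variable {G : ℕ → ConvexBody V → ℝ} {R B : ConvexBody V → ℝ} {ε : ℕ → ℝ}

omit [FiniteDimensional ℝ V] in
theorem lim_tendsto (hε : Tendsto ε atTop (𝓝 0)) (h : ∀ i K, |R K - G i K| ≤ ε i * B K)
    (K : ConvexBody V) : Tendsto (fun i => G i K) atTop (𝓝 (R K)) := by
  rw [tendsto_iff_dist_tendsto_zero]
  refine squeeze_zero (fun _ => dist_nonneg) (fun i => ?_) (g := fun i => ε i * B K) ?_
  · rw [Real.dist_eq, abs_sub_comm]; exact h i K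
  · simpa using hε.mul_const (B K)

omit [FiniteDimensional ℝ V] in
theorem lim_isVal (hG : ∀ i, IsVal (G i)) (hB : Continuous B) (hε : Tendsto ε atTop (𝓝 0))
    (hε0 : ∀ i, 0 ≤ ε i)
    (h : ∀ i K, |R K - G i K| ≤ ε i * B K) : IsVal R := by
  have ht := lim_tendsto hε h
  refine ⟨?_, ?_, ?_⟩
  · have hlu : TendstoLocallyUniformly G R atTop := by
      rw [Metric.tendstoLocallyUniformly_iff]
      intro δ hδ K
      refine ⟨{L | B L < B K + 1}, ?_, ?_⟩
      · exact (isOpen_lt hB continuous_const).mem_nhds (by simp)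
      · have h1 : Tendsto (fun i => ε i * (B K + 1)) atTop (𝓝 0) := by
          simpa using hε.mul_const (B K + 1)
        filter_upwards [h1.eventually (gt_mem_nhds hδ)] with i hi L hL
        rw [Real.dist_eq]
        refine lt_of_le_of_lt ((h i L).trans ?_) hi
        exact mul_le_mul_of_nonneg_left (le_of_lt hL) (hε0 i)
    exact hlu.continuous (Eventually.of_forall fun i => (hG i).cont).frequently
  · intro K L M N hM hN
    exact tendsto_nhds_unique ((ht M).add (ht N)) (((ht K).add (ht L)).congr fun i =>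
      ((hG i).val K L M N hM hN).symm)
  · intro K y
    exact tendsto_nhds_unique (ht _) ((ht K).congr fun i => ((hG i).trans K y).symm)

end lim

end RfRep

section
variable {V : Type*} [NormedAddCommGroup V] [InnerProductSpace ℝ V] [FiniteDimensional ℝ V]
  [MeasurableSpace V] [BorelSpace V]
open RfRep

/-- a zonal valuation with zero profile vanishes -/
theorem zero_of_profile (hn : 3 ≤ Module.finrank ℝ V) (u : V) (hu : ‖u‖ = 1) {j : ℕ}
    (hjn : j + 1 < Module.finrank ℝ V) (φ : ConvexBody V → ℝ) (hφ : IsVal φ)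
    (hj : IsHom (j + 1) φ) (hz : Zonal u φ)
    (h : ∀ xs : List V, xs.length = j → Orthonormal ℝ (fun i : Fin xs.length => xs.get i) →
      (∀ x ∈ xs, ⟪u, x⟫_ℝ = 0) → ∀ t ∈ Icc (-1 : ℝ) 1, Ds xs φ (Sb u t) = 0)
    (K : ConvexBody V) : φ K = 0 := by
  refine zonal_unique hφ hj hjn u hu hz ?_ K
  intro xs hl ho hx
  -- the profile vanishes on all `Tb`
  have hhom : IsHom 1 (Ds xs φ) := Ds_hom hφ xs (by rw [hl, add_comm]; exact hj)
  have hTb : ∀ τ, Ds xs φ (Tb u τ) = 0 := by
    intro τ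
    have h0 : 0 < 1 + τ ^ 2 := by positivity
    have hs : 0 < Real.sqrt (1 + τ ^ 2) := Real.sqrt_pos.2 h0
    have hss : Real.sqrt (1 + τ ^ 2) ^ 2 = 1 + τ ^ 2 := Real.sq_sqrt h0.le
    set t := τ / Real.sqrt (1 + τ ^ 2) with ht
    have h1 : 1 - t ^ 2 = (1 / Real.sqrt (1 + τ ^ 2)) ^ 2 := by
      rw [ht, div_pow, div_pow, hss]; field_simp; ring
    have h2 : Real.sqrt (1 - t ^ 2) = 1 / Real.sqrt (1 + τ ^ 2) := by
      rw [h1, Real.sqrt_sq (by positivity)]
    have h3 : |t| < 1 := by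
      rw [← sq_lt_one_iff_abs_lt_one]
      have : 0 < (1 / Real.sqrt (1 + τ ^ 2)) ^ 2 := by positivity
      linarith
    have h4 := Sb_eq u h3
    have h5 : t / Real.sqrt (1 - t ^ 2) = τ := by
      rw [h2, ht]; field_simp
    rw [h5, h2] at h4
    have h6 := h xs hl ho hx t ⟨(abs_lt.1 h3).1.le, (abs_lt.1 h3).2.le⟩
    rw [h4, hhom _ _ (by positivity), pow_one] at h6
    rcases mul_eq_zero.1 h6 with h7 | h7
    · exact absurd h7 (by positivity)
    · exact h7
  have hdisc : Ds xs φ (disc u) = 0 := by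
    rw [← Sb_one]
    exact h xs hl ho hx 1 ⟨by norm_num, le_rfl⟩
  rcases Nat.eq_zero_or_pos j with rfl | hj0
  · have : xs = [] := List.length_eq_zero_iff.1 hl
    subst this
    rw [Ds_nil] at *
    refine hinge_zero u hu (by omega) φ (hφ.isAdd hj) ?_ hTb hdisc
    intro g hg L
    rcases hg.2 with h1 | h1
    · exact hz g h1 hg.1 L
    · omega
  · set E : Submodule ℝ V := (Submodule.span ℝ {x | x ∈ xs})ᗮ with hE
    have huE : u ∈ E := (mem_E_iff xs u).2 hx
    set u' : E := ⟨u, huE⟩ with hu'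
    have hfr : xs.length + Module.finrank ℝ E = Module.finrank ℝ V := by
      rw [← finrank_span_list xs ho]
      exact Submodule.finrank_add_finrank_orthogonal _
    set A : ConvexBody E → ℝ := fun L => Ds xs φ (mapB E.subtypeL L) with hA
    have hAv : IsVal A := (isVal_Ds hφ xs).pull E.subtypeL
    have hA1 : IsHom 1 A := by
      intro c L hc
      rw [hA]
      simp only
      rw [mapB_smul, hhom c _ hc]
    have hAT : ∀ τ, A (Tb u' τ) = 0 := by
      intro τ
      rw [← hTb τ]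
      refine Ds_congr hφ xs ?_
      intro v hv
      have hvE := (mem_E_iff xs v).2 hv
      rw [hs_mapB_sub E (Tb u' τ) ⟨v, hvE⟩, hs_Tb, hs_Tb]
      rw [norm_prj_coe]
      rfl
    have hAd : A (disc u') = 0 := by
      rw [← hdisc]
      refine Ds_congr hφ xs ?_
      intro v hv
      have hvE := (mem_E_iff xs v).2 hv
      rw [hs_mapB_sub E (disc u') ⟨v, hvE⟩, hs_disc, hs_disc]
      rw [norm_prj_coe]
    have hAi : AxInv u' A := by
      intro g hg L
      obtain ⟨G, hG1, hG2⟩ := ext_iso E g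
      have hGu : G u = u := by
        have := hG1 u'
        rw [hg.1] at this
        exact this
      have hEo : ∀ x ∈ xs, x ∈ Eᗮ := by
        intro x hx
        rw [hE, Submodule.orthogonal_orthogonal]
        exact Submodule.subset_span hx
      have hne : xs ≠ [] := by
        intro h; rw [h] at hl; simp at hl; omega
      rw [hA]
      simp only
      rw [isoB_sub E g G hG1]
      exact Ds_iso_fix hφ hz hne hx ho G hGu (fun x hx => hG2 x (hEo x hx)) _
    have hA0 := hinge_zero u' (by rw [hu']; exact hu) (by omega) A (hAv.isAdd hA1) hAi hAT hAd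
    intro K
    rw [← hA0 (mapB E.orthogonalProjectionOnto K)]
    refine Ds_congr hφ xs ?_
    intro v hv
    have hvE := (mem_E_iff xs v).2 hv
    rw [hs_mapB_sub E _ ⟨v, hvE⟩, hs_mapB_proj]


omit [MeasurableSpace V] [BorelSpace V] in
theorem RfRep.Ds_sub (xs : List V) (φ ψ : ConvexBody V → ℝ) (K : ConvexBody V) :
    Ds xs (fun L => φ L - ψ L) K = Ds xs φ K - Ds xs ψ K := by
  induction xs generalizing K with
  | nil => rfl
  | cons x xs ih =>
    rw [Ds_cons, Ds_cons, Ds_cons]
    unfold D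
    rw [ih, ih]; ring

omit [MeasurableSpace V] [BorelSpace V] in
theorem RfRep.isoB_Sb {g : V ≃ₗᵢ[ℝ] V} {u : V} (hg : g u = u) (t : ℝ) :
    isoB g (Sb u t) = Sb u t := by
  apply hs_ext
  intro v
  have h1 : g.symm u = u := by rw [LinearIsometryEquiv.symm_apply_eq, hg]
  have h2 : ⟪u, g.symm v⟫_ℝ = ⟪u, v⟫_ℝ := by
    conv_lhs => rw [← h1]
    exact g.symm.inner_map_map u v
  have h3 : ‖prj u (g.symm v)‖ = ‖prj u v‖ := by
    have : prj u (g.symm v) = g.symm (prj u v) := by
      unfold prj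
      rw [map_sub, map_smul, h1, h2]
    rw [this, LinearIsometryEquiv.norm_map]
  rw [hs_isoB]
  unfold Sb
  rw [hs_body, hs_body, h2, h3]

theorem RfRep.iterMono (u : V) (hu : ‖u‖ = 1) (k : ℕ) :
    ∀ K L : ConvexBody V, K ≤ L → (der (disc u))^[k] vol K ≤ (der (disc u))^[k] vol L := by
  induction k with
  | zero => exact fun K L h => vol_mono h
  | succ k ih =>
    intro K L h
    rw [Function.iterate_succ_apply']
    refine der_zonoid_mono (RfRep.isVal_iter _ isVal_vol k) ih (prjL u) (disc u) ?_ h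
    intro v
    rw [hs_disc, adjoint_prjL, prjL_apply, prj, hu]
    congr 3
    ring

theorem zonal_repr (hn : 3 ≤ Module.finrank ℝ V) (u : V) (hu : ‖u‖ = 1) {j : ℕ}
    (hjn : j + 1 < Module.finrank ℝ V) (K : ConvexBody V) :
    ∃ μ : Measure ℝ, IsFiniteMeasure μ ∧ (∀ᵐ t ∂μ, t ∈ Icc (-1 : ℝ) 1) ∧
      ∀ φ : ConvexBody V → ℝ, IsVal φ → IsHom (j + 1) φ → Zonal u φ →
      ∀ xs : List V, xs.length = j → Orthonormal ℝ (fun i : Fin xs.length => xs.get i) →
      (∀ x ∈ xs, ⟪u, x⟫_ℝ = 0) →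
        φ K = ∫ t, (Ds xs φ (Sb u t) - |t| / 2 * Ds xs φ (disc u)) ∂μ := by
  -- a unit vector orthogonal to `u`
  obtain ⟨x, hx, hux⟩ : ∃ x : V, ‖x‖ = 1 ∧ ⟪u, x⟫_ℝ = 0 := by
    have h1 := (ℝ ∙ u).finrank_add_finrank_orthogonal
    have h2 := finrank_span_singleton (K := ℝ) (v := u) (by
      intro h; rw [h, norm_zero] at hu; exact zero_ne_one hu)
    have : Nontrivial (ℝ ∙ u)ᗮ := Module.nontrivial_of_finrank_pos (R := ℝ) (by omega)
    obtain ⟨x, hx⟩ := exists_norm_eq (ℝ ∙ u)ᗮ (zero_le_one (α := ℝ))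
    exact ⟨x, hx, Submodule.mem_orthogonal_singleton_iff_inner_right.1 x.2⟩
  set ψ : ConvexBody V → ℝ := (der (disc u))^[Module.finrank ℝ V - 2 - j] vol with hψ
  have hψv : IsVal ψ := RfRep.isVal_iter _ isVal_vol _
  have hψh : IsHom (j + 1 + 1) ψ := by
    refine RfRep.iter_hom _ isVal_vol _ _ ?_
    have : j + 1 + 1 + (Module.finrank ℝ V - 2 - j) = Module.finrank ℝ V := by omega
    rw [this]
    exact vol_hom
  have hψm : ∀ K L : ConvexBody V, K ≤ L → ψ K ≤ ψ L := RfRep.iterMono u hu _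
  have hψi : ∀ g : V ≃ₗᵢ[ℝ] V, g u = u → ∀ K, ψ (isoB g K) = ψ K := by
    intro g hg
    exact RfRep.iter_iso (by rw [isoB_disc, hg]) (vol_iso g) _
  obtain ⟨c, hc, hprof⟩ := disc_vol_profile_Ds u hu j (by omega)
  -- the measures
  have hmeas : ∀ K : ConvexBody V, ∃ μ : Measure (Icc (-1 : ℝ) 1), IsFiniteMeasure μ ∧
      ∀ L, Inv u L → der L ψ K = ∫ t : Icc (-1 : ℝ) 1, prof u x L t ∂μ := by
    intro K
    exact exists_meas hu hx hux (by omega) (fun L => der L ψ K) (der_isAdd hψv K)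
      (fun L M _ _ h => der_mono_body hψv hψm h K)
  choose μ hμf hμ using hmeas
  -- total mass
  have hmass : ∀ K, (μ K).real Set.univ = der (ballB V) ψ K := by
    intro K
    rw [hμ K _ (Inv_ball u)]
    have : ∀ t : Icc (-1 : ℝ) 1, prof u x (ballB V) t = 1 := fun t => prof_ball hu hx hux t.2
    simp only [this, integral_const, smul_eq_mul, mul_one]
  have hBc : Continuous (der (ballB V) ψ) := (isVal_der hψv _).cont
  -- the valuation attached to a continuous function
  have hR : ∀ f : C(Icc (-1 : ℝ) 1, ℝ), ∃ G : ℕ → ConvexBody V → ℝ, ∃ L M : ℕ → ConvexBody V,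
      (∀ i, Inv u (L i)) ∧ (∀ i, Inv u (M i)) ∧
      (∀ i K, G i K = der (L i) ψ K - der (M i) ψ K) ∧
      (∀ (i : ℕ) (t : Icc (-1 : ℝ) 1), |f t - (prof u x (L i) t - prof u x (M i) t)| ≤
        1 / ((i : ℝ) + 1)) ∧
      ∀ i K, |(∫ t, f t ∂(μ K)) - G i K| ≤ 1 / ((i : ℝ) + 1) * der (ballB V) ψ K := by
    intro f
    have happ : ∀ i : ℕ, ∃ K L : ConvexBody V, Inv u K ∧ Inv u L ∧
      ∀ t : Icc (-1 : ℝ) 1, |f t - (prof u x K t - prof u x L t)| ≤ 1 / ((i : ℝ) + 1) :=
      fun i => approx hu hx hux f (by positivity)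
    choose L M hL hM hLM using happ
    refine ⟨fun i K => der (L i) ψ K - der (M i) ψ K, L, M, hL, hM, fun _ _ => rfl, hLM, ?_⟩
    intro i K
    have hint : ∀ g : C(Icc (-1 : ℝ) 1, ℝ), Integrable (fun t => g t) (μ K) := by
      intro g
      exact g.continuous.integrable_of_hasCompactSupport (HasCompactSupport.of_compactSpace _)
    have hintL : ∀ L : ConvexBody V,
        Integrable (fun t : Icc (-1 : ℝ) 1 => prof u x L t) (μ K) := fun L => hint (fL u x L)
    have hintLM : Integrable (fun t : Icc (-1 : ℝ) 1 => prof u x (L i) t - prof u x (M i) t) (μ K) :=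
      (hintL _).sub (hintL _)
    simp only
    rw [hμ K _ (hL i), hμ K _ (hM i), ← integral_sub (hintL _) (hintL _),
      ← integral_sub (hint f) hintLM, ← hmass K]
    have := norm_integral_le_of_norm_le_const (μ := μ K) (C := 1 / ((i : ℝ) + 1))
      (f := fun t : Icc (-1 : ℝ) 1 => f t - (prof u x (L i) t - prof u x (M i) t))
      (Eventually.of_forall fun t => by rw [Real.norm_eq_abs]; exact hLM i t)
    rw [Real.norm_eq_abs] at this
    exact this
  have hone : Tendsto (fun i : ℕ => 1 / ((i : ℝ) + 1)) atTop (𝓝 0) :=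
    tendsto_one_div_add_atTop_nhds_zero_nat
  have hkey : ∀ f : C(Icc (-1 : ℝ) 1, ℝ), IsVal (fun K => ∫ t, f t ∂(μ K)) ∧
      IsHom (j + 1) (fun K => ∫ t, f t ∂(μ K)) ∧ Zonal u (fun K => ∫ t, f t ∂(μ K)) ∧
      ∀ xs : List V, xs.length = j → Orthonormal ℝ (fun i : Fin xs.length => xs.get i) →
      (∀ x ∈ xs, ⟪u, x⟫_ℝ = 0) → ∀ t : Icc (-1 : ℝ) 1,
        Ds xs (fun K => ∫ t, f t ∂(μ K)) (Sb u t) =
          c * (f t + |(t : ℝ)| * f (if 0 ≤ (t : ℝ) then ⟨-1, by norm_num⟩ else ⟨1, by norm_num⟩)) := by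
    intro f
    obtain ⟨G, L, M, hL, hM, hG, hf, hR⟩ := hR f
    have hGv : ∀ i, IsVal (G i) := by
      intro i
      have : G i = fun K => der (L i) ψ K - der (M i) ψ K := funext (hG i)
      rw [this]
      exact (isVal_der hψv _).sub (isVal_der hψv _)
    have hlim := lim_tendsto hone hR
    refine ⟨lim_isVal hGv hBc hone (fun i => by positivity) hR, ?_, ?_, ?_⟩
    · intro a K ha
      refine tendsto_nhds_unique (hlim (a • K)) (((hlim K).const_mul (a ^ (j + 1))).congr ?_)
      intro i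
      rw [hG, hG, der_hom hψv hψh (L i) a K ha, der_hom hψv hψh (M i) a K ha]; ring
    · intro g _ hg K
      refine tendsto_nhds_unique (hlim (isoB g K)) ((hlim K).congr ?_)
      intro i
      rw [hG, hG]
      have h1 : ∀ N, Inv u N → der N ψ (isoB g K) = der N ψ K :=
        fun N hN => cof_iso (hN g hg) (hψi g hg) 1 K
      rw [h1 _ (hL i), h1 _ (hM i)]
    · intro xs hl ho hxs t
      have h1 : Tendsto (fun i => Ds xs (G i) (Sb u t)) atTop
          (𝓝 (Ds xs (fun K => ∫ t, f t ∂(μ K)) (Sb u t))) := by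
        obtain ⟨m, cc, LL, hex⟩ := Ds_expand xs (Sb u (t : ℝ))
        simp only [hex]
        exact tendsto_finsetSum _ fun k _ => (hlim (LL k)).const_mul _
      have h2 : Tendsto (fun i => Ds xs (G i) (Sb u t)) atTop (𝓝 (c * (f t + |(t : ℝ)| *
          f (if 0 ≤ (t : ℝ) then ⟨-1, by norm_num⟩ else ⟨1, by norm_num⟩)))) := by
        have h3 : ∀ s : Icc (-1 : ℝ) 1, Tendsto
            (fun i => prof u x (L i) s - prof u x (M i) s) atTop (𝓝 (f s)) := by
          intro s
          rw [tendsto_iff_dist_tendsto_zero]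
          refine squeeze_zero (fun _ => dist_nonneg) (fun i => ?_) hone
          rw [Real.dist_eq, abs_sub_comm]
          exact hf i s
        set s : Icc (-1 : ℝ) 1 := if 0 ≤ (t : ℝ) then ⟨-1, by norm_num⟩ else ⟨1, by norm_num⟩
          with hsd
        have h4 : ∀ N, prof u x N s = hs N (if 0 ≤ (t : ℝ) then -u else u) := by
          intro N
          rw [hsd]
          unfold prof
          split_ifs <;> simp
        refine (((h3 t).add ((h3 s).const_mul |(t : ℝ)|)).const_mul c).congr ?_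
        intro i
        have h5 : G i = fun K => der (L i) ψ K - der (M i) ψ K := funext (hG i)
        rw [h5, Ds_sub, hprof _ (hL i) xs hl ho hxs x hx hux t t.2,
          hprof _ (hM i) xs hl ho hxs x hx hux t t.2, h4, h4]
        unfold prof
        ring
      exact tendsto_nhds_unique h1 h2
  have hemb : MeasurableEmbedding (Subtype.val : Icc (-1 : ℝ) 1 → ℝ) :=
    MeasurableEmbedding.subtype_coe measurableSet_Icc
  refine ⟨(Real.toNNReal (1 / c)) • (μ K).map Subtype.val, ?_, ?_, ?_⟩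
  · have : IsFiniteMeasure ((μ K).map (Subtype.val : Icc (-1 : ℝ) 1 → ℝ)) := by
      infer_instance
    infer_instance
  · refine Measure.ae_smul_measure ?_ _
    rw [hemb.ae_map_iff]
    exact Eventually.of_forall fun t => t.2
  · intro φ hφ hφh hφz xs hl ho hxs
    have hcont : Continuous fun t : ℝ => (1 / c) * (Ds xs φ (Sb u t) - |t| / 2 * Ds xs φ (disc u)) := by
      have h1 : Continuous fun t : ℝ => Ds xs φ (Sb u t) :=
        (isVal_Ds hφ xs).cont.comp (continuous_Sb u)
      fun_prop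
    set F : C(Icc (-1 : ℝ) 1, ℝ) :=
      ⟨fun t => (1 / c) * (Ds xs φ (Sb u t) - |(t : ℝ)| / 2 * Ds xs φ (disc u)),
        hcont.comp continuous_subtype_val⟩ with hF
    obtain ⟨hRv, hRh, hRz, hRp⟩ := hkey F
    have hzero := zero_of_profile hn u hu hjn (fun K => φ K - ∫ t, F t ∂(μ K))
      (hφ.sub hRv) (by
        intro a K ha
        have h1 := hφh a K ha
        have h2 := hRh a K ha
        simp only at h2 ⊢
        rw [h1, h2]; ring) (by
        intro g hg hgu K
        have h1 := hφz g hg hgu K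
        have h2 := hRz g hg hgu K
        simp only at h2 ⊢
        rw [h1, h2]) (by
        intro xs' hl' ho' hxs' t ht
        rw [Ds_sub, hRp xs' hl' ho' hxs' ⟨t, ht⟩]
        have hmemF : ∀ ys : List V, (∀ x ∈ ys, ⟪u, x⟫_ℝ = 0) → ∀ x ∈ ys, x ∈ (ℝ ∙ u)ᗮ :=
          fun ys hys x hx => Submodule.mem_orthogonal_singleton_iff_inner_right.2 (hys x hx)
        have hfu := finrank_span_singleton (K := ℝ) (v := u) (by
          intro h; rw [h, norm_zero] at hu; exact zero_ne_one hu)
        obtain ⟨g, hg1, hg2, hg3⟩ := frame_trans j xs xs' (ℝ ∙ u) hl hl' ho ho'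
          (hmemF xs hxs) (hmemF xs' hxs') (by omega)
        have hgu : g u = u := hg2 u (Submodule.mem_span_singleton_self u)
        have h1 := Ds_iso g xs φ (Sb u t)
        rw [hg3, isoB_Sb hgu] at h1
        have h2 : (fun L => φ (isoB g L)) = φ := by
          funext L; exact hφz g hg1 hgu L
        rw [h2] at h1
        rw [← h1]
        have hF1 : F ⟨1, by norm_num⟩ = Ds xs φ (disc u) / (2 * c) := by
          change (1 / c) * (Ds xs φ (Sb u 1) - |(1 : ℝ)| / 2 * Ds xs φ (disc u)) = _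
          rw [Sb_one, abs_one]; field_simp; ring
        have hF2 : F ⟨-1, by norm_num⟩ = Ds xs φ (disc u) / (2 * c) := by
          change (1 / c) * (Ds xs φ (Sb u (-1)) - |(-1 : ℝ)| / 2 * Ds xs φ (disc u)) = _
          rw [Sb_neg_one, abs_neg, abs_one]; field_simp; ring
        have hF3 : F (if 0 ≤ t then ⟨-1, by norm_num⟩ else ⟨1, by norm_num⟩) =
            Ds xs φ (disc u) / (2 * c) := by
          split_ifs
          · exact hF2
          · exact hF1
        simp only
        rw [hF3]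
        change _ - c * ((1 / c) * (Ds xs φ (Sb u t) - |t| / 2 * Ds xs φ (disc u)) + _) = 0
        field_simp
        ring) K
    rw [sub_eq_zero] at hzero
    rw [hzero, integral_smul_nnreal_measure, hemb.integral_map, NNReal.smul_def, smul_eq_mul,
      Real.coe_toNNReal _ (by positivity), ← integral_const_mul]
    rfl

omit [MeasurableSpace V] [BorelSpace V] in
theorem RfRep.Ds_bound (φ : ConvexBody V → ℝ) (B : ℝ) : ∀ (xs : List V) (r : ℝ),
    (∀ K, dist K 0 ≤ r + (xs.map norm).sum → |φ K| ≤ B) →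
    ∀ K, dist K 0 ≤ r → |Ds xs φ K| ≤ 2 ^ xs.length * B := by
  intro xs
  induction xs with
  | nil =>
    intro r h K hK
    rw [Ds_nil, List.length_nil, pow_zero, one_mul]
    exact h K (by simpa using hK)
  | cons x xs ih =>
    intro r h K hK
    have hx : 0 ≤ ‖x‖ := norm_nonneg x
    rw [List.map_cons, List.sum_cons] at h
    have hseg : dist (seg x) 0 ≤ ‖x‖ := by
      refine dist_zero_le ?_
      intro y hy
      obtain ⟨c, hc0, hc1, rfl⟩ := mem_seg.1 hy
      rw [norm_smul, Real.norm_of_nonneg hc0]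
      nlinarith
    have h1 : dist (K + seg x) 0 ≤ r + ‖x‖ := by
      have := dist_add_le K 0 (seg x) 0
      rw [add_zero] at this
      linarith
    have h2 := ih (r + ‖x‖) (fun L hL => h L (by linarith)) (K + seg x) h1
    have h3 := ih (r + ‖x‖) (fun L hL => h L (by linarith)) K (by linarith)
    rw [Ds_cons, List.length_cons, pow_succ]
    unfold D
    have h4 := abs_sub (Ds xs φ (K + seg x)) (Ds xs φ K)
    linarith

/-- bounded pointwise convergence of the profiles implies pointwise convergence -/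
theorem zonal_tendsto (hn : 3 ≤ Module.finrank ℝ V) (u : V) (hu : ‖u‖ = 1) {j : ℕ}
    (hjn : j + 1 < Module.finrank ℝ V) (φ : ℕ → ConvexBody V → ℝ) (hφ : ∀ m, IsVal (φ m))
    (hj : ∀ m, IsHom (j + 1) (φ m)) (hz : ∀ m, Zonal u (φ m)) (C : ℝ)
    (hC : ∀ m K, |φ m K| ≤ C * dist K 0 ^ (j + 1))
    (xs : List V) (hl : xs.length = j) (ho : Orthonormal ℝ (fun i : Fin xs.length => xs.get i))
    (hx : ∀ x ∈ xs, ⟪u, x⟫_ℝ = 0)
    (h1 : ∀ τ : ℝ, Tendsto (fun m => Ds xs (φ m) (Tb u τ)) atTop (𝓝 0))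
    (h2 : Tendsto (fun m => Ds xs (φ m) (disc u)) atTop (𝓝 0)) (K : ConvexBody V) :
    Tendsto (fun m => φ m K) atTop (𝓝 0) := by
  obtain ⟨μ, hμ, hsupp, hrep⟩ := zonal_repr hn u hu hjn K
  obtain ⟨r, hr⟩ := (isCompact_Icc (a := (-1 : ℝ)) (b := 1)).exists_bound_of_continuousOn
    (f := fun t => dist (Sb u t) 0) ((continuous_Sb u).dist continuous_const).continuousOn
  have hr' : ∀ t ∈ Icc (-1 : ℝ) 1, dist (Sb u t) 0 ≤ r := fun t ht => by
    have := hr t ht
    rw [Real.norm_of_nonneg dist_nonneg] at this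
    exact this
  set B : ℝ := |C| * (r + (xs.map norm).sum) ^ (j + 1) with hB
  have hbound : ∀ m, ∀ t ∈ Icc (-1 : ℝ) 1, |Ds xs (φ m) (Sb u t)| ≤ 2 ^ xs.length * B := by
    intro m t ht
    refine Ds_bound (φ m) B xs r ?_ _ (hr' t ht)
    intro L hL
    refine (hC m L).trans ?_
    refine (mul_le_mul_of_nonneg_right (le_abs_self C) (by positivity)).trans ?_
    exact mul_le_mul_of_nonneg_left (pow_le_pow_left₀ dist_nonneg hL _) (abs_nonneg C)
  have hlim : ∀ t ∈ Icc (-1 : ℝ) 1, Tendsto (fun m => Ds xs (φ m) (Sb u t)) atTop (𝓝 0) := by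
    intro t ht
    rcases lt_or_eq_of_le (abs_le.2 ⟨ht.1, ht.2⟩) with h | h
    · rw [Sb_eq u h]
      have h3 : ∀ m, Ds xs (φ m) (Real.sqrt (1 - t ^ 2) • Tb u (t / Real.sqrt (1 - t ^ 2))) =
          Real.sqrt (1 - t ^ 2) * Ds xs (φ m) (Tb u (t / Real.sqrt (1 - t ^ 2))) := by
        intro m
        have := Ds_hom (hφ m) xs (j := 1) (by rw [hl, add_comm]; exact hj m)
          (Real.sqrt (1 - t ^ 2)) (Tb u (t / Real.sqrt (1 - t ^ 2))) (Real.sqrt_nonneg _)
        rw [this, pow_one]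
      simp only [h3]
      simpa using (h1 (t / Real.sqrt (1 - t ^ 2))).const_mul (Real.sqrt (1 - t ^ 2))
    · rcases eq_or_eq_neg_of_abs_eq h with h | h
      · rw [h, Sb_one]; exact h2
      · rw [h, Sb_neg_one]; exact h2
  have hd : ∀ m, |Ds xs (φ m) (disc u)| ≤ 2 ^ xs.length * B := by
    intro m
    rw [← Sb_one]
    exact hbound m 1 (by norm_num)
  have hmain := tendsto_integral_of_dominated_convergence (μ := μ)
    (F := fun m t => Ds xs (φ m) (Sb u t) - |t| / 2 * Ds xs (φ m) (disc u)) (f := fun _ => 0)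
    (fun _ => 2 * (2 ^ xs.length * B)) ?_ (integrable_const _) ?_ ?_
  · rw [integral_zero] at hmain
    refine hmain.congr fun m => ?_
    exact (hrep (φ m) (hφ m) (hj m) (hz m) xs hl ho hx).symm
  · intro m
    have h3 : Continuous fun t : ℝ => Ds xs (φ m) (Sb u t) :=
      (isVal_Ds (hφ m) xs).cont.comp (continuous_Sb u)
    have h4 : Continuous fun t : ℝ => Ds xs (φ m) (Sb u t) - |t| / 2 * Ds xs (φ m) (disc u) := by
      fun_prop
    exact h4.aestronglyMeasurable
  · intro m
    filter_upwards [hsupp] with t ht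
    rw [Real.norm_eq_abs]
    have h3 := abs_sub (Ds xs (φ m) (Sb u t)) (|t| / 2 * Ds xs (φ m) (disc u))
    have h4 := hbound m t ht
    have h5 : |(|t| / 2 * Ds xs (φ m) (disc u))| ≤ 2 ^ xs.length * B := by
      rw [abs_mul, abs_of_nonneg (by positivity : (0:ℝ) ≤ |t| / 2)]
      have h6 : |t| / 2 ≤ 1 := by
        have := abs_le.2 ⟨ht.1, ht.2⟩
        linarith
      have h7 := hd m
      have h8 := abs_nonneg (Ds xs (φ m) (disc u))
      nlinarith
    linarith
  · filter_upwards [hsupp] with t ht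
    have h3 := (hlim t ht).sub (h2.const_mul (|t| / 2))
    simpa using h3

end
end MV
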