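import Pool.Agent.Lib.MP_f30071_gt.Prof
import Pool.Agent.Lib.MP_f30071_gt.RfRep

open MeasureTheory ProbabilityTheory Filter Topology Set
open scoped InnerProductSpace Pointwise NNReal ENNReal

set_option linter.unusedSectionVars false
set_option linter.unnecessarySimpa false

namespace MV

/-! ### module ProfMain (ProfMain.lean) -/

section ProfMain
variable {V : Type*} [NormedAddCommGroup V] [InnerProductSpace ℝ V] [FiniteDimensional ℝ V]
  [MeasurableSpace V] [BorelSpace V]
variable {Φ : ConvexBody V → ConvexBody V}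

namespace PM

/-! #### generalities -/

theorem comp_zonal {φ : ConvexBody V → ℝ} {u : V} (h : Zonal u φ) (j : ℕ) :
    Zonal u (comp j φ) := by
  intro g hg hgu K
  unfold comp
  apply Finset.sum_congr rfl
  intro k _
  rw [← isoB_smul, h g hg hgu]

theorem comp_rot {F : V → ConvexBody V → ℝ} (j : ℕ) (g : V ≃ₗᵢ[ℝ] V) (y : V)
    (h : ∀ K, F (g y) (isoB g K) = F y K) (K : ConvexBody V) :
    comp j (F (g y)) (isoB g K) = comp j (F y) K := by
  unfold comp
  apply Finset.sum_congr rfl
  intro k _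
  rw [← isoB_smul, h]

theorem sub_hom {j : ℕ} {φ ψ : ConvexBody V → ℝ} (h1 : IsHom j φ) (h2 : IsHom j ψ) (c : ℝ) :
    IsHom j (fun K => φ K - c * ψ K) := by
  intro a K ha
  simp only
  rw [h1 a K ha, h2 a K ha]
  ring

theorem sub_zonal {u : V} {φ ψ : ConvexBody V → ℝ} (h1 : Zonal u φ) (h2 : Zonal u ψ) (c : ℝ) :
    Zonal u (fun K => φ K - c * ψ K) := by
  intro g hg hgu K
  simp only
  rw [h1 g hg hgu, h2 g hg hgu]

theorem exists_rot_map (hn : 2 ≤ Module.finrank ℝ V) {x y : V} (h : ‖x‖ = ‖y‖) :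
    ∃ g : V ≃ₗᵢ[ℝ] V, Rot g ∧ g x = y := by
  obtain ⟨g, h1, -, h2⟩ := InvNull.trans_sub (⊤ : Submodule ℝ V) (by rwa [finrank_top]) x y
    Submodule.mem_top Submodule.mem_top h
  exact ⟨g, h1, h2⟩

/-- a rotation invariant positively homogeneous function is a multiple of the norm -/
theorem eq_norm_mul (hn : 2 ≤ Module.finrank ℝ V) {G : V → ℝ}
    (hom : ∀ (c : ℝ) (v : V), 0 ≤ c → G (c • v) = c * G v)
    (hrot : ∀ (g : V ≃ₗᵢ[ℝ] V), Rot g → ∀ y, G (g y) = G y) :
    ∃ c : ℝ, ∀ v, G v = c * ‖v‖ := by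
  obtain ⟨e, he⟩ : ∃ e : V, e ≠ 0 := by
    have : 0 < Module.finrank ℝ V := by omega
    exact Module.finrank_pos_iff_exists_ne_zero.1 this
  set e1 : V := ‖e‖⁻¹ • e with he1
  have hne : ‖e1‖ = 1 := by
    rw [he1, norm_smul, norm_inv, norm_norm, inv_mul_cancel₀ (norm_ne_zero_iff.2 he)]
  refine ⟨G e1, ?_⟩
  intro v
  obtain ⟨g, hg, hgv⟩ := exists_rot_map hn (x := ‖v‖ • e1) (y := v) (by
    rw [norm_smul, hne, norm_norm, mul_one])
  have h1 := hrot g hg (‖v‖ • e1)
  rw [hgv, hom _ _ (norm_nonneg v)] at h1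
  rw [h1, mul_comm]

theorem Nt_mul (c : ℝ) (g : V → ℝ) (t : ℝ) (u : V) :
    Nt t u (fun v => c * g v) = c * Nt t u g := by
  unfold Nt
  have h : ∀ z : V, c * g (prj u z + t • u) + c * g (prj u z - t • u) - 2 * (c * g (prj u z))
      = c * (g (prj u z + t • u) + g (prj u z - t • u) - 2 * g (prj u z)) := by
    intro z; ring
  simp only [h]
  rw [integral_const_mul]
  ring

theorem Nt_congr {g h : V → ℝ} (e : ∀ v, g v = h v) (t : ℝ) (u : V) : Nt t u g = Nt t u h := by
  have : g = h := funext e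
  rw [this]

theorem Nt_norm_mul_tendsto (u : V) (hd : 2 ≤ Module.finrank ℝ V) (c : ℝ) {G : V → ℝ}
    (hG : ∀ v, G v = c * ‖v‖) : Tendsto (fun t => Nt t u G) (𝓝[>] (0 : ℝ)) (𝓝 0) := by
  have h1 := (Nt_norm_tendsto u hd).const_mul c
  rw [mul_zero] at h1
  refine h1.congr fun t => ?_
  rw [Nt_congr hG, Nt_mul]

/-! #### the sequence -/

noncomputable def tm (m : ℕ) : ℝ := 1 / ((m : ℝ) + 1)

theorem tm_pos (m : ℕ) : 0 < tm m := by unfold tm; positivity

theorem tm_tendsto : Tendsto tm atTop (𝓝[>] (0 : ℝ)) := by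
  rw [tendsto_nhdsWithin_iff]
  refine ⟨tendsto_one_div_add_atTop_nhds_zero_nat, Filter.Eventually.of_forall fun m => tm_pos m⟩

/-! #### degrees 0 and n -/

theorem tendsto_comp_zero (hn : 3 ≤ Module.finrank ℝ V) (hΦ : IsMVal Φ) (u : V)
    (K : ConvexBody V) :
    Tendsto (fun t => comp 0 (fun L => Nt t u (hs (Φ L))) K) (𝓝[>] (0 : ℝ)) (𝓝 0) := by
  obtain ⟨c, hc⟩ := eq_norm_mul (V := V) (by omega) (G := fun v => comp 0 (FF Φ v) K) (by
    intro a v ha
    rw [comp_zero (isVal_FF hΦ _), comp_zero (isVal_FF hΦ _)]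
    exact hs_smul_right _ ha v) (by
    intro g hg y
    rw [comp_zero (isVal_FF hΦ _), comp_zero (isVal_FF hΦ _), ← FF_iso hΦ g hg y 0]
    congr 1
    rw [isoB, mapB_zero])
  have h1 := Nt_norm_mul_tendsto u (by omega) c hc
  refine h1.congr fun t => ?_
  rw [comp_Nt hΦ]

theorem hom_comp_FF (_hΦ : IsMVal Φ) (j : ℕ) (K : ConvexBody V) (a : ℝ) (v : V) (ha : 0 ≤ a) :
    comp j (FF Φ (a • v)) K = a * comp j (FF Φ v) K := by
  unfold comp FF
  rw [Finset.mul_sum]
  apply Finset.sum_congr rfl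
  intro k _
  rw [hs_smul_right _ ha]
  ring

theorem tendsto_comp_top (hn : 3 ≤ Module.finrank ℝ V) (hΦ : IsMVal Φ) (u : V)
    (K : ConvexBody V) :
    Tendsto (fun t => comp (Module.finrank ℝ V) (fun L => Nt t u (hs (Φ L))) K)
      (𝓝[>] (0 : ℝ)) (𝓝 0) := by
  set n := Module.finrank ℝ V with hndef
  -- value on the ball
  obtain ⟨c, hc⟩ := eq_norm_mul (V := V) (by omega) (G := fun v => comp n (FF Φ v) (ballB V))
    (fun a v ha => hom_comp_FF hΦ n (ballB V) a v ha) (by
    intro g hg y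
    have h := comp_rot (F := FF Φ) n g y (FF_iso hΦ g hg y) (ballB V)
    rw [isoB_ball] at h
    exact h)
  set b := stdOrthonormalBasis ℝ V with hb
  set es : List V := List.ofFn b with hes
  have hel : es.length = Module.finrank ℝ V := by rw [hes, List.length_ofFn]
  have heo : Orthonormal ℝ (fun i : Fin es.length => es.get i) := by
    rw [orthonormal_iff_pairwise]
    refine ⟨?_, ?_⟩
    · intro x hx
      rw [hes, List.mem_ofFn] at hx
      obtain ⟨i, rfl⟩ := hx
      exact b.orthonormal.1 i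
    · rw [hes, List.pairwise_ofFn]
      intro i j hij
      exact b.orthonormal.2 hij.ne
  have hG : ∀ v, comp n (FF Φ v) K = (c * (vol K / vol (ballB V))) * ‖v‖ := by
    intro v
    have h1 := top_unique (isVal_comp (isVal_FF hΦ v) n) (comp_isHom (isVal_FF hΦ v) le_rfl)
      es hel heo K
    have h2 := top_unique (isVal_comp (isVal_FF hΦ v) n) (comp_isHom (isVal_FF hΦ v) le_rfl)
      es hel heo (ballB V)
    have h3 : comp n (FF Φ v) (ballB V) = c * ‖v‖ := hc v
    rw [h3] at h2
    have hv : vol (ballB V) ≠ 0 := vol_ball_pos.ne'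
    rw [h1]
    have h4 : Ds es (comp n (FF Φ v)) 0 = c * ‖v‖ / vol (ballB V) := by
      rw [eq_div_iff hv]; exact h2.symm
    rw [h4]
    field_simp
  have h1 := Nt_norm_mul_tendsto u (by omega) _ hG
  refine h1.congr fun t => ?_
  rw [comp_Nt hΦ]

/-! #### orthonormal frames -/

theorem exists_frame (u : V) (_hu : ‖u‖ = 1) : ∀ j : ℕ, j + 1 ≤ Module.finrank ℝ V →
    ∃ xs : List V, xs.length = j ∧ Orthonormal ℝ (fun i : Fin xs.length => xs.get i) ∧
      ∀ x ∈ xs, ⟪u, x⟫_ℝ = 0 := by
  intro j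
  induction j with
  | zero =>
    intro _
    refine ⟨[], rfl, ?_, by simp⟩
    rw [orthonormal_iff_pairwise]
    simp
  | succ j ih =>
    intro hj
    obtain ⟨xs, h1, h2, h3⟩ := ih (by omega)
    obtain ⟨e, he, hey⟩ := exists_perp (V := V) (ys := u :: xs) (by
      rw [List.length_cons, h1]; omega)
    refine ⟨e :: xs, by rw [List.length_cons, h1], ?_, ?_⟩
    · exact vol_orthonormal_cons he (fun y hy => hey y (List.mem_cons_of_mem _ hy)) h2
    · intro x hx
      rcases List.mem_cons.1 hx with rfl | hx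
      · rw [real_inner_comm]
        exact hey u List.mem_cons_self
      · exact h3 x hx

/-! #### middle degrees -/

theorem tendsto_comp_mid (hn : 3 ≤ Module.finrank ℝ V) (hΦ : IsMVal Φ) (u : V) (hu : ‖u‖ = 1)
    {j : ℕ} (h1 : 1 ≤ j) (hj : j + 3 ≤ Module.finrank ℝ V) (K : ConvexBody V) :
    Tendsto (fun m => comp (j + 1) (fun L => Nt (tm m) u (hs (Φ L))) K) atTop (𝓝 0) := by
  obtain ⟨C, hC0, hC⟩ := comp_Nt_bound hΦ (j + 1) (by omega)
  obtain ⟨xs, hl, ho, hx⟩ := exists_frame u hu j (by omega)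
  apply zonal_tendsto hn u hu (j := j) (by omega)
    (fun m => comp (j + 1) (fun L => Nt (tm m) u (hs (Φ L))))
    (fun m => isVal_comp (isVal_Nt hΦ _ u) _)
    (fun m => comp_isHom (isVal_Nt hΦ _ u) (by omega))
    (fun m => comp_zonal (zonal_Nt hΦ _ u) _) C
    (fun m K => hC _ (tm_pos m) u hu K) xs hl ho hx
  · intro τ
    rcases eq_or_ne τ 0 with rfl | hτ
    · rw [Tb_zero]
      have h := (prof_seg hn hΦ u hu xs ho hx (by
        intro h
        rw [h] at hl
        simp at hl
        omega) (by omega)).comp tm_tendsto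
      rw [hl] at h
      exact h
    · have h := (prof_low hn hΦ u hu xs ho hx (by omega) τ hτ).comp tm_tendsto
      rw [hl] at h
      exact h
  · have h := (prof_disc_low hn hΦ u hu xs ho hx (by omega)).comp tm_tendsto
    rw [hl] at h
    exact h

/-! #### the identity -/

theorem hs_growth (K : ConvexBody V) (x : V) : |hs K x| ≤ dist K 0 * (1 + ‖x‖) := by
  refine (abs_hs_le K x).trans ?_
  apply mul_le_mul_of_nonneg_left _ dist_nonneg
  linarith

theorem isAdd_Nt (t : ℝ) (ht : 0 < t) (u : V) (hu : ‖u‖ = 1) :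
    IsAdd (fun K : ConvexBody V => Nt t u (hs K)) where
  cont := by
    set M : ℝ := (1 / t) * ∫ z : V, (4 * ‖z‖ + 2 * t) ∂(stdGaussian V) with hM
    have hlip : ∀ K L : ConvexBody V, |Nt t u (hs K) - Nt t u (hs L)| ≤ M * dist K L := by
      intro K L
      have i1 := Nt_integrable (continuous_hs_right K) (hs_growth K) t u
      have i2 := Nt_integrable (continuous_hs_right L) (hs_growth L) t u
      have i3 : Integrable (fun z : V => (4 * ‖z‖ + 2 * t)) (stdGaussian V) :=
        (integrable_norm_gauss.const_mul 4).add (integrable_const _)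
      have h1 : Nt t u (hs K) - Nt t u (hs L) = (1 / t) * ∫ z,
          ((hs K (prj u z + t • u) + hs K (prj u z - t • u) - 2 * hs K (prj u z)) -
          (hs L (prj u z + t • u) + hs L (prj u z - t • u) - 2 * hs L (prj u z)))
            ∂(stdGaussian V) := by
        rw [integral_sub i1 i2]
        unfold Nt
        ring
      rw [h1, abs_mul, abs_of_pos (by positivity : 0 < 1 / t)]
      have h2 : M * dist K L = (1 / t) * ∫ z : V, (4 * ‖z‖ + 2 * t) * dist K L
          ∂(stdGaussian V) := by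
        rw [integral_mul_const, hM]
        ring
      rw [h2]
      apply mul_le_mul_of_nonneg_left _ (by positivity)
      refine (abs_integral_le_integral_abs).trans ?_
      apply integral_mono (i1.sub i2).abs (i3.mul_const _)
      intro z
      have a1 := abs_hs_sub_le K L (prj u z + t • u)
      have a2 := abs_hs_sub_le K L (prj u z - t • u)
      have a3 := abs_hs_sub_le K L (prj u z)
      have b0 := norm_prj_le u z
      have b1 : ‖prj u z + t • u‖ ≤ ‖z‖ + t := by
        refine (norm_add_le _ _).trans ?_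
        rw [norm_smul, hu, Real.norm_of_nonneg ht.le, mul_one]
        linarith
      have b2 : ‖prj u z - t • u‖ ≤ ‖z‖ + t := by
        refine (norm_sub_le _ _).trans ?_
        rw [norm_smul, hu, Real.norm_of_nonneg ht.le, mul_one]
        linarith
      have hd : 0 ≤ dist K L := dist_nonneg
      have c1 := mul_le_mul_of_nonneg_left b1 hd
      have c2 := mul_le_mul_of_nonneg_left b2 hd
      have c3 := mul_le_mul_of_nonneg_left b0 hd
      rw [abs_le] at a1 a2 a3
      show |(hs K (prj u z + t • u) + hs K (prj u z - t • u) - 2 * hs K (prj u z)) -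
          (hs L (prj u z + t • u) + hs L (prj u z - t • u) - 2 * hs L (prj u z))| ≤
          (4 * ‖z‖ + 2 * t) * dist K L
      rw [abs_le]
      constructor <;> nlinarith
    have : LipschitzWith (Real.toNNReal M) (fun K : ConvexBody V => Nt t u (hs K)) := by
      apply LipschitzWith.of_dist_le_mul
      intro K L
      rw [Real.dist_eq, Real.coe_toNNReal _ (by
        rw [hM]
        apply mul_nonneg (by positivity)
        apply integral_nonneg
        intro z
        positivity)]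
      exact hlip K L
    exact this.continuous
  add := by
    intro K L
    have i1 := Nt_integrable (continuous_hs_right K) (hs_growth K) t u
    have i2 := Nt_integrable (continuous_hs_right L) (hs_growth L) t u
    have h1 : Nt t u (hs K) + Nt t u (hs L) = (1 / t) * ∫ z,
          ((hs K (prj u z + t • u) + hs K (prj u z - t • u) - 2 * hs K (prj u z)) +
          (hs L (prj u z + t • u) + hs L (prj u z - t • u) - 2 * hs L (prj u z)))
            ∂(stdGaussian V) := by
      rw [integral_add i1 i2]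
      unfold Nt
      ring
    show Nt t u (hs (K + L)) = Nt t u (hs K) + Nt t u (hs L)
    rw [h1]
    unfold Nt
    congr 1
    apply integral_congr_ae
    filter_upwards with z
    simp only [hs_add]
    ring
  pt := by
    intro x
    show Nt t u (hs (MV.pt x)) = 0
    rw [Nt_congr (h := fun v => ⟪x, v⟫_ℝ) (fun v => by rw [hs_pt, real_inner_comm]), Nt_inner]

theorem Nt_hs_bound (t : ℝ) (ht : 0 < t) (u : V) (hu : ‖u‖ = 1) (K : ConvexBody V) :
    |Nt t u (hs K)| ≤ 2 * dist K 0 := by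
  have h := Nt_bound (hs_sublin K) (dist K 0) (fun x y => hs_lip K x y) u ht
  rw [hu, mul_one] at h
  exact h

theorem Nt_hs_zonal (t : ℝ) (u : V) : Zonal u (fun K : ConvexBody V => Nt t u (hs K)) := by
  intro g _ hgu K
  show Nt t u (hs (isoB g K)) = Nt t u (hs K)
  rw [Nt_congr (fun v => hs_isoB g K v)]
  conv_lhs => rw [← hgu]
  exact Nt_isom g t u (hs K)

theorem second_Tb (u : V) (hu : ‖u‖ = 1) (τ t : ℝ) (ht : 0 < t) (z : V) :
    hs (Tb u τ) (prj u z + t • u) + hs (Tb u τ) (prj u z - t • u) - 2 * hs (Tb u τ) (prj u z)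
      = max 0 (t - |τ| * ‖prj u z‖) := by
  have huu : ⟪u, u⟫_ℝ = 1 := by rw [real_inner_self_eq_norm_sq, hu]; norm_num
  have hpu : prj u u = 0 := by
    unfold prj
    rw [huu, hu]
    simp
  have hpp : prj u (prj u z) = prj u z := prj_of_inner_zero u _ (inner_prj u z)
  have e1 : prj u (prj u z + t • u) = prj u z := by
    rw [prj_add, prj_smul, hpu, hpp, smul_zero, add_zero]
  have e2 : prj u (prj u z - t • u) = prj u z := by
    rw [sub_eq_add_neg, ← neg_smul, prj_add, prj_smul, hpu, hpp, smul_zero, add_zero]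
  have f1 : ⟪u, prj u z + t • u⟫_ℝ = t := by
    rw [inner_add_right, inner_prj, real_inner_smul_right, huu]; ring
  have f2 : ⟪u, prj u z - t • u⟫_ℝ = -t := by
    rw [inner_sub_right, inner_prj, real_inner_smul_right, huu]; ring
  rw [hs_Tb, hs_Tb, hs_Tb, e1, e2, hpp, f1, f2, inner_prj]
  have hr : 0 ≤ ‖prj u z‖ := norm_nonneg _
  generalize ‖prj u z‖ = r at hr
  rcases le_total 0 τ with h | h
  · rw [abs_of_nonneg h, max_eq_left h]
    have h3 : 0 ≤ τ * r := mul_nonneg h hr
    rw [max_eq_left (a := (0 : ℝ)) (b := -t - τ * r) (by linarith),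
      max_eq_left (a := (0 : ℝ)) (b := 0 - τ * r) (by linarith)]
    ring
  · rw [abs_of_nonpos h, max_eq_right h]
    have h3 : 0 ≤ -τ * r := mul_nonneg (by linarith) hr
    rw [max_eq_right (a := (0 : ℝ)) (b := t - τ * r) (by linarith),
      max_eq_right (a := (0 : ℝ)) (b := 0 - τ * r) (by linarith)]
    rcases le_total 0 (t - -τ * r) with h4 | h4
    · rw [max_eq_right h4, max_eq_left (a := (0 : ℝ)) (b := -t - τ * r) (by linarith)]
      ring
    · rw [max_eq_left h4, max_eq_right (a := (0 : ℝ)) (b := -t - τ * r) (by linarith)]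
      ring

theorem ae_prj_ne_zero (u : V) (hn : 2 ≤ Module.finrank ℝ V) :
    ∀ᵐ z ∂(stdGaussian V), prj u z ≠ 0 := by
  have h1 : (volume : Measure V) ((Submodule.span ℝ {u} : Submodule ℝ V) : Set V) = 0 := by
    apply Measure.addHaar_submodule
    intro h
    have h2 : Module.finrank ℝ (Submodule.span ℝ {u} : Submodule ℝ V) ≤ 1 :=
      (finrank_span_le_card _).trans (by simp)
    rw [h, finrank_top] at h2
    omega
  have h2 := (gauss_null_iff _).2 h1
  rw [ae_iff]
  refine measure_mono_null ?_ h2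
  intro z hz
  have hz' : prj u z = 0 := by
    have := hz
    simpa using this
  unfold prj at hz'
  rw [sub_eq_zero] at hz'
  rw [SetLike.mem_coe, Submodule.mem_span_singleton]
  exact ⟨_, hz'.symm⟩

theorem Nt_Tb_tendsto (u : V) (hu : ‖u‖ = 1) (hn : 2 ≤ Module.finrank ℝ V) (τ : ℝ) (hτ : τ ≠ 0) :
    Tendsto (fun m => Nt (tm m) u (hs (Tb u τ))) atTop (𝓝 0) := by
  have h1 : ∀ m, Nt (tm m) u (hs (Tb u τ)) =
      ∫ z, (1 / tm m) * max 0 (tm m - |τ| * ‖prj u z‖) ∂(stdGaussian V) := by
    intro m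
    rw [integral_const_mul]
    unfold Nt
    congr 1
    apply integral_congr_ae
    filter_upwards with z
    exact second_Tb u hu τ _ (tm_pos m) z
  simp only [h1]
  rw [show 𝓝 (0 : ℝ) = 𝓝 (∫ _z : V, (0 : ℝ) ∂(stdGaussian V)) by simp]
  apply tendsto_integral_of_dominated_convergence (fun _ => (1 : ℝ))
  · intro m
    have : Continuous (fun z : V => (1 / tm m) * max 0 (tm m - |τ| * ‖prj u z‖)) := by
      have := prj_continuous u
      fun_prop
    exact this.aestronglyMeasurable
  · exact integrable_const _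
  · intro m
    filter_upwards with z
    have hm := tm_pos m
    rw [Real.norm_of_nonneg (by positivity)]
    have h2 : max 0 (tm m - |τ| * ‖prj u z‖) ≤ tm m := by
      apply max_le hm.le
      have : 0 ≤ |τ| * ‖prj u z‖ := by positivity
      linarith
    calc 1 / tm m * max 0 (tm m - |τ| * ‖prj u z‖) ≤ 1 / tm m * tm m :=
          mul_le_mul_of_nonneg_left h2 (by positivity)
      _ = 1 := by field_simp
  · filter_upwards [ae_prj_ne_zero u hn] with z hz
    have hpos : 0 < |τ| * ‖prj u z‖ := by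
      have := norm_pos_iff.2 hz
      have := abs_pos.2 hτ
      positivity
    have h3 : ∀ᶠ m in atTop, tm m < |τ| * ‖prj u z‖ := by
      have h4 : Tendsto tm atTop (𝓝 0) := tendsto_one_div_add_atTop_nhds_zero_nat
      exact h4.eventually_lt_const hpos
    apply tendsto_const_nhds.congr'
    filter_upwards [h3] with m hm
    rw [max_eq_left (by linarith), mul_zero]

theorem Nt_disc (t : ℝ) (u : V) (hu : ‖u‖ = 1) : Nt t u (hs (disc u)) = 0 := by
  have huu : ⟪u, u⟫_ℝ = 1 := by rw [real_inner_self_eq_norm_sq, hu]; norm_num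
  have hpu : prj u u = 0 := by
    unfold prj
    rw [huu, hu]
    simp
  unfold Nt
  have h : ∀ z : V, hs (disc u) (prj u z + t • u) + hs (disc u) (prj u z - t • u)
      - 2 * hs (disc u) (prj u z) = 0 := by
    intro z
    have hpp : prj u (prj u z) = prj u z := prj_of_inner_zero u _ (inner_prj u z)
    have e1 : prj u (prj u z + t • u) = prj u z := by
      rw [prj_add, prj_smul, hpu, hpp, smul_zero, add_zero]
    have e2 : prj u (prj u z - t • u) = prj u z := by
      rw [sub_eq_add_neg, ← neg_smul, prj_add, prj_smul, hpu, hpp, smul_zero, add_zero]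
    rw [hs_disc, hs_disc, hs_disc, e1, e2, hpp]
    ring
  simp only [h]
  simp

theorem tendsto_comp_one (hn : 3 ≤ Module.finrank ℝ V) (hΦ : IsMVal Φ) {κ : ℝ}
    (hκ : ∀ u : V, ‖u‖ = 1 →
      Tendsto (fun t => comp 1 (fun L => Nt t u (hs (Φ L))) (seg u)) (𝓝[>] (0 : ℝ)) (𝓝 κ))
    (u : V) (hu : ‖u‖ = 1) (K : ConvexBody V) :
    Tendsto (fun m => comp 1 (fun L => Nt (tm m) u (hs (Φ L))) K - κ * Nt (tm m) u (hs K))
      atTop (𝓝 0) := by
  obtain ⟨C, hC0, hC⟩ := comp_Nt_bound hΦ 1 (by omega)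
  have ho : Orthonormal ℝ (fun i : Fin ([] : List V).length => ([] : List V).get i) := by
    rw [orthonormal_iff_pairwise]; simp
  apply zonal_tendsto hn u hu (j := 0) (by omega)
    (fun m => fun K => comp 1 (fun L => Nt (tm m) u (hs (Φ L))) K - κ * Nt (tm m) u (hs K))
    (fun m => (isVal_comp (isVal_Nt hΦ _ u) _).sub
      ((isAdd_Nt _ (tm_pos m) u hu).isVal.const_mul κ))
    (fun m => sub_hom (comp_isHom (isVal_Nt hΦ _ u) (by omega))
      (isAdd_Nt _ (tm_pos m) u hu).isHom κ)
    (fun m => sub_zonal (comp_zonal (zonal_Nt hΦ _ u) _) (Nt_hs_zonal _ u) κ) (C + |κ| * 2)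
    _ [] rfl ho (by simp)
  · intro τ
    simp only [Ds_nil]
    rcases eq_or_ne τ 0 with rfl | hτ
    · rw [Tb_zero]
      have h := (hκ u hu).comp tm_tendsto
      have h2 : ∀ m, Nt (tm m) u (hs (seg u)) = 1 := by
        intro m
        rw [Nt_congr (fun v => hs_seg u v)]
        exact Nt_unit u hu (tm_pos m)
      simp only [h2]
      have h3 := h.sub_const (κ * 1)
      rw [mul_one, sub_self] at h3
      simpa using h3
    · have h := (prof_low hn hΦ u hu [] ho (by simp) (by simpa using hn) τ hτ).comp tm_tendsto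
      have h2 := (Nt_Tb_tendsto u hu (by omega) τ hτ).const_mul κ
      have h3 := h.sub h2
      rw [mul_zero, sub_zero] at h3
      exact h3
  · simp only [Ds_nil]
    have h := (prof_disc_low hn hΦ u hu [] ho (by simp) (by simpa using hn)).comp tm_tendsto
    have h2 : ∀ m, κ * Nt (tm m) u (hs (disc u)) = 0 := by
      intro m
      rw [Nt_disc _ u hu, mul_zero]
    simp only [h2, sub_zero]
    exact h
  · intro m L
    have h1 := hC _ (tm_pos m) u hu L
    have h2 := Nt_hs_bound _ (tm_pos m) u hu L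
    simp only [zero_add, pow_one] at h1 ⊢
    have h3 : |comp 1 (fun L => Nt (tm m) u (hs (Φ L))) L - κ * Nt (tm m) u (hs L)| ≤
        |comp 1 (fun L => Nt (tm m) u (hs (Φ L))) L| + |κ| * |Nt (tm m) u (hs L)| := by
      rw [← abs_mul]
      exact abs_sub _ _
    have h4 := mul_le_mul_of_nonneg_left h2 (abs_nonneg κ)
    nlinarith

/-! #### degree n-1 -/

theorem Nt_abs_inner (u : V) (hu : ‖u‖ = 1) {t : ℝ} (ht : 0 < t) :
    Nt t u (fun y => |⟪u, y⟫_ℝ|) = 2 := by
  have huu : ⟪u, u⟫_ℝ = 1 := by rw [real_inner_self_eq_norm_sq, hu]; norm_num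
  unfold Nt
  have h : ∀ z : V, |⟪u, prj u z + t • u⟫_ℝ| + |⟪u, prj u z - t • u⟫_ℝ|
      - 2 * |⟪u, prj u z⟫_ℝ| = 2 * t := by
    intro z
    rw [inner_add_right, inner_sub_right, inner_prj, real_inner_smul_right, huu, mul_one,
      zero_add, zero_sub, abs_neg, abs_of_pos ht, abs_zero]
    ring
  simp only [h]
  rw [integral_const, probReal_univ, one_smul]
  field_simp

theorem Nt_PiB_hom (t : ℝ) (u : V) :
    IsHom (Module.finrank ℝ V - 1) (fun L : ConvexBody V => Nt t u (hs (PiB L))) := by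
  intro c K hc
  show Nt t u (hs (PiB (c • K))) = c ^ (Module.finrank ℝ V - 1) * Nt t u (hs (PiB K))
  rw [PiB_hom hc, Nt_congr (fun v => hs_smul (pow_nonneg hc _) (PiB K) v), Nt_mul]

theorem disc_value (hn : 3 ≤ Module.finrank ℝ V) (u : V) (hu : ‖u‖ = 1) (xs : List V)
    (ho : Orthonormal ℝ (fun i : Fin xs.length => xs.get i)) (hx : ∀ x ∈ xs, ⟪u, x⟫_ℝ = 0)
    (hl : xs.length + 2 = Module.finrank ℝ V) {t : ℝ} (ht : 0 < t) :
    Ds xs (comp (xs.length + 1) (fun L : ConvexBody V => Nt t u (hs (PiB L)))) (disc u) = 4 := by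
  have hF : IsVal (fun L : ConvexBody V => Nt t u (hs (PiB L))) := isVal_Nt isMVal_PiB t u
  have hFh : IsHom (xs.length + 1) (fun L : ConvexBody V => Nt t u (hs (PiB L))) := by
    have h := Nt_PiB_hom (V := V) t u
    have h2 : Module.finrank ℝ V - 1 = xs.length + 1 := by omega
    rw [h2] at h
    exact h
  have hcomp : ∀ K, comp (xs.length + 1) (fun L : ConvexBody V => Nt t u (hs (PiB L))) K =
      (fun L : ConvexBody V => Nt t u (hs (PiB L))) K := by
    intro K
    rw [comp_of_isHom hF hFh (by omega) (by omega) K, if_pos rfl]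
  rw [Ds_fun_eq hcomp]
  obtain ⟨e, he, hey⟩ := exists_perp (V := V) (ys := u :: xs) (by rw [List.length_cons]; omega)
  have heu : ⟪e, u⟫_ℝ = 0 := hey u List.mem_cons_self
  have hex : ∀ x ∈ xs, ⟪e, x⟫_ℝ = 0 := fun x h => hey x (List.mem_cons_of_mem _ h)
  have houx : Orthonormal ℝ (fun i : Fin (u :: xs).length => (u :: xs).get i) :=
    vol_orthonormal_cons hu hx ho
  have huu : ⟪u, u⟫_ℝ = 1 := by rw [real_inner_self_eq_norm_sq, hu]; norm_num
  have h1 : Ds xs (fun L : ConvexBody V => Nt t u (hs (PiB L))) (disc u) =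
      Ds xs (fun L : ConvexBody V => Nt t u (hs (PiB L))) (0 + seg ((2 : ℝ) • e) + pt (-e)) := by
    apply Ds_congr hF
    intro v hv
    rw [hs_disc, hs_add, hs_add, hs_zero, hs_seg, hs_pt, zero_add, real_inner_smul_right,
      inner_neg_right]
    have hw : prj u v = v - ⟪u, v⟫_ℝ • u := by simp [prj, hu]
    have hw1 : ∀ y ∈ u :: xs, ⟪prj u v, y⟫_ℝ = 0 := by
      intro y hy
      rcases List.mem_cons.1 hy with rfl | hy
      · rw [real_inner_comm, inner_prj]
      · rw [hw, inner_sub_left, real_inner_smul_left, hv y hy, hx y hy]; ring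
    have hw2 := eq_smul_of_perp (by rw [List.length_cons]; omega) he hey houx hw1
    have hw3 : ⟪e, prj u v⟫_ℝ = ⟪v, e⟫_ℝ := by
      rw [hw, inner_sub_right, real_inner_smul_right, heu, mul_zero, sub_zero, real_inner_comm]
    rw [hw2, hw3, norm_smul, he, mul_one, Real.norm_eq_abs]
    rcases le_total 0 ⟪v, e⟫_ℝ with h | h
    · rw [abs_of_nonneg h, max_eq_right (by linarith)]; ring
    · rw [abs_of_nonpos h, max_eq_left (by linarith)]; ring
  have hA : IsVal (Ds xs (fun L : ConvexBody V => Nt t u (hs (PiB L)))) := isVal_Ds hF xs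
  have hAh : IsHom (0 + 1) (Ds xs (fun L : ConvexBody V => Nt t u (hs (PiB L)))) := by
    apply Ds_hom hF xs
    rw [zero_add, add_comm]
    exact hFh
  rw [h1, hA.trans, add_seg_smul hA e (by norm_num) 0, IsHom.zero_body hAh, ← Ds_cons,
    Ds_Nt isMVal_PiB]
  have h2 : ∀ y, Ds (e :: xs) (FF PiB y) 0 = |⟪u, y⟫_ℝ| := by
    intro y
    exact Ds_PiB u hu (e :: xs) (by rw [List.length_cons]; omega)
      (vol_orthonormal_cons he hex ho) (by
        intro x hx'
        rcases List.mem_cons.1 hx' with rfl | h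
        · rw [real_inner_comm]; exact heu
        · exact hx x h) y
  rw [Nt_congr h2, Nt_abs_inner u hu ht]
  norm_num

theorem tendsto_comp_pen (hn : 3 ≤ Module.finrank ℝ V) (hΦ : IsMVal Φ) :
    ∃ κ : ℝ, 0 ≤ κ ∧ ∀ (u : V) (_ : ‖u‖ = 1) (K : ConvexBody V),
      Tendsto (fun m => comp (Module.finrank ℝ V - 1) (fun L => Nt (tm m) u (hs (Φ L))) K
        - κ * Nt (tm m) u (hs (PiB K))) atTop (𝓝 0) := by
  obtain ⟨κ, hκ0, hκ⟩ := prof_top hn hΦ
  obtain ⟨κ', hκ0', hκ'⟩ := prof_top hn (isMVal_PiB (V := V))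
  have hfr : ∀ u : V, ‖u‖ = 1 → ∃ xs : List V, xs.length + 2 = Module.finrank ℝ V ∧
      Orthonormal ℝ (fun i : Fin xs.length => xs.get i) ∧ ∀ x ∈ xs, ⟪u, x⟫_ℝ = 0 := by
    intro u hu
    obtain ⟨xs, h1, h2, h3⟩ := exists_frame u hu (Module.finrank ℝ V - 2) (by omega)
    exact ⟨xs, by omega, h2, h3⟩
  have hκ'2 : κ' = 2 := by
    obtain ⟨e, he⟩ : ∃ e : V, ‖e‖ = 1 := by
      obtain ⟨e, he, -⟩ := exists_perp (V := V) (ys := []) (by simp; omega)
      exact ⟨e, he⟩
    obtain ⟨xs, hl, ho, hx⟩ := hfr e he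
    have h1 := (hκ' e he xs ho hx hl).2
    have h2 : Tendsto (fun t => Ds xs (comp (xs.length + 1)
        (fun L => Nt t e (hs (PiB L)))) (disc e)) (𝓝[>] (0 : ℝ)) (𝓝 4) := by
      apply tendsto_const_nhds.congr'
      filter_upwards [self_mem_nhdsWithin] with t ht
      exact (disc_value hn e he xs ho hx hl ht).symm
    have h3 := tendsto_nhds_unique h1 h2
    linarith
  subst hκ'2
  refine ⟨κ / 2, by positivity, ?_⟩
  intro u hu K
  obtain ⟨xs, hl, ho, hx⟩ := hfr u hu
  have hl1 : Module.finrank ℝ V - 1 = xs.length + 1 := by omega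
  obtain ⟨C, hC0, hC⟩ := comp_Nt_bound hΦ (xs.length + 1) (by omega)
  obtain ⟨C', hC0', hC'⟩ := comp_Nt_bound (isMVal_PiB (V := V)) (xs.length + 1) (by omega)
  have hPi : ∀ m K, comp (xs.length + 1) (fun L : ConvexBody V => Nt (tm m) u (hs (PiB L))) K =
      Nt (tm m) u (hs (PiB K)) := by
    intro m K
    have hFh : IsHom (xs.length + 1) (fun L : ConvexBody V => Nt (tm m) u (hs (PiB L))) := by
      have h := Nt_PiB_hom (V := V) (tm m) u
      rw [hl1] at h
      exact h
    rw [comp_of_isHom (isVal_Nt isMVal_PiB _ u) hFh (by omega) (by omega) K, if_pos rfl]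
  rw [hl1]
  have key := zonal_tendsto hn u hu (j := xs.length) (by omega)
    (fun m => fun K => comp (xs.length + 1) (fun L => Nt (tm m) u (hs (Φ L))) K
      - κ / 2 * comp (xs.length + 1) (fun L => Nt (tm m) u (hs (PiB L))) K)
    (fun m => (isVal_comp (isVal_Nt hΦ _ u) _).sub
      ((isVal_comp (isVal_Nt isMVal_PiB _ u) _).const_mul _))
    (fun m => sub_hom (comp_isHom (isVal_Nt hΦ _ u) (by omega))
      (comp_isHom (isVal_Nt isMVal_PiB _ u) (by omega)) _)
    (fun m => sub_zonal (comp_zonal (zonal_Nt hΦ _ u) _)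
      (comp_zonal (zonal_Nt isMVal_PiB _ u) _) _) (C + κ / 2 * C')
    (by
      intro m L
      have h1 := hC _ (tm_pos m) u hu L
      have h2 := hC' _ (tm_pos m) u hu L
      show |comp (xs.length + 1) (fun L => Nt (tm m) u (hs (Φ L))) L
        - κ / 2 * comp (xs.length + 1) (fun L => Nt (tm m) u (hs (PiB L))) L| ≤ _
      refine (abs_sub _ _).trans ?_
      rw [abs_mul, abs_of_nonneg (by positivity : 0 ≤ κ / 2)]
      have h4 := mul_le_mul_of_nonneg_left h2 (by positivity : 0 ≤ κ / 2)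
      nlinarith) xs rfl ho hx
    (by
      intro τ
      simp only [Ds_sub_mul]
      have h1 := ((hκ u hu xs ho hx hl).1 τ).comp tm_tendsto
      have h2 := (((hκ' u hu xs ho hx hl).1 τ).comp tm_tendsto).const_mul (κ / 2)
      have h3 := h1.sub h2
      have h4 : κ * |τ| - κ / 2 * (2 * |τ|) = 0 := by ring
      rw [h4] at h3
      exact h3)
    (by
      simp only [Ds_sub_mul]
      have h1 := ((hκ u hu xs ho hx hl).2).comp tm_tendsto
      have h2 := (((hκ' u hu xs ho hx hl).2).comp tm_tendsto).const_mul (κ / 2)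
      have h3 := h1.sub h2
      have h4 : κ * 2 - κ / 2 * (2 * 2) = 0 := by ring
      rw [h4] at h3
      exact h3) K
  simp only [hPi] at key
  exact key

end PM

theorem crease_formula (hn : 3 ≤ Module.finrank ℝ V) (hΦ : IsMVal Φ) :
    ∃ κ₁ κₙ : ℝ, 0 ≤ κ₁ ∧ 0 ≤ κₙ ∧ ∀ (u : V) (K : ConvexBody V), ‖u‖ = 1 →
      N0 u (hs (Φ K)) = κ₁ * N0 u (hs K) + κₙ * N0 u (hs (PiB K)) := by
  obtain ⟨κ₁, hκ₁, h1⟩ := prof_seg_one hn hΦ
  obtain ⟨κₙ, hκₙ, h2⟩ := PM.tendsto_comp_pen hn hΦ
  refine ⟨κ₁, κₙ, hκ₁, hκₙ, ?_⟩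
  intro u K hu
  have hlim : ∀ G : ConvexBody V, Tendsto (fun m => Nt (PM.tm m) u (hs G)) atTop
      (𝓝 (N0 u (hs G))) := fun G => (Nt_tendsto (hs_sublin G) u).comp PM.tm_tendsto
  have hL := hlim (Φ K)
  have hsum : ∀ m, Nt (PM.tm m) u (hs (Φ K)) = ∑ i ∈ Finset.range (Module.finrank ℝ V + 1),
      comp i (fun L => Nt (PM.tm m) u (hs (Φ L))) K := fun m =>
    sum_comp (isVal_Nt hΦ (PM.tm m) u) K
  have hR : Tendsto (fun m => Nt (PM.tm m) u (hs (Φ K))) atTop
      (𝓝 (∑ i ∈ Finset.range (Module.finrank ℝ V + 1),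
        ((if i = 1 then κ₁ * N0 u (hs K) else 0)
          + (if i = Module.finrank ℝ V - 1 then κₙ * N0 u (hs (PiB K)) else 0)))) := by
    simp only [hsum]
    apply tendsto_finsetSum
    intro i hi
    rw [Finset.mem_range] at hi
    rcases Nat.eq_zero_or_pos i with rfl | hi0
    · rw [if_neg (by omega), if_neg (by omega), add_zero]
      exact (PM.tendsto_comp_zero hn hΦ u K).comp PM.tm_tendsto
    rcases eq_or_ne i 1 with rfl | hi1
    · rw [if_pos rfl, if_neg (by omega), add_zero]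
      have h3 := (PM.tendsto_comp_one hn hΦ h1 u hu K).add ((hlim K).const_mul κ₁)
      simpa using h3
    rcases eq_or_ne i (Module.finrank ℝ V) with rfl | hin
    · rw [if_neg (by omega), if_neg (by omega), add_zero]
      exact (PM.tendsto_comp_top hn hΦ u K).comp PM.tm_tendsto
    rcases eq_or_ne i (Module.finrank ℝ V - 1) with rfl | hin1
    · rw [if_neg (by omega), if_pos rfl, zero_add]
      have h3 := (h2 u hu K).add ((hlim (PiB K)).const_mul κₙ)
      simpa using h3
    · rw [if_neg hi1, if_neg hin1, add_zero]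
      obtain ⟨j, rfl⟩ : ∃ j, i = j + 1 := ⟨i - 1, by omega⟩
      exact PM.tendsto_comp_mid hn hΦ u hu (by omega) (by omega) K
  have hfin := tendsto_nhds_unique hL hR
  rw [hfin, Finset.sum_add_distrib, Finset.sum_ite_eq', Finset.sum_ite_eq', if_pos, if_pos]
  · rw [Finset.mem_range]; omega
  · rw [Finset.mem_range]; omega

end ProfMain
end MV
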