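import Pool.Agent.Lib.MP_f30071_gt.Vol
import Pool.Agent.Lib.MP_f30071_gt.Hinge
import Pool.Agent.Lib.MP_f30071_gt.Sub

/-!
Mixed volumes of bodies of revolution: the functional `(der disc)^(n-2) vol` paired with a cone.
-/

open MeasureTheory ProbabilityTheory Filter Topology Set
open scoped InnerProductSpace Pointwise NNReal ENNReal

set_option linter.unusedSectionVars false
set_option linter.unnecessarySimpa false

namespace MV

namespace RfGeoAux

section
variable {V : Type*} [NormedAddCommGroup V] [InnerProductSpace ℝ V] [FiniteDimensional ℝ V]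

/-- decomposition of the inner product along the axis -/
theorem inner_decomp (u v z : V) (hu : ‖u‖ = 1) :
    ⟪v, z⟫_ℝ = ⟪u, v⟫_ℝ * ⟪u, z⟫_ℝ + ⟪prj u v, prj u z⟫_ℝ := by
  have hv : v = prj u v + ⟪u, v⟫_ℝ • u := by simp [prj, hu]
  have hz : z = prj u z + ⟪u, z⟫_ℝ • u := by simp [prj, hu]
  conv_lhs => rw [hv, hz]
  rw [inner_add_left, inner_add_right, inner_add_right, real_inner_smul_left,
    real_inner_smul_right, real_inner_smul_left, real_inner_smul_right,
    real_inner_comm u (prj u v), inner_prj, inner_prj, real_inner_self_eq_norm_sq, hu]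
  ring

theorem inner_le_decomp (u v z : V) (hu : ‖u‖ = 1) :
    ⟪v, z⟫_ℝ ≤ ⟪u, v⟫_ℝ * ⟪u, z⟫_ℝ + ‖prj u v‖ * ‖prj u z‖ := by
  rw [inner_decomp u v z hu]
  have := real_inner_le_norm (prj u v) (prj u z)
  linarith

theorem prj_self (u : V) (hu : ‖u‖ = 1) : prj u u = 0 := by
  simp [prj, hu]

theorem disc_neg (u : V) : disc (-u) = disc u := by
  apply hs_ext
  intro v
  rw [hs_disc, hs_disc, prj_neg_left]

theorem hs_disc_adj (u v : V) : hs (disc u) v = ‖ContinuousLinearMap.adjoint (prjL u) v‖ := by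
  rw [adjoint_prjL, prjL_apply, hs_disc, prj]
  congr 3
  rw [div_eq_inv_mul]

/-- upright cone: base radius `|r|` at height `0`, apex at height `h` -/
noncomputable def up (u : V) (r h : ℝ) : ConvexBody V :=
  body (fun v => max (|r| * ‖prj u v‖) (⟪v, h • u⟫_ℝ))
    (sublin_max (sublin_smul (sublin_disc u) (abs_nonneg r)) (sublin_inner _))

/-- inverted cone: apex at `0`, base radius `|r|` at height `h` -/
noncomputable def dn (u : V) (r h : ℝ) : ConvexBody V :=
  body (fun v => max 0 (⟪v, h • u⟫_ℝ + |r| * ‖prj u v‖))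
    (sublin_max ⟨by simp, by simp⟩
      (sublin_add (sublin_inner _) (sublin_smul (sublin_disc u) (abs_nonneg r))))

theorem hs_up (u : V) {r : ℝ} (hr : 0 ≤ r) (h : ℝ) (v : V) :
    hs (up u r h) v = max (r * ‖prj u v‖) (h * ⟪u, v⟫_ℝ) := by
  rw [up, hs_body, abs_of_nonneg hr, real_inner_smul_right, real_inner_comm]

theorem hs_dn (u : V) {r : ℝ} (hr : 0 ≤ r) (h : ℝ) (v : V) :
    hs (dn u r h) v = max 0 (h * ⟪u, v⟫_ℝ + r * ‖prj u v‖) := by
  rw [dn, hs_body, abs_of_nonneg hr, real_inner_smul_right, real_inner_comm]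

theorem exists_cut (K : ConvexBody V) (u : V) (c : ℝ) (x : V) (hx : x ∈ K) (hc : ⟪u, x⟫_ℝ = c) :
    ∃ Kp Km K0 : ConvexBody V, (Kp : Set V) = (K : Set V) ∩ {x | c ≤ ⟪u, x⟫_ℝ} ∧
      (Km : Set V) = (K : Set V) ∩ {x | ⟪u, x⟫_ℝ ≤ c} ∧
      (K0 : Set V) = (K : Set V) ∩ {x | ⟪u, x⟫_ℝ = c} := by
  have hl : IsLinearMap ℝ (fun x : V => ⟪u, x⟫_ℝ) := (innerₛₗ ℝ u).isLinear
  have hcont : Continuous (fun x : V => ⟪u, x⟫_ℝ) := by fun_prop
  refine ⟨⟨(K : Set V) ∩ {x | c ≤ ⟪u, x⟫_ℝ}, ?_, ?_, ?_⟩, ⟨(K : Set V) ∩ {x | ⟪u, x⟫_ℝ ≤ c}, ?_, ?_, ?_⟩,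
    ⟨(K : Set V) ∩ {x | ⟪u, x⟫_ℝ = c}, ?_, ?_, ?_⟩, rfl, rfl, rfl⟩
  · exact K.convex.inter (convex_halfSpace_ge hl c)
  · exact K.isCompact.inter_right (isClosed_le continuous_const hcont)
  · exact ⟨x, hx, hc.ge⟩
  · exact K.convex.inter (convex_halfSpace_le hl c)
  · exact K.isCompact.inter_right (isClosed_le hcont continuous_const)
  · exact ⟨x, hx, hc.le⟩
  · exact K.convex.inter (convex_hyperplane hl c)
  · exact K.isCompact.inter_right (isClosed_eq hcont continuous_const)
  · exact ⟨x, hx, hc⟩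

end

section
variable {V : Type*} [NormedAddCommGroup V] [InnerProductSpace ℝ V] [FiniteDimensional ℝ V]
  [MeasurableSpace V] [BorelSpace V]

theorem iter_disc_mono (u : V) (k : ℕ) {φ : ConvexBody V → ℝ} (hφ : IsVal φ)
    (hm : ∀ K L : ConvexBody V, K ≤ L → φ K ≤ φ L) (K L : ConvexBody V) (h : K ≤ L) :
    (der (disc u))^[k] φ K ≤ (der (disc u))^[k] φ L := by
  induction k generalizing K L with
  | zero => exact hm K L h
  | succ k ih =>
    rw [Function.iterate_succ_apply']
    exact der_zonoid_mono (isVal_iter hφ _ k) ih (prjL u) (disc u) (hs_disc_adj u) h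

theorem iter_self_zero (B : ConvexBody V) {j : ℕ} : ∀ (k : ℕ) {φ : ConvexBody V → ℝ}, IsVal φ →
    IsHom (j + k) φ → φ B = 0 → (der B)^[k] φ B = 0 := by
  intro k
  induction k with
  | zero => intro φ _ _ h; exact h
  | succ k ih =>
    intro φ hφ hj h
    rw [Function.iterate_succ_apply]
    apply ih (isVal_der hφ B) (der_hom hφ (by rw [← add_assoc] at hj; exact hj) B)
    rw [der_self hφ hj B, h, mul_zero]

theorem vol_disc (u : V) (hu : ‖u‖ = 1) : vol (disc u) = 0 := by
  unfold vol
  have h1 : ((disc u : ConvexBody V) : Set V) ⊆ ((ℝ ∙ u)ᗮ : Submodule ℝ V) := by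
    intro x hx
    rw [SetLike.mem_coe, Submodule.mem_orthogonal_singleton_iff_inner_right]
    have h2 := inner_le_hs (show x ∈ disc u from hx) u
    have h3 := inner_le_hs (show x ∈ disc u from hx) (-u)
    rw [hs_disc, prj_self u hu, norm_zero] at h2
    rw [hs_disc, prj_neg, prj_self u hu, neg_zero, norm_zero, inner_neg_left] at h3
    linarith
  have h2 : (volume : Measure V) ((ℝ ∙ u)ᗮ : Submodule ℝ V) = 0 := by
    apply Measure.addHaar_submodule
    intro h
    have h3 : u ∈ (ℝ ∙ u)ᗮ := by rw [h]; trivial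
    rw [Submodule.mem_orthogonal_singleton_iff_inner_right, real_inner_self_eq_norm_sq, hu] at h3
    norm_num at h3
  rw [measure_mono_null h1 h2]
  rfl

/-- the functional of degree two -/
noncomputable def chi (u : V) : ConvexBody V → ℝ :=
  (der (disc u))^[Module.finrank ℝ V - 2] vol

/-- the functional of degree one -/
noncomputable def psi (u : V) : ConvexBody V → ℝ := der (disc u) (chi u)

theorem chi_val (u : V) : IsVal (chi u) := isVal_iter isVal_vol _ _

theorem chi_hom (u : V) (hd : 2 ≤ Module.finrank ℝ V) : IsHom 2 (chi u) := by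
  apply iter_hom _ _ isVal_vol
  rw [Nat.add_sub_cancel' hd]
  exact vol_hom

theorem chi_mono (u : V) {K L : ConvexBody V} (h : K ≤ L) : chi u K ≤ chi u L :=
  iter_disc_mono u _ isVal_vol (fun _ _ h => vol_mono h) K L h

theorem chi_zero (u : V) (hd : 2 ≤ Module.finrank ℝ V) : chi u 0 = 0 := by
  have := chi_hom u hd 0 0 le_rfl
  rw [zero_smul_body] at this
  rw [this]; ring

theorem chi_nonneg (u : V) (hd : 2 ≤ Module.finrank ℝ V) (K : ConvexBody V) : 0 ≤ chi u K := by
  obtain ⟨x, hx⟩ := K.nonempty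
  have h1 : (pt x : ConvexBody V) ≤ K := by
    intro y hy
    rw [show y = x from hy]
    exact hx
  have h2 := chi_mono u h1
  have h3 := (chi_val u).trans 0 x
  rw [zero_add] at h3
  rw [h3, chi_zero u hd] at h2
  exact h2

theorem chi_disc (u : V) (hu : ‖u‖ = 1) (hd : 2 ≤ Module.finrank ℝ V) : chi u (disc u) = 0 := by
  apply iter_self_zero (j := 2) _ _ isVal_vol
  · rw [Nat.add_sub_cancel' hd]
    exact vol_hom
  · exact vol_disc u hu

theorem chi_neg (u : V) : chi (-u) = chi u := by
  unfold chi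
  rw [disc_neg]

theorem psi_add (u : V) (hd : 2 ≤ Module.finrank ℝ V) : IsAdd (psi u) :=
  IsVal.isAdd (isVal_der (chi_val u) _) (der_hom (chi_val u) (chi_hom u hd) _)

theorem psi_mono (u : V) {K L : ConvexBody V} (h : K ≤ L) : psi u K ≤ psi u L :=
  der_zonoid_mono (chi_val u) (fun _ _ h => chi_mono u h) (prjL u) (disc u) (hs_disc_adj u) h

theorem psi_disc (u : V) (hu : ‖u‖ = 1) (hd : 2 ≤ Module.finrank ℝ V) : psi u (disc u) = 0 := by
  unfold psi
  rw [der_self (chi_val u) (chi_hom u hd), chi_disc u hu hd, mul_zero]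

/-- the constant -/
noncomputable def kap (u : V) : ℝ := psi u (seg u)

theorem kap_neg (u : V) (hd : 2 ≤ Module.finrank ℝ V) : kap (-u) = kap u := by
  unfold kap
  have h1 : psi (-u) = psi u := by
    unfold psi
    rw [chi_neg, disc_neg]
  have h2 := (psi_add u hd).add (seg (-u)) (pt u)
  rw [seg_neg, (psi_add u hd).pt, add_zero] at h2
  rw [h1, h2]

theorem vol_disc_seg_pos (u : V) (hu : ‖u‖ = 1) : 0 < vol (disc u + seg u) := by
  have h1 : (1 / 2 : ℝ) • ballB V + pt ((1 / 2 : ℝ) • u) ≤ disc u + seg u := by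
    rw [le_iff_hs]
    intro v
    rw [hs_add, hs_add, hs_smul (by norm_num), hs_ballB, hs_pt, hs_disc, hs_seg,
      real_inner_smul_right, real_inner_comm]
    have h2 : ‖v‖ ≤ ‖prj u v‖ + |⟪u, v⟫_ℝ| := by
      have hv : v = prj u v + ⟪u, v⟫_ℝ • u := by simp [prj, hu]
      calc ‖v‖ = ‖prj u v + ⟪u, v⟫_ℝ • u‖ := by rw [← hv]
        _ ≤ ‖prj u v‖ + ‖⟪u, v⟫_ℝ • u‖ := norm_add_le _ _
        _ = ‖prj u v‖ + |⟪u, v⟫_ℝ| := by rw [norm_smul, hu, mul_one, Real.norm_eq_abs]
    have h3 := norm_nonneg (prj u v)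
    rcases le_total 0 ⟪u, v⟫_ℝ with h | h
    · rw [abs_of_nonneg h] at h2
      rw [max_eq_right h]
      linarith
    · rw [abs_of_nonpos h] at h2
      rw [max_eq_left h]
      linarith
  refine lt_of_lt_of_le ?_ (vol_mono h1)
  rw [vol_add_pt, vol_hom _ _ (by norm_num)]
  exact mul_pos (by positivity) vol_ball_pos

theorem kap_pos (u : V) (hu : ‖u‖ = 1) (hd : 2 ≤ Module.finrank ℝ V) : 0 < kap u := by
  have h0 : psi u = (der (disc u))^[Module.finrank ℝ V - 1] vol := by
    unfold psi chi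
    rw [← Function.iterate_succ_apply' (der (disc u))]
    congr 2
    omega
  have h1 : kap u = D u (psi u) 0 := by
    unfold kap D
    have := (psi_add u hd).pt 0
    rw [pt_zero] at this
    rw [zero_add, this, sub_zero]
  have hψ := (psi_add u hd).isVal
  have hψ1 := (psi_add u hd).isHom
  have h2 : D u (psi u) (disc u) = D u (psi u) 0 :=
    IsHom.deg_zero (isVal_D hψ u) (D_hom hψ (j := 0) hψ1 u) (disc u)
  have h3 : D u (psi u) = (der (disc u))^[Module.finrank ℝ V - 1] (D u vol) := by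
    have := Ds_iter (disc u) [u] (Module.finrank ℝ V - 1) (vol : ConvexBody V → ℝ)
    rw [Ds_cons, Ds_cons, Ds_nil, Ds_nil] at this
    rw [h0, this]
  rw [h1, ← h2, h3]
  apply iter_pos (j := 0) _ _ (isVal_D isVal_vol u)
  · rw [zero_add]
    apply D_hom isVal_vol
    rw [show Module.finrank ℝ V - 1 + 1 = Module.finrank ℝ V by omega]
    exact vol_hom
  · unfold D
    rw [vol_disc u hu, sub_zero]
    exact vol_disc_seg_pos u hu

theorem psi_seg (u : V) (hd : 2 ≤ Module.finrank ℝ V) {h : ℝ} (hh : 0 ≤ h) :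
    psi u (seg (h • u)) = h * kap u := by
  rw [← smul_seg hh, (psi_add u hd).smul hh]
  rfl

theorem psi_le (u : V) (hu : ‖u‖ = 1) (hd : 2 ≤ Module.finrank ℝ V) {K : ConvexBody V} {h r : ℝ}
    (hh : 0 ≤ h) (hr : 0 ≤ r) (hK : K ≤ seg (h • u) + r • disc u) : psi u K ≤ h * kap u := by
  refine (psi_mono u hK).trans ?_
  rw [(psi_add u hd).add, psi_seg u hd hh, (psi_add u hd).smul hr, psi_disc u hu hd]
  linarith

theorem le_psi (u : V) (hd : 2 ≤ Module.finrank ℝ V) {K : ConvexBody V} {h : ℝ}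
    (hh : 0 ≤ h) (hK : seg (h • u) ≤ K) : h * kap u ≤ psi u K := by
  rw [← psi_seg u hd hh]
  exact psi_mono u hK

theorem chi_add_disc (u : V) (hu : ‖u‖ = 1) (hd : 2 ≤ Module.finrank ℝ V) (K : ConvexBody V)
    {r : ℝ} (hr : 0 ≤ r) : chi u (K + r • disc u) = chi u K + r * psi u K := by
  rw [isHom_two_add (chi_val u) (chi_hom u hd), (der_isAdd (chi_val u) K).smul hr,
    chi_hom u hd r _ hr, chi_disc u hu hd]
  unfold psi
  ring

theorem psi_up_le (u : V) (hu : ‖u‖ = 1) (hd : 2 ≤ Module.finrank ℝ V) {r h : ℝ}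
    (hr : 0 ≤ r) (hh : 0 ≤ h) : psi u (up u r h) ≤ h * kap u := by
  apply psi_le u hu hd hh hr
  rw [le_iff_hs]
  intro v
  rw [hs_up u hr, hs_add, hs_seg, hs_smul hr, hs_disc, real_inner_smul_right, real_inner_comm u v]
  have h3 := mul_nonneg hr (norm_nonneg (prj u v))
  apply max_le
  · linarith [le_max_left 0 (h * ⟪u, v⟫_ℝ)]
  · linarith [le_max_right 0 (h * ⟪u, v⟫_ℝ)]

theorem le_psi_up (u : V) (hd : 2 ≤ Module.finrank ℝ V) {r h : ℝ}
    (hr : 0 ≤ r) (hh : 0 ≤ h) : h * kap u ≤ psi u (up u r h) := by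
  apply le_psi u hd hh
  rw [le_iff_hs]
  intro v
  rw [hs_up u hr, hs_seg, real_inner_smul_right, real_inner_comm]
  have h3 := mul_nonneg hr (norm_nonneg (prj u v))
  exact max_le_max h3 le_rfl

theorem le_psi_dn (u : V) (hd : 2 ≤ Module.finrank ℝ V) {r h : ℝ}
    (hr : 0 ≤ r) (hh : 0 ≤ h) : h * kap u ≤ psi u (dn u r h) := by
  apply le_psi u hd hh
  rw [le_iff_hs]
  intro v
  rw [hs_dn u hr, hs_seg, real_inner_smul_right, real_inner_comm]
  have h3 := mul_nonneg hr (norm_nonneg (prj u v))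
  apply max_le_max le_rfl
  linarith

/-- points of the upright cone -/
theorem mem_up (u : V) {r h : ℝ} (hr : 0 ≤ r) (hh : 0 ≤ h) {z : V} (hz : z ∈ up u r h)
    (hu : ‖u‖ = 1) : 0 ≤ ⟪u, z⟫_ℝ ∧ r * ⟪u, z⟫_ℝ + h * ‖prj u z‖ ≤ r * h := by
  constructor
  · have h1 := inner_le_hs hz (-u)
    rw [hs_up u hr, prj_neg, prj_self u hu, neg_zero, norm_zero, mul_zero, inner_neg_right,
      inner_neg_left, real_inner_self_eq_norm_sq, hu] at h1
    have h2 : max 0 (h * -(1 : ℝ) ^ 2) = 0 := max_eq_left (by nlinarith)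
    rw [h2] at h1
    linarith
  · by_cases hp : prj u z = 0
    · rw [hp, norm_zero, mul_zero, add_zero]
      have h1 := inner_le_hs hz u
      rw [hs_up u hr, prj_self u hu, norm_zero, mul_zero, real_inner_self_eq_norm_sq, hu] at h1
      have h2 : max 0 (h * (1 : ℝ) ^ 2) = h := by rw [one_pow, mul_one]; exact max_eq_right hh
      rw [h2] at h1
      exact mul_le_mul_of_nonneg_left h1 hr
    · have hp' : ‖prj u z‖ ≠ 0 := norm_ne_zero_iff.2 hp
      set y : V := ‖prj u z‖⁻¹ • prj u z with hy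
      have hy1 : ‖y‖ = 1 := by rw [hy, norm_smul, norm_inv, norm_norm, inv_mul_cancel₀ hp']
      have hyu : ⟪u, y⟫_ℝ = 0 := by rw [hy, real_inner_smul_right, inner_prj, mul_zero]
      have h1 := inner_le_hs hz (r • u + h • y)
      have e1 : prj u (r • u + h • y) = h • y := by
        rw [prj_add, prj_smul, prj_smul, prj_self u hu, smul_zero, zero_add,
          prj_of_inner_zero u y hyu]
      have e2 : ⟪u, r • u + h • y⟫_ℝ = r := by
        rw [inner_add_right, real_inner_smul_right, real_inner_smul_right, hyu,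
          real_inner_self_eq_norm_sq, hu]
        ring
      have e3 : ⟪r • u + h • y, z⟫_ℝ = r * ⟪u, z⟫_ℝ + h * ‖prj u z‖ := by
        rw [inner_add_left, real_inner_smul_left, real_inner_smul_left]
        congr 2
        rw [inner_decomp u y z hu, hyu, prj_of_inner_zero u y hyu, zero_mul, zero_add, hy,
          real_inner_smul_left, real_inner_self_eq_norm_sq]
        field_simp
      rw [hs_up u hr, e1, e2, e3, norm_smul, hy1, mul_one, Real.norm_of_nonneg hh,
        mul_comm h r, max_self] at h1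
      exact h1

/-- the value of `chi` on a cone (upper bound) -/
theorem chi_up_le (u : V) (hu : ‖u‖ = 1) (hd : 2 ≤ Module.finrank ℝ V) {r h : ℝ}
    (hr : 0 ≤ r) (hh : 0 < h) : 2 * chi u (up u r h) ≤ r * h * kap u := by
  set T := up u r h with hT
  have hx : (h / 2) • u ∈ T := by
    rw [mem_iff_hs]
    intro v
    rw [hT, hs_up u hr, real_inner_smul_right, real_inner_comm]
    have h3 := mul_nonneg hr (norm_nonneg (prj u v))
    rcases le_total 0 ⟪u, v⟫_ℝ with h4 | h4
    · refine le_trans ?_ (le_max_right _ _)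
      nlinarith
    · refine le_trans ?_ (le_max_left _ _)
      nlinarith
  obtain ⟨Kp, Km, K0, hp, hm, h0⟩ := exists_cut T u (h / 2) _ hx (by
    rw [real_inner_smul_right, real_inner_self_eq_norm_sq, hu]; ring)
  have hcut := (chi_val u).cut T Kp Km K0 u (h / 2) hp hm h0
  have h1 : chi u Kp ≤ (1 / 4) * chi u T := by
    have hle : Kp ≤ (1 / 2 : ℝ) • T + pt ((h / 2) • u) := by
      rw [le_iff_hs]
      intro v
      apply hs_le
      intro z hz
      have hz' : z ∈ (T : Set V) ∩ {x | h / 2 ≤ ⟪u, x⟫_ℝ} := hp ▸ hz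
      obtain ⟨hb, hb2⟩ := mem_up u hr hh.le hz'.1 hu
      have hb3 : h / 2 ≤ ⟪u, z⟫_ℝ := hz'.2
      refine (inner_le_decomp u v z hu).trans ?_
      rw [hs_add, hs_smul (by norm_num), hT, hs_up u hr, hs_pt, real_inner_smul_right,
        real_inner_comm u v]
      set a := ⟪u, v⟫_ℝ
      set b := ⟪u, z⟫_ℝ
      set p := ‖prj u v‖ with hpdef
      set q := ‖prj u z‖
      have hp0 : 0 ≤ p := norm_nonneg _
      have hbh : h * q ≤ r * (h - b) := by linarith
      have e1 : h * (a * b + p * q) ≤ h * (a * b) + p * (r * (h - b)) := by nlinarith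
      have hm1 : r * p ≤ max (r * p) (h * a) := le_max_left _ _
      have hm2 : h * a ≤ max (r * p) (h * a) := le_max_right _ _
      set M := max (r * p) (h * a)
      -- compare: `h*(a b) + p r (h-b) ≤ h * (M/2 + h/2*a)`
      have hb4 : 0 ≤ h - b := by
        by_contra hneg
        have hq0 : 0 ≤ q := norm_nonneg _
        push Not at hneg
        rcases hr.eq_or_lt with hr0 | hr0
        · -- degenerate radius
          have hz2 := inner_le_hs (show z ∈ T from hz'.1) u
          rw [hT, hs_up u hr, prj_self u hu, norm_zero, mul_zero, real_inner_self_eq_norm_sq, hu,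
            one_pow, mul_one, max_eq_right hh.le] at hz2
          linarith
        · nlinarith
      have e2 : h * (a * b) + p * (r * (h - b)) ≤ h * (1 / 2 * M + h / 2 * a) := by
        have i1 : (b - h / 2) * (h * a) ≤ (b - h / 2) * M :=
          mul_le_mul_of_nonneg_left hm2 (by linarith)
        have i2 : (h - b) * (r * p) ≤ (h - b) * M := mul_le_mul_of_nonneg_left hm1 hb4
        nlinarith
      have e3 : h * (a * b + p * q) ≤ h * (1 / 2 * M + h / 2 * a) := e1.trans e2
      exact le_of_mul_le_mul_left e3 hh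
    refine (chi_mono u hle).trans ?_
    rw [(chi_val u).trans, chi_hom u hd _ _ (by norm_num)]
    norm_num
  have h2 : chi u Km ≤ (1 / 4) * chi u T + (r / 4) * psi u T := by
    have hle : Km ≤ (1 / 2 : ℝ) • T + (r / 2) • disc u := by
      rw [le_iff_hs]
      intro v
      apply hs_le
      intro z hz
      have hz' : z ∈ (T : Set V) ∩ {x | ⟪u, x⟫_ℝ ≤ h / 2} := hm ▸ hz
      obtain ⟨hb, hb2⟩ := mem_up u hr hh.le hz'.1 hu
      have hb3 : ⟪u, z⟫_ℝ ≤ h / 2 := hz'.2
      refine (inner_le_decomp u v z hu).trans ?_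
      rw [hs_add, hs_smul (by norm_num), hT, hs_up u hr, hs_smul (by positivity), hs_disc]
      set a := ⟪u, v⟫_ℝ
      set b := ⟪u, z⟫_ℝ
      set p := ‖prj u v‖ with hpdef
      set q := ‖prj u z‖
      have hp0 : 0 ≤ p := norm_nonneg _
      have hbh : h * q ≤ r * (h - b) := by linarith
      have e1 : h * (a * b + p * q) ≤ h * (a * b) + p * (r * (h - b)) := by nlinarith
      have hm1 : r * p ≤ max (r * p) (h * a) := le_max_left _ _
      have hm2 : h * a ≤ max (r * p) (h * a) := le_max_right _ _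
      set M := max (r * p) (h * a)
      have e2 : h * (a * b) + p * (r * (h - b)) ≤ h * (1 / 2 * M + r / 2 * p) := by
        have i1 : b * (h * a) ≤ b * M := mul_le_mul_of_nonneg_left hm2 hb
        have i2 : (h / 2 - b) * (r * p) ≤ (h / 2 - b) * M :=
          mul_le_mul_of_nonneg_left hm1 (by linarith)
        nlinarith
      have e3 : h * (a * b + p * q) ≤ h * (1 / 2 * M + r / 2 * p) := e1.trans e2
      exact le_of_mul_le_mul_left e3 hh
    refine (chi_mono u hle).trans ?_
    rw [chi_add_disc u hu hd _ (by positivity), chi_hom u hd _ _ (by norm_num),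
      (psi_add u hd).smul (by norm_num)]
    apply le_of_eq
    ring
  have h3 := chi_nonneg u hd K0
  have h4 := psi_up_le u hu hd hr hh.le
  rw [← hT] at h4
  have h5 : r * psi u T ≤ r * (h * kap u) := mul_le_mul_of_nonneg_left h4 hr
  linarith

/-- two cones with opposite orientation (lower bound) -/
theorem der_dn_ge (u : V) (hu : ‖u‖ = 1) (hd : 2 ≤ Module.finrank ℝ V) {t w r h : ℝ}
    (ht : 0 ≤ t) (hw : 0 ≤ w) (hr : 0 ≤ r) (hh : 0 ≤ h) :
    kap u * (t * h + w * r) ≤ der (dn u r h) (chi u) (up u t w) := by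
  set T := up u t w with hT
  set L := dn u r h with hL
  have hM := isHom_two_add (chi_val u) (chi_hom u hd) T L
  set M := T + L with hMdef
  have hx : h • u ∈ M := by
    rw [mem_iff_hs]
    intro v
    rw [hMdef, hs_add, hT, hL, hs_up u ht, hs_dn u hr, real_inner_smul_right, real_inner_comm]
    have h3 := mul_nonneg hr (norm_nonneg (prj u v))
    have h4 := mul_nonneg ht (norm_nonneg (prj u v))
    have h5 := le_max_left (t * ‖prj u v‖) (w * ⟪u, v⟫_ℝ)
    have h6 := le_max_right 0 (h * ⟪u, v⟫_ℝ + r * ‖prj u v‖)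
    linarith
  obtain ⟨Kp, Km, K0, hp, hm, h0⟩ := exists_cut M u h _ hx (by
    rw [real_inner_smul_right, real_inner_self_eq_norm_sq, hu]; ring)
  have hcut := (chi_val u).cut M Kp Km K0 u h hp hm h0
  have h1 : chi u T + r * psi u T ≤ chi u Kp := by
    rw [← chi_add_disc u hu hd T hr, ← (chi_val u).trans _ (h • u)]
    apply chi_mono
    intro z hz
    have hz1 : z ∈ T + r • disc u + pt (h • u) := hz
    show z ∈ (Kp : Set V)
    rw [hp]
    constructor
    · show z ∈ M
      have hle : T + r • disc u + pt (h • u) ≤ M := by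
        rw [le_iff_hs]
        intro v
        rw [hMdef, hs_add, hs_add, hs_add, hs_pt, hs_smul hr, hs_disc, hL, hs_dn u hr,
          real_inner_smul_right, real_inner_comm]
        have h6 := le_max_right 0 (h * ⟪u, v⟫_ℝ + r * ‖prj u v‖)
        linarith
      exact hle hz1
    · show h ≤ ⟪u, z⟫_ℝ
      have h2 := inner_le_hs hz1 (-u)
      rw [hs_add, hs_add, hs_pt, hs_smul hr, hs_disc, hT, hs_up u ht, prj_neg, prj_self u hu,
        neg_zero, norm_zero, mul_zero, mul_zero, inner_neg_right, inner_neg_left, inner_neg_left,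
        real_inner_smul_right, real_inner_self_eq_norm_sq, hu] at h2
      have h3 : max 0 (w * -(1 : ℝ) ^ 2) = 0 := max_eq_left (by nlinarith)
      rw [h3] at h2
      linarith
  have h2 : chi u L + t * psi u L ≤ chi u Km := by
    rw [← chi_add_disc u hu hd L ht]
    apply chi_mono
    intro z hz
    have hz1 : z ∈ L + t • disc u := hz
    show z ∈ (Km : Set V)
    rw [hm]
    constructor
    · show z ∈ M
      have hle : L + t • disc u ≤ M := by
        rw [le_iff_hs]
        intro v
        rw [hMdef, hs_add, hs_add, hs_smul ht, hs_disc, hT, hs_up u ht]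
        have h6 := le_max_left (t * ‖prj u v‖) (w * ⟪u, v⟫_ℝ)
        linarith
      exact hle hz1
    · show ⟪u, z⟫_ℝ ≤ h
      have h2 := inner_le_hs hz1 u
      rw [hs_add, hs_smul ht, hs_disc, hL, hs_dn u hr, prj_self u hu,
        norm_zero, mul_zero, mul_zero, real_inner_self_eq_norm_sq, hu] at h2
      have h3 : max 0 (h * (1 : ℝ) ^ 2 + 0) = h := by
        rw [one_pow, mul_one, add_zero]; exact max_eq_right hh
      rw [h3] at h2
      linarith
  have h3 : chi u K0 ≤ 0 := by
    have hle : K0 ≤ (dist M 0) • disc u + pt (h • u) := by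
      rw [le_iff_hs]
      intro v
      apply hs_le
      intro z hz
      have hz' : z ∈ (M : Set V) ∩ {x | ⟪u, x⟫_ℝ = h} := h0 ▸ hz
      have hz2 : ⟪u, z⟫_ℝ = h := hz'.2
      refine (inner_le_decomp u v z hu).trans ?_
      rw [hs_add, hs_smul dist_nonneg, hs_disc, hs_pt, hz2, real_inner_smul_right,
        real_inner_comm u v]
      have h6 : ‖prj u z‖ ≤ dist M 0 := (norm_prj_le u z).trans (norm_le_of_mem hz'.1)
      have h7 := mul_le_mul_of_nonneg_left h6 (norm_nonneg (prj u v))
      linarith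
    refine (chi_mono u hle).trans ?_
    rw [(chi_val u).trans, chi_hom u hd _ _ dist_nonneg, chi_disc u hu hd, mul_zero]
  have h4 := le_psi_up u hd ht hw
  have h5 := le_psi_dn u hd hr hh
  rw [← hT] at h4
  rw [← hL] at h5
  have h6 := mul_le_mul_of_nonneg_left h4 hr
  have h7 := mul_le_mul_of_nonneg_left h5 ht
  linarith

/-! ### the mixed functional with a body of revolution -/

theorem der_add_pt (u : V) (L : ConvexBody V) (x : V) (T : ConvexBody V) :
    der (L + pt x) (chi u) T = der L (chi u) T := by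
  rw [(der_isAdd (chi_val u) T).add, (der_isAdd (chi_val u) T).pt, add_zero]

theorem key_pos (u : V) (hu : ‖u‖ = 1) (hd : 2 ≤ Module.finrank ℝ V) (L : ConvexBody V)
    (hL : ∀ g, Gax u g → isoB g L = L) (x : V) (hx : ‖x‖ = 1) (hux : ⟪u, x⟫_ℝ = 0) {t w : ℝ}
    (ht : 0 < t) (hw : 0 < w) :
    der L (chi u) (up u t w) = kap u * (hs L (t • u + w • x) + t * hs L (-u)) := by
  set p := hs L (-u) with hp
  set L' := L + pt (p • u) with hL'
  set F := hs L (t • u + w • x) + t * p with hF
  have hsL' : ∀ v, hs L' v = hs L v + p * ⟪u, v⟫_ℝ := by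
    intro v
    rw [hL', hs_add, hs_pt, real_inner_smul_right, real_inner_comm u v]
  -- invariance of `L'`
  have hinv : ∀ g, Gax u g → isoB g L' = L' := by
    intro g hg
    rw [hL', isoB_add, hL g hg, isoB_pt, map_smul, hg.1]
  have hmemg : ∀ g, Gax u g → ∀ q, q ∈ L' → g q ∈ L' := by
    intro g hg q hq
    have h1 := hinv g hg
    have h2 : g q ∈ isoB g L' := ⟨q, hq, rfl⟩
    rw [h1] at h2
    exact h2
  have huu : ⟪u, u⟫_ℝ = 1 := by rw [real_inner_self_eq_norm_sq, hu]; norm_num
  have hF' : ∀ y : V, ‖y‖ = 1 → ⟪u, y⟫_ℝ = 0 → hs L' (t • u + w • y) = F := by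
    intro y hy huy
    obtain ⟨g, hg, hgxy⟩ := Gax_trans u x y hu hd (by rw [hx, hy]) (by rw [hux, huy])
    have h1 : hs L' (t • u + w • x) = F := by
      rw [hsL', inner_add_right, real_inner_smul_right, real_inner_smul_right, huu, hux, hF]
      ring
    rw [← h1]
    have h2 := hinv g hg
    have h3 := hs_isoB g L' (t • u + w • y)
    rw [h2] at h3
    rw [h3]
    congr 1
    rw [map_add, map_smul, map_smul]
    have h4 : g.symm u = u := by
      rw [LinearIsometryEquiv.symm_apply_eq, hg.1]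
    have h5 : g.symm y = x := by
      rw [LinearIsometryEquiv.symm_apply_eq, hgxy]
    rw [h4, h5]
  have hnonneg : ∀ q, q ∈ L' → 0 ≤ ⟪u, q⟫_ℝ := by
    intro q hq
    have h1 := inner_le_hs hq (-u)
    rw [hsL', inner_neg_right, huu, inner_neg_left, ← hp] at h1
    linarith
  have hrefl : ∀ q a b, q ∈ L' → ⟪u, q⟫_ℝ = a → ∀ z : V, ⟪u, z⟫_ℝ = 0 → ‖z‖ = b → ‖prj u q‖ = b →
      a • u + z ∈ L' := by
    intro q a b hq ha z hz hzb hpq
    have h1 : ⟪u, a • u + z⟫_ℝ = a := by
      rw [inner_add_right, real_inner_smul_right, huu, hz]; ring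
    have h2 : ‖q‖ = ‖a • u + z‖ := by
      have e1 := norm_prj_sq u q
      have e2 := norm_prj_sq u (a • u + z)
      rw [h1, prj_add, prj_smul, prj_self u hu, smul_zero, zero_add, prj_of_inner_zero u z hz,
        hzb] at e2
      rw [ha, hpq] at e1
      have e3 : ‖q‖ ^ 2 = ‖a • u + z‖ ^ 2 := by rw [← e1, ← e2]
      exact (sq_eq_sq₀ (norm_nonneg _) (norm_nonneg _)).1 e3
    obtain ⟨g, hg, hgq⟩ := Gax_trans u q (a • u + z) hu hd h2 (by rw [ha, h1])
    rw [← hgq]
    exact hmemg g hg q hq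
  have hslant : ∀ q, q ∈ L' → t * ⟪u, q⟫_ℝ + w * ‖prj u q‖ ≤ F := by
    intro q hq
    have h1 : ⟪u, q⟫_ℝ • u + ‖prj u q‖ • x ∈ L' := by
      apply hrefl q ⟪u, q⟫_ℝ ‖prj u q‖ hq rfl
      · rw [real_inner_smul_right, hux, mul_zero]
      · rw [norm_smul, hx, mul_one, norm_norm]
      · rfl
    have h2 := inner_le_hs h1 (t • u + w • x)
    rw [hF' x hx hux, inner_add_left, inner_add_right, inner_add_right, real_inner_smul_left,
      real_inner_smul_left, real_inner_smul_left, real_inner_smul_left, real_inner_smul_right,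
      real_inner_smul_right, real_inner_smul_right, real_inner_smul_right, huu, hux,
      real_inner_comm u x, hux, real_inner_self_eq_norm_sq, hx] at h2
    linarith
  -- `0` belongs to `L'`
  have hzero : (0 : V) ∈ L' := by
    obtain ⟨q, hq, hqe⟩ := exists_hs L' (-u)
    have h0 : ⟪u, q⟫_ℝ = 0 := by
      rw [hsL', inner_neg_right, huu, inner_neg_left, ← hp] at hqe
      linarith
    have h1 := hrefl q 0 ‖prj u q‖ hq h0 (-(prj u q)) (by rw [inner_neg_right, inner_prj, neg_zero])
      (norm_neg _) rfl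
    have h2 := hrefl q 0 ‖prj u q‖ hq h0 (prj u q) (inner_prj u q) rfl rfl
    rw [zero_smul, zero_add] at h1 h2
    have h3 := L'.convex (show -(prj u q) ∈ (L' : Set V) from h1)
      (show prj u q ∈ (L' : Set V) from h2) (show (0 : ℝ) ≤ 1 / 2 by norm_num)
      (show (0 : ℝ) ≤ 1 / 2 by norm_num) (by norm_num)
    rw [smul_neg, neg_add_cancel] at h3
    exact h3
  have hF0 : 0 ≤ F := by
    have := hslant 0 hzero
    simpa [prj] using this
  have hshift : der L (chi u) (up u t w) = der L' (chi u) (up u t w) := by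
    rw [hL', der_add_pt]
  rw [hshift]
  apply le_antisymm
  · -- upper bound: circumscribed cone
    have hle : L' ≤ (F / (t * w)) • up u t w := by
      rw [le_iff_hs]
      intro v
      apply hs_le
      intro q hq
      refine (inner_le_decomp u v q hu).trans ?_
      rw [hs_smul (by positivity), hs_up u ht.le]
      have h1 := hslant q hq
      have h2 := hnonneg q hq
      set a := ⟪u, v⟫_ℝ
      set b := ⟪u, q⟫_ℝ
      set P := ‖prj u v‖ with hpdef
      set Q := ‖prj u q‖ with hqdef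
      have hp0 : 0 ≤ P := norm_nonneg _
      have hq0 : 0 ≤ Q := norm_nonneg _
      have hm1 : t * P ≤ max (t * P) (w * a) := le_max_left _ _
      have hm2 : w * a ≤ max (t * P) (w * a) := le_max_right _ _
      set M := max (t * P) (w * a)
      have hM0 : 0 ≤ M := le_trans (by positivity) hm1
      have i1 : (t * b) * (w * a) ≤ (t * b) * M :=
        mul_le_mul_of_nonneg_left hm2 (by positivity)
      have i2 : (w * Q) * (t * P) ≤ (w * Q) * M := mul_le_mul_of_nonneg_left hm1 (by positivity)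
      have i3 : (t * b + w * Q) * M ≤ F * M := mul_le_mul_of_nonneg_right h1 hM0
      have htw : 0 < t * w := by positivity
      rw [div_mul_eq_mul_div, le_div_iff₀ htw]
      nlinarith
    refine (der_mono_body (chi_val u) (fun _ _ h => chi_mono u h) hle _).trans ?_
    rw [(der_isAdd (chi_val u) _).smul (by positivity), der_self (chi_val u) (chi_hom u hd)]
    have h1 := chi_up_le u hu hd ht.le hw
    have h2 : 0 ≤ F / (t * w) := by positivity
    have h3 := mul_le_mul_of_nonneg_left h1 h2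
    have h4 : F / (t * w) * (t * w * kap u) = kap u * F := by
      field_simp
    rw [h4] at h3
    push_cast
    exact h3
  · -- lower bound: inscribed inverted cone
    obtain ⟨q, hq, hqe⟩ := exists_hs L' (t • u + w • x)
    rw [hF' x hx hux, inner_add_left, real_inner_smul_left, real_inner_smul_left] at hqe
    have h1 := hslant q hq
    have h2 := hnonneg q hq
    have h3 : ⟪x, q⟫_ℝ ≤ ‖prj u q‖ := by
      have := inner_le_decomp u x q hu
      rw [hux, prj_of_inner_zero u x hux, hx] at this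
      linarith
    have h4 : t * ⟪u, q⟫_ℝ + w * ‖prj u q‖ = F := by
      apply le_antisymm h1
      rw [← hqe]
      have := mul_le_mul_of_nonneg_left h3 hw.le
      linarith
    have hle : dn u ‖prj u q‖ ⟪u, q⟫_ℝ ≤ L' := by
      rw [le_iff_hs]
      intro v
      rw [hs_dn u (norm_nonneg _)]
      apply max_le
      · have := inner_le_hs hzero v
        rwa [inner_zero_right] at this
      · by_cases hpv : prj u v = 0
        · have h5 := hrefl q ⟪u, q⟫_ℝ ‖prj u q‖ hq rfl (prj u q) (inner_prj u q) rfl rfl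
          have h6 := inner_le_hs h5 v
          rw [inner_decomp u v _ hu, hpv, inner_zero_left, inner_add_right, real_inner_smul_right,
            huu, inner_prj] at h6
          rw [hpv, norm_zero]
          linarith
        · have hne : ‖prj u v‖ ≠ 0 := norm_ne_zero_iff.2 hpv
          have h5 := hrefl q ⟪u, q⟫_ℝ ‖prj u q‖ hq rfl ((‖prj u q‖ * ‖prj u v‖⁻¹) • prj u v)
            (by rw [real_inner_smul_right, inner_prj, mul_zero])
            (by
              rw [norm_smul, norm_mul, norm_norm, norm_inv, norm_norm, mul_assoc,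
                inv_mul_cancel₀ hne, mul_one]) rfl
          have h6 := inner_le_hs h5 v
          rw [inner_decomp u v _ hu, inner_add_right, real_inner_smul_right, huu,
            real_inner_smul_right, inner_prj, prj_add, prj_smul, prj_smul, prj_self u hu,
            smul_zero, zero_add, prj_of_inner_zero u (prj u v) (inner_prj u v),
            real_inner_smul_right, real_inner_self_eq_norm_sq] at h6
          have h7 : ‖prj u q‖ * ‖prj u v‖⁻¹ * ‖prj u v‖ ^ 2 = ‖prj u q‖ * ‖prj u v‖ := by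
            field_simp
          rw [h7] at h6
          linarith
    refine le_trans ?_ (der_mono_body (chi_val u) (fun _ _ h => chi_mono u h) hle _)
    have h5 := der_dn_ge u hu hd (t := t) (w := w) (r := ‖prj u q‖) (h := ⟪u, q⟫_ℝ) ht.le hw.le
      (norm_nonneg _) h2
    rw [h4] at h5
    exact h5

theorem Sb_eq_up (u : V) {t : ℝ} (ht : 0 ≤ t) :
    Sb u t = up u t (Real.sqrt (1 - t ^ 2)) := by
  apply hs_ext
  intro v
  rw [hs_up u ht, Sb, hs_body, max_eq_left ht, max_eq_right (by linarith : -t ≤ 0), zero_mul,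
    add_zero]

theorem Sb_neg (u : V) {t : ℝ} (ht : t ≤ 0) :
    Sb u t = Sb (-u) (-t) + pt (Real.sqrt (1 - t ^ 2) • u) := by
  apply hs_ext
  intro v
  rw [hs_add, hs_pt, Sb, hs_body, Sb, hs_body, prj_neg_left, max_eq_right ht,
    max_eq_left (by linarith : 0 ≤ -t), neg_neg, max_eq_right ht, zero_mul, add_zero,
    neg_sq, inner_neg_left, real_inner_smul_right, real_inner_comm u v, max_comm,
    ← max_add_add_right]
  congr 1 <;> ring

theorem key_nonneg (u : V) (hu : ‖u‖ = 1) (hd : 2 ≤ Module.finrank ℝ V) (L : ConvexBody V)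
    (hL : ∀ g, Gax u g → isoB g L = L) (x : V) (hx : ‖x‖ = 1) (hux : ⟪u, x⟫_ℝ = 0) {t : ℝ}
    (ht : t ∈ Icc (0 : ℝ) 1) :
    der L (chi u) (Sb u t) =
      kap u * (hs L (t • u + Real.sqrt (1 - t ^ 2) • x) + t * hs L (-u)) := by
  have hcl : IsClosed {t : ℝ | der L (chi u) (Sb u t) =
      kap u * (hs L (t • u + Real.sqrt (1 - t ^ 2) • x) + t * hs L (-u))} := by
    apply isClosed_eq
    · exact (isVal_der (chi_val u) L).cont.comp (continuous_Sb u)
    · apply continuous_const.mul
      apply Continuous.add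
      · exact (continuous_hs_right L).comp (by fun_prop)
      · fun_prop
  have hsub : Ioo (0 : ℝ) 1 ⊆ {t : ℝ | der L (chi u) (Sb u t) =
      kap u * (hs L (t • u + Real.sqrt (1 - t ^ 2) • x) + t * hs L (-u))} := by
    intro s hs
    have h1 : 0 < Real.sqrt (1 - s ^ 2) := by
      apply Real.sqrt_pos.2
      have := hs.1
      have := hs.2
      nlinarith
    show der L (chi u) (Sb u s) = _
    rw [Sb_eq_up u hs.1.le]
    exact key_pos u hu hd L hL x hx hux hs.1 h1
  have h2 := closure_minimal hsub hcl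
  rw [closure_Ioo (zero_ne_one)] at h2
  exact h2 ht

theorem key_all (u : V) (hu : ‖u‖ = 1) (hd : 2 ≤ Module.finrank ℝ V) (L : ConvexBody V)
    (hL : ∀ g, Gax u g → isoB g L = L) (x : V) (hx : ‖x‖ = 1) (hux : ⟪u, x⟫_ℝ = 0) {t : ℝ}
    (ht : t ∈ Icc (-1 : ℝ) 1) :
    der L (chi u) (Sb u t) =
      kap u * (hs L (t • u + Real.sqrt (1 - t ^ 2) • x)
        + |t| * hs L (if 0 ≤ t then -u else u)) := by
  rcases le_or_gt 0 t with h0 | h0
  · rw [if_pos h0, abs_of_nonneg h0]
    exact key_nonneg u hu hd L hL x hx hux ⟨h0, ht.2⟩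
  · rw [if_neg (not_le.2 h0), abs_of_neg h0, Sb_neg u h0.le,
      (isVal_der (chi_val u) L).trans, ← chi_neg u]
    have h1 := key_nonneg (-u) (by rw [norm_neg, hu]) hd L (by
      intro g hg
      apply hL
      refine ⟨?_, hg.2⟩
      have := hg.1
      rw [map_neg, neg_inj] at this
      exact this) x hx (by rw [inner_neg_left, hux, neg_zero]) (t := -t)
      ⟨by linarith, by linarith [ht.1]⟩
    rw [h1, kap_neg u hd, neg_neg, neg_smul, smul_neg, neg_neg, neg_sq]

end

end RfGeoAux

/-! ### module RfGeo (RfGeo.lean): mixed volumes of bodies of revolution -/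

section RfGeo
variable {V : Type*} [NormedAddCommGroup V] [InnerProductSpace ℝ V] [FiniteDimensional ℝ V]
  [MeasurableSpace V] [BorelSpace V]

theorem disc_vol_profile (u : V) (hu : ‖u‖ = 1) (hd : 2 ≤ Module.finrank ℝ V) :
    ∃ c : ℝ, 0 < c ∧ ∀ L : ConvexBody V, (∀ g, Gax u g → isoB g L = L) →
      ∀ x : V, ‖x‖ = 1 → ⟪u, x⟫_ℝ = 0 → ∀ t ∈ Icc (-1 : ℝ) 1,
        der L ((der (disc u))^[Module.finrank ℝ V - 2] vol) (Sb u t)
          = c * (hs L (t • u + Real.sqrt (1 - t ^ 2) • x)
              + |t| * hs L (if 0 ≤ t then -u else u)) :=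
  ⟨RfGeoAux.kap u, RfGeoAux.kap_pos u hu hd, fun L hL x hx hux _ ht =>
    RfGeoAux.key_all u hu hd L hL x hx hux ht⟩

end RfGeo

namespace RfGeoAux

section
variable {V : Type*} [NormedAddCommGroup V] [InnerProductSpace ℝ V] [FiniteDimensional ℝ V]

/-- two orthonormal tuples are related by an isometry -/
theorem exists_iso_lists (us vs : List V) (hl : us.length = vs.length)
    (hus : Orthonormal ℝ (fun i : Fin us.length => us.get i))
    (hvs : Orthonormal ℝ (fun i : Fin vs.length => vs.get i)) :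
    ∃ g : V ≃ₗᵢ[ℝ] V, us.map g = vs := by
  have hle : us.length ≤ Module.finrank ℝ V := by
    have := hus.linearIndependent.fintype_card_le_finrank
    simpa using this
  have key : ∀ ws : List V, ws.length = us.length →
      Orthonormal ℝ (fun i : Fin ws.length => ws.get i) →
      ∃ b : OrthonormalBasis (Fin (Module.finrank ℝ V)) ℝ V,
        ∀ (i : ℕ) (hi : i < ws.length) (hi' : i < Module.finrank ℝ V), b ⟨i, hi'⟩ = ws[i] := by
    intro ws hws ho
    have h1 := Orthonormal.exists_orthonormalBasis_extension_of_card_eq (𝕜 := ℝ) (E := V)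
      (ι := Fin (Module.finrank ℝ V)) (by rw [Fintype.card_fin])
      (v := fun i => ws.getD i.1 0) (s := {i | i.1 < ws.length}) (by
        constructor
        · rintro ⟨i, hi⟩
          have hi' : i.1 < ws.length := hi
          have := ho.1 ⟨i.1, hi'⟩
          simp only [Set.domRestrict_apply, List.getD_eq_getElem _ _ hi']
          simpa using this
        · rintro ⟨i, hi⟩ ⟨j, hj⟩ hij
          have hi' : i.1 < ws.length := hi
          have hj' : j.1 < ws.length := hj
          have := ho.2 (i := ⟨i.1, hi'⟩) (j := ⟨j.1, hj'⟩) (by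
            intro h
            apply hij
            rw [Subtype.mk.injEq]
            exact Fin.ext (by simpa using h))
          simp only [Set.domRestrict_apply, List.getD_eq_getElem _ _ hi',
            List.getD_eq_getElem _ _ hj']
          simpa using this)
    obtain ⟨b, hb⟩ := h1
    refine ⟨b, fun i hi hi' => ?_⟩
    have h2 := hb ⟨i, hi'⟩ hi
    rw [h2]
    simp only [List.getD_eq_getElem _ _ hi]
  obtain ⟨b1, hb1⟩ := key us rfl hus
  obtain ⟨b2, hb2⟩ := key vs hl.symm hvs
  refine ⟨b1.equiv b2 (Equiv.refl _), ?_⟩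
  apply List.ext_getElem
  · rw [List.length_map, hl]
  · intro i h1 h2
    rw [List.getElem_map]
    rw [List.length_map] at h1
    have hi' : i < Module.finrank ℝ V := lt_of_lt_of_le h1 hle
    rw [← hb1 i h1 hi', OrthonormalBasis.equiv_apply_basis, ← hb2 i h2 hi']
    rfl

end

section
variable {V : Type*} [NormedAddCommGroup V] [InnerProductSpace ℝ V] [FiniteDimensional ℝ V]
  [MeasurableSpace V] [BorelSpace V]

theorem isoB_disc' (g : V ≃ₗᵢ[ℝ] V) (u : V) (h : g u = u) : isoB g (disc u) = disc u := by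
  rw [isoB_disc, h]

theorem der_pull_fun {W : Type*} [NormedAddCommGroup W] [InnerProductSpace ℝ W]
    [FiniteDimensional ℝ W] (f : W →L[ℝ] V) (B : ConvexBody W) (k : ℕ)
    {φ : ConvexBody V → ℝ} (hφ : IsVal φ) :
    (der B)^[k] (fun M : ConvexBody W => φ (mapB f M)) =
      fun M => (der (mapB f B))^[k] φ (mapB f M) := by
  induction k with
  | zero => rfl
  | succ k ih =>
    rw [Function.iterate_succ_apply', ih, Function.iterate_succ_apply']
    funext M
    exact der_pull f (isVal_iter hφ _ k) B M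

theorem inner_coe_perp {xs : List V} {E : Submodule ℝ V}
    (hE : E = (Submodule.span ℝ {x | x ∈ xs})ᗮ) {v : V} : v ∈ E ↔ ∀ x ∈ xs, ⟪v, x⟫_ℝ = 0 := by
  rw [hE]
  constructor
  · intro h x hx
    have := (Submodule.mem_orthogonal _ _).1 h x (Submodule.subset_span hx)
    rw [real_inner_comm] at this
    exact this
  · intro h
    rw [Submodule.mem_orthogonal]
    intro u hu
    have h2 : Submodule.span ℝ {x | x ∈ xs} ≤ (Submodule.span ℝ {v})ᗮ := by
      rw [Submodule.span_le]
      intro x hx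
      rw [SetLike.mem_coe, Submodule.mem_orthogonal_singleton_iff_inner_right]
      exact h x hx
    have h3 := h2 hu
    rw [Submodule.mem_orthogonal_singleton_iff_inner_left] at h3
    exact h3

theorem adjoint_proj (E : Submodule ℝ V) (w : E) :
    ContinuousLinearMap.adjoint (E.orthogonalProjectionOnto : V →L[ℝ] E) w = (w : V) := by
  apply ext_inner_right ℝ
  intro v
  rw [ContinuousLinearMap.adjoint_inner_left]
  exact Submodule.inner_orthogonalProjectionOnto_eq_of_mem_left w v

theorem Ds_vol_eq (xs : List V) (ho : Orthonormal ℝ (fun i : Fin xs.length => xs.get i))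
    (E : Submodule ℝ V) (hE : E = (Submodule.span ℝ {x | x ∈ xs})ᗮ) :
    Ds xs (vol : ConvexBody V → ℝ) =
      fun K => vol (mapB (E.orthogonalProjectionOnto : V →L[ℝ] E) K) := by
  funext K
  rw [← Ds_vol_sub xs ho E hE]
  apply Ds_congr isVal_vol
  intro v hv
  have hvE : v ∈ E := (inner_coe_perp hE).2 hv
  rw [hs_mapB, hs_mapB, Submodule.adjoint_subtypeL, adjoint_proj,
    Submodule.coe_orthogonalProjectionOnto_apply, Submodule.starProjection_eq_self_iff.2 hvE]

theorem hs_proj (E : Submodule ℝ V) (K : ConvexBody V) (w : E) :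
    hs (mapB (E.orthogonalProjectionOnto : V →L[ℝ] E) K) w = hs K (w : V) := by
  rw [hs_mapB, adjoint_proj]

theorem coe_prj (E : Submodule ℝ V) (u w : E) : ((prj u w : E) : V) = prj (u : V) (w : V) := by
  simp [prj]

theorem proj_disc (E : Submodule ℝ V) (u : E) :
    mapB (E.orthogonalProjectionOnto : V →L[ℝ] E) (disc (u : V)) = disc u := by
  apply hs_ext
  intro w
  rw [hs_proj, hs_disc, hs_disc, ← coe_prj]
  rfl

theorem proj_Sb (E : Submodule ℝ V) (u : E) (t : ℝ) :
    mapB (E.orthogonalProjectionOnto : V →L[ℝ] E) (Sb (u : V) t) = Sb u t := by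
  apply hs_ext
  intro w
  rw [hs_proj, Sb, hs_body, Sb, hs_body, ← coe_prj]
  rfl

/-- invariance of projections -/
theorem proj_inv (E : Submodule ℝ V) (u : E) (L : ConvexBody V)
    (hL : ∀ g : V ≃ₗᵢ[ℝ] V, g (u : V) = u → isoB g L = L) (g : E ≃ₗᵢ[ℝ] E) (hg : g u = u) :
    isoB g (mapB (E.orthogonalProjectionOnto : V →L[ℝ] E) L) =
      mapB (E.orthogonalProjectionOnto : V →L[ℝ] E) L := by
  -- extend the inverse
  set G : V →ₗᵢ[ℝ] V := (E.subtypeₗᵢ.comp g.toLinearIsometry).extend with hG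
  have hGe : ∀ w : E, G (w : V) = (g w : V) := by
    intro w
    rw [hG, LinearIsometry.extend_apply]
    rfl
  set G' : V ≃ₗᵢ[ℝ] V := G.toLinearIsometryEquiv rfl with hG'
  have hG'e : ∀ w : V, G' w = G w := fun w => rfl
  apply hs_ext
  intro w
  rw [hs_isoB, hs_proj, hs_proj]
  have h1 := hL G' (by rw [hG'e, hGe, hg])
  have h2 := hs_isoB G' L (w : V)
  rw [h1] at h2
  rw [h2]
  congr 1
  rw [eq_comm, LinearIsometryEquiv.symm_apply_eq, hG'e, hGe, LinearIsometryEquiv.apply_symm_apply]

theorem kap_E (xs : List V) (ho : Orthonormal ℝ (fun i : Fin xs.length => xs.get i))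
    (E : Submodule ℝ V) (hE : E = (Submodule.span ℝ {x | x ∈ xs})ᗮ) (u : E)
    (hd : xs.length + 2 ≤ Module.finrank ℝ V) :
    kap u = Ds xs ((der (disc (u : V)))^[Module.finrank ℝ V - 1 - xs.length] vol)
      (seg (u : V)) := by
  have hn := length_add_finrank xs ho E hE
  rw [Ds_iter, Ds_vol_eq xs ho E hE, der_pull_fun _ _ _ isVal_vol, proj_disc]
  show kap u = (der (disc u))^[Module.finrank ℝ V - 1 - xs.length] vol
    (mapB (E.orthogonalProjectionOnto : V →L[ℝ] E) (seg (u : V)))
  rw [mapB_seg]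
  have h1 : (E.orthogonalProjectionOnto : V →L[ℝ] E) (u : V) = u := by
    apply Subtype.ext
    rw [Submodule.coe_orthogonalProjectionOnto_apply, Submodule.starProjection_eq_self_iff.2 u.2]
  rw [h1]
  unfold kap psi chi
  rw [← Function.iterate_succ_apply' (der (disc u)),
    show Module.finrank ℝ V - 1 - xs.length = (Module.finrank ℝ E - 2).succ by omega]

theorem main_E (xs : List V) (ho : Orthonormal ℝ (fun i : Fin xs.length => xs.get i))
    (E : Submodule ℝ V) (hE : E = (Submodule.span ℝ {x | x ∈ xs})ᗮ) (u : E) (hu : ‖u‖ = 1)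
    (hd : xs.length + 2 ≤ Module.finrank ℝ V) (L : ConvexBody V)
    (hL : ∀ g : V ≃ₗᵢ[ℝ] V, g (u : V) = u → isoB g L = L)
    (x : E) (hx : ‖x‖ = 1) (hux : ⟪u, x⟫_ℝ = 0) (t : ℝ) (ht : t ∈ Icc (-1 : ℝ) 1) :
    Ds xs (der L ((der (disc (u : V)))^[Module.finrank ℝ V - 2 - xs.length] vol)) (Sb (u : V) t)
      = kap u * (hs L (t • (u : V) + Real.sqrt (1 - t ^ 2) • (x : V))
          + |t| * hs L (if 0 ≤ t then -(u : V) else (u : V))) := by
  have hn := length_add_finrank xs ho E hE
  have hd' : 2 ≤ Module.finrank ℝ E := by omega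
  have h1 : Ds xs (der L ((der (disc (u : V)))^[Module.finrank ℝ V - 2 - xs.length] vol)) =
      der L ((der (disc (u : V)))^[Module.finrank ℝ V - 2 - xs.length] (Ds xs vol)) := by
    have h2 : ∀ (zs : List V) (ψ : ConvexBody V → ℝ), Ds zs (der L ψ) = der L (Ds zs ψ) := by
      intro zs ψ
      have := Ds_iter L zs 1 ψ
      simpa using this
    rw [h2, Ds_iter]
  have hv : IsVal (fun K : ConvexBody V => vol (mapB (E.orthogonalProjectionOnto : V →L[ℝ] E) K)) :=
    isVal_vol.pull _
  rw [h1, Ds_vol_eq xs ho E hE, der_pull_fun _ _ _ isVal_vol, proj_disc,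
    der_pull _ (isVal_iter isVal_vol _ _), proj_Sb]
  have h3 : Module.finrank ℝ V - 2 - xs.length = Module.finrank ℝ E - 2 := by omega
  rw [h3]
  have h4 := key_all u hu hd' (mapB (E.orthogonalProjectionOnto : V →L[ℝ] E) L) (by
    intro g hg
    exact proj_inv E u L hL g hg.1) x hx hux ht
  unfold chi at h4
  rw [h4, hs_proj, hs_proj]
  congr 3
  split_ifs <;> rfl

end

end RfGeoAux

section RfGeo2
variable {V : Type*} [NormedAddCommGroup V] [InnerProductSpace ℝ V] [FiniteDimensional ℝ V]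
  [MeasurableSpace V] [BorelSpace V]

/-- the same for `V`, restricted by an orthonormal tuple -/
theorem disc_vol_profile_Ds (u : V) (hu : ‖u‖ = 1) (j : ℕ) (hj : j + 2 ≤ Module.finrank ℝ V) :
    ∃ c : ℝ, 0 < c ∧ ∀ L : ConvexBody V, (∀ g : V ≃ₗᵢ[ℝ] V, g u = u → isoB g L = L) →
      ∀ xs : List V, xs.length = j → Orthonormal ℝ (fun i : Fin xs.length => xs.get i) →
      (∀ y ∈ xs, ⟪u, y⟫_ℝ = 0) →
      ∀ x : V, ‖x‖ = 1 → ⟪u, x⟫_ℝ = 0 → ∀ t ∈ Icc (-1 : ℝ) 1,
        Ds xs (der L ((der (disc u))^[Module.finrank ℝ V - 2 - j] vol)) (Sb u t)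
          = c * (hs L (t • u + Real.sqrt (1 - t ^ 2) • x)
              + |t| * hs L (if 0 ≤ t then -u else u)) := by
  classical
  set k := Module.finrank ℝ V - 1 - j with hk
  by_cases hex : ∃ xs : List V, xs.length = j ∧ Orthonormal ℝ (fun i : Fin xs.length => xs.get i) ∧
      (∀ y ∈ xs, ⟪u, y⟫_ℝ = 0)
  · obtain ⟨xs0, hl0, ho0, hx0⟩ := hex
    -- the constant
    have huE : ∀ xs : List V, (∀ y ∈ xs, ⟪u, y⟫_ℝ = 0) →
        u ∈ (Submodule.span ℝ {x | x ∈ xs})ᗮ := by
      intro xs hxs
      exact (RfGeoAux.inner_coe_perp rfl).2 hxs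
    refine ⟨Ds xs0 ((der (disc u))^[k] vol) (seg u), ?_, ?_⟩
    · have h1 := RfGeoAux.kap_E xs0 ho0 _ rfl ⟨u, huE xs0 hx0⟩ (by omega)
      rw [hl0] at h1
      rw [hk, ← h1]
      apply RfGeoAux.kap_pos
      · exact hu
      · have := length_add_finrank xs0 ho0 _ rfl
        omega
    · intro L hL xs hl ho hxs x hx hux t ht
      set E : Submodule ℝ V := (Submodule.span ℝ {x | x ∈ xs})ᗮ with hE
      have hn := length_add_finrank xs ho E hE
      -- the constant does not depend on `xs`
      have hc : Ds xs0 ((der (disc u))^[k] vol) (seg u) =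
          Ds xs ((der (disc u))^[k] vol) (seg u) := by
        obtain ⟨g, hg⟩ := RfGeoAux.exists_iso_lists (u :: xs0) (u :: xs) (by simp [hl0, hl])
          (orthonormal_cons hu hx0 ho0) (orthonormal_cons hu hxs ho)
        rw [List.map_cons, List.cons.injEq] at hg
        have h1 := Ds_iso g xs0 ((der (disc u))^[k] vol) (seg u)
        rw [hg.2, isoB_seg, hg.1] at h1
        rw [← h1]
        congr 1
        funext M
        rw [iter_iso (RfGeoAux.isoB_disc' g u hg.1) k (fun K => vol_iso g K)]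
      -- a unit vector in `E` orthogonal to `u`
      obtain ⟨x', hx', hux'⟩ : ∃ x' : E, ‖x'‖ = 1 ∧ ⟪(⟨u, huE xs hxs⟩ : E), x'⟫_ℝ = 0 := by
        obtain ⟨e, he, he2⟩ := exists_perp (V := E) (ys := [(⟨u, huE xs hxs⟩ : E)]) (by
          simp only [List.length_singleton]
          omega)
        refine ⟨e, he, ?_⟩
        have := he2 ⟨u, huE xs hxs⟩ (by simp)
        rw [real_inner_comm]
        exact this
      have h1 := RfGeoAux.main_E xs ho E hE ⟨u, huE xs hxs⟩ hu (by omega) L hL x' hx' hux' t ht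
      have h2 := RfGeoAux.kap_E xs ho E hE ⟨u, huE xs hxs⟩ (by omega)
      rw [hl] at h1 h2
      rw [h2] at h1
      rw [hc]
      have h3 : hs L (t • u + Real.sqrt (1 - t ^ 2) • (x' : V)) =
          hs L (t • u + Real.sqrt (1 - t ^ 2) • x) := by
        obtain ⟨g, hg, hgx⟩ := Gax_trans u x (x' : V) hu (by omega)
          (by rw [hx]; exact hx'.symm) (by rw [hux]; exact hux'.symm)
        have h4 := hL g hg.1
        have h5 := hs_isoB g L (t • u + Real.sqrt (1 - t ^ 2) • (x' : V))
        rw [h4] at h5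
        rw [h5, map_add, map_smul, map_smul]
        congr 3
        · rw [LinearIsometryEquiv.symm_apply_eq, hg.1]
        · rw [LinearIsometryEquiv.symm_apply_eq, hgx]
      rw [h3] at h1
      exact h1
  · refine ⟨1, one_pos, ?_⟩
    intro L _ xs hl ho hxs
    exact absurd ⟨xs, hl, ho, hxs⟩ hex

end RfGeo2

end MV
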