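import Pool.Agent.Lib.MP_f30071_gt.Basic

open MeasureTheory ProbabilityTheory Filter Topology Set
open scoped InnerProductSpace Pointwise NNReal ENNReal

set_option linter.unusedSectionVars false
set_option linter.unusedVariables false
set_option linter.unnecessarySimpa false

namespace MV

section Val
variable {V : Type*} [NormedAddCommGroup V] [InnerProductSpace ℝ V] [FiniteDimensional ℝ V]
variable {W : Type*} [NormedAddCommGroup W] [InnerProductSpace ℝ W] [FiniteDimensional ℝ W]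
variable {φ ψ : ConvexBody V → ℝ}

theorem IsVal.add (h1 : IsVal φ) (h2 : IsVal ψ) : IsVal (fun K => φ K + ψ K) :=
  ⟨h1.cont.add h2.cont, fun K L M N hM hN => by
    have := h1.val K L M N hM hN
    have := h2.val K L M N hM hN
    linarith, fun K x => by rw [h1.trans, h2.trans]⟩

theorem IsVal.sub (h1 : IsVal φ) (h2 : IsVal ψ) : IsVal (fun K => φ K - ψ K) :=
  ⟨h1.cont.sub h2.cont, fun K L M N hM hN => by
    have := h1.val K L M N hM hN
    have := h2.val K L M N hM hN
    linarith, fun K x => by rw [h1.trans, h2.trans]⟩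

theorem IsVal.const_mul (c : ℝ) (h1 : IsVal φ) : IsVal (fun K => c * φ K) :=
  ⟨continuous_const.mul h1.cont, fun K L M N hM hN => by
    have := h1.val K L M N hM hN
    rw [← mul_add, ← mul_add, this], fun K x => by rw [h1.trans]⟩

theorem IsVal.const (c : ℝ) : IsVal (fun _ : ConvexBody V => c) :=
  ⟨continuous_const, fun _ _ _ _ _ _ => rfl, fun _ _ => rfl⟩

theorem IsVal.sum {ι : Type*} (s : Finset ι) (f : ι → ConvexBody V → ℝ)
    (h : ∀ i ∈ s, IsVal (f i)) : IsVal (fun K => ∑ i ∈ s, f i K) :=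
  ⟨continuous_finsetSum s fun i hi => (h i hi).cont, fun K L M N hM hN => by
    rw [← Finset.sum_add_distrib, ← Finset.sum_add_distrib]
    exact Finset.sum_congr rfl fun i hi => (h i hi).val K L M N hM hN,
   fun K x => Finset.sum_congr rfl fun i hi => (h i hi).trans K x⟩

/-- hyperplane cut: `K` body, `v` vector, `c` level -/
theorem IsVal.cut (hφ : IsVal φ) (K Kp Km K0 : ConvexBody V) (v : V) (c : ℝ)
    (hp : (Kp : Set V) = (K : Set V) ∩ {x | c ≤ ⟪v, x⟫_ℝ})
    (hm : (Km : Set V) = (K : Set V) ∩ {x | ⟪v, x⟫_ℝ ≤ c})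
    (h0 : (K0 : Set V) = (K : Set V) ∩ {x | ⟪v, x⟫_ℝ = c}) : φ K + φ K0 = φ Kp + φ Km := by
  apply hφ.val
  · rw [hp, hm]
    ext x
    simp only [mem_union, mem_inter_iff, mem_ofPred_eq]
    constructor
    · intro h
      rcases le_total c ⟪v, x⟫_ℝ with h1 | h1
      · exact Or.inl ⟨h, h1⟩
      · exact Or.inr ⟨h, h1⟩
    · rintro (h | h) <;> exact h.1
  · rw [hp, hm, h0]
    ext x
    simp only [mem_inter_iff, mem_ofPred_eq]
    constructor
    · rintro ⟨h, h1⟩
      exact ⟨⟨h, h1.ge⟩, ⟨h, h1.le⟩⟩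
    · rintro ⟨⟨h, h1⟩, ⟨_, h2⟩⟩
      exact ⟨h, le_antisymm h2 h1⟩

/-- a segment from `K` to `L` inside the convex union meets the intersection -/
theorem exists_between {K L M : ConvexBody V} (hM : (M : Set V) = (K : Set V) ∪ L) {a b : V}
    (ha : a ∈ K) (hb : b ∈ L) :
    ∃ t : ℝ, 0 ≤ t ∧ t ≤ 1 ∧ ((1 - t) • a + t • b ∈ K) ∧ ((1 - t) • a + t • b ∈ L) := by
  have hc : Continuous (fun t : ℝ => (1 - t) • a + t • b) := by fun_prop
  have hpre : IsPreconnected (Icc (0 : ℝ) 1) := isPreconnected_Icc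
  rw [isPreconnected_closed_iff] at hpre
  have haM : a ∈ (M : Set V) := by rw [hM]; exact Or.inl ha
  have hbM : b ∈ (M : Set V) := by rw [hM]; exact Or.inr hb
  obtain ⟨t, ht, h1, h2⟩ := hpre ((fun t : ℝ => (1 - t) • a + t • b) ⁻¹' (K : Set V))
    ((fun t : ℝ => (1 - t) • a + t • b) ⁻¹' (L : Set V)) (K.isClosed.preimage hc)
    (L.isClosed.preimage hc) (by
      intro t ht
      have : (1 - t) • a + t • b ∈ (M : Set V) :=
        M.convex haM hbM (by linarith [ht.2]) ht.1 (by ring)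
      rw [hM] at this
      exact this) ⟨0, by simp, by
        show (1 - (0 : ℝ)) • a + (0 : ℝ) • b ∈ (K : Set V)
        simpa using ha⟩ ⟨1, by simp, by
        show (1 - (1 : ℝ)) • a + (1 : ℝ) • b ∈ (L : Set V)
        simpa using hb⟩
  exact ⟨t, ht.1, ht.2, h1, h2⟩

theorem mem_add_body {K L : ConvexBody V} {x : V} :
    x ∈ K + L ↔ ∃ a ∈ K, ∃ b ∈ L, a + b = x := by
  show x ∈ (K : Set V) + (L : Set V) ↔ _
  rw [Set.mem_add]
  rfl

theorem mem_coe_body {K : ConvexBody V} {x : V} : x ∈ (K : Set V) ↔ x ∈ K := Iff.rfl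

theorem coe_add_body (K L : ConvexBody V) : ((K + L : ConvexBody V) : Set V) = (K : Set V) + L :=
  rfl

theorem IsVal.shift (hφ : IsVal φ) (Q : ConvexBody V) : IsVal (fun K => φ (K + Q)) := by
  refine ⟨hφ.cont.comp (continuous_id.add continuous_const), ?_, ?_⟩
  · intro K L M N hM hN
    apply hφ.val
    · rw [coe_add_body, coe_add_body, coe_add_body, hM, Set.union_add]
    · apply Subset.antisymm
      · rintro x hx
        obtain ⟨n, hn, q, hq, rfl⟩ := mem_add_body.1 hx
        have hn' : n ∈ (N : Set V) := hn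
        rw [hN] at hn'
        exact ⟨mem_add_body.2 ⟨n, hn'.1, q, hq, rfl⟩, mem_add_body.2 ⟨n, hn'.2, q, hq, rfl⟩⟩
      · rintro x ⟨h1, h2⟩
        obtain ⟨a, ha, q1, hq1, rfl⟩ := mem_add_body.1 h1
        obtain ⟨b, hb, q2, hq2, hab⟩ := mem_add_body.1 h2
        obtain ⟨t, ht0, ht1, h3, h4⟩ := exists_between hM ha hb
        refine mem_add_body.2 ⟨(1 - t) • a + t • b, ?_, (1 - t) • q1 + t • q2,
          Q.convex hq1 hq2 (by linarith) ht0 (by ring), ?_⟩
        · show _ ∈ (N : Set V)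
          rw [hN]
          exact ⟨h3, h4⟩
        · calc (1 - t) • a + t • b + ((1 - t) • q1 + t • q2)
              = (1 - t) • (a + q1) + t • (b + q2) := by simp only [smul_add]; abel
            _ = (1 - t) • (a + q1) + t • (a + q1) := by rw [hab]
            _ = a + q1 := by rw [← add_smul]; simp
  · intro K x
    show φ (K + pt x + Q) = φ (K + Q)
    rw [add_right_comm, hφ.trans]

/-- pullback under an arbitrary linear map -/
theorem IsVal.pull (f : W →L[ℝ] V) (hφ : IsVal φ) :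
    IsVal (fun K : ConvexBody W => φ (mapB f K)) := by
  refine ⟨hφ.cont.comp (continuous_mapB_right f), ?_, ?_⟩
  · intro K L M N hM hN
    apply hφ.val
    · rw [coe_mapB, coe_mapB, coe_mapB, hM, Set.image_union]
    · rw [coe_mapB, coe_mapB, coe_mapB, hN]
      apply Subset.antisymm
      · exact image_inter_subset _ _ _
      · rintro y ⟨⟨a, ha, rfl⟩, ⟨b, hb, hab⟩⟩
        obtain ⟨t, ht0, ht1, h3, h4⟩ := exists_between hM (K := K) (L := L) ha hb
        refine ⟨(1 - t) • a + t • b, ⟨h3, h4⟩, ?_⟩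
        rw [map_add, map_smul, map_smul, hab, ← add_smul]
        simp
  · intro K x
    rw [mapB_add, mapB_pt, hφ.trans]

theorem IsAdd.isVal {A : ConvexBody V → ℝ} (hA : IsAdd A) : IsVal A := by
  refine ⟨hA.cont, ?_, ?_⟩
  · intro K L M N hM hN
    rw [← hA.add, ← hA.add]
    congr 1
    apply ConvexBody.ext
    apply Subset.antisymm
    · intro x hx
      obtain ⟨m, hm, n, hn, rfl⟩ := mem_add_body.1 hx
      have hm' : m ∈ (M : Set V) := hm
      have hn' : n ∈ (N : Set V) := hn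
      rw [hM] at hm'
      rw [hN] at hn'
      rcases hm' with h | h
      · exact mem_add_body.2 ⟨m, h, n, hn'.2, rfl⟩
      · exact mem_add_body.2 ⟨n, hn'.1, m, h, add_comm _ _⟩
    · intro x hx
      obtain ⟨a, ha, b, hb, rfl⟩ := mem_add_body.1 hx
      obtain ⟨t, ht0, ht1, h3, h4⟩ := exists_between hM ha hb
      have haM : a ∈ (M : Set V) := by rw [hM]; exact Or.inl ha
      have hbM : b ∈ (M : Set V) := by rw [hM]; exact Or.inr hb
      refine mem_add_body.2 ⟨t • a + (1 - t) • b,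
        M.convex haM hbM ht0 (by linarith) (by ring), (1 - t) • a + t • b, ?_, ?_⟩
      · show _ ∈ (N : Set V)
        rw [hN]
        exact ⟨h3, h4⟩
      · have : t • a + (1 - t) • b + ((1 - t) • a + t • b)
            = (t + (1 - t)) • a + ((1 - t) + t) • b := by simp only [add_smul]; abel
        rw [this]
        simp
  · intro K x
    rw [hA.add, hA.pt, add_zero]

/-- Cauchy functional equation on the half line -/
theorem cauchy_half {F : ℝ → ℝ} (hF : Continuous F)
    (h : ∀ a b : ℝ, 0 ≤ a → 0 ≤ b → F (a + b) = F a + F b) {c : ℝ} (hc : 0 ≤ c) :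
    F c = c * F 1 := by
  have h0 : F 0 = 0 := by
    have := h 0 0 le_rfl le_rfl
    simp at this
    linarith
  set g : ℝ →+ ℝ := AddMonoidHom.mk' (fun t => F (max t 0) - F (max (-t) 0)) (by
    intro s t
    have e : max (s + t) 0 + (max (-s) 0 + max (-t) 0)
        = max (-(s + t)) 0 + (max s 0 + max t 0) := by
      have h1 : ∀ x : ℝ, max x 0 - max (-x) 0 = x := by
        intro x
        rcases le_total 0 x with hx | hx
        · rw [max_eq_left hx, max_eq_right (by linarith)]; ring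
        · rw [max_eq_right hx, max_eq_left (by linarith)]; ring
      have := h1 s
      have := h1 t
      have := h1 (s + t)
      linarith
    have h2 := congrArg F e
    rw [h _ _ (le_max_right _ _) (add_nonneg (le_max_right _ _) (le_max_right _ _)),
      h _ _ (le_max_right _ _) (le_max_right _ _),
      h _ _ (le_max_right _ _) (add_nonneg (le_max_right _ _) (le_max_right _ _)),
      h _ _ (le_max_right _ _) (le_max_right _ _)] at h2
    linarith) with hg
  have hgc : Continuous g := by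
    show Continuous (fun t => F (max t 0) - F (max (-t) 0))
    fun_prop
  have h3 := map_real_smul g hgc c 1
  have h4 : ∀ t, 0 ≤ t → g t = F t := by
    intro t ht
    show F (max t 0) - F (max (-t) 0) = F t
    rw [max_eq_left ht, max_eq_right (by linarith), h0, sub_zero]
  rw [smul_eq_mul, mul_one, smul_eq_mul, h4 c hc, h4 1 zero_le_one] at h3
  exact h3

theorem IsAdd.smul {A : ConvexBody V → ℝ} (hA : IsAdd A) {c : ℝ} (hc : 0 ≤ c)
    (K : ConvexBody V) : A (c • K) = c * A K := by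
  have h1 : Continuous (fun t : ℝ => A (t • K)) :=
    hA.cont.comp (continuous_id.smul continuous_const)
  have := cauchy_half h1 (fun a b ha hb => by
    rw [add_smul_body ha hb, hA.add]) hc
  simpa using this

theorem IsAdd.isHom {A : ConvexBody V → ℝ} (hA : IsAdd A) : IsHom 1 A := by
  intro c K hc
  rw [hA.smul hc, pow_one]

theorem IsAdd.pull {A : ConvexBody V → ℝ} (f : W →L[ℝ] V) (hA : IsAdd A) :
    IsAdd (fun K : ConvexBody W => A (mapB f K)) :=
  ⟨hA.cont.comp (continuous_mapB_right f), fun K L => by rw [mapB_add, hA.add],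
    fun x => by rw [mapB_pt, hA.pt]⟩

theorem IsAdd.sub' {A B : ConvexBody V → ℝ} (hA : IsAdd A) (hB : IsAdd B) :
    IsAdd (fun K => A K - B K) :=
  ⟨hA.cont.sub hB.cont, fun K L => by rw [hA.add, hB.add]; ring,
    fun x => by rw [hA.pt, hB.pt]; ring⟩

theorem IsAdd.const_mul {A : ConvexBody V → ℝ} (c : ℝ) (hA : IsAdd A) :
    IsAdd (fun K => c * A K) :=
  ⟨continuous_const.mul hA.cont, fun K L => by rw [hA.add]; ring,
    fun x => by rw [hA.pt]; ring⟩


/-! differences -/

theorem D_comm (x y : V) (φ : ConvexBody V → ℝ) : D x (D y φ) = D y (D x φ) := by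
  funext K
  simp only [MV.D]
  rw [add_right_comm]
  ring

theorem isVal_D (hφ : IsVal φ) (x : V) : IsVal (D x φ) := (hφ.shift (seg x)).sub hφ

theorem mem_seg {x y : V} : y ∈ seg x ↔ ∃ c : ℝ, 0 ≤ c ∧ c ≤ 1 ∧ c • x = y := by
  classical
  show y ∈ convexHull ℝ ((({0, x} : Finset V)) : Set V) ↔ _
  rw [Finset.coe_pair, convexHull_pair, segment_eq_image]
  constructor
  · rintro ⟨c, hc, rfl⟩
    exact ⟨c, hc.1, hc.2, by simp⟩
  · rintro ⟨c, h0, h1, rfl⟩
    exact ⟨c, ⟨h0, h1⟩, by simp⟩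

theorem mem_seg_smul {x y : V} {s : ℝ} (hs : 0 ≤ s) :
    y ∈ seg (s • x) ↔ ∃ c : ℝ, 0 ≤ c ∧ c ≤ s ∧ c • x = y := by
  rw [mem_seg]
  constructor
  · rintro ⟨c, h0, h1, rfl⟩
    exact ⟨c * s, by positivity, by nlinarith, by rw [mul_smul]⟩
  · rintro ⟨c, h0, h1, rfl⟩
    rcases hs.eq_or_lt with h | h
    · subst h
      exact ⟨0, le_rfl, zero_le_one, by
        have : c = 0 := le_antisymm h1 h0
        simp [this]⟩
    · refine ⟨c / s, by positivity, by rw [div_le_one h]; exact h1, ?_⟩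
      rw [smul_smul, div_mul_cancel₀ _ h.ne']

theorem add_seg_smul_add (hφ : IsVal φ) (x : V) {s t : ℝ} (hs : 0 ≤ s) (ht : 0 ≤ t)
    (K : ConvexBody V) :
    φ (K + seg ((s + t) • x)) - φ K
      = (φ (K + seg (s • x)) - φ K) + (φ (K + seg (t • x)) - φ K) := by
  have h := (hφ.shift K).val (seg (s • x)) (seg (t • x) + pt (s • x)) (seg ((s + t) • x))
    (pt (s • x)) (by
      ext y
      simp only [mem_union, mem_coe_body, mem_add_body]
      rw [mem_seg_smul (by positivity), mem_seg_smul hs]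
      constructor
      · rintro ⟨c, h0, h1, rfl⟩
        rcases le_total c s with h | h
        · exact Or.inl ⟨c, h0, h, rfl⟩
        · refine Or.inr ⟨(c - s) • x, (mem_seg_smul ht).2 ⟨c - s, by linarith, by linarith, rfl⟩,
            s • x, mem_pt.2 rfl, ?_⟩
          rw [← add_smul]; congr 1; ring
      · rintro (⟨c, h0, h1, rfl⟩ | ⟨a, ha, b, hb, rfl⟩)
        · exact ⟨c, h0, by linarith, rfl⟩
        · obtain ⟨c, h0, h1, rfl⟩ := (mem_seg_smul ht).1 ha
          rw [mem_pt.1 hb]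
          exact ⟨c + s, by positivity, by linarith, by rw [add_smul]⟩) (by
      ext y
      simp only [mem_inter_iff, mem_coe_body, mem_add_body]
      rw [mem_seg_smul hs, mem_pt]
      constructor
      · rintro rfl
        exact ⟨⟨s, hs, le_rfl, rfl⟩, 0, (mem_seg_smul ht).2 ⟨0, le_rfl, ht, by simp⟩, s • x,
          mem_pt.2 rfl, by simp⟩
      · rintro ⟨⟨c, h0, h1, rfl⟩, a, ha, b, hb, hab⟩
        obtain ⟨d, h2, h3, rfl⟩ := (mem_seg_smul ht).1 ha
        rw [mem_pt.1 hb, ← add_smul] at hab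
        by_cases hx : x = 0
        · simp [hx]
        · have := smul_left_injective ℝ hx hab
          have : c = s := by
            have h5 : d + s = c := this
            linarith
          rw [this])
  have e1 : φ (pt (s • x) + K) = φ K := by rw [add_comm, hφ.trans]
  have e2 : φ (seg (t • x) + pt (s • x) + K) = φ (K + seg (t • x)) := by
    rw [add_right_comm, hφ.trans, add_comm]
  rw [e1, e2, add_comm (seg ((s + t) • x)) K, add_comm (seg (s • x)) K] at h
  linarith

theorem add_seg_smul (hφ : IsVal φ) (x : V) {c : ℝ} (hc : 0 ≤ c) (K : ConvexBody V) :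
    φ (K + seg (c • x)) = φ K + c * MV.D x φ K := by
  have hF : Continuous (fun t : ℝ => φ (K + seg (t • x)) - φ K) := by
    have h1 : Continuous (fun t : ℝ => K + seg (t • x)) :=
      continuous_const.add (continuous_seg.comp (by fun_prop))
    exact (hφ.cont.comp h1).sub continuous_const
  have := cauchy_half hF (fun a b ha hb => add_seg_smul_add hφ x ha hb K) hc
  simp only [one_smul] at this
  simp only [MV.D]
  linarith

theorem D_neg (hφ : IsVal φ) (x : V) (K : ConvexBody V) : MV.D (-x) φ K = MV.D x φ K := by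
  simp only [MV.D]
  rw [← seg_neg x, ← add_assoc, hφ.trans]

theorem D_smul (hφ : IsVal φ) (x : V) (c : ℝ) (K : ConvexBody V) :
    MV.D (c • x) φ K = |c| * MV.D x φ K := by
  have key : ∀ c : ℝ, 0 ≤ c → MV.D (c • x) φ K = c * MV.D x φ K := by
    intro c hc
    have := add_seg_smul hφ x hc K
    have e : MV.D (c • x) φ K = φ (K + seg (c • x)) - φ K := rfl
    rw [e, this]; ring
  rcases le_total 0 c with h | h
  · rw [abs_of_nonneg h, key c h]
  · rw [abs_of_nonpos h, ← key (-c) (by linarith), neg_smul, D_neg hφ]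

theorem D_zero (hφ : IsVal φ) (K : ConvexBody V) : MV.D 0 φ K = 0 := by
  simp only [MV.D]
  rw [seg_zero, add_zero, sub_self]

/-- adding a segment does not change the difference in its direction -/
theorem D_add_seg (hφ : IsVal φ) (x : V) {c : ℝ} (hc : 0 ≤ c) (K : ConvexBody V) :
    MV.D x φ (K + seg (c • x)) = MV.D x φ K := by
  have h1 := add_seg_smul hφ x (c := c + 1) (by linarith) K
  have h2 := add_seg_smul hφ x hc K
  have h3 : K + seg (c • x) + seg x = K + seg ((c + 1) • x) := by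
    rw [add_assoc]
    congr 1
    have := seg_add_seg_smul hc zero_le_one x
    rw [one_smul] at this
    exact this
  have e : MV.D x φ (K + seg (c • x)) = φ (K + seg (c • x) + seg x) - φ (K + seg (c • x)) := rfl
  rw [e, h3, h1, h2]
  ring

theorem D_D_self (hφ : IsVal φ) (x : V) (K : ConvexBody V) : MV.D x (MV.D x φ) K = 0 := by
  have := D_add_seg hφ x zero_le_one K
  rw [one_smul] at this
  have e : MV.D x (MV.D x φ) K = MV.D x φ (K + seg x) - MV.D x φ K := rfl
  rw [e, this, sub_self]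


/-- orthogonal projection along `x` as a continuous linear map -/
noncomputable def prjL (x : V) : V →L[ℝ] V :=
  ContinuousLinearMap.id ℝ V - ((‖x‖ ^ 2)⁻¹ • (innerSL ℝ x)).smulRight x

theorem prjL_apply (x y : V) : prjL x y = y - ((‖x‖ ^ 2)⁻¹ * ⟪x, y⟫_ℝ) • x := by
  simp [prjL]

theorem inner_prjL {x : V} (hx : x ≠ 0) (y : V) : ⟪x, prjL x y⟫_ℝ = 0 := by
  rw [prjL_apply, inner_sub_right, real_inner_smul_right, real_inner_self_eq_norm_sq]
  have : ‖x‖ ^ 2 ≠ 0 := by
    have := norm_ne_zero_iff.2 hx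
    positivity
  field_simp
  ring

theorem prjL_of_perp {x y : V} (h : ⟪x, y⟫_ℝ = 0) : prjL x y = y := by
  rw [prjL_apply, h]; simp

theorem prjL_self_add {x : V} (hx : x ≠ 0) (y : V) (c : ℝ) :
    prjL x (y + c • x) = prjL x y := by
  rw [prjL_apply, prjL_apply, inner_add_right, real_inner_smul_right, real_inner_self_eq_norm_sq]
  have : ‖x‖ ^ 2 ≠ 0 := by
    have := norm_ne_zero_iff.2 hx
    positivity
  have h1 : (‖x‖ ^ 2)⁻¹ * (⟪x, y⟫_ℝ + c * ‖x‖ ^ 2) = (‖x‖ ^ 2)⁻¹ * ⟪x, y⟫_ℝ + c := by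
    field_simp
  rw [h1, add_smul]
  abel

theorem adjoint_prjL (x w : V) : ContinuousLinearMap.adjoint (prjL x) w = prjL x w := by
  apply ext_inner_right ℝ
  intro v
  rw [ContinuousLinearMap.adjoint_inner_left, prjL_apply, prjL_apply, inner_sub_right,
    inner_sub_left, real_inner_smul_left, real_inner_smul_right, real_inner_comm x w]
  ring

theorem D_of_le (hφ : IsVal φ) {x : V} (hx : x ≠ 0) {Y P : ConvexBody V} (hPY : P ≤ Y)
    (hP : P = mapB (prjL x) Y) : MV.D x φ Y = MV.D x φ P := by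
  have hn : 0 < ‖x‖ ^ 2 := by
    have := norm_pos_iff.2 hx
    positivity
  have hPmem : ∀ p, p ∈ P ↔ ∃ y ∈ Y, prjL x y = p := by
    intro p
    rw [hP]
    rfl
  have hPperp : ∀ p ∈ P, ⟪x, p⟫_ℝ = 0 := by
    intro p hp
    obtain ⟨y, _, rfl⟩ := (hPmem p).1 hp
    exact inner_prjL hx y
  have hdec : ∀ y : V, prjL x y + ((‖x‖ ^ 2)⁻¹ * ⟪x, y⟫_ℝ) • x = y := by
    intro y
    rw [prjL_apply]; abel
  have hin : ∀ (y : V) (c : ℝ), ⟪x, prjL x y + c • x⟫_ℝ = c * ‖x‖ ^ 2 := by
    intro y c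
    rw [inner_add_right, inner_prjL hx, real_inner_smul_right, real_inner_self_eq_norm_sq,
      zero_add]
  have hqY : ∀ y ∈ Y, prjL x y ∈ Y := fun y hy => hPY ((hPmem _).2 ⟨y, hy, rfl⟩)
  -- points between y and its projection
  have hbet : ∀ y ∈ Y, ∀ t : ℝ, 0 ≤ t → t ≤ 1 →
      prjL x y + (t * ((‖x‖ ^ 2)⁻¹ * ⟪x, y⟫_ℝ)) • x ∈ Y := by
    intro y hy t h0 h1
    have := Y.convex (hqY y hy) hy (show 0 ≤ 1 - t by linarith) h0 (by ring)
    have e : (1 - t) • prjL x y + t • y
        = prjL x y + (t * ((‖x‖ ^ 2)⁻¹ * ⟪x, y⟫_ℝ)) • x := by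
      conv_lhs => rw [← hdec y]
      rw [show prjL x (prjL x y + ((‖x‖ ^ 2)⁻¹ * ⟪x, y⟫_ℝ) • x) = prjL x y from by rw [hdec]]
      rw [smul_add, smul_smul, ← add_assoc, ← add_smul]
      simp
    rw [e] at this
    exact this
  have hbet' : ∀ y ∈ Y, ∀ c : ℝ, (0 ≤ c ∧ c * ‖x‖ ^ 2 ≤ ⟪x, y⟫_ℝ) ∨
      (c ≤ 0 ∧ ⟪x, y⟫_ℝ ≤ c * ‖x‖ ^ 2) → prjL x y + c • x ∈ Y := by
    intro y hy c hc
    by_cases h0 : ⟪x, y⟫_ℝ = 0
    · have : c = 0 := by
        rcases hc with ⟨h1, h2⟩ | ⟨h1, h2⟩
        · rw [h0] at h2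
          nlinarith
        · rw [h0] at h2
          nlinarith
      rw [this, zero_smul, add_zero]
      exact hqY y hy
    · have h1 := hbet y hy (c * ‖x‖ ^ 2 / ⟪x, y⟫_ℝ) (by
        rcases hc with ⟨h1, h2⟩ | ⟨h1, h2⟩
        · have : 0 ≤ c * ‖x‖ ^ 2 := by positivity
          exact div_nonneg this (this.trans h2)
        · have : c * ‖x‖ ^ 2 ≤ 0 := by nlinarith
          exact div_nonneg_of_nonpos this (h2.trans this)) (by
        rcases hc with ⟨h1, h2⟩ | ⟨h1, h2⟩
        · have : 0 ≤ c * ‖x‖ ^ 2 := by positivity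
          exact div_le_one_of_le₀ h2 (this.trans h2)
        · have h3 : c * ‖x‖ ^ 2 ≤ 0 := by nlinarith
          have h4 : ⟪x, y⟫_ℝ < 0 := lt_of_le_of_ne (h2.trans h3) h0
          rw [div_le_one_of_neg h4]
          exact h2)
      have e : c * ‖x‖ ^ 2 / ⟪x, y⟫_ℝ * ((‖x‖ ^ 2)⁻¹ * ⟪x, y⟫_ℝ) = c := by
        field_simp
      rw [e] at h1
      exact h1
  have hclosed1 : IsClosed {y : V | 0 ≤ ⟪x, y⟫_ℝ} := isClosed_le continuous_const (by fun_prop)
  have hclosed2 : IsClosed {y : V | ⟪x, y⟫_ℝ ≤ 0} := isClosed_le (by fun_prop) continuous_const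
  have hconv1 : Convex ℝ {y : V | 0 ≤ ⟪x, y⟫_ℝ} :=
    (convex_Ici (0 : ℝ)).is_linear_preimage (f := fun y => ⟪x, y⟫_ℝ) (innerₛₗ ℝ x).isLinear
  have hconv2 : Convex ℝ {y : V | ⟪x, y⟫_ℝ ≤ 0} :=
    (convex_Iic (0 : ℝ)).is_linear_preimage (f := fun y => ⟪x, y⟫_ℝ) (innerₛₗ ℝ x).isLinear
  obtain ⟨p0, hp0⟩ := P.nonempty
  have hp0' : ⟪x, p0⟫_ℝ = 0 := hPperp p0 hp0
  set Yp : ConvexBody V := ⟨(Y : Set V) ∩ {y : V | 0 ≤ ⟪x, y⟫_ℝ}, Y.convex.inter hconv1,
    Y.isCompact.inter_right hclosed1, ⟨p0, hPY hp0, hp0'.ge⟩⟩ with hYp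
  set Ym : ConvexBody V := ⟨(Y : Set V) ∩ {y : V | ⟪x, y⟫_ℝ ≤ 0}, Y.convex.inter hconv2,
    Y.isCompact.inter_right hclosed2, ⟨p0, hPY hp0, hp0'.le⟩⟩ with hYm
  have hYp' : (Yp : Set V) = (Y : Set V) ∩ {y : V | 0 ≤ ⟪x, y⟫_ℝ} := rfl
  have hYm' : (Ym : Set V) = (Y : Set V) ∩ {y : V | ⟪x, y⟫_ℝ ≤ 0} := rfl
  have hmYp : ∀ y, y ∈ Yp ↔ y ∈ Y ∧ 0 ≤ ⟪x, y⟫_ℝ := fun y => Iff.rfl
  have hmYm : ∀ y, y ∈ Ym ↔ y ∈ Y ∧ ⟪x, y⟫_ℝ ≤ 0 := fun y => Iff.rfl
  -- first cut
  have c1 := hφ.cut Y Yp Ym P x 0 hYp' hYm' (by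
    ext y
    simp only [mem_inter_iff, mem_ofPred_eq, mem_coe_body]
    constructor
    · intro h
      exact ⟨hPY h, hPperp y h⟩
    · rintro ⟨h, h1⟩
      rw [hPmem]
      exact ⟨y, h, prjL_of_perp h1⟩)
  -- second cut
  have c2 := hφ.cut (Y + seg x) (Yp + seg x) Ym P x 0 (by
    ext z
    simp only [mem_inter_iff, mem_ofPred_eq, mem_coe_body, mem_add_body, mem_seg, hmYp]
    constructor
    · rintro ⟨y, ⟨hy, hy0⟩, _, ⟨c, hc0, hc1, rfl⟩, rfl⟩
      refine ⟨⟨y, hy, _, ⟨c, hc0, hc1, rfl⟩, rfl⟩, ?_⟩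
      rw [inner_add_right, real_inner_smul_right, real_inner_self_eq_norm_sq]
      positivity
    · rintro ⟨⟨y, hy, _, ⟨c, hc0, hc1, rfl⟩, rfl⟩, hz⟩
      rcases le_total 0 ⟪x, y⟫_ℝ with h | h
      · exact ⟨y, ⟨hy, h⟩, _, ⟨c, hc0, hc1, rfl⟩, rfl⟩
      · rw [inner_add_right, real_inner_smul_right, real_inner_self_eq_norm_sq] at hz
        refine ⟨prjL x y, ⟨hqY y hy, (inner_prjL hx y).ge⟩, _,
          ⟨c + (‖x‖ ^ 2)⁻¹ * ⟪x, y⟫_ℝ, ?_, ?_, rfl⟩, ?_⟩
        · have e : c + (‖x‖ ^ 2)⁻¹ * ⟪x, y⟫_ℝ = (‖x‖ ^ 2)⁻¹ * (⟪x, y⟫_ℝ + c * ‖x‖ ^ 2) := by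
            field_simp; ring
          rw [e]; positivity
        · have : (‖x‖ ^ 2)⁻¹ * ⟪x, y⟫_ℝ ≤ 0 :=
            mul_nonpos_of_nonneg_of_nonpos (by positivity) h
          linarith
        · rw [add_smul]
          conv_rhs => rw [← hdec y]
          abel) (by
    ext z
    simp only [mem_inter_iff, mem_ofPred_eq, mem_coe_body, mem_add_body, mem_seg, hmYm]
    constructor
    · rintro ⟨h1, h2⟩
      exact ⟨⟨z, h1, 0, ⟨0, le_rfl, zero_le_one, by simp⟩, by simp⟩, h2⟩
    · rintro ⟨⟨y, hy, _, ⟨c, hc0, hc1, rfl⟩, rfl⟩, hz⟩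
      refine ⟨?_, hz⟩
      rw [inner_add_right, real_inner_smul_right, real_inner_self_eq_norm_sq] at hz
      have h1 := hbet' y hy (c + (‖x‖ ^ 2)⁻¹ * ⟪x, y⟫_ℝ) (Or.inr (by
        have e : c + (‖x‖ ^ 2)⁻¹ * ⟪x, y⟫_ℝ = (‖x‖ ^ 2)⁻¹ * (⟪x, y⟫_ℝ + c * ‖x‖ ^ 2) := by
          field_simp; ring
        constructor
        · rw [e]
          exact mul_nonpos_of_nonneg_of_nonpos (by positivity) hz
        · have e2 : (c + (‖x‖ ^ 2)⁻¹ * ⟪x, y⟫_ℝ) * ‖x‖ ^ 2 = c * ‖x‖ ^ 2 + ⟪x, y⟫_ℝ := by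
            field_simp
          rw [e2]
          have : 0 ≤ c * ‖x‖ ^ 2 := by positivity
          linarith))
      have e3 : prjL x y + (c + (‖x‖ ^ 2)⁻¹ * ⟪x, y⟫_ℝ) • x = y + c • x := by
        rw [add_smul]
        conv_rhs => rw [← hdec y]
        abel
      rw [e3] at h1
      exact h1) (by
    ext z
    simp only [mem_inter_iff, mem_ofPred_eq, mem_coe_body, mem_add_body, mem_seg]
    constructor
    · intro h
      exact ⟨⟨z, hPY h, 0, ⟨0, le_rfl, zero_le_one, by simp⟩, by simp⟩, hPperp z h⟩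
    · rintro ⟨⟨y, hy, _, ⟨c, hc0, hc1, rfl⟩, rfl⟩, hz⟩
      rw [hPmem]
      refine ⟨y, hy, ?_⟩
      rw [← prjL_of_perp hz, prjL_self_add hx])
  -- third decomposition
  have c3 := hφ.val (P + seg x) (Yp + pt x) (Yp + seg x) (P + pt x) (by
    ext z
    simp only [mem_union, mem_coe_body, mem_add_body, mem_seg, mem_pt]
    constructor
    · rintro ⟨y, hy, _, ⟨c, hc0, hc1, rfl⟩, rfl⟩
      obtain ⟨hy1, hy2⟩ := (hmYp y).1 hy
      rcases le_total ((‖x‖ ^ 2)⁻¹ * ⟪x, y⟫_ℝ + c) 1 with h | h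
      · left
        refine ⟨prjL x y, (hPmem _).2 ⟨y, hy1, rfl⟩, _,
          ⟨(‖x‖ ^ 2)⁻¹ * ⟪x, y⟫_ℝ + c, by positivity, h, rfl⟩, ?_⟩
        rw [add_smul]
        conv_rhs => rw [← hdec y]
        abel
      · right
        refine ⟨prjL x y + ((‖x‖ ^ 2)⁻¹ * ⟪x, y⟫_ℝ + c - 1) • x, ?_, x, rfl, ?_⟩
        · rw [hmYp]
          constructor
          · apply hbet' y hy1
            left
            refine ⟨by linarith, ?_⟩
            have e2 : ((‖x‖ ^ 2)⁻¹ * ⟪x, y⟫_ℝ + c - 1) * ‖x‖ ^ 2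
                = ⟪x, y⟫_ℝ + (c - 1) * ‖x‖ ^ 2 := by
              field_simp
              ring
            rw [e2]
            nlinarith
          · rw [hin]
            have : 0 ≤ (‖x‖ ^ 2)⁻¹ * ⟪x, y⟫_ℝ + c - 1 := by linarith
            positivity
        · rw [sub_smul, add_smul, one_smul]
          conv_rhs => rw [← hdec y]
          abel
    · rintro (⟨p, hp, _, ⟨c, hc0, hc1, rfl⟩, rfl⟩ | ⟨y, hy, _, rfl, rfl⟩)
      · exact ⟨p, (hmYp p).2 ⟨hPY hp, (hPperp p hp).ge⟩, _, ⟨c, hc0, hc1, rfl⟩, rfl⟩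
      · exact ⟨y, hy, _, ⟨1, zero_le_one, le_rfl, rfl⟩, by simp⟩) (by
    ext z
    simp only [mem_inter_iff, mem_coe_body, mem_add_body, mem_seg, mem_pt]
    constructor
    · rintro ⟨p, hp, _, rfl, rfl⟩
      exact ⟨⟨p, hp, _, ⟨1, zero_le_one, le_rfl, rfl⟩, by simp⟩,
        ⟨p, (hmYp p).2 ⟨hPY hp, (hPperp p hp).ge⟩, _, rfl, rfl⟩⟩
    · rintro ⟨⟨p, hp, _, ⟨c, hc0, hc1, rfl⟩, rfl⟩, ⟨y, hy, w, hw, hyz⟩⟩
      rw [hw] at hyz
      obtain ⟨hy1, hy2⟩ := (hmYp y).1 hy
      have h1 := congrArg (fun w => ⟪x, w⟫_ℝ) hyz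
      simp only [inner_add_right, real_inner_smul_right, real_inner_self_eq_norm_sq,
        hPperp p hp] at h1
      have h2 : c = 1 := by nlinarith
      exact ⟨p, hp, _, rfl, by rw [h2, one_smul]⟩)
  rw [hφ.trans, hφ.trans] at c3
  simp only [MV.D]
  linarith

theorem hs_mapB_prjL (x : V) (K : ConvexBody V) (v : V) :
    hs (mapB (prjL x) K) v = hs K (prjL x v) := by
  rw [hs_mapB, adjoint_prjL]

theorem D_prjL (hφ : IsVal φ) {x : V} (hx : x ≠ 0) (K : ConvexBody V) :
    MV.D x φ K = MV.D x φ (mapB (prjL x) K) := by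
  have hn : 0 < ‖x‖ ^ 2 := by
    have := norm_pos_iff.2 hx
    positivity
  -- bound for the coordinate along x
  set m : ℝ := (‖x‖ ^ 2)⁻¹ * (‖x‖ * dist K 0) with hm
  have hm0 : 0 ≤ m := by positivity
  have hmb : ∀ y ∈ K, |(‖x‖ ^ 2)⁻¹ * ⟪x, y⟫_ℝ| ≤ m := by
    intro y hy
    rw [abs_mul, abs_of_pos (inv_pos.2 hn)]
    apply mul_le_mul_of_nonneg_left _ (by positivity)
    refine (abs_real_inner_le_norm x y).trans ?_
    exact mul_le_mul_of_nonneg_left (norm_le_of_mem hy) (norm_nonneg _)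
  set Y : ConvexBody V := K + seg ((2 * m) • x) + pt (-(m • x)) with hY
  have h1 : MV.D x φ Y = MV.D x φ K := by
    rw [hY, (isVal_D hφ x).trans, D_add_seg hφ x (by positivity)]
  rw [← h1]
  have hPeq : mapB (prjL x) K = mapB (prjL x) Y := by
    apply hs_ext
    intro v
    rw [hs_mapB_prjL, hs_mapB_prjL, hY, hs_add, hs_add, hs_seg, hs_pt]
    have h0 : ⟪prjL x v, x⟫_ℝ = 0 := by rw [real_inner_comm]; exact inner_prjL hx v
    rw [real_inner_smul_right, inner_neg_right, real_inner_smul_right, h0]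
    simp
  apply D_of_le hφ hx _ hPeq
  intro p hp
  obtain ⟨y, hy, rfl⟩ := (show p ∈ prjL x '' (K : Set V) from hp)
  have hb := abs_le.1 (hmb y hy)
  show prjL x y ∈ K + seg ((2 * m) • x) + pt (-(m • x))
  rw [mem_add_body]
  refine ⟨y + (m - (‖x‖ ^ 2)⁻¹ * ⟪x, y⟫_ℝ) • x, ?_, -(m • x), mem_pt.2 rfl, ?_⟩
  · rw [mem_add_body]
    refine ⟨y, hy, _, ?_, rfl⟩
    rw [mem_seg_smul (by positivity)]
    exact ⟨_, by linarith, by linarith, rfl⟩
  · rw [prjL_apply, sub_smul]
    abel

/-- `D x φ K` depends only on the projection of `K` along `x` -/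
theorem D_congr (hφ : IsVal φ) (x : V) {K L : ConvexBody V}
    (h : ∀ v, ⟪v, x⟫_ℝ = 0 → hs K v = hs L v) : MV.D x φ K = MV.D x φ L := by
  by_cases hx : x = 0
  · subst hx
    rw [D_zero hφ, D_zero hφ]
  · rw [D_prjL hφ hx K, D_prjL hφ hx L]
    congr 1
    apply hs_ext
    intro v
    rw [hs_mapB_prjL, hs_mapB_prjL]
    apply h
    rw [real_inner_comm]
    exact inner_prjL hx v


theorem D_nonneg (hφ : IsVal φ) (h0 : ∀ K, 0 ≤ φ K) (x : V) (K : ConvexBody V) :
    0 ≤ MV.D x φ K := by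
  by_contra h
  push Not at h
  have h1 := add_seg_smul hφ x (c := (φ K + 1) / (-MV.D x φ K))
    (div_nonneg (by linarith [h0 K]) (by linarith)) K
  have h2 := h0 (K + seg (((φ K + 1) / (-MV.D x φ K)) • x))
  rw [h1] at h2
  have h3 : (φ K + 1) / (-MV.D x φ K) * MV.D x φ K = -(φ K + 1) := by
    have h4 : MV.D x φ K ≠ 0 := h.ne
    rw [div_neg, neg_mul, div_mul_cancel₀ _ h4]
  rw [h3] at h2
  linarith

theorem D_hom {j : ℕ} (hφ : IsVal φ) (hj : IsHom (j + 1) φ) (x : V) : IsHom j (MV.D x φ) := by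
  have key : ∀ (c : ℝ) (K : ConvexBody V), 0 < c → MV.D x φ (c • K) = c ^ j * MV.D x φ K := by
    intro c K hc
    have h1 : c • K + seg x = c • (K + seg (c⁻¹ • x)) := by
      rw [smul_add_body, smul_seg hc.le, smul_smul, mul_inv_cancel₀ hc.ne', one_smul]
    have e : MV.D x φ (c • K) = φ (c • K + seg x) - φ (c • K) := rfl
    rw [e, h1, hj c _ hc.le, hj c _ hc.le, add_seg_smul hφ x (inv_nonneg.2 hc.le)]
    rw [pow_succ]
    field_simp
    ring
  intro c K hc
  have hcont1 : Continuous (fun c : ℝ => MV.D x φ (c • K)) :=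
    (isVal_D hφ x).cont.comp (continuous_id.smul continuous_const)
  have hcont2 : Continuous (fun c : ℝ => c ^ j * MV.D x φ K) := by fun_prop
  have hcl : IsClosed {c : ℝ | MV.D x φ (c • K) = c ^ j * MV.D x φ K} :=
    isClosed_eq hcont1 hcont2
  have hsub : Ioi (0 : ℝ) ⊆ {c : ℝ | MV.D x φ (c • K) = c ^ j * MV.D x φ K} :=
    fun c hc => key c K hc
  have := closure_minimal hsub hcl
  rw [closure_Ioi] at this
  exact this hc

theorem IsHom.const_of_zero (hj : IsHom 0 φ) (K : ConvexBody V) : φ K = φ 0 := by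
  have := hj 0 K le_rfl
  rw [zero_smul_body, pow_zero, one_mul] at this
  exact this.symm

theorem D_hom_zero (hφ : IsVal φ) (hj : IsHom 0 φ) (x : V) (K : ConvexBody V) :
    MV.D x φ K = 0 := by
  simp only [MV.D]
  rw [hj.const_of_zero, hj.const_of_zero K, sub_self]

theorem D_add (x : V) (φ ψ : ConvexBody V → ℝ) :
    MV.D x (fun K => φ K + ψ K) = fun K => MV.D x φ K + MV.D x ψ K := by
  funext K
  simp only [MV.D]
  ring

theorem D_iso (g : V ≃ₗᵢ[ℝ] V) (x : V) (φ : ConvexBody V → ℝ) (K : ConvexBody V) :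
    MV.D x (fun L => φ (isoB g L)) K = MV.D (g x) φ (isoB g K) := by
  simp only [MV.D]
  rw [isoB_add, isoB_seg]

/-- pullback and difference -/
theorem D_pull (f : W →L[ℝ] V) (x : W) (φ : ConvexBody V → ℝ) (K : ConvexBody W) :
    MV.D x (fun L : ConvexBody W => φ (mapB f L)) K = MV.D (f x) φ (mapB f K) := by
  simp only [MV.D]
  rw [mapB_add, mapB_seg]

/-- shear invariance -/
theorem D_shear (hφ : IsVal φ) (x y : V) (c : ℝ) (K : ConvexBody V) :
    MV.D x (MV.D (y + c • x) φ) K = MV.D x (MV.D y φ) K := by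
  have e : ∀ z, MV.D x (MV.D z φ) K = MV.D x φ (K + seg z) - MV.D x φ K := by
    intro z
    simp only [MV.D]
    rw [add_right_comm]
    ring
  rw [e, e]
  congr 1
  apply D_congr hφ
  intro v hv
  rw [hs_add, hs_add, hs_seg, hs_seg, inner_add_right, real_inner_smul_right, hv]
  simp

theorem isVal_Ds (hφ : IsVal φ) (xs : List V) : IsVal (Ds xs φ) := by
  induction xs with
  | nil => exact hφ
  | cons x xs ih => exact isVal_D ih x

theorem Ds_nil (φ : ConvexBody V → ℝ) : MV.Ds [] φ = φ := rfl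

theorem Ds_cons (x : V) (xs : List V) (φ : ConvexBody V → ℝ) :
    MV.Ds (x :: xs) φ = MV.D x (MV.Ds xs φ) := rfl

theorem Ds_cons' (x : V) (xs : List V) (φ : ConvexBody V → ℝ) :
    MV.Ds (x :: xs) φ = MV.Ds xs (MV.D x φ) := by
  induction xs with
  | nil => rfl
  | cons y ys ih =>
    rw [Ds_cons, Ds_cons, D_comm, ← Ds_cons x ys, ih, Ds_cons]

theorem Ds_append (xs ys : List V) (φ : ConvexBody V → ℝ) :
    MV.Ds (xs ++ ys) φ = MV.Ds xs (MV.Ds ys φ) := by
  simp only [MV.Ds, List.foldr_append]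

theorem Ds_perm {xs ys : List V} (h : xs.Perm ys) (φ : ConvexBody V → ℝ) :
    MV.Ds xs φ = MV.Ds ys φ := by
  induction h with
  | nil => rfl
  | cons x _ ih => rw [Ds_cons, Ds_cons, ih]
  | swap x y l => rw [Ds_cons, Ds_cons, Ds_cons, Ds_cons, D_comm]
  | trans _ _ ih1 ih2 => rw [ih1, ih2]

theorem Ds_nonneg (hφ : IsVal φ) (h0 : ∀ K, 0 ≤ φ K) (xs : List V) (K : ConvexBody V) :
    0 ≤ MV.Ds xs φ K := by
  induction xs generalizing K with
  | nil => exact h0 K
  | cons x xs ih => exact D_nonneg (isVal_Ds hφ xs) ih x K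

theorem Ds_congr (hφ : IsVal φ) (xs : List V) {K L : ConvexBody V}
    (h : ∀ v, (∀ x ∈ xs, ⟪v, x⟫_ℝ = 0) → hs K v = hs L v) : MV.Ds xs φ K = MV.Ds xs φ L := by
  induction xs generalizing K L with
  | nil =>
    have : K = L := hs_ext fun v => h v (by simp)
    rw [this]
  | cons x xs ih =>
    obtain ⟨w, hw, x', hx', hxx⟩ :=
      Submodule.exists_add_mem_mem_orthogonal (K := Submodule.span ℝ {y | y ∈ xs}) x
    have hperp : ∀ v, (∀ y ∈ xs, ⟪v, y⟫_ℝ = 0) → ⟪v, w⟫_ℝ = 0 := by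
      intro v hv
      have h1 : v ∈ (Submodule.span ℝ {y | y ∈ xs})ᗮ := by
        rw [Submodule.mem_orthogonal]
        intro u hu
        induction hu using Submodule.span_induction with
        | mem y hy => rw [real_inner_comm]; exact hv y hy
        | zero => simp
        | add a b _ _ ha hb => rw [inner_add_left, ha, hb, add_zero]
        | smul c a _ ha => rw [real_inner_smul_left, ha, mul_zero]
      rw [real_inner_comm]
      exact (Submodule.mem_orthogonal _ v).1 h1 w hw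
    have hx'2 : ∀ y ∈ xs, ⟪x', y⟫_ℝ = 0 := by
      intro y hy
      rw [real_inner_comm]
      exact (Submodule.mem_orthogonal _ x').1 hx' y (Submodule.subset_span hy)
    -- replace x by x'
    have hseg : ∀ N : ConvexBody V, MV.Ds xs φ (N + seg x) = MV.Ds xs φ (N + seg x') := by
      intro N
      apply ih
      intro v hv
      rw [hs_add, hs_add, hs_seg, hs_seg, hxx, inner_add_right, hperp v hv, zero_add]
    have e1 : ∀ N : ConvexBody V, MV.Ds (x :: xs) φ N = MV.D x' (MV.Ds xs φ) N := by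
      intro N
      show MV.Ds xs φ (N + seg x) - MV.Ds xs φ N = MV.Ds xs φ (N + seg x') - MV.Ds xs φ N
      rw [hseg]
    rw [e1, e1]
    by_cases hx0 : x' = 0
    · rw [hx0, D_zero (isVal_Ds hφ xs), D_zero (isVal_Ds hφ xs)]
    · rw [D_prjL (isVal_Ds hφ xs) hx0 K, D_prjL (isVal_Ds hφ xs) hx0 L]
      have hKL : ∀ v, (∀ y ∈ xs, ⟪v, y⟫_ℝ = 0) →
          hs (mapB (prjL x') K) v = hs (mapB (prjL x') L) v := by
        intro v hv
        rw [hs_mapB_prjL, hs_mapB_prjL]
        apply h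
        intro y hy
        have h2 : ∀ y ∈ xs, ⟪prjL x' v, y⟫_ℝ = 0 := by
          intro y hy
          rw [prjL_apply, inner_sub_left, real_inner_smul_left, hv y hy, hx'2 y hy]
          ring
        rcases List.mem_cons.1 hy with rfl | hy
        · rw [hxx, inner_add_right, hperp _ h2, real_inner_comm, inner_prjL hx0]
          ring
        · exact h2 y hy
      show MV.Ds xs φ (mapB (prjL x') K + seg x') - MV.Ds xs φ (mapB (prjL x') K)
        = MV.Ds xs φ (mapB (prjL x') L + seg x') - MV.Ds xs φ (mapB (prjL x') L)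
      rw [ih (K := mapB (prjL x') K) (L := mapB (prjL x') L) hKL,
        ih (K := mapB (prjL x') K + seg x') (L := mapB (prjL x') L + seg x') (by
          intro v hv
          rw [hs_add, hs_add, hKL v hv])]

theorem Ds_hom {j : ℕ} (hφ : IsVal φ) (xs : List V) (hj : IsHom (j + xs.length) φ) :
    IsHom j (MV.Ds xs φ) := by
  induction xs generalizing j with
  | nil => exact hj
  | cons x xs ih =>
    apply D_hom (isVal_Ds hφ xs)
    apply ih
    rw [List.length_cons] at hj
    rw [show j + 1 + xs.length = j + (xs.length + 1) from by ring]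
    exact hj

theorem Ds_hom_lt {j : ℕ} (hφ : IsVal φ) (xs : List V) (hj : IsHom j φ) (h : j < xs.length)
    (K : ConvexBody V) : MV.Ds xs φ K = 0 := by
  induction xs generalizing K with
  | nil => simp at h
  | cons x xs ih =>
    rw [List.length_cons] at h
    rcases (Nat.lt_succ_iff.1 h).eq_or_lt with h1 | h1
    · apply D_hom_zero (isVal_Ds hφ xs)
      apply Ds_hom hφ
      rw [zero_add, ← h1]
      exact hj
    · show MV.Ds xs φ (K + seg x) - MV.Ds xs φ K = 0
      rw [ih h1, ih h1, sub_self]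

theorem Ds_pull_fun (f : W →L[ℝ] V) (xs : List W) (φ : ConvexBody V → ℝ) :
    MV.Ds xs (fun L : ConvexBody W => φ (mapB f L))
      = fun K => MV.Ds (xs.map f) φ (mapB f K) := by
  induction xs with
  | nil => rfl
  | cons x xs ih =>
    rw [Ds_cons, ih]
    funext K
    rw [D_pull, List.map_cons, Ds_cons]

theorem Ds_iso (g : V ≃ₗᵢ[ℝ] V) (xs : List V) (φ : ConvexBody V → ℝ) (K : ConvexBody V) :
    MV.Ds xs (fun L => φ (isoB g L)) K = MV.Ds (xs.map g) φ (isoB g K) := by
  have := congrFun (Ds_pull_fun (((g : V ≃L[ℝ] V) : V →L[ℝ] V)) xs φ) K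
  exact this

theorem Ds_pull (f : W →L[ℝ] V) (xs : List W) (φ : ConvexBody V → ℝ) (K : ConvexBody W) :
    MV.Ds xs (fun L : ConvexBody W => φ (mapB f L)) K = MV.Ds (xs.map f) φ (mapB f K) := by
  rw [Ds_pull_fun]

theorem Ds_sum {ι : Type*} (s : Finset ι) (c : ι → ℝ) (f : ι → ConvexBody V → ℝ) (xs : List V)
    (K : ConvexBody V) :
    MV.Ds xs (fun L => ∑ i ∈ s, c i * f i L) K = ∑ i ∈ s, c i * MV.Ds xs (f i) K := by
  induction xs generalizing K with
  | nil => rfl
  | cons x xs ih =>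
    show MV.Ds xs (fun L => ∑ i ∈ s, c i * f i L) (K + seg x)
      - MV.Ds xs (fun L => ∑ i ∈ s, c i * f i L) K = _
    rw [ih, ih, ← Finset.sum_sub_distrib]
    apply Finset.sum_congr rfl
    intro i _
    rw [← mul_sub]
    rfl

/-- `Ds xs φ K` is a finite signed combination of values of `φ` (with coefficients and bodies
depending only on `xs` and `K`) -/
theorem Ds_expand (xs : List V) (K : ConvexBody V) :
    ∃ (m : ℕ) (c : Fin m → ℝ) (L : Fin m → ConvexBody V), ∀ φ : ConvexBody V → ℝ,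
      MV.Ds xs φ K = ∑ i, c i * φ (L i) := by
  induction xs generalizing K with
  | nil => exact ⟨1, fun _ => 1, fun _ => K, fun φ => by simp [Ds_nil]⟩
  | cons x xs ih =>
    obtain ⟨m1, c1, L1, h1⟩ := ih (K + seg x)
    obtain ⟨m2, c2, L2, h2⟩ := ih K
    refine ⟨m1 + m2, Fin.append c1 (fun i => - c2 i), Fin.append L1 L2, fun φ => ?_⟩
    rw [Fin.sum_univ_add]
    simp only [Fin.append_left, Fin.append_right]
    show MV.Ds xs φ (K + seg x) - MV.Ds xs φ K = _
    rw [h1, h2]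
    simp only [neg_mul, Finset.sum_neg_distrib]
    ring

theorem orthonormal_cons {x : V} {xs : List V}
    (hx : ‖x‖ = 1) (hxs : ∀ y ∈ xs, ⟪x, y⟫_ℝ = 0)
    (ho : Orthonormal ℝ (fun i : Fin xs.length => xs.get i)) :
    Orthonormal ℝ (fun i : Fin (x :: xs).length => (x :: xs).get i) := by
  constructor
  · intro i
    refine Fin.cases ?_ (fun i => ?_) i
    · simpa using hx
    · exact ho.1 i
  · intro i j
    refine Fin.cases ?_ (fun i => ?_) i
    · refine Fin.cases ?_ (fun j => ?_) j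
      · intro h; exact absurd rfl h
      · intro _
        exact hxs _ (List.get_mem xs j)
    · refine Fin.cases ?_ (fun j => ?_) j
      · intro _
        show ⟪xs.get i, x⟫_ℝ = 0
        rw [real_inner_comm]
        exact hxs _ (List.get_mem xs i)
      · intro h
        exact ho.2 (fun hij => h (congrArg Fin.succ hij))

/-- reduction to orthonormal tuples inside a subspace -/
theorem Ds_zero_of_orthonormal_sub (hφ : IsVal φ) (E : Submodule ℝ V) (k : ℕ)
    (h : ∀ xs : List V, xs.length = k → Orthonormal ℝ (fun i : Fin xs.length => xs.get i) →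
      (∀ x ∈ xs, x ∈ E) → ∀ K, MV.Ds xs φ K = 0) (xs : List V) (hk : xs.length = k)
    (hu : ∀ x ∈ xs, x ∈ E) (K : ConvexBody V) :
    MV.Ds xs φ K = 0 := by
  have key : ∀ (xs es : List V), xs.length + es.length = k →
      (∀ x ∈ xs, x ∈ E) → (∀ x ∈ es, x ∈ E) →
      Orthonormal ℝ (fun i : Fin es.length => es.get i) → ∀ K, MV.Ds (xs ++ es) φ K = 0 := by
    intro xs
    induction xs with
    | nil =>
      intro es hl _ hE ho K
      exact h es (by simpa using hl) ho hE K
    | cons x xs ih =>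
      intro es hl hx hE ho K
      have hperm : (x :: xs ++ es).Perm (xs ++ (x :: es)) := by
        rw [List.cons_append]
        exact List.perm_middle.symm
      rw [Ds_perm hperm, Ds_append]
      obtain ⟨w, hw, x', hx', hxx⟩ :=
        Submodule.exists_add_mem_mem_orthogonal (K := Submodule.span ℝ {y | y ∈ es}) x
      have hwE : w ∈ E := by
        have : Submodule.span ℝ {y | y ∈ es} ≤ E := Submodule.span_le.2 fun y hy => hE y hy
        exact this hw
      have hx'E : x' ∈ E := by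
        have : x' = x - w := by rw [hxx]; abel
        rw [this]
        exact E.sub_mem (hx x (by simp)) hwE
      have hperp : ∀ v, (∀ y ∈ es, ⟪v, y⟫_ℝ = 0) → ⟪v, w⟫_ℝ = 0 := by
        intro v hv
        have h1 : v ∈ (Submodule.span ℝ {y | y ∈ es})ᗮ := by
          rw [Submodule.mem_orthogonal]
          intro u hu
          induction hu using Submodule.span_induction with
          | mem y hy => rw [real_inner_comm]; exact hv y hy
          | zero => simp
          | add a b _ _ ha hb => rw [inner_add_left, ha, hb, add_zero]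
          | smul c a _ ha => rw [real_inner_smul_left, ha, mul_zero]
        rw [real_inner_comm]
        exact (Submodule.mem_orthogonal _ v).1 h1 w hw
      have hx'2 : ∀ y ∈ es, ⟪x', y⟫_ℝ = 0 := by
        intro y hy
        rw [real_inner_comm]
        exact (Submodule.mem_orthogonal _ x').1 hx' y (Submodule.subset_span hy)
      have hseg : ∀ N : ConvexBody V, MV.Ds es φ (N + seg x) = MV.Ds es φ (N + seg x') := by
        intro N
        apply Ds_congr hφ
        intro v hv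
        rw [hs_add, hs_add, hs_seg, hs_seg, hxx, inner_add_right, hperp v hv, zero_add]
      have e1 : MV.Ds (x :: es) φ = MV.D x' (MV.Ds es φ) := by
        funext N
        show MV.Ds es φ (N + seg x) - MV.Ds es φ N = MV.Ds es φ (N + seg x') - MV.Ds es φ N
        rw [hseg]
      rw [e1]
      by_cases hx0 : x' = 0
      · have e2 : MV.D x' (MV.Ds es φ) = fun _ => 0 := by
          funext N
          rw [hx0, D_zero (isVal_Ds hφ es)]
        rw [e2]
        have e3 : ∀ (ys : List V), MV.Ds ys (fun _ : ConvexBody V => (0 : ℝ)) = fun _ => 0 := by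
          intro ys
          induction ys with
          | nil => rfl
          | cons y ys ih =>
            rw [Ds_cons, ih]
            funext N
            simp [MV.D]
        rw [e3]
      · have hn : 0 < ‖x'‖ := norm_pos_iff.2 hx0
        have e2 : MV.D x' (MV.Ds es φ)
            = fun N => ‖x'‖ * MV.Ds ((‖x'‖⁻¹ • x') :: es) φ N := by
          funext N
          rw [Ds_cons, D_smul (isVal_Ds hφ es), abs_of_pos (inv_pos.2 hn)]
          field_simp
        rw [e2]
        have e3 := Ds_sum (Finset.univ : Finset Unit) (fun _ => ‖x'‖)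
          (fun _ => MV.Ds ((‖x'‖⁻¹ • x') :: es) φ) xs K
        simp only [Finset.univ_unique, Finset.sum_singleton] at e3
        rw [e3, ← Ds_append, ih ((‖x'‖⁻¹ • x') :: es) (by
            rw [List.length_cons] at hl ⊢
            omega) (fun y hy => hx y (List.mem_cons_of_mem _ hy)) (by
            intro y hy
            rcases List.mem_cons.1 hy with rfl | hy
            · exact E.smul_mem _ hx'E
            · exact hE y hy) (by
            apply orthonormal_cons _ _ ho
            · rw [norm_smul, norm_inv, norm_norm, inv_mul_cancel₀ hn.ne']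
            · intro y hy
              rw [real_inner_smul_left, hx'2 y hy, mul_zero])]
        ring
  have := key xs [] (by simpa using hk) hu (by simp) (by
    constructor
    · intro i; exact absurd i.2 (by simp)
    · intro i; exact absurd i.2 (by simp)) K
  simpa using this

/-- reduction to orthonormal tuples -/
theorem Ds_zero_of_orthonormal (hφ : IsVal φ) (k : ℕ)
    (h : ∀ xs : List V, xs.length = k → Orthonormal ℝ (fun i : Fin xs.length => xs.get i) →
      ∀ K, MV.Ds xs φ K = 0) (xs : List V) (hk : xs.length = k) (K : ConvexBody V) :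
    MV.Ds xs φ K = 0 :=
  Ds_zero_of_orthonormal_sub hφ ⊤ k (fun xs h1 h2 _ => h xs h1 h2) xs hk (by simp) K

/-- the same inside the orthogonal complement of a vector -/
theorem Ds_zero_of_orthonormal_perp (hφ : IsVal φ) (u : V) (k : ℕ)
    (h : ∀ xs : List V, xs.length = k → Orthonormal ℝ (fun i : Fin xs.length => xs.get i) →
      (∀ x ∈ xs, ⟪u, x⟫_ℝ = 0) → ∀ K, MV.Ds xs φ K = 0) (xs : List V) (hk : xs.length = k)
    (hu : ∀ x ∈ xs, ⟪u, x⟫_ℝ = 0) (K : ConvexBody V) :
    MV.Ds xs φ K = 0 :=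
  Ds_zero_of_orthonormal_sub hφ (Submodule.span ℝ {u})ᗮ k (fun xs h1 h2 h3 => h xs h1 h2
    (fun x hx => Submodule.mem_orthogonal_singleton_iff_inner_right.1 (h3 x hx))) xs hk
    (fun x hx => Submodule.mem_orthogonal_singleton_iff_inner_right.2 (hu x hx)) K

end Val
end MV
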