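import Pool.Agent.Lib.MP_f30071_gt.Basic

open MeasureTheory Set
open scoped InnerProductSpace Pointwise ENNReal

set_option linter.unusedSectionVars false
set_option linter.unusedVariables false
set_option linter.unusedSimpArgs false

namespace MV
namespace FrA

/-- a nonempty compact convex set of reals fattened by the unit interval -/
theorem vol_add_Icc {T : Set ℝ} (hT : IsCompact T) (hc : Convex ℝ T) (hn : T.Nonempty) :
    volume (T + Icc (0 : ℝ) 1) = volume T + 1 := by
  have h1 : IsConnected T := ⟨hn, hc.isPreconnected⟩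
  have h2 := eq_Icc_of_connected_compact h1 hT
  set a := sInf T
  set b := sSup T
  have hab : a ≤ b := by
    obtain ⟨x, hx⟩ := hn
    rw [h2] at hx
    exact hx.1.trans hx.2
  have h3 : Icc a b + Icc (0 : ℝ) 1 = Icc (a + 0) (b + 1) := by
    exact Set.Icc_add_Icc hab zero_le_one
  rw [h2, h3, Real.volume_Icc, Real.volume_Icc, ← ENNReal.ofReal_one,
    ← ENNReal.ofReal_add (by linarith) zero_le_one]
  congr 1
  ring

section
variable {V : Type*} [NormedAddCommGroup V] [InnerProductSpace ℝ V] [FiniteDimensional ℝ V]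
  [MeasurableSpace V] [BorelSpace V]

/-- coordinates `t u + w` -/
noncomputable def F (u : V) : ℝ × (ℝ ∙ u)ᗮ → V := fun q => q.1 • u + (q.2 : V)

theorem F_mp {u : V} (hu : ‖u‖ = 1) : MeasurePreserving (F u) (volume.prod volume) volume := by
  have h1 : MeasurePreserving (LinearIsometryEquiv.toSpanUnitSingleton (𝕜 := ℝ) u hu)
      (volume : Measure ℝ) (volume : Measure (ℝ ∙ u)) :=
    LinearIsometryEquiv.measurePreserving _
  have h2 := h1.prod (MeasurePreserving.id (volume : Measure (ℝ ∙ u)ᗮ))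
  have h3 := ((ℝ ∙ u).measurePreserving_measurableEquivProd (0 : V)).symm
  rw [InnerProductSpace.euclideanHausdorffMeasure_eq_volume] at h3
  have h4 := h3.comp h2
  have h5 : F u = (⇑((ℝ ∙ u).measurableEquivProd (0 : V)).symm ∘
      Prod.map (LinearIsometryEquiv.toSpanUnitSingleton (𝕜 := ℝ) u hu) id) := by
    funext q
    simp [F]
  rw [h5]
  exact h4

/-- the line section of `K` in direction `u` over `w` -/
def sec (u : V) (K : Set V) (w : (ℝ ∙ u)ᗮ) : Set ℝ := {t | t • u + (w : V) ∈ K}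

theorem vol_eq_lint {u : V} (hu : ‖u‖ = 1) {K : Set V} (hK : IsCompact K) :
    volume K = ∫⁻ w : (ℝ ∙ u)ᗮ, volume (sec u K w) := by
  rw [← (F_mp hu).measure_preimage hK.measurableSet.nullMeasurableSet,
    Measure.prod_apply_symm ((F_mp hu).measurable hK.measurableSet)]
  rfl

theorem mem_perp {u : V} (hu : ‖u‖ = 1) (x : V) : x - ⟪u, x⟫_ℝ • u ∈ (ℝ ∙ u)ᗮ := by
  rw [Submodule.mem_orthogonal_singleton_iff_inner_right, inner_sub_right, real_inner_smul_right,
    real_inner_self_eq_norm_sq, hu]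
  ring

/-- orthogonal projection to the hyperplane `u⊥` -/
noncomputable def pr1 {u : V} (hu : ‖u‖ = 1) (x : V) : (ℝ ∙ u)ᗮ := ⟨x - ⟪u, x⟫_ℝ • u, mem_perp hu x⟩

theorem pr1_F {u : V} (hu : ‖u‖ = 1) (t : ℝ) (w : (ℝ ∙ u)ᗮ) : pr1 hu (t • u + (w : V)) = w := by
  apply Subtype.ext
  have h := Submodule.mem_orthogonal_singleton_iff_inner_right.1 w.2
  simp only [pr1, inner_add_right, real_inner_smul_right, real_inner_self_eq_norm_sq, hu, h]
  simp

theorem eq_F {u : V} (hu : ‖u‖ = 1) (x : V) : ⟪u, x⟫_ℝ • u + (pr1 hu x : V) = x := by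
  simp [pr1]

theorem sec_nonempty_iff {u : V} (hu : ‖u‖ = 1) (K : Set V) (w : (ℝ ∙ u)ᗮ) :
    (sec u K w).Nonempty ↔ w ∈ pr1 hu '' K := by
  constructor
  · rintro ⟨t, ht⟩
    exact ⟨_, ht, pr1_F hu t w⟩
  · rintro ⟨x, hx, rfl⟩
    refine ⟨⟪u, x⟫_ℝ, ?_⟩
    show ⟪u, x⟫_ℝ • u + (pr1 hu x : V) ∈ K
    rw [eq_F]
    exact hx

theorem sec_convex (u : V) {K : Set V} (hK : Convex ℝ K) (w : (ℝ ∙ u)ᗮ) :
    Convex ℝ (sec u K w) := by
  intro s hs t ht a b ha hb hab
  show (a • s + b • t) • u + (w : V) ∈ K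
  have := hK hs ht ha hb hab
  have h2 : a • (s • u + (w : V)) + b • (t • u + (w : V)) = (a • s + b • t) • u + (w : V) := by
    have h3 : (w : V) = (a + b) • (w : V) := by rw [hab, one_smul]
    conv_rhs => rw [h3]
    simp only [smul_add, add_smul, smul_smul, smul_eq_mul]
    abel
  rw [← h2]
  exact this

theorem sec_compact {u : V} (hu : ‖u‖ = 1) {K : Set V} (hK : IsCompact K) (w : (ℝ ∙ u)ᗮ) :
    IsCompact (sec u K w) := by
  have h1 : IsClosed (sec u K w) :=
    hK.isClosed.preimage (f := fun t : ℝ => t • u + (w : V)) (by fun_prop)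
  have h2 : sec u K w ⊆ (fun x => ⟪u, x⟫_ℝ) '' K := by
    intro t ht
    refine ⟨_, ht, ?_⟩
    have h := Submodule.mem_orthogonal_singleton_iff_inner_right.1 w.2
    simp [inner_add_right, real_inner_smul_right, real_inner_self_eq_norm_sq, hu, h]
  exact (hK.image (by fun_prop)).of_isClosed_subset h1 h2

theorem coe_seg (x : V) : (seg x : Set V) = (fun t : ℝ => t • x) '' Icc (0 : ℝ) 1 := by
  classical
  show convexHull ℝ (((({0, x} : Finset V)) : Set V)) = _
  rw [Finset.coe_pair, convexHull_pair, segment_eq_image]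
  simp

theorem sec_add_seg {u : V} (hu : ‖u‖ = 1) (K : ConvexBody V) (w : (ℝ ∙ u)ᗮ) :
    sec u ((K + seg u : ConvexBody V) : Set V) w = sec u (K : Set V) w + Icc (0 : ℝ) 1 := by
  rw [ConvexBody.coe_add, coe_seg]
  ext t
  constructor
  · intro ht
    obtain ⟨a, ha, b, ⟨r, hr, rfl⟩, hab⟩ := Set.mem_add.1 (show t • u + (w : V) ∈ _ from ht)
    refine Set.mem_add.2 ⟨t - r, ?_, r, hr, by ring⟩
    show (t - r) • u + (w : V) ∈ (K : Set V)
    have : (t - r) • u + (w : V) = a := by
      rw [sub_smul]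
      have h1 : t • u + (w : V) = a + r • u := hab.symm
      rw [sub_add_eq_add_sub, h1]
      abel
    rw [this]
    exact ha
  · intro ht
    obtain ⟨s, hs, r, hr, rfl⟩ := Set.mem_add.1 ht
    refine Set.mem_add.2 ⟨s • u + (w : V), hs, r • u, ⟨r, hr, rfl⟩, ?_⟩
    rw [add_smul]
    abel

theorem vol_add_seg {u : V} (hu : ‖u‖ = 1) (K : ConvexBody V) :
    volume ((K + seg u : ConvexBody V) : Set V)
      = volume (K : Set V) + volume (pr1 hu '' (K : Set V)) := by
  rw [vol_eq_lint hu (K + seg u).isCompact, vol_eq_lint hu K.isCompact]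
  have hm : MeasurableSet (pr1 hu '' (K : Set V)) := by
    have hc : Continuous (pr1 hu) := by
      unfold pr1
      fun_prop
    exact (K.isCompact.image hc).measurableSet
  have h1 : ∀ w : (ℝ ∙ u)ᗮ, volume (sec u ((K + seg u : ConvexBody V) : Set V) w)
      = volume (sec u (K : Set V) w) + (pr1 hu '' (K : Set V)).indicator 1 w := by
    intro w
    rw [sec_add_seg hu]
    by_cases hw : w ∈ pr1 hu '' (K : Set V)
    · rw [Set.indicator_of_mem hw, Pi.one_apply]
      exact vol_add_Icc (sec_compact hu K.isCompact w) (sec_convex u K.convex w)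
        ((sec_nonempty_iff hu _ w).2 hw)
    · rw [Set.indicator_of_notMem hw, add_zero]
      have h2 : sec u (K : Set V) w = ∅ := by
        rw [← Set.not_nonempty_iff_eq_empty]
        intro h3
        exact hw ((sec_nonempty_iff hu _ w).1 h3)
      rw [h2]
      simp
  simp_rw [h1]
  rw [lintegral_add_right _ (measurable_one.indicator hm), lintegral_indicator_one hm]

/-- Euclidean volume of a body -/
noncomputable def volB (K : ConvexBody V) : ℝ := (volume (K : Set V)).toReal

/-- normalisation constant between `(n-1)`-dimensional Hausdorff measure and volume -/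
noncomputable def kapH (n : ℕ) : ℝ :=
  ((Measure.addHaarScalarFactor (volume : Measure (EuclideanSpace ℝ (Fin (n - 1))))
    (μH[((n - 1 : ℕ) : ℝ)] : Measure (EuclideanSpace ℝ (Fin (n - 1)))) : NNReal) : ℝ)

theorem kapH_pos (n : ℕ) : 0 < kapH n := by
  have h := Measure.addHaarScalarFactor_volume_hausdorffMeasure_ne_zero (n - 1)
  unfold kapH
  exact_mod_cast pos_iff_ne_zero.2 h

theorem volume_pr1 {u : V} (hu : ‖u‖ = 1) (K : Set V) :
    (volume (pr1 hu '' K)).toReal = kapH (Module.finrank ℝ V) *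
      (μH[((Module.finrank ℝ V : ℕ) : ℝ) - 1] ((fun x => x - ⟪u, x⟫_ℝ • u) '' K)).toReal := by
  have hn : Module.finrank ℝ (ℝ ∙ u)ᗮ = Module.finrank ℝ V - 1 := by
    have h1 := Submodule.finrank_add_finrank_orthogonal (ℝ ∙ u)
    have h2 : Module.finrank ℝ (ℝ ∙ u) = 1 := finrank_span_singleton (by
      intro h; rw [h, norm_zero] at hu; exact zero_ne_one hu)
    omega
  have hn1 : 1 ≤ Module.finrank ℝ V := by
    have h1 := Submodule.finrank_add_finrank_orthogonal (ℝ ∙ u)
    have h2 : Module.finrank ℝ (ℝ ∙ u) = 1 := finrank_span_singleton (by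
      intro h; rw [h, norm_zero] at hu; exact zero_ne_one hu)
    omega
  have h3 : (volume : Measure (ℝ ∙ u)ᗮ) = Measure.addHaarScalarFactor
      (volume : Measure (EuclideanSpace ℝ (Fin (Module.finrank ℝ V - 1))))
      μH[((Module.finrank ℝ V - 1 : ℕ) : ℝ)] • μH[((Module.finrank ℝ V - 1 : ℕ) : ℝ)] := by
    rw [← Measure.euclideanHausdorffMeasure_def, ← hn,
      InnerProductSpace.euclideanHausdorffMeasure_eq_volume]
  have h4 : (μH[((Module.finrank ℝ V : ℕ) : ℝ) - 1] ((fun x => x - ⟪u, x⟫_ℝ • u) '' K))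
      = μH[((Module.finrank ℝ V - 1 : ℕ) : ℝ)] (pr1 hu '' K) := by
    have h5 : ((Module.finrank ℝ V : ℕ) : ℝ) - 1 = ((Module.finrank ℝ V - 1 : ℕ) : ℝ) := by
      rw [Nat.cast_sub hn1]; simp
    have h6 : (fun x => x - ⟪u, x⟫_ℝ • u) '' K = Subtype.val '' (pr1 hu '' K) := by
      rw [Set.image_image]
      rfl
    rw [h5, h6, Isometry.hausdorffMeasure_image isometry_subtype_coe (Or.inl (by positivity))]
  rw [h4, h3, Measure.smul_apply, ENNReal.smul_def, smul_eq_mul, ENNReal.toReal_mul]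
  rfl

theorem D_volB {u : V} (hu : ‖u‖ = 1) (K : ConvexBody V) :
    D u volB K = kapH (Module.finrank ℝ V) *
      (μH[((Module.finrank ℝ V : ℕ) : ℝ) - 1] ((fun x => x - ⟪u, x⟫_ℝ • u) '' (K : Set V))).toReal := by
  rw [← volume_pr1 hu]
  unfold D volB
  rw [vol_add_seg hu K, ENNReal.toReal_add]
  · ring
  · exact K.isCompact.measure_lt_top.ne
  · have hc : Continuous (pr1 hu) := by
      unfold pr1
      fun_prop
    exact (K.isCompact.image hc).measure_lt_top.ne

end
end FrA
end MV
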